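import Pool.Agent.H19.EW.J2

/-!
# A weight at the threshold without oscillation
-/

open Complex MeasureTheory Filter Topology Set Metric

set_option autoImplicit false
set_option linter.unusedSectionVars false
set_option linter.unusedVariables false

namespace H19.EW

open H313.TK

noncomputable section

/-- the reverse inversion: the weight `u ↦ ∑ w(mu)` has the weighted sum `w(1/x)` -/
theorem S_sum {w : ℝ → ℝ} (hw : Wt w) {x : ℝ} (hx : 0 < x) :
    S (fun u => ∑' m : ℕ, w (((m : ℝ) + 1) * u)) x = w (1 / x) := by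
  obtain ⟨B, hB, hb⟩ := hw.bd
  set F : ℕ × ℕ → ℝ := fun p => ((ArithmeticFunction.moebius p.2 : ℤ) : ℝ) * w ((((p.1 : ℝ) + 1) * (p.2 : ℝ)) / x) with hF
  have hs4' : Summable (fun n : ℕ => 1 / ((n : ℝ) + 1) ^ 4) := by
    have := (summable_nat_add_iff 1).2 sum4
    refine this.congr fun n => ?_
    push_cast
    rfl
  have hFb : ∀ p, ‖F p‖ ≤ B * x ^ 4 * ((1 / ((p.1 : ℝ) + 1) ^ 4) * (1 / (p.2 : ℝ) ^ 4)) := by
    intro p
    simp only [hF]
    rw [Real.norm_eq_abs, abs_mul]
    rcases Nat.eq_zero_or_pos p.2 with h | h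
    · rw [h]; simp
    · have h2 : (0:ℝ) < (p.2 : ℝ) := by exact_mod_cast h
      have h3 := (hb ((((p.1 : ℝ) + 1) * (p.2 : ℝ)) / x) (by positivity)).2
      calc _ ≤ 1 * (B / ((((p.1 : ℝ) + 1) * (p.2 : ℝ)) / x) ^ 4) := mul_le_mul (mu_abs _) h3 (abs_nonneg _) zero_le_one
        _ = _ := by field_simp
  have hmaj : Summable (fun p : ℕ × ℕ => (1 / ((p.1 : ℝ) + 1) ^ 4) * (1 / (p.2 : ℝ) ^ 4)) :=
    hs4'.mul_of_nonneg sum4 (fun n => by positivity) (fun n => by positivity)
  have hFs : Summable F := Summable.of_norm_bounded (hmaj.mul_left (B * x ^ 4)) hFb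
  have h1 : ∑' m, ∑' n, F (m, n) = ∑' n, ∑' m, F (m, n) :=
    (Summable.tsum_comm (f := fun m n => F (m, n)) hFs).symm
  have h2 : ∀ m : ℕ, ∑' n, F (m, n) = S w (x / ((m : ℝ) + 1)) := by
    intro m
    unfold S
    refine tsum_congr fun n => ?_
    simp only [hF]
    congr 2
    have : (m : ℝ) + 1 ≠ 0 := by positivity
    field_simp
  simp_rw [h2] at h1
  rw [(S_hasSum hw hx).tsum_eq] at h1
  rw [h1]
  unfold S
  refine tsum_congr fun n => ?_
  simp only [hF]
  rw [tsum_mul_left]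
  congr 2
  funext m
  congr 1
  ring

/-- the building block as a weight -/
theorem P_wt : Wt P := by
  have hPc : Continuous P := by unfold P; fun_prop
  refine ⟨hPc.measurable, 48, by norm_num, fun u hu => ?_⟩
  have h1 := P_abs u
  have hp := Real.pi_gt_three
  have h2 : Real.exp (-(Real.pi / 4) * u ^ 2) ≤ 1 := Real.exp_le_one_iff.2 (by nlinarith [sq_nonneg u])
  refine ⟨by linarith, ?_⟩
  rw [le_div_iff₀ (by positivity)]
  have h3 : (Real.pi / 4 * u ^ 2) ^ 2 / 2 ≤ Real.exp (Real.pi / 4 * u ^ 2) := by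
    have := Real.quadratic_le_exp_of_nonneg (x := Real.pi / 4 * u ^ 2) (by positivity)
    have : 0 ≤ Real.pi / 4 * u ^ 2 := by positivity
    linarith
  have h4 : Real.exp (-(Real.pi / 4) * u ^ 2) * Real.exp (Real.pi / 4 * u ^ 2) = 1 := by
    rw [← Real.exp_add, show -(Real.pi / 4) * u ^ 2 + Real.pi / 4 * u ^ 2 = 0 by ring, Real.exp_zero]
  have h5 : Real.exp (-(Real.pi / 4) * u ^ 2) * ((Real.pi / 4 * u ^ 2) ^ 2 / 2) ≤ 1 := by
    rw [← h4]
    exact mul_le_mul_of_nonneg_left h3 (Real.exp_pos _).le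
  have h6 : Real.exp (-(Real.pi / 4) * u ^ 2) * u ^ 4 ≤ 16 := by
    have e1 : Real.exp (-(Real.pi / 4) * u ^ 2) * ((Real.pi / 4 * u ^ 2) ^ 2 / 2) =
        (Real.pi ^ 2 / 32) * (Real.exp (-(Real.pi / 4) * u ^ 2) * u ^ 4) := by ring
    rw [e1] at h5
    have h7 : 0 ≤ Real.exp (-(Real.pi / 4) * u ^ 2) * u ^ 4 := by positivity
    have h8 : (1:ℝ) / 16 ≤ Real.pi ^ 2 / 32 := by nlinarith
    nlinarith
  calc |P u| * u ^ 4 ≤ 3 * Real.exp (-(Real.pi / 4) * u ^ 2) * u ^ 4 := mul_le_mul_of_nonneg_right h1 (by positivity)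
    _ = 3 * (Real.exp (-(Real.pi / 4) * u ^ 2) * u ^ 4) := by ring
    _ ≤ 48 := by linarith

/-- the weight at the threshold -/
def wth (u : ℝ) : ℝ := ∑' m : ℕ, P (((m : ℝ) + 1) * u)

theorem wth_kk (u : ℝ) (hu : 0 < u) : wth u = kk (1 / u) := by
  unfold wth kk
  refine tsum_congr fun m => ?_
  congr 1
  field_simp

theorem wth_S {x : ℝ} (hx : 0 < x) : S wth x = P (1 / x) := S_sum P_wt hx

theorem wth_meas : Measurable wth := by
  refine measurable_of_tendsto_metrizable (f := fun N : ℕ => fun u : ℝ =>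
    ∑ m ∈ Finset.range N, P (((m : ℝ) + 1) * u)) ?_ ?_
  · intro N
    have hPc : Continuous P := by unfold P; fun_prop
    exact (continuous_finsetSum _ fun m _ => by fun_prop).measurable
  · rw [tendsto_pi_nhds]
    intro u
    have hs : Summable (fun m : ℕ => P (((m : ℝ) + 1) * u)) := by
      rcases eq_or_ne u 0 with h | h
      · subst h
        simp only [mul_zero, P_zero]
        exact summable_zero
      · have hu : 0 < |u| := abs_pos.2 h
        have h1 : ∀ m : ℕ, |P (((m : ℝ) + 1) * u)| ≤ 48 / |u| ^ 4 * (1 / ((m : ℝ) + 1) ^ 4) := by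
          intro m
          have hP : P (((m : ℝ) + 1) * u) = P (((m : ℝ) + 1) * |u|) := by
            unfold P
            simp only [mul_pow, sq_abs]
          rw [hP]
          obtain ⟨_, hb⟩ := P_wt
          have h2 := P_abs (((m : ℝ) + 1) * |u|)
          have h3 : |P (((m : ℝ) + 1) * |u|)| ≤ 48 / (((m : ℝ) + 1) * |u|) ^ 4 := by
            have hpos : 0 < ((m : ℝ) + 1) * |u| := by positivity
            rw [le_div_iff₀ (by positivity)]
            set v := ((m : ℝ) + 1) * |u| with hv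
            have hp := Real.pi_gt_three
            have h3 : (Real.pi / 4 * v ^ 2) ^ 2 / 2 ≤ Real.exp (Real.pi / 4 * v ^ 2) := by
              have := Real.quadratic_le_exp_of_nonneg (x := Real.pi / 4 * v ^ 2) (by positivity)
              have : 0 ≤ Real.pi / 4 * v ^ 2 := by positivity
              linarith
            have h4 : Real.exp (-(Real.pi / 4) * v ^ 2) * Real.exp (Real.pi / 4 * v ^ 2) = 1 := by
              rw [← Real.exp_add, show -(Real.pi / 4) * v ^ 2 + Real.pi / 4 * v ^ 2 = 0 by ring, Real.exp_zero]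
            have h5 : Real.exp (-(Real.pi / 4) * v ^ 2) * ((Real.pi / 4 * v ^ 2) ^ 2 / 2) ≤ 1 := by
              rw [← h4]
              exact mul_le_mul_of_nonneg_left h3 (Real.exp_pos _).le
            have h6 : Real.exp (-(Real.pi / 4) * v ^ 2) * v ^ 4 ≤ 16 := by
              have e1 : Real.exp (-(Real.pi / 4) * v ^ 2) * ((Real.pi / 4 * v ^ 2) ^ 2 / 2) =
                  (Real.pi ^ 2 / 32) * (Real.exp (-(Real.pi / 4) * v ^ 2) * v ^ 4) := by ring
              rw [e1] at h5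
              have h7 : 0 ≤ Real.exp (-(Real.pi / 4) * v ^ 2) * v ^ 4 := by positivity
              have h8 : (1:ℝ) / 16 ≤ Real.pi ^ 2 / 32 := by nlinarith
              nlinarith
            calc |P v| * v ^ 4 ≤ 3 * Real.exp (-(Real.pi / 4) * v ^ 2) * v ^ 4 := mul_le_mul_of_nonneg_right h2 (by positivity)
              _ = 3 * (Real.exp (-(Real.pi / 4) * v ^ 2) * v ^ 4) := by ring
              _ ≤ 48 := by linarith
          refine h3.trans (le_of_eq ?_)
          field_simp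
        have hs4' : Summable (fun n : ℕ => 1 / ((n : ℝ) + 1) ^ 4) := by
          have := (summable_nat_add_iff 1).2 sum4
          refine this.congr fun n => ?_
          push_cast
          rfl
        exact Summable.of_norm_bounded (hs4'.mul_left (48 / |u| ^ 4)) h1
    exact hs.hasSum.tendsto_sum_nat

theorem wth_far {u : ℝ} (hu : 1 ≤ u) : 0 < wth u ∧ wth u ≤ C0 * Real.exp (-(Real.pi / 4 * u ^ (2:ℝ))) := by
  have hu0 : 0 < u := by linarith
  rw [wth_kk u hu0]
  have h1 : 0 < 1 / u := by positivity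
  have h2 : 1 / u ≤ 1 := by rw [div_le_one hu0]; exact hu
  have e1 : -(Real.pi / 4) / (1 / u) ^ 2 = -(Real.pi / 4 * u ^ (2:ℝ)) := by
    rw [show ((2:ℝ)) = ((2:ℕ) : ℝ) by norm_num, Real.rpow_natCast]
    field_simp
  have h3 := kk_lower (1 / u) h1 h2
  have h4 := kk_upper (1 / u) h1 h2
  rw [e1] at h3 h4
  exact ⟨lt_of_lt_of_le (by positivity) h3, h4⟩

theorem wth_near {u : ℝ} (hu : 0 < u) (hu1 : u ≤ 1) : 0 < wth u ∧
    wth u ≤ C0 * Real.exp (-((Real.pi / 4 - 1 / 2) * u ^ (-2:ℝ))) := by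
  rw [wth_kk u hu, kk_func (1 / u) (by positivity), one_div_one_div]
  have h3 := kk_lower u hu hu1
  have h4 := kk_upper u hu hu1
  have hC := C0_nonneg
  have e1 : u ^ (-2:ℝ) = (1 / u) ^ 2 := by
    rw [Real.rpow_neg hu.le, show ((2:ℝ)) = ((2:ℕ) : ℝ) by norm_num, Real.rpow_natCast, one_div, inv_pow]
  set v := 1 / u with hv
  have hv0 : 0 < v := by positivity
  have e2 : -(Real.pi / 4) / u ^ 2 = -(Real.pi / 4 * v ^ 2) := by
    rw [hv]; field_simp
  rw [e2] at h3 h4
  rw [e1]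
  refine ⟨mul_pos hv0 (lt_of_lt_of_le (by positivity) h3), ?_⟩
  have h5 : v ≤ Real.exp (1 / 2 * v ^ 2) := by
    have := Real.add_one_le_exp (1 / 2 * v ^ 2)
    nlinarith [sq_nonneg (v - 1)]
  calc v * kk u ≤ Real.exp (1 / 2 * v ^ 2) * (C0 * Real.exp (-(Real.pi / 4 * v ^ 2))) :=
        mul_le_mul h5 h4 (le_trans (by positivity) h3) (Real.exp_pos _).le
    _ = C0 * (Real.exp (1 / 2 * v ^ 2) * Real.exp (-(Real.pi / 4 * v ^ 2))) := by ring
    _ = _ := by rw [← Real.exp_add]; congr 2; ring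

end

end H19.EW
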