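import Pool.Agent.H19.EW.J4
import Pool.Agent.H19.EW.Sh

/-!
# Oscillation of weighted Mertens sums: assembly
-/

open Complex MeasureTheory Filter Topology Set Metric

set_option autoImplicit false
set_option linter.unusedSectionVars false
set_option linter.unusedVariables false

namespace H19.EW

open H313.TK

noncomputable section

/-- both signs at a surviving zero -/
theorem signs_of {a b c B α : ℝ} {w : ℝ → ℝ} (h : Tame a b w c B α)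
    (hne : ¬ ∀ᵐ u ∂(volume.restrict (Ioi (0:ℝ))), w u = 0) {ρ : ℂ} (hz : riemannZeta ρ = 0) (h0 : 1 / 3 ≤ ρ.re)
    (h1 : ρ.re < 1) (hlt : kw w ρ < mz ρ) :
    ∃ c : ℝ, 0 < c ∧ ∀ᶠ x : ℝ in atTop, ∀ s : ℝ, s = 1 ∨ s = -1 →
      ∃ y ∈ Icc x (x * Real.log x), c * y ^ ρ.re ≤ s * S w y := by
  have hp : 0 < ρ.re := by linarith
  have hne1 : ρ ≠ 1 := by rintro rfl; simp at h1
  refine signs h.wt h0 h1 (k := kw w ρ) (Nat.cast_analyticOrderNatAt (order_fin h hne hp h1)).symm ?_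
  rw [zeta_order hne1]
  exact_mod_cast hlt

theorem signs2_of {a b c B α : ℝ} {w : ℝ → ℝ} (h : Tame a b w c B α)
    (hne : ¬ ∀ᵐ u ∂(volume.restrict (Ioi (0:ℝ))), w u = 0) {ρ : ℂ} (hz : riemannZeta ρ = 0) (h0 : 1 / 3 ≤ ρ.re)
    (h1 : ρ.re < 1) (hlt : kw w ρ + 2 ≤ mz ρ) :
    ∃ c : ℝ, 0 < c ∧ ∀ᶠ x : ℝ in atTop, ∀ s : ℝ, s = 1 ∨ s = -1 →
      ∃ y ∈ Icc x (x * Real.log x), c * (y ^ ρ.re * Real.log y) ≤ s * S w y := by
  have hp : 0 < ρ.re := by linarith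
  have hne1 : ρ ≠ 1 := by rintro rfl; simp at h1
  refine signs2 h.wt h0 h1 (k := kw w ρ) (Nat.cast_analyticOrderNatAt (order_fin h hne hp h1)).symm ?_
  rw [zeta_order hne1]
  exact_mod_cast hlt

/-- smaller exponents are weaker -/
theorem signs_mono {w : ℝ → ℝ} {β β' : ℝ} (hβ : β' ≤ β)
    (h : ∃ c : ℝ, 0 < c ∧ ∀ᶠ x : ℝ in atTop, ∀ s : ℝ, s = 1 ∨ s = -1 →
      ∃ y ∈ Icc x (x * Real.log x), c * y ^ β ≤ s * S w y) :
    ∃ c : ℝ, 0 < c ∧ ∀ᶠ x : ℝ in atTop, ∀ s : ℝ, s = 1 ∨ s = -1 →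
      ∃ y ∈ Icc x (x * Real.log x), c * y ^ β' ≤ s * S w y := by
  obtain ⟨c, hc, hev⟩ := h
  refine ⟨c, hc, ?_⟩
  filter_upwards [hev, eventually_ge_atTop (1:ℝ)] with x hx hx1 s hs
  obtain ⟨y, hy, hy2⟩ := hx s hs
  refine ⟨y, hy, le_trans ?_ hy2⟩
  refine mul_le_mul_of_nonneg_left (Real.rpow_le_rpow_of_exponent_le (hx1.trans hy.1) hβ) hc.le

theorem main_half {a b c B α : ℝ} {w : ℝ → ℝ} (h : Tame a b w c B α)
    (hne : ¬ ∀ᵐ u ∂(volume.restrict (Ioi (0:ℝ))), w u = 0) (hab : 1 / a + 1 / b < 1 / 2) :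
    ∃ c : ℝ, 0 < c ∧ ∀ᶠ x : ℝ in atTop, ∀ s : ℝ, s = 1 ∨ s = -1 →
      ∃ y ∈ Icc x (x * Real.log x), c * y ^ (1 / 2 : ℝ) ≤ s * S w y := by
  obtain ⟨ρ, hz, h0, h1, h2, h3⟩ := survive_half h hne hab
  exact signs_mono h0 (signs_of h hne hz (by linarith) h1 h3)

theorem main_delta {a b c B α : ℝ} {w : ℝ → ℝ} (h : Tame a b w c B α)
    (hne : ¬ ∀ᵐ u ∂(volume.restrict (Ioi (0:ℝ))), w u = 0) (hab : 1 / a + 1 / b < 1) {δ : ℝ} (hδ : 0 < δ) :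
    ∃ c : ℝ, 0 < c ∧ ∀ᶠ x : ℝ in atTop, ∀ s : ℝ, s = 1 ∨ s = -1 →
      ∃ y ∈ Icc x (x * Real.log x), c * y ^ (1 / 2 - δ) ≤ s * S w y := by
  have hm : 0 < min δ (1 / 6) := lt_min hδ (by norm_num)
  have hm2 : min δ (1 / 6) ≤ 1 / 6 := min_le_right _ _
  obtain ⟨ρ, hz, h0, h1, h2, h3⟩ := survive_delta h hne hab hm (by linarith)
  have h4 : 1 / 2 - δ ≤ ρ.re := by
    have := min_le_left δ (1 / 6)
    linarith
  exact signs_mono h4 (signs_of h hne hz (by linarith) h1 h3)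

end

end H19.EW
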