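import Pool.Agent.H19.EW.W5

/-!
# The entire function attached to a weight, and its growth
-/

open Complex MeasureTheory Filter Topology Set Metric

set_option autoImplicit false
set_option linter.unusedSectionVars false
set_option linter.unusedVariables false

namespace H19.EW

open H313.TK

noncomputable section

/-- `w` tends to a constant at `0` like `exp(-α u^{-b})` and decays at infinity like `exp(-α u^a)` -/
structure Tame (a b : ℝ) (w : ℝ → ℝ) (c B α : ℝ) : Prop where
  ha : 0 < a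
  hb : 0 < b
  hB : 0 ≤ B
  hα : 0 < α
  meas : Measurable w
  near : ∀ u : ℝ, 0 < u → u ≤ 1 → |w u - c| ≤ B * Real.exp (-(α * u ^ (-b)))
  far : ∀ u : ℝ, 1 ≤ u → |w u| ≤ B * Real.exp (-(α * u ^ a))

/-- the constant in the elementary inequality -/
def Ck (κ α : ℝ) : ℝ := |Real.log (2 / (κ * α))| / κ

theorem Ck_nonneg {κ α : ℝ} (hκ : 0 < κ) : 0 ≤ Ck κ α := by unfold Ck; positivity

/-- the elementary inequality behind all growth bounds -/
theorem elem {κ α τ y : ℝ} (hκ : 0 < κ) (hα : 0 < α) (hy : 0 ≤ y) :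
    τ * y - α / 2 * Real.exp (κ * y) ≤ max τ 0 / κ * Real.log (1 + |τ|) + Ck κ α * |τ| := by
  have hC := Ck_nonneg (α := α) hκ
  have hE := Real.exp_pos (κ * y)
  rcases le_or_gt τ 0 with hτ | hτ
  · rw [max_eq_right hτ]
    have h1 : τ * y ≤ 0 := mul_nonpos_of_nonpos_of_nonneg hτ hy
    have h2 : 0 ≤ Ck κ α * |τ| := by positivity
    have h3 : 0 < α / 2 * Real.exp (κ * y) := by positivity
    rw [zero_div, zero_mul, zero_add]
    linarith
  · rw [max_eq_left hτ.le, abs_of_pos hτ]
    set x : ℝ := α * κ * Real.exp (κ * y) / (2 * τ) with hx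
    have hx0 : 0 < x := by positivity
    have h1 := Real.log_le_sub_one_of_pos hx0
    have h2 : Real.log x = κ * y - Real.log (2 / (κ * α)) - Real.log τ := by
      rw [hx, Real.log_div (by positivity) (by positivity), Real.log_mul (by positivity) (by positivity),
        Real.log_exp, Real.log_div (by norm_num) (by positivity), Real.log_mul (by norm_num) hτ.ne',
        mul_comm κ α]
      ring
    have h3 : Real.log τ ≤ Real.log (1 + τ) := Real.log_le_log hτ (by linarith)
    have h4 := le_abs_self (Real.log (2 / (κ * α)))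
    have h5 : κ * y ≤ x + |Real.log (2 / (κ * α))| + Real.log (1 + τ) := by
      rw [h2] at h1
      linarith
    have h6 : τ / κ * (κ * y) ≤ τ / κ * (x + |Real.log (2 / (κ * α))| + Real.log (1 + τ)) :=
      mul_le_mul_of_nonneg_left h5 (by positivity)
    have h7 : τ / κ * (κ * y) = τ * y := by field_simp
    have h8 : τ / κ * x = α / 2 * Real.exp (κ * y) := by rw [hx]; field_simp
    have h9 : τ / κ * |Real.log (2 / (κ * α))| = Ck κ α * τ := by unfold Ck; ring
    rw [h7] at h6
    have h10 : τ / κ * (x + |Real.log (2 / (κ * α))| + Real.log (1 + τ)) =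
        τ / κ * x + τ / κ * |Real.log (2 / (κ * α))| + τ / κ * Real.log (1 + τ) := by ring
    rw [h10, h8, h9] at h6
    linarith

/-- the exponent in the growth bound -/
def Ee (κ α τ : ℝ) : ℝ := max τ 0 / κ * Real.log (1 + |τ|) + Ck κ α * |τ|

theorem Ee_nonneg {κ α τ : ℝ} (hκ : 0 < κ) : 0 ≤ Ee κ α τ := by
  have hC := Ck_nonneg (α := α) hκ
  have h1 : 0 ≤ Real.log (1 + |τ|) := Real.log_nonneg (by have := abs_nonneg τ; linarith)
  have h2 : 0 ≤ max τ 0 := le_max_right _ _
  unfold Ee
  positivity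

theorem elem2 {κ α τ y : ℝ} (hκ : 0 < κ) (hα : 0 < α) (hy : 0 ≤ y) :
    Real.exp (τ * y) * Real.exp (-(α * Real.exp (κ * y))) ≤ Real.exp (Ee κ α τ) * Real.exp (-(α / 2 * κ * y)) := by
  rw [← Real.exp_add, ← Real.exp_add]
  refine Real.exp_le_exp.2 ?_
  have h1 := elem (τ := τ) hκ hα hy
  have h2 := Real.add_one_le_exp (κ * y)
  have h3 : α / 2 * (κ * y) ≤ α / 2 * Real.exp (κ * y) := mul_le_mul_of_nonneg_left (by linarith) (by positivity)
  unfold Ee
  linarith

/-- the weight minus its value at zero, exponential scale -/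
def vv (w : ℝ → ℝ) (c : ℝ) (y : ℝ) : ℂ := ((w (Real.exp (-y)) - (if 0 ≤ y then c else 0) : ℝ) : ℂ)

theorem vv_meas {w : ℝ → ℝ} (hw : Measurable w) (c : ℝ) : Measurable (vv w c) := by
  unfold vv
  have h1 : Measurable (fun y : ℝ => if 0 ≤ y then c else (0:ℝ)) :=
    Measurable.ite (measurableSet_Ici) measurable_const measurable_const
  fun_prop

/-- the majorant -/
def Mj (a b B α σ y : ℝ) : ℝ := B * (Real.exp (Ee b α (-σ)) * Real.exp (-(α / 2 * b * |y|)) +
  Real.exp (Ee a α σ) * Real.exp (-(α / 2 * a * |y|)))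

theorem vv_bd {a b c B α : ℝ} {w : ℝ → ℝ} (h : Tame a b w c B α) (σ y : ℝ) :
    Real.exp (-σ * y) * ‖vv w c y‖ ≤ Mj a b B α σ y := by
  have hB := h.hB
  have e1 := (Real.exp_pos (Ee b α (-σ))).le
  have e2 := (Real.exp_pos (Ee a α σ)).le
  unfold vv Mj
  rw [Complex.norm_real, Real.norm_eq_abs]
  rcases le_or_gt 0 y with hy | hy
  · rw [if_pos hy, abs_of_nonneg hy]
    have h1 := h.near (Real.exp (-y)) (Real.exp_pos _) (Real.exp_le_one_iff.2 (by linarith))
    have h2 : (Real.exp (-y)) ^ (-b) = Real.exp (b * y) := by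
      rw [← Real.exp_mul]; congr 1; ring
    rw [h2] at h1
    have h3 := elem2 (τ := -σ) h.hb h.hα hy
    calc Real.exp (-σ * y) * |w (Real.exp (-y)) - c| ≤ Real.exp (-σ * y) * (B * Real.exp (-(α * Real.exp (b * y)))) :=
          mul_le_mul_of_nonneg_left h1 (Real.exp_pos _).le
      _ = B * (Real.exp (-σ * y) * Real.exp (-(α * Real.exp (b * y)))) := by ring
      _ ≤ B * (Real.exp (Ee b α (-σ)) * Real.exp (-(α / 2 * b * y))) := mul_le_mul_of_nonneg_left h3 hB
      _ ≤ _ := by
          refine mul_le_mul_of_nonneg_left ?_ hB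
          have := mul_nonneg e2 (Real.exp_pos (-(α / 2 * a * y))).le
          linarith
  · rw [if_neg (not_le.2 hy), abs_of_neg hy, sub_zero]
    have h1 := h.far (Real.exp (-y)) (Real.one_le_exp (by linarith))
    have h2 : (Real.exp (-y)) ^ a = Real.exp (a * -y) := by
      rw [← Real.exp_mul]; congr 1; ring
    rw [h2] at h1
    have h3 := elem2 (τ := σ) h.ha h.hα (show 0 ≤ -y by linarith)
    have h4 : -σ * y = σ * -y := by ring
    rw [h4]
    calc Real.exp (σ * -y) * |w (Real.exp (-y))| ≤ Real.exp (σ * -y) * (B * Real.exp (-(α * Real.exp (a * -y)))) :=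
          mul_le_mul_of_nonneg_left h1 (Real.exp_pos _).le
      _ = B * (Real.exp (σ * -y) * Real.exp (-(α * Real.exp (a * -y)))) := by ring
      _ ≤ B * (Real.exp (Ee a α σ) * Real.exp (-(α / 2 * a * -y))) := mul_le_mul_of_nonneg_left h3 hB
      _ ≤ _ := by
          refine mul_le_mul_of_nonneg_left ?_ hB
          have := mul_nonneg e1 (Real.exp_pos (-(α / 2 * b * -y))).le
          linarith

theorem Mj_int {a b B α : ℝ} (ha : 0 < a) (hb : 0 < b) (hα : 0 < α) (σ : ℝ) : Integrable (Mj a b B α σ) := by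
  unfold Mj
  exact (((int_exp_abs (α / 2 * b) (by positivity)).const_mul _).add
    ((int_exp_abs (α / 2 * a) (by positivity)).const_mul _)).const_mul B

/-- exponential decay of every order -/
theorem vv_exp {a b c B α : ℝ} {w : ℝ → ℝ} (h : Tame a b w c B α) (K : ℝ) (hK : 0 ≤ K) :
    ∃ C : ℝ, 0 ≤ C ∧ ∀ y, ‖vv w c y‖ ≤ C * Real.exp (-(K * |y|)) := by
  have hB := h.hB
  set E := Real.exp (Ee b α K) + Real.exp (Ee a α (-K)) + (Real.exp (Ee b α (-K)) + Real.exp (Ee a α K)) with hE
  have e1 := (Real.exp_pos (Ee b α K)).le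
  have e2 := (Real.exp_pos (Ee a α (-K))).le
  have e3 := (Real.exp_pos (Ee b α (-K))).le
  have e4 := (Real.exp_pos (Ee a α K)).le
  have hMj : ∀ σ y, Mj a b B α σ y ≤ B * (Real.exp (Ee b α (-σ)) + Real.exp (Ee a α σ)) := by
    intro σ y
    unfold Mj
    refine mul_le_mul_of_nonneg_left ?_ hB
    have h1 : Real.exp (-(α / 2 * b * |y|)) ≤ 1 := Real.exp_le_one_iff.2 (by
      have := h.hα; have := h.hb; have := abs_nonneg y
      have : 0 ≤ α / 2 * b * |y| := by positivity
      linarith)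
    have h2 : Real.exp (-(α / 2 * a * |y|)) ≤ 1 := Real.exp_le_one_iff.2 (by
      have := h.hα; have := h.ha; have := abs_nonneg y
      have : 0 ≤ α / 2 * a * |y| := by positivity
      linarith)
    have h3 := mul_le_mul_of_nonneg_left h1 (Real.exp_pos (Ee b α (-σ))).le
    have h4 := mul_le_mul_of_nonneg_left h2 (Real.exp_pos (Ee a α σ)).le
    linarith
  refine ⟨B * E, by positivity, fun y => ?_⟩
  have hn := norm_nonneg (vv w c y)
  have key : Real.exp (K * |y|) * ‖vv w c y‖ ≤ B * E := by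
    rcases le_total 0 y with hy | hy
    · have h1 := (vv_bd h (-K) y).trans (hMj (-K) y)
      rw [neg_neg] at h1
      rw [abs_of_nonneg hy]
      refine h1.trans (mul_le_mul_of_nonneg_left ?_ hB)
      rw [hE]
      linarith
    · have h1 := (vv_bd h K y).trans (hMj K y)
      rw [abs_of_nonpos hy]
      have h2 : K * -y = -K * y := by ring
      rw [h2]
      refine h1.trans (mul_le_mul_of_nonneg_left ?_ hB)
      rw [hE]
      linarith
  have h3 : Real.exp (K * |y|) * Real.exp (-(K * |y|)) = 1 := by rw [← Real.exp_add, add_neg_cancel, Real.exp_zero]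
  calc ‖vv w c y‖ = (Real.exp (K * |y|) * ‖vv w c y‖) * Real.exp (-(K * |y|)) := by
        rw [mul_right_comm, h3, one_mul]
    _ ≤ _ := mul_le_mul_of_nonneg_right key (Real.exp_pos _).le

/-- differentiation of transforms, measurable version -/
theorem tr_diffM {g : ℝ → ℂ} (hc : Measurable g) (C a : ℝ) (hC : 0 ≤ C) (hb : ∀ v, ‖g v‖ ≤ C * Real.exp (-(a * |v|)))
    (s : ℂ) (hs : |s.re| < a) :
    DifferentiableAt ℂ (TT g) s := by
  set ε : ℝ := (a - |s.re|) / 3 with hε
  have hε0 : 0 < ε := by rw [hε]; linarith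
  have hnorm : ∀ x : ℂ, |x.re| ≤ |s.re| + ε → ∀ v : ℝ, ‖cexp (-x * v) * g v‖ ≤ C * Real.exp (-(2 * ε * |v|)) := by
    intro x hx v
    rw [norm_mul, norm_tw]
    have h1 : Real.exp (-x.re * v) ≤ Real.exp ((|s.re| + ε) * |v|) := by
      refine Real.exp_le_exp.2 ?_
      calc -x.re * v ≤ |-x.re * v| := le_abs_self _
        _ = |x.re| * |v| := by rw [abs_mul, abs_neg]
        _ ≤ _ := mul_le_mul_of_nonneg_right hx (abs_nonneg _)
    calc Real.exp (-x.re * v) * ‖g v‖ ≤ Real.exp ((|s.re| + ε) * |v|) * (C * Real.exp (-(a * |v|))) :=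
          mul_le_mul h1 (hb v) (norm_nonneg _) (Real.exp_pos _).le
      _ = C * (Real.exp ((|s.re| + ε) * |v|) * Real.exp (-(a * |v|))) := by ring
      _ = _ := by
        rw [← Real.exp_add]
        congr 2
        rw [hε]; ring
  refine (hasDerivAt_integral_of_dominated_loc_of_deriv_le (μ := volume) (s := ball s ε)
    (F := fun (s : ℂ) (v : ℝ) => cexp (-s * v) * g v)
    (F' := fun (s : ℂ) (v : ℝ) => -(v : ℂ) * (cexp (-s * v) * g v))
    (bound := fun v : ℝ => C / ε * Real.exp (-(ε * |v|))) (ball_mem_nhds s hε0) ?_ ?_ ?_ ?_ ?_ ?_).2.differentiableAt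
  · refine Eventually.of_forall fun x => ?_
    exact (by fun_prop : Measurable fun v : ℝ => cexp (-x * v) * g v).aestronglyMeasurable
  · refine ((int_exp_abs (2 * ε) (by positivity)).const_mul C).mono' ?_ (ae_of_all _ fun v => ?_)
    · exact (by fun_prop : Measurable fun v : ℝ => cexp (-s * v) * g v).aestronglyMeasurable
    · exact hnorm s (by linarith) v
  · exact (by fun_prop : Measurable fun v : ℝ => -(v : ℂ) * (cexp (-s * v) * g v)).aestronglyMeasurable
  · refine ae_of_all _ fun v x hx => ?_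
    have hx2 : |x.re| ≤ |s.re| + ε := by
      have h1 : |(x - s).re| ≤ ‖x - s‖ := Complex.abs_re_le_norm _
      rw [mem_ball, dist_eq_norm] at hx
      rw [Complex.sub_re] at h1
      have h2 : |x.re| ≤ |s.re| + |x.re - s.re| := by
        have := abs_add_le s.re (x.re - s.re)
        simpa using this
      linarith
    rw [norm_mul, norm_neg, Complex.norm_real, Real.norm_eq_abs]
    have h3 : |v| ≤ 1 / ε * Real.exp (ε * |v|) := by
      rw [one_div_mul_eq_div, le_div_iff₀ hε0]
      have := Real.add_one_le_exp (ε * |v|)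
      linarith
    calc |v| * ‖cexp (-x * v) * g v‖ ≤ (1 / ε * Real.exp (ε * |v|)) * (C * Real.exp (-(2 * ε * |v|))) :=
          mul_le_mul h3 (hnorm x hx2 v) (norm_nonneg _) (by positivity)
      _ = C / ε * (Real.exp (ε * |v|) * Real.exp (-(2 * ε * |v|))) := by ring
      _ = _ := by rw [← Real.exp_add]; congr 2; ring
  · exact (int_exp_abs ε hε0).const_mul _
  · refine ae_of_all _ fun v x _ => ?_
    have h1 : HasDerivAt (fun x : ℂ => -x * v) (-(v : ℂ)) x := by
      simpa using ((hasDerivAt_id x).neg.mul_const (v : ℂ))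
    refine ((h1.cexp).mul_const (g v)).congr_deriv ?_
    ring

/-- the entire function -/
def ff (w : ℝ → ℝ) (c : ℝ) (s : ℂ) : ℂ := c + s * TT (vv w c) s

theorem vv_entire {a b c B α : ℝ} {w : ℝ → ℝ} (h : Tame a b w c B α) : Differentiable ℂ (TT (vv w c)) := by
  intro s
  obtain ⟨C, hC, hb⟩ := vv_exp h (|s.re| + 1) (by positivity)
  exact tr_diffM (vv_meas h.meas c) C _ hC hb s (by linarith)

theorem ff_entire {a b c B α : ℝ} {w : ℝ → ℝ} (h : Tame a b w c B α) : Differentiable ℂ (ff w c) := by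
  have := vv_entire h
  unfold ff
  fun_prop

/-- growth of the transform -/
theorem ff_growth {a b c B α : ℝ} {w : ℝ → ℝ} (h : Tame a b w c B α) : ∃ C : ℝ, 0 ≤ C ∧ ∀ s : ℂ,
    ‖ff w c s‖ ≤ Real.exp ((max s.re 0 / a + max (-s.re) 0 / b) * Real.log (1 + ‖s‖) + C * (1 + ‖s‖)) := by
  have ha := h.ha
  have hb := h.hb
  have hB := h.hB
  have hα := h.hα
  have hCa := Ck_nonneg (α := α) ha
  have hCb := Ck_nonneg (α := α) hb
  set Da : ℝ := ∫ y : ℝ, Real.exp (-(α / 2 * a * |y|)) with hDa
  set Db : ℝ := ∫ y : ℝ, Real.exp (-(α / 2 * b * |y|)) with hDb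
  have hDa0 : 0 ≤ Da := integral_nonneg fun y => (Real.exp_pos _).le
  have hDb0 : 0 ≤ Db := integral_nonneg fun y => (Real.exp_pos _).le
  have hV : ∀ s : ℂ, ‖TT (vv w c) s‖ ≤ B * (Da + Db) * Real.exp (Ee b α (-s.re) + Ee a α s.re) := by
    intro s
    unfold TT
    refine (norm_integral_le_of_norm_le (Mj_int (B := B) ha hb hα s.re) (ae_of_all _ fun y => ?_)).trans ?_
    · rw [norm_mul, norm_tw]
      exact vv_bd h s.re y
    · unfold Mj
      rw [integral_const_mul, integral_add ((int_exp_abs (α / 2 * b) (by positivity)).const_mul _)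
        ((int_exp_abs (α / 2 * a) (by positivity)).const_mul _), integral_const_mul, integral_const_mul, Real.exp_add]
      have h1 : 1 ≤ Real.exp (Ee b α (-s.re)) := Real.one_le_exp (Ee_nonneg hb)
      have h2 : 1 ≤ Real.exp (Ee a α s.re) := Real.one_le_exp (Ee_nonneg ha)
      set X := Real.exp (Ee b α (-s.re)) with hX
      set Y := Real.exp (Ee a α s.re) with hY
      rw [mul_assoc]
      refine mul_le_mul_of_nonneg_left ?_ hB
      have h3 : X * Db ≤ X * Y * Db := mul_le_mul_of_nonneg_right (by nlinarith) hDb0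
      have h4 : Y * Da ≤ X * Y * Da := mul_le_mul_of_nonneg_right (by nlinarith) hDa0
      calc X * Db + Y * Da ≤ X * Y * Db + X * Y * Da := add_le_add h3 h4
        _ = _ := by ring
  set C1 : ℝ := Ck a α + Ck b α with hC1
  refine ⟨|c| + B * (Da + Db) + C1 + 1, by positivity, fun s => ?_⟩
  have hs := norm_nonneg s
  have hre : |s.re| ≤ ‖s‖ := Complex.abs_re_le_norm s
  have hl : Real.log (1 + |s.re|) ≤ Real.log (1 + ‖s‖) :=
    Real.log_le_log (by have := abs_nonneg s.re; linarith) (by linarith)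
  have hl0 : 0 ≤ Real.log (1 + |s.re|) := Real.log_nonneg (by have := abs_nonneg s.re; linarith)
  have hm1 : 0 ≤ max s.re 0 / a := div_nonneg (le_max_right _ _) ha.le
  have hm2 : 0 ≤ max (-s.re) 0 / b := div_nonneg (le_max_right _ _) hb.le
  have hE : Ee b α (-s.re) + Ee a α s.re ≤ (max s.re 0 / a + max (-s.re) 0 / b) * Real.log (1 + ‖s‖) + C1 * ‖s‖ := by
    unfold Ee
    rw [abs_neg]
    have h1 := mul_le_mul_of_nonneg_left hl hm1
    have h2 := mul_le_mul_of_nonneg_left hl hm2
    have h3 := mul_le_mul_of_nonneg_left hre hCa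
    have h4 := mul_le_mul_of_nonneg_left hre hCb
    rw [hC1]
    nlinarith
  set P := (max s.re 0 / a + max (-s.re) 0 / b) * Real.log (1 + ‖s‖) with hP
  have hP0 : 0 ≤ P := mul_nonneg (by positivity) (hl0.trans hl)
  have h1 : ‖ff w c s‖ ≤ |c| + ‖s‖ * (B * (Da + Db) * Real.exp (P + C1 * ‖s‖)) := by
    unfold ff
    refine (norm_add_le _ _).trans ?_
    rw [norm_mul, Complex.norm_real, Real.norm_eq_abs]
    refine add_le_add le_rfl (mul_le_mul_of_nonneg_left ((hV s).trans ?_) hs)
    exact mul_le_mul_of_nonneg_left (Real.exp_le_exp.2 hE) (by positivity)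
  refine h1.trans ?_
  have hC10 : 0 ≤ C1 := by positivity
  have hX : 1 ≤ Real.exp (P + C1 * ‖s‖) := Real.one_le_exp (by positivity)
  have hS : ‖s‖ + 1 ≤ Real.exp ‖s‖ := Real.add_one_le_exp _
  set Q : ℝ := |c| + B * (Da + Db) with hQ
  have hQ0 : 0 ≤ Q := by positivity
  have h2 : |c| + ‖s‖ * (B * (Da + Db) * Real.exp (P + C1 * ‖s‖)) ≤ Q * (Real.exp ‖s‖ * Real.exp (P + C1 * ‖s‖)) := by
    have hBD : 0 ≤ B * (Da + Db) := by positivity
    have h3 : 1 ≤ Real.exp ‖s‖ * Real.exp (P + C1 * ‖s‖) := by nlinarith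
    have h4 : ‖s‖ * Real.exp (P + C1 * ‖s‖) ≤ Real.exp ‖s‖ * Real.exp (P + C1 * ‖s‖) :=
      mul_le_mul_of_nonneg_right (by linarith) (by linarith)
    have h5 := mul_le_mul_of_nonneg_left h3 (abs_nonneg c)
    have h6 := mul_le_mul_of_nonneg_left h4 hBD
    rw [hQ]
    nlinarith
  refine h2.trans ?_
  have h7 : Q ≤ Real.exp Q := by linarith [Real.add_one_le_exp Q]
  calc Q * (Real.exp ‖s‖ * Real.exp (P + C1 * ‖s‖)) ≤ Real.exp Q * (Real.exp ‖s‖ * Real.exp (P + C1 * ‖s‖)) :=
        mul_le_mul_of_nonneg_right h7 (by positivity)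
    _ = Real.exp (Q + (‖s‖ + (P + C1 * ‖s‖))) := by rw [← Real.exp_add, ← Real.exp_add]
    _ ≤ _ := by
        refine Real.exp_le_exp.2 ?_
        nlinarith [mul_nonneg hQ0 hs]

/-- on the right half plane the entire function is `s` times the Mellin transform of the weight -/
theorem ff_eq {a b c B α : ℝ} {w : ℝ → ℝ} (h : Tame a b w c B α) {s : ℂ} (hs : 0 < s.re) : ff w c s = s * wh w s := by
  have hs0 : s ≠ 0 := by rintro rfl; simp at hs
  obtain ⟨C, hC, hb⟩ := vv_exp h (|s.re| + 1) (by positivity)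
  have hi1 : Integrable (fun y : ℝ => cexp (-s * y) * vv w c y) := by
    refine ((int_exp_abs 1 one_pos).const_mul C).mono' ?_ (ae_of_all _ fun y => ?_)
    · have := vv_meas h.meas c
      exact (by fun_prop : Measurable fun y : ℝ => cexp (-s * y) * vv w c y).aestronglyMeasurable
    · rw [norm_mul, norm_tw]
      have h1 : Real.exp (-s.re * y) ≤ Real.exp (|s.re| * |y|) := by
        refine Real.exp_le_exp.2 ?_
        calc -s.re * y ≤ |-s.re * y| := le_abs_self _
          _ = |s.re| * |y| := by rw [abs_mul, abs_neg]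
      calc Real.exp (-s.re * y) * ‖vv w c y‖ ≤ Real.exp (|s.re| * |y|) * (C * Real.exp (-((|s.re| + 1) * |y|))) :=
            mul_le_mul h1 (hb y) (norm_nonneg _) (Real.exp_pos _).le
        _ = C * (Real.exp (|s.re| * |y|) * Real.exp (-((|s.re| + 1) * |y|))) := by ring
        _ = _ := by rw [← Real.exp_add]; congr 2; ring
  have hi2 : Integrable (fun y : ℝ => (Ici (0:ℝ)).indicator (fun y : ℝ => cexp (-s * y) * (c : ℂ)) y) := by
    rw [integrable_indicator_iff measurableSet_Ici]
    have h1 : IntegrableOn (fun y : ℝ => cexp (-s * y)) (Ioi (0:ℝ)) := by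
      have := integrableOn_exp_mul_complex_Ioi (a := -s) (by simpa using hs) 0
      exact this
    have h2 : IntegrableOn (fun y : ℝ => cexp (-s * y)) (Ici (0:ℝ)) := by
      rw [integrableOn_Ici_iff_integrableOn_Ioi]
      exact h1
    exact h2.mul_const _
  have e1 : wh w s = TT (vv w c) s + c / s := by
    unfold wh
    rw [mellin_exp]
    have e2 : ∀ y : ℝ, cexp (-s * y) * ((w (Real.exp (-y)) : ℝ) : ℂ) = cexp (-s * y) * vv w c y +
        (Ici (0:ℝ)).indicator (fun y : ℝ => cexp (-s * y) * (c : ℂ)) y := by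
      intro y
      unfold vv
      by_cases hy : 0 ≤ y
      · rw [if_pos hy, indicator_of_mem (show y ∈ Ici (0:ℝ) from hy)]
        push_cast
        ring
      · rw [if_neg hy, indicator_of_notMem (show y ∉ Ici (0:ℝ) from hy)]
        push_cast
        ring
    rw [integral_congr_ae (ae_of_all _ e2), integral_add hi1 hi2]
    congr 1
    rw [integral_indicator measurableSet_Ici, integral_Ici_eq_integral_Ioi, integral_mul_const,
      integral_exp_mul_complex_Ioi (a := -s) (by simpa using hs) 0]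
    simp
    field_simp
  rw [e1]
  unfold ff
  field_simp
  ring

end

end H19.EW
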