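import Pool.Agent.H19.EW.J1

/-!
# Zeros of the transform of a weight: Jensen's formula
-/

open Complex MeasureTheory Filter Topology Set Metric
open scoped FourierTransform ContDiff

set_option autoImplicit false
set_option linter.unusedSectionVars false
set_option linter.unusedVariables false

namespace H19.EW

open H313.TK

noncomputable section

/-- injectivity of the Fourier transform -/
theorem fourier_inj {g : ℝ → ℂ} (hg : Integrable g) (h : ∀ ξ : ℝ, 𝓕 g ξ = 0) : ∀ᵐ x, g x = 0 := by
  refine ae_eq_zero_of_integral_contDiff_smul_eq_zero hg.locallyIntegrable fun φ hφ hc => ?_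
  have hg1 : HasCompactSupport (Complex.ofRealCLM ∘ φ) := hc.comp_left rfl
  have hg2 : ContDiff ℝ ∞ (Complex.ofRealCLM ∘ φ) := by fun_prop
  set Φ : SchwartzMap ℝ ℂ := hg1.toSchwartzMap hg2 with hΦ
  set ψ : SchwartzMap ℝ ℂ := 𝓕⁻ Φ with hψ
  have h1 : 𝓕 ψ = Φ := by
    rw [hψ]
    exact FourierTransform.fourier_fourierInv_eq Φ
  have h2 := VectorFourier.integral_fourierIntegral_smul_eq_flip (μ := volume) (ν := volume) (L := innerₗ ℝ)
    Real.continuous_fourierChar continuous_inner ψ.integrable hg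
  have h3 : ∀ x : ℝ, VectorFourier.fourierIntegral Real.fourierChar volume (innerₗ ℝ) ψ x = (φ x : ℂ) := by
    intro x
    have h4 : VectorFourier.fourierIntegral Real.fourierChar volume (innerₗ ℝ) ψ x = 𝓕 (ψ : ℝ → ℂ) x := rfl
    rw [h4, ← SchwartzMap.fourier_coe, h1]
    rfl
  have h5 : ∀ x : ℝ, VectorFourier.fourierIntegral Real.fourierChar volume (innerₗ ℝ).flip g x = 0 := by
    intro x
    have h6 := h x
    have h7 : VectorFourier.fourierIntegral Real.fourierChar volume (innerₗ ℝ).flip g x = 𝓕 g x := by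
      show _ = VectorFourier.fourierIntegral Real.fourierChar volume (innerₗ ℝ) g x
      unfold VectorFourier.fourierIntegral
      congr 1
      funext v
      simp [real_inner_comm]
    rw [h7, h6]
  simp_rw [h3, h5] at h2
  simpa using h2

/-- tame weights are weights -/
theorem Tame.wt {a b c B α : ℝ} {w : ℝ → ℝ} (h : Tame a b w c B α) : Wt w := by
  obtain ⟨C, hC, hb⟩ := vv_exp h 4 (by norm_num)
  refine ⟨h.meas, C + |c|, by positivity, fun u hu => ?_⟩
  have h1 := hb (-Real.log u)
  have hlog : Real.exp (-(-Real.log u)) = u := by rw [neg_neg, Real.exp_log hu]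
  unfold vv at h1
  rw [hlog, Complex.norm_real, Real.norm_eq_abs, abs_neg] at h1
  have hc0 := abs_nonneg c
  rcases le_or_gt u 1 with h2 | h2
  · have h3 : Real.log u ≤ 0 := Real.log_nonpos hu.le h2
    rw [if_pos (by linarith)] at h1
    have h4 : Real.exp (-(4 * |Real.log u|)) ≤ 1 := Real.exp_le_one_iff.2 (by have := abs_nonneg (Real.log u); linarith)
    have h5 : |w u| ≤ C + |c| := by
      have h6 : |w u| ≤ |w u - c| + |c| := by
        have := abs_add_le (w u - c) c
        simpa using this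
      nlinarith
    refine ⟨h5, h5.trans ?_⟩
    rw [le_div_iff₀ (by positivity)]
    have h6 : u ^ 4 ≤ 1 := pow_le_one₀ hu.le h2
    have h7 : 0 ≤ C + |c| := by positivity
    nlinarith
  · have h3 : 0 < Real.log u := Real.log_pos h2
    rw [if_neg (by linarith), sub_zero, abs_of_pos h3] at h1
    have h4 : Real.exp (-(4 * Real.log u)) = 1 / u ^ 4 := by
      rw [Real.exp_neg, one_div]
      congr 1
      rw [show 4 * Real.log u = ((4 : ℕ) : ℝ) * Real.log u by norm_num, Real.exp_nat_mul, Real.exp_log hu]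
    rw [h4] at h1
    have h5 : 1 / u ^ 4 ≤ 1 := by
      rw [div_le_one (by positivity)]
      exact one_le_pow₀ h2.le
    have h6 : 0 < 1 / u ^ 4 := by positivity
    constructor
    · nlinarith
    · have h7 : (C + |c|) / u ^ 4 = (C + |c|) * (1 / u ^ 4) := by ring
      rw [h7]
      nlinarith

theorem ff_ne {a b c B α : ℝ} {w : ℝ → ℝ} (h : Tame a b w c B α)
    (hne : ¬ ∀ᵐ u ∂(volume.restrict (Ioi (0:ℝ))), w u = 0) : ∃ s, ff w c s ≠ 0 := by
  by_contra hcon
  push Not at hcon
  apply hne
  have hw := h.wt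
  set g : ℝ → ℂ := fun y => cexp (-(1 : ℂ) * y) * (w (Real.exp (-y)) : ℂ) with hg
  have hgi : Integrable g := wh_int hw (s := 1) (by simp) (by norm_num)
  have hF : ∀ ξ : ℝ, 𝓕 g ξ = 0 := by
    intro ξ
    set s : ℂ := 1 + 2 * Real.pi * ξ * Complex.I with hs
    have hsre : s.re = 1 := by simp [hs]
    have h1 := hcon s
    rw [ff_eq h (by rw [hsre]; exact one_pos)] at h1
    have hs0 : s ≠ 0 := by
      intro h0
      rw [h0] at hsre
      simp at hsre
    have h2 : wh w s = 0 := (mul_eq_zero.1 h1).resolve_left hs0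
    unfold wh at h2
    rw [mellin_exp] at h2
    rw [Real.fourier_eq', ← h2]
    refine integral_congr_ae (ae_of_all _ fun y => ?_)
    simp only [hg, smul_eq_mul]
    rw [← mul_assoc, ← Complex.exp_add]
    congr 2
    simp [hs]
    ring
  have h1 := fourier_inj hgi hF
  have h2 : ∀ᵐ y : ℝ, w (Real.exp (-y)) = 0 := by
    filter_upwards [h1] with y hy
    have h3 := (mul_eq_zero.1 hy).resolve_left (Complex.exp_ne_zero _)
    exact_mod_cast h3
  rw [ae_iff] at h2
  have h3 := addHaar_image_eq_zero_of_differentiableOn_of_addHaar_eq_zero (μ := (volume : Measure ℝ))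
    (f := fun y : ℝ => Real.exp (-y)) (s := {y : ℝ | ¬ w (Real.exp (-y)) = 0})
    (by fun_prop) h2
  rw [ae_restrict_iff' measurableSet_Ioi, ae_iff]
  refine measure_mono_null ?_ h3
  intro u hu
  simp only [Classical.not_imp, Set.mem_ofPred_eq] at hu
  have hu0 : 0 < u := hu.1
  refine ⟨-Real.log u, ?_, ?_⟩
  · simp only [Set.mem_ofPred_eq, neg_neg, Real.exp_log hu0]
    exact hu.2
  · simp only [neg_neg, Real.exp_log hu0]

theorem int_cos_pos : ∫ θ in (0:ℝ)..(2 * Real.pi), max (Real.cos θ) 0 = 2 := by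
  have hp := Real.pi_pos
  have hc : Continuous (fun θ : ℝ => max (Real.cos θ) 0) := by fun_prop
  have h1 : ∫ θ in (0:ℝ)..(Real.pi / 2), max (Real.cos θ) 0 = 1 := by
    have : ∫ θ in (0:ℝ)..(Real.pi / 2), max (Real.cos θ) 0 = ∫ θ in (0:ℝ)..(Real.pi / 2), Real.cos θ := by
      refine intervalIntegral.integral_congr fun θ hθ => ?_
      rw [uIcc_of_le (by positivity)] at hθ
      exact max_eq_left (Real.cos_nonneg_of_mem_Icc ⟨by linarith [hθ.1], hθ.2⟩)
    rw [this, integral_cos, Real.sin_pi_div_two, Real.sin_zero]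
    norm_num
  have h2 : ∫ θ in (Real.pi / 2)..(Real.pi + Real.pi / 2), max (Real.cos θ) 0 = 0 := by
    have : ∫ θ in (Real.pi / 2)..(Real.pi + Real.pi / 2), max (Real.cos θ) 0 =
        ∫ θ in (Real.pi / 2)..(Real.pi + Real.pi / 2), (0:ℝ) := by
      refine intervalIntegral.integral_congr fun θ hθ => ?_
      rw [uIcc_of_le (by linarith)] at hθ
      exact max_eq_right (Real.cos_nonpos_of_pi_div_two_le_of_le hθ.1 hθ.2)
    rw [this]
    simp
  have h3 : ∫ θ in (Real.pi + Real.pi / 2)..(2 * Real.pi), max (Real.cos θ) 0 = 1 := by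
    have : ∫ θ in (Real.pi + Real.pi / 2)..(2 * Real.pi), max (Real.cos θ) 0 =
        ∫ θ in (Real.pi + Real.pi / 2)..(2 * Real.pi), Real.cos θ := by
      refine intervalIntegral.integral_congr fun θ hθ => ?_
      rw [uIcc_of_le (by linarith)] at hθ
      refine max_eq_left ?_
      have h4 : Real.cos θ = Real.cos (θ - 2 * Real.pi) := (Real.cos_sub_two_pi θ).symm
      rw [h4]
      exact Real.cos_nonneg_of_mem_Icc ⟨by linarith [hθ.1], by linarith [hθ.2]⟩
    rw [this, integral_cos, Real.sin_two_pi]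
    have h5 : Real.sin (Real.pi + Real.pi / 2) = -1 := by
      rw [Real.sin_add]
      simp
    rw [h5]
    norm_num
  rw [← intervalIntegral.integral_add_adjacent_intervals (b := Real.pi / 2) (hc.intervalIntegrable _ _)
    (hc.intervalIntegrable _ _), ← intervalIntegral.integral_add_adjacent_intervals (a := Real.pi / 2)
    (b := Real.pi + Real.pi / 2) (hc.intervalIntegrable _ _) (hc.intervalIntegrable _ _), h1, h2, h3]
  norm_num

theorem int_cos_neg : ∫ θ in (0:ℝ)..(2 * Real.pi), max (-Real.cos θ) 0 = 2 := by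
  have h1 : ∀ θ : ℝ, max (-Real.cos θ) 0 = max (Real.cos θ) 0 - Real.cos θ := by
    intro θ
    rcases le_total (Real.cos θ) 0 with h | h
    · rw [max_eq_left (by linarith), max_eq_right h]; ring
    · rw [max_eq_right (by linarith), max_eq_left h]; ring
  simp_rw [h1]
  rw [intervalIntegral.integral_sub ((by fun_prop : Continuous fun θ : ℝ => max (Real.cos θ) 0).intervalIntegrable _ _)
    (Real.continuous_cos.intervalIntegrable _ _), int_cos_pos, integral_cos, Real.sin_two_pi, Real.sin_zero]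
  norm_num

/-- circle average of the comparison function -/
theorem avg_comp (a b L K R : ℝ) (hR : 0 ≤ R) :
    Real.circleAverage (fun z : ℂ => (max z.re 0 / a + max (-z.re) 0 / b) * L + K) 0 R =
      (1 / a + 1 / b) / Real.pi * R * L + K := by
  rw [Real.circleAverage_def]
  have hre : ∀ θ : ℝ, (circleMap 0 R θ).re = R * Real.cos θ := by
    intro θ
    simp [circleMap, Complex.exp_re]
  have h1 : ∀ θ : ℝ, (max (circleMap 0 R θ).re 0 / a + max (-(circleMap 0 R θ).re) 0 / b) * L + K =
      (R * L / a) * max (Real.cos θ) 0 + (R * L / b) * max (-Real.cos θ) 0 + K := by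
    intro θ
    rw [hre]
    have h2 : max (R * Real.cos θ) 0 = R * max (Real.cos θ) 0 := by
      rw [mul_max_of_nonneg _ _ hR, mul_zero]
    have h3 : max (-(R * Real.cos θ)) 0 = R * max (-Real.cos θ) 0 := by
      rw [mul_max_of_nonneg _ _ hR, mul_zero]
      congr 1
      ring
    rw [h2, h3]
    ring
  simp_rw [h1]
  have c1 : Continuous (fun θ : ℝ => (R * L / a) * max (Real.cos θ) 0) := by fun_prop
  have c2 : Continuous (fun θ : ℝ => (R * L / b) * max (-Real.cos θ) 0) := by fun_prop
  have c3 : Continuous (fun θ : ℝ => (R * L / a) * max (Real.cos θ) 0 + (R * L / b) * max (-Real.cos θ) 0) := by fun_prop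
  rw [intervalIntegral.integral_add (c3.intervalIntegrable _ _) (continuous_const.intervalIntegrable _ _),
    intervalIntegral.integral_add (c1.intervalIntegrable _ _) (c2.intervalIntegrable _ _),
    intervalIntegral.integral_const_mul, intervalIntegral.integral_const_mul, int_cos_pos, int_cos_neg,
    intervalIntegral.integral_const]
  have hp := Real.pi_pos
  simp only [smul_eq_mul, sub_zero]
  field_simp

theorem order_ff {a b c B α : ℝ} {w : ℝ → ℝ} (h : Tame a b w c B α) {ρ : ℂ} (h0 : 0 < ρ.re) (h1 : ρ.re < 1) :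
    analyticOrderAt (ff w c) ρ = analyticOrderAt (wh w) ρ := by
  have hρ : ρ ≠ 0 := by rintro rfl; simp at h0
  have he : ff w c =ᶠ[𝓝 ρ] (fun s => s) * wh w := by
    filter_upwards [near_strip h0 (by linarith : ρ.re < 2)] with z hz
    exact ff_eq h hz.1
  have hid : AnalyticAt ℂ (fun s : ℂ => s) ρ := analyticAt_id
  rw [analyticOrderAt_congr he, analyticOrderAt_mul hid (wh_an h.wt h0 h1),
    hid.analyticOrderAt_eq_zero.2 hρ, zero_add]

theorem order_fin {a b c B α : ℝ} {w : ℝ → ℝ} (h : Tame a b w c B α)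
    (hne : ¬ ∀ᵐ u ∂(volume.restrict (Ioi (0:ℝ))), w u = 0) {ρ : ℂ} (h0 : 0 < ρ.re) (h1 : ρ.re < 1) :
    analyticOrderAt (wh w) ρ ≠ ⊤ := by
  rw [← order_ff h h0 h1]
  obtain ⟨s, hs⟩ := ff_ne h hne
  intro htop
  have han : AnalyticOnNhd ℂ (ff w c) univ := (ff_entire h).differentiableOn.analyticOnNhd isOpen_univ
  exact hs (congrFun ((AnalyticOnNhd.analyticOrderAt_eq_top_iff_eq_zero ρ (fun z => han z (mem_univ z))).1 htop) s)

/-- **Jensen's bound.** -/
theorem jensen {a b c B α : ℝ} {w : ℝ → ℝ} (h : Tame a b w c B α)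
    (hne : ¬ ∀ᵐ u ∂(volume.restrict (Ioi (0:ℝ))), w u = 0) :
    ∃ C : ℝ, 0 ≤ C ∧ ∀ R : ℝ, 1 ≤ R → ∀ Z : Finset ℂ, (∀ ρ ∈ Z, 0 < ρ.re ∧ ρ.re < 1 ∧ ‖ρ‖ ≤ R) →
      ∑ ρ ∈ Z, (analyticOrderNatAt (wh w) ρ : ℝ) * Real.log (R / ‖ρ‖) ≤
        (1 / a + 1 / b) / Real.pi * R * Real.log (1 + R) + C * (1 + R) := by
  obtain ⟨C, hC, hg⟩ := ff_growth h
  set f := ff w c with hf
  have han : AnalyticOnNhd ℂ f univ := (ff_entire h).differentiableOn.analyticOnNhd isOpen_univ
  set τ : ℝ := Real.log ‖meromorphicTrailingCoeffAt f 0‖ with hτ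
  refine ⟨C + |τ|, by positivity, fun R hR Z hZ => ?_⟩
  have hR0 : 0 < R := by linarith
  have hRa : |R| = R := abs_of_pos hR0
  have hanR : AnalyticOnNhd ℂ f (closedBall 0 |R|) := han.mono (subset_univ _)
  have key := MeromorphicOn.circleAverage_log_norm (c := 0) hR0.ne' hanR.meromorphicOn
  -- upper bound for the average
  have hup : Real.circleAverage (fun z => Real.log ‖f z‖) 0 R ≤
      (1 / a + 1 / b) / Real.pi * R * Real.log (1 + R) + C * (1 + R) := by
    rw [← avg_comp a b (Real.log (1 + R)) (C * (1 + R)) R hR0.le]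
    refine Real.circleAverage_mono ?_ ?_ ?_
    · exact (han.mono (subset_univ _)).meromorphicOn.circleIntegrable_log_norm
    · refine ContinuousOn.circleIntegrable' ?_
      exact (by fun_prop : Continuous fun z : ℂ => (max z.re 0 / a + max (-z.re) 0 / b) * Real.log (1 + R) + C * (1 + R)).continuousOn
    · intro z hz
      rw [mem_sphere, dist_zero_right, hRa] at hz
      have h1 := hg z
      rw [hz] at h1
      have hpos : 0 ≤ (max z.re 0 / a + max (-z.re) 0 / b) * Real.log (1 + R) + C * (1 + R) := by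
        have h2 := div_nonneg (le_max_right z.re 0) h.ha.le
        have h3 := div_nonneg (le_max_right (-z.re) 0) h.hb.le
        have h4 : 0 ≤ Real.log (1 + R) := Real.log_nonneg (by linarith)
        have h5 : 0 ≤ C * (1 + R) := by positivity
        have h6 := mul_nonneg (add_nonneg h2 h3) h4
        linarith
      rcases eq_or_ne (f z) 0 with h2 | h2
      · rw [h2, norm_zero, Real.log_zero]
        exact hpos
      · rw [Real.log_le_iff_le_exp (norm_pos_iff.2 h2)]
        exact h1
  -- lower bound for the sum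
  set D := MeromorphicOn.divisor f (closedBall 0 |R|) with hD
  have hDnn : ∀ u, (0:ℤ) ≤ D u := fun u => (MeromorphicOn.AnalyticOnNhd.divisor_nonneg hanR) u
  have hfin : (Function.support fun u => (D u : ℝ) * Real.log (R * ‖0 - u‖⁻¹)).Finite := by
    refine (D.finiteSupport (isCompact_closedBall 0 |R|)).subset fun u hu => ?_
    intro h2
    apply hu
    simp [h2]
  have hterm : ∀ u, 0 ≤ (D u : ℝ) * Real.log (R * ‖0 - u‖⁻¹) := by
    intro u
    by_cases hu : u ∈ closedBall (0:ℂ) |R|
    · refine mul_nonneg (by exact_mod_cast hDnn u) ?_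
      rw [zero_sub, norm_neg]
      rcases eq_or_ne u 0 with h2 | h2
      · rw [h2]; simp
      · refine Real.log_nonneg ?_
        rw [← div_eq_mul_inv, le_div_iff₀ (norm_pos_iff.2 h2), one_mul]
        rw [mem_closedBall, dist_zero_right, hRa] at hu
        exact hu
    · have : D u = 0 := by
        rw [hD]
        exact Function.locallyFinsuppWithin.apply_eq_zero_of_notMem _ hu
      rw [this]
      simp
  have hlow : ∑ ρ ∈ Z, (analyticOrderNatAt (wh w) ρ : ℝ) * Real.log (R / ‖ρ‖) ≤
      ∑ᶠ u, (D u : ℝ) * Real.log (R * ‖0 - u‖⁻¹) := by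
    rw [finsum_eq_sum_of_support_subset (s := hfin.toFinset ∪ Z) _ (by
      intro u hu
      rw [Finset.coe_union]
      exact Or.inl (hfin.mem_toFinset.2 hu))]
    refine le_trans (le_of_eq ?_) (Finset.sum_le_sum_of_subset_of_nonneg Finset.subset_union_right fun u _ _ => hterm u)
    refine Finset.sum_congr rfl fun ρ hρ => ?_
    obtain ⟨h1, h2, h3⟩ := hZ ρ hρ
    have hmem : ρ ∈ closedBall (0:ℂ) |R| := by
      rw [mem_closedBall, dist_zero_right, hRa]
      exact h3
    have h4 : D ρ = (analyticOrderNatAt (wh w) ρ : ℤ) := by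
      rw [hD, MeromorphicOn.AnalyticOnNhd.divisor_apply hanR hmem]
      have h5 := order_ff h h1 h2
      unfold analyticOrderNatAt
      rw [hf, h5]
      obtain ⟨n, hn⟩ := ENat.ne_top_iff_exists.1 (order_fin h hne h1 h2)
      rw [← hn]
      simp
    rw [h4, zero_sub, norm_neg, div_eq_mul_inv]
    push_cast
    rfl
  have hcen : 0 ≤ (D 0 : ℝ) * Real.log R := mul_nonneg (by exact_mod_cast hDnn 0) (Real.log_nonneg hR)
  have h1 := neg_abs_le τ
  have h2 : |τ| ≤ |τ| * (1 + R) := le_mul_of_one_le_right (abs_nonneg _) (by linarith)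
  have h3 : ∑ᶠ u, (D u : ℝ) * Real.log (R * ‖0 - u‖⁻¹) ≤
      (1 / a + 1 / b) / Real.pi * R * Real.log (1 + R) + C * (1 + R) + |τ| := by
    have h4 : Real.circleAverage (fun z => Real.log ‖f z‖) 0 R =
        ∑ᶠ u, (D u : ℝ) * Real.log (R * ‖0 - u‖⁻¹) + (D 0 : ℝ) * Real.log R + τ := key
    linarith
  calc _ ≤ _ := hlow
    _ ≤ _ := h3
    _ ≤ _ := by linarith

end

end H19.EW
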