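import Pool.Agent.H19.EW.NDefs

set_option autoImplicit false

open Complex Filter Topology Set MeasureTheory

namespace H370

/-- integral of 1/(w-p) over a rectangle boundary. -/
lemma rect_inv (a b c d : ℝ) (p : ℂ) (ha : a < p.re) (hb : p.re < b) (hc : c < p.im)
    (hd : p.im < d) :
    (∫ x in a..b, ((x:ℂ) + c * I - p)⁻¹) - (∫ x in a..b, ((x:ℂ) + d * I - p)⁻¹)
      + I * (∫ y in c..d, ((b:ℂ) + y * I - p)⁻¹) - I * (∫ y in c..d, ((a:ℂ) + y * I - p)⁻¹)
      = 2 * Real.pi * I := by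
  have h1 : (∫ x in a..b, ((x:ℂ) + c * I - p)⁻¹) = log (b + c * I - p) - log (a + c * I - p) := by
    have := intervalIntegral.integral_eq_sub_of_hasDerivAt
      (f := fun x : ℝ => log ((x:ℂ) + c * I - p)) (f' := fun x : ℝ => ((x:ℂ) + c * I - p)⁻¹)
      (a := a) (b := b) ?_ ?_
    · exact this
    · intro x _
      have h : HasDerivAt (fun x : ℝ => (x:ℂ) + c * I - p) 1 x :=
        ((Complex.ofRealCLM.hasDerivAt (x := x)).add_const _).sub_const _
      have := h.clog_real (Or.inr (by simp; intro h; linarith))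
      simpa using this
    · apply ContinuousOn.intervalIntegrable
      apply ContinuousOn.inv₀
      · fun_prop
      · intro x _ h
        have := congrArg Complex.im h
        simp at this
        linarith
  have h2 : (∫ x in a..b, ((x:ℂ) + d * I - p)⁻¹) = log (b + d * I - p) - log (a + d * I - p) := by
    have := intervalIntegral.integral_eq_sub_of_hasDerivAt
      (f := fun x : ℝ => log ((x:ℂ) + d * I - p)) (f' := fun x : ℝ => ((x:ℂ) + d * I - p)⁻¹)
      (a := a) (b := b) ?_ ?_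
    · exact this
    · intro x _
      have h : HasDerivAt (fun x : ℝ => (x:ℂ) + d * I - p) 1 x :=
        ((Complex.ofRealCLM.hasDerivAt (x := x)).add_const _).sub_const _
      have := h.clog_real (Or.inr (by simp; intro h; linarith))
      simpa using this
    · apply ContinuousOn.intervalIntegrable
      apply ContinuousOn.inv₀
      · fun_prop
      · intro x _ h
        have := congrArg Complex.im h
        simp at this
        linarith
  have h3 : I * (∫ y in c..d, ((b:ℂ) + y * I - p)⁻¹) = log (b + d * I - p) - log (b + c * I - p) := by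
    have := intervalIntegral.integral_eq_sub_of_hasDerivAt
      (f := fun y : ℝ => log ((b:ℂ) + y * I - p)) (f' := fun y : ℝ => I * ((b:ℂ) + y * I - p)⁻¹)
      (a := c) (b := d) ?_ ?_
    · rw [← intervalIntegral.integral_const_mul]
      exact this
    · intro y _
      have h : HasDerivAt (fun y : ℝ => (b:ℂ) + y * I - p) I y := by
        have := ((Complex.ofRealCLM.hasDerivAt (x := y)).mul_const I).const_add (b:ℂ) |>.sub_const p
        simpa using this
      have := h.clog_real (Or.inl (by simp; linarith))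
      simpa [div_eq_mul_inv] using this
    · apply ContinuousOn.intervalIntegrable
      apply ContinuousOn.mul continuousOn_const
      apply ContinuousOn.inv₀
      · fun_prop
      · intro x _ h
        have := congrArg Complex.re h
        simp at this
        linarith
  have h4 : I * (∫ y in c..d, ((a:ℂ) + y * I - p)⁻¹) = log (p - (a + d * I)) - log (p - (a + c * I)) := by
    have := intervalIntegral.integral_eq_sub_of_hasDerivAt
      (f := fun y : ℝ => log (p - ((a:ℂ) + y * I))) (f' := fun y : ℝ => I * ((a:ℂ) + y * I - p)⁻¹)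
      (a := c) (b := d) ?_ ?_
    · rw [← intervalIntegral.integral_const_mul]
      exact this
    · intro y _
      have h : HasDerivAt (fun y : ℝ => p - ((a:ℂ) + y * I)) (-I) y := by
        have := (((Complex.ofRealCLM.hasDerivAt (x := y)).mul_const I).const_add (a:ℂ)).const_sub p
        simpa using this
      have := h.clog_real (Or.inl (by simp; linarith))
      have e : I * ((a:ℂ) + y * I - p)⁻¹ = -I / (p - ((a:ℂ) + y * I)) := by
        rw [div_eq_mul_inv, ← neg_sub ((a:ℂ) + y * I) p, inv_neg]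
        ring
      rw [e]
      exact this
    · apply ContinuousOn.intervalIntegrable
      apply ContinuousOn.mul continuousOn_const
      apply ContinuousOn.inv₀
      · fun_prop
      · intro x _ h
        have := congrArg Complex.re h
        simp at this
        linarith
  rw [h1, h2, h3, h4]
  have key : ∀ z : ℂ, 0 < z.im → log z - log (-z) = Real.pi * I := by
    intro z hz
    have hz0 : z ≠ 0 := by rintro rfl; simp at hz
    rw [Complex.log, Complex.log, Complex.arg_neg_eq_arg_sub_pi_of_im_pos hz]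
    simp
    ring
  have k1 := key (a + d * I - p) (by simp; linarith)
  have k2 := key (p - (a + c * I)) (by simp; linarith)
  rw [neg_sub] at k1 k2
  linear_combination k1 + k2

/-- boundary integral of a rectangle (counterclockwise) -/
noncomputable def RI (a b c d : ℝ) (f : ℂ → ℂ) : ℂ :=
  (∫ x in a..b, f ⟨x, c⟩) - (∫ x in a..b, f ⟨x, d⟩)
    + I * (∫ y in c..d, f ⟨b, y⟩) - I * (∫ y in c..d, f ⟨a, y⟩)

/-- the boundary of the rectangle -/
def Bd (a b c d : ℝ) : Set ℂ :=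
  {s | (s.re ∈ Set.Icc a b ∧ (s.im = c ∨ s.im = d)) ∨ (s.im ∈ Set.Icc c d ∧ (s.re = a ∨ s.re = b))}

lemma mk_eq (x y : ℝ) : (⟨x, y⟩ : ℂ) = (x : ℂ) + y * I := by
  apply Complex.ext <;> simp

lemma Bd_sub {a b c d : ℝ} (hab : a ≤ b) (hcd : c ≤ d) : Bd a b c d ⊆ Set.Icc a b ×ℂ Set.Icc c d := by
  rintro s (⟨h1, h2 | h2⟩ | ⟨h1, h2 | h2⟩)
  · exact ⟨h1, by rw [mem_preimage, h2]; exact ⟨le_rfl, hcd⟩⟩
  · exact ⟨h1, by rw [mem_preimage, h2]; exact ⟨hcd, le_rfl⟩⟩
  · exact ⟨by rw [mem_preimage, h2]; exact ⟨le_rfl, hab⟩, h1⟩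
  · exact ⟨by rw [mem_preimage, h2]; exact ⟨hab, le_rfl⟩, h1⟩

lemma Bd_not_Ioo {a b c d : ℝ} {s : ℂ} (hs : s ∈ Bd a b c d) :
    s ∉ Set.Ioo a b ×ℂ Set.Ioo c d := by
  rintro ⟨h1, h2⟩
  rw [mem_preimage] at h1 h2
  rcases hs with (⟨h3, h4 | h4⟩ | ⟨h3, h4 | h4⟩)
  · exact absurd h2.1 (by rw [h4]; exact lt_irrefl _)
  · exact absurd h2.2 (by rw [h4]; exact lt_irrefl _)
  · exact absurd h1.1 (by rw [h4]; exact lt_irrefl _)
  · exact absurd h1.2 (by rw [h4]; exact lt_irrefl _)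

lemma ii_h {a b c d : ℝ} (hab : a ≤ b) {f : ℂ → ℂ} (hf : ContinuousOn f (Bd a b c d)) {e : ℝ}
    (he : e = c ∨ e = d) : IntervalIntegrable (fun x : ℝ => f ⟨x, e⟩) volume a b := by
  apply ContinuousOn.intervalIntegrable
  rw [uIcc_of_le hab]
  have h1 : ContinuousOn (fun x : ℝ => (⟨x, e⟩ : ℂ)) (Icc a b) := by
    have : (fun x : ℝ => (⟨x, e⟩ : ℂ)) = fun x : ℝ => (x : ℂ) + e * I := by
      funext x; exact mk_eq x e
    rw [this]; fun_prop
  exact hf.comp h1 (fun x hx => Or.inl ⟨hx, he⟩)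

lemma ii_v {a b c d : ℝ} (hcd : c ≤ d) {f : ℂ → ℂ} (hf : ContinuousOn f (Bd a b c d)) {e : ℝ}
    (he : e = a ∨ e = b) : IntervalIntegrable (fun y : ℝ => f ⟨e, y⟩) volume c d := by
  apply ContinuousOn.intervalIntegrable
  rw [uIcc_of_le hcd]
  have h1 : ContinuousOn (fun y : ℝ => (⟨e, y⟩ : ℂ)) (Icc c d) := by
    have : (fun y : ℝ => (⟨e, y⟩ : ℂ)) = fun y : ℝ => (e : ℂ) + y * I := by
      funext x; exact mk_eq e x
    rw [this]; fun_prop
  exact hf.comp h1 (fun x hx => Or.inr ⟨hx, he⟩)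

lemma RI_add {a b c d : ℝ} (hab : a ≤ b) (hcd : c ≤ d) {f g : ℂ → ℂ}
    (hf : ContinuousOn f (Bd a b c d)) (hg : ContinuousOn g (Bd a b c d)) :
    RI a b c d (fun s => f s + g s) = RI a b c d f + RI a b c d g := by
  unfold RI
  rw [intervalIntegral.integral_add (ii_h hab hf (Or.inl rfl)) (ii_h hab hg (Or.inl rfl)),
    intervalIntegral.integral_add (ii_h hab hf (Or.inr rfl)) (ii_h hab hg (Or.inr rfl)),
    intervalIntegral.integral_add (ii_v hcd hf (Or.inr rfl)) (ii_v hcd hg (Or.inr rfl)),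
    intervalIntegral.integral_add (ii_v hcd hf (Or.inl rfl)) (ii_v hcd hg (Or.inl rfl))]
  ring

lemma RI_congr {a b c d : ℝ} (hab : a ≤ b) (hcd : c ≤ d) {f g : ℂ → ℂ}
    (h : ∀ s ∈ Bd a b c d, f s = g s) : RI a b c d f = RI a b c d g := by
  unfold RI
  rw [intervalIntegral.integral_congr (g := fun x : ℝ => g ⟨x, c⟩),
    intervalIntegral.integral_congr (a := a) (b := b) (f := fun x : ℝ => f ⟨x, d⟩)
      (g := fun x : ℝ => g ⟨x, d⟩),
    intervalIntegral.integral_congr (a := c) (b := d) (f := fun y : ℝ => f ⟨b, y⟩)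
      (g := fun y : ℝ => g ⟨b, y⟩),
    intervalIntegral.integral_congr (a := c) (b := d) (f := fun y : ℝ => f ⟨a, y⟩)
      (g := fun y : ℝ => g ⟨a, y⟩)]
  · intro y hy; rw [uIcc_of_le hcd] at hy; exact h _ (Or.inr ⟨hy, Or.inl rfl⟩)
  · intro y hy; rw [uIcc_of_le hcd] at hy; exact h _ (Or.inr ⟨hy, Or.inr rfl⟩)
  · intro y hy; rw [uIcc_of_le hab] at hy; exact h _ (Or.inl ⟨hy, Or.inr rfl⟩)
  · intro y hy; rw [uIcc_of_le hab] at hy; exact h _ (Or.inl ⟨hy, Or.inl rfl⟩)

lemma RI_const_mul {a b c d : ℝ} (k : ℂ) (f : ℂ → ℂ) :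
    RI a b c d (fun s => k * f s) = k * RI a b c d f := by
  unfold RI
  simp only [intervalIntegral.integral_const_mul]
  ring

lemma RI_zero {a b c d : ℝ} (hab : a ≤ b) (hcd : c ≤ d) {f : ℂ → ℂ}
    (hf : DifferentiableOn ℂ f (Set.Icc a b ×ℂ Set.Icc c d)) : RI a b c d f = 0 := by
  have H := Complex.integral_boundary_rect_eq_zero_of_differentiableOn f ⟨a, c⟩ ⟨b, d⟩ (by
    simpa [uIcc_of_le hab, uIcc_of_le hcd] using hf)
  unfold RI
  simp only [mk_eq]
  simpa [smul_eq_mul] using H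

lemma RI_inv {a b c d : ℝ} {p : ℂ} (hp : p ∈ Set.Ioo a b ×ℂ Set.Ioo c d) :
    RI a b c d (fun s => (s - p)⁻¹) = 2 * Real.pi * I := by
  obtain ⟨h1, h2⟩ := hp
  rw [mem_preimage] at h1 h2
  unfold RI
  simp only [mk_eq]
  exact rect_inv a b c d p h1.1 h1.2 h2.1 h2.2

lemma RI_cauchy {a b c d : ℝ} (hab : a < b) (hcd : c < d) {h : ℂ → ℂ} (hh : Differentiable ℂ h)
    {p : ℂ} (hp : p ∈ Set.Ioo a b ×ℂ Set.Ioo c d) :
    RI a b c d (fun s => h s * (s - p)⁻¹) = 2 * Real.pi * I * h p := by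
  have hds : Differentiable ℂ (dslope h p) := by
    have := (Complex.differentiableOn_dslope (s := Set.univ) (c := p) (f := h) univ_mem).2
      hh.differentiableOn
    exact differentiableOn_univ.1 this
  have hB : ∀ s ∈ Bd a b c d, s ≠ p := fun s hs he => Bd_not_Ioo hs (he ▸ hp)
  have hci : ContinuousOn (fun s : ℂ => (s - p)⁻¹) (Bd a b c d) := by
    apply ContinuousOn.inv₀ (by fun_prop)
    intro s hs
    exact sub_ne_zero.2 (hB s hs)
  have e1 : RI a b c d (fun s => h s * (s - p)⁻¹) =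
      RI a b c d (fun s => dslope h p s + h p * (s - p)⁻¹) := by
    apply RI_congr hab.le hcd.le
    intro s hs
    rw [dslope_of_ne _ (hB s hs), slope_def_field]
    ring
  rw [e1, RI_add hab.le hcd.le (g := fun s => h p * (s - p)⁻¹) hds.continuous.continuousOn
    (continuousOn_const.mul hci),
    RI_zero hab.le hcd.le hds.differentiableOn, RI_const_mul, RI_inv hp]
  ring

/-- induction form of the residue theorem for `F'/F * h` -/
lemma residue_aux {a b c d : ℝ} (hab : a < b) (hcd : c < d) {h : ℂ → ℂ} (hh : Differentiable ℂ h)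
    (n : ℕ) : ∀ (F : ℂ → ℂ) (Z : Finset ℂ), Z.card = n →
      AnalyticOnNhd ℂ F (Set.Icc a b ×ℂ Set.Icc c d) →
      (∀ s ∈ Set.Icc a b ×ℂ Set.Icc c d, F s = 0 ↔ s ∈ Z) →
      (∀ s ∈ Z, s ∈ Set.Ioo a b ×ℂ Set.Ioo c d ∧ analyticOrderAt F s ≠ ⊤) →
      RI a b c d (fun s => deriv F s / F s * h s) =
        2 * Real.pi * I * ∑ s ∈ Z, (mult F s : ℂ) * h s := by
  induction n with
  | zero =>
    intro F Z hZ hF hz _
    rw [Finset.card_eq_zero] at hZ
    subst hZ
    simp only [Finset.sum_empty, mul_zero]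
    apply RI_zero hab.le hcd.le
    intro s hs
    have h0 : F s ≠ 0 := fun h => by simpa using (hz s hs).1 h
    exact (((hF s hs).deriv.differentiableAt.div (hF s hs).differentiableAt h0).mul
      (hh s)).differentiableWithinAt
  | succ n ih =>
    intro F Z hZ hF hz hz2
    obtain ⟨ρ, hρ⟩ : Z.Nonempty := Finset.card_pos.1 (by omega)
    obtain ⟨hρI, hρo⟩ := hz2 ρ hρ
    have hρK : ρ ∈ Set.Icc a b ×ℂ Set.Icc c d :=
      ⟨Ioo_subset_Icc_self hρI.1, Ioo_subset_Icc_self hρI.2⟩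
    have hFρ := hF ρ hρK
    set m := mult F ρ with hm
    have hmo : analyticOrderAt F ρ = (m : ℕ∞) := by
      rw [hm, mult, Nat.cast_analyticOrderNatAt hρo]
    obtain ⟨g0, hg0, hg0ne, hg0e⟩ := (hFρ.analyticOrderAt_eq_natCast).1 hmo
    set G : ℂ → ℂ := Function.update (fun z => F z / (z - ρ) ^ m) ρ (g0 ρ) with hG
    have hGne : ∀ s, s ≠ ρ → G s = F s / (s - ρ) ^ m := by
      intro s hs; rw [hG, Function.update_of_ne hs]
    have hGρ : G ρ = g0 ρ := by rw [hG, Function.update_self]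
    -- F = (z-ρ)^m * G away from ρ
    have hFG : ∀ s, s ≠ ρ → F s = (s - ρ) ^ m * G s := by
      intro s hs
      rw [hGne s hs, mul_div_cancel₀]
      exact pow_ne_zero _ (sub_ne_zero.2 hs)
    have hGe : G =ᶠ[𝓝 ρ] g0 := by
      filter_upwards [hg0e] with z hzz
      by_cases hzρ : z = ρ
      · rw [hzρ, hGρ]
      · rw [hGne z hzρ, hzz, smul_eq_mul, mul_div_cancel_left₀]
        exact pow_ne_zero _ (sub_ne_zero.2 hzρ)
    have hGe2 : ∀ s, s ≠ ρ → G =ᶠ[𝓝 s] fun z => F z / (z - ρ) ^ m := by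
      intro s hs
      filter_upwards [isOpen_ne.mem_nhds hs] with z hz
      exact hGne z hz
    have hFe2 : ∀ s, s ≠ ρ → F =ᶠ[𝓝 s] fun z => (z - ρ) ^ m * G z := by
      intro s hs
      filter_upwards [isOpen_ne.mem_nhds hs] with z hz
      exact hFG z hz
    have hpow : ∀ s : ℂ, AnalyticAt ℂ (fun z => (z - ρ) ^ m) s := fun s => by fun_prop
    have hGan : AnalyticOnNhd ℂ G (Set.Icc a b ×ℂ Set.Icc c d) := by
      intro s hs
      by_cases hsρ : s = ρ
      · subst hsρ; exact hg0.congr hGe.symm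
      · exact ((hF s hs).div (hpow s) (pow_ne_zero _ (sub_ne_zero.2 hsρ))).congr (hGe2 s hsρ).symm
    have hZ' : (Z.erase ρ).card = n := by rw [Finset.card_erase_of_mem hρ, hZ]; rfl
    have hz' : ∀ s ∈ Set.Icc a b ×ℂ Set.Icc c d, G s = 0 ↔ s ∈ Z.erase ρ := by
      intro s hs
      rw [Finset.mem_erase]
      by_cases hsρ : s = ρ
      · subst hsρ
        simp only [ne_eq, not_true_eq_false, false_and, iff_false]
        rw [hGρ]; exact hg0ne
      · rw [hGne s hsρ, div_eq_zero_iff, hz s hs]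
        simp [hsρ, sub_ne_zero.2 hsρ]
    have hord : ∀ s, s ≠ ρ → s ∈ Set.Icc a b ×ℂ Set.Icc c d →
        analyticOrderAt F s = analyticOrderAt G s := by
      intro s hs hsK
      rw [analyticOrderAt_congr (hFe2 s hs)]
      have : (fun z => (z - ρ) ^ m * G z) = (fun z => (z - ρ) ^ m) * G := rfl
      rw [this, analyticOrderAt_mul (hpow s) (hGan s hsK)]
      have h0 : analyticOrderAt (fun z => (z - ρ) ^ m) s = 0 :=
        (hpow s).analyticOrderAt_eq_zero.2 (pow_ne_zero _ (sub_ne_zero.2 hs))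
      rw [h0, zero_add]
    have hz2' : ∀ s ∈ Z.erase ρ, s ∈ Set.Ioo a b ×ℂ Set.Ioo c d ∧ analyticOrderAt G s ≠ ⊤ := by
      intro s hs
      rw [Finset.mem_erase] at hs
      obtain ⟨h1, h2⟩ := hz2 s hs.2
      refine ⟨h1, ?_⟩
      rw [← hord s hs.1 ⟨Ioo_subset_Icc_self h1.1, Ioo_subset_Icc_self h1.2⟩]
      exact h2
    have IH := ih G (Z.erase ρ) hZ' hGan hz' hz2'
    -- splitting on the boundary
    have hBK := Bd_sub hab.le hcd.le
    have hBρ : ∀ s ∈ Bd a b c d, s ≠ ρ := fun s hs he => Bd_not_Ioo hs (he ▸ hρI)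
    have hBG : ∀ s ∈ Bd a b c d, G s ≠ 0 := by
      intro s hs h0
      have := (hz' s (hBK hs)).1 h0
      exact Bd_not_Ioo hs (hz2' s this).1
    have hsplit : RI a b c d (fun s => deriv F s / F s * h s) =
        RI a b c d (fun s => deriv G s / G s * h s + (m : ℂ) * (h s * (s - ρ)⁻¹)) := by
      apply RI_congr hab.le hcd.le
      intro s hs
      have hsρ := hBρ s hs
      have hsub := sub_ne_zero.2 hsρ
      have h1 : deriv F s = m * (s - ρ) ^ (m - 1) * G s + (s - ρ) ^ m * deriv G s := by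
        rw [(hFe2 s hsρ).deriv_eq]
        have hd1 : HasDerivAt (fun z : ℂ => (z - ρ) ^ m) (m * (s - ρ) ^ (m - 1)) s := by
          have h3 := ((hasDerivAt_id s).sub_const ρ).fun_pow m
          simpa using h3
        exact (hd1.mul (hGan s (hBK hs)).differentiableAt.hasDerivAt).deriv
      rw [h1, hFG s hsρ]
      have hGs := hBG s hs
      rcases Nat.eq_zero_or_pos m with h0 | hpos
      · rw [h0]; simp
      · obtain ⟨k, hk⟩ : ∃ k, m = k + 1 := ⟨m - 1, by omega⟩
        rw [hk]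
        simp only [Nat.add_sub_cancel, pow_succ]
        field_simp
        ring
    have hcont1 : ContinuousOn (fun s => deriv G s / G s * h s) (Bd a b c d) := by
      intro s hs
      exact (((hGan s (hBK hs)).deriv.continuousAt.div (hGan s (hBK hs)).continuousAt
        (hBG s hs)).mul hh.continuous.continuousAt).continuousWithinAt
    have hcont2 : ContinuousOn (fun s => (m : ℂ) * (h s * (s - ρ)⁻¹)) (Bd a b c d) := by
      apply ContinuousOn.mul continuousOn_const
      apply ContinuousOn.mul hh.continuous.continuousOn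
      apply ContinuousOn.inv₀ (by fun_prop)
      intro s hs
      exact sub_ne_zero.2 (hBρ s hs)
    rw [hsplit, RI_add hab.le hcd.le hcont1 hcont2, IH, RI_const_mul, RI_cauchy hab hcd hh hρI,
      ← Finset.add_sum_erase Z _ hρ]
    have e : ∑ s ∈ Z.erase ρ, (mult G s : ℂ) * h s = ∑ s ∈ Z.erase ρ, (mult F s : ℂ) * h s := by
      apply Finset.sum_congr rfl
      intro s hs
      rw [Finset.mem_erase] at hs
      have h1 := (hz2 s hs.2).1
      have := hord s hs.1 ⟨Ioo_subset_Icc_self h1.1, Ioo_subset_Icc_self h1.2⟩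
      rw [mult, mult, analyticOrderNatAt, analyticOrderNatAt, this]
    rw [e]
    ring

theorem rect_residue (F h : ℂ → ℂ) (a b c d : ℝ) (hab : a < b) (hcd : c < d)
    (hF : AnalyticOnNhd ℂ F (Set.Icc a b ×ℂ Set.Icc c d)) (hh : Differentiable ℂ h)
    (hbd : ∀ s ∈ Set.Icc a b ×ℂ Set.Icc c d, F s = 0 → s ∈ Set.Ioo a b ×ℂ Set.Ioo c d) :
    (Set.Finite {s | s ∈ Set.Ioo a b ×ℂ Set.Ioo c d ∧ F s = 0}) ∧
    (∫ x in a..b, deriv F (⟨x, c⟩ : ℂ) / F ⟨x, c⟩ * h ⟨x, c⟩)
      - (∫ x in a..b, deriv F (⟨x, d⟩ : ℂ) / F ⟨x, d⟩ * h ⟨x, d⟩)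
      + I * (∫ y in c..d, deriv F (⟨b, y⟩ : ℂ) / F ⟨b, y⟩ * h ⟨b, y⟩)
      - I * (∫ y in c..d, deriv F (⟨a, y⟩ : ℂ) / F ⟨a, y⟩ * h ⟨a, y⟩)
      = 2 * Real.pi * I *
        ∑ᶠ s ∈ {s | s ∈ Set.Ioo a b ×ℂ Set.Ioo c d ∧ F s = 0}, (mult F s : ℂ) * h s := by
  set K : Set ℂ := Set.Icc a b ×ℂ Set.Icc c d with hK
  have hKc : IsCompact K := isCompact_Icc.reProdIm isCompact_Icc
  have hKpre : IsPreconnected K := by
    have : Convex ℝ K := by
      have h1 := (convex_Icc a b).linear_preimage Complex.reLm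
      have h2 := (convex_Icc c d).linear_preimage Complex.imLm
      exact h1.inter h2
    exact this.isPreconnected
  have hcorner : (⟨a, c⟩ : ℂ) ∈ K := ⟨⟨le_rfl, hab.le⟩, ⟨le_rfl, hcd.le⟩⟩
  have hcF : F ⟨a, c⟩ ≠ 0 := by
    intro h0
    have := (hbd _ hcorner h0).1
    rw [mem_preimage] at this
    exact absurd this.1 (lt_irrefl _)
  have hnt0 : ∀ s ∈ K, ¬ (∀ᶠ z in 𝓝 s, F z = 0) := fun s hs h1 =>
    hcF (hF.eqOn_zero_of_preconnected_of_eventuallyEq_zero hKpre hs h1 hcorner)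
  have hnt : ∀ s ∈ K, ∀ᶠ z in 𝓝[≠] s, F z ≠ 0 := by
    intro s hs
    rcases (hF s hs).eventually_eq_zero_or_eventually_ne_zero with h1 | h1
    · exact absurd h1 (hnt0 s hs)
    · exact h1
  have hfin : Set.Finite {s | s ∈ K ∧ F s = 0} := by
    by_contra hinf
    obtain ⟨z, hz, hacc⟩ := Set.Infinite.exists_accPt_of_subset_isCompact hinf hKc
      (fun s hs => hs.1)
    rw [accPt_iff_frequently_nhdsNE] at hacc
    have := hacc.and_eventually (hnt z hz)
    obtain ⟨w, hw⟩ := this.exists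
    exact hw.2 hw.1.2
  have hset : {s | s ∈ Set.Ioo a b ×ℂ Set.Ioo c d ∧ F s = 0} = {s | s ∈ K ∧ F s = 0} := by
    ext s
    constructor
    · rintro ⟨h1, h2⟩
      exact ⟨⟨Ioo_subset_Icc_self h1.1, Ioo_subset_Icc_self h1.2⟩, h2⟩
    · rintro ⟨h1, h2⟩
      exact ⟨hbd s h1 h2, h2⟩
  rw [hset]
  refine ⟨hfin, ?_⟩
  have key := residue_aux hab hcd hh (hfin.toFinset.card) F hfin.toFinset rfl hF
    (by
      intro s hs
      rw [Set.Finite.mem_toFinset]
      exact ⟨fun h => ⟨hs, h⟩, fun h => h.2⟩)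
    (by
      intro s hs
      rw [Set.Finite.mem_toFinset] at hs
      refine ⟨hbd s hs.1 hs.2, ?_⟩
      intro h
      exact hnt0 s hs.1 (analyticOrderAt_eq_top.1 h))
  rw [finsum_mem_eq_finite_toFinset_sum _ hfin, ← key]
  rfl

end H370
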