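import Pool.Agent.H19.EW.NLocal
import Pool.Agent.H19.EW.NRect

open Complex Filter Topology Set MeasureTheory Metric

namespace H370

open Loc

lemma NN_eq_sum {F : ℂ → ℂ} (hF : GoodL F) (T1 T2 : ℝ) (h : 1 ≤ T1) :
    NN F T1 T2 = ∑ s ∈ (zset_finite hF T1 T2 h).toFinset, mult F s := by
  unfold NN
  exact finsum_mem_eq_finite_toFinset_sum _ (zset_finite hF T1 T2 h)

theorem NN_mono {F : ℂ → ℂ} (hF : GoodL F) {a b a' b' : ℝ} (h : 1 ≤ a') (ha : a' ≤ a)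
    (hb : b ≤ b') : NN F a b ≤ NN F a' b' := by
  rw [NN_eq_sum hF a b (h.trans ha), NN_eq_sum hF a' b' h]
  refine Finset.sum_le_sum_of_subset_of_nonneg ?_ fun _ _ _ => Nat.zero_le _
  intro s hs
  rw [Set.Finite.mem_toFinset] at hs ⊢
  exact ⟨hs.1, hs.2.1, ha.trans_lt hs.2.2.1, hs.2.2.2.1.trans hb, hs.2.2.2.2⟩

theorem NN_add {F : ℂ → ℂ} (hF : GoodL F) {a b c : ℝ} (h : 1 ≤ a) (hab : a ≤ b)
    (hbc : b ≤ c) : NN F a c = NN F a b + NN F b c := by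
  classical
  rw [NN_eq_sum hF a b h, NN_eq_sum hF b c (h.trans hab), NN_eq_sum hF a c h,
    ← Finset.sum_union]
  · refine Finset.sum_congr ?_ fun _ _ => rfl
    ext s
    simp only [Finset.mem_union, Set.Finite.mem_toFinset]
    constructor
    · rintro ⟨h1, h2, h3, h4, h5⟩
      by_cases h : s.im ≤ b
      · exact Or.inl ⟨h1, h2, h3, h, h5⟩
      · push Not at h
        exact Or.inr ⟨h1, h2, h, h4, h5⟩
    · rintro (⟨h1, h2, h3, h4, h5⟩ | ⟨h1, h2, h3, h4, h5⟩)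
      · exact ⟨h1, h2, h3, h4.trans hbc, h5⟩
      · exact ⟨h1, h2, hab.trans_lt h3, h4, h5⟩
  · rw [Finset.disjoint_left]
    intro s hs hs'
    rw [Set.Finite.mem_toFinset] at hs hs'
    exact absurd hs.2.2.2.1 (not_le.2 hs'.2.2.1)

/-- the logarithmic derivative is bounded to the right of `Re s = 3/2` -/
theorem right_bound {F : ℂ → ℂ} (hF : GoodL F) (σ0 : ℝ) (hσ0 : 1 < σ0) :
    ∃ K : ℝ, 0 ≤ K ∧ ∀ s : ℂ, σ0 ≤ s.re → 1 ≤ s.im → ‖deriv F s / F s‖ ≤ K := by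
  obtain ⟨a, ha, hs⟩ := hF.ld
  have hsum : Summable fun n : ℕ => ArithmeticFunction.vonMangoldt n * (n : ℝ) ^ (-σ0) := by
    have h1 := ArithmeticFunction.LSeriesSummable_vonMangoldt (s := (σ0 : ℂ)) (by simpa using hσ0)
    have h2 := h1.norm
    refine h2.congr fun n => ?_
    rw [LSeries.norm_term_eq]
    by_cases hn : n = 0
    · subst hn; simp
    · rw [if_neg hn]
      simp only [Complex.norm_real, ofReal_re, Real.norm_eq_abs]
      rw [abs_of_nonneg ArithmeticFunction.vonMangoldt_nonneg, Real.rpow_neg (by positivity),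
        div_eq_mul_inv]
  refine ⟨∑' n : ℕ, ArithmeticFunction.vonMangoldt n * (n : ℝ) ^ (-σ0),
    tsum_nonneg fun n => mul_nonneg ArithmeticFunction.vonMangoldt_nonneg (by positivity),
    fun s hσ him => ?_⟩
  rw [hs s (hσ0.trans_le hσ) him, norm_neg]
  have hb : ∀ n : ℕ, ‖a n * (n : ℂ) ^ (-s)‖ ≤
      ArithmeticFunction.vonMangoldt n * (n : ℝ) ^ (-σ0) := by
    intro n
    rw [norm_mul]
    rcases Nat.eq_zero_or_pos n with rfl | hn
    · have : ‖a 0‖ ≤ 0 := by simpa using ha 0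
      have h0 : a 0 = 0 := norm_le_zero_iff.1 this
      simp [h0]
    · rw [Complex.norm_natCast_cpow_of_pos hn]
      refine mul_le_mul (ha n) ?_ (by positivity) ArithmeticFunction.vonMangoldt_nonneg
      rw [neg_re]
      exact Real.rpow_le_rpow_of_exponent_le (by exact_mod_cast hn) (by linarith)
  exact tsum_of_norm_bounded hsum.hasSum hb

lemma log_sq_le {x : ℝ} (hx : 1 ≤ x) : (Real.log x) ^ 2 ≤ 4 * x := by
  have h0 : 0 < x := by linarith
  have h1 : Real.log x = 2 * Real.log (Real.sqrt x) := by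
    rw [Real.log_sqrt h0.le]; ring
  have h2 : Real.log (Real.sqrt x) ≤ Real.sqrt x := by
    have := Real.log_le_sub_one_of_pos (Real.sqrt_pos.2 h0)
    linarith
  have h3 : 0 ≤ Real.log (Real.sqrt x) := Real.log_nonneg (by rw [Real.one_le_sqrt]; exact hx)
  have h4 : Real.sqrt x ^ 2 = x := Real.sq_sqrt h0.le
  rw [h1]
  nlinarith

lemma log_integral {T V1 V2 : ℝ} (hT : 10 ≤ T) (h1 : T ≤ V1) (h2 : V1 ≤ T + 1)
    (h3 : 2 * T - 1 ≤ V2) (h4 : V2 ≤ 2 * T) :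
    |(∫ y in V1..V2, Real.log y) - T * Real.log T| ≤ 3 * T := by
  have hV : V1 ≤ V2 := by linarith
  have hi : IntervalIntegrable Real.log volume V1 V2 := intervalIntegral.intervalIntegrable_log'
  have hlT : 0 ≤ Real.log T := Real.log_nonneg (by linarith)
  have hlT2 : Real.log T ≤ T := by
    have := Real.log_le_sub_one_of_pos (show 0 < T by linarith)
    linarith
  have hlow : Real.log T * (V2 - V1) ≤ ∫ y in V1..V2, Real.log y := by
    have := intervalIntegral.integral_mono_on (f := fun _ => Real.log T) hV (by simp) hi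
      (fun y hy => Real.log_le_log (by linarith) (h1.trans hy.1))
    rw [intervalIntegral.integral_const, smul_eq_mul] at this
    linarith
  have hup : ∫ y in V1..V2, Real.log y ≤ (Real.log T + 1) * (V2 - V1) := by
    have := intervalIntegral.integral_mono_on (g := fun _ => Real.log T + 1) hV hi (by simp)
      (fun y hy => by
        have e1 : Real.log y ≤ Real.log (2 * T) :=
          Real.log_le_log (by linarith [hy.1]) (hy.2.trans h4)
        rw [Real.log_mul (by norm_num) (by linarith)] at e1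
        linarith [Real.log_two_lt_d9])
    rw [intervalIntegral.integral_const, smul_eq_mul] at this
    linarith
  rw [abs_le]
  constructor
  · nlinarith
  · nlinarith

theorem nn_core {F : ℂ → ℂ} (hF : GoodL F) :
    ∃ C : ℝ, 0 < C ∧ ∀ T : ℝ, 10 ≤ T → ∃ V1 V2 : ℝ, T ≤ V1 ∧ V1 ≤ T + 1 ∧ 2 * T - 1 ≤ V2 ∧
      V2 ≤ 2 * T ∧ |2 * Real.pi * (NN F V1 V2 : ℝ) - T * Real.log T| ≤ C * T := by
  obtain ⟨C, hC, hgood⟩ := good_height hF
  obtain ⟨K, hK, hright⟩ := right_bound hF (3 / 2) (by norm_num)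
  obtain ⟨CL, hleft⟩ := hF.left
  refine ⟨32 * C + 2 * K + |CL| + 3, by positivity, fun T hT => ?_⟩
  obtain ⟨V1, ⟨hV1, hV1'⟩, hg1⟩ := hgood T (by linarith)
  obtain ⟨V2, ⟨hV2, hV2'⟩, hg2⟩ := hgood (2 * T - 1) (by linarith)
  have hV2' : V2 ≤ 2 * T := by linarith
  refine ⟨V1, V2, hV1, hV1', hV2, hV2', ?_⟩
  have hV : V1 < V2 := by linarith
  have him : ∀ s ∈ Set.Icc (-1 / 2 : ℝ) (3 / 2) ×ℂ Set.Icc V1 V2, 1 ≤ s.im := fun s hs => by
    have : V1 ≤ s.im := hs.2.1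
    linarith
  have hbd : ∀ s ∈ Set.Icc (-1 / 2 : ℝ) (3 / 2) ×ℂ Set.Icc V1 V2, F s = 0 →
      s ∈ Set.Ioo (-1 / 2 : ℝ) (3 / 2) ×ℂ Set.Ioo V1 V2 := by
    intro s hs h0
    have hs1 : (-1 / 2 : ℝ) ≤ s.re := hs.1.1
    have hs2 : s.re ≤ 3 / 2 := hs.1.2
    have hs3 : V1 ≤ s.im := hs.2.1
    have hs4 : s.im ≤ V2 := hs.2.2
    have i1 := him s hs
    have r1 : 0 < s.re := by
      by_contra h; push Not at h
      exact hF.nzl s h i1 h0
    have r2 : s.re < 1 := by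
      by_contra h; push Not at h
      exact hF.nzr s h i1 h0
    refine ⟨⟨by linarith, by linarith⟩, ⟨lt_of_le_of_ne hs3 ?_, lt_of_le_of_ne hs4 ?_⟩⟩
    · intro he
      apply (hg1 s.re ⟨hs1, hs2⟩).1
      rw [he]; exact h0
    · intro he
      apply (hg2 s.re ⟨hs1, hs2⟩).1
      rw [← he]; exact h0
  obtain ⟨-, hres⟩ := rect_residue F (fun _ => 1) (-1 / 2) (3 / 2) V1 V2 (by norm_num) hV
    (fun s hs => hF.an s (by linarith [him s hs])) (by fun_prop) hbd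
  have hset : {s : ℂ | s ∈ Set.Ioo (-1 / 2 : ℝ) (3 / 2) ×ℂ Set.Ioo V1 V2 ∧ F s = 0} =
      zset F V1 V2 := by
    ext s
    constructor
    · rintro ⟨hs, h0⟩
      have hs3 : V1 < s.im := hs.2.1
      have hs4 : s.im < V2 := hs.2.2
      have i1 : 1 ≤ s.im := by linarith
      refine ⟨?_, ?_, hs3, hs4.le, h0⟩
      · by_contra h; push Not at h
        exact hF.nzl s h i1 h0
      · by_contra h; push Not at h
        exact hF.nzr s h i1 h0
    · rintro ⟨h1, h2, h3, h4, h0⟩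
      exact ⟨hbd s ⟨⟨by linarith, by linarith⟩, ⟨h3.le, h4⟩⟩ h0, h0⟩
  have hN : ∑ᶠ s ∈ zset F V1 V2, (mult F s : ℂ) * 1 = (NN F V1 V2 : ℂ) := by
    rw [finsum_mem_eq_finite_toFinset_sum _ (zset_finite hF V1 V2 (by linarith)),
      NN_eq_sum hF V1 V2 (by linarith)]
    push_cast
    simp
  rw [hset, hN] at hres
  simp only [mul_one] at hres
  -- bounds on the sides
  have hlog2 : ∀ x : ℝ, 1 ≤ x → x ≤ 2 * T → C * (Real.log x) ^ 2 ≤ 8 * C * T := by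
    intro x hx hx2
    have := log_sq_le hx
    nlinarith
  have b1 : ‖∫ x in (-1 / 2 : ℝ)..(3 / 2), deriv F (⟨x, V1⟩ : ℂ) / F ⟨x, V1⟩‖ ≤
      8 * C * T * |(3 / 2 : ℝ) - (-1 / 2)| := by
    refine intervalIntegral.norm_integral_le_of_norm_le_const fun x hx => ?_
    rw [Set.uIoc_of_le (by norm_num)] at hx
    exact ((hg1 x ⟨hx.1.le, hx.2⟩).2).trans (hlog2 T (by linarith) (by linarith))
  have b2 : ‖∫ x in (-1 / 2 : ℝ)..(3 / 2), deriv F (⟨x, V2⟩ : ℂ) / F ⟨x, V2⟩‖ ≤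
      8 * C * T * |(3 / 2 : ℝ) - (-1 / 2)| := by
    refine intervalIntegral.norm_integral_le_of_norm_le_const fun x hx => ?_
    rw [Set.uIoc_of_le (by norm_num)] at hx
    exact ((hg2 x ⟨hx.1.le, hx.2⟩).2).trans (hlog2 (2 * T - 1) (by linarith) (by linarith))
  have b3 : ‖∫ y in V1..V2, deriv F (⟨3 / 2, y⟩ : ℂ) / F ⟨3 / 2, y⟩‖ ≤ K * |V2 - V1| := by
    refine intervalIntegral.norm_integral_le_of_norm_le_const fun y hy => ?_
    rw [Set.uIoc_of_le hV.le] at hy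
    exact hright _ (by simp) (by simp only; linarith [hy.1])
  have b4 : ‖∫ y in V1..V2, (deriv F (⟨-1 / 2, y⟩ : ℂ) / F ⟨-1 / 2, y⟩ + (Real.log y : ℂ))‖ ≤
      (|CL| + K) * |V2 - V1| := by
    refine intervalIntegral.norm_integral_le_of_norm_le_const fun y hy => ?_
    rw [Set.uIoc_of_le hV.le] at hy
    have hy1 : 1 ≤ y := by linarith [hy.1]
    have h1 := hleft ⟨-1 / 2, y⟩ le_rfl (by norm_num) hy1
      (hF.nzl _ (by norm_num) hy1)
    have hrf : (1 : ℂ) - (starRingEnd ℂ) (⟨-1 / 2, y⟩ : ℂ) = ⟨3 / 2, y⟩ := by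
      apply Complex.ext <;> simp
      norm_num
    rw [hrf] at h1
    simp only at h1
    have h2 := hright ⟨3 / 2, y⟩ (by simp) hy1
    calc _ = ‖(deriv F (⟨-1 / 2, y⟩ : ℂ) / F ⟨-1 / 2, y⟩ + (Real.log y : ℂ) +
        (starRingEnd ℂ) (deriv F (⟨3 / 2, y⟩ : ℂ) / F ⟨3 / 2, y⟩)) -
        (starRingEnd ℂ) (deriv F (⟨3 / 2, y⟩ : ℂ) / F ⟨3 / 2, y⟩)‖ := by congr 1; ring
      _ ≤ _ := (norm_sub_le _ _).trans (by
          rw [RCLike.norm_conj]
          exact add_le_add (h1.trans (le_abs_self CL)) h2)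
  have hcont : IntervalIntegrable (fun y : ℝ => deriv F (⟨-1 / 2, y⟩ : ℂ) / F ⟨-1 / 2, y⟩)
      volume V1 V2 := by
    apply ContinuousOn.intervalIntegrable
    rw [Set.uIcc_of_le hV.le]
    have hmk : Continuous fun y : ℝ => (⟨-1 / 2, y⟩ : ℂ) := by
      have : (fun y : ℝ => (⟨-1 / 2, y⟩ : ℂ)) = fun y : ℝ => ((-1 / 2 : ℝ) : ℂ) + y * I := by
        funext y
        apply Complex.ext <;> simp
      rw [this]; fun_prop
    intro y hy
    have hy1 : 1 ≤ y := by linarith [hy.1]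
    have ha : AnalyticAt ℂ F (⟨-1 / 2, y⟩ : ℂ) := hF.an _ (by simp only; linarith)
    have h1 : ContinuousAt (fun s : ℂ => deriv F s / F s) (⟨-1 / 2, y⟩ : ℂ) :=
      (ha.deriv.div ha (hF.nzl _ (by norm_num) hy1)).continuousAt
    exact (ContinuousAt.comp (f := fun y : ℝ => (⟨-1 / 2, y⟩ : ℂ)) h1
      hmk.continuousAt).continuousWithinAt
  have hlogi : IntervalIntegrable (fun y : ℝ => (Real.log y : ℂ)) volume V1 V2 := by
    apply ContinuousOn.intervalIntegrable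
    rw [Set.uIcc_of_le hV.le]
    exact Complex.continuous_ofReal.comp_continuousOn
      (Real.continuousOn_log.mono fun y hy => by
        have : 0 < y := by linarith [hy.1]
        exact this.ne')
  have hsplit : ∫ y in V1..V2, deriv F (⟨-1 / 2, y⟩ : ℂ) / F ⟨-1 / 2, y⟩ =
      (∫ y in V1..V2, (deriv F (⟨-1 / 2, y⟩ : ℂ) / F ⟨-1 / 2, y⟩ + (Real.log y : ℂ))) -
      ((∫ y in V1..V2, Real.log y : ℝ) : ℂ) := by
    rw [intervalIntegral.integral_add hcont hlogi, intervalIntegral.integral_ofReal]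
    ring
  rw [hsplit] at hres
  set A1 := ∫ x in (-1 / 2 : ℝ)..(3 / 2), deriv F (⟨x, V1⟩ : ℂ) / F ⟨x, V1⟩
  set A2 := ∫ x in (-1 / 2 : ℝ)..(3 / 2), deriv F (⟨x, V2⟩ : ℂ) / F ⟨x, V2⟩
  set B := ∫ y in V1..V2, deriv F (⟨3 / 2, y⟩ : ℂ) / F ⟨3 / 2, y⟩
  set E := ∫ y in V1..V2, (deriv F (⟨-1 / 2, y⟩ : ℂ) / F ⟨-1 / 2, y⟩ + (Real.log y : ℂ))
  set L := ∫ y in V1..V2, Real.log y with hL
  have hkey : ((2 * Real.pi * (NN F V1 V2 : ℝ) - L : ℝ) : ℂ) * I = A1 - A2 + I * B - I * E := by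
    push_cast
    linear_combination -hres
  have hnorm : |2 * Real.pi * (NN F V1 V2 : ℝ) - L| ≤ ‖A1‖ + ‖A2‖ + ‖B‖ + ‖E‖ := by
    have h1 : |2 * Real.pi * (NN F V1 V2 : ℝ) - L| =
        ‖((2 * Real.pi * (NN F V1 V2 : ℝ) - L : ℝ) : ℂ) * I‖ := by
      rw [norm_mul, Complex.norm_I, mul_one, Complex.norm_real, Real.norm_eq_abs]
    rw [h1, hkey]
    calc ‖A1 - A2 + I * B - I * E‖ ≤ ‖A1 - A2 + I * B‖ + ‖I * E‖ := norm_sub_le _ _
      _ ≤ (‖A1 - A2‖ + ‖I * B‖) + ‖I * E‖ := by gcongr; exact norm_add_le _ _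
      _ ≤ ((‖A1‖ + ‖A2‖) + ‖I * B‖) + ‖I * E‖ := by gcongr; exact norm_sub_le _ _
      _ = _ := by rw [norm_mul, norm_mul, Complex.norm_I]; ring
  have hLT := log_integral hT hV1 hV1' hV2 hV2'
  rw [← hL] at hLT
  have hVV : |V2 - V1| ≤ T := by rw [abs_of_pos (by linarith)]; linarith
  have h2 : |(3 / 2 : ℝ) - (-1 / 2)| = 2 := by norm_num
  rw [h2] at b1 b2
  have b3' : ‖B‖ ≤ K * T := b3.trans (mul_le_mul_of_nonneg_left hVV hK)
  have b4' : ‖E‖ ≤ (|CL| + K) * T := b4.trans (mul_le_mul_of_nonneg_left hVV (by positivity))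
  have : |2 * Real.pi * (NN F V1 V2 : ℝ) - T * Real.log T| ≤
      |2 * Real.pi * (NN F V1 V2 : ℝ) - L| + |L - T * Real.log T| := abs_sub_le _ _ _
  nlinarith

theorem nn_asymp {F : ℂ → ℂ} (hF : GoodL F) :
    ∃ C T0 : ℝ, 0 < C ∧ 10 ≤ T0 ∧ ∀ T : ℝ, T0 ≤ T → ∀ U1 U2 : ℝ, T ≤ U1 → U1 ≤ T + 1 →
      2 * T - 1 ≤ U2 → U2 ≤ 2 * T →
      |(NN F U1 U2 : ℝ) - T * Real.log T / (2 * Real.pi)| ≤ C * T := by
  obtain ⟨C, hC, hcore⟩ := nn_core hF
  obtain ⟨C0, hC0, hz⟩ := zcount hF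
  refine ⟨C + 3 * C0, 10, by positivity, le_rfl, fun T hT U1 U2 hU1 hU1' hU2 hU2' => ?_⟩
  obtain ⟨V1, V2, hV1, hV1', hV2, hV2', hc⟩ := hcore T hT
  have hpi : 1 ≤ 2 * Real.pi := by linarith [Real.pi_gt_three]
  -- both compared to NN T (2T)
  have e0 : NN F T (2 * T) = NN F T (T + 1) + NN F (T + 1) (2 * T) :=
    NN_add hF (by linarith) (by linarith) (by linarith)
  have e1 : NN F (T + 1) (2 * T) = NN F (T + 1) (2 * T - 1) + NN F (2 * T - 1) (2 * T) :=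
    NN_add hF (by linarith) (by linarith) (by linarith)
  have z1 : (NN F T (T + 1) : ℝ) ≤ C0 * T := by
    have h1 : NN F T (T + 1) ≤ NN F (T - 1) (T + 1) := NN_mono hF (by linarith) (by linarith) le_rfl
    have h2 := hz T (by linarith)
    have h3 : (NN F T (T + 1) : ℝ) ≤ NN F (T - 1) (T + 1) := by exact_mod_cast h1
    have h4 := Real.log_le_sub_one_of_pos (show 0 < T by linarith)
    nlinarith
  have z2 : (NN F (2 * T - 1) (2 * T) : ℝ) ≤ 2 * C0 * T := by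
    have h1 : NN F (2 * T - 1) (2 * T) ≤ NN F (2 * T - 1 - 1) (2 * T - 1 + 1) :=
      NN_mono hF (by linarith) (by linarith) (by linarith)
    have h2 := hz (2 * T - 1) (by linarith)
    have h3 : (NN F (2 * T - 1) (2 * T) : ℝ) ≤ NN F (2 * T - 1 - 1) (2 * T - 1 + 1) := by
      exact_mod_cast h1
    have h4 := Real.log_le_sub_one_of_pos (show 0 < 2 * T - 1 by linarith)
    nlinarith
  have hsand : ∀ W1 W2 : ℝ, T ≤ W1 → W1 ≤ T + 1 → 2 * T - 1 ≤ W2 → W2 ≤ 2 * T →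
      (NN F (T + 1) (2 * T - 1) : ℝ) ≤ NN F W1 W2 ∧
      (NN F W1 W2 : ℝ) ≤ NN F (T + 1) (2 * T - 1) + 3 * C0 * T := by
    intro W1 W2 h1 h2 h3 h4
    have m1 : NN F (T + 1) (2 * T - 1) ≤ NN F W1 W2 := NN_mono hF (by linarith) h2 h3
    have m2 : NN F W1 W2 ≤ NN F T (2 * T) := NN_mono hF (by linarith) h1 h4
    rw [e0, e1] at m2
    have m1' : (NN F (T + 1) (2 * T - 1) : ℝ) ≤ NN F W1 W2 := by exact_mod_cast m1
    have m2' : (NN F W1 W2 : ℝ) ≤ NN F T (T + 1) + (NN F (T + 1) (2 * T - 1) +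
      NN F (2 * T - 1) (2 * T)) := by exact_mod_cast m2
    exact ⟨m1', by linarith⟩
  obtain ⟨u1, u2⟩ := hsand U1 U2 hU1 hU1' hU2 hU2'
  obtain ⟨v1, v2⟩ := hsand V1 V2 hV1 hV1' hV2 hV2'
  have hdiff : |(NN F U1 U2 : ℝ) - NN F V1 V2| ≤ 3 * C0 * T := by
    rw [abs_le]; constructor <;> linarith
  have hc2 : |(NN F V1 V2 : ℝ) - T * Real.log T / (2 * Real.pi)| ≤ C * T := by
    have h1 : (NN F V1 V2 : ℝ) - T * Real.log T / (2 * Real.pi) =
        (2 * Real.pi * (NN F V1 V2 : ℝ) - T * Real.log T) / (2 * Real.pi) := by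
      field_simp
    rw [h1, abs_div, abs_of_pos (show 0 < 2 * Real.pi by positivity)]
    exact (div_le_self (abs_nonneg _) hpi).trans hc
  have := abs_sub_le (NN F U1 U2 : ℝ) (NN F V1 V2) (T * Real.log T / (2 * Real.pi))
  linarith


lemma zset_mono (F : ℂ → ℂ) {a b a' b' : ℝ} (ha : a' ≤ a) (hb : b ≤ b') :
    zset F a b ⊆ zset F a' b' := fun _ hs =>
  ⟨hs.1, hs.2.1, ha.trans_lt hs.2.2.1, hs.2.2.2.1.trans hb, hs.2.2.2.2⟩

theorem Nd_mono {F : ℂ → ℂ} (hF : GoodL F) {a b a' b' : ℝ} (h : 1 ≤ a') (ha : a' ≤ a)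
    (hb : b ≤ b') : Nd F a b ≤ Nd F a' b' :=
  Set.ncard_le_ncard (zset_mono F ha hb) (zset_finite hF a' b' h)

theorem Ns_mono {F : ℂ → ℂ} (hF : GoodL F) {a b a' b' : ℝ} (h : 1 ≤ a') (ha : a' ≤ a)
    (hb : b ≤ b') : Ns F a b ≤ Ns F a' b' := by
  refine Set.ncard_le_ncard (fun s hs => ⟨zset_mono F ha hb hs.1, hs.2⟩) ?_
  exact (zset_finite hF a' b' h).subset fun s hs => hs.1

/-- passing from `(U1, U2]` to `(T, 2T]` -/
theorem NN_ends {F : ℂ → ℂ} (hF : GoodL F) :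
    ∃ C : ℝ, 0 < C ∧ ∀ T : ℝ, 10 ≤ T → ∀ U1 U2 : ℝ, T ≤ U1 → U1 ≤ T + 1 →
      2 * T - 1 ≤ U2 → U2 ≤ 2 * T →
      (NN F T (2 * T) : ℝ) ≤ NN F U1 U2 + C * Real.log T := by
  obtain ⟨C0, hC0, hz⟩ := zcount hF
  refine ⟨3 * C0, by positivity, fun T hT U1 U2 hU1 hU1' hU2 hU2' => ?_⟩
  have e0 : NN F T (2 * T) = NN F T U1 + NN F U1 (2 * T) :=
    NN_add hF (by linarith) (by linarith) (by linarith)
  have e1 : NN F U1 (2 * T) = NN F U1 U2 + NN F U2 (2 * T) :=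
    NN_add hF (by linarith) (by linarith) (by linarith)
  have hlT : 0 ≤ Real.log T := Real.log_nonneg (by linarith)
  have z1 : (NN F T U1 : ℝ) ≤ C0 * Real.log T := by
    have h1 : NN F T U1 ≤ NN F (T - 1) (T + 1) := NN_mono hF (by linarith) (by linarith) hU1'
    have h3 : (NN F T U1 : ℝ) ≤ NN F (T - 1) (T + 1) := by exact_mod_cast h1
    exact h3.trans (hz T (by linarith))
  have z2 : (NN F U2 (2 * T) : ℝ) ≤ 2 * C0 * Real.log T := by
    have h1 : NN F U2 (2 * T) ≤ NN F (2 * T - 1 - 1) (2 * T - 1 + 1) :=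
      NN_mono hF (by linarith) (by linarith) (by linarith)
    have h2 := hz (2 * T - 1) (by linarith)
    have h3 : (NN F U2 (2 * T) : ℝ) ≤ NN F (2 * T - 1 - 1) (2 * T - 1 + 1) := by
      exact_mod_cast h1
    have h4 : Real.log (2 * T - 1) ≤ 2 * Real.log T := by
      have : Real.log (2 * T - 1) ≤ Real.log (T ^ 2) :=
        Real.log_le_log (by linarith) (by nlinarith)
      rw [Real.log_pow] at this
      exact_mod_cast this
    have h5 := mul_le_mul_of_nonneg_left h4 hC0.le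
    linarith
  have e2 : (NN F T (2 * T) : ℝ) = NN F T U1 + (NN F U1 U2 + NN F U2 (2 * T)) := by
    exact_mod_cast e0.trans (by rw [e1])
  rw [e2]
  linarith

end H370
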