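import Mathlib

open Complex Filter Topology Set MeasureTheory ArithmeticFunction

namespace H370

/-- zeros of `F` in the open critical strip `0 < Re s < 1` with ordinate in `(T1, T2]` -/
def zset (F : ℂ → ℂ) (T1 T2 : ℝ) : Set ℂ :=
  {s : ℂ | 0 < s.re ∧ s.re < 1 ∧ T1 < s.im ∧ s.im ≤ T2 ∧ F s = 0}

/-- multiplicity (order of vanishing) of `F` at `s`, as a natural number -/
noncomputable def mult (F : ℂ → ℂ) (s : ℂ) : ℕ := analyticOrderNatAt F s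

/-- number of zeros counted with multiplicity -/
noncomputable def NN (F : ℂ → ℂ) (T1 T2 : ℝ) : ℕ := ∑ᶠ s ∈ zset F T1 T2, mult F s

/-- number of distinct zeros -/
noncomputable def Nd (F : ℂ → ℂ) (T1 T2 : ℝ) : ℕ := (zset F T1 T2).ncard

/-- number of simple zeros on the critical line -/
noncomputable def Ns (F : ℂ → ℂ) (T1 T2 : ℝ) : ℕ :=
  {s : ℂ | s ∈ zset F T1 T2 ∧ s.re = 1 / 2 ∧ mult F s = 1}.ncard

/-- inverse of the Montgomery-Taylor constant -/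
noncomputable def cMTinv : ℝ := 1 / 2 + Real.cot (1 / Real.sqrt 2) / Real.sqrt 2

/-- the analytic input about an L-function of degree one (only in the upper half plane) -/
structure GoodL (F : ℂ → ℂ) : Prop where
  an : ∀ s : ℂ, 0 < s.im → AnalyticAt ℂ F s
  growth : ∃ C A : ℝ, 0 < C ∧ 0 < A ∧ ∀ s : ℂ, (1 / 16 : ℝ) ≤ s.re → s.re ≤ 4 → 1 ≤ s.im →
    ‖F s‖ ≤ C * s.im ^ A
  lower : ∃ c : ℝ, 0 < c ∧ ∀ t : ℝ, 1 ≤ t → c ≤ ‖F (⟨2, t⟩ : ℂ)‖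
  nzr : ∀ s : ℂ, 1 ≤ s.re → 1 ≤ s.im → F s ≠ 0
  nzl : ∀ s : ℂ, s.re ≤ 0 → 1 ≤ s.im → F s ≠ 0
  symm : ∀ s : ℂ, 0 < s.re → s.re < 1 → 1 ≤ s.im →
    analyticOrderAt F (1 - (starRingEnd ℂ) s) = analyticOrderAt F s
  ld : ∃ a : ℕ → ℂ, (∀ n, ‖a n‖ ≤ ArithmeticFunction.vonMangoldt n) ∧
    ∀ s : ℂ, 1 < s.re → 1 ≤ s.im → deriv F s / F s = - ∑' n : ℕ, a n * (n : ℂ) ^ (-s)
  left : ∃ C : ℝ, ∀ s : ℂ, -1 / 2 ≤ s.re → s.re ≤ 1 / 2 → 1 ≤ s.im → F s ≠ 0 →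
    ‖deriv F s / F s + Real.log s.im +
      (starRingEnd ℂ) (deriv F (1 - (starRingEnd ℂ) s) / F (1 - (starRingEnd ℂ) s))‖ ≤ C

end H370
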