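import Mathlib
import Pool.Agent.H19.EW.NDefs
import Pool.Agent.H19.EW.NDigamma
import Pool.Agent.H19.EW.ZUA1

open Complex Filter Topology Set MeasureTheory

namespace H370.DL

/-- reflection of a function in the critical line -/
noncomputable def refl (f : ℂ → ℂ) (s : ℂ) : ℂ := (starRingEnd ℂ) (f (1 - (starRingEnd ℂ) s))

lemma hasDerivAt_refl {f : ℂ → ℂ} {f' s : ℂ} (h : HasDerivAt f f' (1 - (starRingEnd ℂ) s)) :
    HasDerivAt (refl f) (-(starRingEnd ℂ) f') s := by
  have h1 : HasDerivAt (fun z => f (1 - z)) (-f') ((starRingEnd ℂ) s) := by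
    have := HasDerivAt.comp ((starRingEnd ℂ) s) h ((hasDerivAt_id ((starRingEnd ℂ) s)).const_sub 1)
    simpa [Function.comp_def] using this
  have h2 := h1.conj_conj
  rw [Complex.conj_conj, map_neg] at h2
  exact h2

lemma one_sub_conj_invol (s : ℂ) :
    1 - (starRingEnd ℂ) (1 - (starRingEnd ℂ) s) = s := by
  simp

lemma continuous_osc : Continuous (fun s : ℂ => 1 - (starRingEnd ℂ) s) := by fun_prop

lemma analyticAt_refl {f : ℂ → ℂ} {s : ℂ} (h : AnalyticAt ℂ f (1 - (starRingEnd ℂ) s)) :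
    AnalyticAt ℂ (refl f) s := by
  rw [analyticAt_iff_eventually_differentiableAt] at h ⊢
  have h2 := (continuous_osc.tendsto s).eventually h
  filter_upwards [h2] with z hz
  exact (hasDerivAt_refl hz.hasDerivAt).differentiableAt

lemma order_refl {f : ℂ → ℂ} {s : ℂ} (h : AnalyticAt ℂ f (1 - (starRingEnd ℂ) s)) :
    analyticOrderAt (refl f) s = analyticOrderAt f (1 - (starRingEnd ℂ) s) := by
  rcases eq_or_ne (analyticOrderAt f (1 - (starRingEnd ℂ) s)) ⊤ with h0 | h0
  · rw [h0, analyticOrderAt_eq_top]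
    rw [analyticOrderAt_eq_top] at h0
    have h2 := (continuous_osc.tendsto s).eventually h0
    filter_upwards [h2] with z hz
    simp [refl, hz]
  · obtain ⟨n, hn⟩ := ENat.ne_top_iff_exists.mp h0
    rw [← hn]
    obtain ⟨g, hg, hg0, hfg⟩ := (h.analyticOrderAt_eq_natCast).mp hn.symm
    rw [(analyticAt_refl h).analyticOrderAt_eq_natCast]
    refine ⟨fun z => (-1) ^ n * refl g z, analyticAt_const.mul (analyticAt_refl hg), ?_, ?_⟩
    · simp [refl, hg0]
    · have h2 := (continuous_osc.tendsto s).eventually hfg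
      filter_upwards [h2] with z hz
      simp only [refl, hz, smul_eq_mul, map_mul, map_pow, map_sub, map_one, Complex.conj_conj]
      rw [← mul_assoc, ← mul_pow]
      congr 2
      ring

/-! ### the L-function -/

variable {q : ℕ} [NeZero q] (χ : DirichletCharacter ℂ q)

lemma LFunction_conj (s : ℂ) (hs : s ≠ 1) :
    DirichletCharacter.LFunction χ⁻¹ ((starRingEnd ℂ) s) =
      (starRingEnd ℂ) (DirichletCharacter.LFunction χ s) := by
  have hg_an : AnalyticOnNhd ℂ (fun z ↦ (starRingEnd ℂ)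
      (DirichletCharacter.LFunction χ⁻¹ ((starRingEnd ℂ) z))) {1}ᶜ :=
    DifferentiableOn.analyticOnNhd
      (fun z hz ↦ (differentiableAt_conj_conj_iff.mpr <|
        DirichletCharacter.differentiableAt_LFunction _ _ (Or.inl <|
        (map_ne_one_iff _ (starRingEnd ℂ).injective).mpr hz)).differentiableWithinAt)
      isOpen_compl_singleton
  have hf_an : AnalyticOnNhd ℂ (DirichletCharacter.LFunction χ) {1}ᶜ :=
    DifferentiableOn.analyticOnNhd
      (fun z hz ↦ (DirichletCharacter.differentiableAt_LFunction _ _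
        (Or.inl hz)).differentiableWithinAt) isOpen_compl_singleton
  have hgz (z : ℂ) (hz : 1 < z.re) : (starRingEnd ℂ)
      (DirichletCharacter.LFunction χ⁻¹ ((starRingEnd ℂ) z)) = DirichletCharacter.LFunction χ z := by
    rw [DirichletCharacter.LFunction_eq_LSeries _ (by rwa [conj_re]),
      DirichletCharacter.LFunction_eq_LSeries _ hz, LSeries, LSeries, conj_tsum]
    refine tsum_congr fun n ↦ ?_
    rcases eq_or_ne n 0 with rfl | hn
    · simp
    · rw [LSeries.term_of_ne_zero hn, LSeries.term_of_ne_zero hn, map_div₀,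
        ← conj_cpow _ _ (by rw [natCast_arg]; positivity), conj_natCast,
        ← MulChar.star_apply']
      simp
  have heq : EqOn (fun z ↦ (starRingEnd ℂ)
      (DirichletCharacter.LFunction χ⁻¹ ((starRingEnd ℂ) z))) (DirichletCharacter.LFunction χ) {1}ᶜ :=
    hg_an.eqOn_of_preconnected_of_eventuallyEq hf_an
      (isConnected_compl_singleton_of_one_lt_rank (by simp) 1).isPreconnected
      (by norm_num : (2 : ℂ) ∈ _)
      (eventuallyEq_of_mem
        ((isOpen_lt continuous_const continuous_re).mem_nhds (by norm_num)) hgz)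
  simpa using congrArg (starRingEnd ℂ) (heq hs)

variable {χ}

/-- analytic at every point other than `1` -/
lemma analyticAt_L {s : ℂ} (hs : s ≠ 1) : AnalyticAt ℂ (DirichletCharacter.LFunction χ) s := by
  have hf_an : AnalyticOnNhd ℂ (DirichletCharacter.LFunction χ) {1}ᶜ :=
    DifferentiableOn.analyticOnNhd
      (fun z hz ↦ (DirichletCharacter.differentiableAt_LFunction _ _
        (Or.inl hz)).differentiableWithinAt) isOpen_compl_singleton
  exact hf_an s hs

lemma ne_one_of_im {s : ℂ} (hs : s.im ≠ 0) : s ≠ 1 := by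
  intro h
  rw [h] at hs
  simp at hs

lemma ne_zero_of_im {s : ℂ} (hs : s.im ≠ 0) : s ≠ 0 := by
  intro h
  rw [h] at hs
  simp at hs

/-- parity of the inverse character -/
lemma inv_even_iff : (χ⁻¹).Even ↔ χ.Even := by
  unfold DirichletCharacter.Even
  rw [MulChar.inv_apply_eq_inv', inv_eq_one]

lemma gammaFactor_inv (s : ℂ) :
    DirichletCharacter.gammaFactor χ⁻¹ s = DirichletCharacter.gammaFactor χ s := by
  by_cases h : χ.Even
  · rw [DirichletCharacter.Even.gammaFactor_def h, DirichletCharacter.Even.gammaFactor_def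
      (inv_even_iff.mpr h)]
  · have h' : ¬ (χ⁻¹).Even := fun h2 => h (inv_even_iff.mp h2)
    simp [DirichletCharacter.gammaFactor, h, h']

/-- the shift -/
noncomputable def aa (χ : DirichletCharacter ℂ q) : ℂ := by
  classical
  exact if χ.Even then 0 else 1

lemma gammaFactor_eq (s : ℂ) :
    DirichletCharacter.gammaFactor χ s = Gammaℝ (s + aa χ) := by
  unfold DirichletCharacter.gammaFactor aa
  split_ifs <;> simp

lemma aa_im : (aa χ).im = 0 := by
  unfold aa
  split_ifs <;> simp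

lemma Gammaℝ_ne_zero_of_im {s : ℂ} (hs : s.im ≠ 0) : Gammaℝ s ≠ 0 := by
  intro h
  rw [Gammaℝ_eq_zero_iff] at h
  obtain ⟨n, hn⟩ := h
  apply hs
  rw [hn]
  simp

lemma gammaFactor_ne_zero {s : ℂ} (hs : s.im ≠ 0) :
    DirichletCharacter.gammaFactor χ s ≠ 0 := by
  rw [gammaFactor_eq]
  apply Gammaℝ_ne_zero_of_im
  simpa [aa_im] using hs

/-- the factor of the asymmetric functional equation -/
noncomputable def XX (χ : DirichletCharacter ℂ q) (s : ℂ) : ℂ :=
  (q : ℂ) ^ (1 / 2 - s) * DirichletCharacter.rootNumber χ * Gammaℝ (1 - s + aa χ) /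
    Gammaℝ (s + aa χ)

/-- asymmetric functional equation off the real axis -/
lemma func_eq (hχ : χ.IsPrimitive) {s : ℂ} (hs : s.im ≠ 0) :
    DirichletCharacter.LFunction χ s =
      XX χ s * refl (DirichletCharacter.LFunction χ) s := by
  have hs1 : s ≠ 1 := ne_one_of_im hs
  have hs0 : s ≠ 0 := ne_zero_of_im hs
  have hs' : (1 - s).im ≠ 0 := by simpa using hs
  have h1s0 : (1 - s) ≠ 0 := ne_zero_of_im hs'
  have h1s1 : (1 - s) ≠ 1 := ne_one_of_im hs'
  have h1 : DirichletCharacter.completedLFunction χ s =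
      DirichletCharacter.LFunction χ s * DirichletCharacter.gammaFactor χ s := by
    rw [DirichletCharacter.LFunction_eq_completed_div_gammaFactor χ s (Or.inl hs0),
      div_mul_cancel₀ _ (gammaFactor_ne_zero hs)]
  have h2 : DirichletCharacter.completedLFunction χ⁻¹ (1 - s) =
      DirichletCharacter.LFunction χ⁻¹ (1 - s) * DirichletCharacter.gammaFactor χ (1 - s) := by
    rw [DirichletCharacter.LFunction_eq_completed_div_gammaFactor χ⁻¹ (1 - s) (Or.inl h1s0),
      gammaFactor_inv, div_mul_cancel₀ _ (gammaFactor_ne_zero hs')]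
  have h3 := DirichletCharacter.IsPrimitive.completedLFunction_one_sub hχ (1 - s)
  rw [show (1 : ℂ) - (1 - s) = s by ring, h1, h2] at h3
  have h4 : DirichletCharacter.LFunction χ⁻¹ (1 - s) = refl (DirichletCharacter.LFunction χ) s := by
    have h5 : (1 - (starRingEnd ℂ) s) ≠ 1 := by
      intro h
      have := congrArg im h
      simp at this
      exact hs this
    have := LFunction_conj χ _ h5
    rw [refl, ← this]
    congr 1
    simp
  have hg : DirichletCharacter.gammaFactor χ s ≠ 0 := gammaFactor_ne_zero hs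
  rw [h4] at h3
  unfold XX
  rw [← gammaFactor_eq, ← gammaFactor_eq, eq_comm, div_mul_eq_mul_div, div_eq_iff hg, h3]
  rw [show (1 : ℂ) - s - 1 / 2 = 1 / 2 - s by ring]
  ring

lemma rootNumber_ne_zero (hχ : χ.IsPrimitive) : DirichletCharacter.rootNumber χ ≠ 0 := by
  intro h0
  have h2 : ((2 : ℂ) + I).im ≠ 0 := by simp
  have h := func_eq hχ h2
  have hne : DirichletCharacter.LFunction χ (2 + I) ≠ 0 :=
    DirichletCharacter.LFunction_ne_zero_of_one_le_re χ (Or.inr (ne_one_of_im h2)) (by simp)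
  apply hne
  rw [h]
  simp [XX, h0]

lemma natCast_q_ne : ((q : ℕ) : ℂ) ≠ 0 := by
  exact_mod_cast NeZero.ne q

lemma analyticAt_Gammaℝ {s : ℂ} (hs : s.im ≠ 0) : AnalyticAt ℂ Gammaℝ s := by
  have h1 : AnalyticAt ℂ (fun s ↦ (Gammaℝ s)⁻¹) s := by
    rw [analyticAt_iff_eventually_differentiableAt]
    exact Filter.Eventually.of_forall fun z => differentiable_Gammaℝ_inv z
  have h2 := h1.inv (inv_ne_zero (Gammaℝ_ne_zero_of_im hs))
  simpa [Pi.inv_def] using h2

lemma analyticAt_XX {s : ℂ} (hs : s.im ≠ 0) : AnalyticAt ℂ (XX χ) s := by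
  have h1 : AnalyticAt ℂ (fun z : ℂ => Gammaℝ (z + aa χ)) s :=
    AnalyticAt.fun_comp (f := fun z : ℂ => z + aa χ) (g := Gammaℝ)
      (analyticAt_Gammaℝ (by simpa [aa_im] using hs)) (by fun_prop)
  have h2 : AnalyticAt ℂ (fun z : ℂ => Gammaℝ (1 - z + aa χ)) s :=
    AnalyticAt.fun_comp (f := fun z : ℂ => 1 - z + aa χ) (g := Gammaℝ)
      (analyticAt_Gammaℝ (by simpa [aa_im] using hs)) (by fun_prop)
  have h3 : AnalyticAt ℂ (fun z : ℂ => (q : ℂ) ^ (1 / 2 - z)) s := by
    rw [analyticAt_iff_eventually_differentiableAt]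
    refine Filter.Eventually.of_forall fun z => ?_
    exact DifferentiableAt.const_cpow (by fun_prop) (Or.inl natCast_q_ne)
  exact ((h3.mul analyticAt_const).mul h2).div h1
    (Gammaℝ_ne_zero_of_im (by simpa [aa_im] using hs))

lemma XX_ne_zero (hχ : χ.IsPrimitive) {s : ℂ} (hs : s.im ≠ 0) : XX χ s ≠ 0 := by
  unfold XX
  refine div_ne_zero (mul_ne_zero (mul_ne_zero ?_ (rootNumber_ne_zero hχ)) ?_) ?_
  · rw [Ne, cpow_eq_zero_iff]
    exact fun h => natCast_q_ne h.1
  · exact Gammaℝ_ne_zero_of_im (by simpa [aa_im] using hs)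
  · exact Gammaℝ_ne_zero_of_im (by simpa [aa_im] using hs)

lemma im_osc (s : ℂ) : (1 - (starRingEnd ℂ) s).im = s.im := by simp
lemma re_osc (s : ℂ) : (1 - (starRingEnd ℂ) s).re = 1 - s.re := by simp

lemma L_nzr {s : ℂ} (h1 : 1 ≤ s.re) (h2 : s.im ≠ 0) : DirichletCharacter.LFunction χ s ≠ 0 :=
  DirichletCharacter.LFunction_ne_zero_of_one_le_re χ (Or.inr (ne_one_of_im h2)) h1

lemma L_nzl (hχ : χ.IsPrimitive) {s : ℂ} (h1 : s.re ≤ 0) (h2 : s.im ≠ 0) :
    DirichletCharacter.LFunction χ s ≠ 0 := by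
  rw [func_eq hχ h2]
  refine mul_ne_zero (XX_ne_zero hχ h2) ?_
  unfold refl
  rw [map_ne_zero]
  apply L_nzr
  · rw [re_osc]; linarith
  · rwa [im_osc]

lemma eventually_im_ne {s : ℂ} (hs : s.im ≠ 0) : ∀ᶠ z in 𝓝 s, z.im ≠ 0 :=
  (isOpen_ne_fun continuous_im continuous_const).mem_nhds hs

lemma L_symm (hχ : χ.IsPrimitive) {s : ℂ} (hs : s.im ≠ 0) :
    analyticOrderAt (DirichletCharacter.LFunction χ) (1 - (starRingEnd ℂ) s) =
      analyticOrderAt (DirichletCharacter.LFunction χ) s := by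
  have ha : AnalyticAt ℂ (DirichletCharacter.LFunction χ) (1 - (starRingEnd ℂ) s) :=
    analyticAt_L (ne_one_of_im (by rwa [im_osc]))
  have h1 : DirichletCharacter.LFunction χ =ᶠ[𝓝 s]
      XX χ * refl (DirichletCharacter.LFunction χ) := by
    filter_upwards [eventually_im_ne hs] with z hz
    exact func_eq hχ hz
  rw [analyticOrderAt_congr h1, analyticOrderAt_mul (analyticAt_XX hs) (analyticAt_refl ha),
    (analyticAt_XX hs).analyticOrderAt_eq_zero.mpr (XX_ne_zero hχ hs), zero_add, order_refl ha]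

/-! ### logarithmic derivatives -/

lemma digamma_ext : ∃ C : ℝ, 0 ≤ C ∧ ∀ w : ℂ, -1 / 4 ≤ w.re → w.re ≤ 3 → 1 / 2 ≤ |w.im| →
    ‖logDeriv Gamma w - Real.log |w.im|‖ ≤ C := by
  obtain ⟨C, hC⟩ := digamma_bound
  refine ⟨max C 0 + 2, by positivity, ?_⟩
  intro w h1 h2 h3
  have hw : ∀ m : ℕ, w ≠ -m := by
    intro m h
    rw [h] at h3
    simp at h3
    linarith
  have e := digamma_apply_add_one w hw
  rw [digamma_def] at e
  have h4 := hC (w + 1) (by simp; linarith) (by simp; linarith) (by simpa using h3)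
  rw [e] at h4
  have h5 : (w + 1).im = w.im := by simp
  rw [h5] at h4
  have h6 : ‖w⁻¹‖ ≤ 2 := by
    rw [norm_inv, inv_le_comm₀ (by linarith [abs_im_le_norm w]) (by norm_num)]
    linarith [abs_im_le_norm w]
  have h7 : logDeriv Gamma w - Real.log |w.im| =
      (logDeriv Gamma w + w⁻¹ - Real.log |w.im|) - w⁻¹ := by ring
  rw [h7]
  refine (norm_sub_le _ _).trans (add_le_add (h4.trans (le_max_left _ _)) h6)

lemma ne_neg_nat_of_im {w : ℂ} (hw : w.im ≠ 0) (m : ℕ) : w ≠ -m := by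
  intro h
  rw [h] at hw
  simp at hw

lemma logDeriv_Gammaℝ {z : ℂ} (hz : z.im ≠ 0) :
    logDeriv Gammaℝ z = -(Real.log Real.pi : ℂ) / 2 + 1 / 2 * logDeriv Gamma (z / 2) := by
  have hz2 : (z / 2).im ≠ 0 := by
    have : (z / 2).im = z.im / 2 := by simp
    rw [this]
    exact div_ne_zero hz two_ne_zero
  have hpi : (Real.pi : ℂ) ≠ 0 := ofReal_ne_zero.mpr Real.pi_ne_zero
  have d1 : HasDerivAt (fun z : ℂ => (Real.pi : ℂ) ^ (-z / 2))
      ((Real.pi : ℂ) ^ (-z / 2) * log (Real.pi : ℂ) * (-1 / 2)) z := by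
    have h1 : HasDerivAt (fun z : ℂ => -z / 2) (-1 / 2) z := by
      simpa using ((hasDerivAt_id z).neg).div_const 2
    exact h1.const_cpow (Or.inl hpi)
  have d2 : HasDerivAt (fun z : ℂ => Gamma (z / 2)) (deriv Gamma (z / 2) * (1 / 2)) z := by
    have h1 : HasDerivAt (fun z : ℂ => z / 2) (1 / 2) z := by
      simpa using (hasDerivAt_id z).div_const 2
    exact HasDerivAt.comp z (differentiableAt_Gamma _ (ne_neg_nat_of_im hz2)).hasDerivAt h1
  have hG : Gammaℝ = fun z : ℂ => (Real.pi : ℂ) ^ (-z / 2) * Gamma (z / 2) := by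
    funext z
    rw [Gammaℝ_def]
  have d3 := d1.mul d2
  have hΓ : Gamma (z / 2) ≠ 0 := Gamma_ne_zero (ne_neg_nat_of_im hz2)
  have hpc : (Real.pi : ℂ) ^ (-z / 2) ≠ 0 := by
    rw [Ne, cpow_eq_zero_iff]
    exact fun h => hpi h.1
  rw [logDeriv_apply, logDeriv_apply, hG]
  erw [d3.deriv]
  rw [← Complex.ofReal_log Real.pi_pos.le]
  field_simp

lemma logDeriv_Gammaℝ_bound : ∃ C : ℝ, 0 ≤ C ∧ ∀ z : ℂ, -1 / 2 ≤ z.re → z.re ≤ 6 → 1 ≤ |z.im| →
    ‖logDeriv Gammaℝ z - 1 / 2 * Real.log |z.im|‖ ≤ C := by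
  obtain ⟨C, hC0, hC⟩ := digamma_ext
  refine ⟨|Real.log Real.pi| / 2 + |Real.log 2| / 2 + C, by positivity, ?_⟩
  intro z h1 h2 h3
  have hz : z.im ≠ 0 := by
    intro h
    rw [h] at h3
    simp at h3
    linarith
  have hre : (z / 2).re = z.re / 2 := by simp
  have him : (z / 2).im = z.im / 2 := by simp
  have h4 := hC (z / 2) (by rw [hre]; linarith) (by rw [hre]; linarith)
    (by rw [him, abs_div, abs_two]; linarith)
  have h5 : Real.log |(z / 2).im| = Real.log |z.im| - Real.log 2 := by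
    rw [him, abs_div, abs_two, Real.log_div (abs_ne_zero.mpr hz) two_ne_zero]
  rw [h5] at h4
  have h6 : logDeriv Gammaℝ z - 1 / 2 * Real.log |z.im| =
      -((Real.log Real.pi / 2 : ℝ) : ℂ) - ((Real.log 2 / 2 : ℝ) : ℂ) +
      1 / 2 * (logDeriv Gamma (z / 2) - ((Real.log |z.im| - Real.log 2 : ℝ) : ℂ)) := by
    rw [logDeriv_Gammaℝ hz]
    push_cast
    ring
  rw [h6]
  refine (norm_add_le _ _).trans (add_le_add ((norm_sub_le _ _).trans (add_le_add ?_ ?_)) ?_)
  · rw [norm_neg, Complex.norm_real, Real.norm_eq_abs, abs_div, abs_two]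
  · rw [Complex.norm_real, Real.norm_eq_abs, abs_div, abs_two]
  · rw [norm_mul]
    have : ‖(1 / 2 : ℂ)‖ = 1 / 2 := by simp
    rw [this]
    have := norm_nonneg (logDeriv Gamma (z / 2) - ((Real.log |z.im| - Real.log 2 : ℝ) : ℂ))
    linarith

lemma logDeriv_refl {f : ℂ → ℂ} {s : ℂ} (hf : DifferentiableAt ℂ f (1 - (starRingEnd ℂ) s)) :
    logDeriv (refl f) s = -(starRingEnd ℂ) (logDeriv f (1 - (starRingEnd ℂ) s)) := by
  rw [logDeriv_apply, (hasDerivAt_refl hf.hasDerivAt).deriv, logDeriv_apply, refl, map_div₀,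
    neg_div]

lemma logDeriv_XX (hχ : χ.IsPrimitive) {s : ℂ} (hs : s.im ≠ 0) :
    logDeriv (XX χ) s = -(Real.log q : ℂ) - logDeriv Gammaℝ (1 - s + aa χ) -
      logDeriv Gammaℝ (s + aa χ) := by
  have him1 : (s + aa χ).im ≠ 0 := by simpa [aa_im] using hs
  have him2 : (1 - s + aa χ).im ≠ 0 := by simpa [aa_im] using hs
  have hg1 := Gammaℝ_ne_zero_of_im him1
  have hg2 := Gammaℝ_ne_zero_of_im him2
  have hε := rootNumber_ne_zero hχ
  have hqne : (q : ℂ) ^ (1 / 2 - s) ≠ 0 := by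
    rw [Ne, cpow_eq_zero_iff]
    exact fun h => natCast_q_ne h.1
  have d1 : HasDerivAt (fun z : ℂ => (q : ℂ) ^ (1 / 2 - z))
      ((q : ℂ) ^ (1 / 2 - s) * log (q : ℂ) * (-1)) s := by
    have h1 : HasDerivAt (fun z : ℂ => 1 / 2 - z) (-1) s :=
      (hasDerivAt_id s).const_sub (1 / 2)
    exact h1.const_cpow (Or.inl natCast_q_ne)
  have d2 : HasDerivAt (fun z : ℂ => Gammaℝ (1 - z + aa χ))
      (deriv Gammaℝ (1 - s + aa χ) * (-1)) s := by
    have h1 : HasDerivAt (fun z : ℂ => 1 - z + aa χ) (-1) s := by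
      simpa using ((hasDerivAt_id s).const_sub 1).add_const (aa χ)
    exact HasDerivAt.comp s (analyticAt_Gammaℝ him2).differentiableAt.hasDerivAt h1
  have d3 : HasDerivAt (fun z : ℂ => Gammaℝ (z + aa χ)) (deriv Gammaℝ (s + aa χ)) s := by
    have h1 : HasDerivAt (fun z : ℂ => z + aa χ) 1 s := by
      simpa using (hasDerivAt_id s).add_const (aa χ)
    simpa [Function.comp_def] using
      HasDerivAt.comp s (analyticAt_Gammaℝ him1).differentiableAt.hasDerivAt h1
  have d4 := ((d1.mul_const (DirichletCharacter.rootNumber χ)).mul d2).div d3 hg1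
  have e : deriv (XX χ) s = _ := d4.deriv
  rw [logDeriv_apply, e, logDeriv_apply, logDeriv_apply, XX]
  have hlog : log (q : ℂ) = (Real.log q : ℂ) := by
    rw [Complex.ofReal_log (Nat.cast_nonneg q)]
    simp
  simp only [Pi.mul_apply]
  rw [hlog]
  generalize (q : ℂ) ^ (1 / 2 - s) = P at *
  field_simp
  ring

lemma L_left (hχ : χ.IsPrimitive) : ∃ C : ℝ, ∀ s : ℂ, -1 / 2 ≤ s.re → s.re ≤ 1 / 2 → 1 ≤ s.im →
    DirichletCharacter.LFunction χ s ≠ 0 →
    ‖deriv (DirichletCharacter.LFunction χ) s / DirichletCharacter.LFunction χ s +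
      Real.log s.im + (starRingEnd ℂ) (deriv (DirichletCharacter.LFunction χ)
      (1 - (starRingEnd ℂ) s) / DirichletCharacter.LFunction χ (1 - (starRingEnd ℂ) s))‖ ≤ C := by
  obtain ⟨C, hC0, hC⟩ := logDeriv_Gammaℝ_bound
  refine ⟨|Real.log q| + C + C, ?_⟩
  intro s h1 h2 h3 h4
  have hs : s.im ≠ 0 := by linarith
  have ha : AnalyticAt ℂ (DirichletCharacter.LFunction χ) (1 - (starRingEnd ℂ) s) :=
    analyticAt_L (ne_one_of_im (by rwa [im_osc]))
  have e1 : DirichletCharacter.LFunction χ =ᶠ[𝓝 s]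
      fun z => XX χ z * refl (DirichletCharacter.LFunction χ) z := by
    filter_upwards [eventually_im_ne hs] with z hz
    exact func_eq hχ hz
  have hr : refl (DirichletCharacter.LFunction χ) s ≠ 0 := by
    intro h
    apply h4
    rw [func_eq hχ hs, h, mul_zero]
  have e2 : logDeriv (DirichletCharacter.LFunction χ) s =
      logDeriv (XX χ) s + logDeriv (refl (DirichletCharacter.LFunction χ)) s := by
    rw [(logDeriv_congr_nhds e1).eq_of_nhds]
    exact logDeriv_mul s (XX_ne_zero hχ hs) hr (analyticAt_XX hs).differentiableAt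
      (analyticAt_refl ha).differentiableAt
  rw [logDeriv_refl ha.differentiableAt, logDeriv_XX hχ hs] at e2
  change ‖logDeriv (DirichletCharacter.LFunction χ) s + Real.log s.im +
    (starRingEnd ℂ) (logDeriv (DirichletCharacter.LFunction χ) (1 - (starRingEnd ℂ) s))‖ ≤ _
  rw [e2]
  have ha0 : 0 ≤ (aa χ).re ∧ (aa χ).re ≤ 1 := by
    unfold aa
    split_ifs <;> simp
  have b1 := hC (1 - s + aa χ) (by simp; linarith [ha0.1]) (by simp; linarith [ha0.2])
    (by simp [aa_im, abs_of_nonneg (by linarith : 0 ≤ s.im)]; exact h3)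
  have b2 := hC (s + aa χ) (by simp; linarith [ha0.1]) (by simp; linarith [ha0.2])
    (by simp [aa_im, abs_of_nonneg (by linarith : 0 ≤ s.im)]; exact h3)
  have i1 : |(1 - s + aa χ).im| = s.im := by
    simp [aa_im, abs_of_nonneg (by linarith : 0 ≤ s.im)]
  have i2 : |(s + aa χ).im| = s.im := by
    simp [aa_im, abs_of_nonneg (by linarith : 0 ≤ s.im)]
  rw [i1] at b1
  rw [i2] at b2
  have e3 : -(Real.log q : ℂ) - logDeriv Gammaℝ (1 - s + aa χ) - logDeriv Gammaℝ (s + aa χ) +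
      -(starRingEnd ℂ) (logDeriv (DirichletCharacter.LFunction χ) (1 - (starRingEnd ℂ) s)) +
        Real.log s.im +
      (starRingEnd ℂ) (logDeriv (DirichletCharacter.LFunction χ) (1 - (starRingEnd ℂ) s)) =
      -(Real.log q : ℂ) - (logDeriv Gammaℝ (1 - s + aa χ) - 1 / 2 * Real.log s.im) -
      (logDeriv Gammaℝ (s + aa χ) - 1 / 2 * Real.log s.im) := by ring
  rw [e3]
  refine (norm_sub_le _ _).trans (add_le_add ((norm_sub_le _ _).trans (add_le_add ?_ b1)) b2)
  rw [norm_neg, Complex.norm_real, Real.norm_eq_abs]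

/-! ### Dirichlet series -/

lemma term_eq_mul_cpow (f : ℕ → ℂ) (h0 : f 0 = 0) (s : ℂ) (n : ℕ) :
    LSeries.term f s n = f n * (n : ℂ) ^ (-s) := by
  rcases eq_or_ne n 0 with rfl | hn
  · simp [h0]
  · rw [LSeries.term_of_ne_zero hn, cpow_neg, div_eq_mul_inv]

lemma L_ld : ∃ a : ℕ → ℂ, (∀ n, ‖a n‖ ≤ ArithmeticFunction.vonMangoldt n) ∧
    ∀ s : ℂ, 1 < s.re → 1 ≤ s.im →
      deriv (DirichletCharacter.LFunction χ) s / DirichletCharacter.LFunction χ s =
        - ∑' n : ℕ, a n * (n : ℂ) ^ (-s) := by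
  refine ⟨fun n => χ n * (ArithmeticFunction.vonMangoldt n : ℂ), fun n => ?_, fun s hs _ => ?_⟩
  · rw [norm_mul, Complex.norm_real, Real.norm_eq_abs,
      abs_of_nonneg ArithmeticFunction.vonMangoldt_nonneg]
    exact mul_le_of_le_one_left ArithmeticFunction.vonMangoldt_nonneg
      (DirichletCharacter.norm_le_one χ _)
  · have h1 := DirichletCharacter.LSeries_twist_vonMangoldt_eq χ hs
    rw [DirichletCharacter.deriv_LFunction_eq_deriv_LSeries χ hs,
      DirichletCharacter.LFunction_eq_LSeries χ hs]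
    rw [neg_div, eq_neg_iff_add_eq_zero, add_comm, ← eq_neg_iff_add_eq_zero] at h1
    rw [h1]
    congr 1
    unfold LSeries
    refine tsum_congr fun n => ?_
    rw [term_eq_mul_cpow _ (by simp)]
    simp

lemma L_lower : ∃ c : ℝ, 0 < c ∧ ∀ t : ℝ, 1 ≤ t →
    c ≤ ‖DirichletCharacter.LFunction χ (⟨2, t⟩ : ℂ)‖ := by
  have hsum : Summable (fun n : ℕ => 1 / (n : ℝ) ^ 2) :=
    Real.summable_one_div_nat_pow.mpr (by norm_num)
  have hZ : 0 < ∑' n : ℕ, 1 / (n : ℝ) ^ 2 := by
    refine hsum.tsum_pos (fun n => by positivity) 1 (by norm_num)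
  refine ⟨1 / (∑' n : ℕ, 1 / (n : ℝ) ^ 2), by positivity, fun t _ => ?_⟩
  have hre : (1 : ℝ) < (⟨2, t⟩ : ℂ).re := by norm_num
  rw [DirichletCharacter.LFunction_eq_LSeries χ hre]
  have h1 := DirichletCharacter.LSeries.mul_mu_eq_one χ hre
  have h2 : ‖LSeries ((fun n : ℕ => χ n) * fun n : ℕ => (ArithmeticFunction.moebius n : ℂ))
      (⟨2, t⟩ : ℂ)‖ ≤ ∑' n : ℕ, 1 / (n : ℝ) ^ 2 := by
    unfold LSeries
    refine tsum_of_norm_bounded hsum.hasSum fun n => ?_
    rcases eq_or_ne n 0 with rfl | hn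
    · simp
    · rw [LSeries.term_of_ne_zero hn, norm_div, norm_natCast_cpow_of_pos (Nat.pos_of_ne_zero hn)]
      simp only [Pi.mul_apply, norm_mul]
      rw [show ((2 : ℝ) : ℝ) = ((2 : ℕ) : ℝ) by norm_num, Real.rpow_natCast]
      apply div_le_div_of_nonneg_right _ (by positivity)
      have a1 := DirichletCharacter.norm_le_one χ (n : ZMod q)
      have a2 : ‖(ArithmeticFunction.moebius n : ℂ)‖ ≤ 1 := by
        have := ArithmeticFunction.abs_moebius_le_one (n := n)
        rw [Complex.norm_intCast]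
        exact_mod_cast this
      calc _ ≤ (1 : ℝ) * 1 := mul_le_mul a1 a2 (norm_nonneg _) zero_le_one
        _ = 1 := one_mul 1
  have h3 : ‖LSeries (fun n : ℕ => χ n) (⟨2, t⟩ : ℂ)‖ *
      ‖LSeries ((fun n : ℕ => χ n) * fun n : ℕ => (ArithmeticFunction.moebius n : ℂ))
      (⟨2, t⟩ : ℂ)‖ = 1 := by
    rw [← norm_mul, h1, norm_one]
  rw [div_le_iff₀ hZ]
  calc (1 : ℝ) = _ := h3.symm
    _ ≤ _ := mul_le_mul_of_nonneg_left h2 (norm_nonneg _)

/-! ### growth -/

lemma J_diff {A : ℝ → ℂ} {K : ℝ} (hK : 0 ≤ K) (hm : Measurable A) (hA : ∀ u, ‖A u‖ ≤ K) :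
    DifferentiableOn ℂ (fun s : ℂ => ∫ u in Ioi (1 : ℝ), A u * (u : ℂ) ^ (-s - 1))
      {s : ℂ | 0 < s.re} := by
  have hm' : ∀ s : ℂ, mellin (indicator (Ioi (1:ℝ)) A) (-s) =
      ∫ u in Ioi (1 : ℝ), A u * (u : ℂ) ^ (-s - 1) := by
    intro s
    unfold mellin
    have : (fun t : ℝ => (t:ℂ) ^ (-s - 1) • indicator (Ioi (1:ℝ)) A t) =
        indicator (Ioi (1:ℝ)) (fun u : ℝ => A u * (u : ℂ) ^ (-s - 1)) := by
      funext t
      by_cases ht : t ∈ Ioi (1:ℝ)
      · rw [indicator_of_mem ht, indicator_of_mem ht, smul_eq_mul, mul_comm]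
      · rw [indicator_of_notMem ht, indicator_of_notMem ht, smul_zero]
    rw [this, setIntegral_indicator measurableSet_Ioi]
    congr 2
    rw [Ioi_inter_Ioi]
    norm_num
  intro s hs
  have hs' : 0 < s.re := hs
  have hbd : ∀ t : ℝ, ‖indicator (Ioi (1:ℝ)) A t‖ ≤ K := by
    intro t
    by_cases ht : t ∈ Ioi (1:ℝ)
    · rw [indicator_of_mem ht]
      exact hA t
    · rw [indicator_of_notMem ht, norm_zero]
      exact hK
  have hmeas : Measurable (indicator (Ioi (1:ℝ)) A) := hm.indicator measurableSet_Ioi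
  have hd : DifferentiableAt ℂ (mellin (indicator (Ioi (1:ℝ)) A)) (-s) := by
    refine mellin_differentiableAt_of_isBigO_rpow (a := 0) (b := -s.re - 1) ?_ ?_ ?_ ?_ ?_
    · have hc : LocallyIntegrable (fun _ : ℝ => K) volume := locallyIntegrable_const K
      have hl : LocallyIntegrable (indicator (Ioi (1:ℝ)) A) volume := by
        refine hc.mono hmeas.aestronglyMeasurable (Filter.Eventually.of_forall (fun t => ?_))
        rw [Real.norm_eq_abs, abs_of_nonneg hK]
        exact hbd t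
      exact hl.locallyIntegrableOn _
    · refine Asymptotics.IsBigO.of_bound K (Filter.Eventually.of_forall (fun t => ?_))
      rw [neg_zero, Real.rpow_zero, norm_one, mul_one]
      exact hbd t
    · rw [neg_re]
      linarith
    · refine Asymptotics.IsBigO.of_bound 1 ?_
      have : ∀ᶠ t : ℝ in 𝓝[>] 0, t < 1 :=
        (eventually_lt_nhds zero_lt_one).filter_mono nhdsWithin_le_nhds
      filter_upwards [this] with t ht
      rw [indicator_of_notMem (by simpa using ht.le), norm_zero]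
      positivity
    · rw [neg_re]
      linarith
  have hcomp : DifferentiableAt ℂ (fun s : ℂ => mellin (indicator (Ioi (1:ℝ)) A) (-s)) s :=
    DifferentiableAt.comp (g := mellin (indicator (Ioi (1:ℝ)) A))
      (f := fun s : ℂ => -s) s hd differentiableAt_id.neg
  have heq : (fun s : ℂ => mellin (indicator (Ioi (1:ℝ)) A) (-s)) =
      fun s : ℂ => ∫ u in Ioi (1 : ℝ), A u * (u : ℂ) ^ (-s - 1) := by
    funext s
    exact hm' s
  rw [heq] at hcomp
  exact hcomp.differentiableWithinAt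

lemma J_bound {A : ℝ → ℂ} {K : ℝ} (hA : ∀ u, ‖A u‖ ≤ K) {s : ℂ} (hs : 0 < s.re) :
    ‖∫ u in Ioi (1 : ℝ), A u * (u : ℂ) ^ (-s - 1)‖ ≤ K / s.re := by
  have h1 : ∫ u in Ioi (1 : ℝ), K * u ^ (-s.re - 1) = K / s.re := by
    rw [integral_const_mul, integral_Ioi_rpow_of_lt (by linarith) zero_lt_one, Real.one_rpow]
    have : s.re ≠ 0 := hs.ne'
    rw [show -s.re - 1 + 1 = -s.re by ring]
    field_simp
  rw [← h1]
  refine norm_integral_le_of_norm_le ?_ ?_
  · exact (integrableOn_Ioi_rpow_of_lt (by linarith) zero_lt_one).const_mul K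
  · refine (ae_restrict_iff' measurableSet_Ioi).mpr (Filter.Eventually.of_forall fun u hu => ?_)
    have hu0 : (0 : ℝ) < u := lt_trans one_pos hu
    rw [norm_mul, norm_cpow_eq_rpow_re_of_pos hu0]
    have : (-s - 1).re = -s.re - 1 := by simp
    rw [this]
    exact mul_le_mul_of_nonneg_right (hA u) (by positivity)

lemma sum_period (hχ1 : χ ≠ 1) (n : ℕ) : ∑ k ∈ Finset.range q, χ ((n + k : ℕ) : ZMod q) = 0 := by
  have h1 : ∑ a : ZMod q, χ ((n : ZMod q) + a) = 0 := by
    exact (Equiv.sum_comp (Equiv.addLeft (n : ZMod q)) (fun a => χ a)).trans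
      (MulChar.sum_eq_zero_of_ne_one hχ1)
  rw [← h1]
  refine Finset.sum_bij' (fun k _ => (k : ZMod q)) (fun a _ => a.val) ?_ ?_ ?_ ?_ ?_
  · intro a _; exact Finset.mem_univ _
  · intro a _; exact Finset.mem_range.mpr (ZMod.val_lt a)
  · intro a ha; exact ZMod.val_cast_of_lt (Finset.mem_range.mp ha)
  · intro a _; exact ZMod.natCast_zmod_val a
  · intro a _; push_cast; rfl

lemma norm_sum_range_le (hχ1 : χ ≠ 1) (n : ℕ) : ‖∑ k ∈ Finset.range n, χ (k : ZMod q)‖ ≤ q := by
  induction n using Nat.strong_induction_on with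
  | _ n ih =>
    rcases lt_or_ge n q with h | h
    · refine (norm_sum_le _ _).trans ?_
      calc ∑ k ∈ Finset.range n, ‖χ (k : ZMod q)‖ ≤ ∑ k ∈ Finset.range n, (1 : ℝ) :=
            Finset.sum_le_sum fun k _ => DirichletCharacter.norm_le_one χ _
        _ = n := by simp
        _ ≤ q := by exact_mod_cast h.le
    · obtain ⟨m, rfl⟩ := Nat.exists_eq_add_of_le' h
      rw [Finset.sum_range_add, sum_period hχ1, add_zero]
      exact ih m (by have := NeZero.pos q; omega)

lemma norm_sum_Icc_le (hχ1 : χ ≠ 1) (n : ℕ) :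
    ‖∑ k ∈ Finset.Icc 1 n, χ (k : ZMod q)‖ ≤ q + 1 := by
  have h1 : ∑ k ∈ Finset.range (n + 1), χ (k : ZMod q) =
      χ ((0 : ℕ) : ZMod q) + ∑ k ∈ Finset.Icc 1 n, χ (k : ZMod q) := by
    rw [Finset.range_eq_Ico, Finset.sum_eq_sum_Ico_succ_bot (Nat.succ_pos n)]
    rfl
  have h2 : ∑ k ∈ Finset.Icc 1 n, χ (k : ZMod q) =
      ∑ k ∈ Finset.range (n + 1), χ (k : ZMod q) - χ ((0 : ℕ) : ZMod q) := by
    rw [h1]; ring
  rw [h2]
  exact (norm_sub_le _ _).trans (add_le_add (norm_sum_range_le hχ1 _)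
    (DirichletCharacter.norm_le_one χ _))

lemma L_integral (hχ1 : χ ≠ 1) {s : ℂ} (hs : 0 < s.re) :
    DirichletCharacter.LFunction χ s = s * ∫ u in Ioi (1 : ℝ),
      (∑ k ∈ Finset.Icc 1 ⌊u⌋₊, χ (k : ZMod q)) * (u : ℂ) ^ (-s - 1) := by
  obtain ⟨A, hA⟩ : ∃ A : ℝ → ℂ, A = fun u => ∑ k ∈ Finset.Icc 1 ⌊u⌋₊, χ (k : ZMod q) := ⟨_, rfl⟩
  have hm : Measurable A := by
    rw [hA]
    exact (measurable_from_nat (f := fun n : ℕ => ∑ k ∈ Finset.Icc 1 n, χ (k : ZMod q))).comp
      Nat.measurable_floor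
  have hbd : ∀ u, ‖A u‖ ≤ (q + 1 : ℝ) := by
    intro u
    rw [hA]
    exact norm_sum_Icc_le hχ1 _
  have hopen : IsOpen {s : ℂ | 0 < s.re} := isOpen_lt continuous_const continuous_re
  have hJ := J_diff (A := A) (K := q + 1) (by positivity) hm hbd
  have hpre : IsPreconnected {s : ℂ | 0 < s.re} := (convex_halfSpace_re_gt 0).isPreconnected
  have heq : EqOn (DirichletCharacter.LFunction χ)
      (fun s => s * ∫ u in Ioi (1 : ℝ), A u * (u : ℂ) ^ (-s - 1)) {s : ℂ | 0 < s.re} := by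
    refine AnalyticOnNhd.eqOn_of_preconnected_of_eventuallyEq (z₀ := 2)
      ((DirichletCharacter.differentiable_LFunction hχ1).differentiableOn.analyticOnNhd hopen)
      ((differentiableOn_id.mul hJ).analyticOnNhd hopen) hpre (by simp) ?_
    have hopen1 : IsOpen {s : ℂ | 1 < s.re} := isOpen_lt continuous_const Complex.continuous_re
    filter_upwards [hopen1.mem_nhds (show (2:ℂ) ∈ {s : ℂ | 1 < s.re} by simp)] with z hz
    have hz' : 1 < z.re := hz
    have hO : (fun n : ℕ => ∑ k ∈ Finset.Icc 1 n, ‖χ (k : ZMod q)‖) =O[atTop]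
        fun n : ℕ => (n : ℝ) ^ (1 : ℝ) := by
      refine Asymptotics.IsBigO.of_bound 1 (Filter.Eventually.of_forall fun n => ?_)
      rw [Real.rpow_one, one_mul, Real.norm_eq_abs, Real.norm_eq_abs,
        abs_of_nonneg (Finset.sum_nonneg fun k _ => norm_nonneg _),
        abs_of_nonneg (Nat.cast_nonneg n)]
      calc ∑ k ∈ Finset.Icc 1 n, ‖χ (k : ZMod q)‖ ≤ ∑ k ∈ Finset.Icc 1 n, (1 : ℝ) :=
            Finset.sum_le_sum fun k _ => DirichletCharacter.norm_le_one χ _
        _ = n := by simp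
    have h1 := LSeries_eq_mul_integral' (fun n : ℕ => χ (n : ZMod q)) (r := 1) zero_le_one hz' hO
    rw [DirichletCharacter.LFunction_eq_LSeries χ hz', h1, hA]
    congr 1
    apply setIntegral_congr_fun measurableSet_Ioi
    intro t _
    simp only
    rw [show -(z + 1) = -z - 1 by ring]
  have := heq hs
  rw [hA] at this
  exact this

lemma norm_le_im {s : ℂ} (h2 : |s.re| ≤ 4) (h3 : 1 ≤ s.im) : ‖s‖ ≤ 5 * s.im := by
  refine (norm_le_abs_re_add_abs_im s).trans ?_
  rw [abs_of_nonneg (by linarith : 0 ≤ s.im)]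
  linarith

lemma L_growth_ne (hχ1 : χ ≠ 1) : ∃ C A : ℝ, 0 < C ∧ 0 < A ∧ ∀ s : ℂ, (1 / 16 : ℝ) ≤ s.re →
    s.re ≤ 4 → 1 ≤ s.im → ‖DirichletCharacter.LFunction χ s‖ ≤ C * s.im ^ A := by
  refine ⟨80 * (q + 1), 1, by positivity, one_pos, fun s h1 h2 h3 => ?_⟩
  have hs : 0 < s.re := by linarith
  have hA : ∀ u : ℝ, ‖∑ k ∈ Finset.Icc 1 ⌊u⌋₊, χ (k : ZMod q)‖ ≤ (q + 1 : ℝ) :=
    fun u => norm_sum_Icc_le hχ1 _
  rw [L_integral hχ1 hs, norm_mul, Real.rpow_one]
  have h4 := J_bound hA hs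
  have h5 : (q + 1 : ℝ) / s.re ≤ 16 * (q + 1) := by
    rw [div_le_iff₀ hs]
    have : (0 : ℝ) ≤ q := Nat.cast_nonneg q
    nlinarith
  calc _ ≤ (5 * s.im) * (16 * (q + 1)) := by
        apply mul_le_mul (norm_le_im (by rw [abs_le]; constructor <;> linarith) h3) (h4.trans h5)
          (norm_nonneg _) (by linarith)
    _ = _ := by ring

lemma zeta_growth : ∃ C A : ℝ, 0 < C ∧ 0 < A ∧ ∀ s : ℂ, (1 / 16 : ℝ) ≤ s.re →
    s.re ≤ 4 → 1 ≤ s.im → ‖riemannZeta s‖ ≤ C * s.im ^ A := by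
  refine ⟨82, 1, by norm_num, one_pos, fun s h1 h2 h3 => ?_⟩
  have hs : 0 < s.re := by linarith
  have hne : s ≠ 1 := ne_one_of_im (by linarith)
  have hA : ∀ u : ℝ, ‖((Int.fract u : ℝ) : ℂ)‖ ≤ 1 := by
    intro u
    rw [Complex.norm_real, Real.norm_eq_abs, Int.abs_fract]
    exact (Int.fract_lt_one u).le
  rw [ZU.J_a1.zf_one s hs hne, Real.rpow_one]
  have h4 := J_bound hA hs
  have h5 : (1 : ℝ) / s.re ≤ 16 := by
    rw [div_le_iff₀ hs]
    linarith
  have h6 : ‖1 / (s - 1)‖ ≤ 1 := by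
    rw [norm_div, norm_one, div_le_one]
    · refine le_trans ?_ (abs_im_le_norm (s - 1))
      simp only [sub_im, one_im, sub_zero]
      exact h3.trans (le_abs_self _)
    · rw [norm_pos_iff, sub_ne_zero]
      exact hne
  have h7 : ‖s * ∫ u in Ioi (1 : ℝ), ((Int.fract u : ℝ) : ℂ) * (u : ℂ) ^ (-s - 1)‖ ≤
      (5 * s.im) * 16 := by
    rw [norm_mul]
    exact mul_le_mul (norm_le_im (by rw [abs_le]; constructor <;> linarith) h3) (h4.trans h5)
          (norm_nonneg _) (by linarith)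
  calc _ ≤ ‖1 + 1 / (s - 1)‖ + _ := norm_sub_le _ _
    _ ≤ (‖(1 : ℂ)‖ + ‖1 / (s - 1)‖) + (5 * s.im) * 16 := add_le_add (norm_add_le _ _) h7
    _ ≤ (1 + 1) + (5 * s.im) * 16 := by
        rw [norm_one]
        gcongr
    _ ≤ 82 * s.im := by linarith

lemma L_growth (hχ : χ.IsPrimitive) : ∃ C A : ℝ, 0 < C ∧ 0 < A ∧ ∀ s : ℂ, (1 / 16 : ℝ) ≤ s.re →
    s.re ≤ 4 → 1 ≤ s.im → ‖DirichletCharacter.LFunction χ s‖ ≤ C * s.im ^ A := by
  rcases eq_or_ne χ 1 with h | h
  · have hq : q = 1 := by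
      rw [h, DirichletCharacter.IsPrimitive, DirichletCharacter.conductor_one] at hχ
      exact hχ.symm
    subst hq
    rw [DirichletCharacter.LFunction_modOne_eq]
    exact zeta_growth
  · exact L_growth_ne h

end H370.DL

namespace H370

open DL

theorem good_dirichlet {q : ℕ} [NeZero q] (χ : DirichletCharacter ℂ q) (hχ : χ.IsPrimitive) :
    GoodL (DirichletCharacter.LFunction χ) where
  an s hs := analyticAt_L (ne_one_of_im hs.ne')
  growth := L_growth hχ
  lower := L_lower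
  nzr s h1 h2 := L_nzr h1 (by linarith)
  nzl s h1 h2 := L_nzl hχ h1 (by linarith)
  symm s _ _ h := L_symm hχ (by linarith)
  ld := L_ld
  left := L_left hχ

theorem good_zeta : GoodL riemannZeta := by
  have h := good_dirichlet (1 : DirichletCharacter ℂ 1) DirichletCharacter.isPrimitive_one_level_one
  rwa [DirichletCharacter.LFunction_modOne_eq] at h

end H370
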