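import Pool.Agent.H19.EW.J2
import Pool.Agent.H19.EW.NCount
import Pool.Agent.H19.EW.NDirGood
import Pool.Agent.H19.EW.L.W190_C3

/-!
# A tame weight cannot kill the zeros of the zeta function
-/

open Complex MeasureTheory Filter Topology Set Metric

set_option autoImplicit false
set_option linter.unusedSectionVars false
set_option linter.unusedVariables false

namespace H19.EW

open H313.TK

noncomputable section

/-- the zeros of zeta in the critical strip with ordinate in `(1, T]` -/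
def ZT (T : ℝ) : Finset ℂ := (H370.zset_finite H370.good_zeta 1 T le_rfl).toFinset

theorem mem_ZT {T : ℝ} {ρ : ℂ} : ρ ∈ ZT T ↔ 0 < ρ.re ∧ ρ.re < 1 ∧ 1 < ρ.im ∧ ρ.im ≤ T ∧ riemannZeta ρ = 0 := by
  unfold ZT
  rw [Set.Finite.mem_toFinset]
  rfl

/-- multiplicity of a zero of zeta -/
def mz (ρ : ℂ) : ℕ := analyticOrderNatAt riemannZeta ρ

/-- multiplicity of a zero of the transform of the weight -/
def kw (w : ℝ → ℝ) (ρ : ℂ) : ℕ := analyticOrderNatAt (wh w) ρ

theorem zeta_order_fin {ρ : ℂ} (h : ρ ≠ 1) : analyticOrderAt riemannZeta ρ ≠ ⊤ := by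
  have hU : IsPreconnected ({1}ᶜ : Set ℂ) := by
    have : IsConnected ({1}ᶜ : Set ℂ) := isConnected_compl_singleton_of_one_lt_rank (by
      rw [Complex.rank_real_complex]
      norm_num) 1
    exact this.isPreconnected
  have han : AnalyticOnNhd ℂ riemannZeta ({1}ᶜ : Set ℂ) := fun z hz => zeta_an hz
  have h2 : (2 : ℂ) ∈ ({1}ᶜ : Set ℂ) := by
    intro h
    have : (2:ℂ) = 1 := h
    norm_num at this
  refine AnalyticOnNhd.analyticOrderAt_ne_top_of_isPreconnected han hU h2 h ?_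
  have h3 : riemannZeta 2 ≠ 0 := riemannZeta_ne_zero_of_one_le_re (by norm_num)
  rw [(han 2 h2).analyticOrderAt_eq_zero.2 h3]
  exact ENat.zero_ne_top

theorem zeta_order {ρ : ℂ} (h : ρ ≠ 1) : analyticOrderAt riemannZeta ρ = (mz ρ : ℕ∞) :=
  (Nat.cast_analyticOrderNatAt (zeta_order_fin h)).symm

theorem N_low : ∃ K : ℝ, 0 ≤ K ∧ ∀ T : ℝ, 1 ≤ T →
    T * Real.log T / (2 * Real.pi) - K * T ≤ ∑ ρ ∈ ZT T, (mz ρ : ℝ) := by
  obtain ⟨C, T0, hC, hT0, h⟩ := H370.nn_asymp H370.good_zeta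
  have hp := Real.pi_pos
  have hNN : ∀ T : ℝ, (H370.NN riemannZeta 1 T : ℝ) = ∑ ρ ∈ ZT T, (mz ρ : ℝ) := by
    intro T
    rw [H370.NN_eq_sum H370.good_zeta 1 T le_rfl]
    push_cast
    rfl
  have hl0 : 0 ≤ Real.log (2 * T0) := Real.log_nonneg (by linarith)
  set K : ℝ := C + 1 + Real.log (2 * T0) with hK
  have hK0 : 0 ≤ K := by positivity
  have key : ∀ n : ℕ, ∀ T : ℝ, 1 ≤ T → T ≤ 2 * T0 * 2 ^ n →
      T * Real.log T / (2 * Real.pi) - K * T ≤ (H370.NN riemannZeta 1 T : ℝ) := by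
    intro n
    induction n with
    | zero =>
      intro T h1 h2
      have h3 : Real.log T ≤ Real.log (2 * T0) := Real.log_le_log (by linarith) (by simpa using h2)
      have h4 : 0 ≤ Real.log T := Real.log_nonneg h1
      have h5 : T * Real.log T / (2 * Real.pi) ≤ T * Real.log T := by
        rw [div_le_iff₀ (by positivity)]
        have : 0 ≤ T * Real.log T := by positivity
        have := Real.pi_gt_three
        nlinarith
      have h6 : (0:ℝ) ≤ (H370.NN riemannZeta 1 T : ℝ) := Nat.cast_nonneg _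
      have h7 : T * Real.log T ≤ K * T := by
        rw [mul_comm]
        refine mul_le_mul_of_nonneg_right ?_ (by linarith)
        rw [hK]
        linarith
      linarith
    | succ n ih =>
      intro T h1 h2
      rcases le_or_gt T (2 * T0) with h3 | h3
      · refine ih T h1 (h3.trans ?_)
        have : (1:ℝ) ≤ 2 ^ n := one_le_pow₀ (by norm_num)
        nlinarith
      · have h4 : T / 2 ≤ 2 * T0 * 2 ^ n := by
          rw [pow_succ] at h2
          linarith
        have h5 := ih (T / 2) (by linarith) h4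
        have h6 := h (T / 2) (by linarith) (T / 2) (2 * (T / 2)) le_rfl (by linarith) (by linarith) le_rfl
        rw [show 2 * (T / 2) = T by ring] at h6
        have h7 := (abs_le.1 h6).1
        have h8 := H370.NN_add H370.good_zeta (a := 1) (b := T / 2) (c := T) le_rfl (by linarith) (by linarith)
        rw [h8]
        push_cast
        have h9 : Real.log (T / 2) = Real.log T - Real.log 2 := Real.log_div (by linarith) (by norm_num)
        rw [h9] at h5 h7
        have h10 : Real.log 2 ≤ 1 := by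
          have := Real.log_two_lt_d9
          linarith
        have h11 : T * Real.log 2 / (2 * Real.pi) ≤ T / 2 := by
          rw [div_le_iff₀ (by positivity)]
          have := Real.pi_gt_three
          nlinarith
        have e1 : T / 2 * (Real.log T - Real.log 2) / (2 * Real.pi) =
            (T * Real.log T / (2 * Real.pi)) / 2 - (T * Real.log 2 / (2 * Real.pi)) / 2 := by ring
        rw [e1] at h5 h7
        have h12 : C * T / 2 + T / 2 ≤ K * T / 2 := by
          rw [hK]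
          have : 0 ≤ Real.log (2 * T0) * T := by positivity
          nlinarith
        linarith
  refine ⟨K, hK0, fun T hT => ?_⟩
  rw [← hNN]
  obtain ⟨n, hn⟩ := pow_unbounded_of_one_lt T (show (1:ℝ) < 2 by norm_num)
  refine key n T hT (hn.le.trans ?_)
  have : (0:ℝ) < 2 ^ n := by positivity
  nlinarith

/-! ### symmetries -/

theorem wh_conj (w : ℝ → ℝ) (s : ℂ) : wh w ((starRingEnd ℂ) s) = (starRingEnd ℂ) (wh w s) := by
  unfold wh
  rw [mellin_exp, mellin_exp, ← integral_conj]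
  refine integral_congr_ae (ae_of_all _ fun y => ?_)
  simp only [map_mul, Complex.conj_ofReal, ← Complex.exp_conj, map_neg]

theorem order_affine {f : ℂ → ℂ} {s : ℂ} (h : AnalyticAt ℂ f (1 - s)) :
    analyticOrderAt (fun z => f (1 - z)) s = analyticOrderAt f (1 - s) := by
  have hg : AnalyticAt ℂ (fun z : ℂ => 1 - z) s := by fun_prop
  have hd : deriv (fun z : ℂ => 1 - z) s ≠ 0 := by
    have : HasDerivAt (fun z : ℂ => 1 - z) (-1) s := by simpa using (hasDerivAt_id s).const_sub 1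
    rw [this.deriv]
    norm_num
  exact analyticOrderAt_comp_of_deriv_ne_zero hg hd

theorem kw_conj {w : ℝ → ℝ} (hw : Wt w) {ρ : ℂ} (h0 : 0 < ρ.re) (h1 : ρ.re < 1) :
    kw w ((starRingEnd ℂ) ρ) = kw w ρ := by
  unfold kw analyticOrderNatAt
  congr 1
  have hc : ((starRingEnd ℂ) ρ).re = ρ.re := by simp
  have ha1 : AnalyticAt ℂ (wh w) ρ := wh_an hw h0 h1
  have ha2 : AnalyticAt ℂ (wh w) ((starRingEnd ℂ) ρ) := wh_an hw (by rw [hc]; exact h0) (by rw [hc]; exact h1)
  have e1 : H370.DL.refl (wh w) = fun z => wh w (1 - z) := by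
    funext z
    unfold H370.DL.refl
    rw [← wh_conj]
    congr 1
    simp
  have e2 : 1 - (starRingEnd ℂ) (1 - ρ) = (starRingEnd ℂ) ρ := by simp
  have h2 := H370.DL.order_refl (f := wh w) (s := 1 - ρ) (by rw [e2]; exact ha2)
  rw [e2, e1, order_affine (by rw [sub_sub_cancel]; exact ha1), sub_sub_cancel] at h2
  exact h2.symm

theorem mz_refl {ρ : ℂ} (h0 : 0 < ρ.re) (h1 : ρ.re < 1) (h2 : 1 ≤ ρ.im) :
    mz (1 - (starRingEnd ℂ) ρ) = mz ρ := by
  unfold mz analyticOrderNatAt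
  rw [H370.good_zeta.symm ρ h0 h1 h2]

/-! ### the symmetric form of Jensen's bound -/

theorem jensen_sym {a b c B α : ℝ} {w : ℝ → ℝ} (h : Tame a b w c B α)
    (hne : ¬ ∀ᵐ u ∂(volume.restrict (Ioi (0:ℝ))), w u = 0) :
    ∃ C : ℝ, 0 ≤ C ∧ ∀ R : ℝ, 1 ≤ R → ∀ Z : Finset ℂ, (∀ ρ ∈ Z, 0 < ρ.re ∧ ρ.re < 1 ∧ 0 < ρ.im ∧ ‖ρ‖ ≤ R) →
      2 * ∑ ρ ∈ Z, (kw w ρ : ℝ) * Real.log (R / ‖ρ‖) ≤
        (1 / a + 1 / b) / Real.pi * R * Real.log (1 + R) + C * (1 + R) := by
  classical
  obtain ⟨C, hC, hj⟩ := jensen h hne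
  refine ⟨C, hC, fun R hR Z hZ => ?_⟩
  set Z' : Finset ℂ := Z.image (starRingEnd ℂ) with hZ'
  have hdisj : Disjoint Z Z' := by
    rw [Finset.disjoint_left]
    intro ρ h1 h2
    rw [hZ', Finset.mem_image] at h2
    obtain ⟨σ, h3, h4⟩ := h2
    have h5 := (hZ ρ h1).2.2.1
    have h6 := (hZ σ h3).2.2.1
    rw [← h4, Complex.conj_im] at h5
    linarith
  have h1 := hj R hR (Z ∪ Z') (by
    intro ρ hρ
    rw [Finset.mem_union] at hρ
    rcases hρ with hρ | hρ
    · exact ⟨(hZ ρ hρ).1, (hZ ρ hρ).2.1, (hZ ρ hρ).2.2.2⟩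
    · rw [hZ', Finset.mem_image] at hρ
      obtain ⟨σ, h3, h4⟩ := hρ
      obtain ⟨h5, h6, h7, h8⟩ := hZ σ h3
      rw [← h4, Complex.conj_re, Complex.norm_conj]
      exact ⟨h5, h6, h8⟩)
  rw [Finset.sum_union hdisj] at h1
  have h2 : ∑ ρ ∈ Z', (analyticOrderNatAt (wh w) ρ : ℝ) * Real.log (R / ‖ρ‖) =
      ∑ ρ ∈ Z, (analyticOrderNatAt (wh w) ρ : ℝ) * Real.log (R / ‖ρ‖) := by
    rw [hZ', Finset.sum_image (by
      intro x _ y _ hxy
      exact (starRingEnd ℂ).injective hxy)]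
    refine Finset.sum_congr rfl fun ρ hρ => ?_
    obtain ⟨h5, h6, h7, h8⟩ := hZ ρ hρ
    have := kw_conj h.wt h5 h6
    unfold kw at this
    rw [this, Complex.norm_conj]
  rw [h2] at h1
  unfold kw
  linarith

/-- layers -/
theorem layer (k : ℂ → ℕ) {lam : ℝ} (hlam : 1 < lam) (J : ℕ) {R : ℝ} (hR : 1 ≤ R) :
    Real.log lam * ∑ j ∈ Finset.range J, ∑ ρ ∈ ZT (R / lam ^ (j + 1) - 1), (k ρ : ℝ) ≤
      ∑ ρ ∈ ZT (R - 1), (k ρ : ℝ) * Real.log (R / ‖ρ‖) := by
  have hl0 : 0 < Real.log lam := Real.log_pos hlam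
  have hR0 : 0 < R := by linarith
  have hsub : ∀ j, ZT (R / lam ^ (j + 1) - 1) ⊆ ZT (R - 1) := by
    intro j ρ hρ
    rw [mem_ZT] at hρ ⊢
    refine ⟨hρ.1, hρ.2.1, hρ.2.2.1, hρ.2.2.2.1.trans ?_, hρ.2.2.2.2⟩
    have : R / lam ^ (j + 1) ≤ R := div_le_self hR0.le (one_le_pow₀ hlam.le)
    linarith
  have e1 : ∀ j, ∑ ρ ∈ ZT (R / lam ^ (j + 1) - 1), (k ρ : ℝ) =
      ∑ ρ ∈ ZT (R - 1), (k ρ : ℝ) * (if ρ.im ≤ R / lam ^ (j + 1) - 1 then 1 else 0) := by
    intro j
    have h1 : ZT (R / lam ^ (j + 1) - 1) = (ZT (R - 1)).filter (fun ρ => ρ.im ≤ R / lam ^ (j + 1) - 1) := by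
      ext ρ
      rw [Finset.mem_filter]
      constructor
      · intro h2
        exact ⟨hsub j h2, (mem_ZT.1 h2).2.2.2.1⟩
      · rintro ⟨h2, h3⟩
        rw [mem_ZT] at h2 ⊢
        exact ⟨h2.1, h2.2.1, h2.2.2.1, h3, h2.2.2.2.2⟩
    rw [h1, Finset.sum_filter]
    refine Finset.sum_congr rfl fun ρ _ => ?_
    split_ifs <;> simp
  simp_rw [e1]
  rw [Finset.sum_comm, Finset.mul_sum]
  refine Finset.sum_le_sum fun ρ hρ => ?_
  rw [← Finset.mul_sum, mul_left_comm]
  refine mul_le_mul_of_nonneg_left ?_ (Nat.cast_nonneg _)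
  obtain ⟨h0, h1, h2, h3, h4⟩ := mem_ZT.1 hρ
  have hn : ‖ρ‖ ≤ ρ.im + 1 := by
    have := Complex.norm_le_abs_re_add_abs_im ρ
    rw [abs_of_pos h0, abs_of_pos (by linarith)] at this
    linarith
  have hn0 : 0 < ‖ρ‖ := by
    have := Complex.abs_im_le_norm ρ
    rw [abs_of_pos (by linarith)] at this
    linarith
  set m : ℝ := Real.log (R / ‖ρ‖) with hm
  have hm0 : 0 ≤ m := Real.log_nonneg (by rw [le_div_iff₀ hn0]; linarith)
  -- indices in the set are at most `m / log lam`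
  have h5 : ∀ j ∈ Finset.range J, (if ρ.im ≤ R / lam ^ (j + 1) - 1 then (1:ℝ) else 0) ≤
      if ((j : ℝ) + 1) * Real.log lam ≤ m then 1 else 0 := by
    intro j _
    by_cases h6 : ρ.im ≤ R / lam ^ (j + 1) - 1
    · rw [if_pos h6, if_pos]
      rw [hm, Real.le_log_iff_exp_le (by positivity)]
      have h7 : Real.exp (((j : ℝ) + 1) * Real.log lam) = lam ^ (j + 1) := by
        rw [show ((j : ℝ) + 1) = ((j + 1 : ℕ) : ℝ) by push_cast; ring, Real.exp_nat_mul, Real.exp_log (by linarith)]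
      rw [h7, le_div_iff₀ hn0]
      have h8 : ‖ρ‖ ≤ R / lam ^ (j + 1) := by linarith
      rw [le_div_iff₀ (by positivity)] at h8
      linarith
    · rw [if_neg h6]
      split_ifs <;> norm_num
  have h6 : ∀ J : ℕ, Real.log lam * ∑ j ∈ Finset.range J, (if ((j : ℝ) + 1) * Real.log lam ≤ m then (1:ℝ) else 0) ≤
      min m (J * Real.log lam) := by
    intro J
    induction J with
    | zero => simp [hm0]
    | succ J ih =>
      rw [Finset.sum_range_succ, mul_add]
      by_cases h7 : ((J : ℝ) + 1) * Real.log lam ≤ m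
      · rw [if_pos h7, mul_one]
        refine le_min ?_ ?_
        · have := ih.trans (min_le_right _ _)
          linarith
        · have := ih.trans (min_le_right _ _)
          push_cast
          linarith
      · rw [if_neg h7, mul_zero, add_zero]
        refine le_min (ih.trans (min_le_left _ _)) ((ih.trans (min_le_right _ _)).trans ?_)
        push_cast
        nlinarith
  refine (mul_le_mul_of_nonneg_left (Finset.sum_le_sum h5) hl0.le).trans ?_
  exact (h6 J).trans (min_le_left _ _)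

end

end H19.EW
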