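import Pool.Agent.H19.EW.J3

/-!
# Zeros that survive, and the oscillation theorem
-/

open Complex MeasureTheory Filter Topology Set Metric

set_option autoImplicit false
set_option linter.unusedSectionVars false
set_option linter.unusedVariables false

namespace H19.EW

open H313.TK

noncomputable section

theorem xlog_shift {x : ℝ} (hx : 2 ≤ x) : x * Real.log x - x ≤ (x - 1) * Real.log (x - 1) := by
  have hx1 : 0 < x - 1 := by linarith
  have h1 : Real.log (x / (x - 1)) ≤ x / (x - 1) - 1 := Real.log_le_sub_one_of_pos (by positivity)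
  rw [Real.log_div (by linarith) hx1.ne'] at h1
  have h2 : x / (x - 1) - 1 = 1 / (x - 1) := by field_simp; ring
  rw [h2] at h1
  have h3 : (x - 1) * (Real.log x - Real.log (x - 1)) ≤ (x - 1) * (1 / (x - 1)) := mul_le_mul_of_nonneg_left h1 hx1.le
  have h4 : (x - 1) * (1 / (x - 1)) = 1 := by field_simp
  rw [h4] at h3
  have h5 : Real.log x ≤ x - 1 := Real.log_le_sub_one_of_pos (by linarith)
  nlinarith

theorem contra {a b c B α : ℝ} {w : ℝ → ℝ} (h : Tame a b w c B α)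
    (hne : ¬ ∀ᵐ u ∂(volume.restrict (Ioi (0:ℝ))), w u = 0) (η K : ℝ) (hη : 1 / a + 1 / b < η) (hK : 0 ≤ K)
    (hlow : ∀ T : ℝ, 1 ≤ T → η * (T * Real.log T / (2 * Real.pi)) - K * T ≤ ∑ ρ ∈ ZT T, (kw w ρ : ℝ)) : False := by
  have hp := Real.pi_pos
  set θ : ℝ := 1 / a + 1 / b with hθ
  have hθ0 : 0 < θ := by
    have := h.ha; have := h.hb
    positivity
  have hη0 : 0 < η := by linarith
  obtain ⟨C, hC, hj⟩ := jensen_sym h hne
  set q : ℝ := θ / η with hq
  have hq0 : 0 < q := by positivity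
  have hq1 : q < 1 := by rw [hq, div_lt_one hη0]; exact hη
  -- the ratio
  set lam : ℝ := (1 + 1 / q) / 2 with hlam
  have hqi : 1 < 1 / q := by rw [lt_div_iff₀ hq0]; linarith
  have hlam1 : 1 < lam := by rw [hlam]; linarith
  have hlamq : lam < 1 / q := by rw [hlam]; linarith
  have hl0 : 0 < Real.log lam := Real.log_pos hlam1
  -- the geometric series
  have hgeo : HasSum (fun j : ℕ => Real.log lam * (1 / lam ^ (j + 1))) (Real.log lam * (1 / (lam - 1))) := by
    refine HasSum.mul_left _ ?_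
    have h1 := hasSum_geometric_of_lt_one (r := 1 / lam) (by positivity) (by rw [div_lt_one (by linarith)]; exact hlam1)
    have h2 := h1.mul_left (1 / lam)
    have e1 : (fun j : ℕ => 1 / lam * (1 / lam) ^ j) = fun j : ℕ => 1 / lam ^ (j + 1) := by
      funext j
      rw [pow_succ, div_pow, one_pow]
      field_simp
    have e2 : 1 / lam * (1 - 1 / lam)⁻¹ = 1 / (lam - 1) := by
      have : lam - 1 ≠ 0 := by linarith
      have h0 : lam ≠ 0 := by linarith
      have h3 : 1 - 1 / lam = (lam - 1) / lam := by field_simp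
      rw [h3]
      field_simp
    rw [e1, e2] at h2
    exact h2
  have hbig : q < Real.log lam * (1 / (lam - 1)) := by
    have h1 : 1 - 1 / lam ≤ Real.log lam := by
      have h2 := Real.log_le_sub_one_of_pos (show 0 < 1 / lam by positivity)
      rw [one_div, Real.log_inv] at h2
      rw [one_div]
      linarith
    have h3 : (1 - 1 / lam) * (1 / (lam - 1)) ≤ Real.log lam * (1 / (lam - 1)) :=
      mul_le_mul_of_nonneg_right h1 (by
        have : 0 < lam - 1 := by linarith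
        positivity)
    have h4 : (1 - 1 / lam) * (1 / (lam - 1)) = 1 / lam := by
      have : lam - 1 ≠ 0 := by linarith
      have h0 : lam ≠ 0 := by linarith
      field_simp
    rw [h4] at h3
    have h5 : q < 1 / lam := by
      rw [lt_div_iff₀ (by linarith)]
      rw [lt_div_iff₀ hq0] at hlamq
      linarith
    linarith
  obtain ⟨J, hJ⟩ := ((hgeo.tendsto_sum_nat).eventually (lt_mem_nhds hbig)).exists
  set sJ : ℝ := ∑ j ∈ Finset.range J, Real.log lam * (1 / lam ^ (j + 1)) with hsJ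
  set M : ℝ := η * (J * Real.log lam + 1) + K with hM
  have hM0 : 0 ≤ M := by positivity
  -- the inequality for large `R`
  have hineq : ∀ R : ℝ, 2 * lam ^ (J + 1) ≤ R →
      η * sJ / Real.pi * (R * Real.log R) - 2 * M * sJ * R ≤ θ / Real.pi * R * Real.log (1 + R) + C * (1 + R) := by
    intro R hR
    have hlp : (1:ℝ) ≤ lam ^ (J + 1) := one_le_pow₀ hlam1.le
    have hR1 : 1 ≤ R := by linarith
    have hR0 : 0 < R := by linarith
    have h1 := hj R hR1 (ZT (R - 1)) (by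
      intro ρ hρ
      obtain ⟨g0, g1, g2, g3, g4⟩ := mem_ZT.1 hρ
      refine ⟨g0, g1, by linarith, ?_⟩
      have := Complex.norm_le_abs_re_add_abs_im ρ
      rw [abs_of_pos g0, abs_of_pos (by linarith)] at this
      linarith)
    have h2 := layer (kw w) hlam1 J hR1
    have h3 : ∀ j ∈ Finset.range J, η / (2 * Real.pi) * (R / lam ^ (j + 1)) * Real.log R - M * (R / lam ^ (j + 1)) ≤
        ∑ ρ ∈ ZT (R / lam ^ (j + 1) - 1), (kw w ρ : ℝ) := by
      intro j hj2
      rw [Finset.mem_range] at hj2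
      set x : ℝ := R / lam ^ (j + 1) with hx
      have hpj : (0:ℝ) < lam ^ (j + 1) := by positivity
      have hx2 : 2 ≤ x := by
        rw [hx, le_div_iff₀ hpj]
        refine le_trans ?_ hR
        refine mul_le_mul_of_nonneg_left ?_ (by norm_num)
        exact pow_le_pow_right₀ hlam1.le (by omega)
      have h4 := hlow (x - 1) (by linarith)
      have h5 := xlog_shift hx2
      have h6 : Real.log x = Real.log R - (j + 1) * Real.log lam := by
        rw [hx, Real.log_div hR0.ne' hpj.ne', Real.log_pow]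
        push_cast
        ring
      have h7 : ((j : ℝ) + 1) ≤ J := by exact_mod_cast hj2
      have h8 : ((j : ℝ) + 1) * Real.log lam ≤ J * Real.log lam := mul_le_mul_of_nonneg_right h7 hl0.le
      have h9 : η * ((x * Real.log x - x) / (2 * Real.pi)) ≤ η * ((x - 1) * Real.log (x - 1) / (2 * Real.pi)) := by
        refine mul_le_mul_of_nonneg_left ?_ hη0.le
        exact div_le_div_of_nonneg_right h5 (by positivity)
      have hx0 : 0 < x := by linarith
      have h10 : η * ((x * Real.log x - x) / (2 * Real.pi)) =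
          η / (2 * Real.pi) * x * Real.log R - (η / (2 * Real.pi) * (((j : ℝ) + 1) * Real.log lam + 1)) * x := by
        rw [h6]; ring
      have h11 : η / (2 * Real.pi) * (((j : ℝ) + 1) * Real.log lam + 1) ≤ η * (J * Real.log lam + 1) := by
        have e1 : η / (2 * Real.pi) ≤ η := by
          rw [div_le_iff₀ (by positivity)]
          have := Real.pi_gt_three
          nlinarith
        exact mul_le_mul e1 (by linarith) (by positivity) hη0.le
      have h12 := mul_le_mul_of_nonneg_right h11 hx0.le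
      have h13 : K * (x - 1) ≤ K * x := mul_le_mul_of_nonneg_left (by linarith) hK
      rw [hM]
      nlinarith
    have h4 := Finset.sum_le_sum h3
    have h5 := mul_le_mul_of_nonneg_left h4 hl0.le
    have h6 : Real.log lam * ∑ j ∈ Finset.range J, (η / (2 * Real.pi) * (R / lam ^ (j + 1)) * Real.log R - M * (R / lam ^ (j + 1))) =
        (η / (2 * Real.pi) * (R * Real.log R) - M * R) * sJ := by
      rw [hsJ, Finset.mul_sum, Finset.mul_sum]
      refine Finset.sum_congr rfl fun j _ => ?_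
      ring
    rw [h6] at h5
    have h7 := h5.trans h2
    have h8 : 2 * ((η / (2 * Real.pi) * (R * Real.log R) - M * R) * sJ) =
        η * sJ / Real.pi * (R * Real.log R) - 2 * M * sJ * R := by
      field_simp
    linarith
  -- contradiction
  have hs0 : 0 < sJ := hq0.trans hJ
  have hgap : 0 < η * sJ - θ := by
    have : θ = η * q := by rw [hq]; field_simp
    rw [this]
    nlinarith
  set Q : ℝ := 2 * M * sJ + θ / Real.pi + 2 * C with hQ
  have hQ0 : 0 ≤ Q := by positivity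
  set R : ℝ := max (2 * lam ^ (J + 1)) (Real.exp ((Q + 1) * Real.pi / (η * sJ - θ))) with hR
  have hR1 : 2 * lam ^ (J + 1) ≤ R := le_max_left _ _
  have hlp : (1:ℝ) ≤ lam ^ (J + 1) := one_le_pow₀ hlam1.le
  have hR2 : 2 ≤ R := by linarith
  have hR0 : 0 < R := by linarith
  have h1 := hineq R hR1
  have h2 : Real.log (1 + R) ≤ Real.log R + 1 := by
    have h3 : Real.log (1 + R) ≤ Real.log (2 * R) := Real.log_le_log (by linarith) (by linarith)
    rw [Real.log_mul (by norm_num) hR0.ne'] at h3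
    have := Real.log_two_lt_d9
    linarith
  have h3 : (Q + 1) * Real.pi / (η * sJ - θ) ≤ Real.log R := by
    rw [Real.le_log_iff_exp_le hR0]
    exact le_max_right _ _
  rw [div_le_iff₀ hgap] at h3
  have h4 : θ / Real.pi * R * Real.log (1 + R) ≤ θ / Real.pi * R * (Real.log R + 1) :=
    mul_le_mul_of_nonneg_left h2 (by positivity)
  have h5 : C * (1 + R) ≤ 2 * C * R := by nlinarith
  have h6 : (η * sJ - θ) / Real.pi * (R * Real.log R) ≤ Q * R := by
    have e1 : (η * sJ - θ) / Real.pi * (R * Real.log R) = η * sJ / Real.pi * (R * Real.log R) -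
        θ / Real.pi * R * Real.log R := by ring
    rw [e1, hQ]
    nlinarith
  have h7 : (η * sJ - θ) / Real.pi * (R * Real.log R) = ((Real.log R * (η * sJ - θ)) / Real.pi) * R := by ring
  rw [h7] at h6
  have h8 := le_of_mul_le_mul_right h6 hR0
  rw [div_le_iff₀ hp] at h8
  nlinarith

/-- half of the zeros -/
theorem half_low {w : ℝ → ℝ} (hk : ∀ ρ : ℂ, riemannZeta ρ = 0 → 1 / 2 ≤ ρ.re → ρ.re < 1 → 1 < ρ.im → mz ρ ≤ kw w ρ)
    (T : ℝ) : (1 / 2 : ℝ) * ∑ ρ ∈ ZT T, (mz ρ : ℝ) ≤ ∑ ρ ∈ ZT T, (kw w ρ : ℝ) := by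
  classical
  have h1 : ∑ ρ ∈ (ZT T).filter (fun ρ => ¬ (1 / 2 ≤ ρ.re)), (mz ρ : ℝ) ≤
      ∑ ρ ∈ (ZT T).filter (fun ρ => 1 / 2 ≤ ρ.re), (mz ρ : ℝ) := by
    have e1 : ∑ ρ ∈ (ZT T).filter (fun ρ => ¬ (1 / 2 ≤ ρ.re)), (mz ρ : ℝ) =
        ∑ ρ ∈ ((ZT T).filter (fun ρ => ¬ (1 / 2 ≤ ρ.re))).image (fun ρ => 1 - (starRingEnd ℂ) ρ), (mz ρ : ℝ) := by
      rw [Finset.sum_image (by
        intro x _ y _ hxy
        have h2 : (starRingEnd ℂ) x = (starRingEnd ℂ) y := sub_right_injective hxy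
        exact (starRingEnd ℂ).injective h2)]
      refine Finset.sum_congr rfl fun ρ hρ => ?_
      rw [Finset.mem_filter] at hρ
      obtain ⟨g0, g1, g2, g3, g4⟩ := mem_ZT.1 hρ.1
      rw [mz_refl g0 g1 g2.le]
    rw [e1]
    refine Finset.sum_le_sum_of_subset_of_nonneg ?_ fun _ _ _ => Nat.cast_nonneg _
    intro σ hσ
    rw [Finset.mem_image] at hσ
    obtain ⟨ρ, hρ, rfl⟩ := hσ
    rw [Finset.mem_filter] at hρ
    obtain ⟨g0, g1, g2, g3, g4⟩ := mem_ZT.1 hρ.1
    have hlt := hρ.2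
    push Not at hlt
    rw [Finset.mem_filter, mem_ZT]
    have hord : riemannZeta (1 - (starRingEnd ℂ) ρ) = 0 := by
      have h3 := H370.good_zeta.symm ρ g0 g1 g2.le
      have hne : ρ ≠ 1 := by rintro rfl; simp at g1
      have h4 : analyticOrderAt riemannZeta ρ ≠ 0 := by
        rw [(zeta_an hne).analyticOrderAt_ne_zero]
        exact g4
      rw [← h3] at h4
      exact apply_eq_zero_of_analyticOrderAt_ne_zero h4
    refine ⟨⟨?_, ?_, ?_, ?_, hord⟩, ?_⟩
    · simp; linarith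
    · simp; linarith
    · simp; linarith
    · simp; linarith
    · simp; linarith
  have h2 : ∑ ρ ∈ ZT T, (mz ρ : ℝ) = ∑ ρ ∈ (ZT T).filter (fun ρ => 1 / 2 ≤ ρ.re), (mz ρ : ℝ) +
      ∑ ρ ∈ (ZT T).filter (fun ρ => ¬ (1 / 2 ≤ ρ.re)), (mz ρ : ℝ) :=
    (Finset.sum_filter_add_sum_filter_not _ _ _).symm
  have h3 : ∑ ρ ∈ (ZT T).filter (fun ρ => 1 / 2 ≤ ρ.re), (mz ρ : ℝ) ≤
      ∑ ρ ∈ (ZT T).filter (fun ρ => 1 / 2 ≤ ρ.re), (kw w ρ : ℝ) := by
    refine Finset.sum_le_sum fun ρ hρ => ?_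
    rw [Finset.mem_filter] at hρ
    obtain ⟨g0, g1, g2, g3, g4⟩ := mem_ZT.1 hρ.1
    exact_mod_cast hk ρ g4 hρ.2 g1 g2
  have h4 : ∑ ρ ∈ (ZT T).filter (fun ρ => 1 / 2 ≤ ρ.re), (kw w ρ : ℝ) ≤ ∑ ρ ∈ ZT T, (kw w ρ : ℝ) :=
    Finset.sum_le_sum_of_subset_of_nonneg (Finset.filter_subset _ _) fun _ _ _ => Nat.cast_nonneg _
  linarith

/-- multiplicities of zeta and of its entire version -/
theorem mz_mu {ρ : ℂ} (h : ρ ≠ 1) : mz ρ = H353.mu ρ := by
  unfold mz H353.mu analyticOrderNatAt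
  congr 1
  have he : ZU.J_g2b.FF =ᶠ[𝓝 ρ] (fun s => s - 1) * riemannZeta := by
    filter_upwards [isOpen_compl_singleton.mem_nhds h] with s hs
    exact ZU.J_g2b.FF_ne hs
  have ha : AnalyticAt ℂ (fun s : ℂ => s - 1) ρ := by fun_prop
  show analyticOrderAt riemannZeta ρ = analyticOrderAt ZU.J_g2b.FF ρ
  rw [analyticOrderAt_congr he, analyticOrderAt_mul ha (zeta_an h),
    ha.analyticOrderAt_eq_zero.2 (sub_ne_zero.2 h), zero_add]

/-- almost all of the zeros -/
theorem most_low {w : ℝ → ℝ} {δ : ℝ} (hδ : 0 < δ) (hδ2 : δ < 1 / 2)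
    (hk : ∀ ρ : ℂ, riemannZeta ρ = 0 → 1 / 2 - δ < ρ.re → ρ.re < 1 → 1 < ρ.im → mz ρ ≤ kw w ρ) :
    ∃ C : ℝ, 0 ≤ C ∧ ∀ T : ℝ, 1 ≤ T → ∑ ρ ∈ ZT T, (mz ρ : ℝ) - C * T ≤ ∑ ρ ∈ ZT T, (kw w ρ : ℝ) := by
  classical
  set σ : ℝ := 1 / 2 + δ with hσ
  obtain ⟨C, hC, hcar⟩ := Pool.Agent.W190.carlson σ (2 * δ ^ 2) (by linarith) (by linarith) (by positivity)
  have hexp : 4 * σ * (1 - σ) + 2 * δ ^ 2 ≤ 1 := by
    rw [hσ]
    nlinarith
  refine ⟨C, hC.le, fun T hT => ?_⟩
  have h1 : ∑ ρ ∈ (ZT T).filter (fun ρ => ¬ (1 / 2 - δ < ρ.re)), (mz ρ : ℝ) ≤ C * T := by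
    have e1 : ∑ ρ ∈ (ZT T).filter (fun ρ => ¬ (1 / 2 - δ < ρ.re)), (mz ρ : ℝ) =
        ∑ ρ ∈ ((ZT T).filter (fun ρ => ¬ (1 / 2 - δ < ρ.re))).image (fun ρ => 1 - (starRingEnd ℂ) ρ), (H353.mu ρ : ℝ) := by
      rw [Finset.sum_image (by
        intro x _ y _ hxy
        have h2 : (starRingEnd ℂ) x = (starRingEnd ℂ) y := sub_right_injective hxy
        exact (starRingEnd ℂ).injective h2)]
      refine Finset.sum_congr rfl fun ρ hρ => ?_
      rw [Finset.mem_filter] at hρ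
      obtain ⟨g0, g1, g2, g3, g4⟩ := mem_ZT.1 hρ.1
      rw [← mz_mu (by
        intro h
        have h2 := congrArg Complex.im h
        simp at h2
        linarith), mz_refl g0 g1 g2.le]
    rw [e1]
    refine (hcar T hT _ ?_).trans ?_
    · intro s hs
      rw [Finset.mem_image] at hs
      obtain ⟨ρ, hρ, rfl⟩ := hs
      rw [Finset.mem_filter] at hρ
      obtain ⟨g0, g1, g2, g3, g4⟩ := mem_ZT.1 hρ.1
      have hle := hρ.2
      push Not at hle
      have hord : riemannZeta (1 - (starRingEnd ℂ) ρ) = 0 := by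
        have h3 := H370.good_zeta.symm ρ g0 g1 g2.le
        have hne : ρ ≠ 1 := by rintro rfl; simp at g1
        have h4 : analyticOrderAt riemannZeta ρ ≠ 0 := by
          rw [(zeta_an hne).analyticOrderAt_ne_zero]
          exact g4
        rw [← h3] at h4
        exact apply_eq_zero_of_analyticOrderAt_ne_zero h4
      refine ⟨?_, ?_, ?_⟩
      · have hne : (1 - (starRingEnd ℂ) ρ) ≠ 1 := by
          intro h
          have h2 := congrArg Complex.im h
          simp at h2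
          linarith
        have h5 : ZU.J_g2b.FF (1 - (starRingEnd ℂ) ρ) = ((1 - (starRingEnd ℂ) ρ) - 1) * riemannZeta (1 - (starRingEnd ℂ) ρ) :=
          ZU.J_g2b.FF_ne hne
        show ZU.J_g2b.FF (1 - (starRingEnd ℂ) ρ) = 0
        rw [h5, hord, mul_zero]
      · rw [hσ]
        simp
        linarith
      · simp only [Complex.sub_im, Complex.one_im, Complex.conj_im, zero_sub, neg_neg]
        rw [abs_of_pos (by linarith)]
        exact g3
    · refine mul_le_mul_of_nonneg_left ?_ hC.le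
      calc T ^ (4 * σ * (1 - σ) + 2 * δ ^ 2) ≤ T ^ (1:ℝ) := Real.rpow_le_rpow_of_exponent_le hT hexp
        _ = T := Real.rpow_one T
  have h2 : ∑ ρ ∈ ZT T, (mz ρ : ℝ) = ∑ ρ ∈ (ZT T).filter (fun ρ => 1 / 2 - δ < ρ.re), (mz ρ : ℝ) +
      ∑ ρ ∈ (ZT T).filter (fun ρ => ¬ (1 / 2 - δ < ρ.re)), (mz ρ : ℝ) :=
    (Finset.sum_filter_add_sum_filter_not _ _ _).symm
  have h3 : ∑ ρ ∈ (ZT T).filter (fun ρ => 1 / 2 - δ < ρ.re), (mz ρ : ℝ) ≤
      ∑ ρ ∈ (ZT T).filter (fun ρ => 1 / 2 - δ < ρ.re), (kw w ρ : ℝ) := by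
    refine Finset.sum_le_sum fun ρ hρ => ?_
    rw [Finset.mem_filter] at hρ
    obtain ⟨g0, g1, g2, g3, g4⟩ := mem_ZT.1 hρ.1
    exact_mod_cast hk ρ g4 hρ.2 g1 g2
  have h4 : ∑ ρ ∈ (ZT T).filter (fun ρ => 1 / 2 - δ < ρ.re), (kw w ρ : ℝ) ≤ ∑ ρ ∈ ZT T, (kw w ρ : ℝ) :=
    Finset.sum_le_sum_of_subset_of_nonneg (Finset.filter_subset _ _) fun _ _ _ => Nat.cast_nonneg _
  linarith

theorem survive_half {a b c B α : ℝ} {w : ℝ → ℝ} (h : Tame a b w c B α)
    (hne : ¬ ∀ᵐ u ∂(volume.restrict (Ioi (0:ℝ))), w u = 0) (hab : 1 / a + 1 / b < 1 / 2) :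
    ∃ ρ : ℂ, riemannZeta ρ = 0 ∧ 1 / 2 ≤ ρ.re ∧ ρ.re < 1 ∧ 1 < ρ.im ∧ kw w ρ < mz ρ := by
  by_contra hcon
  push Not at hcon
  obtain ⟨K, hK, hN⟩ := N_low
  refine contra h hne (1 / 2) (K / 2) hab (by positivity) fun T hT => ?_
  have h1 := half_low hcon T
  have h2 := hN T hT
  linarith

theorem survive_delta {a b c B α : ℝ} {w : ℝ → ℝ} (h : Tame a b w c B α)
    (hne : ¬ ∀ᵐ u ∂(volume.restrict (Ioi (0:ℝ))), w u = 0) (hab : 1 / a + 1 / b < 1) {δ : ℝ} (hδ : 0 < δ)
    (hδ2 : δ < 1 / 2) :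
    ∃ ρ : ℂ, riemannZeta ρ = 0 ∧ 1 / 2 - δ < ρ.re ∧ ρ.re < 1 ∧ 1 < ρ.im ∧ kw w ρ < mz ρ := by
  by_contra hcon
  push Not at hcon
  obtain ⟨K, hK, hN⟩ := N_low
  obtain ⟨C, hC, hm⟩ := most_low hδ hδ2 hcon
  refine contra h hne 1 (K + C) hab (by positivity) fun T hT => ?_
  have h1 := hm T hT
  have h2 := hN T hT
  linarith

end

end H19.EW
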