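import Pool.Agent.H19.EW.Fin

/-!
# Counting the zeros that a weight can hide
-/

open Complex MeasureTheory Filter Topology Set Metric

set_option autoImplicit false
set_option linter.unusedSectionVars false
set_option linter.unusedVariables false

namespace H19.EW

open H313.TK

noncomputable section

/-- growth of the entire function attached to the weight -/
def Gro (p q : ℝ) (w : ℝ → ℝ) (c : ℝ) : Prop := ∃ C : ℝ, 0 ≤ C ∧ ∀ s : ℂ,
  ‖ff w c s‖ ≤ Real.exp ((p * max s.re 0 + q * max (-s.re) 0) * Real.log (1 + ‖s‖) + C * (1 + ‖s‖))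

theorem Tame.gro {a b c B α : ℝ} {w : ℝ → ℝ} (h : Tame a b w c B α) : Gro (1 / a) (1 / b) w c := by
  obtain ⟨C, hC, hg⟩ := ff_growth h
  refine ⟨C, hC, fun s => (hg s).trans (le_of_eq ?_)⟩
  congr 2
  ring

/-- growth for compactly supported weights -/
theorem gro_compact {w : ℝ → ℝ} {B c η K : ℝ} (hB : ∀ u, |w u| ≤ B) (hη : 0 < η)
    (hc : ∀ u, 0 < u → u < η → w u = c) (hK : ∀ u, K < u → w u = 0) : Gro 0 0 w c := by
  have hB0 : 0 ≤ B := (abs_nonneg _).trans (hB 0)
  set L : ℝ := |Real.log η| + |Real.log (max K 1)| + 1 with hL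
  have hL0 : 0 < L := by positivity
  have hzero : ∀ y : ℝ, L < |y| → vv w c y = 0 := by
    intro y hy
    unfold vv
    rcases le_or_gt 0 y with h | h
    · rw [abs_of_nonneg h] at hy
      have h1 : Real.exp (-y) < η := by
        rw [← Real.lt_log_iff_exp_lt hη]
        have := neg_abs_le (Real.log η)
        have := abs_nonneg (Real.log (max K 1))
        linarith
      rw [if_pos h, hc _ (Real.exp_pos _) h1]
      simp
    · rw [abs_of_neg h] at hy
      have hKp : 0 < max K 1 := lt_max_of_lt_right one_pos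
      have h1 : max K 1 < Real.exp (-y) := by
        rw [← Real.log_lt_iff_lt_exp hKp]
        have := le_abs_self (Real.log (max K 1))
        have := abs_nonneg (Real.log η)
        linarith
      rw [if_neg (not_le.2 h), hK _ ((le_max_left _ _).trans_lt h1)]
      simp
  have hbd : ∀ y : ℝ, ‖vv w c y‖ ≤ B + |c| := by
    intro y
    unfold vv
    rw [Complex.norm_real, Real.norm_eq_abs]
    refine (abs_sub _ _).trans ?_
    have h1 := hB (Real.exp (-y))
    have h2 : |(if 0 ≤ y then c else (0:ℝ))| ≤ |c| := by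
      split_ifs
      · exact le_rfl
      · simp
    linarith
  have hV : ∀ s : ℂ, ‖TT (vv w c) s‖ ≤ (B + |c|) * (2 * L) * Real.exp (‖s‖ * L) := by
    intro s
    have e1 : TT (vv w c) s = ∫ y in Icc (-L) L, cexp (-s * y) * vv w c y := by
      unfold TT
      rw [← integral_indicator measurableSet_Icc]
      refine integral_congr_ae (ae_of_all _ fun y => ?_)
      by_cases hy : y ∈ Icc (-L) L
      · rw [indicator_of_mem hy]
      · rw [indicator_of_notMem hy]
        simp only
        rw [hzero y (by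
          by_contra h
          push Not at h
          exact hy ⟨(abs_le.1 h).1, (abs_le.1 h).2⟩), mul_zero]
    rw [e1]
    have h1 := norm_setIntegral_le_of_norm_le_const (μ := volume) (s := Icc (-L) L)
      (f := fun y : ℝ => cexp (-s * y) * vv w c y) (C := (B + |c|) * Real.exp (‖s‖ * L)) (by simp) (by
        intro y hy
        rw [norm_mul, norm_tw, mul_comm]
        refine mul_le_mul (hbd y) (Real.exp_le_exp.2 ?_) (Real.exp_pos _).le (by positivity)
        calc -s.re * y ≤ |-s.re * y| := le_abs_self _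
          _ = |s.re| * |y| := by rw [abs_mul, abs_neg]
          _ ≤ ‖s‖ * L := mul_le_mul (Complex.abs_re_le_norm s) (abs_le.2 ⟨hy.1, hy.2⟩) (abs_nonneg _) (norm_nonneg _))
    refine h1.trans (le_of_eq ?_)
    rw [Real.volume_real_Icc_of_le (by linarith)]
    ring
  set D : ℝ := (B + |c|) * (2 * L) with hD
  have hD0 : 0 ≤ D := by positivity
  refine ⟨|c| + D + L + 1, by positivity, fun s => ?_⟩
  rw [zero_mul, zero_mul, add_zero, zero_mul, zero_add]
  have hs := norm_nonneg s
  unfold ff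
  refine (norm_add_le _ _).trans ?_
  rw [norm_mul, Complex.norm_real, Real.norm_eq_abs]
  have h1 : ‖s‖ * ‖TT (vv w c) s‖ ≤ ‖s‖ * (D * Real.exp (‖s‖ * L)) := mul_le_mul_of_nonneg_left (hV s) hs
  have h2 : ‖s‖ + 1 ≤ Real.exp ‖s‖ := Real.add_one_le_exp _
  have h3 : 1 ≤ Real.exp (‖s‖ * L) := Real.one_le_exp (by positivity)
  have h4 : 1 ≤ Real.exp ‖s‖ * Real.exp (‖s‖ * L) := by nlinarith
  have h5 : ‖s‖ * Real.exp (‖s‖ * L) ≤ Real.exp ‖s‖ * Real.exp (‖s‖ * L) :=
    mul_le_mul_of_nonneg_right (by linarith) (by linarith)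
  have h6 := mul_le_mul_of_nonneg_left h4 (abs_nonneg c)
  have h7 := mul_le_mul_of_nonneg_left h5 hD0
  have h8 : |c| + D ≤ Real.exp (|c| + D) := by linarith [Real.add_one_le_exp (|c| + D)]
  calc |c| + ‖s‖ * ‖TT (vv w c) s‖ ≤ (|c| + D) * (Real.exp ‖s‖ * Real.exp (‖s‖ * L)) := by nlinarith
    _ ≤ Real.exp (|c| + D) * (Real.exp ‖s‖ * Real.exp (‖s‖ * L)) := mul_le_mul_of_nonneg_right h8 (by positivity)
    _ = Real.exp (|c| + D + (‖s‖ + ‖s‖ * L)) := by rw [← Real.exp_add, ← Real.exp_add]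
    _ ≤ _ := by
        refine Real.exp_le_exp.2 ?_
        have : 0 ≤ |c| + D := by positivity
        nlinarith [mul_nonneg this hs]

theorem avg_comp' (p q L K R : ℝ) (hR : 0 ≤ R) :
    Real.circleAverage (fun z : ℂ => (p * max z.re 0 + q * max (-z.re) 0) * L + K) 0 R =
      (p + q) / Real.pi * R * L + K := by
  rw [Real.circleAverage_def]
  have hre : ∀ θ : ℝ, (circleMap 0 R θ).re = R * Real.cos θ := by
    intro θ
    simp [circleMap, Complex.exp_re]
  have h1 : ∀ θ : ℝ, (p * max (circleMap 0 R θ).re 0 + q * max (-(circleMap 0 R θ).re) 0) * L + K =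
      (R * L * p) * max (Real.cos θ) 0 + (R * L * q) * max (-Real.cos θ) 0 + K := by
    intro θ
    rw [hre]
    have h2 : max (R * Real.cos θ) 0 = R * max (Real.cos θ) 0 := by
      rw [mul_max_of_nonneg _ _ hR, mul_zero]
    have h3 : max (-(R * Real.cos θ)) 0 = R * max (-Real.cos θ) 0 := by
      rw [mul_max_of_nonneg _ _ hR, mul_zero]
      congr 1
      ring
    rw [h2, h3]
    ring
  simp_rw [h1]
  have c1 : Continuous (fun θ : ℝ => (R * L * p) * max (Real.cos θ) 0) := by fun_prop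
  have c2 : Continuous (fun θ : ℝ => (R * L * q) * max (-Real.cos θ) 0) := by fun_prop
  have c3 : Continuous (fun θ : ℝ => (R * L * p) * max (Real.cos θ) 0 + (R * L * q) * max (-Real.cos θ) 0) := by fun_prop
  rw [intervalIntegral.integral_add (c3.intervalIntegrable _ _) (continuous_const.intervalIntegrable _ _),
    intervalIntegral.integral_add (c1.intervalIntegrable _ _) (c2.intervalIntegrable _ _),
    intervalIntegral.integral_const_mul, intervalIntegral.integral_const_mul, int_cos_pos, int_cos_neg,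
    intervalIntegral.integral_const]
  have hp := Real.pi_pos
  simp only [smul_eq_mul, sub_zero]
  field_simp

/-- **Jensen's bound** under a growth hypothesis. -/
theorem jensenG {a b c B α : ℝ} {w : ℝ → ℝ} (h : Tame a b w c B α)
    (hne : ¬ ∀ᵐ u ∂(volume.restrict (Ioi (0:ℝ))), w u = 0) {p q : ℝ} (hp0 : 0 ≤ p) (hq0 : 0 ≤ q) (hG : Gro p q w c) :
    ∃ C : ℝ, 0 ≤ C ∧ ∀ R : ℝ, 1 ≤ R → ∀ Z : Finset ℂ, (∀ ρ ∈ Z, 0 < ρ.re ∧ ρ.re < 1 ∧ ‖ρ‖ ≤ R) →
      ∑ ρ ∈ Z, (analyticOrderNatAt (wh w) ρ : ℝ) * Real.log (R / ‖ρ‖) ≤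
        (p + q) / Real.pi * R * Real.log (1 + R) + C * (1 + R) := by
  obtain ⟨C, hC, hg⟩ := hG
  set f := ff w c with hf
  have han : AnalyticOnNhd ℂ f univ := (ff_entire h).differentiableOn.analyticOnNhd isOpen_univ
  set τ : ℝ := Real.log ‖meromorphicTrailingCoeffAt f 0‖ with hτ
  refine ⟨C + |τ|, by positivity, fun R hR Z hZ => ?_⟩
  have hR0 : 0 < R := by linarith
  have hRa : |R| = R := abs_of_pos hR0
  have hanR : AnalyticOnNhd ℂ f (closedBall 0 |R|) := han.mono (subset_univ _)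
  have key := MeromorphicOn.circleAverage_log_norm (c := 0) hR0.ne' hanR.meromorphicOn
  -- upper bound for the average
  have hup : Real.circleAverage (fun z => Real.log ‖f z‖) 0 R ≤
      (p + q) / Real.pi * R * Real.log (1 + R) + C * (1 + R) := by
    rw [← avg_comp' p q (Real.log (1 + R)) (C * (1 + R)) R hR0.le]
    refine Real.circleAverage_mono ?_ ?_ ?_
    · exact (han.mono (subset_univ _)).meromorphicOn.circleIntegrable_log_norm
    · refine ContinuousOn.circleIntegrable' ?_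
      exact (by fun_prop : Continuous fun z : ℂ => (p * max z.re 0 + q * max (-z.re) 0) * Real.log (1 + R) + C * (1 + R)).continuousOn
    · intro z hz
      rw [mem_sphere, dist_zero_right, hRa] at hz
      have h1 := hg z
      rw [hz] at h1
      have hpos : 0 ≤ (p * max z.re 0 + q * max (-z.re) 0) * Real.log (1 + R) + C * (1 + R) := by
        have h2 := mul_nonneg hp0 (le_max_right z.re 0)
        have h3 := mul_nonneg hq0 (le_max_right (-z.re) 0)
        have h4 : 0 ≤ Real.log (1 + R) := Real.log_nonneg (by linarith)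
        have h5 : 0 ≤ C * (1 + R) := by positivity
        have h6 := mul_nonneg (add_nonneg h2 h3) h4
        linarith
      rcases eq_or_ne (f z) 0 with h2 | h2
      · rw [h2, norm_zero, Real.log_zero]
        exact hpos
      · rw [Real.log_le_iff_le_exp (norm_pos_iff.2 h2)]
        exact h1
  -- lower bound for the sum
  set D := MeromorphicOn.divisor f (closedBall 0 |R|) with hD
  have hDnn : ∀ u, (0:ℤ) ≤ D u := fun u => (MeromorphicOn.AnalyticOnNhd.divisor_nonneg hanR) u
  have hfin : (Function.support fun u => (D u : ℝ) * Real.log (R * ‖0 - u‖⁻¹)).Finite := by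
    refine (D.finiteSupport (isCompact_closedBall 0 |R|)).subset fun u hu => ?_
    intro h2
    apply hu
    simp [h2]
  have hterm : ∀ u, 0 ≤ (D u : ℝ) * Real.log (R * ‖0 - u‖⁻¹) := by
    intro u
    by_cases hu : u ∈ closedBall (0:ℂ) |R|
    · refine mul_nonneg (by exact_mod_cast hDnn u) ?_
      rw [zero_sub, norm_neg]
      rcases eq_or_ne u 0 with h2 | h2
      · rw [h2]; simp
      · refine Real.log_nonneg ?_
        rw [← div_eq_mul_inv, le_div_iff₀ (norm_pos_iff.2 h2), one_mul]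
        rw [mem_closedBall, dist_zero_right, hRa] at hu
        exact hu
    · have : D u = 0 := by
        rw [hD]
        exact Function.locallyFinsuppWithin.apply_eq_zero_of_notMem _ hu
      rw [this]
      simp
  have hlow : ∑ ρ ∈ Z, (analyticOrderNatAt (wh w) ρ : ℝ) * Real.log (R / ‖ρ‖) ≤
      ∑ᶠ u, (D u : ℝ) * Real.log (R * ‖0 - u‖⁻¹) := by
    rw [finsum_eq_sum_of_support_subset (s := hfin.toFinset ∪ Z) _ (by
      intro u hu
      rw [Finset.coe_union]
      exact Or.inl (hfin.mem_toFinset.2 hu))]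
    refine le_trans (le_of_eq ?_) (Finset.sum_le_sum_of_subset_of_nonneg Finset.subset_union_right fun u _ _ => hterm u)
    refine Finset.sum_congr rfl fun ρ hρ => ?_
    obtain ⟨h1, h2, h3⟩ := hZ ρ hρ
    have hmem : ρ ∈ closedBall (0:ℂ) |R| := by
      rw [mem_closedBall, dist_zero_right, hRa]
      exact h3
    have h4 : D ρ = (analyticOrderNatAt (wh w) ρ : ℤ) := by
      rw [hD, MeromorphicOn.AnalyticOnNhd.divisor_apply hanR hmem]
      have h5 := order_ff h h1 h2
      unfold analyticOrderNatAt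
      rw [hf, h5]
      obtain ⟨n, hn⟩ := ENat.ne_top_iff_exists.1 (order_fin h hne h1 h2)
      rw [← hn]
      simp
    rw [h4, zero_sub, norm_neg, div_eq_mul_inv]
    push_cast
    rfl
  have hcen : 0 ≤ (D 0 : ℝ) * Real.log R := mul_nonneg (by exact_mod_cast hDnn 0) (Real.log_nonneg hR)
  have h1 := neg_abs_le τ
  have h2 : |τ| ≤ |τ| * (1 + R) := le_mul_of_one_le_right (abs_nonneg _) (by linarith)
  have h3 : ∑ᶠ u, (D u : ℝ) * Real.log (R * ‖0 - u‖⁻¹) ≤
      (p + q) / Real.pi * R * Real.log (1 + R) + C * (1 + R) + |τ| := by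
    have h4 : Real.circleAverage (fun z => Real.log ‖f z‖) 0 R =
        ∑ᶠ u, (D u : ℝ) * Real.log (R * ‖0 - u‖⁻¹) + (D 0 : ℝ) * Real.log R + τ := key
    linarith
  calc _ ≤ _ := hlow
    _ ≤ _ := h3
    _ ≤ _ := by linarith

/-- number of the zeros of the transform up to height `T` -/
theorem kw_count {a b c B α : ℝ} {w : ℝ → ℝ} (h : Tame a b w c B α)
    (hne : ¬ ∀ᵐ u ∂(volume.restrict (Ioi (0:ℝ))), w u = 0) {p q : ℝ} (hp0 : 0 ≤ p) (hq0 : 0 ≤ q) (hG : Gro p q w c) :
    ∃ C : ℝ, 0 ≤ C ∧ ∀ T : ℝ, 1 ≤ T → 2 * ∑ ρ ∈ ZT T, (kw w ρ : ℝ) ≤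
      Real.exp 1 * (p + q) / Real.pi * (T * Real.log T) + C * T := by
  classical
  obtain ⟨C, hC, hj⟩ := jensenG h hne hp0 hq0 hG
  have hpi := Real.pi_gt_three
  have he := Real.exp_one_gt_d9
  have he2 := Real.exp_one_lt_d9
  refine ⟨(p + q) * 10 + 10 * C, by positivity, fun T hT => ?_⟩
  set R : ℝ := Real.exp 1 * (T + 1) with hR
  have hR1 : 1 ≤ R := by rw [hR]; nlinarith
  set Z' : Finset ℂ := (ZT T).image (starRingEnd ℂ) with hZ'
  have hdisj : Disjoint (ZT T) Z' := by
    rw [Finset.disjoint_left]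
    intro ρ h1 h2
    rw [hZ', Finset.mem_image] at h2
    obtain ⟨σ, h3, h4⟩ := h2
    have h5 := (mem_ZT.1 h1).2.2.1
    have h6 := (mem_ZT.1 h3).2.2.1
    rw [← h4, Complex.conj_im] at h5
    linarith
  have hnorm : ∀ ρ ∈ ZT T, ‖ρ‖ ≤ T + 1 ∧ 0 < ‖ρ‖ := by
    intro ρ hρ
    obtain ⟨g0, g1, g2, g3, g4⟩ := mem_ZT.1 hρ
    have h1 := Complex.norm_le_abs_re_add_abs_im ρ
    have h2 := Complex.abs_im_le_norm ρ
    rw [abs_of_pos g0, abs_of_pos (by linarith)] at h1
    rw [abs_of_pos (by linarith)] at h2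
    constructor <;> linarith
  have h1 := hj R hR1 (ZT T ∪ Z') (by
    intro ρ hρ
    have hTR : T + 1 ≤ R := by rw [hR]; nlinarith
    rw [Finset.mem_union] at hρ
    rcases hρ with hρ | hρ
    · obtain ⟨g0, g1, g2, g3, g4⟩ := mem_ZT.1 hρ
      exact ⟨g0, g1, (hnorm ρ hρ).1.trans hTR⟩
    · rw [hZ', Finset.mem_image] at hρ
      obtain ⟨σ, h3, h4⟩ := hρ
      obtain ⟨g0, g1, g2, g3, g4⟩ := mem_ZT.1 h3
      rw [← h4, Complex.conj_re, Complex.norm_conj]
      exact ⟨g0, g1, (hnorm σ h3).1.trans hTR⟩)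
  rw [Finset.sum_union hdisj] at h1
  have h2 : ∑ ρ ∈ Z', (analyticOrderNatAt (wh w) ρ : ℝ) * Real.log (R / ‖ρ‖) =
      ∑ ρ ∈ ZT T, (analyticOrderNatAt (wh w) ρ : ℝ) * Real.log (R / ‖ρ‖) := by
    rw [hZ', Finset.sum_image (by
      intro x _ y _ hxy
      exact (starRingEnd ℂ).injective hxy)]
    refine Finset.sum_congr rfl fun ρ hρ => ?_
    obtain ⟨g0, g1, g2, g3, g4⟩ := mem_ZT.1 hρ
    have := kw_conj h.wt g0 g1
    unfold kw at this
    rw [this, Complex.norm_conj]
  rw [h2] at h1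
  have h3 : ∑ ρ ∈ ZT T, (kw w ρ : ℝ) ≤ ∑ ρ ∈ ZT T, (analyticOrderNatAt (wh w) ρ : ℝ) * Real.log (R / ‖ρ‖) := by
    refine Finset.sum_le_sum fun ρ hρ => ?_
    obtain ⟨h4, h5⟩ := hnorm ρ hρ
    have h6 : 1 ≤ Real.log (R / ‖ρ‖) := by
      rw [Real.le_log_iff_exp_le (by positivity), le_div_iff₀ h5, hR]
      exact mul_le_mul_of_nonneg_left h4 (Real.exp_pos _).le
    unfold kw
    exact le_mul_of_one_le_right (Nat.cast_nonneg _) h6
  have hlT : 0 ≤ Real.log T := Real.log_nonneg hT
  have hlT2 : Real.log T ≤ T := (Real.log_le_sub_one_of_pos (by linarith)).trans (by linarith)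
  -- `log (1 + R) ≤ log T + 2`
  have h4 : Real.log (1 + R) ≤ Real.log T + 2 := by
    have h5 : 1 + R ≤ T * Real.exp 2 := by
      have : Real.exp 2 = Real.exp 1 * Real.exp 1 := by rw [← Real.exp_add]; norm_num
      rw [hR, this]
      nlinarith
    have h6 := Real.log_le_log (by linarith) h5
    rw [Real.log_mul (by linarith) (Real.exp_pos _).ne', Real.log_exp] at h6
    exact h6
  have hpq : 0 ≤ (p + q) / Real.pi := by positivity
  have h5 : (p + q) / Real.pi * R * Real.log (1 + R) ≤ (p + q) / Real.pi * R * (Real.log T + 2) :=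
    mul_le_mul_of_nonneg_left h4 (by positivity)
  have h6 : (p + q) / Real.pi * R * (Real.log T + 2) =
      Real.exp 1 * (p + q) / Real.pi * (T * Real.log T) + (p + q) / Real.pi * (Real.exp 1 * (Real.log T + 2 * T + 2)) := by
    rw [hR]; ring
  have h7 : (p + q) / Real.pi * (Real.exp 1 * (Real.log T + 2 * T + 2)) ≤ (p + q) * (10 * T) := by
    have h8 : Real.exp 1 * (Real.log T + 2 * T + 2) ≤ 3 * (5 * T) := by nlinarith
    have h9 : (p + q) / Real.pi ≤ (p + q) / 3 := div_le_div_of_nonneg_left (by positivity) (by norm_num) hpi.le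
    calc _ ≤ (p + q) / 3 * (3 * (5 * T)) := mul_le_mul h9 h8 (by positivity) (by positivity)
      _ ≤ _ := by nlinarith [mul_nonneg (add_nonneg hp0 hq0) (by linarith : (0:ℝ) ≤ T)]
  have h8 : C * (1 + R) ≤ 10 * C * T := by
    have : 1 + R ≤ 10 * T := by rw [hR]; nlinarith
    nlinarith
  nlinarith

end

end H19.EW
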