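import Pool.Agent.H19.EW.J5

/-!
# A one-sided bound for one weight
-/

open Complex MeasureTheory Filter Topology Set Metric

set_option autoImplicit false
set_option linter.unusedSectionVars false
set_option linter.unusedVariables false

namespace H19.EW

open H313.TK

noncomputable section

/-- the one-sided bound on sparse windows -/
def OneSided (w : ℝ → ℝ) (s : ℝ) : Prop := ∀ ε : ℝ, 0 < ε → ∃ᶠ x : ℝ in atTop,
  ∀ y ∈ Icc x (x * Real.log x), s * S w y ≤ ε * (y ^ (1 / 2 : ℝ) * Real.log y)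

theorem off_line {a b c B α : ℝ} {w : ℝ → ℝ} (h : Tame a b w c B α)
    (hne : ¬ ∀ᵐ u ∂(volume.restrict (Ioi (0:ℝ))), w u = 0) {s : ℝ} (hs : s = 1 ∨ s = -1) (hos : OneSided w s)
    {ρ : ℂ} (hz : riemannZeta ρ = 0) (h0 : 1 / 2 < ρ.re) (h1 : ρ.re < 1) : mz ρ ≤ kw w ρ := by
  by_contra hlt
  push Not at hlt
  obtain ⟨c, hc, hev⟩ := signs_of h hne hz (by linarith) h1 hlt
  set a : ℝ := ρ.re - 1 / 2 with ha
  have ha0 : 0 < a := by rw [ha]; linarith
  have hlo : ∀ᶠ y : ℝ in atTop, Real.log y < c * y ^ a := by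
    have h2 := (isLittleO_log_rpow_atTop ha0).bound (show 0 < c / 2 by linarith)
    filter_upwards [h2, eventually_gt_atTop 1] with y hy hy1
    have hy0 : 0 < y := by linarith
    rw [Real.norm_of_nonneg (Real.log_nonneg hy1.le), Real.norm_of_nonneg (by positivity)] at hy
    have : 0 < y ^ a := by positivity
    nlinarith
  obtain ⟨Y, hY⟩ := eventually_atTop.mp hlo
  obtain ⟨x, hx1, hx2, hx3⟩ := ((hos 1 one_pos).and_eventually (hev.and (eventually_ge_atTop (max Y 2)))).exists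
  obtain ⟨y, hy, hy2⟩ := hx2 s hs
  have h4 := hx1 y hy
  have hYy : Y ≤ y := (le_max_left _ _).trans (hx3.trans hy.1)
  have hy1 : 2 ≤ y := (le_max_right _ _).trans (hx3.trans hy.1)
  have hy0 : 0 < y := by linarith
  have h5 := hY y hYy
  have h6 : y ^ ρ.re = y ^ (1 / 2 : ℝ) * y ^ a := by
    rw [← Real.rpow_add hy0]; congr 1; rw [ha]; ring
  have h7 : 0 < y ^ (1 / 2 : ℝ) := by positivity
  rw [h6] at hy2
  have h8 : y ^ (1 / 2 : ℝ) * Real.log y < y ^ (1 / 2 : ℝ) * (c * y ^ a) := mul_lt_mul_of_pos_left h5 h7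
  nlinarith

theorem on_line {a b c B α : ℝ} {w : ℝ → ℝ} (h : Tame a b w c B α)
    (hne : ¬ ∀ᵐ u ∂(volume.restrict (Ioi (0:ℝ))), w u = 0) {s : ℝ} (hs : s = 1 ∨ s = -1) (hos : OneSided w s)
    {ρ : ℂ} (hz : riemannZeta ρ = 0) (h0 : ρ.re = 1 / 2) : mz ρ ≤ kw w ρ + 1 := by
  by_contra hlt
  push Not at hlt
  obtain ⟨c, hc, hev⟩ := signs2_of h hne hz (by linarith) (by linarith) (by omega)
  obtain ⟨x, hx1, hx2, hx3⟩ :=
    ((hos (c / 2) (by linarith)).and_eventually (hev.and (eventually_ge_atTop (2 : ℝ)))).exists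
  obtain ⟨y, hy, hy2⟩ := hx2 s hs
  have h4 := hx1 y hy
  have hy1 : 2 ≤ y := hx3.trans hy.1
  have hy0 : 0 < y := by linarith
  rw [h0] at hy2
  have h7 : 0 < y ^ (1 / 2 : ℝ) := by positivity
  have h8 : 0 < Real.log y := Real.log_pos (by linarith)
  have h9 : 0 < y ^ (1 / 2 : ℝ) * Real.log y := by positivity
  nlinarith

/-- a zero is good if it is simple and on the critical line -/
def Good (ρ : ℂ) : Prop := ρ.re = 1 / 2 ∧ deriv riemannZeta ρ ≠ 0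

theorem refl_mem {T : ℝ} {ρ : ℂ} (h : ρ ∈ ZT T) : 1 - (starRingEnd ℂ) ρ ∈ ZT T := by
  obtain ⟨g0, g1, g2, g3, g4⟩ := mem_ZT.1 h
  have hord : riemannZeta (1 - (starRingEnd ℂ) ρ) = 0 := by
    have h3 := H370.good_zeta.symm ρ g0 g1 g2.le
    have hne : ρ ≠ 1 := by rintro rfl; simp at g1
    have h4 : analyticOrderAt riemannZeta ρ ≠ 0 := by
      rw [(zeta_an hne).analyticOrderAt_ne_zero]
      exact g4
    rw [← h3] at h4
    exact apply_eq_zero_of_analyticOrderAt_ne_zero h4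
  rw [mem_ZT]
  refine ⟨?_, ?_, ?_, ?_, hord⟩
  · simp; linarith
  · simp; linarith
  · simp; linarith
  · simp; linarith

open Classical in
theorem bad_le {w : ℝ → ℝ} (h1 : ∀ ρ : ℂ, riemannZeta ρ = 0 → 1 / 2 < ρ.re → ρ.re < 1 → mz ρ ≤ kw w ρ)
    (h2 : ∀ ρ : ℂ, riemannZeta ρ = 0 → ρ.re = 1 / 2 → mz ρ ≤ kw w ρ + 1) (T : ℝ) :
    ∑ ρ ∈ (ZT T).filter (fun ρ => ¬ Good ρ), (mz ρ : ℝ) ≤ 2 * ∑ ρ ∈ ZT T, (kw w ρ : ℝ) := by
  -- split the zeros
  set A := (ZT T).filter (fun ρ => 1 / 2 < ρ.re) with hA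
  set L := (ZT T).filter (fun ρ => ρ.re < 1 / 2) with hL
  set M := (ZT T).filter (fun ρ => ρ.re = 1 / 2) with hM
  set M' := (ZT T).filter (fun ρ => ρ.re = 1 / 2 ∧ ¬ Good ρ) with hM'
  have hcover : (ZT T).filter (fun ρ => ¬ Good ρ) ⊆ (A ∪ L) ∪ M' := by
    intro ρ hρ
    rw [Finset.mem_filter] at hρ
    rw [Finset.mem_union, Finset.mem_union, hA, hL, hM', Finset.mem_filter, Finset.mem_filter, Finset.mem_filter]
    rcases lt_trichotomy ρ.re (1 / 2) with h | h | h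
    · exact Or.inl (Or.inr ⟨hρ.1, h⟩)
    · exact Or.inr ⟨hρ.1, h, hρ.2⟩
    · exact Or.inl (Or.inl ⟨hρ.1, h⟩)
  have hnn : ∀ ρ : ℂ, (0:ℝ) ≤ (mz ρ : ℝ) := fun ρ => Nat.cast_nonneg _
  have hkn : ∀ ρ : ℂ, (0:ℝ) ≤ (kw w ρ : ℝ) := fun ρ => Nat.cast_nonneg _
  have e1 : ∑ ρ ∈ (ZT T).filter (fun ρ => ¬ Good ρ), (mz ρ : ℝ) ≤ (∑ ρ ∈ A, (mz ρ : ℝ) + ∑ ρ ∈ L, (mz ρ : ℝ)) + ∑ ρ ∈ M', (mz ρ : ℝ) := by
    refine (Finset.sum_le_sum_of_subset_of_nonneg hcover fun ρ _ _ => hnn ρ).trans ?_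
    have d1 : Disjoint (A ∪ L) M' := by
      rw [Finset.disjoint_left]
      intro ρ k1 k2
      rw [Finset.mem_union, hA, hL, Finset.mem_filter, Finset.mem_filter] at k1
      rw [hM', Finset.mem_filter] at k2
      rcases k1 with k1 | k1
      · linarith [k1.2, k2.2.1]
      · linarith [k1.2, k2.2.1]
    have d2 : Disjoint A L := by
      rw [Finset.disjoint_left]
      intro ρ k1 k2
      rw [hA, Finset.mem_filter] at k1
      rw [hL, Finset.mem_filter] at k2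
      linarith [k1.2, k2.2]
    rw [Finset.sum_union d1, Finset.sum_union d2]
  have e2 : ∑ ρ ∈ L, (mz ρ : ℝ) ≤ ∑ ρ ∈ A, (mz ρ : ℝ) := by
    have e3 : ∑ ρ ∈ L, (mz ρ : ℝ) = ∑ ρ ∈ L.image (fun ρ => 1 - (starRingEnd ℂ) ρ), (mz ρ : ℝ) := by
      rw [Finset.sum_image (by
        intro x _ y _ hxy
        have h2 : (starRingEnd ℂ) x = (starRingEnd ℂ) y := sub_right_injective hxy
        exact (starRingEnd ℂ).injective h2)]
      refine Finset.sum_congr rfl fun ρ hρ => ?_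
      rw [hL, Finset.mem_filter] at hρ
      obtain ⟨g0, g1, g2, g3, g4⟩ := mem_ZT.1 hρ.1
      rw [mz_refl g0 g1 g2.le]
    rw [e3]
    refine Finset.sum_le_sum_of_subset_of_nonneg ?_ fun ρ _ _ => hnn ρ
    intro σ hσ
    rw [Finset.mem_image] at hσ
    obtain ⟨ρ, hρ, rfl⟩ := hσ
    rw [hL, Finset.mem_filter] at hρ
    rw [hA, Finset.mem_filter]
    refine ⟨refl_mem hρ.1, ?_⟩
    simp
    linarith [hρ.2]
  have e4 : ∑ ρ ∈ A, (mz ρ : ℝ) ≤ ∑ ρ ∈ A, (kw w ρ : ℝ) := by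
    refine Finset.sum_le_sum fun ρ hρ => ?_
    rw [hA, Finset.mem_filter] at hρ
    obtain ⟨g0, g1, g2, g3, g4⟩ := mem_ZT.1 hρ.1
    exact_mod_cast h1 ρ g4 hρ.2 g1
  have e5 : ∑ ρ ∈ M', (mz ρ : ℝ) ≤ 2 * ∑ ρ ∈ M, (kw w ρ : ℝ) := by
    have e6 : ∑ ρ ∈ M', (mz ρ : ℝ) ≤ ∑ ρ ∈ M', (2 * (kw w ρ : ℝ)) := by
      refine Finset.sum_le_sum fun ρ hρ => ?_
      rw [hM', Finset.mem_filter] at hρ
      obtain ⟨g0, g1, g2, g3, g4⟩ := mem_ZT.1 hρ.1
      obtain ⟨k1, k2⟩ := hρ.2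
      have hne : ρ ≠ 1 := by rintro rfl; simp at g1
      have hd : deriv riemannZeta ρ = 0 := by
        by_contra hd
        exact k2 ⟨k1, hd⟩
      have h3 := h2 ρ g4 k1
      have h4 : 2 ≤ mz ρ := by
        have h5 : ((2 : ℕ) : ℕ∞) ≤ analyticOrderAt riemannZeta ρ := by
          rw [natCast_le_analyticOrderAt_iff_iteratedDeriv_eq_zero (zeta_an hne)]
          intro i hi
          interval_cases i
          · simpa using g4
          · simpa [iteratedDeriv_one] using hd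
        rw [zeta_order hne] at h5
        exact_mod_cast h5
      have h5 : mz ρ ≤ 2 * kw w ρ := by omega
      exact_mod_cast h5
    refine e6.trans ?_
    rw [← Finset.mul_sum]
    refine mul_le_mul_of_nonneg_left ?_ (by norm_num)
    refine Finset.sum_le_sum_of_subset_of_nonneg ?_ fun ρ _ _ => hkn ρ
    intro ρ hρ
    rw [hM', Finset.mem_filter] at hρ
    rw [hM, Finset.mem_filter]
    exact ⟨hρ.1, hρ.2.1⟩
  have e7 : ∑ ρ ∈ A, (kw w ρ : ℝ) + ∑ ρ ∈ M, (kw w ρ : ℝ) ≤ ∑ ρ ∈ ZT T, (kw w ρ : ℝ) := by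
    have d : Disjoint A M := by
      rw [Finset.disjoint_left]
      intro ρ k1 k2
      rw [hA, Finset.mem_filter] at k1
      rw [hM, Finset.mem_filter] at k2
      linarith [k1.2, k2.2]
    rw [← Finset.sum_union d]
    refine Finset.sum_le_sum_of_subset_of_nonneg ?_ fun ρ _ _ => hkn ρ
    intro ρ hρ
    rw [Finset.mem_union, hA, hM, Finset.mem_filter, Finset.mem_filter] at hρ
    rcases hρ with hρ | hρ
    · exact hρ.1
    · exact hρ.1
  linarith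

end

end H19.EW
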