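import Pool.Agent.H19.EW.J6

/-!
# The counting functions of all zeros and of the exceptional zeros
-/

open Complex MeasureTheory Filter Topology Set Metric

set_option autoImplicit false
set_option linter.unusedSectionVars false
set_option linter.unusedVariables false

namespace H19.EW

open H313.TK

noncomputable section

/-- zeros in the critical strip with ordinate in `(0, T]` -/
def ZZ (T : ℝ) : Set ℂ := {ρ : ℂ | riemannZeta ρ = 0 ∧ 0 < ρ.re ∧ ρ.re < 1 ∧ 0 < ρ.im ∧ ρ.im ≤ T}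

theorem ZZ_fin (T : ℝ) : (ZZ T).Finite := by
  refine (H353.zeros_finite (Icc 0 1 ×ℂ Icc 0 T) (isCompact_Icc.reProdIm isCompact_Icc)).subset ?_
  rintro ρ ⟨h0, h1, h2, h3, h4⟩
  have hne : ρ ≠ 1 := by rintro rfl; simp at h2
  have h5 : ZU.J_g2b.FF ρ = (ρ - 1) * riemannZeta ρ := ZU.J_g2b.FF_ne hne
  rw [h0, mul_zero] at h5
  refine ⟨h5, ?_⟩
  rw [Complex.mem_reProdIm]
  exact ⟨⟨h1.le, h2.le⟩, ⟨h3.le, h4⟩⟩

theorem fsum_nonneg (S : Set ℂ) (g : ℂ → ℕ) : 0 ≤ ∑ᶠ ρ ∈ S, (g ρ : ℝ) :=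
  finsum_mem_induction (fun x : ℝ => 0 ≤ x) le_rfl (fun _ _ hx hy => add_nonneg hx hy) fun ρ _ => Nat.cast_nonneg _

theorem ZZ_split {T : ℝ} (hT : 1 ≤ T) (P : ℂ → Prop) [DecidablePred P] :
    ∑ᶠ ρ ∈ {ρ ∈ ZZ T | P ρ}, (mz ρ : ℝ) = ∑ᶠ ρ ∈ {ρ ∈ ZZ 1 | P ρ}, (mz ρ : ℝ) + ∑ ρ ∈ (ZT T).filter P, (mz ρ : ℝ) := by
  classical
  have f1 : {ρ ∈ ZZ T | P ρ}.Finite := (ZZ_fin T).subset fun ρ h => h.1
  have f2 : {ρ ∈ ZZ 1 | P ρ}.Finite := (ZZ_fin 1).subset fun ρ h => h.1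
  rw [finsum_mem_eq_finite_toFinset_sum _ f1, finsum_mem_eq_finite_toFinset_sum _ f2, ← Finset.sum_union]
  · refine Finset.sum_congr ?_ fun _ _ => rfl
    ext ρ
    rw [Finset.mem_union, Set.Finite.mem_toFinset, Set.Finite.mem_toFinset, Finset.mem_filter, mem_ZT]
    constructor
    · rintro ⟨⟨h0, h1, h2, h3, h4⟩, h5⟩
      rcases le_or_gt ρ.im 1 with h | h
      · exact Or.inl ⟨⟨h0, h1, h2, h3, h⟩, h5⟩
      · exact Or.inr ⟨⟨h1, h2, h, h4, h0⟩, h5⟩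
    · rintro (⟨⟨h0, h1, h2, h3, h4⟩, h5⟩ | ⟨⟨h1, h2, h3, h4, h0⟩, h5⟩)
      · exact ⟨⟨h0, h1, h2, h3, h4.trans hT⟩, h5⟩
      · exact ⟨⟨h0, h1, h2, by linarith, h4⟩, h5⟩
  · rw [Finset.disjoint_left]
    intro ρ h1 h2
    rw [Set.Finite.mem_toFinset] at h1
    rw [Finset.mem_filter, mem_ZT] at h2
    linarith [h1.1.2.2.2.2, h2.1.2.2.1]

open Classical in
/-- the exceptional zeros under the one-sided bound -/
theorem bad_count {a b c B α : ℝ} {w : ℝ → ℝ} (h : Tame a b w c B α)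
    (hne : ¬ ∀ᵐ u ∂(volume.restrict (Ioi (0:ℝ))), w u = 0) {p q : ℝ} (hp0 : 0 ≤ p) (hq0 : 0 ≤ q) (hG : Gro p q w c)
    {s : ℝ} (hs : s = 1 ∨ s = -1) (hos : OneSided w s) :
    ∃ C : ℝ, 0 ≤ C ∧ ∀ T : ℝ, 1 ≤ T → ∑ᶠ ρ ∈ {ρ ∈ ZZ T | ¬ Good ρ}, (mz ρ : ℝ) ≤
      Real.exp 1 * (p + q) / Real.pi * (T * Real.log T) + C * T := by
  obtain ⟨C, hC, hk⟩ := kw_count h hne hp0 hq0 hG
  set C1 : ℝ := ∑ᶠ ρ ∈ {ρ ∈ ZZ 1 | ¬ Good ρ}, (mz ρ : ℝ) with hC1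
  have hC10 : 0 ≤ C1 := by
    rw [hC1]
    exact fsum_nonneg _ _
  refine ⟨C + C1, by positivity, fun T hT => ?_⟩
  rw [ZZ_split hT (fun ρ => ¬ Good ρ)]
  have h1 := bad_le (w := w) (fun ρ hz h0 h1 => off_line h hne hs hos hz h0 h1)
    (fun ρ hz h0 => on_line h hne hs hos hz h0) T
  have h2 := hk T hT
  nlinarith

theorem tot_low : ∃ K : ℝ, 0 ≤ K ∧ ∀ T : ℝ, 1 ≤ T →
    T * Real.log T / (2 * Real.pi) - K * T ≤ ∑ᶠ ρ ∈ ZZ T, (mz ρ : ℝ) := by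
  classical
  obtain ⟨K, hK, h⟩ := N_low
  refine ⟨K, hK, fun T hT => (h T hT).trans ?_⟩
  have h1 := ZZ_split hT (fun _ => True)
  have e1 : {ρ ∈ ZZ T | True} = ZZ T := by ext; simp
  have e2 : (ZT T).filter (fun _ => True) = ZT T := by simp
  rw [e1, e2] at h1
  rw [h1]
  have : 0 ≤ ∑ᶠ ρ ∈ {ρ ∈ ZZ 1 | True}, (mz ρ : ℝ) := fsum_nonneg _ _
  linarith

/-- a linear bound is negligible against the number of the zeros -/
theorem ratio_zero {b : ℝ → ℝ} (hb0 : ∀ T, 0 ≤ b T) {C : ℝ} (hb : ∀ T : ℝ, 1 ≤ T → b T ≤ C * T) :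
    Tendsto (fun T => b T / ∑ᶠ ρ ∈ ZZ T, (mz ρ : ℝ)) atTop (𝓝 0) := by
  obtain ⟨K, hK, h⟩ := tot_low
  have hC : 0 ≤ C := by
    have := hb 1 le_rfl
    have := hb0 1
    linarith
  have hpi := Real.pi_pos
  rw [Metric.tendsto_nhds]
  intro ε hε
  have hlog : ∀ᶠ T : ℝ in atTop, (K + C / ε + 1) * (2 * Real.pi) ≤ Real.log T :=
    Real.tendsto_log_atTop.eventually_ge_atTop _
  filter_upwards [hlog, eventually_ge_atTop (1:ℝ)] with T hT hT1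
  have hT0 : 0 < T := by linarith
  have h1 := h T hT1
  have h2 : (C / ε + 1) * T ≤ ∑ᶠ ρ ∈ ZZ T, (mz ρ : ℝ) := by
    refine le_trans ?_ h1
    have h3 : (K + C / ε + 1) * T ≤ T * Real.log T / (2 * Real.pi) := by
      rw [le_div_iff₀ (by positivity)]
      nlinarith
    linarith
  have hpos : 0 < ∑ᶠ ρ ∈ ZZ T, (mz ρ : ℝ) := lt_of_lt_of_le (by positivity) h2
  rw [Real.dist_eq, sub_zero, abs_of_nonneg (div_nonneg (hb0 T) hpos.le), div_lt_iff₀ hpos]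
  have h3 := hb T hT1
  have h4 : C * T < ε * ((C / ε + 1) * T) := by
    have : ε * ((C / ε + 1) * T) = C * T + ε * T := by field_simp
    rw [this]
    have : 0 < ε * T := by positivity
    linarith
  have h5 := mul_le_mul_of_nonneg_left h2 hε.le
  linarith

end

end H19.EW
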