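import Pool.Agent.H19.EW.ZUDefs

open Complex Filter Topology Set MeasureTheory

namespace ZU.J_g2b














theorem zf_one (F : ℂ → ℂ) (hF : Differentiable ℂ F) (hne : ∃ v, F v ≠ 0) (a : ℂ) :
    ∃ (n : ℕ) (G : ℂ → ℂ), Differentiable ℂ G ∧ G a ≠ 0 ∧ ∀ v, F v = (v - a) ^ n * G v := by
  have hFa : AnalyticAt ℂ F a := hF.analyticAt a
  have hnz : ¬ ∀ᶠ z in 𝓝 a, F z = 0 := by
    intro h
    obtain ⟨v, hv⟩ := hne
    have hFan : AnalyticOnNhd ℂ F univ := fun z _ => hF.analyticAt z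
    have := hFan.eqOn_zero_of_preconnected_of_eventuallyEq_zero isPreconnected_univ (mem_univ a) h
    exact hv (this (mem_univ v))
  obtain ⟨n, g, hg, hga, hgF⟩ := (hFa.exists_eventuallyEq_pow_smul_nonzero_iff).2 hnz
  refine ⟨n, fun v => if v = a then g a else F v / (v - a) ^ n, ?_, ?_, ?_⟩
  · intro v
    by_cases hv : v = a
    · subst hv
      have h1 : (fun w => if w = v then g v else F w / (w - v) ^ n) =ᶠ[𝓝 v] g := by
        filter_upwards [hgF] with w hw
        by_cases hwv : w = v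
        · rw [if_pos hwv, hwv]
        · rw [if_neg hwv, hw, smul_eq_mul, mul_div_cancel_left₀]
          exact pow_ne_zero _ (sub_ne_zero.2 hwv)
      exact hg.differentiableAt.congr_of_eventuallyEq h1
    · have h1 : (fun w => if w = a then g a else F w / (w - a) ^ n) =ᶠ[𝓝 v]
          fun w => F w / (w - a) ^ n := by
        filter_upwards [isOpen_ne.mem_nhds hv] with w hw
        exact if_neg hw
      have h2 : DifferentiableAt ℂ (fun w => F w / (w - a) ^ n) v :=
        (hF v).div ((differentiableAt_id.sub_const a).pow n) (pow_ne_zero _ (sub_ne_zero.2 hv))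
      exact h2.congr_of_eventuallyEq h1
  · show (if a = a then g a else F a / (a - a) ^ n) ≠ 0
    rw [if_pos rfl]
    exact hga
  · intro v
    by_cases hv : v = a
    · subst hv
      simp only [if_true]
      have := hgF.self_of_nhds
      rw [this, smul_eq_mul]
    · simp only [if_neg hv]
      rw [mul_div_cancel₀]
      exact pow_ne_zero _ (sub_ne_zero.2 hv)

theorem zf_many (F : ℂ → ℂ) (hF : Differentiable ℂ F) (hne : ∃ v, F v ≠ 0) (Z : Finset ℂ) :
    ∃ (s : List ℂ) (G : ℂ → ℂ), (∀ r ∈ s, r ∈ Z) ∧ Differentiable ℂ G ∧ (∀ z ∈ Z, G z ≠ 0) ∧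
      ∀ v, F v = (s.map (fun r => v - r)).prod * G v := by
  classical
  induction Z using Finset.induction_on with
  | empty =>
    refine ⟨[], F, by simp, hF, by simp, ?_⟩
    intro v
    simp
  | @insert a Z _ ih =>
    obtain ⟨s, G, hs, hG, hGZ, hFG⟩ := ih
    have hGne : ∃ v, G v ≠ 0 := by
      obtain ⟨v, hv⟩ := hne
      refine ⟨v, fun h => hv ?_⟩
      rw [hFG, h, mul_zero]
    obtain ⟨n, G', hG', hG'a, hGG'⟩ := zf_one G hG hGne a
    refine ⟨s ++ List.replicate n a, G', ?_, hG', ?_, ?_⟩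
    · intro r hr
      rcases List.mem_append.1 hr with h | h
      · exact Finset.mem_insert_of_mem (hs r h)
      · rw [List.eq_of_mem_replicate h]
        exact Finset.mem_insert_self _ _
    · intro z hz
      rcases Finset.mem_insert.1 hz with h | h
      · rw [h]; exact hG'a
      · intro h0
        apply hGZ z h
        rw [hGG', h0, mul_zero]
    · intro v
      rw [hFG, hGG', List.map_append, List.prod_append, List.map_replicate, List.prod_replicate,
        mul_assoc]

/-- `(v-1) ζ(v)` -/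
noncomputable def FF : ℂ → ℂ := Function.update (fun v => (v - 1) * riemannZeta v) 1 1

theorem FF_one : FF 1 = 1 := Function.update_self _ _ _

theorem FF_ne {v : ℂ} (hv : v ≠ 1) : FF v = (v - 1) * riemannZeta v :=
  Function.update_of_ne hv _ _

theorem FF_diff : Differentiable ℂ FF := by
  rw [← differentiableOn_univ, ← differentiableOn_compl_singleton_and_continuousAt_iff
    (c := 1) Filter.univ_mem]
  constructor
  · intro v hv
    have hv1 : v ≠ 1 := hv.2
    have h1 : FF =ᶠ[𝓝 v] fun v => (v - 1) * riemannZeta v := by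
      filter_upwards [isOpen_ne.mem_nhds hv1] with w hw
      exact FF_ne hw
    have h2 : DifferentiableAt ℂ (fun v => (v - 1) * riemannZeta v) v :=
      (differentiableAt_id.sub_const 1).mul (differentiableAt_riemannZeta hv1)
    exact (h2.congr_of_eventuallyEq h1).differentiableWithinAt
  · unfold FF
    rw [continuousAt_update_same]
    exact riemannZeta_residue_one

theorem FF_zero_re {v : ℂ} (hv : FF v = 0) : v.re < 1 := by
  have hv1 : v ≠ 1 := by
    rintro rfl
    rw [FF_one] at hv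
    exact one_ne_zero hv
  rw [FF_ne hv1] at hv
  rcases mul_eq_zero.1 hv with h | h
  · exact absurd (sub_eq_zero.1 h) hv1
  · by_contra hc
    push Not at hc
    exact riemannZeta_ne_zero_of_one_le_re hc h

/-- TARGET -/
theorem zeta_factor (σ0 B : ℝ) (h0 : 0 < σ0) : ∃ (n : ℕ) (ρ : Fin n → ℂ) (g : ℂ → ℂ),
    (∀ j, (ρ j).re < 1) ∧
    DifferentiableOn ℂ g {v | σ0 < v.re ∧ v.re < 3 ∧ |v.im| < B} ∧
    (∀ v : ℂ, σ0 < v.re → v.re < 3 → |v.im| < B → g v ≠ 0) ∧
    ∀ v : ℂ, σ0 < v.re → v.re < 3 → |v.im| < B → v ≠ 1 →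
      riemannZeta v * (v - 1) = (∏ j, (v - ρ j)) * g v := by
  have hne : ∃ v, FF v ≠ 0 := ⟨1, by rw [FF_one]; exact one_ne_zero⟩
  have hK : IsCompact (Icc σ0 3 ×ℂ Icc (-B) B) := isCompact_Icc.reProdIm isCompact_Icc
  have hfin : {v : ℂ | FF v = 0 ∧ v ∈ Icc σ0 3 ×ℂ Icc (-B) B}.Finite := by
    by_contra hinf
    have hinf' : {v : ℂ | FF v = 0 ∧ v ∈ Icc σ0 3 ×ℂ Icc (-B) B}.Infinite := hinf
    obtain ⟨x, _, hx⟩ := hinf'.exists_accPt_of_subset_isCompact hK (fun v hv => hv.2)
    rw [accPt_iff_frequently_nhdsNE] at hx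
    have hFan : AnalyticOnNhd ℂ FF univ := fun z _ => FF_diff.analyticAt z
    have := hFan.eqOn_zero_of_preconnected_of_frequently_eq_zero isPreconnected_univ (mem_univ x)
      (hx.mono (fun y hy => hy.1))
    obtain ⟨v, hv⟩ := hne
    exact hv (this (mem_univ v))
  obtain ⟨s, G, hs, hG, hGZ, hFG⟩ := zf_many FF FF_diff hne hfin.toFinset
  have hsz : ∀ r ∈ s, FF r = 0 := fun r hr => ((Set.Finite.mem_toFinset hfin).1 (hs r hr)).1
  refine ⟨s.length, fun j => s[j], G, ?_, hG.differentiableOn, ?_, ?_⟩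
  · intro j
    exact FF_zero_re (hsz _ (List.getElem_mem _))
  · intro v hv1 hv2 hv3 h
    have hv4 := abs_lt.1 hv3
    have hvK : v ∈ Icc σ0 3 ×ℂ Icc (-B) B := by
      rw [Complex.mem_reProdIm]
      exact ⟨⟨hv1.le, hv2.le⟩, ⟨hv4.1.le, hv4.2.le⟩⟩
    have hF0 : FF v = 0 := by rw [hFG, h, mul_zero]
    exact hGZ v ((Set.Finite.mem_toFinset hfin).2 ⟨hF0, hvK⟩) h
  · intro v _ _ _ hv
    have h1 := hFG v
    rw [FF_ne hv] at h1
    rw [mul_comm, h1]
    congr 1
    exact (Fin.prod_univ_fun_getElem s (fun r => v - r)).symm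


end ZU.J_g2b

alias ZU.zeta_factor := ZU.J_g2b.zeta_factor
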