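import Pool.Agent.H19.EW.Fin

/-!
# Functions with a square root main term
-/

open Complex MeasureTheory Filter Topology Set

set_option autoImplicit false
set_option linter.unusedSectionVars false
set_option linter.unusedVariables false

namespace H19.EW

open H313.TK

noncomputable section

theorem qc_BB : BB qc := by
  refine ⟨qc_QG.cont, 48, by norm_num, fun z => ⟨?_, ?_⟩⟩
  · refine (qq_bd z).trans ?_
    have : Real.exp (-(2 * |z|)) ≤ 1 := Real.exp_le_one_iff.2 (by have := abs_nonneg z; linarith)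
    linarith
  · refine (qq_bd z).trans (mul_le_mul_of_nonneg_left (Real.exp_le_exp.2 ?_) (by norm_num))
    have := neg_abs_le z
    linarith

/-! ### linearity -/

theorem QG.add {f g : ℝ → ℂ} (hf : QG f) (hg : QG g) : QG (fun t => f t + g t) := by
  obtain ⟨C1, hC1, h1⟩ := hf.bd
  obtain ⟨C2, hC2, h2⟩ := hg.bd
  refine ⟨hf.cont.add hg.cont, C1 + C2, by positivity, fun z => (norm_add_le _ _).trans ?_⟩
  rw [add_mul]
  exact add_le_add (h1 z) (h2 z)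

theorem QG.smul {f : ℝ → ℂ} (hf : QG f) (a : ℂ) : QG (fun t => a * f t) := by
  obtain ⟨C1, hC1, h1⟩ := hf.bd
  refine ⟨continuous_const.mul hf.cont, ‖a‖ * C1, by positivity, fun z => ?_⟩
  rw [norm_mul, mul_assoc]
  exact mul_le_mul_of_nonneg_left (h1 z) (norm_nonneg _)

theorem BB.add {f g : ℝ → ℂ} (hf : BB f) (hg : BB g) : BB (fun t => f t + g t) := by
  obtain ⟨C1, hC1, h1⟩ := hf.bd
  obtain ⟨C2, hC2, h2⟩ := hg.bd
  refine ⟨hf.cont.add hg.cont, C1 + C2, by positivity, fun z => ⟨(norm_add_le _ _).trans ?_, (norm_add_le _ _).trans ?_⟩⟩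
  · exact add_le_add (h1 z).1 (h2 z).1
  · rw [add_mul]
    exact add_le_add (h1 z).2 (h2 z).2

theorem BB.smul {f : ℝ → ℂ} (hf : BB f) (a : ℂ) : BB (fun t => a * f t) := by
  obtain ⟨C1, hC1, h1⟩ := hf.bd
  refine ⟨continuous_const.mul hf.cont, ‖a‖ * C1, by positivity, fun z => ?_⟩
  rw [norm_mul, mul_assoc]
  exact ⟨mul_le_mul_of_nonneg_left (h1 z).1 (norm_nonneg _), mul_le_mul_of_nonneg_left (h1 z).2 (norm_nonneg _)⟩

theorem Ist_add {f g : ℝ → ℂ} (hf : QG f) (hg : QG g) {ρ : ℂ} (hρ : ρ.re < 2) (t : ℝ) :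
    Ist ρ (fun t => f t + g t) t = Ist ρ f t + Ist ρ g t := by
  unfold Ist
  rw [← mul_add, ← integral_add (hf.qq.int ρ hρ t) (hg.qq.int ρ hρ t)]
  congr 1
  refine integral_congr_ae (ae_of_all _ fun z => ?_)
  ring

theorem Ist_smul (f : ℝ → ℂ) (ρ a : ℂ) (t : ℝ) : Ist ρ (fun t => a * f t) t = a * Ist ρ f t := by
  unfold Ist
  have h : ∫ z in Iic t, cexp (-ρ * z) * (a * f z) = a * ∫ z in Iic t, cexp (-ρ * z) * f z := by
    rw [← integral_const_mul]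
    refine integral_congr_ae (ae_of_all _ fun z => ?_)
    ring
  rw [h]
  ring

theorem TT_add {f g : ℝ → ℂ} (hf : BB f) (hg : BB g) {s : ℂ} (h0 : 0 < s.re) (h2 : s.re < 2) :
    TT (fun t => f t + g t) s = TT f s + TT g s := by
  unfold TT
  rw [← integral_add (hf.int h0 h2) (hg.int h0 h2)]
  refine integral_congr_ae (ae_of_all _ fun z => ?_)
  ring

theorem TT_smul (f : ℝ → ℂ) (a s : ℂ) : TT (fun t => a * f t) s = a * TT f s := by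
  unfold TT
  rw [← integral_const_mul]
  refine integral_congr_ae (ae_of_all _ fun z => ?_)
  ring

/-! ### the resolvent identity -/

theorem Ist_resolvent {g : ℝ → ℂ} (hg : QG g) {ρ σ : ℂ} (hρ : ρ.re < 2) (hσ : σ.re < 2) (hne : σ ≠ ρ) (t : ℝ) :
    Ist ρ (Ist σ g) t = (Ist σ g t - Ist ρ g t) / (σ - ρ) := by
  have hd0 : σ - ρ ≠ 0 := sub_ne_zero.2 hne
  have hS := Ist_QG hg σ hσ
  have hR := Ist_QG hg ρ hρ
  have hSR := Ist_QG hS ρ hρ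
  set D : ℝ → ℂ := fun t => Ist ρ (Ist σ g) t - (Ist σ g t - Ist ρ g t) / (σ - ρ) with hD
  have hDd : ∀ t, HasDerivAt D (ρ * D t) t := by
    intro t
    have h1 := Ist_deriv hS.cont (hS.qq.int ρ hρ) t
    have h2 := Ist_deriv hg.cont (hg.qq.int σ hσ) t
    have h3 := Ist_deriv hg.cont (hg.qq.int ρ hρ) t
    refine (h1.sub ((h2.sub h3).div_const (σ - ρ))).congr_deriv ?_
    simp only [hD]
    field_simp
    ring
  set E : ℝ → ℂ := fun t => cexp (-ρ * t) * D t with hE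
  have hEd : ∀ t, HasDerivAt E 0 t := by
    intro t
    have h3 : HasDerivAt (fun v : ℝ => cexp (-ρ * v)) (cexp (-ρ * t) * (-ρ)) t := by
      have h4 : HasDerivAt (fun z : ℝ => -ρ * (z : ℂ)) (-ρ * 1) t := ((hasDerivAt_id t).ofReal_comp).const_mul (-ρ)
      simpa using h4.cexp
    refine (h3.mul (hDd t)).congr_deriv ?_
    ring
  have hconst : ∀ x y, E x = E y := is_const_of_deriv_eq_zero (fun t => (hEd t).differentiableAt) fun t => (hEd t).deriv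
  obtain ⟨C1, hC1, b1⟩ := hSR.bd
  obtain ⟨C2, hC2, b2⟩ := hS.bd
  obtain ⟨C3, hC3, b3⟩ := hR.bd
  set C : ℝ := C1 + (C2 + C3) / ‖σ - ρ‖ with hC
  have hEb : ∀ x, ‖E x‖ ≤ C * Real.exp ((2 - ρ.re) * x) := by
    intro x
    have h1 : ‖D x‖ ≤ C * Real.exp (2 * x) := by
      simp only [hD]
      refine (norm_sub_le _ _).trans ?_
      rw [norm_div]
      have h2 : ‖Ist σ g x - Ist ρ g x‖ ≤ (C2 + C3) * Real.exp (2 * x) := by
        refine (norm_sub_le _ _).trans ?_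
        rw [add_mul]
        exact add_le_add (b2 x) (b3 x)
      have h3 : ‖Ist σ g x - Ist ρ g x‖ / ‖σ - ρ‖ ≤ (C2 + C3) / ‖σ - ρ‖ * Real.exp (2 * x) := by
        rw [div_mul_eq_mul_div]
        exact div_le_div_of_nonneg_right h2 (norm_nonneg _)
      calc _ ≤ C1 * Real.exp (2 * x) + (C2 + C3) / ‖σ - ρ‖ * Real.exp (2 * x) := add_le_add (b1 x) h3
        _ = _ := by rw [hC]; ring
    simp only [hE]
    rw [norm_mul, norm_tw]
    calc Real.exp (-ρ.re * x) * ‖D x‖ ≤ Real.exp (-ρ.re * x) * (C * Real.exp (2 * x)) :=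
          mul_le_mul_of_nonneg_left h1 (Real.exp_pos _).le
      _ = C * (Real.exp (-ρ.re * x) * Real.exp (2 * x)) := by ring
      _ = _ := by rw [← Real.exp_add]; congr 2; ring
  have hE0 : E t = 0 := by
    have hlim : Tendsto (fun x : ℝ => C * Real.exp ((2 - ρ.re) * x)) atBot (𝓝 (C * 0)) := by
      refine Tendsto.const_mul _ (Real.tendsto_exp_atBot.comp ?_)
      exact Tendsto.const_mul_atBot (by linarith) tendsto_id
    rw [mul_zero] at hlim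
    have h2 : ‖E t‖ ≤ 0 := by
      refine ge_of_tendsto' hlim fun x => ?_
      rw [hconst t x]
      exact hEb x
    exact norm_le_zero_iff.1 h2
  have hD0 : D t = 0 := by
    simp only [hE] at hE0
    exact (mul_eq_zero.1 hE0).resolve_left (Complex.exp_ne_zero _)
  simp only [hD] at hD0
  exact sub_eq_zero.1 hD0

/-! ### the main term -/

/-- normalised block with transform `1` at `1/2` -/
def q0 (v : ℝ) : ℂ := (qh (1 / 2))⁻¹ * qc v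

theorem qh_half : qh (1 / 2) ≠ 0 := qh_ne _ (by norm_num) (by norm_num)

theorem q0_BB : BB q0 := qc_BB.smul _

theorem TT_qc (s : ℂ) : TT qc s = qh s := rfl

theorem TT_q0 (s : ℂ) : TT q0 s = (qh (1 / 2))⁻¹ * qh s := by
  have := TT_smul qc (qh (1 / 2))⁻¹ s
  rw [TT_qc] at this
  exact this

theorem TT_q0_half : TT q0 (1 / 2) = 1 := by
  rw [TT_q0, inv_mul_cancel₀ qh_half]

/-- a function asymptotic to `e^{t/2}` -/
def Th0 : ℝ → ℂ := Ist (1 / 2) q0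

theorem Th0_QG : QG Th0 := Ist_QG q0_BB.qg _ (by norm_num)

theorem Th0_asy : ∃ C : ℝ, 0 ≤ C ∧ ∀ t : ℝ, ‖Th0 t - cexp ((1 / 2 : ℂ) * t)‖ ≤ C := by
  obtain ⟨C, hC, h⟩ := q0_BB.tail (ρ := 1 / 2) (by norm_num) (by norm_num)
  refine ⟨C, hC, fun t => ?_⟩
  have := h t
  rw [TT_q0_half, mul_one] at this
  exact this

/-- the function `κ Θ + b` -/
def FB (κ : ℂ) (b : ℝ → ℂ) (t : ℝ) : ℂ := κ * Th0 t + b t

/-- the transform of `κ Θ + b` -/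
def LL (κ : ℂ) (b : ℝ → ℂ) (s : ℂ) : ℂ := TT b s + κ * (TT q0 s / (s - 1 / 2))

/-- the next bounded part -/
def nb (ρ κ : ℂ) (b : ℝ → ℂ) : ℝ → ℂ := Ist ρ (fun t => b t + (-(κ / (1 / 2 - ρ))) * q0 t)

theorem pre_BB {b : ℝ → ℂ} (hb : BB b) (κ' : ℂ) : BB (fun t => b t + (-κ') * q0 t) := hb.add (q0_BB.smul _)

theorem FB_step {κ : ℂ} {b : ℝ → ℂ} (hb : BB b) {ρ : ℂ} (h2 : ρ.re < 2) (hne : ρ ≠ 1 / 2) :
    Ist ρ (FB κ b) = FB (κ / (1 / 2 - ρ)) (nb ρ κ b) := by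
  funext t
  have hd : (1 / 2 : ℂ) - ρ ≠ 0 := sub_ne_zero.2 (Ne.symm hne)
  have e1 : Ist ρ (FB κ b) t = κ * Ist ρ Th0 t + Ist ρ b t := by
    have := Ist_add (Th0_QG.smul κ) hb.qg h2 t
    rw [Ist_smul] at this
    exact this
  have e2 : Ist ρ Th0 t = (Th0 t - Ist ρ q0 t) / (1 / 2 - ρ) :=
    Ist_resolvent q0_BB.qg h2 (by norm_num) (Ne.symm hne) t
  have e3 : nb ρ κ b t = Ist ρ b t + (-(κ / (1 / 2 - ρ))) * Ist ρ q0 t := by
    unfold nb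
    rw [Ist_add hb.qg (q0_BB.smul _).qg h2, Ist_smul]
  unfold FB
  rw [e3]
  have e4 : Ist ρ (fun t => κ * Th0 t + b t) t = κ * Ist ρ Th0 t + Ist ρ b t := e1
  rw [e4, e2]
  field_simp
  ring

theorem pre_TT {b : ℝ → ℂ} (hb : BB b) (κ' : ℂ) {s : ℂ} (h0 : 0 < s.re) (h2 : s.re < 2) :
    TT (fun t => b t + (-κ') * q0 t) s = TT b s - κ' * TT q0 s := by
  rw [TT_add hb (q0_BB.smul _) h0 h2, TT_smul]
  ring

theorem LL_at {κ : ℂ} {b : ℝ → ℂ} (hb : BB b) {ρ : ℂ} (h0 : 0 < ρ.re) (h2 : ρ.re < 2) (hne : ρ ≠ 1 / 2) :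
    TT (fun t => b t + (-(κ / (1 / 2 - ρ))) * q0 t) ρ = LL κ b ρ := by
  rw [pre_TT hb _ h0 h2]
  unfold LL
  have hd : (1 / 2 : ℂ) - ρ ≠ 0 := sub_ne_zero.2 (Ne.symm hne)
  have hd' : ρ - 1 / 2 ≠ 0 := sub_ne_zero.2 hne
  rw [show κ / (1 / 2 - ρ) = -(κ / (ρ - 1 / 2)) by rw [← div_neg, neg_sub]]
  ring

theorem nb_BB {κ : ℂ} {b : ℝ → ℂ} (hb : BB b) {ρ : ℂ} (h0 : 0 < ρ.re) (h2 : ρ.re < 2) (hne : ρ ≠ 1 / 2)
    (hz : LL κ b ρ = 0) : BB (nb ρ κ b) :=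
  Ist_BB (pre_BB hb _) h0 h2 (by rw [LL_at hb h0 h2 hne, hz])

theorem LL_step {κ : ℂ} {b : ℝ → ℂ} (hb : BB b) {ρ : ℂ} (h0 : 0 < ρ.re) (h2 : ρ.re < 2) (hne : ρ ≠ 1 / 2)
    (hz : LL κ b ρ = 0) {s : ℂ} (hs0 : 0 < s.re) (hs2 : s.re < 2) (hs : s ≠ 1 / 2) :
    LL κ b s = (s - ρ) * LL (κ / (1 / 2 - ρ)) (nb ρ κ b) s := by
  have hd : (1 / 2 : ℂ) - ρ ≠ 0 := sub_ne_zero.2 (Ne.symm hne)
  have hs' : s - 1 / 2 ≠ 0 := sub_ne_zero.2 hs
  have h1 := BB_TT (pre_BB hb (κ / (1 / 2 - ρ))) h0 h2 (by rw [LL_at hb h0 h2 hne, hz]) hs0 hs2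
  rw [pre_TT hb _ hs0 hs2] at h1
  have h3 : TT (nb ρ κ b) s = TT (Ist ρ fun t => b t + -(κ / (1 / 2 - ρ)) * q0 t) s := rfl
  unfold LL
  rw [h3, mul_add, ← h1]
  have e : s - ρ = (s - 1 / 2) + (1 / 2 - ρ) := by ring
  rw [e]
  generalize s - 1 / 2 = X at *
  generalize 1 / 2 - ρ = Y at *
  field_simp
  ring

theorem LL_an {κ : ℂ} {b : ℝ → ℂ} (hb : BB b) {s : ℂ} (hs0 : 0 < s.re) (hs2 : s.re < 2) (hs : s ≠ 1 / 2) :
    AnalyticAt ℂ (LL κ b) s := by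
  have hs' : s - 1 / 2 ≠ 0 := sub_ne_zero.2 hs
  have h1 := hb.an hs0 hs2
  have h2 := q0_BB.an hs0 hs2
  have h3 : AnalyticAt ℂ (fun s : ℂ => s - 1 / 2) s := by fun_prop
  exact h1.add (analyticAt_const.mul (h2.div h3 hs'))

theorem near_dom {ρ : ℂ} (h0 : 0 < ρ.re) (h2 : ρ.re < 2) (hne : ρ ≠ 1 / 2) :
    ∀ᶠ s : ℂ in 𝓝 ρ, (0 < s.re ∧ s.re < 2) ∧ s ≠ 1 / 2 :=
  (near_strip h0 h2).and (isOpen_ne.mem_nhds hne)

theorem LL_order {κ : ℂ} {b : ℝ → ℂ} (hb : BB b) {ρ : ℂ} (h0 : 0 < ρ.re) (h2 : ρ.re < 2) (hne : ρ ≠ 1 / 2)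
    (hz : LL κ b ρ = 0) :
    analyticOrderAt (LL κ b) ρ = analyticOrderAt (LL (κ / (1 / 2 - ρ)) (nb ρ κ b)) ρ + 1 := by
  refine order_step (LL_an (nb_BB hb h0 h2 hne hz) h0 h2 hne) ?_
  filter_upwards [near_dom h0 h2 hne] with s hs
  exact LL_step hb h0 h2 hne hz hs.1.1 hs.1.2 hs.2

theorem FB_iter {κ : ℂ} {b : ℝ → ℂ} (hb : BB b) {ρ : ℂ} (h0 : 0 < ρ.re) (h2 : ρ.re < 2) (hne : ρ ≠ 1 / 2) :
    ∀ j : ℕ, (j : ℕ∞) ≤ analyticOrderAt (LL κ b) ρ → ∃ b' : ℝ → ℂ, BB b' ∧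
      (Ist ρ)^[j] (FB κ b) = FB (κ / (1 / 2 - ρ) ^ j) b' ∧
      analyticOrderAt (LL κ b) ρ = analyticOrderAt (LL (κ / (1 / 2 - ρ) ^ j) b') ρ + j := by
  intro j
  induction j with
  | zero =>
    intro _
    refine ⟨b, hb, ?_, ?_⟩
    · simp
    · simp
  | succ j ih =>
    intro hj
    obtain ⟨b', hb', e1, h3⟩ := ih (le_trans (by exact_mod_cast Nat.le_succ j) hj)
    have h4 : analyticOrderAt (LL (κ / (1 / 2 - ρ) ^ j) b') ρ ≠ 0 := by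
      intro h
      rw [h3, h, zero_add] at hj
      have : (j + 1 : ℕ) ≤ j := by exact_mod_cast hj
      omega
    have h5 : LL (κ / (1 / 2 - ρ) ^ j) b' ρ = 0 := by
      by_contra h6
      exact h4 ((LL_an hb' h0 h2 hne).analyticOrderAt_eq_zero.2 h6)
    have e0 : κ / (1 / 2 - ρ) ^ (j + 1) = κ / (1 / 2 - ρ) ^ j / (1 / 2 - ρ) := by
      rw [pow_succ, div_div]
    refine ⟨nb ρ (κ / (1 / 2 - ρ) ^ j) b', nb_BB hb' h0 h2 hne h5, ?_, ?_⟩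
    · rw [Function.iterate_succ_apply', e1, FB_step hb' h2 hne, e0]
    · rw [h3, LL_order hb' h0 h2 hne h5, e0]
      push_cast
      rw [add_assoc, add_comm (1 : ℕ∞)]

/-- **Growth after the critical number of steps.** -/
theorem FB_grow {κ : ℂ} {b : ℝ → ℂ} (hb : BB b) {ρ : ℂ} (h0 : 0 < ρ.re) (h2 : ρ.re < 2) (hne : ρ ≠ 1 / 2)
    {k : ℕ} (hk : analyticOrderAt (LL κ b) ρ = k) :
    ∃ A C : ℝ, 0 < A ∧ 0 ≤ C ∧ ∀ t : ℝ, A * Real.exp (ρ.re * t) - C ≤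
      ‖(Ist ρ)^[k + 1] (FB κ b) t - κ / (1 / 2 - ρ) ^ (k + 1) * Th0 t‖ := by
  obtain ⟨b', hb', e1, h3⟩ := FB_iter hb h0 h2 hne k hk.ge
  have hL : LL (κ / (1 / 2 - ρ) ^ k) b' ρ ≠ 0 := by
    rw [hk] at h3
    have h4 : analyticOrderAt (LL (κ / (1 / 2 - ρ) ^ k) b') ρ = 0 := by
      have h5 : analyticOrderAt (LL (κ / (1 / 2 - ρ) ^ k) b') ρ + (k : ℕ∞) = 0 + k := by rw [← h3, zero_add]
      simpa using h5
    exact (LL_an hb' h0 h2 hne).analyticOrderAt_eq_zero.1 h4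
  have e0 : κ / (1 / 2 - ρ) ^ (k + 1) = κ / (1 / 2 - ρ) ^ k / (1 / 2 - ρ) := by
    rw [pow_succ, div_div]
  obtain ⟨C, hC, hasy⟩ := (pre_BB hb' (κ / (1 / 2 - ρ) ^ k / (1 / 2 - ρ))).tail h0 h2
  refine ⟨‖LL (κ / (1 / 2 - ρ) ^ k) b' ρ‖, C, norm_pos_iff.2 hL, hC, fun t => ?_⟩
  have e2 : (Ist ρ)^[k + 1] (FB κ b) t - κ / (1 / 2 - ρ) ^ (k + 1) * Th0 t = nb ρ (κ / (1 / 2 - ρ) ^ k) b' t := by
    rw [Function.iterate_succ_apply', e1, FB_step hb' h2 hne, e0]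
    unfold FB
    ring
  rw [e2]
  have h6 := hasy t
  rw [LL_at hb' h0 h2 hne] at h6
  have h7 : ‖cexp (ρ * t) * LL (κ / (1 / 2 - ρ) ^ k) b' ρ‖ =
      ‖LL (κ / (1 / 2 - ρ) ^ k) b' ρ‖ * Real.exp (ρ.re * t) := by rw [norm_mul, norm_tw', mul_comm]
  have h8 : ‖cexp (ρ * t) * LL (κ / (1 / 2 - ρ) ^ k) b' ρ‖ ≤ ‖nb ρ (κ / (1 / 2 - ρ) ^ k) b' t‖ +
      ‖nb ρ (κ / (1 / 2 - ρ) ^ k) b' t - cexp (ρ * t) * LL (κ / (1 / 2 - ρ) ^ k) b' ρ‖ := by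
    rw [← norm_neg (nb ρ (κ / (1 / 2 - ρ) ^ k) b' t - _)]
    refine le_trans (le_of_eq ?_) (norm_add_le _ _)
    congr 1
    ring
  have h9 : ‖nb ρ (κ / (1 / 2 - ρ) ^ k) b' t - cexp (ρ * t) * LL (κ / (1 / 2 - ρ) ^ k) b' ρ‖ ≤ C := h6
  rw [h7] at h8
  linarith

end

end H19.EW
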