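import Pool.Agent.H19.EW.P1

/-!
# The sum over squares
-/

open Complex MeasureTheory Filter Topology Set

set_option autoImplicit false
set_option linter.unusedSectionVars false
set_option linter.unusedVariables false

namespace H19.EW

open H313.TK

noncomputable section

/-! ### the derivative of the block -/

/-- derivative of the building block -/
def dqr (v : ℝ) : ℝ := (Real.pi / 2) * Real.exp (-v) ^ 2 * Real.exp (-(Real.pi / 4) * Real.exp (-v) ^ 2) -
  6 * Real.pi * Real.exp (-v) ^ 2 * Real.exp (-Real.pi * Real.exp (-v) ^ 2) +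
  16 * Real.pi * Real.exp (-v) ^ 2 * Real.exp (-(4 * Real.pi) * Real.exp (-v) ^ 2)

def dq (v : ℝ) : ℂ := (dqr v : ℂ)

theorem dqr_deriv (v : ℝ) : HasDerivAt qq (dqr v) v := by
  have h1 : HasDerivAt (fun v : ℝ => Real.exp (-v)) (-Real.exp (-v)) v := by
    have := (hasDerivAt_neg v).exp
    simpa using this
  have h2 : HasDerivAt (fun v : ℝ => Real.exp (-v) ^ 2) (2 * Real.exp (-v) * (-Real.exp (-v))) v := by
    have := h1.fun_pow 2
    simpa using this
  have h3 : ∀ a : ℝ, HasDerivAt (fun v : ℝ => Real.exp (a * Real.exp (-v) ^ 2))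
      (Real.exp (a * Real.exp (-v) ^ 2) * (a * (2 * Real.exp (-v) * (-Real.exp (-v))))) v := fun a => (h2.const_mul a).exp
  have h4 := ((h3 (-(Real.pi / 4))).sub ((h3 (-Real.pi)).const_mul 3)).add ((h3 (-(4 * Real.pi))).const_mul 2)
  refine h4.congr_deriv ?_
  unfold dqr
  ring

theorem dqr_abs (v : ℝ) : |dqr v| ≤ 1000 * Real.exp (-(2 * |v|)) := by
  have hp := Real.pi_gt_three
  have hp4 := Real.pi_lt_four
  set x := Real.exp (-v) ^ 2 with hx
  have hx0 : 0 < x := by positivity
  have hxe : x = Real.exp (-(2 * v)) := by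
    rw [hx, ← Real.exp_nat_mul]; congr 1; push_cast; ring
  have hterm : ∀ a : ℝ, Real.pi / 4 ≤ a → Real.exp (-a * x) ≤ 1 ∧ x * Real.exp (-a * x) ≤ 8 * (1 / x) := by
    intro a ha
    have ha0 : 0 < a := by linarith
    constructor
    · exact Real.exp_le_one_iff.2 (by nlinarith)
    · have h1 : (a * x) ^ 2 / 2 ≤ Real.exp (a * x) := by
        have := Real.quadratic_le_exp_of_nonneg (x := a * x) (by positivity)
        have h2 : 0 ≤ a * x := by positivity
        nlinarith
      have h2 : Real.exp (-a * x) = 1 / Real.exp (a * x) := by rw [neg_mul, Real.exp_neg, inv_eq_one_div]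
      rw [h2]
      have h3 : 1 / Real.exp (a * x) ≤ 1 / ((a * x) ^ 2 / 2) := one_div_le_one_div_of_le (by positivity) h1
      calc x * (1 / Real.exp (a * x)) ≤ x * (1 / ((a * x) ^ 2 / 2)) := mul_le_mul_of_nonneg_left h3 hx0.le
        _ = (2 / a ^ 2) * (1 / x) := by field_simp
        _ ≤ 8 * (1 / x) := by
            refine mul_le_mul_of_nonneg_right ?_ (by positivity)
            rw [div_le_iff₀ (by positivity)]
            nlinarith
  have t1 := hterm (Real.pi / 4) le_rfl
  have t2 := hterm Real.pi (by linarith)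
  have t3 := hterm (4 * Real.pi) (by linarith)
  have p1 := Real.exp_pos (-(Real.pi / 4) * x)
  have p2 := Real.exp_pos (-Real.pi * x)
  have p3 := Real.exp_pos (-(4 * Real.pi) * x)
  have hd : dqr v = (Real.pi / 2) * (x * Real.exp (-(Real.pi / 4) * x)) - 6 * Real.pi * (x * Real.exp (-Real.pi * x)) +
      16 * Real.pi * (x * Real.exp (-(4 * Real.pi) * x)) := by
    unfold dqr
    rw [← hx]
    ring
  have q1 : 0 < x * Real.exp (-(Real.pi / 4) * x) := by positivity
  have q2 : 0 < x * Real.exp (-Real.pi * x) := by positivity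
  have q3 : 0 < x * Real.exp (-(4 * Real.pi) * x) := by positivity
  have hM : ∀ M : ℝ, 0 ≤ M → x * Real.exp (-(Real.pi / 4) * x) ≤ M → x * Real.exp (-Real.pi * x) ≤ M →
      x * Real.exp (-(4 * Real.pi) * x) ≤ M → |dqr v| ≤ 100 * M := by
    intro M hM0 m1 m2 m3
    rw [hd, abs_le]
    constructor
    · have a1 : 0 ≤ (Real.pi / 2) * (x * Real.exp (-(Real.pi / 4) * x)) := by positivity
      have a3 : 0 ≤ 16 * Real.pi * (x * Real.exp (-(4 * Real.pi) * x)) := by positivity
      have a2 : 6 * Real.pi * (x * Real.exp (-Real.pi * x)) ≤ 24 * M := by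
        calc _ ≤ 24 * (x * Real.exp (-Real.pi * x)) := mul_le_mul_of_nonneg_right (by linarith) q2.le
          _ ≤ _ := mul_le_mul_of_nonneg_left m2 (by norm_num)
      linarith
    · have a2 : 0 ≤ 6 * Real.pi * (x * Real.exp (-Real.pi * x)) := by positivity
      have a1 : (Real.pi / 2) * (x * Real.exp (-(Real.pi / 4) * x)) ≤ 2 * M := by
        calc _ ≤ 2 * (x * Real.exp (-(Real.pi / 4) * x)) := mul_le_mul_of_nonneg_right (by linarith) q1.le
          _ ≤ _ := mul_le_mul_of_nonneg_left m1 (by norm_num)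
      have a3 : 16 * Real.pi * (x * Real.exp (-(4 * Real.pi) * x)) ≤ 64 * M := by
        calc _ ≤ 64 * (x * Real.exp (-(4 * Real.pi) * x)) := mul_le_mul_of_nonneg_right (by linarith) q3.le
          _ ≤ _ := mul_le_mul_of_nonneg_left m3 (by norm_num)
      linarith
  rcases le_total 0 v with hv | hv
  · rw [abs_of_nonneg hv, ← hxe]
    have h := hM x hx0.le (by nlinarith [t1.1]) (by nlinarith [t2.1]) (by nlinarith [t3.1])
    linarith
  · have h1 : Real.exp (-(2 * |v|)) = 1 / x := by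
      rw [abs_of_nonpos hv, hxe, one_div, ← Real.exp_neg]
      congr 1
      ring
    rw [h1]
    have h := hM (8 * (1 / x)) (by positivity) t1.2 t2.2 t3.2
    have : 0 < 1 / x := by positivity
    linarith

theorem dqr_cont : Continuous dqr := by unfold dqr; fun_prop

theorem dq_bd (v : ℝ) : ‖dq v‖ ≤ 1000 * Real.exp (-(2 * |v|)) := by
  unfold dq
  rw [Complex.norm_real, Real.norm_eq_abs]
  exact dqr_abs v

theorem dq_QG : QG dq := by
  refine ⟨Complex.continuous_ofReal.comp dqr_cont, 1000, by norm_num, fun z => (dq_bd z).trans ?_⟩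
  refine mul_le_mul_of_nonneg_left (Real.exp_le_exp.2 ?_) (by norm_num)
  have := neg_abs_le z
  linarith

theorem dq_int : Integrable dq := by
  refine ((int_exp_abs 2 (by norm_num)).const_mul 1000).mono' ?_ (ae_of_all _ fun y => dq_bd y)
  exact dq_QG.cont.aestronglyMeasurable

theorem qc_lim_bot : Tendsto qc atBot (𝓝 0) := by
  have h1 : Tendsto (fun z : ℝ => 48 * Real.exp (-(2 * |z|))) atBot (𝓝 (48 * 0)) := by
    refine Tendsto.const_mul _ (Real.tendsto_exp_atBot.comp ?_)
    refine tendsto_neg_atTop_atBot.comp ?_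
    exact Tendsto.const_mul_atTop (by norm_num) tendsto_abs_atBot_atTop
  rw [mul_zero] at h1
  exact squeeze_zero_norm (fun z => qq_bd z) h1

theorem qc_lim_top : Tendsto qc atTop (𝓝 0) := by
  have h1 : Tendsto (fun z : ℝ => 48 * Real.exp (-(2 * |z|))) atTop (𝓝 (48 * 0)) := by
    refine Tendsto.const_mul _ (Real.tendsto_exp_atBot.comp ?_)
    refine tendsto_neg_atTop_atBot.comp ?_
    exact Tendsto.const_mul_atTop (by norm_num) tendsto_abs_atTop_atTop
  rw [mul_zero] at h1
  exact squeeze_zero_norm (fun z => qq_bd z) h1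

theorem qc_deriv (v : ℝ) : HasDerivAt qc (dq v) v := (dqr_deriv v).ofReal_comp

theorem qc_Ist : Ist 0 dq = qc := by
  funext v
  unfold Ist
  have h := integral_Iic_of_hasDerivAt_of_tendsto (a := v) (f := qc) (f' := dq) (m := 0)
    qc_QG.cont.continuousWithinAt (fun x _ => qc_deriv x) dq_int.integrableOn qc_lim_bot
  simp only [neg_zero, zero_mul, Complex.exp_zero, one_mul]
  rw [h, sub_zero]

theorem dq_zero : ∫ v, dq v = 0 := by
  have h := integral_of_hasDerivAt_of_tendsto (fun x => qc_deriv x) dq_int qc_lim_bot qc_lim_top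
  rw [h, sub_zero]

/-- the derivative of the convolution is integrable -/
theorem g1_bd {a b c B α : ℝ} {w : ℝ → ℝ} (h : Tame a b w c B α) :
    ∃ C : ℝ, 0 ≤ C ∧ ∀ t, ‖CV w dq t‖ ≤ C * Real.exp (-(1 * |t|)) := by
  have hw := h.wt
  obtain ⟨C1, hC1, hb1⟩ := (CV_QG hw dq_QG).bd
  obtain ⟨C, hC, hb⟩ := vv_exp h 1 (by norm_num)
  have hwm := h.meas
  have hwc : ∀ y : ℝ, |w (Real.exp (-y)) - c| ≤ (C + |c|) * Real.exp (-y) := by
    intro y
    have h1 := hb y
    unfold vv at h1
    rw [Complex.norm_real, Real.norm_eq_abs] at h1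
    have hc0 := abs_nonneg c
    rcases le_or_gt 0 y with hy | hy
    · rw [if_pos hy, abs_of_nonneg hy, one_mul] at h1
      refine h1.trans (mul_le_mul_of_nonneg_right (by linarith) (Real.exp_pos _).le)
    · rw [if_neg (not_le.2 hy), sub_zero, one_mul] at h1
      have h2 : 1 ≤ Real.exp (-y) := Real.one_le_exp (by linarith)
      have h3 : Real.exp (-|y|) ≤ 1 := Real.exp_le_one_iff.2 (by have := abs_nonneg y; linarith)
      calc |w (Real.exp (-y)) - c| ≤ |w (Real.exp (-y))| + |c| := abs_sub _ _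
        _ ≤ C * 1 + |c| := add_le_add (h1.trans (mul_le_mul_of_nonneg_left h3 hC)) le_rfl
        _ ≤ (C + |c|) * Real.exp (-y) := by nlinarith
  have hdc := dq_QG.cont
  set M : ℝ := (C + |c|) * 1000 * ∫ y : ℝ, Real.exp (-(1 * |y|)) with hM
  have hI : 0 ≤ ∫ y : ℝ, Real.exp (-(1 * |y|)) := integral_nonneg fun y => (Real.exp_pos _).le
  have hM0 : 0 ≤ M := by positivity
  have hexp : ∀ t, ‖CV w dq t‖ ≤ M * Real.exp (-t) := by
    intro t
    have e1 : CV w dq t = ∫ y : ℝ, ((w (Real.exp (-y)) - c : ℝ) : ℂ) * dq (t - y) := by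
      rw [CV_eq]
      have h0 : ∫ y : ℝ, (c : ℂ) * dq (t - y) = 0 := by
        rw [integral_const_mul, integral_sub_left_eq_self, dq_zero, mul_zero]
      have hi1 : Integrable (fun y : ℝ => (w (Real.exp (-y)) : ℂ) * dq (t - y)) := by
        obtain ⟨Bw, hBw, hwb⟩ := hw.bd
        obtain ⟨Cg, hCg, hbg⟩ := dq_QG.bd
        refine ((int_exp_abs 2 (by norm_num)).const_mul (Bw * Cg * Real.exp (2 * t))).mono' ?_
          (ae_of_all _ fun y => cv_bd hBw hwb hCg hbg t y)
        exact (by fun_prop : Measurable fun y => (w (Real.exp (-y)) : ℂ) * dq (t - y)).aestronglyMeasurable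
      have hi2 : Integrable (fun y : ℝ => (c : ℂ) * dq (t - y)) := (dq_int.comp_sub_left t).const_mul _
      rw [← sub_zero (∫ y : ℝ, (w (Real.exp (-y)) : ℂ) * dq (t - y)), ← h0, ← integral_sub hi1 hi2]
      refine integral_congr_ae (ae_of_all _ fun y => ?_)
      simp only
      push_cast
      ring
    rw [e1]
    have hpt : ∀ y : ℝ, ‖((w (Real.exp (-y)) - c : ℝ) : ℂ) * dq (t - y)‖ ≤
        (C + |c|) * 1000 * Real.exp (-t) * Real.exp (-(1 * |t - y|)) := by
      intro y
      rw [norm_mul, Complex.norm_real, Real.norm_eq_abs]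
      calc |w (Real.exp (-y)) - c| * ‖dq (t - y)‖ ≤ ((C + |c|) * Real.exp (-y)) * (1000 * Real.exp (-(2 * |t - y|))) :=
            mul_le_mul (hwc y) (dq_bd _) (norm_nonneg _) (by positivity)
        _ = (C + |c|) * 1000 * (Real.exp (-y) * Real.exp (-(2 * |t - y|))) := by ring
        _ ≤ (C + |c|) * 1000 * (Real.exp (-t) * Real.exp (-(1 * |t - y|))) := by
            refine mul_le_mul_of_nonneg_left ?_ (by positivity)
            rw [← Real.exp_add, ← Real.exp_add]
            refine Real.exp_le_exp.2 ?_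
            have := le_abs_self (t - y)
            linarith
        _ = _ := by ring
    refine (norm_integral_le_of_norm_le (((int_exp_abs 1 one_pos).comp_sub_left t).const_mul _)
      (ae_of_all _ hpt)).trans (le_of_eq ?_)
    rw [integral_const_mul, integral_sub_left_eq_self (fun y : ℝ => Real.exp (-(1 * |y|)))]
    rw [hM]
    ring
  refine ⟨max C1 M, le_max_of_le_left hC1, fun t => ?_⟩
  rcases le_total 0 t with ht | ht
  · rw [abs_of_nonneg ht, one_mul]
    exact (hexp t).trans (mul_le_mul_of_nonneg_right (le_max_right _ _) (Real.exp_pos _).le)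
  · rw [abs_of_nonpos ht, one_mul, neg_neg]
    refine (hb1 t).trans (mul_le_mul (le_max_left _ _) (Real.exp_le_exp.2 (by linarith)) (Real.exp_pos _).le
      (le_max_of_le_left hC1))

/-! ### the sum over squares -/

/-- the sum over the squares -/
def S2 (G : ℝ → ℂ) (t : ℝ) : ℂ := ∑' k : ℕ, G (t - 2 * Real.log ((k : ℝ) + 1))

theorem sh_exp (t : ℝ) (k : ℕ) : Real.exp (2 * (t - 2 * Real.log ((k : ℝ) + 1))) ≤
    Real.exp (2 * t) * (1 / ((k : ℝ) + 1) ^ 2) := by
  have h1 := exp_shift2 (t - Real.log ((k : ℝ) + 1)) k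
  have h2 : t - Real.log ((k : ℝ) + 1) - Real.log ((k : ℝ) + 1) = t - 2 * Real.log ((k : ℝ) + 1) := by ring
  rw [h2] at h1
  rw [h1]
  refine mul_le_mul_of_nonneg_right (Real.exp_le_exp.2 ?_) (by positivity)
  have := log_n k
  linarith

theorem QG.sh {G : ℝ → ℂ} {C : ℝ} (hC : 0 ≤ C) (hb : ∀ z, ‖G z‖ ≤ C * Real.exp (2 * z)) (t : ℝ) (k : ℕ) :
    ‖G (t - 2 * Real.log ((k : ℝ) + 1))‖ ≤ C * Real.exp (2 * t) * (1 / ((k : ℝ) + 1) ^ 2) := by
  refine (hb _).trans ?_
  rw [mul_assoc]
  exact mul_le_mul_of_nonneg_left (sh_exp t k) hC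

theorem S2_summable {G : ℝ → ℂ} (hG : QG G) (t : ℝ) : Summable (fun k : ℕ => G (t - 2 * Real.log ((k : ℝ) + 1))) := by
  obtain ⟨C, hC, hb⟩ := hG.bd
  exact Summable.of_norm_bounded (sum_sq.mul_left _) (QG.sh hC hb t)

theorem S2_QG {G : ℝ → ℂ} (hG : QG G) : QG (S2 G) := by
  obtain ⟨C, hC, hb⟩ := hG.bd
  refine ⟨?_, C * ∑' k : ℕ, (1 / ((k : ℝ) + 1) ^ 2), ?_, fun t => ?_⟩
  · rw [continuous_iff_continuousAt]
    intro v
    have h1 : ContinuousOn (S2 G) (Iio (v + 1)) := by
      refine continuousOn_tsum (u := fun n : ℕ => C * Real.exp (2 * (v + 1)) * (1 / ((n : ℝ) + 1) ^ 2)) ?_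
        (sum_sq.mul_left _) ?_
      · intro n
        have := hG.cont
        exact (by fun_prop : Continuous fun v => G (v - 2 * Real.log ((n : ℝ) + 1))).continuousOn
      · intro n z hz
        refine (QG.sh hC hb z n).trans ?_
        refine mul_le_mul_of_nonneg_right (mul_le_mul_of_nonneg_left (Real.exp_le_exp.2 ?_) hC) (by positivity)
        have : z < v + 1 := hz
        linarith
    exact h1.continuousAt (Iio_mem_nhds (by linarith))
  · have : 0 ≤ ∑' k : ℕ, (1 / ((k : ℝ) + 1) ^ 2) := tsum_nonneg fun k => by positivity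
    positivity
  · unfold S2
    refine (tsum_of_norm_bounded (sum_sq.mul_left _).hasSum (QG.sh hC hb t)).trans (le_of_eq ?_)
    rw [tsum_mul_left]
    ring

/-- the sum commutes with the operator -/
theorem S2_Ist {G : ℝ → ℂ} (hG : QG G) {ρ : ℂ} (hρ : ρ.re < 2) : S2 (Ist ρ G) = Ist ρ (S2 G) := by
  funext t
  obtain ⟨C, hC, hb⟩ := hG.bd
  have hc := hG.cont
  have h2 : 0 < 2 - ρ.re := by linarith
  rw [Ist_eq]
  set F : ℕ → ℝ → ℂ := fun k x => cexp (ρ * x) * G (t - x - 2 * Real.log ((k : ℝ) + 1)) with hF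
  have hFb : ∀ k : ℕ, ∀ x : ℝ, ‖F k x‖ ≤ C * Real.exp (2 * t) * (1 / ((k : ℝ) + 1) ^ 2) * Real.exp (-(2 - ρ.re) * x) := by
    intro k x
    simp only [hF]
    rw [norm_mul, norm_tw']
    calc Real.exp (ρ.re * x) * ‖G (t - x - 2 * Real.log ((k : ℝ) + 1))‖ ≤
          Real.exp (ρ.re * x) * (C * Real.exp (2 * (t - x)) * (1 / ((k : ℝ) + 1) ^ 2)) :=
          mul_le_mul_of_nonneg_left (QG.sh hC hb (t - x) k) (Real.exp_pos _).le
      _ = C * (1 / ((k : ℝ) + 1) ^ 2) * (Real.exp (ρ.re * x) * Real.exp (2 * (t - x))) := by ring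
      _ = C * (1 / ((k : ℝ) + 1) ^ 2) * (Real.exp (2 * t) * Real.exp (-(2 - ρ.re) * x)) := by
          rw [← Real.exp_add, ← Real.exp_add]; congr 2; ring
      _ = _ := by ring
  have hFi : ∀ k, Integrable (F k) (volume.restrict (Ioi (0:ℝ))) := by
    intro k
    refine Integrable.mono' ((integrableOn_exp_mul_Ioi (by linarith : -(2 - ρ.re) < 0) 0).const_mul _) ?_ (ae_of_all _ (hFb k))
    exact (by simp only [hF]; fun_prop : Continuous (F k)).aestronglyMeasurable
  have hFs : Summable (fun k => ∫ x in Ioi (0:ℝ), ‖F k x‖) := by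
    refine Summable.of_nonneg_of_le (fun n => integral_nonneg fun z => norm_nonneg _) (fun n => ?_)
      (sum_sq.mul_left (C * Real.exp (2 * t) * ∫ x in Ioi (0:ℝ), Real.exp (-(2 - ρ.re) * x)))
    have h1 : ∫ z in Ioi (0:ℝ), ‖F n z‖ ≤ ∫ z in Ioi (0:ℝ), C * Real.exp (2 * t) * (1 / ((n : ℝ) + 1) ^ 2) *
        Real.exp (-(2 - ρ.re) * z) :=
      integral_mono (hFi n).norm ((integrableOn_exp_mul_Ioi (by linarith : -(2 - ρ.re) < 0) 0).const_mul _)
        fun z => hFb n z
    rw [integral_const_mul] at h1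
    refine h1.trans (le_of_eq ?_)
    ring
  have key := hasSum_integral_of_summable_integral_norm hFi hFs
  have e1 : ∫ x in Ioi (0:ℝ), ∑' n, F n x = ∫ x in Ioi (0:ℝ), cexp (ρ * x) * S2 G (t - x) := by
    refine integral_congr_ae (ae_of_all _ fun z => ?_)
    simp only [hF, S2]
    exact tsum_mul_left
  rw [e1] at key
  rw [← key.tsum_eq]
  unfold S2
  refine tsum_congr fun k => ?_
  rw [Ist_eq]
  refine integral_congr_ae (ae_of_all _ fun x => ?_)
  simp only [hF]
  congr 2
  ring

theorem S2_iter {G : ℝ → ℂ} (hG : QG G) {ρ : ℂ} (hρ : ρ.re < 2) (j : ℕ) : S2 ((Ist ρ)^[j] G) = (Ist ρ)^[j] (S2 G) := by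
  induction j with
  | zero => rfl
  | succ j ih =>
    rw [Function.iterate_succ_apply', Function.iterate_succ_apply', ← ih, S2_Ist (iter_QG hG hρ j) hρ]

/-- the transform of the sum -/
theorem TT_S2 {G : ℝ → ℂ} (hG : BB G) {s : ℂ} (h1 : 1 / 2 < s.re) (h2 : s.re < 2) :
    TT (S2 G) s = riemannZeta (2 * s) * TT G s := by
  have h0 : 0 < s.re := by linarith
  set g : ℝ → ℂ := fun z => cexp (-s * z) * G z with hg
  have hgi : Integrable g := hG.int h0 h2
  set F : ℕ → ℝ → ℂ := fun n v => cexp (-s * v) * G (v - 2 * Real.log ((n : ℝ) + 1)) with hF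
  have hFG : ∀ n, F n = fun v => (((n : ℂ) + 1) ^ (-(2 * s))) * g (v - 2 * Real.log ((n : ℝ) + 1)) := by
    intro n
    funext v
    simp only [hF, hg]
    rw [← mul_assoc]
    congr 1
    have hn : ((n : ℂ) + 1) = ((((n : ℝ) + 1 : ℝ)) : ℂ) := by push_cast; rfl
    rw [hn, Complex.cpow_def_of_ne_zero (by
      rw [Complex.ofReal_ne_zero]; positivity), ← Complex.exp_add, ← Complex.ofReal_log (by positivity)]
    congr 1
    push_cast
    ring
  have hFi : ∀ n, Integrable (F n) := by
    intro n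
    rw [hFG]
    exact (hgi.comp_sub_right _).const_mul _
  have hFI : ∀ n, ∫ v, F n v = (((n : ℂ) + 1) ^ (-(2 * s))) * TT G s := by
    intro n
    rw [hFG, integral_const_mul, integral_sub_right_eq_self g]
    rfl
  have hFn : ∀ n, ∫ v, ‖F n v‖ = ((n : ℝ) + 1) ^ (-(2 * s.re)) * ∫ v, ‖g v‖ := by
    intro n
    rw [hFG]
    simp only [norm_mul]
    rw [integral_const_mul, integral_sub_right_eq_self (fun v => ‖g v‖)]
    congr 1
    have hn : ((n : ℂ) + 1) = ((((n : ℝ) + 1 : ℝ)) : ℂ) := by push_cast; rfl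
    rw [hn, Complex.norm_cpow_eq_rpow_re_of_pos (by positivity)]
    simp
  have hFs : Summable (fun n => ∫ v, ‖F n v‖) := by
    simp only [hFn]
    refine Summable.mul_right _ ?_
    have h3 : Summable (fun n : ℕ => (n : ℝ) ^ (-(2 * s.re))) := Real.summable_nat_rpow.2 (by linarith)
    have h4 := (summable_nat_add_iff 1).2 h3
    refine h4.congr fun n => ?_
    push_cast
    rfl
  have key := hasSum_integral_of_summable_integral_norm hFi hFs
  have e1 : ∫ v, ∑' n, F n v = TT (S2 G) s := by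
    unfold TT
    refine integral_congr_ae (ae_of_all _ fun v => ?_)
    simp only [hF, S2]
    exact tsum_mul_left
  rw [e1] at key
  simp only [hFI] at key
  rw [← key.tsum_eq, tsum_mul_right, zeta_eq_tsum_one_div_nat_add_one_cpow (by simp; linarith)]
  congr 1
  refine tsum_congr fun n => ?_
  rw [Complex.cpow_neg, one_div]

end

end H19.EW
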