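import Pool.Agent.H19.EW.P2

/-!
# The main term of the sum over squares
-/

open Complex MeasureTheory Filter Topology Set

set_option autoImplicit false
set_option linter.unusedSectionVars false
set_option linter.unusedVariables false

namespace H19.EW

open H313.TK

noncomputable section

/-- integration of an integrable function -/
theorem Ist0_bd {g : ℝ → ℂ} (hi : Integrable g) (t : ℝ) : ‖Ist 0 g t‖ ≤ ∫ z, ‖g z‖ := by
  unfold Ist
  simp only [neg_zero, zero_mul, Complex.exp_zero, one_mul]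
  exact (norm_integral_le_integral_norm _).trans (setIntegral_le_integral hi.norm (ae_of_all _ fun z => norm_nonneg _))

/-- **The sum over squares of a primitive.** -/
theorem S2_main {g : ℝ → ℂ} (hg : QG g) {C : ℝ} (hC : 0 ≤ C) (hb : ∀ t, ‖g t‖ ≤ C * Real.exp (-(1 * |t|))) (t : ℝ) :
    ‖S2 (Ist 0 g) t - cexp ((1 / 2 : ℂ) * t) * TT g (1 / 2)‖ ≤ C * ∫ z : ℝ, Real.exp (-(1 * |z|)) := by
  obtain ⟨C1, hC1, hb1⟩ := hg.bd
  have hc := hg.cont
  have hgi : Integrable g :=
    ((int_exp_abs 1 one_pos).const_mul C).mono' hc.aestronglyMeasurable (ae_of_all _ hb)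
  set F : ℕ → ℝ → ℂ := fun k => (Iic (t - 2 * Real.log ((k : ℝ) + 1))).indicator g with hF
  have hFi : ∀ k, Integrable (F k) := fun k => hgi.indicator measurableSet_Iic
  have hFs : Summable (fun k => ∫ x, ‖F k x‖) := by
    refine Summable.of_nonneg_of_le (fun n => integral_nonneg fun z => norm_nonneg _) (fun k => ?_)
      (sum_sq.mul_left (C1 * (Real.exp (2 * t) / 2)))
    have e1 : ∫ x, ‖F k x‖ = ∫ x in Iic (t - 2 * Real.log ((k : ℝ) + 1)), ‖g x‖ := by
      rw [← integral_indicator measurableSet_Iic]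
      refine integral_congr_ae (ae_of_all _ fun z => ?_)
      simp only [hF]
      rw [norm_indicator_eq_indicator_norm]
    rw [e1]
    have h1 : ∫ x in Iic (t - 2 * Real.log ((k : ℝ) + 1)), ‖g x‖ ≤
        ∫ x in Iic (t - 2 * Real.log ((k : ℝ) + 1)), C1 * Real.exp (2 * x) :=
      setIntegral_mono_on hgi.norm.integrableOn ((integrableOn_exp_mul_Iic (by norm_num) _).const_mul _)
        measurableSet_Iic fun z _ => hb1 z
    rw [integral_const_mul, integral_exp_mul_Iic (by norm_num)] at h1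
    refine h1.trans ?_
    have h2 := sh_exp t k
    calc C1 * (Real.exp (2 * (t - 2 * Real.log ((k : ℝ) + 1))) / 2)
        ≤ C1 * ((Real.exp (2 * t) * (1 / ((k : ℝ) + 1) ^ 2)) / 2) := by gcongr
      _ = _ := by ring
  have key := hasSum_integral_of_summable_integral_norm hFi hFs
  have e2 : ∀ k, ∫ x, F k x = Ist 0 g (t - 2 * Real.log ((k : ℝ) + 1)) := by
    intro k
    simp only [hF]
    rw [integral_indicator measurableSet_Iic]
    unfold Ist
    simp
  simp only [e2] at key
  have e3 : S2 (Ist 0 g) t = ∫ x, ∑' k, F k x := key.tsum_eq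
  -- the counting function
  have e4 : ∀ y : ℝ, ∑' k, F k y = ((⌊Real.exp ((t - y) / 2)⌋₊ : ℝ) : ℂ) * g y := by
    intro y
    set X := Real.exp ((t - y) / 2) with hX
    have hX0 : 0 < X := Real.exp_pos _
    have hmem : ∀ k : ℕ, y ∈ Iic (t - 2 * Real.log ((k : ℝ) + 1)) ↔ k < ⌊X⌋₊ := by
      intro k
      rw [← Nat.succ_le_iff, Nat.le_floor_iff hX0.le, hX, mem_Iic]
      have h1 : (0:ℝ) < ((k.succ : ℕ) : ℝ) := by positivity
      rw [← Real.log_le_iff_le_exp h1]
      push_cast
      constructor <;> intro h <;> linarith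
    rw [tsum_eq_sum (s := Finset.range ⌊X⌋₊) (by
      intro k hk
      rw [Finset.mem_range] at hk
      simp only [hF]
      exact indicator_of_notMem (fun h => hk ((hmem k).1 h)) _)]
    have h2 : ∀ k ∈ Finset.range ⌊X⌋₊, F k y = g y := by
      intro k hk
      rw [Finset.mem_range] at hk
      simp only [hF]
      exact indicator_of_mem ((hmem k).2 hk) _
    rw [Finset.sum_congr rfl h2, Finset.sum_const, Finset.card_range, nsmul_eq_mul]
    push_cast
    rfl
  have hexpi : Integrable (fun y : ℝ => cexp (-(1 / 2 : ℂ) * y) * g y) := by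
    refine ((int_exp_abs (1 / 2) (by norm_num)).const_mul C).mono' ?_ (ae_of_all _ fun y => ?_)
    · exact (by fun_prop : Continuous fun y : ℝ => cexp (-(1 / 2 : ℂ) * y) * g y).aestronglyMeasurable
    · rw [norm_mul, norm_tw]
      calc Real.exp (-(1 / 2 : ℂ).re * y) * ‖g y‖ ≤ Real.exp ((1 / 2) * |y|) * (C * Real.exp (-(1 * |y|))) := by
            refine mul_le_mul (Real.exp_le_exp.2 ?_) (hb y) (norm_nonneg _) (Real.exp_pos _).le
            have := neg_abs_le y
            norm_num
            linarith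
        _ = C * (Real.exp ((1 / 2) * |y|) * Real.exp (-(1 * |y|))) := by ring
        _ = _ := by rw [← Real.exp_add]; congr 2; ring
  have hcnt : Integrable (fun y : ℝ => ((⌊Real.exp ((t - y) / 2)⌋₊ : ℝ) : ℂ) * g y) := by
    refine (hexpi.norm.const_mul (Real.exp (t / 2))).mono' ?_ (ae_of_all _ fun y => ?_)
    · have hm : Measurable (fun y : ℝ => ((⌊Real.exp ((t - y) / 2)⌋₊ : ℝ) : ℂ)) := by
        refine Complex.measurable_ofReal.comp ?_
        have h1 : Measurable (fun y : ℝ => ⌊Real.exp ((t - y) / 2)⌋₊) := Nat.measurable_floor.comp (by fun_prop)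
        exact (measurable_from_top : Measurable (fun n : ℕ => (n : ℝ))).comp h1
      exact (hm.mul hc.measurable).aestronglyMeasurable
    · rw [norm_mul, norm_mul, norm_tw, Complex.norm_real, Real.norm_eq_abs, abs_of_nonneg (Nat.cast_nonneg _), ← mul_assoc]
      refine mul_le_mul_of_nonneg_right ?_ (norm_nonneg _)
      refine (Nat.floor_le (Real.exp_pos _).le).trans (le_of_eq ?_)
      rw [← Real.exp_add]
      congr 1
      norm_num
      ring
  rw [e3]
  simp only [e4]
  unfold TT
  rw [← integral_const_mul, ← integral_sub hcnt (hexpi.const_mul _)]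
  refine (norm_integral_le_of_norm_le ((int_exp_abs 1 one_pos).const_mul C) (ae_of_all _ fun y => ?_)).trans
    (le_of_eq (integral_const_mul _ _))
  have e5 : ((⌊Real.exp ((t - y) / 2)⌋₊ : ℝ) : ℂ) * g y - cexp ((1 / 2 : ℂ) * t) * (cexp (-(1 / 2 : ℂ) * y) * g y) =
      ((⌊Real.exp ((t - y) / 2)⌋₊ - Real.exp ((t - y) / 2) : ℝ) : ℂ) * g y := by
    have : cexp ((1 / 2 : ℂ) * t) * cexp (-(1 / 2 : ℂ) * y) = ((Real.exp ((t - y) / 2) : ℝ) : ℂ) := by
      rw [← Complex.exp_add, Complex.ofReal_exp]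
      congr 1
      push_cast
      ring
    rw [← mul_assoc, this]
    push_cast
    ring
  rw [e5, norm_mul, Complex.norm_real, Real.norm_eq_abs]
  have h6 : |(⌊Real.exp ((t - y) / 2)⌋₊ : ℝ) - Real.exp ((t - y) / 2)| ≤ 1 := by
    have h7 := Nat.floor_le (Real.exp_pos ((t - y) / 2)).le
    have h8 := Nat.lt_floor_add_one (Real.exp ((t - y) / 2))
    rw [abs_le]
    constructor <;> linarith
  calc |(⌊Real.exp ((t - y) / 2)⌋₊ : ℝ) - Real.exp ((t - y) / 2)| * ‖g y‖ ≤ 1 * ‖g y‖ :=
        mul_le_mul_of_nonneg_right h6 (norm_nonneg _)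
    _ ≤ _ := by rw [one_mul]; exact hb y

/-- the constant of the main term of the sum over squares -/
def k2 (w : ℝ → ℝ) : ℂ := TT (CV w dq) (1 / 2)

/-- the bounded part of the sum over squares -/
def b2 (w : ℝ → ℝ) (t : ℝ) : ℂ := S2 (CV w qc) t + (-k2 w) * Th0 t

theorem CV_qc_Ist {w : ℝ → ℝ} (hw : Wt w) : CV w qc = Ist 0 (CV w dq) := by
  funext t
  rw [← CV_Ist hw dq_QG 0 (by norm_num) t, qc_Ist]

theorem b2_BB {a b c B α : ℝ} {w : ℝ → ℝ} (h : Tame a b w c B α) : BB (b2 w) := by
  have hw := h.wt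
  obtain ⟨C, hC, hb⟩ := g1_bd h
  obtain ⟨C1, hC1, h1⟩ := Th0_asy
  have hQ : QG (b2 w) := (S2_QG (CV_QG hw qc_QG)).add (Th0_QG.smul _)
  obtain ⟨C2, hC2, h2⟩ := hQ.bd
  have hI : 0 ≤ ∫ y : ℝ, Real.exp (-(1 * |y|)) := integral_nonneg fun y => (Real.exp_pos _).le
  refine ⟨hQ.cont, max C2 (C * (∫ y : ℝ, Real.exp (-(1 * |y|))) + ‖k2 w‖ * C1), le_max_of_le_left hC2, fun t => ⟨?_, ?_⟩⟩
  · refine le_trans ?_ (le_max_right _ _)
    have h3 := S2_main (CV_QG hw dq_QG) hC hb t
    rw [← CV_qc_Ist hw] at h3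
    have h4 := h1 t
    have e : b2 w t = (S2 (CV w qc) t - cexp ((1 / 2 : ℂ) * t) * TT (CV w dq) (1 / 2)) -
        k2 w * (Th0 t - cexp ((1 / 2 : ℂ) * t)) := by
      unfold b2 k2
      ring
    rw [e]
    refine (norm_sub_le _ _).trans (add_le_add h3 ?_)
    rw [norm_mul]
    exact mul_le_mul_of_nonneg_left h4 (norm_nonneg _)
  · exact (h2 t).trans (mul_le_mul_of_nonneg_right (le_max_left _ _) (Real.exp_pos _).le)

theorem Th0_int {s : ℂ} (h1 : 1 / 2 < s.re) (h2 : s.re < 2) : Integrable (fun z : ℝ => cexp (-s * z) * Th0 z) := by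
  obtain ⟨C, hC, hb⟩ := Th0_QG.bd
  obtain ⟨C1, hC1, hb1⟩ := Th0_asy
  have hm : 0 < min (s.re - 1 / 2) (2 - s.re) := lt_min (by linarith) (by linarith)
  have hc := Th0_QG.cont
  refine ((int_exp_abs _ hm).const_mul (max C (C1 + 1))).mono' ?_ (ae_of_all _ fun z => ?_)
  · exact (by fun_prop : Continuous fun z : ℝ => cexp (-s * z) * Th0 z).aestronglyMeasurable
  · rw [norm_mul, norm_tw]
    rcases le_total 0 z with hz | hz
    · have h3 : ‖Th0 z‖ ≤ (C1 + 1) * Real.exp (z / 2) := by
        have h4 := hb1 z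
        have h5 : ‖cexp ((1 / 2 : ℂ) * z)‖ = Real.exp (z / 2) := by
          rw [norm_tw']
          congr 1
          norm_num
          ring
        have h6 : ‖Th0 z‖ ≤ ‖Th0 z - cexp ((1 / 2 : ℂ) * z)‖ + ‖cexp ((1 / 2 : ℂ) * z)‖ := by
          refine le_trans (le_of_eq ?_) (norm_add_le _ _)
          congr 1
          ring
        have h7 : 1 ≤ Real.exp (z / 2) := Real.one_le_exp (by linarith)
        rw [h5] at h6
        nlinarith
      calc Real.exp (-s.re * z) * ‖Th0 z‖ ≤ Real.exp (-s.re * z) * ((C1 + 1) * Real.exp (z / 2)) :=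
            mul_le_mul_of_nonneg_left h3 (Real.exp_pos _).le
        _ = (C1 + 1) * (Real.exp (-s.re * z) * Real.exp (z / 2)) := by ring
        _ ≤ _ := by
            rw [← Real.exp_add]
            refine mul_le_mul (le_max_right _ _) (Real.exp_le_exp.2 ?_) (Real.exp_pos _).le (le_max_of_le_left hC)
            rw [abs_of_nonneg hz]
            have := min_le_left (s.re - 1 / 2) (2 - s.re)
            nlinarith
    · calc Real.exp (-s.re * z) * ‖Th0 z‖ ≤ Real.exp (-s.re * z) * (C * Real.exp (2 * z)) :=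
            mul_le_mul_of_nonneg_left (hb z) (Real.exp_pos _).le
        _ = C * (Real.exp (-s.re * z) * Real.exp (2 * z)) := by ring
        _ ≤ _ := by
            rw [← Real.exp_add]
            refine mul_le_mul (le_max_left _ _) (Real.exp_le_exp.2 ?_) (Real.exp_pos _).le (le_max_of_le_left hC)
            rw [abs_of_nonpos hz]
            have := min_le_right (s.re - 1 / 2) (2 - s.re)
            nlinarith

theorem TT_Th0 {s : ℂ} (h1 : 1 / 2 < s.re) (h2 : s.re < 2) : TT q0 s = (s - 1 / 2) * TT Th0 s :=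
  TT_Ist q0_BB.qg.cont (fun v => q0_BB.qg.qq.int _ (by norm_num) v) (q0_BB.int (by linarith) h2) (Th0_int h1 h2)

theorem LL_right {a b c B α : ℝ} {w : ℝ → ℝ} (h : Tame a b w c B α) {s : ℂ} (h1 : 1 / 2 < s.re) (h2 : s.re < 2) :
    LL (k2 w) (b2 w) s = riemannZeta (2 * s) * TT (CV w qc) s := by
  have hw := h.wt
  have hne : s - 1 / 2 ≠ 0 := by
    intro h3
    have := congrArg Complex.re h3
    norm_num at this
    linarith
  rw [← TT_S2 (qc_BB0 hw) h1 h2]
  have e1 : TT (b2 w) s = TT (S2 (CV w qc)) s - k2 w * TT Th0 s := by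
    have hb := (b2_BB h).int (s := s) (by linarith) h2
    have ht := Th0_int h1 h2
    have e2 : TT (S2 (CV w qc)) s = TT (b2 w) s + k2 w * TT Th0 s := by
      unfold TT
      rw [← integral_const_mul, ← integral_add hb (ht.const_mul _)]
      refine integral_congr_ae (ae_of_all _ fun z => ?_)
      simp only [b2]
      ring
    rw [e2]
    ring
  unfold LL
  rw [e1, TT_Th0 h1 h2, mul_div_cancel_left₀ _ hne]
  ring

open ZU.J_g2b in
/-- **The transform of the bounded part.** -/
theorem LL_eq {a b c B α : ℝ} {w : ℝ → ℝ} (h : Tame a b w c B α) {s : ℂ} (h0 : 0 < s.re) (h2 : s.re < 2)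
    (hne : s ≠ 1 / 2) : LL (k2 w) (b2 w) s = riemannZeta (2 * s) * TT (CV w qc) s := by
  have hw := h.wt
  set U : Set ℂ := {s : ℂ | 0 < s.re ∧ s.re < 2} with hU
  have hUo : IsOpen U := (isOpen_lt continuous_const Complex.continuous_re).inter
    (isOpen_lt Complex.continuous_re continuous_const)
  have hUc : IsPreconnected U := by
    refine Convex.isPreconnected ?_
    have c1 : Convex ℝ {s : ℂ | 0 < s.re} := convex_halfSpace_re_gt 0
    have c2 : Convex ℝ {s : ℂ | s.re < 2} := convex_halfSpace_re_lt 2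
    exact c1.inter c2
  have hd1 : DifferentiableOn ℂ (fun s => (s - 1 / 2) * TT (b2 w) s + k2 w * TT q0 s) U := by
    intro z hz
    have d1 := ((b2_BB h).an hz.1 hz.2).differentiableAt
    have d2 := (q0_BB.an hz.1 hz.2).differentiableAt
    exact (((differentiableAt_id.sub_const _).mul d1).add (d2.const_mul _)).differentiableWithinAt
  have hd2 : DifferentiableOn ℂ (fun s => (1 / 2) * FF (2 * s) * TT (CV w qc) s) U := by
    intro z hz
    have d1 := ((qc_BB0 hw).an hz.1 hz.2).differentiableAt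
    have d2 : DifferentiableAt ℂ (fun s : ℂ => FF (2 * s)) z :=
      DifferentiableAt.comp z (f := fun s : ℂ => 2 * s) FF_diff.differentiableAt (by fun_prop)
    exact ((d2.const_mul _).mul d1).differentiableWithinAt
  have hmul : ∀ z : ℂ, z ≠ 1 / 2 → (1 / 2) * FF (2 * z) = (z - 1 / 2) * riemannZeta (2 * z) := by
    intro z hz
    rw [FF_ne (by
      intro h3
      apply hz
      linear_combination (1 / 2 : ℂ) * h3)]
    ring
  have key := (hd1.analyticOnNhd hUo).eqOn_of_preconnected_of_eventuallyEq (hd2.analyticOnNhd hUo) hUc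
    (z₀ := (1 : ℂ)) (by constructor <;> norm_num) (by
      have hV : {s : ℂ | 1 / 2 < s.re ∧ s.re < 2} ∈ 𝓝 (1 : ℂ) := by
        refine IsOpen.mem_nhds ((isOpen_lt continuous_const Complex.continuous_re).inter
          (isOpen_lt Complex.continuous_re continuous_const)) ?_
        constructor <;> norm_num
      filter_upwards [hV] with z hz
      have hz' : z ≠ 1 / 2 := by
        rintro rfl
        have := hz.1
        norm_num at this
      have hz'' : z - 1 / 2 ≠ 0 := sub_ne_zero.2 hz'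
      have h3 := LL_right h hz.1 hz.2
      unfold LL at h3
      have hq : (z - 1 / 2) * (TT q0 z / (z - 1 / 2)) = TT q0 z := by
        rw [mul_div_assoc', mul_div_cancel_left₀ _ hz'']
      rw [hmul z hz', mul_assoc, ← h3]
      linear_combination (-(k2 w)) * hq)
  have hs' : s - 1 / 2 ≠ 0 := sub_ne_zero.2 hne
  have h4 := key (show s ∈ U from ⟨h0, h2⟩)
  simp only at h4
  rw [hmul s hne] at h4
  unfold LL
  have h5 : (s - 1 / 2) * (TT (b2 w) s + k2 w * (TT q0 s / (s - 1 / 2))) =
      (s - 1 / 2) * (riemannZeta (2 * s) * TT (CV w qc) s) := by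
    have hq : (s - 1 / 2) * (TT q0 s / (s - 1 / 2)) = TT q0 s := by
      rw [mul_div_assoc', mul_div_cancel_left₀ _ hs']
    rw [← mul_assoc, ← h4]
    linear_combination (k2 w) * hq
  exact mul_left_cancel₀ hs' h5

theorem k2_eq {a b c B α : ℝ} {w : ℝ → ℝ} (h : Tame a b w c B α) : k2 w = wh w (1 / 2) * qh (1 / 2) / 2 := by
  have hw := h.wt
  obtain ⟨C, hC, hb⟩ := g1_bd h
  have hg := CV_QG hw dq_QG
  have hc := hg.cont
  have h1 : Integrable (fun z : ℝ => cexp (-(1 / 2 : ℂ) * z) * CV w dq z) := by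
    refine ((int_exp_abs (1 / 2) (by norm_num)).const_mul C).mono' ?_ (ae_of_all _ fun y => ?_)
    · exact (by fun_prop : Continuous fun y : ℝ => cexp (-(1 / 2 : ℂ) * y) * CV w dq y).aestronglyMeasurable
    · rw [norm_mul, norm_tw]
      calc Real.exp (-(1 / 2 : ℂ).re * y) * ‖CV w dq y‖ ≤ Real.exp ((1 / 2) * |y|) * (C * Real.exp (-(1 * |y|))) := by
            refine mul_le_mul (Real.exp_le_exp.2 ?_) (hb y) (norm_nonneg _) (Real.exp_pos _).le
            have := neg_abs_le y
            norm_num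
            linarith
        _ = C * (Real.exp ((1 / 2) * |y|) * Real.exp (-(1 * |y|))) := by ring
        _ = _ := by rw [← Real.exp_add]; congr 2; ring
  have h2 : Integrable (fun z : ℝ => cexp (-(1 / 2 : ℂ) * z) * Ist 0 (CV w dq) z) := by
    rw [← CV_qc_Ist hw]
    exact (qc_BB0 hw).int (by norm_num) (by norm_num)
  have h3 := TT_Ist (ρ := 0) hc (fun v => hg.qq.int 0 (by norm_num) v) h1 h2
  rw [← CV_qc_Ist hw, TT_CV hw (by norm_num) (by norm_num)] at h3
  unfold k2
  rw [h3]
  ring

end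

end H19.EW
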