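import Pool.Agent.H19.EW.P3

/-!
# Weighted sums of the Liouville function
-/

open Complex MeasureTheory Filter Topology Set

set_option autoImplicit false
set_option linter.unusedSectionVars false
set_option linter.unusedVariables false

namespace H19.EW

open H313.TK

noncomputable section

/-- the weighted Liouville sum -/
def SL (w : ℝ → ℝ) (x : ℝ) : ℝ := ∑' n : ℕ, ((ArithmeticFunction.liouville n : ℤ) : ℝ) * w (n / x)

theorem sq_unique {m b c a : ℕ} (hm : m ≠ 0) (hb : b ≠ 0) (hc : Squarefree c) (ha : Squarefree a)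
    (h : m ^ 2 * c = b ^ 2 * a) : m = b := by
  have key : ∀ {m b c a : ℕ}, m ≠ 0 → b ≠ 0 → Squarefree c → Squarefree a → m ^ 2 * c = b ^ 2 * a → m ∣ b := by
    intro m b c a hm hb hc ha h
    rw [← Nat.factorization_le_iff_dvd hm hb]
    intro p
    by_cases hp : p.Prime
    · have h1 : (m ^ 2 * c).factorization p = (b ^ 2 * a).factorization p := by rw [h]
      rw [Nat.factorization_mul (pow_ne_zero _ hm) hc.ne_zero, Nat.factorization_mul (pow_ne_zero _ hb) ha.ne_zero,
        Nat.factorization_pow, Nat.factorization_pow] at h1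
      simp only [Finsupp.coe_add, Finsupp.coe_smul, Pi.add_apply, Pi.smul_apply, smul_eq_mul] at h1
      have h2 : a.factorization p ≤ 1 := ha.natFactorization_le_one p
      omega
    · rw [Nat.factorization_eq_zero_of_not_prime _ hp]
      exact Nat.zero_le _
  exact Nat.dvd_antisymm (key hm hb hc ha h) (key hb hm ha hc h.symm)

/-- the term of the double sum -/
def dt (w : ℝ → ℝ) (x : ℝ) (p : ℕ × ℕ) : ℝ :=
  if (p.1 + 1) ^ 2 ∣ p.2 then ((ArithmeticFunction.moebius (p.2 / (p.1 + 1) ^ 2) : ℤ) : ℝ) * w (p.2 / x) else 0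

theorem lam_sum (n : ℕ) (hn : 1 ≤ n) :
    HasSum (fun k : ℕ => if (k + 1) ^ 2 ∣ n then ((ArithmeticFunction.moebius (n / (k + 1) ^ 2) : ℤ) : ℝ) else 0)
      ((ArithmeticFunction.liouville n : ℤ) : ℝ) := by
  obtain ⟨a, b, hab, ha⟩ := Nat.sq_mul_squarefree n
  have hb0 : b ≠ 0 := by
    rintro rfl
    simp at hab
    omega
  have hdiv : n / b ^ 2 = a := by
    rw [← hab]
    exact Nat.mul_div_cancel_left a (by positivity)
  have hbe : b - 1 + 1 = b := Nat.succ_pred_eq_of_pos (Nat.pos_of_ne_zero hb0)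
  have hval : ((ArithmeticFunction.liouville n : ℤ) : ℝ) = (fun k : ℕ => if (k + 1) ^ 2 ∣ n then
      ((ArithmeticFunction.moebius (n / (k + 1) ^ 2) : ℤ) : ℝ) else 0) (b - 1) := by
    simp only
    rw [hbe, if_pos ⟨a, hab.symm⟩, hdiv, ArithmeticFunction.moebius_apply_of_squarefree ha,
      ArithmeticFunction.liouville_apply (by omega), ← hab,
      ArithmeticFunction.cardFactors_mul (pow_ne_zero _ hb0) ha.ne_zero,
      ArithmeticFunction.cardFactors_pow, pow_add, pow_mul]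
    norm_num
  rw [hval]
  refine hasSum_single _ fun m hmb => ?_
  split_ifs with hd
  · obtain ⟨c, hc⟩ := hd
    have hm0 : m + 1 ≠ 0 := by omega
    have h1 : n / (m + 1) ^ 2 = c := by
      rw [hc]
      exact Nat.mul_div_cancel_left c (by positivity)
    rw [h1]
    have h2 : ¬ Squarefree c := by
      intro hs
      have := sq_unique hm0 hb0 hs ha (by rw [← hc, hab])
      omega
    rw [ArithmeticFunction.moebius_eq_zero_of_not_squarefree h2]
    simp
  · rfl

theorem dt_le {w : ℝ → ℝ} {B : ℝ} (hB : 0 ≤ B) (hb : ∀ u : ℝ, 0 < u → |w u| ≤ B ∧ |w u| ≤ B / u ^ 4)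
    {x : ℝ} (hx : 0 < x) (p : ℕ × ℕ) : |dt w x p| ≤ B * x ^ 4 * ((1 / ((p.1 : ℝ) + 1) ^ 2) * (1 / (p.2 : ℝ) ^ 2)) := by
  unfold dt
  split_ifs with hd
  · rcases Nat.eq_zero_or_pos p.2 with h | h
    · rw [h]
      simp
    · have hn : (0:ℝ) < p.2 := by exact_mod_cast h
      have h1 := (hb (p.2 / x) (by positivity)).2
      have h2 := mu_abs (p.2 / (p.1 + 1) ^ 2)
      have h3 : (p.1 + 1) ^ 2 ≤ p.2 := Nat.le_of_dvd h hd
      have h4 : ((p.1 : ℝ) + 1) ^ 2 ≤ p.2 := by exact_mod_cast h3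
      have h5 : ((p.1 : ℝ) + 1) ^ 2 ≤ (p.2 : ℝ) ^ 2 := by
        have : (1:ℝ) ≤ p.2 := by exact_mod_cast h
        nlinarith
      rw [abs_mul]
      calc _ ≤ 1 * (B / (p.2 / x) ^ 4) := mul_le_mul h2 h1 (abs_nonneg _) zero_le_one
        _ = B * x ^ 4 * ((1 / (p.2 : ℝ) ^ 2) * (1 / (p.2 : ℝ) ^ 2)) := by field_simp
        _ ≤ _ := by
          refine mul_le_mul_of_nonneg_left (mul_le_mul_of_nonneg_right ?_ (by positivity)) (by positivity)
          exact one_div_le_one_div_of_le (by positivity) h5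
  · rw [abs_zero]
    positivity

theorem sum2 : Summable (fun n : ℕ => 1 / (n : ℝ) ^ 2) := Real.summable_one_div_nat_pow.2 (by norm_num)

theorem dt_summable {w : ℝ → ℝ} (hw : Wt w) {x : ℝ} (hx : 0 < x) : Summable (dt w x) := by
  obtain ⟨B, hB, hb⟩ := hw.bd
  have h1 : Summable (fun p : ℕ × ℕ => (1 / ((p.1 : ℝ) + 1) ^ 2) * (1 / (p.2 : ℝ) ^ 2)) :=
    sum_sq.mul_of_nonneg sum2 (fun n => by positivity) (fun n => by positivity)
  exact Summable.of_norm_bounded (h1.mul_left (B * x ^ 4)) fun p => by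
    rw [Real.norm_eq_abs]; exact dt_le hB hb hx p

theorem SL_hasSum {w : ℝ → ℝ} (hw : Wt w) {x : ℝ} (hx : 0 < x) :
    HasSum (fun k : ℕ => S w (x / ((k : ℝ) + 1) ^ 2)) (SL w x) ∧
    Summable (fun n : ℕ => ((ArithmeticFunction.liouville n : ℤ) : ℝ) * w (n / x)) := by
  have hs := dt_summable hw hx
  -- rows
  have hrow : ∀ k : ℕ, HasSum (fun n : ℕ => dt w x (k, n)) (S w (x / ((k : ℝ) + 1) ^ 2)) := by
    intro k
    have hk : (0:ℝ) < ((k : ℝ) + 1) ^ 2 := by positivity
    have h1 := (term_sum hw (x := x / ((k : ℝ) + 1) ^ 2) (by positivity)).hasSum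
    have hinj : Function.Injective (fun m : ℕ => (k + 1) ^ 2 * m) := by
      intro m m' h
      exact Nat.eq_of_mul_eq_mul_left (by positivity) h
    rw [← hinj.hasSum_iff]
    · have h2 : ((fun n : ℕ => dt w x (k, n)) ∘ fun m : ℕ => (k + 1) ^ 2 * m) =
          fun m : ℕ => ((ArithmeticFunction.moebius m : ℤ) : ℝ) * w (m / (x / ((k : ℝ) + 1) ^ 2)) := by
        funext m
        simp only [Function.comp, dt]
        rw [if_pos (Dvd.intro m rfl), Nat.mul_div_cancel_left m (by positivity)]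
        congr 2
        push_cast
        field_simp
      rw [h2]
      exact h1
    · intro n hn
      unfold dt
      rw [if_neg]
      rintro ⟨m, hm⟩
      exact hn ⟨m, hm.symm⟩
  -- columns
  have hcol : ∀ n : ℕ, HasSum (fun k : ℕ => dt w x (k, n)) (((ArithmeticFunction.liouville n : ℤ) : ℝ) * w (n / x)) := by
    intro n
    rcases Nat.eq_zero_or_pos n with h | h
    · subst h
      have : (fun k : ℕ => dt w x (k, 0)) = fun _ => 0 := by
        funext k
        simp [dt]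
      rw [this]
      simp [hasSum_zero]
    · have h1 := (lam_sum n h).mul_right (w (n / x))
      have h2 : (fun k : ℕ => dt w x (k, n)) = fun k : ℕ => (if (k + 1) ^ 2 ∣ n then
          ((ArithmeticFunction.moebius (n / (k + 1) ^ 2) : ℤ) : ℝ) else 0) * w (n / x) := by
        funext k
        simp only [dt]
        split_ifs
        · rfl
        · rw [zero_mul]
      rw [h2]
      exact h1
  have h1 : HasSum (fun k : ℕ => S w (x / ((k : ℝ) + 1) ^ 2)) (∑' p, dt w x p) := hs.hasSum.prod_fiberwise hrow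
  have h2 : HasSum (dt w x ∘ Equiv.prodComm ℕ ℕ) (∑' p, dt w x p) := (Equiv.prodComm ℕ ℕ).hasSum_iff.2 hs.hasSum
  have h3 : HasSum (fun n : ℕ => ((ArithmeticFunction.liouville n : ℤ) : ℝ) * w (n / x)) (∑' p, dt w x p) :=
    h2.prod_fiberwise hcol
  refine ⟨?_, h3.summable⟩
  unfold SL
  rw [h3.tsum_eq]
  exact h1

/-! ### the exponential scale -/

/-- the weighted Liouville sum on the exponential scale -/
def AL (w : ℝ → ℝ) (u : ℝ) : ℝ := SL w (Real.exp u)

theorem AL_hasSum {w : ℝ → ℝ} (hw : Wt w) (u : ℝ) :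
    HasSum (fun k : ℕ => AA w (u - 2 * Real.log ((k : ℝ) + 1))) (AL w u) := by
  have h1 := (SL_hasSum hw (Real.exp_pos u)).1
  have h2 : (fun k : ℕ => AA w (u - 2 * Real.log ((k : ℝ) + 1))) = fun k : ℕ => S w (Real.exp u / ((k : ℝ) + 1) ^ 2) := by
    funext k
    unfold AA
    congr 1
    rw [Real.exp_sub, show (2 : ℝ) * Real.log ((k : ℝ) + 1) = ((2 : ℕ) : ℝ) * Real.log ((k : ℝ) + 1) by push_cast; rfl,
      Real.exp_nat_mul, Real.exp_log (by positivity)]
  rw [h2]
  exact h1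

theorem AL_meas {w : ℝ → ℝ} (hw : Wt w) : Measurable (AL w) := by
  have hm := AA_meas hw
  refine measurable_of_tendsto_metrizable (f := fun N : ℕ => fun u : ℝ =>
    ∑ k ∈ Finset.range N, AA w (u - 2 * Real.log ((k : ℝ) + 1))) ?_ ?_
  · intro N
    refine Finset.measurable_sum _ fun n _ => ?_
    fun_prop
  · rw [tendsto_pi_nhds]
    intro u
    exact (AL_hasSum hw u).tendsto_sum_nat

theorem AA_sh {w : ℝ → ℝ} {B : ℝ} (hB : 0 ≤ B) (hb : ∀ u : ℝ, 0 < u → |w u| ≤ B ∧ |w u| ≤ B / u ^ 4) (u : ℝ) (k : ℕ) :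
    |AA w (u - 2 * Real.log ((k : ℝ) + 1))| ≤ 4 * B * Real.exp u * (1 / ((k : ℝ) + 1) ^ 2) := by
  refine (AA_bd hB hb _).1.trans (le_of_eq ?_)
  rw [Real.exp_sub, show (2 : ℝ) * Real.log ((k : ℝ) + 1) = ((2 : ℕ) : ℝ) * Real.log ((k : ℝ) + 1) by push_cast; rfl,
      Real.exp_nat_mul, Real.exp_log (by positivity)]
  ring

theorem AL_bd {w : ℝ → ℝ} (hw : Wt w) : ∃ C : ℝ, 0 ≤ C ∧ ∀ u, |AL w u| ≤ C * Real.exp u := by
  obtain ⟨B, hB, hb⟩ := hw.bd
  have h0 : 0 ≤ ∑' k : ℕ, (1 / ((k : ℝ) + 1) ^ 2) := tsum_nonneg fun k => by positivity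
  refine ⟨4 * B * ∑' k : ℕ, (1 / ((k : ℝ) + 1) ^ 2), by positivity, fun u => ?_⟩
  rw [← (AL_hasSum hw u).tsum_eq]
  have h1 := tsum_of_norm_bounded (sum_sq.mul_left (4 * B * Real.exp u)).hasSum
    (f := fun k : ℕ => AA w (u - 2 * Real.log ((k : ℝ) + 1))) (fun k => by
      rw [Real.norm_eq_abs]; exact AA_sh hB hb u k)
  rw [Real.norm_eq_abs, tsum_mul_left] at h1
  refine h1.trans (le_of_eq ?_)
  ring

/-- **The kernel identity for the Liouville function.** -/
theorem liouG {w : ℝ → ℝ} (hw : Wt w) {g : ℝ → ℂ} (hg : QG g) (hD : DK (Sg g)) (t : ℝ) :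
    Integrable (fun v : ℝ => (AL w (t - v) : ℂ) * Sg g v) ∧
    ∫ v : ℝ, (AL w (t - v) : ℂ) * Sg g v = S2 (CV w g) t := by
  obtain ⟨B, hB, hb⟩ := hw.bd
  obtain ⟨C, hC, hCb⟩ := DK_exp3 hD
  obtain ⟨CL, hCL, hLb⟩ := AL_bd hw
  have hm := AA_meas hw
  have hmL := AL_meas hw
  have hc := hD.cont
  have hexp : ∀ v : ℝ, Real.exp (t - v) * Real.exp (-(3 * |v|)) ≤ Real.exp t * Real.exp (-(1 * |v|)) := by
    intro v
    rw [← Real.exp_add, ← Real.exp_add]
    refine Real.exp_le_exp.2 ?_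
    have := neg_abs_le v
    have := abs_nonneg v
    linarith
  set F : ℕ → ℝ → ℂ := fun k v => (AA w (t - 2 * Real.log ((k : ℝ) + 1) - v) : ℂ) * Sg g v with hF
  have hFb : ∀ k : ℕ, ∀ v : ℝ, ‖F k v‖ ≤ 4 * B * C * Real.exp t * (1 / ((k : ℝ) + 1) ^ 2) * Real.exp (-(1 * |v|)) := by
    intro k v
    simp only [hF]
    rw [norm_mul, Complex.norm_real, Real.norm_eq_abs, show t - 2 * Real.log ((k : ℝ) + 1) - v =
      (t - v) - 2 * Real.log ((k : ℝ) + 1) by ring]
    calc |AA w ((t - v) - 2 * Real.log ((k : ℝ) + 1))| * ‖Sg g v‖ ≤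
          (4 * B * Real.exp (t - v) * (1 / ((k : ℝ) + 1) ^ 2)) * (C * Real.exp (-(3 * |v|))) :=
          mul_le_mul (AA_sh hB hb (t - v) k) (hCb v) (norm_nonneg _) (by positivity)
      _ = 4 * B * C * (1 / ((k : ℝ) + 1) ^ 2) * (Real.exp (t - v) * Real.exp (-(3 * |v|))) := by ring
      _ ≤ 4 * B * C * (1 / ((k : ℝ) + 1) ^ 2) * (Real.exp t * Real.exp (-(1 * |v|))) :=
          mul_le_mul_of_nonneg_left (hexp v) (by positivity)
      _ = _ := by ring
  have hFi : ∀ k, Integrable (F k) := by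
    intro k
    refine ((int_exp_abs 1 one_pos).const_mul _).mono' ?_ (ae_of_all _ (hFb k))
    simp only [hF]
    exact (by fun_prop : Measurable fun v => (AA w (t - 2 * Real.log ((k : ℝ) + 1) - v) : ℂ) * Sg g v).aestronglyMeasurable
  have hFs : Summable (fun k => ∫ x, ‖F k x‖) := by
    refine Summable.of_nonneg_of_le (fun n => integral_nonneg fun z => norm_nonneg _) (fun n => ?_)
      (sum_sq.mul_left (4 * B * C * Real.exp t * ∫ v : ℝ, Real.exp (-(1 * |v|))))
    have h1 := integral_mono (hFi n).norm ((int_exp_abs 1 one_pos).const_mul _) (hFb n)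
    rw [integral_const_mul] at h1
    refine h1.trans (le_of_eq ?_)
    ring
  have key := hasSum_integral_of_summable_integral_norm hFi hFs
  have e1 : ∀ v : ℝ, ∑' k, F k v = (AL w (t - v) : ℂ) * Sg g v := by
    intro v
    simp only [hF]
    have e0 : ∑' k : ℕ, AA w (t - 2 * Real.log ((k : ℝ) + 1) - v) = AL w (t - v) := by
      rw [← (AL_hasSum hw (t - v)).tsum_eq]
      refine tsum_congr fun k => ?_
      congr 1
      ring
    rw [tsum_mul_right, ← Complex.ofReal_tsum, e0]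
  simp only [e1] at key
  refine ⟨?_, ?_⟩
  · refine ((int_exp_abs 1 one_pos).const_mul (CL * C * Real.exp t)).mono' ?_ (ae_of_all _ fun v => ?_)
    · exact (by fun_prop : Measurable fun v => (AL w (t - v) : ℂ) * Sg g v).aestronglyMeasurable
    · rw [norm_mul, Complex.norm_real, Real.norm_eq_abs]
      calc |AL w (t - v)| * ‖Sg g v‖ ≤ (CL * Real.exp (t - v)) * (C * Real.exp (-(3 * |v|))) :=
            mul_le_mul (hLb _) (hCb v) (norm_nonneg _) (by positivity)
        _ = CL * C * (Real.exp (t - v) * Real.exp (-(3 * |v|))) := by ring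
        _ ≤ CL * C * (Real.exp t * Real.exp (-(1 * |v|))) := mul_le_mul_of_nonneg_left (hexp v) (by positivity)
        _ = _ := by ring
  · rw [← key.tsum_eq]
    unfold S2
    refine tsum_congr fun k => ?_
    exact moebG hw hg (t - 2 * Real.log ((k : ℝ) + 1))

theorem moebI {w : ℝ → ℝ} (hw : Wt w) {g : ℝ → ℂ} (hD : DK (Sg g)) (t : ℝ) :
    Integrable (fun v : ℝ => (AA w (t - v) : ℂ) * Sg g v) := by
  obtain ⟨B, hB, hb⟩ := hw.bd
  obtain ⟨C, hC, hCb⟩ := DK_exp3 hD
  have hm := AA_meas hw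
  have hc := hD.cont
  refine ((int_exp_abs 1 one_pos).const_mul (4 * B * C * Real.exp t)).mono' ?_ (ae_of_all _ fun v => ?_)
  · exact (by fun_prop : Measurable fun v => (AA w (t - v) : ℂ) * Sg g v).aestronglyMeasurable
  · rw [norm_mul, Complex.norm_real, Real.norm_eq_abs]
    calc |AA w (t - v)| * ‖Sg g v‖ ≤ (4 * B * Real.exp (t - v)) * (C * Real.exp (-(3 * |v|))) :=
          mul_le_mul (AA_bd hB hb _).1 (hCb v) (norm_nonneg _) (by positivity)
      _ = 4 * B * C * (Real.exp (t - v) * Real.exp (-(3 * |v|))) := by ring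
      _ ≤ 4 * B * C * (Real.exp t * Real.exp (-(1 * |v|))) := by
          refine mul_le_mul_of_nonneg_left ?_ (by positivity)
          rw [← Real.exp_add, ← Real.exp_add]
          refine Real.exp_le_exp.2 ?_
          have := neg_abs_le v
          have := abs_nonneg v
          linarith
      _ = _ := by ring

end

end H19.EW
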