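import Pool.Agent.H19.EW.P4

/-!
# Joint oscillation: the kernel argument
-/

open Complex MeasureTheory Filter Topology Set

set_option autoImplicit false
set_option linter.unusedSectionVars false
set_option linter.unusedVariables false

namespace H19.EW

open H313.TK

noncomputable section

/-- from the growth of a twisted average to both signs in all windows -/
theorem osc_of {V : ℝ → ℝ} (hm : Measurable V) {M : ℝ} (hM : 0 < M) (hV : ∀ u, |V u| ≤ M * Real.exp u) {E : ℝ}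
    (hE : ∀ t, |∫ v, V (t - v) * kp v| ≤ E) {K : ℝ → ℂ} (hK : DK K) {β A C : ℝ} (hA : 0 < A) (h0 : 1 / 3 ≤ β)
    (h1 : β ≤ 1) (hg : ∀ t : ℝ, 0 ≤ t → A * Real.exp (β * t) - C ≤ ‖∫ v, (V (t - v) : ℂ) * K v‖) :
    ∃ c : ℝ, 0 < c ∧ ∀ᶠ l : ℝ in atTop, ∀ s : ℝ, s = 1 ∨ s = -1 →
      ∃ u ∈ Icc l (l + Real.log l), c * Real.exp (β * u) ≤ s * V u := by
  set U : ℝ → ℝ := fun u => V u / M with hU
  have hUm : Measurable U := hm.div_const M
  have hUn : ∀ u, |U u| ≤ Real.exp u := by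
    intro u
    simp only [hU]
    rw [abs_div, abs_of_pos hM, div_le_iff₀ hM, mul_comm]
    exact hV u
  obtain ⟨B, hB, hb⟩ := hK.bd
  have hE0 : 0 ≤ E := (abs_nonneg _).trans (hE 0)
  have hB1 : 0 < B + 1 := by linarith
  have hcore : ∃ c : ℝ, 0 < c ∧ ∀ᶠ t : ℝ in atTop, ∀ s : ℝ, s = 1 ∨ s = -1 →
      c * ((fun _ => (1:ℝ)) t * Real.exp (β * t)) ≤ ∫ v : ℝ, max (s * U (t - v)) 0 * kp v := by
    refine ⟨A / (8 * (B + 1) * M), by positivity, ?_⟩
    have hlim : Tendsto (fun t : ℝ => Real.exp (β * t)) atTop atTop :=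
      Real.tendsto_exp_atTop.comp (Tendsto.const_mul_atTop (by linarith) tendsto_id)
    filter_upwards [hlim.eventually_ge_atTop ((|C| + 2 * (B + 1) * E) / (A / 2)), eventually_ge_atTop (0:ℝ)] with t ht1 ht0 s hs
    rw [div_le_iff₀ (by positivity)] at ht1
    have i1 := avg_int U hUm hUn t
    have i2 : Integrable (fun v => |U (t - v)| * kp v) :=
      avg_int (fun u => |U u|) (by fun_prop) (fun u => by rw [abs_abs]; exact hUn u) t
    have i3 : Integrable (fun v => max (s * U (t - v)) 0 * kp v) :=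
      avg_int (fun u => max (s * U u) 0) (by fun_prop) (fun u => (part_le s hs _).trans (hUn u)) t
    have e1 : ∫ v, |U (t - v)| * kp v = 2 * (∫ v, max (s * U (t - v)) 0 * kp v) - s * ∫ v, U (t - v) * kp v := by
      rw [← integral_const_mul, ← integral_const_mul, ← integral_sub (i3.const_mul 2) (i1.const_mul s)]
      refine integral_congr_ae (ae_of_all _ fun v => ?_)
      simp only
      rw [part_id s hs (U (t - v))]
      ring
    have e2 : |s * ∫ v, U (t - v) * kp v| ≤ E / M := by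
      have e3 : ∫ v, U (t - v) * kp v = (∫ v, V (t - v) * kp v) / M := by
        rw [← integral_div]
        refine integral_congr_ae (ae_of_all _ fun v => ?_)
        simp only [hU]
        ring
      have hs1 : |s| = 1 := by rcases hs with h | h <;> rw [h] <;> simp
      rw [e3, abs_mul, hs1, one_mul, abs_div, abs_of_pos hM]
      exact div_le_div_of_nonneg_right (hE t) hM.le
    have e4 : ‖∫ v, (V (t - v) : ℂ) * K v‖ ≤ (2 * (B + 1) * M) * ∫ v, |U (t - v)| * kp v := by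
      rw [← integral_const_mul]
      refine norm_integral_le_of_norm_le (i2.const_mul _) (ae_of_all _ fun v => ?_)
      rw [norm_mul, Complex.norm_real, Real.norm_eq_abs]
      have h5 : ‖K v‖ ≤ 2 * (B + 1) * kp v := by
        refine (hb v).trans ?_
        have h6 := (kp_bounds v).1
        have h7 := W_pos v
        nlinarith
      have h6 : |V (t - v)| = M * |U (t - v)| := by
        simp only [hU]
        rw [abs_div, abs_of_pos hM]
        field_simp
      rw [h6]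
      calc M * |U (t - v)| * ‖K v‖ ≤ M * |U (t - v)| * (2 * (B + 1) * kp v) :=
            mul_le_mul_of_nonneg_left h5 (by positivity)
        _ = _ := by ring
    have e5 := (abs_le.1 e2).1
    have e6 := hg t ht0
    rw [e1] at e4
    have e7 : E / M * M = E := div_mul_cancel₀ E hM.ne'
    have e8 : A * Real.exp (β * t) / 2 ≤ A * Real.exp (β * t) - C - 2 * (B + 1) * E := by
      have := le_abs_self C
      linarith
    have e9 : A * Real.exp (β * t) - C - 2 * (B + 1) * E ≤ 4 * (B + 1) * M * ∫ v, max (s * U (t - v)) 0 * kp v := by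
      have e10 : (2 * (B + 1) * M) * (2 * (∫ v, max (s * U (t - v)) 0 * kp v) - s * ∫ v, U (t - v) * kp v) ≤
          4 * (B + 1) * M * (∫ v, max (s * U (t - v)) 0 * kp v) + 2 * (B + 1) * E := by
        have e11 : -(s * ∫ v, U (t - v) * kp v) ≤ E / M := by linarith
        have e12 := mul_le_mul_of_nonneg_left e11 (by positivity : 0 ≤ 2 * (B + 1) * M)
        have e13 : 2 * (B + 1) * M * (E / M) = 2 * (B + 1) * E := by
          rw [mul_assoc (2 * (B + 1)), mul_comm M, e7]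
        rw [e13] at e12
        linarith
      linarith
    have e14 : A / (8 * (B + 1) * M) * (1 * Real.exp (β * t)) = (A * Real.exp (β * t) / 2) / (4 * (B + 1) * M) := by
      field_simp
      ring
    rw [e14, div_le_iff₀ (by positivity)]
    have e15 := e8.trans e9
    linarith
  obtain ⟨c, hc, hev⟩ := win_sup hUm hUn β h0 h1 (fun _ => 1) (Eventually.of_forall fun _ => le_rfl) hcore
  refine ⟨c * M, by positivity, ?_⟩
  filter_upwards [hev] with l hl s hs
  obtain ⟨u, hu, hu2⟩ := hl s hs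
  refine ⟨u, hu, ?_⟩
  simp only [hU, one_mul] at hu2
  have h3 : s * V u = (s * (V u / M)) * M := by field_simp
  rw [h3, mul_right_comm]
  exact mul_le_mul_of_nonneg_right hu2 hM.le

/-! ### the combination -/

/-- coefficient of the square root term -/
def kap (w : ℝ → ℝ) : ℝ := (∫ u in Ioi (0:ℝ), w u * u ^ (-(1 / 2) : ℝ)) / (2 * (riemannZeta (1 / 2)).re)

theorem zeta_half_re : riemannZeta (1 / 2) = ((riemannZeta (1 / 2)).re : ℂ) := by
  have h := riemannZeta_conj (1 / 2)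
  have h2 : (starRingEnd ℂ) (1 / 2 : ℂ) = 1 / 2 := by
    rw [map_div₀, map_one]
    congr 1
    exact Complex.conj_ofNat 2
  rw [h2] at h
  exact (Complex.conj_eq_iff_re.1 h.symm).symm

theorem zeta_half_ne : riemannZeta (1 / 2) ≠ 0 := by
  intro h
  have h1 := H353.FF_real_ne (1 / 2) (by norm_num)
  apply h1
  have h2 : ((1 / 2 : ℝ) : ℂ) = 1 / 2 := by push_cast; rfl
  show ZU.J_g2b.FF ((1 / 2 : ℝ) : ℂ) = 0
  rw [h2, ZU.J_g2b.FF_ne (by norm_num), h, mul_zero]

theorem zeta_half_re_ne : (riemannZeta (1 / 2)).re ≠ 0 := by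
  intro h
  apply zeta_half_ne
  rw [zeta_half_re, h, Complex.ofReal_zero]

theorem wh_half (w : ℝ → ℝ) : wh w (1 / 2) = ((∫ u in Ioi (0:ℝ), w u * u ^ (-(1 / 2) : ℝ) : ℝ) : ℂ) := by
  unfold wh mellin
  rw [← integral_complex_ofReal]
  refine setIntegral_congr_fun measurableSet_Ioi fun u hu => ?_
  have hu0 : (0:ℝ) < u := hu
  simp only [smul_eq_mul]
  rw [show (1 / 2 : ℂ) - 1 = ((-(1 / 2) : ℝ) : ℂ) by push_cast; ring, ← Complex.ofReal_cpow hu0.le]
  push_cast
  ring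

theorem k2_kap {a b c B α : ℝ} {w : ℝ → ℝ} (h : Tame a b w c B α) :
    k2 w = (kap w : ℂ) * (riemannZeta (1 / 2) * qh (1 / 2)) := by
  rw [k2_eq h, wh_half]
  unfold kap
  have h1 := zeta_half_re_ne
  have h2 : ((riemannZeta (1 / 2)).re : ℂ) ≠ 0 := by exact_mod_cast h1
  rw [zeta_half_re]
  simp only [Complex.ofReal_re]
  push_cast
  field_simp

/-- the combination, with the main term removed -/
def Vf (p q : ℝ) (w : ℝ → ℝ) (u : ℝ) : ℝ := p * AA w u + q * (AL w u - kap w * Real.exp (u / 2))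

/-- truncated -/
def VV (p q : ℝ) (w : ℝ → ℝ) (u : ℝ) : ℝ := if 0 ≤ u then Vf p q w u else 0

theorem Vf_meas {w : ℝ → ℝ} (hw : Wt w) (p q : ℝ) : Measurable (Vf p q w) := by
  have h1 := AA_meas hw
  have h2 := AL_meas hw
  unfold Vf
  fun_prop

theorem VV_meas {w : ℝ → ℝ} (hw : Wt w) (p q : ℝ) : Measurable (VV p q w) :=
  Measurable.ite measurableSet_Ici (Vf_meas hw p q) measurable_const

theorem Vf_bd {w : ℝ → ℝ} (hw : Wt w) (p q : ℝ) : ∃ C : ℝ, 0 < C ∧ ∀ u, |Vf p q w u| ≤ C * (Real.exp u + Real.exp (u / 2)) := by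
  obtain ⟨B, hB, hb⟩ := hw.bd
  obtain ⟨CL, hCL, hLb⟩ := AL_bd hw
  refine ⟨|p| * (4 * B) + |q| * (CL + |kap w|) + 1, by positivity, fun u => ?_⟩
  unfold Vf
  have h1 := (AA_bd hB hb u).1
  have h2 := hLb u
  have e1 := Real.exp_pos u
  have e2 := Real.exp_pos (u / 2)
  have hp := abs_nonneg p
  have hq := abs_nonneg q
  have hk := abs_nonneg (kap w)
  calc |p * AA w u + q * (AL w u - kap w * Real.exp (u / 2))| ≤ |p| * |AA w u| + |q| * (|AL w u| + |kap w| * Real.exp (u / 2)) := by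
        refine (abs_add_le _ _).trans ?_
        rw [abs_mul, abs_mul]
        refine add_le_add le_rfl (mul_le_mul_of_nonneg_left ?_ hq)
        refine (abs_sub _ _).trans (le_of_eq ?_)
        rw [abs_mul, abs_of_pos e2]
    _ ≤ |p| * (4 * B * Real.exp u) + |q| * (CL * Real.exp u + |kap w| * Real.exp (u / 2)) := by gcongr
    _ ≤ _ := by
        have a1 : 0 ≤ |p| * (4 * B) * Real.exp (u / 2) := by positivity
        have a2 : 0 ≤ |q| * CL * Real.exp (u / 2) := by positivity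
        have a3 : 0 ≤ |q| * |kap w| * Real.exp u := by positivity
        nlinarith

theorem VV_bd {w : ℝ → ℝ} (hw : Wt w) (p q : ℝ) : ∃ M : ℝ, 0 < M ∧ (∀ u, |VV p q w u| ≤ M * Real.exp u) ∧
    ∀ u, |VV p q w u - Vf p q w u| ≤ M := by
  obtain ⟨C, hC, hb⟩ := Vf_bd hw p q
  refine ⟨2 * C, by positivity, fun u => ?_, fun u => ?_⟩
  · unfold VV
    split_ifs with h
    · refine (hb u).trans ?_
      have : Real.exp (u / 2) ≤ Real.exp u := Real.exp_le_exp.2 (by linarith)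
      nlinarith
    · rw [abs_zero]
      have := Real.exp_pos u
      positivity
  · unfold VV
    split_ifs with h
    · rw [sub_self, abs_zero]
      positivity
    · rw [zero_sub, abs_neg]
      refine (hb u).trans ?_
      have h1 : Real.exp u ≤ 1 := Real.exp_le_one_iff.2 (by linarith)
      have h2 : Real.exp (u / 2) ≤ 1 := Real.exp_le_one_iff.2 (by linarith)
      nlinarith

/-- **The kernel identity for the combination.** -/
theorem V_id {w : ℝ → ℝ} (hw : Wt w) (p q : ℝ) {g : ℝ → ℂ} (hg : QG g) (hD : DK (Sg g)) :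
    ∃ C : ℝ, 0 ≤ C ∧ ∀ t : ℝ, ‖(∫ v, (VV p q w (t - v) : ℂ) * Sg g v) -
      (p * CV w g t + q * S2 (CV w g) t - q * kap w * TT (Sg g) (1 / 2) * cexp ((1 / 2 : ℂ) * t))‖ ≤ C := by
  obtain ⟨M, hM, hVb, hdiff⟩ := VV_bd hw p q
  have hDi : Integrable (Sg g) := by
    have := tw_int hD 0 (by norm_num)
    simpa using this
  refine ⟨M * ∫ v, ‖Sg g v‖, by positivity, fun t => ?_⟩
  have i1 := moebI hw hD t
  obtain ⟨i2, e2⟩ := liouG hw hg hD t
  have i3 : Integrable (fun v : ℝ => cexp (-(1 / 2 : ℂ) * v) * Sg g v) := tw_int hD (1 / 2) (by norm_num)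
  have hf : ∀ v : ℝ, (Vf p q w (t - v) : ℂ) * Sg g v = p * ((AA w (t - v) : ℂ) * Sg g v) +
      (q * ((AL w (t - v) : ℂ) * Sg g v) - (q * kap w * cexp ((1 / 2 : ℂ) * t)) * (cexp (-(1 / 2 : ℂ) * v) * Sg g v)) := by
    intro v
    have e3 : cexp (((t : ℂ) - v) / 2) = cexp ((1 / 2 : ℂ) * t) * cexp (-(1 / 2 : ℂ) * v) := by
      rw [← Complex.exp_add]
      congr 1
      ring
    unfold Vf
    push_cast
    rw [e3]
    ring
  have hVfi : Integrable (fun v : ℝ => (Vf p q w (t - v) : ℂ) * Sg g v) := by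
    simp only [hf]
    exact (i1.const_mul _).add ((i2.const_mul _).sub (i3.const_mul _))
  have hVf : ∫ v, (Vf p q w (t - v) : ℂ) * Sg g v =
      p * CV w g t + q * S2 (CV w g) t - q * kap w * TT (Sg g) (1 / 2) * cexp ((1 / 2 : ℂ) * t) := by
    simp only [hf]
    have i4 : Integrable (fun v : ℝ => q * ((AL w (t - v) : ℂ) * Sg g v) -
        (q * kap w * cexp ((1 / 2 : ℂ) * t)) * (cexp (-(1 / 2 : ℂ) * v) * Sg g v)) :=
      (i2.const_mul _).sub (i3.const_mul _)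
    rw [integral_add (i1.const_mul _) i4,
      integral_sub (i2.const_mul _) (i3.const_mul _), integral_const_mul, integral_const_mul, integral_const_mul, e2,
      moebG hw hg t]
    unfold TT
    ring
  have hm := VV_meas hw p q
  have hm2 := Vf_meas hw p q
  have hc := hD.cont
  have hdi : Integrable (fun v : ℝ => ((VV p q w (t - v) - Vf p q w (t - v) : ℝ) : ℂ) * Sg g v) := by
    refine (hDi.norm.const_mul M).mono' ?_ (ae_of_all _ fun v => ?_)
    · exact (by fun_prop : Measurable fun v => ((VV p q w (t - v) - Vf p q w (t - v) : ℝ) : ℂ) * Sg g v).aestronglyMeasurable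
    · rw [norm_mul, Complex.norm_real, Real.norm_eq_abs]
      exact mul_le_mul_of_nonneg_right (hdiff _) (norm_nonneg _)
  have e5 : (∫ v, (VV p q w (t - v) : ℂ) * Sg g v) - ∫ v, (Vf p q w (t - v) : ℂ) * Sg g v =
      ∫ v, ((VV p q w (t - v) - Vf p q w (t - v) : ℝ) : ℂ) * Sg g v := by
    have e6 : ∫ v, (VV p q w (t - v) : ℂ) * Sg g v = (∫ v, (Vf p q w (t - v) : ℂ) * Sg g v) +
        ∫ v, ((VV p q w (t - v) - Vf p q w (t - v) : ℝ) : ℂ) * Sg g v := by
      rw [← integral_add hVfi hdi]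
      refine integral_congr_ae (ae_of_all _ fun v => ?_)
      simp only
      push_cast
      ring
    rw [e6]
    ring
  rw [← hVf, e5]
  refine (norm_integral_le_of_norm_le (hDi.norm.const_mul M) (ae_of_all _ fun v => ?_)).trans (le_of_eq (integral_const_mul _ _))
  rw [norm_mul, Complex.norm_real, Real.norm_eq_abs]
  exact mul_le_mul_of_nonneg_right (hdiff _) (norm_nonneg _)

/-- bounded part of the combination -/
def bpq (p q : ℝ) (w : ℝ → ℝ) (t : ℝ) : ℂ := p * CV w qc t + q * b2 w t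

theorem bpq_BB {a b c B α : ℝ} {w : ℝ → ℝ} (h : Tame a b w c B α) (p q : ℝ) : BB (bpq p q w) :=
  ((qc_BB0 h.wt).smul p).add ((b2_BB h).smul q)

theorem FB_pq (p q : ℝ) (w : ℝ → ℝ) : FB (q * k2 w) (bpq p q w) = fun t => p * CV w qc t + q * S2 (CV w qc) t := by
  funext t
  unfold FB bpq b2
  ring

theorem iter_lin {f g : ℝ → ℂ} (hf : QG f) (hg : QG g) {ρ : ℂ} (hρ : ρ.re < 2) (p q : ℂ) (j : ℕ) :
    (Ist ρ)^[j] (fun t => p * f t + q * g t) = fun t => p * (Ist ρ)^[j] f t + q * (Ist ρ)^[j] g t := by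
  induction j with
  | zero => rfl
  | succ j ih =>
    rw [Function.iterate_succ_apply', ih]
    funext t
    rw [Ist_add ((iter_QG hf hρ j).smul p) ((iter_QG hg hρ j).smul q) hρ, Ist_smul, Ist_smul,
      Function.iterate_succ_apply', Function.iterate_succ_apply']

theorem TT_iter {g : ℝ → ℂ} (hg : DK g) {ρ : ℂ} (hρ : |ρ.re| < 2) :
    ∀ j : ℕ, (j : ℕ∞) ≤ analyticOrderAt (TT g) ρ → ∀ s : ℂ, |s.re| ≤ 2 →
      TT g s = (s - ρ) ^ j * TT ((Ist ρ)^[j] g) s := by
  intro j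
  induction j with
  | zero => intro _ s _; simp
  | succ j ih =>
    intro hj s hs
    have hj' : (j : ℕ∞) ≤ analyticOrderAt (TT g) ρ := le_trans (by exact_mod_cast Nat.le_succ j) hj
    obtain ⟨h1, h2⟩ := DK_iter hg hρ j hj'
    have h3 : analyticOrderAt (TT ((Ist ρ)^[j] g)) ρ ≠ 0 := by
      intro h
      rw [h2, h, zero_add] at hj
      have : (j + 1 : ℕ) ≤ j := by exact_mod_cast hj
      omega
    have h4 : TT ((Ist ρ)^[j] g) ρ = 0 := by
      by_contra h5
      exact h3 ((DK_an h1 (by linarith)).analyticOrderAt_eq_zero.2 h5)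
    rw [ih hj' s hs, DK_TT h1 hρ.le h4 hs, Function.iterate_succ_apply', pow_succ]
    ring

/-- **Both signs in every window at a surviving zero, joint version.** -/
theorem joint {a b c B α : ℝ} {w : ℝ → ℝ} (h : Tame a b w c B α) (p q : ℝ) {ρ : ℂ} (h0 : 1 / 3 ≤ ρ.re) (h1 : ρ.re < 1)
    (hne : ρ ≠ 1 / 2) {k : ℕ} (hk : analyticOrderAt (LL (q * k2 w) (bpq p q w)) ρ = k)
    (hm : ((k + 1 : ℕ) : ℕ∞) ≤ analyticOrderAt riemannZeta ρ) :
    ∃ c : ℝ, 0 < c ∧ ∀ᶠ l : ℝ in atTop, ∀ s : ℝ, s = 1 ∨ s = -1 →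
      ∃ u ∈ Icc l (l + Real.log l), c * Real.exp (ρ.re * u) ≤ s * Vf p q w u := by
  have hw := h.wt
  have hp : 0 < ρ.re := by linarith
  have h2 : ρ.re < 2 := by linarith
  have hre : |ρ.re| < 2 := by rw [abs_of_pos hp]; exact h2
  have hmk : ((k + 1 : ℕ) : ℕ∞) ≤ analyticOrderAt (TT kc) ρ := by rw [order_kc hp h1]; exact hm
  have hD : DK (Sg ((Ist ρ)^[k + 1] qc)) := by
    rw [iter_Sg h2]
    exact (DK_iter kc_DK hre (k + 1) hmk).1
  have hD0 : DK (Sg qc) := by rw [← kc_eq]; exact kc_DK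
  obtain ⟨M, hM, hVb, _⟩ := VV_bd hw p q
  obtain ⟨C1, hC1, h1⟩ := V_id hw p q (iter_QG qc_QG h2 (k + 1)) hD
  obtain ⟨C2, hC2, h2'⟩ := V_id hw p q qc_QG hD0
  obtain ⟨C3, hC3, h3⟩ := Th0_asy
  obtain ⟨C4, hC4, h4⟩ := (bpq_BB h p q).bd
  obtain ⟨A, C5, hA, hC5, h5⟩ := FB_grow (bpq_BB h p q) hp h2 hne hk
  have hTT0 : TT (Sg qc) (1 / 2) = riemannZeta (1 / 2) * qh (1 / 2) := by
    rw [← kc_eq]
    exact Kh_eq (1 / 2) (by norm_num) (by norm_num) (by norm_num)
  have hd : (1 / 2 : ℂ) - ρ ≠ 0 := sub_ne_zero.2 (Ne.symm hne)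
  have hTTk : TT (Sg ((Ist ρ)^[k + 1] qc)) (1 / 2) = riemannZeta (1 / 2) * qh (1 / 2) / (1 / 2 - ρ) ^ (k + 1) := by
    rw [iter_Sg h2, eq_div_iff (pow_ne_zero _ hd), ← hTT0, ← kc_eq, TT_iter kc_DK hre (k + 1) hmk (1 / 2) (by norm_num)]
    ring
  -- the averages of `V` are bounded
  have hE : ∀ t, |∫ v, VV p q w (t - v) * kp v| ≤ C4 + ‖(q : ℂ) * k2 w‖ * C3 + C2 := by
    intro t
    have e1 : ((∫ v, VV p q w (t - v) * kp v : ℝ) : ℂ) = ∫ v, (VV p q w (t - v) : ℂ) * Sg qc v := by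
      rw [← kc_eq, ← integral_complex_ofReal]
      refine integral_congr_ae (ae_of_all _ fun v => ?_)
      simp [kc]
    have e2 := h2' t
    rw [hTT0, ← e1] at e2
    have e3 : (p : ℂ) * CV w qc t + q * S2 (CV w qc) t = FB (q * k2 w) (bpq p q w) t := by rw [FB_pq]
    rw [e3] at e2
    have e4 : FB (q * k2 w) (bpq p q w) t - q * kap w * (riemannZeta (1 / 2) * qh (1 / 2)) * cexp ((1 / 2 : ℂ) * t) =
        bpq p q w t + q * k2 w * (Th0 t - cexp ((1 / 2 : ℂ) * t)) := by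
      unfold FB
      rw [k2_kap h]
      ring
    rw [e4] at e2
    have e5 : ‖bpq p q w t + q * k2 w * (Th0 t - cexp ((1 / 2 : ℂ) * t))‖ ≤ C4 + ‖(q : ℂ) * k2 w‖ * C3 := by
      refine (norm_add_le _ _).trans (add_le_add (h4 t).1 ?_)
      rw [norm_mul]
      exact mul_le_mul_of_nonneg_left (h3 t) (norm_nonneg _)
    have e6 : |∫ v, VV p q w (t - v) * kp v| = ‖((∫ v, VV p q w (t - v) * kp v : ℝ) : ℂ)‖ := by
      rw [Complex.norm_real, Real.norm_eq_abs]
    rw [e6]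
    have e7 := norm_sub_norm_le ((∫ v, VV p q w (t - v) * kp v : ℝ) : ℂ) (bpq p q w t + q * k2 w * (Th0 t - cexp ((1 / 2 : ℂ) * t)))
    linarith
  -- growth
  have hgrow : ∀ t : ℝ, 0 ≤ t → A * Real.exp (ρ.re * t) - (C5 + ‖(q : ℂ) * k2 w / (1 / 2 - ρ) ^ (k + 1)‖ * C3 + C1) ≤
      ‖∫ v, (VV p q w (t - v) : ℂ) * Sg ((Ist ρ)^[k + 1] qc) v‖ := by
    intro t _
    have e2 := h1 t
    rw [hTTk, iter_CV hw h2, S2_iter (CV_QG hw qc_QG) h2] at e2
    have e3 : (p : ℂ) * (Ist ρ)^[k + 1] (CV w qc) t + q * (Ist ρ)^[k + 1] (S2 (CV w qc)) t =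
        (Ist ρ)^[k + 1] (FB (q * k2 w) (bpq p q w)) t := by
      rw [FB_pq, iter_lin (CV_QG hw qc_QG) (S2_QG (CV_QG hw qc_QG)) h2]
    rw [e3] at e2
    set X := (Ist ρ)^[k + 1] (FB (q * k2 w) (bpq p q w)) t with hX
    set κ' : ℂ := q * k2 w / (1 / 2 - ρ) ^ (k + 1) with hκ'
    have e4 : X - q * kap w * (riemannZeta (1 / 2) * qh (1 / 2) / (1 / 2 - ρ) ^ (k + 1)) * cexp ((1 / 2 : ℂ) * t) =
        (X - κ' * Th0 t) + κ' * (Th0 t - cexp ((1 / 2 : ℂ) * t)) := by
      rw [hκ', k2_kap h]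
      ring
    rw [e4] at e2
    have e5 := h5 t
    have e6 : ‖κ' * (Th0 t - cexp ((1 / 2 : ℂ) * t))‖ ≤ ‖κ'‖ * C3 := by
      rw [norm_mul]
      exact mul_le_mul_of_nonneg_left (h3 t) (norm_nonneg _)
    set I := ∫ v, (VV p q w (t - v) : ℂ) * Sg ((Ist ρ)^[k + 1] qc) v with hI
    have e7 : ‖X - κ' * Th0 t‖ ≤ ‖I‖ + ‖I - ((X - κ' * Th0 t) + κ' * (Th0 t - cexp ((1 / 2 : ℂ) * t)))‖ +
        ‖κ' * (Th0 t - cexp ((1 / 2 : ℂ) * t))‖ := by
      have e8 : X - κ' * Th0 t = I - (I - ((X - κ' * Th0 t) + κ' * (Th0 t - cexp ((1 / 2 : ℂ) * t)))) -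
          κ' * (Th0 t - cexp ((1 / 2 : ℂ) * t)) := by ring
      calc ‖X - κ' * Th0 t‖ = ‖I - (I - ((X - κ' * Th0 t) + κ' * (Th0 t - cexp ((1 / 2 : ℂ) * t)))) -
          κ' * (Th0 t - cexp ((1 / 2 : ℂ) * t))‖ := by rw [← e8]
        _ ≤ ‖I - (I - ((X - κ' * Th0 t) + κ' * (Th0 t - cexp ((1 / 2 : ℂ) * t))))‖ +
          ‖κ' * (Th0 t - cexp ((1 / 2 : ℂ) * t))‖ := norm_sub_le _ _
        _ ≤ _ := add_le_add (norm_sub_le _ _) le_rfl
    linarith
  obtain ⟨c', hc', hev⟩ := osc_of (VV_meas hw p q) hM hVb hE hD hA h0 ‹ρ.re < 1›.le hgrow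
  refine ⟨c', hc', ?_⟩
  filter_upwards [hev, eventually_ge_atTop (0:ℝ)] with l hl hl0 s hs
  obtain ⟨u, hu, hu2⟩ := hl s hs
  refine ⟨u, hu, ?_⟩
  unfold VV at hu2
  rw [if_pos (hl0.trans hu.1)] at hu2
  exact hu2

end

end H19.EW
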