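import Pool.Agent.H19.EW.P5

/-!
# Values of the zeta function to the right of the critical line
-/

open Complex MeasureTheory Filter Topology Set

set_option autoImplicit false
set_option linter.unusedSectionVars false
set_option linter.unusedVariables false

namespace H19.EW

noncomputable section

open H353

/-- the combination -/
def fpq (p q : ℝ) (z : ℂ) : ℂ := p + q * riemannZeta z

theorem MX_one (s : ℂ) : MX 1 s = 1 := by
  unfold MX
  simp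

theorem fz_one (s : ℂ) : fz 1 s = riemannZeta s - 1 := by
  unfold fz
  rw [MX_one, mul_one]

theorem fpq_eq (p q : ℝ) (s : ℂ) : fpq p q s = (p + q : ℝ) + q * fz 1 s := by
  unfold fpq
  rw [fz_one]
  push_cast
  ring

theorem aa_one (L n : ℕ) : |aa L 1 n| ≤ 1 := by
  unfold aa
  have h1 : (Finset.Icc 1 L ×ˢ Finset.Icc 1 1).filter (fun p => p.1 * p.2 = n) ⊆ {(n, 1)} := by
    intro p hp
    rw [Finset.mem_filter, Finset.mem_product, Finset.mem_Icc, Finset.mem_Icc] at hp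
    rw [Finset.mem_singleton]
    obtain ⟨⟨h1, h2⟩, h3⟩ := hp
    have h4 : p.2 = 1 := by omega
    rw [h4, mul_one] at h3
    exact Prod.ext h3 h4
  refine (Finset.abs_sum_le_sum_abs _ _).trans ?_
  refine (Finset.sum_le_sum_of_subset_of_nonneg h1 fun _ _ _ => abs_nonneg _).trans ?_
  simp

theorem sum98 : Summable (fun n : ℕ => (n : ℝ) ^ (-(9 / 8) : ℝ)) := Real.summable_nat_rpow.2 (by norm_num)

/-- mean square of `ζ - 1` -/
theorem msq : ∃ C : ℝ, 0 < C ∧ ∀ T : ℝ, 1 ≤ T → ∀ σ ∈ Icc (13 / 16 : ℝ) (3 / 2),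
    ∫ t in (T / 2)..(3 * T), ‖fz 1 ((σ : ℂ) + t * I)‖ ^ 2 ≤ C * T := by
  set Sg0 : ℝ := ∑' n : ℕ, (n : ℝ) ^ (-(9 / 8) : ℝ) with hSg0
  have hS0 : 0 ≤ Sg0 := tsum_nonneg fun n => by positivity
  refine ⟨3 * Real.exp 9 * (24 * √Real.pi * (2 * Sg0)) + 30 + 3 * Real.exp 9 * 12 * (2 * Real.pi * 2), by positivity, ?_⟩
  intro T hT σ hσ
  have hT0 : 0 < T := by linarith
  have hT2 : 1 ≤ T ^ 2 := by nlinarith
  obtain ⟨f1, f2, f3⟩ := floor_bounds (T ^ 2) hT2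
  set L : ℕ := ⌊T ^ 2⌋₊ with hL
  have hL1 : (1:ℝ) ≤ L := by exact_mod_cast f1
  have key := Pool.Agent.W190.fz_ms L 1 le_rfl f1 σ T 1 (by linarith [hσ.1]) hσ.2 hT (by rw [mul_one]; exact f2) (by
    intro t
    rw [MX_one, norm_one])
  refine key.trans ?_
  have a1 : ∑ n ∈ Finset.Ioc 1 (L * 1), (T + n) * (aa L 1 n ^ 2 * (n : ℝ) ^ (-(2 * σ))) ≤ 2 * T * Sg0 := by
    have h1 : ∀ n ∈ Finset.Ioc 1 (L * 1), (T + n) * (aa L 1 n ^ 2 * (n : ℝ) ^ (-(2 * σ))) ≤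
        2 * T * (n : ℝ) ^ (-(9 / 8) : ℝ) := by
      intro n hn
      rw [Finset.mem_Ioc, mul_one] at hn
      have hn1 : (1:ℝ) ≤ n := by exact_mod_cast hn.1.le
      have hn0 : (0:ℝ) < n := by linarith
      have hnT : (n : ℝ) ≤ T ^ 2 := le_trans (by exact_mod_cast hn.2) f2
      have e1 : aa L 1 n ^ 2 ≤ 1 := by
        have := aa_one L n
        rw [← sq_abs]
        have h0 := abs_nonneg (aa L 1 n)
        nlinarith
      have e2 : (n : ℝ) ^ (-(2 * σ)) ≤ (n : ℝ) ^ (-(13 / 8) : ℝ) :=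
        Real.rpow_le_rpow_of_exponent_le hn1 (by linarith [hσ.1])
      have e3 : aa L 1 n ^ 2 * (n : ℝ) ^ (-(2 * σ)) ≤ (n : ℝ) ^ (-(13 / 8) : ℝ) := by
        calc _ ≤ 1 * (n : ℝ) ^ (-(13 / 8) : ℝ) := mul_le_mul e1 e2 (by positivity) zero_le_one
          _ = _ := one_mul _
      have e4 : (n : ℝ) ^ (-(13 / 8) : ℝ) ≤ (n : ℝ) ^ (-(9 / 8) : ℝ) :=
        Real.rpow_le_rpow_of_exponent_le hn1 (by norm_num)
      have e5 : (n : ℝ) * (n : ℝ) ^ (-(13 / 8) : ℝ) ≤ T * (n : ℝ) ^ (-(9 / 8) : ℝ) := by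
        have e6 : (n : ℝ) * (n : ℝ) ^ (-(13 / 8) : ℝ) = (n : ℝ) ^ (1 / 2 : ℝ) * (n : ℝ) ^ (-(9 / 8) : ℝ) := by
          rw [← Real.rpow_add hn0]
          nth_rewrite 1 [← Real.rpow_one (n : ℝ)]
          rw [← Real.rpow_add hn0]
          norm_num
        rw [e6]
        refine mul_le_mul_of_nonneg_right ?_ (by positivity)
        calc (n : ℝ) ^ (1 / 2 : ℝ) ≤ (T ^ 2) ^ (1 / 2 : ℝ) := Real.rpow_le_rpow hn0.le hnT (by norm_num)
          _ = T := by rw [← Real.sqrt_eq_rpow, Real.sqrt_sq hT0.le]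
      calc (T + n) * (aa L 1 n ^ 2 * (n : ℝ) ^ (-(2 * σ))) ≤ (T + n) * (n : ℝ) ^ (-(13 / 8) : ℝ) :=
            mul_le_mul_of_nonneg_left e3 (by positivity)
        _ = T * (n : ℝ) ^ (-(13 / 8) : ℝ) + (n : ℝ) * (n : ℝ) ^ (-(13 / 8) : ℝ) := by ring
        _ ≤ T * (n : ℝ) ^ (-(9 / 8) : ℝ) + T * (n : ℝ) ^ (-(9 / 8) : ℝ) :=
            add_le_add (mul_le_mul_of_nonneg_left e4 hT0.le) e5
        _ = _ := by ring
    refine (Finset.sum_le_sum h1).trans ?_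
    rw [← Finset.mul_sum]
    exact mul_le_mul_of_nonneg_left (sum98.sum_le_tsum _ fun n _ => by positivity) (by positivity)
  have a2 : 30 * ((L : ℝ) ^ (1 - σ) * 1) ^ 2 / T ≤ 30 * T := by
    have h1 : (L : ℝ) ^ (1 - σ) ≤ T := by
      calc (L : ℝ) ^ (1 - σ) ≤ (L : ℝ) ^ (1 / 2 : ℝ) := Real.rpow_le_rpow_of_exponent_le hL1 (by linarith [hσ.1])
        _ ≤ (T ^ 2) ^ (1 / 2 : ℝ) := Real.rpow_le_rpow (by linarith) f2 (by norm_num)
        _ = T := by rw [← Real.sqrt_eq_rpow, Real.sqrt_sq hT0.le]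
    have h2 : 0 ≤ (L : ℝ) ^ (1 - σ) := by positivity
    rw [div_le_iff₀ hT0, mul_one]
    nlinarith
  have a3 : 3 * Real.exp 9 * (12 * T ^ 2) * 1 ^ 2 * (2 * Real.pi * ((L : ℝ) ^ (-(2 * σ)) / (2 * σ))) ≤
      3 * Real.exp 9 * 12 * (2 * Real.pi * 2) * T := by
    have h1 : (L : ℝ) ^ (-(2 * σ)) ≤ 2 / T ^ 2 := by
      calc (L : ℝ) ^ (-(2 * σ)) ≤ (L : ℝ) ^ (-1 : ℝ) := Real.rpow_le_rpow_of_exponent_le hL1 (by linarith [hσ.1])
        _ = 1 / L := by rw [Real.rpow_neg_one, one_div]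
        _ ≤ 1 / (T ^ 2 / 2) := one_div_le_one_div_of_le (by positivity) f3
        _ = _ := by field_simp
    have h2 : (L : ℝ) ^ (-(2 * σ)) / (2 * σ) ≤ 2 / T ^ 2 := by
      refine (div_le_self (by positivity) (by linarith [hσ.1])).trans h1
    have hpi := Real.pi_pos
    calc _ ≤ 3 * Real.exp 9 * (12 * T ^ 2) * 1 ^ 2 * (2 * Real.pi * (2 / T ^ 2)) := by gcongr
      _ = 3 * Real.exp 9 * 12 * (2 * Real.pi * 2) * 1 := by field_simp
      _ ≤ _ := mul_le_mul_of_nonneg_left hT (by positivity)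
  calc _ ≤ 3 * Real.exp 9 * (24 * √Real.pi * (2 * T * Sg0)) + 30 * T + 3 * Real.exp 9 * 12 * (2 * Real.pi * 2) * T := by
        refine add_le_add (add_le_add ?_ a2) a3
        gcongr
    _ = _ := by ring

/-! ### far to the right -/

theorem inv_sq_tail (k : ℕ) (hk : 1 ≤ k) : ∑' i : ℕ, 1 / ((i : ℝ) + k + 1) ^ 2 ≤ 1 := by
  have h1 : HasSum (fun n : ℕ => 1 / (n : ℝ) ^ 2) (Real.pi ^ 2 / 6) := hasSum_zeta_two
  have h2 := h1.summable.sum_add_tsum_nat_add (k + 1)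
  rw [h1.tsum_eq] at h2
  have h3 : (1:ℝ) ≤ ∑ i ∈ Finset.range (k + 1), 1 / (i : ℝ) ^ 2 := by
    have h9 := Finset.single_le_sum (f := fun i : ℕ => 1 / (i : ℝ) ^ 2) (s := Finset.range (k + 1))
      (fun i _ => by positivity) (Finset.mem_range.2 (by omega : 1 < k + 1))
    simp only [Nat.cast_one, one_pow, div_one] at h9
    exact h9
  have h4 : ∑' i : ℕ, 1 / ((i : ℝ) + k + 1) ^ 2 = ∑' i : ℕ, 1 / ((i + (k + 1) : ℕ) : ℝ) ^ 2 := by
    refine tsum_congr fun i => ?_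
    push_cast
    ring
  rw [h4]
  have := Real.pi_lt_d2
  have := Real.pi_pos
  nlinarith

theorem zeta_tail {s : ℂ} (hs : 2 ≤ s.re) (k : ℕ) (hk : 1 ≤ k) :
    ‖riemannZeta s - ∑ i ∈ Finset.range k, 1 / ((i : ℂ) + 1) ^ s‖ ≤ ((k : ℝ) + 1) ^ (2 - s.re) := by
  have hs1 : 1 < s.re := by linarith
  have hsum : Summable (fun n : ℕ => 1 / ((n : ℂ) + 1) ^ s) := by
    have h3 : Summable (fun n : ℕ => 1 / (n : ℂ) ^ s) := Complex.summable_one_div_nat_cpow.2 hs1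
    have h4 := (summable_nat_add_iff 1).2 h3
    refine h4.congr fun n => ?_
    push_cast
    rfl
  rw [zeta_eq_tsum_one_div_nat_add_one_cpow hs1]
  have h1 := hsum.sum_add_tsum_nat_add k
  have e1 : ∑' n : ℕ, 1 / ((n : ℂ) + 1) ^ s - ∑ i ∈ Finset.range k, 1 / ((i : ℂ) + 1) ^ s =
      ∑' i : ℕ, 1 / (((i + k : ℕ) : ℂ) + 1) ^ s := by
    rw [← h1]
    ring
  rw [e1]
  have hb : ∀ i : ℕ, ‖1 / (((i + k : ℕ) : ℂ) + 1) ^ s‖ ≤ ((k : ℝ) + 1) ^ (2 - s.re) * (1 / ((i : ℝ) + k + 1) ^ 2) := by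
    intro i
    have hn : (((i + k : ℕ) : ℂ) + 1) = ((((i : ℝ) + k + 1 : ℝ)) : ℂ) := by push_cast; rfl
    have hpos : (0:ℝ) < (i : ℝ) + k + 1 := by positivity
    rw [hn, norm_div, norm_one, Complex.norm_cpow_eq_rpow_re_of_pos hpos]
    have e2 : 1 / ((i : ℝ) + k + 1) ^ s.re = ((i : ℝ) + k + 1) ^ (2 - s.re) * (1 / ((i : ℝ) + k + 1) ^ 2) := by
      rw [one_div, one_div, ← Real.rpow_neg hpos.le, ← Real.rpow_natCast ((i : ℝ) + k + 1) 2, ← Real.rpow_neg hpos.le,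
        ← Real.rpow_add hpos]
      congr 1
      push_cast
      ring
    rw [e2]
    refine mul_le_mul_of_nonneg_right ?_ (by positivity)
    refine Real.rpow_le_rpow_of_nonpos (by positivity) ?_ (by linarith)
    have : (0:ℝ) ≤ i := Nat.cast_nonneg i
    linarith
  have hs2 : Summable (fun i : ℕ => ((k : ℝ) + 1) ^ (2 - s.re) * (1 / ((i : ℝ) + k + 1) ^ 2)) := by
    refine Summable.mul_left _ ?_
    have h3 : Summable (fun n : ℕ => 1 / (n : ℝ) ^ 2) := Real.summable_one_div_nat_pow.2 (by norm_num)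
    have h4 := (summable_nat_add_iff (k + 1)).2 h3
    refine h4.congr fun n => ?_
    push_cast
    ring_nf
  have h5 := tsum_of_norm_bounded hs2.hasSum hb
  refine h5.trans ?_
  rw [tsum_mul_left]
  have h6 := inv_sq_tail k hk
  have h7 : 0 ≤ ((k : ℝ) + 1) ^ (2 - s.re) := by positivity
  nlinarith

/-- a vertical line on which the combination is bounded below -/
theorem center (p q : ℝ) (hpq : ¬ (p = 0 ∧ q = 0)) : ∃ σ0 c0 : ℝ, 4 ≤ σ0 ∧ 0 < c0 ∧ ∀ y : ℝ,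
    c0 ≤ ‖fpq p q ((σ0 : ℂ) + y * I)‖ := by
  by_cases hs : p + q = 0
  · -- then `q ≠ 0`
    have hq : q ≠ 0 := by
      intro h
      rw [h, add_zero] at hs
      exact hpq ⟨hs, h⟩
    refine ⟨8, |q| * (1 / 512), by norm_num, by positivity, fun y => ?_⟩
    set s : ℂ := ((8 : ℝ) : ℂ) + y * I with hsd
    have hre : s.re = 8 := by simp [hsd]
    have h1 := zeta_tail (s := s) (by rw [hre]; norm_num) 2 (by norm_num)
    rw [hre] at h1
    have h2 : ∑ i ∈ Finset.range 2, 1 / ((i : ℂ) + 1) ^ s = 1 + 1 / (2 : ℂ) ^ s := by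
      rw [Finset.sum_range_succ, Finset.sum_range_one]
      norm_num
    rw [h2] at h1
    have h3 : ‖1 / (2 : ℂ) ^ s‖ = 1 / 256 := by
      rw [norm_div, norm_one, show (2 : ℂ) = ((2 : ℝ) : ℂ) by norm_num,
        Complex.norm_cpow_eq_rpow_re_of_pos (by norm_num), hre]
      norm_num
    have h4 : ((((2 : ℕ) : ℝ)) + 1) ^ (2 - 8 : ℝ) = 1 / 729 := by
      rw [show (2 - 8 : ℝ) = -((6 : ℕ) : ℝ) by norm_num, Real.rpow_neg (by norm_num), Real.rpow_natCast]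
      norm_num
    rw [h4] at h1
    have e1 : fpq p q s = q * (riemannZeta s - 1) := by
      unfold fpq
      have : (p : ℂ) = -q := by
        have h5 : p = -q := by linarith
        rw [h5]
        push_cast
        rfl
      rw [this]
      ring
    rw [e1, norm_mul, Complex.norm_real, Real.norm_eq_abs]
    refine mul_le_mul_of_nonneg_left ?_ (abs_nonneg _)
    have h5 : ‖1 / (2 : ℂ) ^ s‖ ≤ ‖riemannZeta s - 1‖ + ‖riemannZeta s - (1 + 1 / (2 : ℂ) ^ s)‖ := by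
      have e2 : 1 / (2 : ℂ) ^ s = (riemannZeta s - 1) - (riemannZeta s - (1 + 1 / (2 : ℂ) ^ s)) := by ring
      calc ‖1 / (2 : ℂ) ^ s‖ = ‖(riemannZeta s - 1) - (riemannZeta s - (1 + 1 / (2 : ℂ) ^ s))‖ := by rw [← e2]
        _ ≤ _ := norm_sub_le _ _
    rw [h3] at h5
    linarith
  · have hs0 : 0 < |p + q| := abs_pos.2 hs
    obtain ⟨n, hn⟩ := exists_nat_gt (2 * |q| / |p + q|)
    have hn0 : 0 < (n : ℝ) := lt_of_le_of_lt (by positivity) hn
    refine ⟨n + 4, |p + q| / 2, by have := Nat.cast_nonneg (α := ℝ) n; linarith, by positivity, fun y => ?_⟩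
    set s : ℂ := ((n + 4 : ℝ) : ℂ) + y * I with hsd
    have hre : s.re = n + 4 := by simp [hsd]
    have h1 := zeta_tail (s := s) (by rw [hre]; linarith) 1 le_rfl
    rw [hre] at h1
    have h2 : ∑ i ∈ Finset.range 1, 1 / ((i : ℂ) + 1) ^ s = 1 := by
      rw [Finset.sum_range_one]
      simp
    rw [h2] at h1
    have h3 : (((1 : ℕ) : ℝ) + 1) ^ (2 - ((n : ℝ) + 4)) ≤ 1 / n := by
      have e1 : (2 - ((n : ℝ) + 4)) = -((n + 2 : ℕ) : ℝ) := by push_cast; ring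
      rw [e1, Real.rpow_neg (by norm_num), Real.rpow_natCast, ← one_div]
      refine one_div_le_one_div_of_le hn0 ?_
      have h4 : (n + 2 : ℕ) < 2 ^ (n + 2) := Nat.lt_two_pow_self
      have h5 : ((n + 2 : ℕ) : ℝ) < (2 : ℝ) ^ (n + 2) := by exact_mod_cast h4
      have h6 : (((1 : ℕ) : ℝ) + 1) = 2 := by norm_num
      rw [h6]
      push_cast at h5
      linarith
    have e2 : fpq p q s = ((p + q : ℝ) : ℂ) - (-(q * (riemannZeta s - 1))) := by
      unfold fpq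
      push_cast
      ring
    have h6 : ‖-((q : ℂ) * (riemannZeta s - 1))‖ ≤ |p + q| / 2 := by
      rw [norm_neg, norm_mul, Complex.norm_real, Real.norm_eq_abs]
      calc |q| * ‖riemannZeta s - 1‖ ≤ |q| * (1 / n) := mul_le_mul_of_nonneg_left (h1.trans h3) (abs_nonneg _)
        _ ≤ |p + q| / 2 := by
            rw [div_lt_iff₀ hs0] at hn
            rw [mul_one_div, div_le_iff₀ hn0]
            linarith
    rw [e2]
    have h7 := norm_sub_norm_le ((p + q : ℝ) : ℂ) (-((q : ℂ) * (riemannZeta s - 1)))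
    rw [Complex.norm_real, Real.norm_eq_abs] at h7
    linarith

end

end H19.EW
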