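import Pool.Agent.H19.EW.Q1

/-!
# Counting the zeros of `p + q ζ` near the line `Re z = 1`
-/

open Complex MeasureTheory Filter Topology Set Metric

set_option autoImplicit false
set_option linter.unusedSectionVars false
set_option linter.unusedVariables false

namespace H19.EW

noncomputable section

open H353

theorem fpq_diff (p q : ℝ) {z : ℂ} (hz : z ≠ 1) : DifferentiableAt ℂ (fpq p q) z :=
  ((differentiableAt_riemannZeta hz).const_mul (q : ℂ)).const_add (p : ℂ)

theorem fpq_diffOn (p q : ℝ) : DifferentiableOn ℂ (fpq p q) {1}ᶜ := fun z hz =>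
  (fpq_diff p q hz).differentiableWithinAt

theorem fpq_an (p q : ℝ) {z : ℂ} (hz : z ≠ 1) : AnalyticAt ℂ (fpq p q) z :=
  (fpq_diffOn p q).analyticOnNhd isOpen_compl_singleton z hz

/-- multiplicity -/
def ez (p q : ℝ) (z : ℂ) : ℕ := analyticOrderNatAt (fpq p q) z

theorem ez_le (p q : ℝ) (z : ℂ) : (ez p q z : ℕ∞) ≤ analyticOrderAt (fpq p q) z := ENat.natCast_toNat_le_self _

/-- mean square on all vertical lines to the right of `13/16` -/
theorem msq2 (b' : ℝ) : ∃ C : ℝ, 0 < C ∧ ∀ T : ℝ, 1 ≤ T → ∀ σ ∈ Icc (13 / 16 : ℝ) b',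
    ∫ t in (T / 2)..(3 * T), ‖fz 1 ((σ : ℂ) + t * I)‖ ^ 2 ≤ C * T := by
  obtain ⟨C, hC, h⟩ := msq
  -- the trivial bound
  have hsum : Summable (fun n : ℕ => ((n : ℝ) + 1) ^ (-(3 / 2) : ℝ)) := by
    have h3 : Summable (fun n : ℕ => (n : ℝ) ^ (-(3 / 2) : ℝ)) := Real.summable_nat_rpow.2 (by norm_num)
    have h4 := (summable_nat_add_iff 1).2 h3
    refine h4.congr fun n => ?_
    push_cast
    rfl
  set D : ℝ := (∑' n : ℕ, ((n : ℝ) + 1) ^ (-(3 / 2) : ℝ)) + 1 with hD
  have hD0 : 0 ≤ D := by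
    have : 0 ≤ ∑' n : ℕ, ((n : ℝ) + 1) ^ (-(3 / 2) : ℝ) := tsum_nonneg fun n => by positivity
    linarith
  have htriv : ∀ s : ℂ, 3 / 2 ≤ s.re → ‖fz 1 s‖ ≤ D := by
    intro s hs
    rw [fz_one, zeta_eq_tsum_one_div_nat_add_one_cpow (by linarith)]
    refine (norm_sub_le _ _).trans ?_
    rw [norm_one, hD]
    refine add_le_add ?_ le_rfl
    refine tsum_of_norm_bounded hsum.hasSum fun n => ?_
    have hn : ((n : ℂ) + 1) = ((((n : ℝ) + 1 : ℝ)) : ℂ) := by push_cast; rfl
    rw [hn, norm_div, norm_one, Complex.norm_cpow_eq_rpow_re_of_pos (by positivity), one_div, ← Real.rpow_neg (by positivity)]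
    exact Real.rpow_le_rpow_of_exponent_le (by have := Nat.cast_nonneg (α := ℝ) n; linarith) (by linarith)
  refine ⟨C + 3 * D ^ 2, by positivity, fun T hT σ hσ => ?_⟩
  rcases le_or_gt σ (3 / 2) with hs | hs
  · refine (h T hT σ ⟨hσ.1, hs⟩).trans ?_
    have : 0 ≤ 3 * D ^ 2 * T := by positivity
    linarith
  · have h1 : ∀ t ∈ Set.Ioc (T / 2) (3 * T), ‖‖fz 1 ((σ : ℂ) + t * I)‖ ^ 2‖ ≤ D ^ 2 := by
      intro t _
      rw [Real.norm_of_nonneg (by positivity)]
      exact pow_le_pow_left₀ (norm_nonneg _) (htriv _ (by simp; linarith)) 2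
    have h2 := intervalIntegral.norm_integral_le_of_norm_le_const (a := T / 2) (b := 3 * T)
      (f := fun t : ℝ => ‖fz 1 ((σ : ℂ) + t * I)‖ ^ 2) (C := D ^ 2) (by
        rw [Set.uIoc_of_le (by linarith)]
        exact h1)
    have h3 : |3 * T - T / 2| = 5 / 2 * T := by
      rw [abs_of_nonneg (by linarith)]
      ring
    rw [h3] at h2
    refine (le_abs_self _).trans (h2.trans ?_)
    nlinarith [mul_nonneg (sq_nonneg D) (by linarith : 0 ≤ T), mul_nonneg hC.le (by linarith : 0 ≤ T)]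

/-- one block -/
theorem ablock (p q : ℝ) (hpq : ¬ (p = 0 ∧ q = 0)) : ∃ C T0 : ℝ, 0 < C ∧ 1 ≤ T0 ∧ ∀ T : ℝ, T0 ≤ T →
    ∀ S : Finset ℂ, (∀ z ∈ S, 7 / 8 ≤ z.re ∧ z.re ≤ 2 ∧ T ≤ z.im ∧ z.im ≤ 2 * T) →
      ∑ z ∈ S, (ez p q z : ℝ) ≤ C * T := by
  obtain ⟨σ0, c0, hσ0, hc0, hcen⟩ := center p q hpq
  set R : ℝ := σ0 - 7 / 8 + 1 / 64 with hR
  set R1 : ℝ := R + 1 / 64 with hR1
  have hR0 : 0 < R := by rw [hR]; linarith
  have hRR : R < R1 := by rw [hR1]; linarith
  have hR10 : 0 < R1 := by linarith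
  obtain ⟨C1, hC1, hsup⟩ := ZU.sup_le_area (27 / 32) (σ0 + R1) (13 / 16) (σ0 + R1 + 1) R1 (R1 + 1) (by norm_num)
    (by linarith) (by linarith) hR10 (by linarith)
  obtain ⟨C2, hC2, hms⟩ := msq2 (σ0 + R1 + 1)
  set ar : ℝ := (σ0 + R1 + 1 - 13 / 16) * (2 * (R1 + 1)) with har
  have har0 : 0 < ar := by
    rw [har]
    have : 0 < σ0 + R1 + 1 - 13 / 16 := by linarith
    positivity
  set V0 : ℝ := 2 * (p + q) ^ 2 * 2 + 2 * q ^ 2 * C2 with hV0
  have hV00 : 0 ≤ V0 := by positivity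
  have hlogR : 0 < Real.log (R1 / R) := Real.log_pos (by rw [lt_div_iff₀ hR0]; linarith)
  set K : ℝ := 1 / (c0 * Real.log (R1 / R)) with hK
  have hK0 : 0 < K := by positivity
  refine ⟨4 * (K * (2 + C1 * (ar * V0))), 2 * (R1 + 1) + 3, by positivity, by linarith, ?_⟩
  intro T hT S hS
  have hT1 : 1 ≤ T := by linarith
  have hT0 : 0 < T := by linarith
  set G : ℂ → ℂ := fun z => ((p + q : ℝ) : ℂ) + q * Gc 1 T z with hG
  have hGc : Continuous G := continuous_const.add (continuous_const.mul (Gc_cont 1 T))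
  set Rc : Set ℂ := ZU.rect (13 / 16) (σ0 + R1 + 1) (R1 + 1) with hRc
  have hRcomp : IsCompact Rc := ZU.J_e1b.fubini_bound_compact _ _ _
  have hGeq : ∀ w ∈ Rc, ∀ t : ℝ, 0 ≤ t → G (w + t * I) = fpq p q (w + (t : ℂ) * I + ((T - 1 / 2 : ℝ) : ℂ) * I) := by
    intro w hw t ht
    obtain ⟨_, _, q3⟩ := hw
    rw [abs_le] at q3
    simp only [hG]
    rw [fpq_eq, Gc_eq 1 T _ (by simp; linarith)]
  have hV : ∀ s ∈ Rc, ∫ t in (0 : ℝ)..(T + 1), (1:ℝ) * ‖G (s + t * I)‖ ^ 2 ≤ V0 * T := by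
    intro s hs
    obtain ⟨q1, q2, q3⟩ := hs
    rw [abs_le] at q3
    have hcG : Continuous fun t : ℝ => ‖Gc 1 T (s + t * I)‖ ^ 2 := by
      have := Gc_cont 1 T
      fun_prop
    have h1 : ∫ t in (0 : ℝ)..(T + 1), ‖Gc 1 T (s + t * I)‖ ^ 2 ≤ C2 * T := by
      refine le_trans ?_ (hms T hT1 s.re ⟨q1, q2⟩)
      have e1 : ∀ t ∈ uIcc (0:ℝ) (T + 1), ‖Gc 1 T (s + t * I)‖ ^ 2 =
          ‖fz 1 ((s.re : ℂ) + ((t + (s.im + (T - 1 / 2)) : ℝ) : ℂ) * I)‖ ^ 2 := by
        intro t ht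
        rw [uIcc_of_le (by linarith)] at ht
        rw [Gc_eq 1 T _ (by simp; linarith [ht.1])]
        congr 3
        apply Complex.ext <;> simp
        ring
      rw [intervalIntegral.integral_congr e1]
      rw [intervalIntegral.integral_comp_add_right
        (fun u => ‖fz 1 ((s.re : ℂ) + ((u : ℝ) : ℂ) * I)‖ ^ 2)]
      have hcont : ContinuousOn (fun u : ℝ => ‖fz 1 ((s.re : ℂ) + ((u : ℝ) : ℂ) * I)‖ ^ 2)
          (Icc (T / 2) (3 * T)) := by
        intro u hu
        apply ContinuousAt.continuousWithinAt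
        have hne : (s.re : ℂ) + ((u : ℝ) : ℂ) * I ≠ 1 := by
          intro h
          have := congrArg Complex.im h
          simp at this
          linarith [hu.1]
        exact ((ContinuousAt.comp (f := fun u : ℝ => (s.re : ℂ) + ((u : ℝ) : ℂ) * I)
          (fz_diffAt 1 _ hne).continuousAt (by fun_prop)).norm).pow 2
      rw [intervalIntegral.integral_of_le (by linarith), intervalIntegral.integral_of_le (by linarith)]
      refine setIntegral_mono_set ?_ (Eventually.of_forall fun u => by positivity) ?_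
      · exact (hcont.integrableOn_compact isCompact_Icc).mono_set Ioc_subset_Icc_self
      · refine LE.le.eventuallyLE ?_
        intro u hu
        exact ⟨by linarith [hu.1], by linarith [hu.2]⟩
    have h2 : ∫ t in (0 : ℝ)..(T + 1), (1:ℝ) * ‖G (s + t * I)‖ ^ 2 ≤
        ∫ t in (0 : ℝ)..(T + 1), (2 * (p + q) ^ 2 + 2 * q ^ 2 * ‖Gc 1 T (s + t * I)‖ ^ 2) := by
      refine intervalIntegral.integral_mono_on (by linarith) ?_ ?_ fun t _ => ?_
      · exact (by fun_prop : Continuous fun t : ℝ => (1:ℝ) * ‖G (s + t * I)‖ ^ 2).intervalIntegrable _ _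
      · exact (continuous_const.add (continuous_const.mul hcG)).intervalIntegrable _ _
      · rw [one_mul]
        simp only [hG]
        have h3 : ‖((p + q : ℝ) : ℂ) + q * Gc 1 T (s + t * I)‖ ≤ |p + q| + |q| * ‖Gc 1 T (s + t * I)‖ := by
          refine (norm_add_le _ _).trans ?_
          rw [norm_mul, Complex.norm_real, Complex.norm_real, Real.norm_eq_abs, Real.norm_eq_abs]
        have h4 : 0 ≤ |p + q| + |q| * ‖Gc 1 T (s + t * I)‖ := by positivity
        calc _ ≤ (|p + q| + |q| * ‖Gc 1 T (s + t * I)‖) ^ 2 := pow_le_pow_left₀ (norm_nonneg _) h3 2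
          _ ≤ 2 * |p + q| ^ 2 + 2 * (|q| * ‖Gc 1 T (s + t * I)‖) ^ 2 := by
              nlinarith [sq_nonneg (|p + q| - |q| * ‖Gc 1 T (s + t * I)‖)]
          _ = _ := by rw [mul_pow, sq_abs, sq_abs]; ring
    refine h2.trans ?_
    have i1 : IntervalIntegrable (fun _ : ℝ => 2 * (p + q) ^ 2) volume 0 (T + 1) :=
      continuous_const.intervalIntegrable _ _
    have i2 : IntervalIntegrable (fun t : ℝ => 2 * q ^ 2 * ‖Gc 1 T (s + t * I)‖ ^ 2) volume 0 (T + 1) :=
      (continuous_const.mul hcG).intervalIntegrable _ _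
    rw [intervalIntegral.integral_add i1 i2,
      intervalIntegral.integral_const, intervalIntegral.integral_const_mul, smul_eq_mul]
    have h5 : (T + 1 - 0) * (2 * (p + q) ^ 2) ≤ 2 * (p + q) ^ 2 * 2 * T := by
      nlinarith [mul_nonneg (sq_nonneg (p + q)) (by linarith : 0 ≤ T - 1)]
    have h6 : 2 * q ^ 2 * ∫ t in (0 : ℝ)..(T + 1), ‖Gc 1 T (s + t * I)‖ ^ 2 ≤ 2 * q ^ 2 * (C2 * T) :=
      mul_le_mul_of_nonneg_left h1 (by positivity)
    rw [hV0]
    linarith
  obtain ⟨hAc, hAint⟩ := ZU.fubini_bound (13 / 16) (σ0 + R1 + 1) (R1 + 1) (by linarith) (by linarith) G hGc.continuousOn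
    (fun _ => 1) continuous_const (T + 1) (by linarith) _ hV
  set A : ℝ → ℝ := fun t => ∫ w in Rc, ‖G (w + t * I)‖ ^ 2 with hA
  have hA0 : ∀ t, 0 ≤ A t := fun t => setIntegral_nonneg hRcomp.measurableSet fun w _ => by positivity
  have hAint' : ∫ t in Icc (0:ℝ) (T + 1), A t ≤ ar * (V0 * T) := by
    rw [integral_Icc_eq_integral_Ioc, ← intervalIntegral.integral_of_le (by linarith)]
    simpa only [one_mul] using hAint
  -- local count
  set J : ℂ → Set ℝ := fun z => Icc (z.im - T + 3 / 8) (z.im - T + 5 / 8) with hJ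
  have hloc : ∀ t ∈ Icc (0:ℝ) (T + 1), ∑ z ∈ S, (ez p q z : ℝ) * (J z).indicator (fun _ => (1:ℝ)) t ≤ K * (1 + C1 * A t) := by
    intro t ht
    set Z := S.filter (fun z => t ∈ J z) with hZ
    have e1 : ∑ z ∈ S, (ez p q z : ℝ) * (J z).indicator (fun _ => (1:ℝ)) t = ((∑ z ∈ Z, ez p q z : ℕ) : ℝ) := by
      rw [hZ, Finset.sum_filter]
      push_cast
      refine Finset.sum_congr rfl fun z _ => ?_
      by_cases h : t ∈ J z
      · rw [if_pos h, indicator_of_mem h, mul_one]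
      · rw [if_neg h, indicator_of_notMem h, mul_zero]
    rw [e1]
    set y : ℝ := T - 1 / 2 + t with hy
    set c : ℂ := (σ0 : ℂ) + y * I with hc
    have hcre : c.re = σ0 := by simp [hc]
    have hcim : c.im = y := by simp [hc]
    have hSb : ∀ z ∈ Z, z ∈ closedBall c R := by
      intro z hz
      rw [hZ, Finset.mem_filter] at hz
      obtain ⟨z1, z2, z3, z4⟩ := hS z hz.1
      have z5 : z.im - T + 3 / 8 ≤ t := hz.2.1
      have z6 : t ≤ z.im - T + 5 / 8 := hz.2.2
      rw [mem_closedBall, Complex.dist_eq_re_im, hcre, hcim]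
      apply Real.sqrt_le_iff.2
      refine ⟨hR0.le, ?_⟩
      have a1 : (z.re - σ0) ^ 2 ≤ (σ0 - 7 / 8) ^ 2 := by
        have : σ0 - z.re ≤ σ0 - 7 / 8 := by linarith
        have h0 : 0 ≤ σ0 - z.re := by linarith
        nlinarith
      have a2 : (z.im - y) ^ 2 ≤ 1 / 64 := by
        have b1 : -(1 / 8) ≤ z.im - y := by rw [hy]; linarith
        have b2 : z.im - y ≤ 1 / 8 := by rw [hy]; linarith
        nlinarith
      rw [hR]
      nlinarith
    have hsubU : closedBall c R1 ⊆ ({1}ᶜ : Set ℂ) := by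
      intro v hv h1
      rw [mem_closedBall, dist_eq_norm] at hv
      have h2 : v = 1 := h1
      have h3 := Complex.abs_im_le_norm (v - c)
      rw [h2, Complex.sub_im, hcim, Complex.one_im, zero_sub, abs_neg, abs_of_nonneg (by rw [hy]; linarith [ht.1])] at h3
      rw [h2] at hv
      have : y ≤ R1 := h3.trans hv
      rw [hy] at this
      linarith [ht.1]
    have hM : ∀ v ∈ sphere c R1, ‖fpq p q v‖ ≤ 1 + C1 * A t := by
      intro v hv
      rw [mem_sphere, dist_eq_norm] at hv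
      set U : Set ℂ := {w | w + (t : ℂ) * I + ((T - 1 / 2 : ℝ) : ℂ) * I ≠ 1} with hU
      have hUo : IsOpen U := isOpen_ne_fun (by fun_prop) continuous_const
      have hsub : ZU.rect (13 / 16) (σ0 + R1 + 1) (R1 + 1) ⊆ U := by
        intro w hw h
        obtain ⟨_, _, q3⟩ := hw
        rw [abs_le] at q3
        have := congrArg Complex.im h
        simp at this
        linarith [ht.1]
      have hgd : DifferentiableOn ℂ (fun w => fpq p q (w + (t : ℂ) * I + ((T - 1 / 2 : ℝ) : ℂ) * I)) U := by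
        intro w hw
        have h3 := fpq_diff p q (z := w + (t : ℂ) * I + ((T - 1 / 2 : ℝ) : ℂ) * I) hw
        exact (DifferentiableAt.comp (f := fun w : ℂ => w + (t : ℂ) * I + ((T - 1 / 2 : ℝ) : ℂ) * I)
          w h3 (by fun_prop)).differentiableWithinAt
      set s0 : ℂ := v - (t : ℂ) * I - ((T - 1 / 2 : ℝ) : ℂ) * I with hs0
      have hre := Complex.abs_re_le_norm (v - c)
      have him := Complex.abs_im_le_norm (v - c)
      rw [hv, Complex.sub_re, hcre, abs_le] at hre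
      rw [hv, Complex.sub_im, hcim] at him
      have hs0m : s0 ∈ ZU.rect (27 / 32) (σ0 + R1) R1 := by
        refine ⟨?_, ?_, ?_⟩
        · simp [hs0]
          rw [hR1, hR] at hre
          linarith [hre.1]
        · simp [hs0]
          linarith [hre.2]
        · have : s0.im = v.im - y := by
            simp [hs0]
            rw [hy]
            ring
          rw [this]
          exact him
      have h4 := hsup _ U hUo hsub hgd s0 hs0m
      have e : s0 + (t : ℂ) * I + ((T - 1 / 2 : ℝ) : ℂ) * I = v := by rw [hs0]; ring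
      have h4' : ‖fpq p q (s0 + (t : ℂ) * I + ((T - 1 / 2 : ℝ) : ℂ) * I)‖ ^ 2 ≤
          C1 * ∫ w in Rc, ‖fpq p q (w + (t : ℂ) * I + ((T - 1 / 2 : ℝ) : ℂ) * I)‖ ^ 2 := h4
      have h5 : ∫ w in Rc, ‖fpq p q (w + (t : ℂ) * I + ((T - 1 / 2 : ℝ) : ℂ) * I)‖ ^ 2 = A t := by
        refine setIntegral_congr_fun hRcomp.measurableSet fun w hw => ?_
        rw [hGeq w hw t ht.1]
      rw [e, h5] at h4'
      nlinarith [sq_nonneg (‖fpq p q v‖ - 1), norm_nonneg (fpq p q v)]
    have h := count_bound ({1}ᶜ) isOpen_compl_singleton (fpq p q) (fpq_diffOn p q) c R R1 _ hR0 hRR hsubU hM Z (ez p q)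
      hSb (fun z _ => ez_le p q z)
    set N := ∑ z ∈ Z, ez p q z with hN
    have hcc := hcen y
    have hM0 : 0 < 1 + C1 * A t := by have := hA0 t; positivity
    have hpow : (R1 / R) ^ N ≤ (1 + C1 * A t) / c0 := by
      rw [le_div_iff₀ hc0]
      have hp : 0 < (R1 / R) ^ N := by positivity
      calc (R1 / R) ^ N * c0 ≤ (R1 / R) ^ N * ‖fpq p q c‖ := mul_le_mul_of_nonneg_left hcc hp.le
        _ = ‖fpq p q c‖ * (R1 / R) ^ N := mul_comm _ _
        _ ≤ _ := h
    have hlog := Real.log_le_log (by positivity) hpow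
    rw [Real.log_pow] at hlog
    have h7 := Real.log_le_sub_one_of_pos (show 0 < (1 + C1 * A t) / c0 by positivity)
    have h8 : (N : ℝ) * Real.log (R1 / R) ≤ (1 + C1 * A t) / c0 := by linarith
    rw [hK]
    rw [← le_div_iff₀ hlogR] at h8
    refine h8.trans (le_of_eq ?_)
    field_simp
  -- integrate
  have hJm : ∀ z, MeasurableSet (J z) := fun z => measurableSet_Icc
  have hindI : ∀ z ∈ S, Integrable (fun t => (ez p q z : ℝ) * (J z).indicator (fun _ => (1:ℝ)) t)
      (volume.restrict (Icc (0:ℝ) (T + 1))) := by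
    intro z _
    exact ((integrable_const (1:ℝ)).indicator (hJm z)).const_mul _
  have hAi : IntegrableOn A (Icc (0:ℝ) (T + 1)) := hAc.continuousOn.integrableOn_compact isCompact_Icc
  have e2 : ∫ t in Icc (0:ℝ) (T + 1), ∑ z ∈ S, (ez p q z : ℝ) * (J z).indicator (fun _ => (1:ℝ)) t =
      (1 / 4) * ∑ z ∈ S, (ez p q z : ℝ) := by
    rw [integral_finsetSum _ hindI, Finset.mul_sum]
    refine Finset.sum_congr rfl fun z hz => ?_
    obtain ⟨z1, z2, z3, z4⟩ := hS z hz
    rw [integral_const_mul, setIntegral_indicator (hJm z)]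
    have e : Icc (0:ℝ) (T + 1) ∩ J z = J z := by
      apply Set.inter_eq_right.2
      exact Icc_subset_Icc (by linarith) (by linarith)
    rw [e, setIntegral_const, Measure.real, hJ, Real.volume_Icc, ENNReal.toReal_ofReal (by linarith)]
    simp only [smul_eq_mul]
    ring
  have hmain : (1 / 4) * ∑ z ∈ S, (ez p q z : ℝ) ≤ K * (T + 1 + C1 * (ar * (V0 * T))) := by
    rw [← e2]
    calc ∫ t in Icc (0:ℝ) (T + 1), ∑ z ∈ S, (ez p q z : ℝ) * (J z).indicator (fun _ => (1:ℝ)) t ≤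
        ∫ t in Icc (0:ℝ) (T + 1), K * (1 + C1 * A t) :=
          setIntegral_mono_on (integrable_finsetSum _ hindI)
            (((integrable_const (1:ℝ)).add (hAi.const_mul C1)).const_mul K) measurableSet_Icc hloc
      _ = K * (T + 1 + C1 * ∫ t in Icc (0:ℝ) (T + 1), A t) := by
          rw [integral_const_mul, integral_add (integrable_const (1:ℝ)) (hAi.const_mul C1), integral_const_mul,
            setIntegral_const, Measure.real, Real.volume_Icc, ENNReal.toReal_ofReal (by linarith)]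
          simp
      _ ≤ _ := by
          refine mul_le_mul_of_nonneg_left ?_ hK0.le
          have := mul_le_mul_of_nonneg_left hAint' hC1.le
          linarith
  have h9 : K * (T + 1 + C1 * (ar * (V0 * T))) ≤ K * (2 + C1 * (ar * V0)) * T := by
    have : T + 1 + C1 * (ar * (V0 * T)) ≤ (2 + C1 * (ar * V0)) * T := by nlinarith
    calc _ ≤ K * ((2 + C1 * (ar * V0)) * T) := mul_le_mul_of_nonneg_left this hK0.le
      _ = _ := by ring
  linarith

end

end H19.EW
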