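import Pool.Agent.H19.EW.Q2

/-!
# Surviving zeros, joint version
-/

open Complex MeasureTheory Filter Topology Set Metric

set_option autoImplicit false
set_option linter.unusedSectionVars false
set_option linter.unusedVariables false

namespace H19.EW

open H313.TK

noncomputable section

/-- half of the zeros -/
theorem half_gen {kk : ℂ → ℕ} (hk : ∀ ρ : ℂ, riemannZeta ρ = 0 → 1 / 2 ≤ ρ.re → ρ.re < 1 → 1 < ρ.im → mz ρ ≤ kk ρ)
    (T : ℝ) : (1 / 2 : ℝ) * ∑ ρ ∈ ZT T, (mz ρ : ℝ) ≤ ∑ ρ ∈ ZT T, (kk ρ : ℝ) := by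
  classical
  have h1 : ∑ ρ ∈ (ZT T).filter (fun ρ => ¬ (1 / 2 ≤ ρ.re)), (mz ρ : ℝ) ≤
      ∑ ρ ∈ (ZT T).filter (fun ρ => 1 / 2 ≤ ρ.re), (mz ρ : ℝ) := by
    have e1 : ∑ ρ ∈ (ZT T).filter (fun ρ => ¬ (1 / 2 ≤ ρ.re)), (mz ρ : ℝ) =
        ∑ ρ ∈ ((ZT T).filter (fun ρ => ¬ (1 / 2 ≤ ρ.re))).image (fun ρ => 1 - (starRingEnd ℂ) ρ), (mz ρ : ℝ) := by
      rw [Finset.sum_image (by
        intro x _ y _ hxy
        have h2 : (starRingEnd ℂ) x = (starRingEnd ℂ) y := sub_right_injective hxy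
        exact (starRingEnd ℂ).injective h2)]
      refine Finset.sum_congr rfl fun ρ hρ => ?_
      rw [Finset.mem_filter] at hρ
      obtain ⟨g0, g1, g2, g3, g4⟩ := mem_ZT.1 hρ.1
      rw [mz_refl g0 g1 g2.le]
    rw [e1]
    refine Finset.sum_le_sum_of_subset_of_nonneg ?_ fun _ _ _ => Nat.cast_nonneg _
    intro σ hσ
    rw [Finset.mem_image] at hσ
    obtain ⟨ρ, hρ, rfl⟩ := hσ
    rw [Finset.mem_filter] at hρ
    obtain ⟨g0, g1, g2, g3, g4⟩ := mem_ZT.1 hρ.1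
    have hlt := hρ.2
    push Not at hlt
    rw [Finset.mem_filter, mem_ZT]
    have hord : riemannZeta (1 - (starRingEnd ℂ) ρ) = 0 := by
      have h3 := H370.good_zeta.symm ρ g0 g1 g2.le
      have hne : ρ ≠ 1 := by rintro rfl; simp at g1
      have h4 : analyticOrderAt riemannZeta ρ ≠ 0 := by
        rw [(zeta_an hne).analyticOrderAt_ne_zero]
        exact g4
      rw [← h3] at h4
      exact apply_eq_zero_of_analyticOrderAt_ne_zero h4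
    refine ⟨⟨?_, ?_, ?_, ?_, hord⟩, ?_⟩
    · simp; linarith
    · simp; linarith
    · simp; linarith
    · simp; linarith
    · simp; linarith
  have h2 : ∑ ρ ∈ ZT T, (mz ρ : ℝ) = ∑ ρ ∈ (ZT T).filter (fun ρ => 1 / 2 ≤ ρ.re), (mz ρ : ℝ) +
      ∑ ρ ∈ (ZT T).filter (fun ρ => ¬ (1 / 2 ≤ ρ.re)), (mz ρ : ℝ) :=
    (Finset.sum_filter_add_sum_filter_not _ _ _).symm
  have h3 : ∑ ρ ∈ (ZT T).filter (fun ρ => 1 / 2 ≤ ρ.re), (mz ρ : ℝ) ≤
      ∑ ρ ∈ (ZT T).filter (fun ρ => 1 / 2 ≤ ρ.re), (kk ρ : ℝ) := by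
    refine Finset.sum_le_sum fun ρ hρ => ?_
    rw [Finset.mem_filter] at hρ
    obtain ⟨g0, g1, g2, g3, g4⟩ := mem_ZT.1 hρ.1
    exact_mod_cast hk ρ g4 hρ.2 g1 g2
  have h4 : ∑ ρ ∈ (ZT T).filter (fun ρ => 1 / 2 ≤ ρ.re), (kk ρ : ℝ) ≤ ∑ ρ ∈ ZT T, (kk ρ : ℝ) :=
    Finset.sum_le_sum_of_subset_of_nonneg (Finset.filter_subset _ _) fun _ _ _ => Nat.cast_nonneg _
  linarith

/-- almost all of the zeros -/
theorem most_gen {kk : ℂ → ℕ} {δ : ℝ} (hδ : 0 < δ) (hδ2 : δ < 1 / 2)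
    (hk : ∀ ρ : ℂ, riemannZeta ρ = 0 → 1 / 2 - δ < ρ.re → ρ.re < 1 → 1 < ρ.im → mz ρ ≤ kk ρ) :
    ∃ C : ℝ, 0 ≤ C ∧ ∀ T : ℝ, 1 ≤ T → ∑ ρ ∈ ZT T, (mz ρ : ℝ) - C * T ≤ ∑ ρ ∈ ZT T, (kk ρ : ℝ) := by
  classical
  set σ : ℝ := 1 / 2 + δ with hσ
  obtain ⟨C, hC, hcar⟩ := Pool.Agent.W190.carlson σ (2 * δ ^ 2) (by linarith) (by linarith) (by positivity)
  have hexp : 4 * σ * (1 - σ) + 2 * δ ^ 2 ≤ 1 := by
    rw [hσ]
    nlinarith
  refine ⟨C, hC.le, fun T hT => ?_⟩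
  have h1 : ∑ ρ ∈ (ZT T).filter (fun ρ => ¬ (1 / 2 - δ < ρ.re)), (mz ρ : ℝ) ≤ C * T := by
    have e1 : ∑ ρ ∈ (ZT T).filter (fun ρ => ¬ (1 / 2 - δ < ρ.re)), (mz ρ : ℝ) =
        ∑ ρ ∈ ((ZT T).filter (fun ρ => ¬ (1 / 2 - δ < ρ.re))).image (fun ρ => 1 - (starRingEnd ℂ) ρ), (H353.mu ρ : ℝ) := by
      rw [Finset.sum_image (by
        intro x _ y _ hxy
        have h2 : (starRingEnd ℂ) x = (starRingEnd ℂ) y := sub_right_injective hxy
        exact (starRingEnd ℂ).injective h2)]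
      refine Finset.sum_congr rfl fun ρ hρ => ?_
      rw [Finset.mem_filter] at hρ
      obtain ⟨g0, g1, g2, g3, g4⟩ := mem_ZT.1 hρ.1
      rw [← mz_mu (by
        intro h
        have h2 := congrArg Complex.im h
        simp at h2
        linarith), mz_refl g0 g1 g2.le]
    rw [e1]
    refine (hcar T hT _ ?_).trans ?_
    · intro s hs
      rw [Finset.mem_image] at hs
      obtain ⟨ρ, hρ, rfl⟩ := hs
      rw [Finset.mem_filter] at hρ
      obtain ⟨g0, g1, g2, g3, g4⟩ := mem_ZT.1 hρ.1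
      have hle := hρ.2
      push Not at hle
      have hord : riemannZeta (1 - (starRingEnd ℂ) ρ) = 0 := by
        have h3 := H370.good_zeta.symm ρ g0 g1 g2.le
        have hne : ρ ≠ 1 := by rintro rfl; simp at g1
        have h4 : analyticOrderAt riemannZeta ρ ≠ 0 := by
          rw [(zeta_an hne).analyticOrderAt_ne_zero]
          exact g4
        rw [← h3] at h4
        exact apply_eq_zero_of_analyticOrderAt_ne_zero h4
      refine ⟨?_, ?_, ?_⟩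
      · have hne : (1 - (starRingEnd ℂ) ρ) ≠ 1 := by
          intro h
          have h2 := congrArg Complex.im h
          simp at h2
          linarith
        have h5 : ZU.J_g2b.FF (1 - (starRingEnd ℂ) ρ) = ((1 - (starRingEnd ℂ) ρ) - 1) * riemannZeta (1 - (starRingEnd ℂ) ρ) :=
          ZU.J_g2b.FF_ne hne
        show ZU.J_g2b.FF (1 - (starRingEnd ℂ) ρ) = 0
        rw [h5, hord, mul_zero]
      · rw [hσ]
        simp
        linarith
      · simp only [Complex.sub_im, Complex.one_im, Complex.conj_im, zero_sub, neg_neg]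
        rw [abs_of_pos (by linarith)]
        exact g3
    · refine mul_le_mul_of_nonneg_left ?_ hC.le
      calc T ^ (4 * σ * (1 - σ) + 2 * δ ^ 2) ≤ T ^ (1:ℝ) := Real.rpow_le_rpow_of_exponent_le hT hexp
        _ = T := Real.rpow_one T
  have h2 : ∑ ρ ∈ ZT T, (mz ρ : ℝ) = ∑ ρ ∈ (ZT T).filter (fun ρ => 1 / 2 - δ < ρ.re), (mz ρ : ℝ) +
      ∑ ρ ∈ (ZT T).filter (fun ρ => ¬ (1 / 2 - δ < ρ.re)), (mz ρ : ℝ) :=
    (Finset.sum_filter_add_sum_filter_not _ _ _).symm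
  have h3 : ∑ ρ ∈ (ZT T).filter (fun ρ => 1 / 2 - δ < ρ.re), (mz ρ : ℝ) ≤
      ∑ ρ ∈ (ZT T).filter (fun ρ => 1 / 2 - δ < ρ.re), (kk ρ : ℝ) := by
    refine Finset.sum_le_sum fun ρ hρ => ?_
    rw [Finset.mem_filter] at hρ
    obtain ⟨g0, g1, g2, g3, g4⟩ := mem_ZT.1 hρ.1
    exact_mod_cast hk ρ g4 hρ.2 g1 g2
  have h4 : ∑ ρ ∈ (ZT T).filter (fun ρ => 1 / 2 - δ < ρ.re), (kk ρ : ℝ) ≤ ∑ ρ ∈ ZT T, (kk ρ : ℝ) :=
    Finset.sum_le_sum_of_subset_of_nonneg (Finset.filter_subset _ _) fun _ _ _ => Nat.cast_nonneg _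
  linarith


/-! ### small heights -/

/-- entire version of the combination -/
def Epq (p q : ℝ) (z : ℂ) : ℂ := p * (z - 1) + q * ZU.J_g2b.FF z

theorem Epq_diff (p q : ℝ) : Differentiable ℂ (Epq p q) := by
  have := ZU.J_g2b.FF_diff
  unfold Epq
  fun_prop

theorem Epq_eq (p q : ℝ) {z : ℂ} (hz : z ≠ 1) : Epq p q z = (z - 1) * fpq p q z := by
  unfold Epq fpq
  rw [ZU.J_g2b.FF_ne hz]
  ring

theorem Epq_order (p q : ℝ) {z : ℂ} (hz : z ≠ 1) : analyticOrderAt (Epq p q) z = analyticOrderAt (fpq p q) z := by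
  have he : Epq p q =ᶠ[𝓝 z] (fun s => s - 1) * fpq p q := by
    filter_upwards [isOpen_compl_singleton.mem_nhds hz] with s hs
    exact Epq_eq p q hs
  have ha : AnalyticAt ℂ (fun s : ℂ => s - 1) z := by fun_prop
  rw [analyticOrderAt_congr he, analyticOrderAt_mul ha (fpq_an p q hz),
    ha.analyticOrderAt_eq_zero.2 (sub_ne_zero.2 hz), zero_add]

theorem asmall (p q : ℝ) (hpq : ¬ (p = 0 ∧ q = 0)) (T0 : ℝ) (hT0 : 1 ≤ T0) : ∃ N0 : ℝ, 0 ≤ N0 ∧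
    ∀ S : Finset ℂ, (∀ z ∈ S, 7 / 8 ≤ z.re ∧ z.re ≤ 2 ∧ 1 ≤ z.im ∧ z.im ≤ T0) → ∑ z ∈ S, (ez p q z : ℝ) ≤ N0 := by
  obtain ⟨σ0, c0, hσ0, hc0, hcen⟩ := center p q hpq
  set c : ℂ := (σ0 : ℂ) + (1 : ℝ) * I with hc
  have hcre : c.re = σ0 := by simp [hc]
  have hcim : c.im = 1 := by simp [hc]
  have hc1 : c ≠ 1 := by
    intro h
    have := congrArg Complex.im h
    rw [hcim] at this
    simp at this
  have hEc : 0 < ‖Epq p q c‖ := by
    rw [Epq_eq p q hc1, norm_mul]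
    have h1 := hcen 1
    have h2 : 0 < ‖c - 1‖ := norm_pos_iff.2 (sub_ne_zero.2 hc1)
    have h3 : 0 < ‖fpq p q c‖ := hc0.trans_le h1
    positivity
  set R : ℝ := σ0 + T0 + 3 with hR
  have hR0 : 0 < R := by rw [hR]; linarith
  obtain ⟨M, hM⟩ := (isCompact_sphere c (2 * R)).exists_bound_of_continuousOn (Epq_diff p q).continuous.continuousOn
  refine ⟨|M| / ‖Epq p q c‖, by positivity, fun S hS => ?_⟩
  have h := H353.count_bound univ isOpen_univ (Epq p q) (Epq_diff p q).differentiableOn c R (2 * R) |M| hR0 (by linarith)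
    (subset_univ _) (fun v hv => (hM v hv).trans (le_abs_self M)) S (ez p q) (fun z hz => by
      obtain ⟨z1, z2, z3, z4⟩ := hS z hz
      rw [mem_closedBall, dist_eq_norm]
      refine (Complex.norm_le_abs_re_add_abs_im _).trans ?_
      rw [Complex.sub_re, Complex.sub_im, hcre, hcim]
      have a1 : |z.re - σ0| ≤ σ0 + 2 := by rw [abs_le]; constructor <;> linarith
      have a2 : |z.im - 1| ≤ T0 := by rw [abs_le]; constructor <;> linarith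
      rw [hR]
      linarith) (fun z hz => by
      obtain ⟨z1, z2, z3, z4⟩ := hS z hz
      rw [Epq_order p q (by
        rintro rfl
        simp at z3
        linarith)]
      exact ez_le p q z)
  have e1 : 2 * R / R = 2 := by field_simp
  rw [e1] at h
  set N := ∑ z ∈ S, ez p q z with hN
  have h2 : (N : ℝ) ≤ 2 ^ N := by exact_mod_cast Nat.lt_two_pow_self.le
  have h3 : ∑ z ∈ S, (ez p q z : ℝ) = (N : ℝ) := by rw [hN]; push_cast; rfl
  rw [h3, le_div_iff₀ hEc]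
  calc (N : ℝ) * ‖Epq p q c‖ ≤ 2 ^ N * ‖Epq p q c‖ := mul_le_mul_of_nonneg_right h2 hEc.le
    _ = ‖Epq p q c‖ * 2 ^ N := mul_comm _ _
    _ ≤ _ := h

/-- **The zeros of `p + q ζ` near the line `Re z = 1`.** -/
theorem apts (p q : ℝ) (hpq : ¬ (p = 0 ∧ q = 0)) : ∃ C : ℝ, 0 ≤ C ∧ ∀ T : ℝ, 1 ≤ T →
    ∀ S : Finset ℂ, (∀ z ∈ S, 7 / 8 ≤ z.re ∧ z.re ≤ 2 ∧ 1 ≤ z.im ∧ z.im ≤ T) → ∑ z ∈ S, (ez p q z : ℝ) ≤ C * T := by
  classical
  obtain ⟨C, T0, hC, hT0, hblk⟩ := ablock p q hpq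
  obtain ⟨N0, hN0, hsm⟩ := asmall p q hpq (2 * T0) (by linarith)
  have key : ∀ n : ℕ, ∀ T : ℝ, 1 ≤ T → T ≤ 2 * T0 * 2 ^ n → ∀ S : Finset ℂ,
      (∀ z ∈ S, 7 / 8 ≤ z.re ∧ z.re ≤ 2 ∧ 1 ≤ z.im ∧ z.im ≤ T) → ∑ z ∈ S, (ez p q z : ℝ) ≤ N0 + 2 * C * T := by
    intro n
    induction n with
    | zero =>
      intro T h1 h2 S hS
      have h3 := hsm S (fun z hz => by
        obtain ⟨z1, z2, z3, z4⟩ := hS z hz
        exact ⟨z1, z2, z3, by rw [pow_zero, mul_one] at h2; linarith⟩)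
      have : 0 ≤ 2 * C * T := by positivity
      linarith
    | succ n ih =>
      intro T h1 h2 S hS
      rcases le_or_gt T (2 * T0) with h3 | h3
      · have h4 := hsm S (fun z hz => by
          obtain ⟨z1, z2, z3, z4⟩ := hS z hz
          exact ⟨z1, z2, z3, by linarith⟩)
        have : 0 ≤ 2 * C * T := by positivity
        linarith
      · have h4 : T / 2 ≤ 2 * T0 * 2 ^ n := by
          rw [pow_succ] at h2
          linarith
        rw [← Finset.sum_filter_add_sum_filter_not S (fun z => z.im ≤ T / 2)]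
        have h5 := ih (T / 2) (by linarith) h4 (S.filter (fun z => z.im ≤ T / 2)) (fun z hz => by
          rw [Finset.mem_filter] at hz
          obtain ⟨z1, z2, z3, z4⟩ := hS z hz.1
          exact ⟨z1, z2, z3, hz.2⟩)
        have h6 := hblk (T / 2) (by linarith) (S.filter (fun z => ¬ (z.im ≤ T / 2))) (fun z hz => by
          rw [Finset.mem_filter, not_le] at hz
          obtain ⟨z1, z2, z3, z4⟩ := hS z hz.1
          exact ⟨z1, z2, hz.2.le, by linarith⟩)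
        have : 0 < C * T := by positivity
        linarith
  refine ⟨N0 + 2 * C, by positivity, fun T hT S hS => ?_⟩
  obtain ⟨n, hn⟩ := pow_unbounded_of_one_lt T (by norm_num : (1:ℝ) < 2)
  have h1 := key n T hT (by nlinarith [pow_pos (by norm_num : (0:ℝ) < 2) n]) S hS
  nlinarith

/-! ### orders -/

theorem fpq_order_fin (p q : ℝ) (hpq : ¬ (p = 0 ∧ q = 0)) {z : ℂ} (hz : z ≠ 1) : analyticOrderAt (fpq p q) z ≠ ⊤ := by
  have hU : IsPreconnected ({1}ᶜ : Set ℂ) := by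
    have : IsConnected ({1}ᶜ : Set ℂ) := isConnected_compl_singleton_of_one_lt_rank (by
      rw [Complex.rank_real_complex]
      norm_num) 1
    exact this.isPreconnected
  have han : AnalyticOnNhd ℂ (fpq p q) ({1}ᶜ : Set ℂ) := fun z hz => fpq_an p q hz
  obtain ⟨σ0, c0, hσ0, hc0, hcen⟩ := center p q hpq
  have h2 : (σ0 : ℂ) + ((1 : ℝ) : ℂ) * I ∈ ({1}ᶜ : Set ℂ) := by
    intro h
    have h3 : (σ0 : ℂ) + ((1 : ℝ) : ℂ) * I = 1 := h
    have := congrArg Complex.im h3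
    simp at this
  refine AnalyticOnNhd.analyticOrderAt_ne_top_of_isPreconnected han hU h2 hz ?_
  have h3 : fpq p q ((σ0 : ℂ) + ((1 : ℝ) : ℂ) * I) ≠ 0 := by
    rw [← norm_pos_iff]
    exact hc0.trans_le (hcen 1)
  rw [(han _ h2).analyticOrderAt_eq_zero.2 h3]
  exact ENat.zero_ne_top

theorem ez_order (p q : ℝ) (hpq : ¬ (p = 0 ∧ q = 0)) {z : ℂ} (hz : z ≠ 1) : analyticOrderAt (fpq p q) z = (ez p q z : ℕ∞) :=
  (Nat.cast_analyticOrderNatAt (fpq_order_fin p q hpq hz)).symm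

theorem comp2_order (p q : ℝ) {ρ : ℂ} (hz : 2 * ρ ≠ 1) :
    analyticOrderAt (fun s => fpq p q (2 * s)) ρ = analyticOrderAt (fpq p q) (2 * ρ) := by
  have hg : AnalyticAt ℂ (fun s : ℂ => 2 * s) ρ := by fun_prop
  have hd : deriv (fun s : ℂ => 2 * s) ρ ≠ 0 := by
    have : HasDerivAt (fun s : ℂ => 2 * s) (2 * 1) ρ := (hasDerivAt_id ρ).const_mul 2
    rw [this.deriv]
    norm_num
  exact analyticOrderAt_comp_of_deriv_ne_zero (f := fpq p q) hg hd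

theorem LL_pq {a b c B α : ℝ} {w : ℝ → ℝ} (h : Tame a b w c B α) (p q : ℝ) {s : ℂ} (h0 : 0 < s.re) (h2 : s.re < 2)
    (hne : s ≠ 1 / 2) : LL (q * k2 w) (bpq p q w) s = fpq p q (2 * s) * TT (CV w qc) s := by
  have h1 := LL_eq h h0 h2 hne
  have h3 : TT (bpq p q w) s = p * TT (CV w qc) s + q * TT (b2 w) s := by
    have h4 := TT_add ((qc_BB0 h.wt).smul (p : ℂ)) ((b2_BB h).smul (q : ℂ)) h0 h2
    rw [TT_smul, TT_smul] at h4
    exact h4
  unfold LL at h1 ⊢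
  rw [h3]
  unfold fpq
  linear_combination (q : ℂ) * h1

theorem LL_pq_order {a b c B α : ℝ} {w : ℝ → ℝ} (h : Tame a b w c B α)
    (hne : ¬ ∀ᵐ u ∂(volume.restrict (Ioi (0:ℝ))), w u = 0) (p q : ℝ) (hpq : ¬ (p = 0 ∧ q = 0)) {ρ : ℂ}
    (h0 : 0 < ρ.re) (h1 : ρ.re < 1) (h3 : ρ ≠ 1 / 2) :
    analyticOrderAt (LL (q * k2 w) (bpq p q w)) ρ = ((ez p q (2 * ρ) + kw w ρ : ℕ) : ℕ∞) := by
  have h2 : ρ.re < 2 := by linarith
  have h4 : 2 * ρ ≠ 1 := by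
    intro h5
    apply h3
    linear_combination (1 / 2 : ℂ) * h5
  have he : LL (q * k2 w) (bpq p q w) =ᶠ[𝓝 ρ] (fun s => fpq p q (2 * s)) * TT (CV w qc) := by
    filter_upwards [near_dom h0 h2 h3] with s hs
    exact LL_pq h p q hs.1.1 hs.1.2 hs.2
  have ha : AnalyticAt ℂ (fun s => fpq p q (2 * s)) ρ :=
    AnalyticAt.fun_comp (g := fpq p q) (fpq_an p q h4) (by fun_prop)
  rw [analyticOrderAt_congr he, analyticOrderAt_mul ha ((qc_BB0 h.wt).an h0 h2), comp2_order p q h4, ez_order p q hpq h4,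
    order_G0 h.wt h0 h1, (Nat.cast_analyticOrderNatAt (order_fin h hne h0 h1)).symm]
  push_cast
  rfl

/-! ### surviving zeros -/

/-- the sum of the additional multiplicities -/
theorem ez_sum (p q : ℝ) (hpq : ¬ (p = 0 ∧ q = 0)) : ∃ C : ℝ, 0 ≤ C ∧ ∀ T : ℝ, 1 ≤ T →
    ∑ ρ ∈ ZT T, ((if 7 / 16 ≤ ρ.re then ez p q (2 * ρ) else 0 : ℕ) : ℝ) ≤ C * T := by
  classical
  obtain ⟨C, hC, h⟩ := apts p q hpq
  refine ⟨C * 2, by positivity, fun T hT => ?_⟩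
  have e1 : ∑ ρ ∈ ZT T, ((if 7 / 16 ≤ ρ.re then ez p q (2 * ρ) else 0 : ℕ) : ℝ) =
      ∑ z ∈ ((ZT T).filter (fun ρ => 7 / 16 ≤ ρ.re)).image (fun ρ => 2 * ρ), (ez p q z : ℝ) := by
    rw [Finset.sum_image (by
      intro x _ y _ hxy
      have h2 : (2 : ℂ) * x = 2 * y := hxy
      linear_combination (1 / 2 : ℂ) * h2), Finset.sum_filter]
    refine Finset.sum_congr rfl fun ρ _ => ?_
    split_ifs <;> simp
  rw [e1]
  refine (h (2 * T) (by linarith) _ fun z hz => ?_).trans (by linarith)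
  rw [Finset.mem_image] at hz
  obtain ⟨ρ, hρ, rfl⟩ := hz
  rw [Finset.mem_filter] at hρ
  obtain ⟨g0, g1, g2, g3, g4⟩ := mem_ZT.1 hρ.1
  have h2 := hρ.2
  have e2 : (2 * ρ).re = 2 * ρ.re := by simp
  have e3 : (2 * ρ).im = 2 * ρ.im := by simp
  rw [e2, e3]
  refine ⟨by linarith, by linarith, by linarith, by linarith⟩

theorem jsurvive_half {a b c B α : ℝ} {w : ℝ → ℝ} (h : Tame a b w c B α)
    (hne : ¬ ∀ᵐ u ∂(volume.restrict (Ioi (0:ℝ))), w u = 0) (hab : 1 / a + 1 / b < 1 / 2) (p q : ℝ)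
    (hpq : ¬ (p = 0 ∧ q = 0)) :
    ∃ ρ : ℂ, riemannZeta ρ = 0 ∧ 1 / 2 ≤ ρ.re ∧ ρ.re < 1 ∧ 1 < ρ.im ∧ ez p q (2 * ρ) + kw w ρ < mz ρ := by
  by_contra hcon
  push Not at hcon
  obtain ⟨K, hK, hN⟩ := N_low
  obtain ⟨C, hC, hez⟩ := ez_sum p q hpq
  refine contra h hne (1 / 2) (K / 2 + C) hab (by positivity) fun T hT => ?_
  have h1 := half_gen (kk := fun ρ => kw w ρ + (if 7 / 16 ≤ ρ.re then ez p q (2 * ρ) else 0)) (by
    intro ρ hz h0 h1 h2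
    have h3 := hcon ρ hz h0 h1 h2
    rw [if_pos (by linarith)]
    omega) T
  have h2 := hN T hT
  have h3 := hez T hT
  push_cast at h1 h3
  rw [Finset.sum_add_distrib] at h1
  push_cast at h1
  linarith

theorem jsurvive_delta {a b c B α : ℝ} {w : ℝ → ℝ} (h : Tame a b w c B α)
    (hne : ¬ ∀ᵐ u ∂(volume.restrict (Ioi (0:ℝ))), w u = 0) (hab : 1 / a + 1 / b < 1) {δ : ℝ} (hδ : 0 < δ)
    (hδ2 : δ ≤ 1 / 16) (p q : ℝ) (hpq : ¬ (p = 0 ∧ q = 0)) :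
    ∃ ρ : ℂ, riemannZeta ρ = 0 ∧ 1 / 2 - δ < ρ.re ∧ ρ.re < 1 ∧ 1 < ρ.im ∧ ez p q (2 * ρ) + kw w ρ < mz ρ := by
  by_contra hcon
  push Not at hcon
  obtain ⟨K, hK, hN⟩ := N_low
  obtain ⟨C, hC, hez⟩ := ez_sum p q hpq
  obtain ⟨C', hC', hm⟩ := most_gen (kk := fun ρ => kw w ρ + (if 7 / 16 ≤ ρ.re then ez p q (2 * ρ) else 0)) hδ
    (by linarith) (by
    intro ρ hz h0 h1 h2
    have h3 := hcon ρ hz h0 h1 h2
    rw [if_pos (by linarith)]
    omega)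
  refine contra h hne 1 (K + C' + C) hab (by positivity) fun T hT => ?_
  have h1 := hm T hT
  have h2 := hN T hT
  have h3 := hez T hT
  push_cast at h1 h3
  rw [Finset.sum_add_distrib] at h1
  push_cast at h1
  linarith

/-! ### windows -/

/-- the combination on the original scale -/
def Vx (p q : ℝ) (w : ℝ → ℝ) (x : ℝ) : ℝ := p * S w x + q * (SL w x - kap w * x ^ (1 / 2 : ℝ))

theorem jsigns {a b c B α : ℝ} {w : ℝ → ℝ} (h : Tame a b w c B α)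
    (hne : ¬ ∀ᵐ u ∂(volume.restrict (Ioi (0:ℝ))), w u = 0) (p q : ℝ) (hpq : ¬ (p = 0 ∧ q = 0)) {ρ : ℂ}
    (h0 : 1 / 3 ≤ ρ.re) (h1 : ρ.re < 1) (him : 1 < ρ.im) (hlt : ez p q (2 * ρ) + kw w ρ < mz ρ) {β : ℝ} (hβ : β ≤ ρ.re) :
    ∃ c : ℝ, 0 < c ∧ ∀ᶠ x : ℝ in atTop, ∀ s : ℝ, s = 1 ∨ s = -1 →
      ∃ y ∈ Icc x (x * Real.log x), c * y ^ β ≤ s * Vx p q w y := by
  have hp : 0 < ρ.re := by linarith
  have hne1 : ρ ≠ 1 := by rintro rfl; simp at h1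
  have hne2 : ρ ≠ 1 / 2 := by
    rintro rfl
    norm_num at him
  obtain ⟨c', hc', hev⟩ := joint h p q h0 h1 hne2 (LL_pq_order h hne p q hpq hp h1 hne2) (by
    rw [zeta_order hne1]
    exact_mod_cast hlt)
  refine ⟨c', hc', ?_⟩
  filter_upwards [Real.tendsto_log_atTop.eventually hev, eventually_ge_atTop (Real.exp 1)] with x hx hx1 s hs
  have hx0 : 0 < x := (Real.exp_pos 1).trans_le hx1
  have hx11 : 1 ≤ x := (Real.one_le_exp zero_le_one).trans hx1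
  have hl1 : 1 ≤ Real.log x := by rwa [Real.le_log_iff_exp_le hx0]
  obtain ⟨u, hu, hu2⟩ := hx s hs
  have hxu : x ≤ Real.exp u := by rw [← Real.log_le_iff_le_exp hx0]; exact hu.1
  refine ⟨Real.exp u, ⟨hxu, ?_⟩, ?_⟩
  · have h2 : Real.log (x * Real.log x) = Real.log x + Real.log (Real.log x) :=
      Real.log_mul hx0.ne' (by linarith)
    rw [← Real.le_log_iff_exp_le (by positivity), h2]
    exact hu.2
  · have e1 : Vf p q w u = Vx p q w (Real.exp u) := by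
      unfold Vf Vx AA AL
      rw [← Real.exp_mul, show u / 2 = u * (1 / 2) by ring]
    rw [← e1]
    refine le_trans (mul_le_mul_of_nonneg_left ?_ hc'.le) hu2
    rw [← Real.exp_mul]
    refine Real.exp_le_exp.2 ?_
    have hu0 : 0 ≤ u := by linarith [hu.1]
    rw [mul_comm]
    exact mul_le_mul_of_nonneg_right hβ hu0

theorem jmain_half {a b c B α : ℝ} {w : ℝ → ℝ} (h : Tame a b w c B α)
    (hne : ¬ ∀ᵐ u ∂(volume.restrict (Ioi (0:ℝ))), w u = 0) (hab : 1 / a + 1 / b < 1 / 2) (p q : ℝ)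
    (hpq : ¬ (p = 0 ∧ q = 0)) :
    ∃ c : ℝ, 0 < c ∧ ∀ᶠ x : ℝ in atTop, ∀ s : ℝ, s = 1 ∨ s = -1 →
      ∃ y ∈ Icc x (x * Real.log x), c * y ^ (1 / 2 : ℝ) ≤ s * Vx p q w y := by
  obtain ⟨ρ, hz, h0, h1, h2, h3⟩ := jsurvive_half h hne hab p q hpq
  exact jsigns h hne p q hpq (by linarith) h1 h2 h3 h0

theorem jmain_delta {a b c B α : ℝ} {w : ℝ → ℝ} (h : Tame a b w c B α)
    (hne : ¬ ∀ᵐ u ∂(volume.restrict (Ioi (0:ℝ))), w u = 0) (hab : 1 / a + 1 / b < 1) {δ : ℝ} (hδ : 0 < δ) (p q : ℝ)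
    (hpq : ¬ (p = 0 ∧ q = 0)) :
    ∃ c : ℝ, 0 < c ∧ ∀ᶠ x : ℝ in atTop, ∀ s : ℝ, s = 1 ∨ s = -1 →
      ∃ y ∈ Icc x (x * Real.log x), c * y ^ (1 / 2 - δ) ≤ s * Vx p q w y := by
  have hm : 0 < min δ (1 / 16) := lt_min hδ (by norm_num)
  have hm2 : min δ (1 / 16) ≤ 1 / 16 := min_le_right _ _
  obtain ⟨ρ, hz, h0, h1, h2, h3⟩ := jsurvive_delta h hne hab hm hm2 p q hpq
  have h4 := min_le_left δ (1 / 16)
  exact jsigns h hne p q hpq (by linarith) h1 h2 h3 (by linarith)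

end

end H19.EW
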