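import Pool.Agent.H19.EW.Q3
import Pool.Agent.H19.EW.Sh

/-!
# The Liouville sum at the threshold
-/

open Complex MeasureTheory Filter Topology Set Metric

set_option autoImplicit false
set_option linter.unusedSectionVars false
set_option linter.unusedVariables false

namespace H19.EW

open H313.TK

noncomputable section

theorem wth_tame : Tame 2 2 wth 0 C0 (Real.pi / 4 - 1 / 2) := by
  have hp := Real.pi_gt_three
  refine ⟨two_pos, two_pos, C0_nonneg, by linarith, wth_meas, ?_, ?_⟩
  · intro u hu hu1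
    obtain ⟨h1, h2⟩ := wth_near hu hu1
    rw [sub_zero, abs_of_pos h1]
    exact h2
  · intro u hu
    obtain ⟨h1, h2⟩ := wth_far hu
    rw [abs_of_pos h1]
    refine h2.trans (mul_le_mul_of_nonneg_left (Real.exp_le_exp.2 ?_) C0_nonneg)
    have h3 : 0 ≤ u ^ (2:ℝ) := Real.rpow_nonneg (by linarith) _
    have h4 : (Real.pi / 4 - 1 / 2) * u ^ (2:ℝ) ≤ Real.pi / 4 * u ^ (2:ℝ) :=
      mul_le_mul_of_nonneg_right (by linarith) h3
    exact neg_le_neg h4

theorem wth_wh : wh wth (1 / 2) = riemannZeta (1 / 2) * qh (1 / 2) := by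
  rw [← Kh_eq (1 / 2) (by norm_num) (by norm_num) (by norm_num)]
  unfold wh Kh
  rw [mellin_exp]
  refine integral_congr_ae (ae_of_all _ fun v => ?_)
  simp only
  rw [wth_kk _ (Real.exp_pos _)]
  unfold kp
  congr 3
  rw [Real.exp_neg]
  simp

theorem wth_kap : TT dq (1 / 2) = ((kap wth : ℝ) : ℂ) := by
  have hd : QG dq := dq_QG
  have h1 : Integrable (fun z : ℝ => cexp (-(1 / 2 : ℂ) * z) * dq z) := by
    refine ((int_exp_abs (1 / 2) (by norm_num)).const_mul 1000).mono' ?_ (ae_of_all _ fun y => ?_)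
    · have hc := hd.cont
      exact (by fun_prop : Continuous fun y : ℝ => cexp (-(1 / 2 : ℂ) * y) * dq y).aestronglyMeasurable
    · rw [norm_mul, norm_tw]
      calc Real.exp (-(1 / 2 : ℂ).re * y) * ‖dq y‖ ≤ Real.exp ((1 / 2) * |y|) * (1000 * Real.exp (-(2 * |y|))) := by
            refine mul_le_mul (Real.exp_le_exp.2 ?_) (dq_bd y) (norm_nonneg _) (Real.exp_pos _).le
            have := neg_abs_le y
            norm_num
            linarith
        _ = 1000 * (Real.exp ((1 / 2) * |y|) * Real.exp (-(2 * |y|))) := by ring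
        _ ≤ _ := by
            rw [← Real.exp_add]
            refine mul_le_mul_of_nonneg_left (Real.exp_le_exp.2 ?_) (by norm_num)
            have := abs_nonneg y
            linarith
  have h2 : Integrable (fun z : ℝ => cexp (-(1 / 2 : ℂ) * z) * Ist 0 dq z) := by
    rw [qc_Ist]
    exact qc_BB.int (by norm_num) (by norm_num)
  have h3 := TT_Ist (ρ := 0) hd.cont (fun v => hd.qq.int 0 (by norm_num) v) h1 h2
  rw [qc_Ist] at h3
  have h4 : TT qc (1 / 2) = qh (1 / 2) := rfl
  rw [h3, h4]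
  have h5 := wth_wh
  rw [wh_half] at h5
  unfold kap
  have h6 := zeta_half_re_ne
  have h7 : ((riemannZeta (1 / 2)).re : ℂ) ≠ 0 := by exact_mod_cast h6
  push_cast at h5 ⊢
  rw [h5]
  rw [zeta_half_re]
  simp only [Complex.ofReal_re]
  field_simp
  ring

/-- **At the threshold the Liouville sum has no oscillation either.** -/
theorem wth_SL : ∃ C : ℝ, ∀ x : ℝ, 0 < x → |SL wth x - kap wth * x ^ (1 / 2 : ℝ)| ≤ C := by
  refine ⟨1000 * ∫ z : ℝ, Real.exp (-(1 * |z|)), fun x hx => ?_⟩
  have h1 := S2_main dq_QG (C := 1000) (by norm_num) (fun t => (dq_bd t).trans (by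
    refine mul_le_mul_of_nonneg_left (Real.exp_le_exp.2 ?_) (by norm_num)
    have := abs_nonneg t
    linarith)) (Real.log x)
  rw [qc_Ist, wth_kap] at h1
  have h2 : S2 qc (Real.log x) = ((SL wth x : ℝ) : ℂ) := by
    rw [← (SL_hasSum wth_tame.wt hx).1.tsum_eq, Complex.ofReal_tsum]
    unfold S2
    refine tsum_congr fun k => ?_
    have hk : (0:ℝ) < (k : ℝ) + 1 := by positivity
    rw [wth_S (by positivity)]
    unfold qc qq
    congr 2
    rw [neg_sub, Real.exp_sub, Real.exp_log hx, show (2 : ℝ) * Real.log ((k : ℝ) + 1) = ((2 : ℕ) : ℝ) * Real.log ((k : ℝ) + 1) by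
      push_cast; rfl, Real.exp_nat_mul, Real.exp_log hk, one_div_div]
  have h3 : cexp ((1 / 2 : ℂ) * (Real.log x : ℝ)) = ((x ^ (1 / 2 : ℝ) : ℝ) : ℂ) := by
    rw [Real.rpow_def_of_pos hx]
    push_cast
    congr 1
    ring
  rw [h2, h3, ← Complex.ofReal_mul, ← Complex.ofReal_sub, Complex.norm_real, Real.norm_eq_abs] at h1
  rw [mul_comm (kap wth)]
  exact h1

end

end H19.EW
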