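import Mathlib

/-!
# Two tools: a uniqueness theorem of Phragmén-Lindelöf type, and the lower bound for the Gamma function
-/

open Complex MeasureTheory Filter Topology Set Metric Asymptotics

set_option autoImplicit false
set_option linter.unusedSectionVars false
set_option linter.unusedVariables false

namespace H19.EW

noncomputable section

theorem log_le_sqrt {x : ℝ} (hx : 0 < x) : Real.log x ≤ 2 * Real.sqrt x := by
  have h1 : Real.log x = 2 * Real.log (Real.sqrt x) := by rw [Real.log_sqrt hx.le]; ring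
  rw [h1]
  have h2 := Real.log_le_sub_one_of_pos (Real.sqrt_pos.2 hx)
  linarith

/-- the multiplier -/
def ml (c : ℝ) (z : ℂ) : ℂ := cexp (-(c : ℂ) * ((z + 1) * Complex.log (z + 1)))

theorem ml_norm (c : ℝ) (z : ℂ) : ‖ml c z‖ = Real.exp (-c * ((z.re + 1) * Real.log ‖z + 1‖ - z.im * Complex.arg (z + 1))) := by
  unfold ml
  rw [Complex.norm_exp]
  congr 1
  rw [neg_mul, Complex.neg_re, Complex.re_ofReal_mul, Complex.mul_re, Complex.log_re, Complex.log_im]
  simp

theorem norm_add_one_ge {z : ℂ} (hz : 0 ≤ z.re) : 1 ≤ ‖z + 1‖ := by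
  have h1 := Complex.re_le_norm (z + 1)
  simp only [Complex.add_re, Complex.one_re] at h1
  linarith

/-- **Exponential type and decay on the real axis.** -/
theorem pl_zero {F : ℂ → ℂ} (hF : Differentiable ℂ F) {A C κ : ℝ} (hA : 0 ≤ A) (hC : 0 ≤ C) (hκ : 0 < κ)
    (h1 : ∀ z : ℂ, 0 ≤ z.im → ‖F z‖ ≤ C * Real.exp (A * ‖z‖)) (h2 : ∀ x : ℝ, ‖F x‖ ≤ C * Real.exp (-(κ * |x|))) :
    ∀ z, F z = 0 := by
  have hp := Real.pi_pos
  set c : ℝ := 2 * κ / Real.pi with hc
  have hc0 : 0 < c := by positivity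
  set f : ℂ → ℂ := fun z => F (I * z) * ml c z with hf
  have hslit : ∀ z : ℂ, 0 ≤ z.re → z + 1 ∈ Complex.slitPlane := by
    intro z hz
    left
    simp only [Complex.add_re, Complex.one_re]
    linarith
  have hdiff : ∀ z : ℂ, 0 ≤ z.re → DifferentiableAt ℂ f z := by
    intro z hz
    have e1 : DifferentiableAt ℂ (fun z : ℂ => Complex.log (z + 1)) z :=
      DifferentiableAt.clog (by fun_prop) (hslit z hz)
    have e2 : DifferentiableAt ℂ (fun z : ℂ => F (I * z)) z :=
      DifferentiableAt.comp z (f := fun z : ℂ => I * z) hF.differentiableAt (by fun_prop)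
    have e3 : DifferentiableAt ℂ (ml c) z := by
      unfold ml
      exact (((by fun_prop : DifferentiableAt ℂ (fun z : ℂ => z + 1) z).mul e1).const_mul _).cexp
    exact e2.mul e3
  have hd : DiffContOnCl ℂ f {z : ℂ | 0 < z.re} := by
    refine DifferentiableOn.diffContOnCl ?_
    rw [Complex.closure_setOf_lt_re]
    exact fun z hz => (hdiff z hz).differentiableWithinAt
  have hIm : ∀ z : ℂ, (I * z).im = z.re := fun z => by simp
  have hIn : ∀ z : ℂ, ‖I * z‖ = ‖z‖ := fun z => by rw [norm_mul, Complex.norm_I, one_mul]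
  have hmlb : ∀ z : ℂ, 0 ≤ z.re → 1 ≤ ‖z‖ → ‖ml c z‖ ≤ Real.exp (c * Real.pi * ‖z‖) := by
    intro z hz hz1
    rw [ml_norm]
    refine Real.exp_le_exp.2 ?_
    have e1 : 0 ≤ (z.re + 1) * Real.log ‖z + 1‖ :=
      mul_nonneg (by linarith) (Real.log_nonneg (norm_add_one_ge hz))
    have e2 : z.im * Complex.arg (z + 1) ≤ ‖z‖ * Real.pi := by
      calc z.im * Complex.arg (z + 1) ≤ |z.im * Complex.arg (z + 1)| := le_abs_self _
        _ = |z.im| * |Complex.arg (z + 1)| := abs_mul _ _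
        _ ≤ _ := mul_le_mul (Complex.abs_im_le_norm z) (Complex.abs_arg_le_pi _) (abs_nonneg _) (norm_nonneg _)
    nlinarith
  have hexp : ∃ e < (2:ℝ), ∃ B, f =O[Bornology.cobounded ℂ ⊓ 𝓟 {z : ℂ | 0 < z.re}]
      fun z => Real.exp (B * ‖z‖ ^ e) := by
    refine ⟨1, by norm_num, A + c * Real.pi, ?_⟩
    refine IsBigO.of_bound C ?_
    have hev : ∀ᶠ z in Bornology.cobounded ℂ ⊓ 𝓟 {z : ℂ | 0 < z.re}, 1 ≤ ‖z‖ ∧ 0 < z.re := by
      refine Filter.Eventually.and ?_ ?_
      · exact Filter.Eventually.filter_mono inf_le_left (tendsto_norm_cobounded_atTop.eventually_ge_atTop 1)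
      · exact Filter.Eventually.filter_mono inf_le_right (mem_principal_self _)
    filter_upwards [hev] with z hz
    rw [Real.norm_of_nonneg (Real.exp_pos _).le, Real.rpow_one, hf, norm_mul, add_mul, Real.exp_add, ← mul_assoc]
    have e1 := h1 (I * z) (by rw [hIm]; exact hz.2.le)
    rw [hIn] at e1
    exact mul_le_mul e1 (hmlb z hz.2.le hz.1) (norm_nonneg _) (by positivity)
  have hre : SuperpolynomialDecay atTop Real.exp fun x : ℝ => ‖f x‖ := by
    intro n
    have hb : ∀ x : ℝ, 0 ≤ x → Real.exp x ^ n * ‖f x‖ ≤ C * Real.exp ((n + A) * x - c * (x * Real.log x)) := by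
      intro x hx
      rw [hf, norm_mul, ml_norm]
      have e1 := h1 (I * x) (by rw [hIm]; simpa using hx)
      rw [hIn, Complex.norm_real, Real.norm_of_nonneg hx] at e1
      have e2 : ‖(x:ℂ) + 1‖ = x + 1 := by
        rw [show (x:ℂ) + 1 = ((x + 1 : ℝ) : ℂ) by push_cast; rfl, Complex.norm_real, Real.norm_of_nonneg (by linarith)]
      rw [e2]
      simp only [Complex.ofReal_re, Complex.ofReal_im, zero_mul, sub_zero]
      have e3 : x * Real.log x ≤ (x + 1) * Real.log (x + 1) := by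
        rcases eq_or_lt_of_le hx with h | h
        · rw [← h]; simp
        · have l1 : Real.log x ≤ Real.log (x + 1) := Real.log_le_log h (by linarith)
          have l2 : 0 ≤ Real.log (x + 1) := Real.log_nonneg (by linarith)
          nlinarith
      calc Real.exp x ^ n * (‖F (I * x)‖ * Real.exp (-c * ((x + 1) * Real.log (x + 1))))
          ≤ Real.exp x ^ n * ((C * Real.exp (A * x)) * Real.exp (-c * (x * Real.log x))) := by
            refine mul_le_mul_of_nonneg_left (mul_le_mul e1 (Real.exp_le_exp.2 ?_) (Real.exp_pos _).le (by positivity))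
              (by positivity)
            nlinarith
        _ = _ := by
            rw [← Real.exp_nat_mul]
            have : (n + A) * x - c * (x * Real.log x) = n * x + (A * x + -c * (x * Real.log x)) := by ring
            rw [this, Real.exp_add, Real.exp_add]
            ring
    have hlim : Tendsto (fun x : ℝ => C * Real.exp ((n + A) * x - c * (x * Real.log x))) atTop (𝓝 0) := by
      rw [show (0:ℝ) = C * 0 by ring]
      refine Tendsto.const_mul _ (Real.tendsto_exp_atBot.comp ?_)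
      have e1 : (fun x : ℝ => (n + A) * x - c * (x * Real.log x)) = fun x => x * ((n + A) - c * Real.log x) := by
        funext x; ring
      rw [e1]
      refine Tendsto.atTop_mul_atBot₀ tendsto_id ?_
      refine tendsto_atBot_add_const_left atTop (n + A) (?_ : Tendsto (fun x => -(c * Real.log x)) atTop atBot)
      exact tendsto_neg_atTop_atBot.comp (Real.tendsto_log_atTop.const_mul_atTop hc0)
    refine squeeze_zero' (Eventually.of_forall fun x => by positivity) ?_ hlim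
    filter_upwards [eventually_ge_atTop (0:ℝ)] with x hx using hb x hx
  have him : ∃ C' : ℝ, ∀ x : ℝ, ‖f (x * I)‖ ≤ C' := by
    refine ⟨C, fun x => ?_⟩
    rw [hf, norm_mul, ml_norm]
    have e0 : I * ((x:ℂ) * I) = ((-x : ℝ) : ℂ) := by
      push_cast
      rw [mul_comm, mul_assoc, Complex.I_mul_I]
      ring
    rw [e0]
    have e1 := h2 (-x)
    rw [abs_neg] at e1
    have e2 : ((x:ℂ) * I).re = 0 := by simp
    have e3 : ((x:ℂ) * I).im = x := by simp
    rw [e2, e3]
    have e4 : 0 ≤ Real.log ‖(x:ℂ) * I + 1‖ := Real.log_nonneg (norm_add_one_ge (by rw [e2]))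
    have e5 : x * Complex.arg ((x:ℂ) * I + 1) ≤ |x| * (Real.pi / 2) := by
      have h3 : |Complex.arg ((x:ℂ) * I + 1)| ≤ Real.pi / 2 := by
        rw [Complex.abs_arg_le_pi_div_two_iff]
        simp
      calc x * Complex.arg ((x:ℂ) * I + 1) ≤ |x * Complex.arg ((x:ℂ) * I + 1)| := le_abs_self _
        _ = |x| * |Complex.arg ((x:ℂ) * I + 1)| := abs_mul _ _
        _ ≤ _ := mul_le_mul_of_nonneg_left h3 (abs_nonneg _)
    have e6 : Real.exp (-c * ((0 + 1) * Real.log ‖(x:ℂ) * I + 1‖ - x * Complex.arg ((x:ℂ) * I + 1))) ≤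
        Real.exp (κ * |x|) := by
      refine Real.exp_le_exp.2 ?_
      have h3 : c * (|x| * (Real.pi / 2)) = κ * |x| := by rw [hc]; field_simp
      nlinarith [mul_le_mul_of_nonneg_left e5 hc0.le, mul_nonneg hc0.le e4]
    calc _ ≤ (C * Real.exp (-(κ * |x|))) * Real.exp (κ * |x|) := mul_le_mul e1 e6 (Real.exp_pos _).le (by positivity)
      _ = C := by rw [mul_assoc, ← Real.exp_add, neg_add_cancel, Real.exp_zero, mul_one]
  have key := PhragmenLindelof.eq_zero_on_right_half_plane_of_superexponential_decay hd hexp hre him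
  have hzero : ∀ z : ℂ, 0 ≤ z.im → F z = 0 := by
    intro z hz
    have h3 := key (show (-I * z) ∈ {z : ℂ | 0 ≤ z.re} by
      show 0 ≤ (-I * z).re
      simpa using hz)
    simp only [hf, Pi.zero_apply] at h3
    have h4 : I * (-I * z) = z := by
      rw [← mul_assoc, mul_neg, Complex.I_mul_I]
      ring
    rw [h4] at h3
    rcases mul_eq_zero.1 h3 with h5 | h5
    · exact h5
    · exact absurd h5 (Complex.exp_ne_zero _)
  have hev : F =ᶠ[𝓝 I] 0 := by
    have : {z : ℂ | 0 < z.im} ∈ 𝓝 I := (isOpen_lt continuous_const Complex.continuous_im).mem_nhds (by simp)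
    filter_upwards [this] with z hz
    exact hzero z (le_of_lt hz)
  have han : AnalyticOnNhd ℂ F univ := fun z _ => hF.analyticAt z
  have := han.eqOn_zero_of_preconnected_of_eventuallyEq_zero isPreconnected_univ (mem_univ I) hev
  exact fun z => this (mem_univ z)

/-- comparison of Gamma quotients -/
theorem gamma_cmp {x : ℝ} (hx : 1 / 2 ≤ x) (y : ℝ) :
    ‖Complex.Gamma (x : ℂ)‖ * ‖Complex.Gamma ((1 / 2 : ℝ) + y * I)‖ ≤
      ‖Complex.Gamma ((x : ℂ) + y * I)‖ * ‖Complex.Gamma ((1 / 2 : ℝ) : ℂ)‖ := by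
  refine le_of_tendsto_of_tendsto (((Complex.GammaSeq_tendsto_Gamma _).norm).mul ((Complex.GammaSeq_tendsto_Gamma _).norm))
    (((Complex.GammaSeq_tendsto_Gamma _).norm).mul ((Complex.GammaSeq_tendsto_Gamma _).norm)) ?_
  filter_upwards [eventually_ge_atTop 1] with n hn
  unfold Complex.GammaSeq
  have hn0 : (0:ℝ) < n := by exact_mod_cast hn
  have hpow : ∀ s : ℂ, ‖(n:ℂ) ^ s‖ = (n:ℝ) ^ s.re := fun s => by
    rw [Complex.norm_natCast_cpow_of_pos (by omega)]
  simp only [norm_div, norm_mul, norm_prod, hpow]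
  have r1 : ((x:ℂ) + y * I).re = x := by simp
  have r2 : (((1 / 2 : ℝ) : ℂ) + y * I).re = 1 / 2 := by simp
  rw [r1, r2, Complex.ofReal_re, Complex.ofReal_re]
  set f : ℝ := ‖((n.factorial : ℕ) : ℂ)‖ with hf
  have hterm : ∀ j : ℕ, ‖(x:ℂ) + y * I + j‖ * ‖((1 / 2 : ℝ) : ℂ) + j‖ ≤ ‖(x:ℂ) + j‖ * ‖((1 / 2 : ℝ) : ℂ) + y * I + j‖ := by
    intro j
    have hj : (0:ℝ) ≤ j := Nat.cast_nonneg j
    have s1 : ‖(x:ℂ) + y * I + j‖ = Real.sqrt ((x + j) ^ 2 + y ^ 2) := by
      rw [show (x:ℂ) + y * I + j = ((x + j : ℝ) : ℂ) + (y : ℝ) * I by push_cast; ring, Complex.norm_add_mul_I]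
    have s2 : ‖((1 / 2 : ℝ) : ℂ) + y * I + j‖ = Real.sqrt ((1 / 2 + j) ^ 2 + y ^ 2) := by
      rw [show ((1 / 2 : ℝ) : ℂ) + y * I + j = ((1 / 2 + j : ℝ) : ℂ) + (y : ℝ) * I by push_cast; ring, Complex.norm_add_mul_I]
    have s3 : ‖(x:ℂ) + j‖ = x + j := by
      rw [show (x:ℂ) + j = ((x + j : ℝ) : ℂ) by push_cast; ring, Complex.norm_real, Real.norm_of_nonneg (by linarith)]
    have s4 : ‖((1 / 2 : ℝ) : ℂ) + j‖ = 1 / 2 + j := by
      rw [show ((1 / 2 : ℝ) : ℂ) + j = ((1 / 2 + j : ℝ) : ℂ) by push_cast; ring, Complex.norm_real,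
        Real.norm_of_nonneg (by linarith)]
    rw [s1, s2, s3, s4]
    rw [← Real.sqrt_sq (show (0:ℝ) ≤ 1 / 2 + j by linarith), ← Real.sqrt_sq (show (0:ℝ) ≤ x + j by linarith),
      ← Real.sqrt_mul (by positivity), ← Real.sqrt_mul (by positivity), Real.sq_sqrt (by positivity), Real.sq_sqrt (by positivity)]
    refine Real.sqrt_le_sqrt ?_
    have : (1 / 2 + (j:ℝ)) ^ 2 ≤ (x + j) ^ 2 := by gcongr
    nlinarith [mul_le_mul_of_nonneg_left this (sq_nonneg y)]
  have hprod : (∏ j ∈ Finset.range (n + 1), ‖(x:ℂ) + y * I + j‖) * (∏ j ∈ Finset.range (n + 1), ‖((1 / 2 : ℝ) : ℂ) + j‖) ≤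
      (∏ j ∈ Finset.range (n + 1), ‖(x:ℂ) + j‖) * (∏ j ∈ Finset.range (n + 1), ‖((1 / 2 : ℝ) : ℂ) + y * I + j‖) := by
    rw [← Finset.prod_mul_distrib, ← Finset.prod_mul_distrib]
    exact Finset.prod_le_prod (fun j _ => by positivity) fun j _ => hterm j
  have hne : ∀ z : ℂ, 0 < z.re → 0 < ∏ j ∈ Finset.range (n + 1), ‖z + j‖ := by
    intro z hz
    refine Finset.prod_pos fun j _ => norm_pos_iff.2 ?_
    intro h
    have := congrArg Complex.re h
    simp at this
    have hj : (0:ℝ) ≤ j := Nat.cast_nonneg j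
    linarith
  have p1 := hne (x:ℂ) (by simp; linarith)
  have p2 := hne (((1 / 2 : ℝ) : ℂ) + y * I) (by rw [r2]; norm_num)
  have p3 := hne ((x:ℂ) + y * I) (by rw [r1]; linarith)
  have p4 := hne ((1 / 2 : ℝ) : ℂ) (by simp)
  set a1 := ∏ j ∈ Finset.range (n + 1), ‖(x:ℂ) + j‖
  set a2 := ∏ j ∈ Finset.range (n + 1), ‖((1 / 2 : ℝ) : ℂ) + y * I + j‖
  set a3 := ∏ j ∈ Finset.range (n + 1), ‖(x:ℂ) + y * I + j‖
  set a4 := ∏ j ∈ Finset.range (n + 1), ‖((1 / 2 : ℝ) : ℂ) + j‖
  have hN : 0 ≤ (n:ℝ) ^ x * f * ((n:ℝ) ^ (1 / 2 : ℝ) * f) := by positivity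
  rw [div_mul_div_comm, div_mul_div_comm]
  exact div_le_div_of_nonneg_left hN (mul_pos p3 p4) hprod

theorem gamma_half_im (y : ℝ) : ‖Complex.Gamma ((1 / 2 : ℝ) + y * I)‖ ^ 2 = Real.pi / Real.cosh (Real.pi * y) := by
  have h1 := Complex.Gamma_mul_Gamma_one_sub (((1 / 2 : ℝ) : ℂ) + y * I)
  have h2 : (1 : ℂ) - (((1 / 2 : ℝ) : ℂ) + y * I) = (starRingEnd ℂ) (((1 / 2 : ℝ) : ℂ) + y * I) := by
    apply Complex.ext <;> simp <;> norm_num
  rw [h2, Complex.Gamma_conj, Complex.mul_conj] at h1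
  have h3 : Complex.sin (Real.pi * (((1 / 2 : ℝ) : ℂ) + y * I)) = ((Real.cosh (Real.pi * y) : ℝ) : ℂ) := by
    rw [mul_add, Complex.sin_add]
    have e1 : (Real.pi : ℂ) * ((1 / 2 : ℝ) : ℂ) = Real.pi / 2 := by push_cast; ring
    have e2 : (Real.pi : ℂ) * (y * I) = ((Real.pi * y : ℝ) : ℂ) * I := by push_cast; ring
    rw [e1, e2, Complex.sin_pi_div_two, Complex.cos_pi_div_two, Complex.cos_mul_I, one_mul, zero_mul, add_zero,
      Complex.ofReal_cosh]
  rw [h3, ← Complex.ofReal_div] at h1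
  have h4 := Complex.ofReal_injective h1
  rw [Complex.normSq_eq_norm_sq] at h4
  exact h4

/-- **Lower bound for the Gamma function on vertical lines.** -/
theorem gamma_low {x : ℝ} (hx : 1 / 2 ≤ x) (y : ℝ) :
    Real.Gamma x ≤ ‖Complex.Gamma ((x : ℂ) + y * I)‖ * Real.exp (Real.pi / 2 * |y|) := by
  have h1 := gamma_cmp hx y
  have h2 := gamma_half_im y
  have hG : ‖Complex.Gamma (x : ℂ)‖ = Real.Gamma x := by
    rw [Complex.Gamma_ofReal, Complex.norm_real, Real.norm_of_nonneg (Real.Gamma_pos_of_pos (by linarith)).le]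
  have hH : ‖Complex.Gamma ((1 / 2 : ℝ) : ℂ)‖ = Real.sqrt Real.pi := by
    rw [Complex.Gamma_ofReal, Complex.norm_real, Real.Gamma_one_half_eq, Real.norm_of_nonneg (Real.sqrt_nonneg _)]
  rw [hG, hH] at h1
  set a := ‖Complex.Gamma ((x : ℂ) + y * I)‖ with ha
  set b := ‖Complex.Gamma (((1 / 2 : ℝ) : ℂ) + y * I)‖ with hb
  have hcosh : Real.cosh (Real.pi * y) ≤ Real.exp (Real.pi * |y|) := by
    rw [Real.cosh_eq]
    have e1 : Real.exp (Real.pi * y) ≤ Real.exp (Real.pi * |y|) :=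
      Real.exp_le_exp.2 (mul_le_mul_of_nonneg_left (le_abs_self y) Real.pi_pos.le)
    have e2 : Real.exp (-(Real.pi * y)) ≤ Real.exp (Real.pi * |y|) := by
      refine Real.exp_le_exp.2 ?_
      have := mul_le_mul_of_nonneg_left (neg_abs_le y) Real.pi_pos.le
      linarith
    linarith
  have hb0 : 0 < b := by
    rw [hb, norm_pos_iff]
    exact Complex.Gamma_ne_zero_of_re_pos (by simp)
  have hb1 : Real.sqrt Real.pi ≤ b * Real.exp (Real.pi / 2 * |y|) := by
    refine Real.sqrt_le_iff.2 ⟨by positivity, ?_⟩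
    rw [mul_pow, h2, ← Real.exp_nat_mul]
    have e3 : ((2:ℕ):ℝ) * (Real.pi / 2 * |y|) = Real.pi * |y| := by push_cast; ring
    rw [e3, div_mul_eq_mul_div, le_div_iff₀ (Real.cosh_pos _)]
    exact mul_le_mul_of_nonneg_left hcosh Real.pi_pos.le
  have ha0 : 0 ≤ a := norm_nonneg _
  have h3 : Real.Gamma x * b ≤ a * (b * Real.exp (Real.pi / 2 * |y|)) := h1.trans (mul_le_mul_of_nonneg_left hb1 ha0)
  have h4 : Real.Gamma x * b ≤ (a * Real.exp (Real.pi / 2 * |y|)) * b := by linarith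
  exact le_of_mul_le_mul_right h4 hb0

end

end H19.EW
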