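import Pool.Agent.H19.EW.J2
import Pool.Agent.H19.EW.R1

/-!
# Weights with Gaussian decay: bounds of the transform
-/

open Complex MeasureTheory Filter Topology Set Metric

set_option autoImplicit false
set_option linter.unusedSectionVars false
set_option linter.unusedVariables false

namespace H19.EW

open H313.TK

noncomputable section

/-- Gaussian decay at both ends -/
structure Hardy (α β : ℝ) (w : ℝ → ℝ) (c B : ℝ) : Prop where
  hα : 0 < α
  hβ : 0 < β
  hB : 0 ≤ B
  meas : Measurable w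
  near : ∀ u : ℝ, 0 < u → u ≤ 1 → |w u - c| ≤ B * Real.exp (-(Real.pi * α / u ^ 2))
  far : ∀ u : ℝ, 1 ≤ u → |w u| ≤ B * Real.exp (-(Real.pi * β * u ^ 2))

theorem Hardy.tame {α β c B : ℝ} {w : ℝ → ℝ} (h : Hardy α β w c B) : Tame 2 2 w c B (Real.pi * min α β) := by
  have hp := Real.pi_pos
  have hα := h.hα
  have hβ := h.hβ
  have hB := h.hB
  refine ⟨two_pos, two_pos, hB, by have := lt_min hα hβ; positivity, h.meas, ?_, ?_⟩
  · intro u hu hu1
    refine (h.near u hu hu1).trans (mul_le_mul_of_nonneg_left (Real.exp_le_exp.2 (neg_le_neg ?_)) hB)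
    have e1 : u ^ (-2:ℝ) = 1 / u ^ 2 := by
      rw [Real.rpow_neg hu.le, show ((2:ℝ)) = ((2:ℕ) : ℝ) by norm_num, Real.rpow_natCast, one_div]
    rw [e1, mul_one_div]
    exact div_le_div_of_nonneg_right (mul_le_mul_of_nonneg_left (min_le_left _ _) hp.le) (by positivity)
  · intro u hu
    refine (h.far u hu).trans (mul_le_mul_of_nonneg_left (Real.exp_le_exp.2 (neg_le_neg ?_)) hB)
    have e1 : u ^ (2:ℝ) = u ^ 2 := by rw [show ((2:ℝ)) = ((2:ℕ) : ℝ) by norm_num, Real.rpow_natCast]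
    rw [e1]
    exact mul_le_mul_of_nonneg_right (mul_le_mul_of_nonneg_left (min_le_right _ _) hp.le) (by positivity)

/-- the integrand of the Gaussian transform -/
def gi (b σ y : ℝ) : ℝ := Real.exp (-σ * y) * Real.exp (-(b * Real.exp (-y) ^ 2))

theorem gi_int {b σ : ℝ} (hb : 0 < b) (hσ : 0 < σ) : Integrable (gi b σ) := by
  have hm : 0 < min b σ := lt_min hb hσ
  set E := Real.exp (Ee 2 b σ) with hE
  have hE1 : 1 ≤ E := Real.one_le_exp (Ee_nonneg two_pos)
  refine ((int_exp_abs (min b σ) hm).const_mul E).mono' ?_ (ae_of_all _ fun y => ?_)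
  · unfold gi
    exact (by fun_prop : Continuous fun y : ℝ => Real.exp (-σ * y) * Real.exp (-(b * Real.exp (-y) ^ 2))).aestronglyMeasurable
  · unfold gi
    rw [Real.norm_of_nonneg (by positivity)]
    rcases le_total 0 y with hy | hy
    · rw [abs_of_nonneg hy]
      have h1 : Real.exp (-(b * Real.exp (-y) ^ 2)) ≤ 1 := Real.exp_le_one_iff.2 (by
        have : 0 ≤ b * Real.exp (-y) ^ 2 := by positivity
        linarith)
      calc Real.exp (-σ * y) * Real.exp (-(b * Real.exp (-y) ^ 2)) ≤ Real.exp (-σ * y) * 1 :=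
            mul_le_mul_of_nonneg_left h1 (Real.exp_pos _).le
        _ ≤ Real.exp (-(min b σ * y)) := by
            rw [mul_one]
            refine Real.exp_le_exp.2 ?_
            have := mul_le_mul_of_nonneg_right (min_le_right b σ) hy
            linarith
        _ ≤ _ := le_mul_of_one_le_left (Real.exp_pos _).le hE1
    · rw [abs_of_nonpos hy]
      have h2 := elem2 (κ := 2) (α := b) (τ := σ) (y := -y) two_pos hb (by linarith)
      have h3 : Real.exp (-y) ^ 2 = Real.exp (2 * -y) := by rw [← Real.exp_nat_mul]; push_cast; rfl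
      rw [h3, show -σ * y = σ * -y by ring]
      refine h2.trans (mul_le_mul_of_nonneg_left (Real.exp_le_exp.2 ?_) (Real.exp_pos _).le)
      have := mul_le_mul_of_nonneg_right (min_le_left b σ) (show 0 ≤ -y by linarith)
      linarith

theorem gi_val {b σ : ℝ} (hb : 0 < b) (hσ : 0 < σ) : ∫ y, gi b σ y = 1 / 2 * (b ^ (-(σ / 2)) * Real.Gamma (σ / 2)) := by
  have h1 := (mellin_gauss b hb (σ : ℂ) (by simpa using hσ)).2
  rw [mellin_exp] at h1
  have h2 : ∫ u : ℝ, cexp (-(σ : ℂ) * u) * ((Real.exp (-b * Real.exp (-u) ^ 2) : ℝ) : ℂ) = ((∫ y, gi b σ y : ℝ) : ℂ) := by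
    rw [← integral_complex_ofReal]
    refine integral_congr_ae (ae_of_all _ fun y => ?_)
    simp only
    unfold gi
    rw [neg_mul b]
    push_cast
    ring
  rw [h2] at h1
  have h3 : (1 / 2 : ℂ) * ((b : ℂ) ^ (-((σ : ℂ) / 2)) * Complex.Gamma ((σ : ℂ) / 2)) =
      ((1 / 2 * (b ^ (-(σ / 2)) * Real.Gamma (σ / 2)) : ℝ) : ℂ) := by
    rw [Complex.ofReal_mul, Complex.ofReal_mul, Complex.ofReal_cpow hb.le, ← Complex.Gamma_ofReal]
    push_cast
    rfl
  rw [h3] at h1
  exact Complex.ofReal_injective h1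

theorem norm_TT_le {g : ℝ → ℂ} {s : ℂ} {G : ℝ → ℝ} (hG : Integrable G) (h : ∀ y, Real.exp (-s.re * y) * ‖g y‖ ≤ G y) :
    ‖TT g s‖ ≤ ∫ y, G y := by
  unfold TT
  refine norm_integral_le_of_norm_le hG (ae_of_all _ fun y => ?_)
  rw [norm_mul, norm_tw]
  exact h y

/-- bound on the right -/
theorem vv_right {α β c B : ℝ} {w : ℝ → ℝ} (h : Hardy α β w c B) {s : ℂ} (hs : 1 / 2 ≤ s.re) :
    ‖TT (vv w c) s‖ ≤ B * ((∫ y : ℝ, Real.exp (-(1 / 2 * |y|))) +
      1 / 2 * ((Real.pi * β) ^ (-(s.re / 2)) * Real.Gamma (s.re / 2))) := by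
  have hp := Real.pi_pos
  have hβ := h.hβ
  have hα := h.hα
  have hB := h.hB
  have hs0 : 0 < s.re := by linarith
  have i1 := int_exp_abs (1 / 2) (by norm_num)
  have i2 := gi_int (b := Real.pi * β) (σ := s.re) (by positivity) hs0
  rw [← gi_val (by positivity) hs0, ← integral_add i1 i2, ← integral_const_mul]
  refine norm_TT_le ((i1.add i2).const_mul B) fun y => ?_
  unfold vv
  rw [Complex.norm_real, Real.norm_eq_abs]
  have g0 : 0 ≤ gi (Real.pi * β) s.re y := by unfold gi; positivity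
  have x0 : 0 < Real.exp (-(1 / 2 * |y|)) := Real.exp_pos _
  rcases le_or_gt 0 y with hy | hy
  · rw [if_pos hy]
    have h1 := h.near (Real.exp (-y)) (Real.exp_pos _) (Real.exp_le_one_iff.2 (by linarith))
    have h2 : Real.exp (-(Real.pi * α / Real.exp (-y) ^ 2)) ≤ 1 := Real.exp_le_one_iff.2 (by
      have : 0 ≤ Real.pi * α / Real.exp (-y) ^ 2 := by positivity
      linarith)
    have h3 : |w (Real.exp (-y)) - c| ≤ B := h1.trans (mul_le_of_le_one_right hB h2)
    calc Real.exp (-s.re * y) * |w (Real.exp (-y)) - c| ≤ Real.exp (-(1 / 2 * |y|)) * B := by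
          refine mul_le_mul (Real.exp_le_exp.2 ?_) h3 (abs_nonneg _) x0.le
          rw [abs_of_nonneg hy]
          nlinarith
      _ = B * Real.exp (-(1 / 2 * |y|)) := mul_comm _ _
      _ ≤ _ := mul_le_mul_of_nonneg_left (by simpa using g0) hB
  · rw [if_neg (not_le.2 hy), sub_zero]
    have h1 := h.far (Real.exp (-y)) (Real.one_le_exp (by linarith))
    calc Real.exp (-s.re * y) * |w (Real.exp (-y))| ≤
          Real.exp (-s.re * y) * (B * Real.exp (-(Real.pi * β * Real.exp (-y) ^ 2))) :=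
          mul_le_mul_of_nonneg_left h1 (Real.exp_pos _).le
      _ = B * gi (Real.pi * β) s.re y := by unfold gi; ring
      _ ≤ _ := mul_le_mul_of_nonneg_left (by simpa using x0.le) hB

/-- bound on the left -/
theorem vv_left {α β c B : ℝ} {w : ℝ → ℝ} (h : Hardy α β w c B) {s : ℂ} (hs : s.re ≤ -(1 / 2)) :
    ‖TT (vv w c) s‖ ≤ B * ((∫ y : ℝ, Real.exp (-(1 / 2 * |y|))) +
      1 / 2 * ((Real.pi * α) ^ (-(-s.re / 2)) * Real.Gamma (-s.re / 2))) := by
  have hp := Real.pi_pos
  have hβ := h.hβ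
  have hα := h.hα
  have hB := h.hB
  have hs0 : 0 < -s.re := by linarith
  have i1 := int_exp_abs (1 / 2) (by norm_num)
  have i2 := (gi_int (b := Real.pi * α) (σ := -s.re) (by positivity) hs0).comp_neg
  have e2 : ∫ y, gi (Real.pi * α) (-s.re) (-y) = 1 / 2 * ((Real.pi * α) ^ (-(-s.re / 2)) * Real.Gamma (-s.re / 2)) := by
    rw [integral_neg_eq_self (fun y => gi (Real.pi * α) (-s.re) y), gi_val (by positivity) hs0]
  rw [← e2, ← integral_add i1 i2, ← integral_const_mul]
  refine norm_TT_le ((i1.add i2).const_mul B) fun y => ?_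
  unfold vv
  rw [Complex.norm_real, Real.norm_eq_abs]
  have g0 : 0 ≤ gi (Real.pi * α) (-s.re) (-y) := by unfold gi; positivity
  have x0 : 0 < Real.exp (-(1 / 2 * |y|)) := Real.exp_pos _
  rcases le_or_gt 0 y with hy | hy
  · rw [if_pos hy]
    have h1 := h.near (Real.exp (-y)) (Real.exp_pos _) (Real.exp_le_one_iff.2 (by linarith))
    have h2 : Real.pi * α / Real.exp (-y) ^ 2 = Real.pi * α * Real.exp (- -y) ^ 2 := by
      rw [neg_neg, Real.exp_neg, inv_pow, div_inv_eq_mul]
    rw [h2] at h1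
    calc Real.exp (-s.re * y) * |w (Real.exp (-y)) - c| ≤
          Real.exp (-s.re * y) * (B * Real.exp (-(Real.pi * α * Real.exp (- -y) ^ 2))) :=
          mul_le_mul_of_nonneg_left h1 (Real.exp_pos _).le
      _ = B * gi (Real.pi * α) (-s.re) (-y) := by
          unfold gi
          rw [show - -s.re * -y = -s.re * y by ring]
          ring
      _ ≤ _ := mul_le_mul_of_nonneg_left (by simpa using x0.le) hB
  · rw [if_neg (not_le.2 hy), sub_zero]
    have h1 := h.far (Real.exp (-y)) (Real.one_le_exp (by linarith))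
    have h2 : Real.exp (-(Real.pi * β * Real.exp (-y) ^ 2)) ≤ 1 := Real.exp_le_one_iff.2 (by
      have : 0 ≤ Real.pi * β * Real.exp (-y) ^ 2 := by positivity
      linarith)
    have h3 : |w (Real.exp (-y))| ≤ B := h1.trans (mul_le_of_le_one_right hB h2)
    calc Real.exp (-s.re * y) * |w (Real.exp (-y))| ≤ Real.exp (-(1 / 2 * |y|)) * B := by
          refine mul_le_mul (Real.exp_le_exp.2 ?_) h3 (abs_nonneg _) x0.le
          rw [abs_of_neg hy]
          nlinarith
      _ = B * Real.exp (-(1 / 2 * |y|)) := mul_comm _ _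
      _ ≤ _ := mul_le_mul_of_nonneg_left (by simpa using g0) hB

/-- bound in the middle -/
theorem vv_mid {α β c B : ℝ} {w : ℝ → ℝ} (h : Hardy α β w c B) :
    ∃ C : ℝ, 0 ≤ C ∧ ∀ s : ℂ, |s.re| ≤ 2 → ‖TT (vv w c) s‖ ≤ C := by
  obtain ⟨C, hC, hb⟩ := vv_exp h.tame 3 (by norm_num)
  refine ⟨∫ y : ℝ, C * Real.exp (-(1 * |y|)), ?_, fun s hs => ?_⟩
  · exact integral_nonneg fun y => by positivity
  · refine norm_TT_le ((int_exp_abs 1 one_pos).const_mul C) fun y => ?_
    calc Real.exp (-s.re * y) * ‖vv w c y‖ ≤ Real.exp (2 * |y|) * (C * Real.exp (-(3 * |y|))) := by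
          refine mul_le_mul (Real.exp_le_exp.2 ?_) (hb y) (norm_nonneg _) (Real.exp_pos _).le
          calc -s.re * y ≤ |-s.re * y| := le_abs_self _
            _ = |s.re| * |y| := by rw [abs_mul, abs_neg]
            _ ≤ _ := mul_le_mul_of_nonneg_right hs (abs_nonneg _)
      _ = C * (Real.exp (2 * |y|) * Real.exp (-(3 * |y|))) := by ring
      _ = _ := by rw [← Real.exp_add]; congr 2; ring

/-- the entire function, bounded by the transform -/
theorem ff_le (w : ℝ → ℝ) (c : ℝ) (s : ℂ) {A : ℝ} (h : ‖TT (vv w c) s‖ ≤ A) : ‖ff w c s‖ ≤ |c| + ‖s‖ * A := by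
  unfold ff
  refine (norm_add_le _ _).trans ?_
  rw [norm_mul, Complex.norm_real, Real.norm_eq_abs]
  exact add_le_add le_rfl (mul_le_mul_of_nonneg_left h (norm_nonneg _))

end

end H19.EW
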