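import Pool.Agent.H19.EW.R2
import Pool.Agent.H19.EW.L.H353R2_K2

/-!
# Killing the zeros away from the line, at a small cost
-/

open Complex MeasureTheory Filter Topology Set Metric

set_option autoImplicit false
set_option linter.unusedSectionVars false
set_option linter.unusedVariables false

namespace H19.EW

open H313.TK H353

noncomputable section

theorem KK_le {ι : Type*} [Countable ι] (b h : ι → ℝ) (h0 : ∀ i, 0 ≤ h i) (hs : Summable h) (s : ℂ) :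
    ‖KK b h s‖ ≤ Real.exp (max (-s.re) 0 * ∑' i, h i) := by
  have key : ‖KK b h s‖ ≤ ∫ ω, Real.exp (max (-s.re) 0 * ∑' i, h i) ∂(PP b h) := by
    refine norm_integral_le_of_norm_le (integrable_const _) (ae_of_all _ fun ω => ?_)
    rw [Complex.norm_exp]
    refine Real.exp_le_exp.2 ?_
    have e : (-s * (XX h ω : ℂ)).re = -s.re * XX h ω := by simp
    rw [e]
    have h1 := XX_nonneg h h0 ω
    have h2 := XX_le h h0 hs ω
    calc -s.re * XX h ω ≤ max (-s.re) 0 * XX h ω := mul_le_mul_of_nonneg_right (le_max_left _ _) h1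
      _ ≤ _ := mul_le_mul_of_nonneg_left h2 (le_max_right _ _)
  simpa using key

theorem KK_zero {ι : Type*} (b h : ι → ℝ) : KK b h 0 = 1 := by
  unfold KK
  simp

/-- the index set above a finite set of zeros -/
def Fix (σ : ℝ) (F0 : Finset (ZS σ)) : Finset (IX σ) := F0.sigma fun _ => Finset.univ

/-- the remaining step lengths -/
def hr (σ : ℝ) (F0 : Finset (ZS σ)) : IX σ → ℝ := by
  classical
  exact fun i => if i.1 ∈ F0 then 0 else hx σ i

theorem hr_nonneg (σ : ℝ) (F0 : Finset (ZS σ)) (i : IX σ) : 0 ≤ hr σ F0 i := by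
  classical
  unfold hr
  split_ifs
  · exact le_rfl
  · exact (hx_pos σ i).le

theorem hr_le (σ : ℝ) (F0 : Finset (ZS σ)) (i : IX σ) : hr σ F0 i ≤ hx σ i := by
  classical
  unfold hr
  split_ifs
  · exact (hx_pos σ i).le
  · exact le_rfl

theorem hr_sum (σ : ℝ) (h1 : 1 / 2 < σ) (h2 : σ < 1) (F0 : Finset (ZS σ)) : Summable (hr σ F0) :=
  Summable.of_nonneg_of_le (hr_nonneg σ F0) (hr_le σ F0) (hx_summable σ h1 h2)

/-- a small tail -/
theorem small_tail (σ : ℝ) (h1 : 1 / 2 < σ) (h2 : σ < 1) {ε : ℝ} (hε : 0 < ε) :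
    ∃ F0 : Finset (ZS σ), ∑' i, hr σ F0 i ≤ ε := by
  classical
  have hs := hx_summable σ h1 h2
  obtain ⟨G, hG⟩ := (((tendsto_order.1 hs.hasSum).1 (∑' i, hx σ i - ε) (by linarith)).and
    (eventually_ge_atTop (∅ : Finset (IX σ)))).exists
  refine ⟨G.image Sigma.fst, ?_⟩
  have h3 : Summable (fun i => if i ∈ G then hx σ i else 0) := by
    refine summable_of_ne_finset_zero (s := G) fun i hi => ?_
    rw [if_neg hi]
  have h4 : ∑' i, (if i ∈ G then hx σ i else 0) = ∑ i ∈ G, hx σ i := by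
    rw [tsum_eq_sum (s := G) (fun i hi => if_neg hi)]
    exact Finset.sum_congr rfl fun i hi => if_pos hi
  have h5 : ∀ i, hr σ (G.image Sigma.fst) i ≤ hx σ i - (if i ∈ G then hx σ i else 0) := by
    intro i
    by_cases hi : i ∈ G
    · have h6 : i.1 ∈ G.image Sigma.fst := Finset.mem_image_of_mem _ hi
      unfold hr
      rw [if_pos h6, if_pos hi, sub_self]
    · rw [if_neg hi, sub_zero]
      exact hr_le σ _ i
  calc ∑' i, hr σ (G.image Sigma.fst) i ≤ ∑' i, (hx σ i - (if i ∈ G then hx σ i else 0)) :=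
        (hr_sum σ h1 h2 _).tsum_le_tsum h5 (hs.sub h3)
    _ = ∑' i, hx σ i - ∑ i ∈ G, hx σ i := by rw [hs.tsum_sub h3, h4]
    _ ≤ ε := by linarith [hG.1]

/-- the linear factors -/
def Qf (σ : ℝ) (F0 : Finset (ZS σ)) (z : ℂ) : ℂ :=
  ∏ ρ ∈ F0, ((z - ρ.1) * (z - starRingEnd ℂ ρ.1)) ^ mu ρ.1

theorem Qf_diff (σ : ℝ) (F0 : Finset (ZS σ)) : Differentiable ℂ (Qf σ F0) := by
  unfold Qf
  fun_prop

theorem Qf_growth (σ : ℝ) (F0 : Finset (ZS σ)) : ∃ (C : ℝ) (m : ℕ), 0 ≤ C ∧ ∀ z, ‖Qf σ F0 z‖ ≤ C * (1 + ‖z‖) ^ m := by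
  classical
  induction F0 using Finset.induction_on with
  | empty => exact ⟨1, 0, zero_le_one, fun z => by simp [Qf]⟩
  | insert a F ha ih =>
    obtain ⟨C, m, hC, h⟩ := ih
    refine ⟨((1 + ‖a.1‖) ^ 2) ^ mu a.1 * C, 2 * mu a.1 + m, by positivity, fun z => ?_⟩
    have e : Qf σ (insert a F) z = ((z - a.1) * (z - starRingEnd ℂ a.1)) ^ mu a.1 * Qf σ F z := by
      unfold Qf
      rw [Finset.prod_insert ha]
    rw [e, norm_mul, norm_pow, norm_mul]
    have hz := norm_nonneg z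
    have ha0 := norm_nonneg a.1
    have h1 : ‖z - a.1‖ ≤ (1 + ‖a.1‖) * (1 + ‖z‖) := (norm_sub_le _ _).trans (by nlinarith)
    have h2 : ‖z - starRingEnd ℂ a.1‖ ≤ (1 + ‖a.1‖) * (1 + ‖z‖) := by
      refine (norm_sub_le _ _).trans ?_
      rw [RCLike.norm_conj]
      nlinarith
    calc (‖z - a.1‖ * ‖z - starRingEnd ℂ a.1‖) ^ mu a.1 * ‖Qf σ F z‖
        ≤ (((1 + ‖a.1‖) * (1 + ‖z‖)) * ((1 + ‖a.1‖) * (1 + ‖z‖))) ^ mu a.1 * (C * (1 + ‖z‖) ^ m) := by
          refine mul_le_mul ?_ (h z) (norm_nonneg _) (by positivity)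
          exact pow_le_pow_left₀ (by positivity) (mul_le_mul h1 h2 (norm_nonneg _) (by positivity)) _
      _ = _ := by
          rw [show ((1 + ‖a.1‖) * (1 + ‖z‖)) * ((1 + ‖a.1‖) * (1 + ‖z‖)) = (1 + ‖a.1‖) ^ 2 * (1 + ‖z‖) ^ 2 by ring,
            mul_pow, ← pow_mul (1 + ‖z‖), pow_add]
          ring

theorem Qf_ne (σ : ℝ) (h1 : 1 / 2 < σ) (F0 : Finset (ZS σ)) : Qf σ F0 0 ≠ 0 := by
  unfold Qf
  rw [Finset.prod_ne_zero_iff]
  intro ρ _
  have h0 : ρ.1 ≠ 0 := by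
    intro h
    have := ρ.2.2.1
    rw [h] at this
    simp at this
    linarith
  refine pow_ne_zero _ (mul_ne_zero ?_ ?_)
  · simpa using h0
  · simpa using h0

theorem Qf_order (σ : ℝ) (F0 : Finset (ZS σ)) (ρ : ZS σ) (hρ : ρ ∈ F0) (ρ' : ℂ)
    (hρ' : ρ' = ρ.1 ∨ ρ' = starRingEnd ℂ ρ.1) : (mu ρ.1 : ℕ∞) ≤ analyticOrderAt (Qf σ F0) ρ' := by
  classical
  rw [natCast_le_analyticOrderAt ((Qf_diff σ F0).analyticAt _)]
  have hR : Differentiable ℂ (fun z => ∏ r ∈ F0.erase ρ, ((z - r.1) * (z - starRingEnd ℂ r.1)) ^ mu r.1) := by fun_prop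
  rcases hρ' with h | h
  · refine ⟨fun z => (z - starRingEnd ℂ ρ.1) ^ mu ρ.1 *
      ∏ r ∈ F0.erase ρ, ((z - r.1) * (z - starRingEnd ℂ r.1)) ^ mu r.1, ?_, Eventually.of_forall fun z => ?_⟩
    · have : Differentiable ℂ (fun z => (z - starRingEnd ℂ ρ.1) ^ mu ρ.1 *
        ∏ r ∈ F0.erase ρ, ((z - r.1) * (z - starRingEnd ℂ r.1)) ^ mu r.1) := by fun_prop
      exact this.analyticAt _
    · unfold Qf
      rw [← Finset.mul_prod_erase F0 _ hρ, mul_pow, smul_eq_mul, h]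
      ring
  · refine ⟨fun z => (z - ρ.1) ^ mu ρ.1 *
      ∏ r ∈ F0.erase ρ, ((z - r.1) * (z - starRingEnd ℂ r.1)) ^ mu r.1, ?_, Eventually.of_forall fun z => ?_⟩
    · have : Differentiable ℂ (fun z => (z - ρ.1) ^ mu ρ.1 *
        ∏ r ∈ F0.erase ρ, ((z - r.1) * (z - starRingEnd ℂ r.1)) ^ mu r.1) := by fun_prop
      exact this.analyticAt _
    · unfold Qf
      rw [← Finset.mul_prod_erase F0 _ hρ, mul_pow, smul_eq_mul, h]
      ring

/-- the killing function at small cost -/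
def Kf (σ : ℝ) (F0 : Finset (ZS σ)) (z : ℂ) : ℂ := KK (bx σ) (hr σ F0) z

theorem Kf_diff (σ : ℝ) (h1 : 1 / 2 < σ) (h2 : σ < 1) (F0 : Finset (ZS σ)) : Differentiable ℂ (Kf σ F0) := by
  have := ZS_countable σ h1 h2
  exact KK_diff _ _ (hr_nonneg σ F0) (hr_sum σ h1 h2 F0)

theorem Kf_order (σ : ℝ) (h1 : 1 / 2 < σ) (h2 : σ < 1) (F0 : Finset (ZS σ)) (ρ : ZS σ) (hρ : ρ ∉ F0) (ρ' : ℂ)
    (hρ' : ρ' = ρ.1 ∨ ρ' = starRingEnd ℂ ρ.1) :
    (mu ρ.1 : ℕ∞) ≤ analyticOrderAt (Kf σ F0) ρ' := by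
  classical
  have := ZS_countable σ h1 h2
  set F : Finset (IX σ) := Finset.univ.map ⟨fun j : Fin (mu ρ.1) => (⟨ρ, j⟩ : IX σ), by
    intro a b hab
    simpa using hab⟩ with hF
  have hcard : F.card = mu ρ.1 := by
    rw [hF, Finset.card_map, Finset.card_univ, Fintype.card_fin]
  have key := KK_order (bx σ) (hr σ F0) (hr_nonneg σ F0) (hr_sum σ h1 h2 F0) ρ' F ?_
  · rw [hcard] at key
    exact key
  · intro i hi
    rw [hF, Finset.mem_map] at hi
    obtain ⟨j, _, rfl⟩ := hi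
    refine EE_vanish _ _ _ ?_
    have him : ρ.1.im ≠ 0 := ρ.2.2.2.ne'
    have e0 : hr σ F0 (⟨ρ, j⟩ : IX σ) = Real.pi / ρ.1.im := by
      unfold hr
      rw [if_neg hρ]
      rfl
    simp only [Function.Embedding.coeFn_mk, bx, e0]
    rcases hρ' with h | h
    · right
      rw [h]
      have e : ((ρ.1.re : ℂ) - ρ.1) = -(ρ.1.im * I) := by
        apply Complex.ext <;> simp
      rw [e]
      push_cast
      have : (ρ.1.im : ℂ) ≠ 0 := by exact_mod_cast him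
      field_simp
    · left
      rw [h]
      have e : ((ρ.1.re : ℂ) - starRingEnd ℂ ρ.1) = (ρ.1.im * I) := by
        apply Complex.ext <;> simp
      rw [e]
      push_cast
      have : (ρ.1.im : ℂ) ≠ 0 := by exact_mod_cast him
      field_simp

theorem prod_order (σ : ℝ) (h1 : 1 / 2 < σ) (h2 : σ < 1) (F0 : Finset (ZS σ)) (ρ : ℂ) (hρ : FF ρ = 0) (hre : σ ≤ ρ.re) :
    analyticOrderAt FF ρ ≤ analyticOrderAt (fun z => Kf σ F0 z * Qf σ F0 z) ρ := by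
  rw [← mu_cast]
  have hmul : analyticOrderAt (fun z => Kf σ F0 z * Qf σ F0 z) ρ =
      analyticOrderAt (Kf σ F0) ρ + analyticOrderAt (Qf σ F0) ρ :=
    analyticOrderAt_mul ((Kf_diff σ h1 h2 F0).analyticAt ρ) ((Qf_diff σ F0).analyticAt ρ)
  rw [hmul]
  have key : ∀ r : ZS σ, (ρ = r.1 ∨ ρ = starRingEnd ℂ r.1) →
      (mu r.1 : ℕ∞) ≤ analyticOrderAt (Kf σ F0) ρ + analyticOrderAt (Qf σ F0) ρ := by
    intro r hr'
    by_cases hm : r ∈ F0
    · exact (Qf_order σ F0 r hm ρ hr').trans (le_add_of_nonneg_left zero_le)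
    · exact (Kf_order σ h1 h2 F0 r hm ρ hr').trans (le_add_of_nonneg_right zero_le)
  have him := FF_im_ne ρ hρ (by linarith)
  rcases lt_or_gt_of_ne him with h | h
  · have hz : FF (starRingEnd ℂ ρ) = 0 := by rw [FF_conj, hρ]; simp
    have := key ⟨starRingEnd ℂ ρ, hz, by simpa using hre, by simpa using h⟩ (Or.inr (by simp))
    simp only at this
    rwa [mu_conj] at this
  · exact key ⟨ρ, hρ, hre, h⟩ (Or.inl rfl)

/-- **The killing function.** -/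
theorem kill (σ : ℝ) (h1 : 1 / 2 < σ) (h2 : σ < 1) {ε : ℝ} (hε : 0 < ε) :
    ∃ P : ℂ → ℂ, Differentiable ℂ P ∧ P 1 ≠ 0 ∧
      (∃ (C : ℝ) (m : ℕ), 0 ≤ C ∧ ∀ z, ‖P z‖ ≤ C * (1 + ‖z‖) ^ m * Real.exp (ε * max z.re 0)) ∧
      ∀ ρ : ℂ, FF ρ = 0 → σ ≤ ρ.re → analyticOrderAt FF ρ ≤ analyticOrderAt (fun z => P (1 - z)) ρ := by
  obtain ⟨F0, hF0⟩ := small_tail σ h1 h2 hε
  obtain ⟨C, m, hC, hQ⟩ := Qf_growth σ F0
  have hK := Kf_diff σ h1 h2 F0
  have hQd := Qf_diff σ F0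
  refine ⟨fun z => Kf σ F0 (1 - z) * Qf σ F0 (1 - z), by fun_prop, ?_, ⟨C * 2 ^ m, m, by positivity, fun z => ?_⟩, ?_⟩
  · simp only [sub_self]
    refine mul_ne_zero ?_ (Qf_ne σ h1 F0)
    unfold Kf
    rw [KK_zero]
    exact one_ne_zero
  · have := ZS_countable σ h1 h2
    have e1 := KK_le (bx σ) (hr σ F0) (hr_nonneg σ F0) (hr_sum σ h1 h2 F0) (1 - z)
    have e2 : max (-(1 - z).re) 0 * ∑' i, hr σ F0 i ≤ ε * max z.re 0 := by
      have h3 : max (-(1 - z).re) 0 ≤ max z.re 0 := by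
        refine max_le_max ?_ le_rfl
        simp
      have h4 : 0 ≤ ∑' i, hr σ F0 i := tsum_nonneg (hr_nonneg σ F0)
      calc _ ≤ max z.re 0 * ε := mul_le_mul h3 hF0 h4 (le_max_right _ _)
        _ = _ := mul_comm _ _
    have e3 := hQ (1 - z)
    have e4 : 1 + ‖1 - z‖ ≤ 2 * (1 + ‖z‖) := by
      have := norm_sub_le (1:ℂ) z
      rw [norm_one] at this
      linarith [norm_nonneg z]
    rw [norm_mul, mul_comm]
    refine mul_le_mul ?_ (e1.trans (Real.exp_le_exp.2 e2)) (norm_nonneg _) (by positivity)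
    refine e3.trans ?_
    rw [mul_assoc, ← mul_pow]
    exact mul_le_mul_of_nonneg_left (pow_le_pow_left₀ (by positivity) e4 _) hC
  · intro ρ hρ hre
    have := prod_order σ h1 h2 F0 ρ hρ hre
    simpa using this

end

end H19.EW
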