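import Pool.Agent.H19.EW.R3
import Pool.Agent.H19.EW.J3

/-!
# The completed zeta function: zeros, orders and bounds
-/

open Complex MeasureTheory Filter Topology Set Metric

set_option autoImplicit false
set_option linter.unusedSectionVars false
set_option linter.unusedVariables false

namespace H19.EW

open H313.TK H353

noncomputable section

theorem Gamma_norm_le {z : ℂ} (hz : 0 < z.re) : ‖Complex.Gamma z‖ ≤ Real.Gamma z.re := by
  rw [Complex.Gamma_eq_integral hz, Complex.GammaIntegral, Real.Gamma_eq_integral hz]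
  refine norm_integral_le_of_norm_le (Real.GammaIntegral_convergent hz) ?_
  rw [ae_restrict_iff' measurableSet_Ioi]
  refine ae_of_all _ fun x hx => ?_
  have hx0 : (0:ℝ) < x := hx
  rw [norm_mul, Complex.norm_real, Real.norm_of_nonneg (Real.exp_pos _).le, Complex.norm_cpow_eq_rpow_re_of_pos hx0]
  simp

/-- the Gamma function grows faster than exponentials -/
theorem Gamma_fast (L : ℝ) : ∃ C : ℝ, 0 < C ∧ ∀ x : ℝ, 1 ≤ x → Real.exp (L * x) ≤ C * Real.Gamma x := by
  set R : ℝ := max 1 (Real.exp L) with hR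
  have hR1 : 1 ≤ R := le_max_left _ _
  have hRL : Real.exp L ≤ R := le_max_right _ _
  refine ⟨R * Real.exp (R + 1), by positivity, fun x hx => ?_⟩
  have h1 : R ^ (x - 1) * Real.exp (-(R + 1)) ≤ Real.Gamma x := by
    rw [Real.Gamma_eq_integral (by linarith)]
    have hI : IntegrableOn (fun t : ℝ => Real.exp (-t) * t ^ (x - 1)) (Ioi 0) := Real.GammaIntegral_convergent (by linarith)
    have hsub : Ioc R (R + 1) ⊆ Ioi 0 := fun t ht => lt_trans (by linarith) ht.1
    have h2 : ∫ t in Ioc R (R + 1), Real.exp (-t) * t ^ (x - 1) ≤ ∫ t in Ioi 0, Real.exp (-t) * t ^ (x - 1) := by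
      refine setIntegral_mono_set hI ?_ hsub.eventuallyLE
      rw [EventuallyLE, ae_restrict_iff' measurableSet_Ioi]
      exact ae_of_all _ fun t ht => by
        have : (0:ℝ) < t := ht
        simp only [Pi.zero_apply]
        positivity
    refine le_trans ?_ h2
    have h3 : ∫ t in Ioc R (R + 1), R ^ (x - 1) * Real.exp (-(R + 1)) ≤ ∫ t in Ioc R (R + 1), Real.exp (-t) * t ^ (x - 1) := by
      refine setIntegral_mono_on (by
        rw [integrableOn_const_iff]
        right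
        simp) (hI.mono_set hsub) measurableSet_Ioc fun t ht => ?_
      have hR0 : 0 < R := by linarith
      rw [mul_comm]
      refine mul_le_mul (Real.exp_le_exp.2 (by linarith [ht.2])) ?_ (by positivity) (Real.exp_pos _).le
      exact Real.rpow_le_rpow hR0.le ht.1.le (by linarith)
    refine le_trans (le_of_eq ?_) h3
    rw [setIntegral_const]
    simp
  have h4 : Real.exp (L * x) ≤ R ^ x := by
    rw [Real.exp_mul]
    exact Real.rpow_le_rpow (Real.exp_pos _).le hRL (by linarith)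
  have h5 : R ^ x = R * R ^ (x - 1) := by
    rw [← Real.rpow_one_add' (by linarith) (by linarith)]
    congr 1
    ring
  calc Real.exp (L * x) ≤ R * R ^ (x - 1) := by rw [← h5]; exact h4
    _ = R * Real.exp (R + 1) * (R ^ (x - 1) * Real.exp (-(R + 1))) := by
        rw [show R * Real.exp (R + 1) * (R ^ (x - 1) * Real.exp (-(R + 1))) =
          R * R ^ (x - 1) * (Real.exp (R + 1) * Real.exp (-(R + 1))) by ring, ← Real.exp_add, add_neg_cancel,
          Real.exp_zero, mul_one]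
    _ ≤ _ := mul_le_mul_of_nonneg_left h1 (by positivity)

theorem Gamma_half_ratio {x : ℝ} (hx : 1 / 2 ≤ x) : Real.Gamma x ≤ 2 * Real.Gamma (x + 1 / 2) := by
  have hx0 : 0 < x := by linarith
  have h1 := Real.Gamma_mul_add_mul_le_rpow_Gamma_mul_rpow_Gamma (s := x + 1 / 2) (t := x + 3 / 2) (a := 1 / 2) (b := 1 / 2)
    (by linarith) (by linarith) (by norm_num) (by norm_num) (by norm_num)
  rw [show (1:ℝ) / 2 * (x + 1 / 2) + 1 / 2 * (x + 3 / 2) = x + 1 by ring, Real.Gamma_add_one hx0.ne',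
    show x + 3 / 2 = (x + 1 / 2) + 1 by ring, Real.Gamma_add_one (by linarith)] at h1
  have hG : 0 < Real.Gamma (x + 1 / 2) := Real.Gamma_pos_of_pos (by linarith)
  rw [← Real.sqrt_eq_rpow, ← Real.sqrt_eq_rpow, Real.sqrt_mul (by linarith), mul_comm (Real.sqrt (x + 1 / 2)), ← mul_assoc,
    Real.mul_self_sqrt hG.le] at h1
  have h2 : Real.sqrt (x + 1 / 2) ≤ 2 * x := by
    rw [Real.sqrt_le_left (by linarith)]
    nlinarith
  have h3 : x * Real.Gamma x ≤ Real.Gamma (x + 1 / 2) * (2 * x) := h1.trans (mul_le_mul_of_nonneg_left h2 hG.le)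
  have h4 : Real.Gamma x * x ≤ (2 * Real.Gamma (x + 1 / 2)) * x := by linarith
  exact le_of_mul_le_mul_right h4 hx0

/-- the completed zeta function, entire and symmetric -/
def Xi (s : ℂ) : ℂ := 1 + s * (s - 1) * completedRiemannZeta₀ s

theorem Xi_diff : Differentiable ℂ Xi := by
  have := differentiable_completedZeta₀
  unfold Xi
  fun_prop

theorem Xi_symm (s : ℂ) : Xi (1 - s) = Xi s := by
  unfold Xi
  rw [completedRiemannZeta₀_one_sub]
  ring

/-- the Gamma factor -/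
def Gm (s : ℂ) : ℂ := 2 * ((Real.pi : ℂ) ^ (-s / 2) * Complex.Gamma (s / 2 + 1))

theorem Gm_eq {s : ℂ} (hs : 0 < s.re) : Gm s = s * ((Real.pi : ℂ) ^ (-s / 2) * Complex.Gamma (s / 2)) := by
  unfold Gm
  have h0 : s / 2 ≠ 0 := by
    intro h
    have := congrArg Complex.re h
    simp at this
    linarith
  rw [Complex.Gamma_add_one _ h0]
  ring

theorem Xi_eq {s : ℂ} (hs : 0 < s.re) : Xi s = Gm s * FF s := by
  by_cases h1 : s = 1
  · rw [h1, show FF 1 = 1 from ZU.J_g2b.FF_one]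
    unfold Xi Gm
    rw [Complex.Gamma_add_one _ (by norm_num), Complex.Gamma_one_half_eq]
    have hp : (Real.pi : ℂ) ≠ 0 := by exact_mod_cast Real.pi_pos.ne'
    have e : (Real.pi : ℂ) ^ (-(1:ℂ) / 2) * (Real.pi : ℂ) ^ ((1:ℂ) / 2) = 1 := by
      rw [← Complex.cpow_add _ _ hp, show (-(1:ℂ) / 2 + 1 / 2) = 0 by ring, Complex.cpow_zero]
    linear_combination (-1 : ℂ) * e
  · have h0 : s ≠ 0 := by rintro rfl; simp at hs
    have h1' : (1:ℂ) - s ≠ 0 := sub_ne_zero.2 (Ne.symm h1)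
    have hG : Complex.Gammaℝ s ≠ 0 := Complex.Gammaℝ_ne_zero_of_re_pos hs
    have e1 := completedRiemannZeta_eq s
    have e2 := riemannZeta_def_of_ne_zero h0
    rw [show FF s = _ from ZU.J_g2b.FF_ne h1, e2, Gm_eq hs, ← Complex.Gammaℝ_def, e1]
    unfold Xi
    field_simp
    ring

theorem Gm_ne {s : ℂ} (hs : 0 < s.re) : Gm s ≠ 0 := by
  unfold Gm
  refine mul_ne_zero two_ne_zero (mul_ne_zero ?_ ?_)
  · rw [Complex.cpow_ne_zero_iff]
    left
    exact_mod_cast Real.pi_pos.ne'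
  · refine Complex.Gamma_ne_zero_of_re_pos ?_
    simp
    linarith

theorem Gm_diffAt {s : ℂ} (hs : 0 < s.re) : DifferentiableAt ℂ Gm s := by
  have h1 : DifferentiableAt ℂ (fun s : ℂ => Complex.Gamma (s / 2 + 1)) s := by
    refine DifferentiableAt.comp s (f := fun s : ℂ => s / 2 + 1) (Complex.differentiableAt_Gamma _ ?_) (by fun_prop)
    intro m h
    have h2 := congrArg Complex.re h
    simp at h2
    have : (0:ℝ) ≤ m := Nat.cast_nonneg m
    linarith
  have h2 : DifferentiableAt ℂ (fun s : ℂ => (Real.pi : ℂ) ^ (-s / 2)) s := by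
    refine DifferentiableAt.const_cpow (by fun_prop) ?_
    left
    exact_mod_cast Real.pi_pos.ne'
  unfold Gm
  exact (h2.mul h1).const_mul 2

theorem re_pos_nhds {s : ℂ} (hs : 0 < s.re) : ∀ᶠ z in 𝓝 s, 0 < z.re :=
  (isOpen_lt continuous_const Complex.continuous_re).mem_nhds hs

theorem Xi_order {s : ℂ} (hs : 0 < s.re) : analyticOrderAt Xi s = analyticOrderAt FF s := by
  have hG : AnalyticAt ℂ Gm s := by
    rw [Complex.analyticAt_iff_eventually_differentiableAt]
    filter_upwards [re_pos_nhds hs] with z hz using Gm_diffAt hz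
  have he : Xi =ᶠ[𝓝 s] Gm * FF := by
    filter_upwards [re_pos_nhds hs] with z hz
    exact Xi_eq hz
  rw [analyticOrderAt_congr he, analyticOrderAt_mul hG (FF_anal s), hG.analyticOrderAt_eq_zero.2 (Gm_ne hs), zero_add]

theorem Xi_order_symm (s : ℂ) : analyticOrderAt Xi (1 - s) = analyticOrderAt Xi s := by
  have h1 : Xi ∘ (fun z : ℂ => 1 - z) = Xi := by
    funext z
    exact Xi_symm z
  have hg : AnalyticAt ℂ (fun z : ℂ => 1 - z) s := by fun_prop
  have hd : deriv (fun z : ℂ => 1 - z) s ≠ 0 := by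
    have : HasDerivAt (fun z : ℂ => 1 - z) (-1) s := by simpa using (hasDerivAt_id s).const_sub 1
    rw [this.deriv]
    norm_num
  have := analyticOrderAt_comp_of_deriv_ne_zero (f := Xi) hg hd
  rw [h1] at this
  exact this.symm

theorem Xi_zero_re {s : ℂ} (h : Xi s = 0) : 0 < s.re ∧ s.re < 1 := by
  have key : ∀ z : ℂ, Xi z = 0 → 0 < z.re → z.re < 1 := by
    intro z hz hz0
    rw [Xi_eq hz0] at hz
    rcases mul_eq_zero.1 hz with h2 | h2
    · exact absurd h2 (Gm_ne hz0)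
    · exact ZU.J_g2b.FF_zero_re h2
  rcases lt_or_ge 0 s.re with h0 | h0
  · exact ⟨h0, key s h h0⟩
  · exfalso
    have := key (1 - s) (by rw [Xi_symm]; exact h) (by simp; linarith)
    simp at this
    linarith

theorem Xi_ne_top (s : ℂ) : analyticOrderAt Xi s ≠ ⊤ := by
  intro h
  have hFan : AnalyticOnNhd ℂ Xi univ := fun z _ => Xi_diff.analyticAt z
  have := hFan.eqOn_zero_of_preconnected_of_eventuallyEq_zero isPreconnected_univ (mem_univ s)
    (analyticOrderAt_eq_top.1 h)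
  have h1 := this (mem_univ 0)
  unfold Xi at h1
  simp at h1

/-- the zeros in the open right half plane are those of `ζ` -/
theorem Xi_zero_FF {s : ℂ} (hs : 0 < s.re) : Xi s = 0 ↔ FF s = 0 := by
  rw [Xi_eq hs]
  constructor
  · intro h
    rcases mul_eq_zero.1 h with h2 | h2
    · exact absurd h2 (Gm_ne hs)
    · exact h2
  · intro h
    rw [h, mul_zero]

/-- lower bound on the right -/
theorem Xi_low {s : ℂ} (hs : 2 ≤ s.re) :
    1 / 2 * (‖s‖ * ‖s - 1‖) * (Real.pi ^ (-(s.re / 2)) * Real.Gamma (s.re / 2)) * Real.exp (-(Real.pi / 4 * |s.im|)) ≤ ‖Xi s‖ := by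
  have hp := Real.pi_pos
  have hs0 : 0 < s.re := by linarith
  have h1 : s ≠ 1 := by rintro rfl; norm_num at hs
  rw [Xi_eq hs0, Gm_eq hs0, show FF s = _ from ZU.J_g2b.FF_ne h1, norm_mul, norm_mul, norm_mul, norm_mul]
  have h2 := zeta_lower s hs
  have h3 : ‖(Real.pi : ℂ) ^ (-s / 2)‖ = Real.pi ^ (-(s.re / 2)) := by
    rw [Complex.norm_cpow_eq_rpow_re_of_pos hp]
    congr 1
    simp
    ring
  have h4 := gamma_low (x := s.re / 2) (by linarith) (s.im / 2)
  have h5 : ((s.re / 2 : ℝ) : ℂ) + ((s.im / 2 : ℝ) : ℂ) * I = s / 2 := by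
    apply Complex.ext <;> simp
  rw [h5] at h4
  have h6 : Real.pi / 2 * |s.im / 2| = Real.pi / 4 * |s.im| := by
    rw [abs_div, abs_of_pos (by norm_num : (0:ℝ) < 2)]
    ring
  rw [h6] at h4
  rw [h3]
  have h7 : Real.Gamma (s.re / 2) * Real.exp (-(Real.pi / 4 * |s.im|)) ≤ ‖Complex.Gamma (s / 2)‖ := by
    rw [Real.exp_neg, ← div_eq_mul_inv, div_le_iff₀ (Real.exp_pos _)]
    exact h4
  have hpp : 0 < Real.pi ^ (-(s.re / 2)) := by positivity
  have hs1 := norm_nonneg s
  have hs2 := norm_nonneg (s - 1)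
  calc 1 / 2 * (‖s‖ * ‖s - 1‖) * (Real.pi ^ (-(s.re / 2)) * Real.Gamma (s.re / 2)) * Real.exp (-(Real.pi / 4 * |s.im|))
      = ‖s‖ * (Real.pi ^ (-(s.re / 2)) * (Real.Gamma (s.re / 2) * Real.exp (-(Real.pi / 4 * |s.im|)))) * (‖s - 1‖ * (1 / 2)) := by
        ring
    _ ≤ ‖s‖ * (Real.pi ^ (-(s.re / 2)) * ‖Complex.Gamma (s / 2)‖) * (‖s - 1‖ * ‖riemannZeta s‖) := by gcongr

/-- upper bound in the middle -/
theorem Xi_up : ∃ C : ℝ, 0 < C ∧ ∀ s : ℂ, |s.re| ≤ 7 → ‖Xi s‖ ≤ C * (1 + ‖s‖) ^ 2 := by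
  have hp := Real.pi_pos
  have hcont : ContinuousOn Real.Gamma (Icc (5 / 4 : ℝ) 5) := by
    intro x hx
    exact (Real.differentiableAt_Gamma (fun m h => by
      have : (0:ℝ) ≤ m := Nat.cast_nonneg m
      linarith [hx.1])).continuousAt.continuousWithinAt
  obtain ⟨M, hM⟩ := isCompact_Icc.bddAbove_image hcont
  have hMb : ∀ x : ℝ, 5 / 4 ≤ x → x ≤ 5 → Real.Gamma x ≤ M := fun x h1 h2 => hM (mem_image_of_mem _ ⟨h1, h2⟩)
  have hM0 : 0 ≤ M := (Real.Gamma_pos_of_pos (by norm_num)).le.trans (hMb 2 (by norm_num) (by norm_num))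
  have key : ∀ s : ℂ, 1 / 2 ≤ s.re → s.re ≤ 8 → ‖Xi s‖ ≤ 6 * M * (1 + ‖s‖) ^ 2 := by
    intro s h1 h2
    rw [Xi_eq (by linarith), norm_mul]
    have e1 := FF_bound (1 / 2) (by norm_num) s h1
    have e2 : ‖Gm s‖ ≤ 2 * M := by
      unfold Gm
      rw [norm_mul, norm_mul, Complex.norm_cpow_eq_rpow_re_of_pos hp, Complex.norm_ofNat]
      have e3 : Real.pi ^ (-s / 2 : ℂ).re ≤ 1 := by
        refine Real.rpow_le_one_of_one_le_of_nonpos (by linarith [Real.pi_gt_three]) ?_
        simp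
        linarith
      have e4 : ‖Complex.Gamma (s / 2 + 1)‖ ≤ M := by
        have hr : (s / 2 + 1).re = s.re / 2 + 1 := by simp
        refine (Gamma_norm_le (by rw [hr]; linarith)).trans (hMb _ ?_ ?_) <;> rw [hr] <;> linarith
      have := mul_le_mul e3 e4 (norm_nonneg _) zero_le_one
      linarith
    calc ‖Gm s‖ * ‖FF s‖ ≤ (2 * M) * ((1 + 1 / (1 / 2)) * (1 + ‖s‖) ^ 2) :=
          mul_le_mul e2 e1 (norm_nonneg _) (by positivity)
      _ = _ := by norm_num; ring
  refine ⟨24 * M + 1, by positivity, fun s hs => ?_⟩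
  have hs' := abs_le.1 hs
  have hn := norm_nonneg s
  rcases le_total (1 / 2) s.re with h | h
  · refine (key s h (by linarith)).trans ?_
    have : 0 ≤ (1 + ‖s‖) ^ 2 := by positivity
    nlinarith
  · rw [← Xi_symm]
    refine (key (1 - s) (by simp; linarith) (by simp; linarith)).trans ?_
    have e4 : 1 + ‖1 - s‖ ≤ 2 * (1 + ‖s‖) := by
      have := norm_sub_le (1:ℂ) s
      rw [norm_one] at this
      linarith
    calc 6 * M * (1 + ‖1 - s‖) ^ 2 ≤ 6 * M * (2 * (1 + ‖s‖)) ^ 2 := by gcongr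
      _ = 24 * M * (1 + ‖s‖) ^ 2 := by ring
      _ ≤ _ := by
        have : 0 ≤ (1 + ‖s‖) ^ 2 := by positivity
        nlinarith

end

end H19.EW
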