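import Pool.Agent.H19.EW.R4

/-!
# The quotient by the completed zeta function
-/

open Complex MeasureTheory Filter Topology Set Metric

set_option autoImplicit false
set_option linter.unusedSectionVars false
set_option linter.unusedVariables false

namespace H19.EW

open H313.TK H353

noncomputable section

/-- the data of the quotient -/
structure Quo (α β : ℝ) (w : ℝ → ℝ) (c B ε : ℝ) (P g : ℂ → ℂ) : Prop where
  hardy : Hardy α β w c B
  hε : 0 < ε
  gd : Differentiable ℂ g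
  eq : ∀ s, ff w c s * P s = Xi s * g s
  Pb : ∃ (C : ℝ) (m : ℕ), 0 ≤ C ∧ ∀ z, ‖P z‖ ≤ C * (1 + ‖z‖) ^ m * Real.exp (ε * max z.re 0)

theorem rpow_mul_exp {a b x : ℝ} (ha : 0 < a) (hb : 0 < b) : (a * b) ^ (-(x / 2)) = a ^ (-(x / 2)) * Real.exp (-(1 / 2 * Real.log b) * x) := by
  rw [Real.mul_rpow ha.le hb.le]
  congr 1
  rw [Real.rpow_def_of_pos hb]
  congr 1
  ring

theorem norm_sub_one_ge {s : ℂ} (hs : 2 ≤ s.re) : 1 ≤ ‖s - 1‖ := by
  have := Complex.re_le_norm (s - 1)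
  simp only [Complex.sub_re, Complex.one_re] at this
  linarith

/-- bound on the right -/
theorem Quo.right {α β c B ε : ℝ} {w : ℝ → ℝ} {P g : ℂ → ℂ} (h : Quo α β w c B ε P g) :
    ∃ C : ℝ, 0 ≤ C ∧ ∀ s : ℂ, 2 ≤ s.re →
      ‖g s‖ ≤ C * ‖P s‖ * Real.exp (-(1 / 2 * Real.log β) * s.re + Real.pi / 4 * |s.im|) := by
  have hp := Real.pi_pos
  have hH := h.hardy
  have hβ := hH.hβ
  have hB := hH.hB
  obtain ⟨C1, hC1, hG1⟩ := Gamma_fast (Real.log β + Real.log Real.pi)
  set D : ℝ := ∫ y : ℝ, Real.exp (-(1 / 2 * |y|)) with hD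
  have hD0 : 0 ≤ D := integral_nonneg fun y => (Real.exp_pos _).le
  refine ⟨2 * ((|c| + B * D) * C1 + B / 2), by positivity, fun s hs => ?_⟩
  have hs1 : 1 ≤ ‖s‖ := by
    have := Complex.re_le_norm s
    linarith
  have h1 := ff_le w c s (vv_right hH (by linarith))
  rw [← hD, rpow_mul_exp hp hβ] at h1
  set p : ℝ := Real.pi ^ (-(s.re / 2)) with hpdef
  set b : ℝ := Real.exp (-(1 / 2 * Real.log β) * s.re) with hbdef
  set G : ℝ := Real.Gamma (s.re / 2) with hGdef
  have hp0 : 0 < p := by positivity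
  have hb0 : 0 < b := Real.exp_pos _
  have hG0 : 0 < G := Real.Gamma_pos_of_pos (by linarith)
  have h2 : 1 ≤ C1 * (p * b * G) := by
    have h3 := hG1 (s.re / 2) (by linarith)
    have h4 : Real.exp ((Real.log β + Real.log Real.pi) * (s.re / 2)) * (p * b) = 1 := by
      rw [hpdef, hbdef, Real.rpow_def_of_pos hp, ← Real.exp_add, ← Real.exp_add]
      rw [show (Real.log β + Real.log Real.pi) * (s.re / 2) +
        (Real.log Real.pi * -(s.re / 2) + -(1 / 2 * Real.log β) * s.re) = 0 by ring, Real.exp_zero]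
    have hpb : 0 < p * b := by positivity
    calc (1:ℝ) = Real.exp ((Real.log β + Real.log Real.pi) * (s.re / 2)) * (p * b) := h4.symm
      _ ≤ (C1 * G) * (p * b) := mul_le_mul_of_nonneg_right h3 hpb.le
      _ = _ := by ring
  have hff : ‖ff w c s‖ ≤ ‖s‖ * (((|c| + B * D) * C1 + B / 2) * (p * b * G)) := by
    refine h1.trans ?_
    have hc0 := abs_nonneg c
    have e1 : |c| ≤ ‖s‖ * (|c| * (C1 * (p * b * G))) := by
      have : |c| * 1 ≤ |c| * (C1 * (p * b * G)) := mul_le_mul_of_nonneg_left h2 hc0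
      calc |c| = 1 * (|c| * 1) := by ring
        _ ≤ _ := mul_le_mul hs1 this (by positivity) (by positivity)
    have e2 : ‖s‖ * (B * (D + 1 / 2 * (p * b * G))) ≤ ‖s‖ * (B * D * (C1 * (p * b * G)) + B / 2 * (p * b * G)) := by
      refine mul_le_mul_of_nonneg_left ?_ (by positivity)
      have : B * D * 1 ≤ B * D * (C1 * (p * b * G)) := mul_le_mul_of_nonneg_left h2 (by positivity)
      nlinarith
    calc |c| + ‖s‖ * (B * (D + 1 / 2 * (p * b * G)))
        ≤ ‖s‖ * (|c| * (C1 * (p * b * G))) + ‖s‖ * (B * D * (C1 * (p * b * G)) + B / 2 * (p * b * G)) := add_le_add e1 e2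
      _ = _ := by ring
  have hlow := Xi_low hs
  rw [← hpdef, ← hGdef] at hlow
  set e : ℝ := Real.exp (-(Real.pi / 4 * |s.im|)) with he
  have he0 : 0 < e := Real.exp_pos _
  have hlow2 : 1 / 2 * ‖s‖ * (p * G) * e ≤ ‖Xi s‖ := by
    refine le_trans ?_ hlow
    have := norm_sub_one_ge hs
    have h5 : ‖s‖ * 1 ≤ ‖s‖ * ‖s - 1‖ := mul_le_mul_of_nonneg_left this (by positivity)
    have h6 : 0 ≤ (p * G) * e := by positivity
    nlinarith
  have heq : ‖ff w c s‖ * ‖P s‖ = ‖Xi s‖ * ‖g s‖ := by rw [← norm_mul, ← norm_mul, h.eq]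
  have h7 : 1 / 2 * ‖s‖ * (p * G) * e * ‖g s‖ ≤ ‖s‖ * (((|c| + B * D) * C1 + B / 2) * (p * b * G)) * ‖P s‖ := by
    calc _ ≤ ‖Xi s‖ * ‖g s‖ := mul_le_mul_of_nonneg_right hlow2 (norm_nonneg _)
      _ = ‖ff w c s‖ * ‖P s‖ := heq.symm
      _ ≤ _ := mul_le_mul_of_nonneg_right hff (norm_nonneg _)
  have h8 : e * ‖g s‖ ≤ 2 * ((|c| + B * D) * C1 + B / 2) * b * ‖P s‖ := by
    have hk : 0 < 1 / 2 * ‖s‖ * (p * G) := by positivity
    refine le_of_mul_le_mul_left ?_ hk
    calc _ = 1 / 2 * ‖s‖ * (p * G) * e * ‖g s‖ := by ring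
      _ ≤ _ := h7
      _ = _ := by ring
  have h9 : Real.exp (-(1 / 2 * Real.log β) * s.re + Real.pi / 4 * |s.im|) = b * e⁻¹ := by
    rw [hbdef, he, Real.exp_add, ← Real.exp_neg, neg_neg]
  rw [h9]
  rw [show 2 * ((|c| + B * D) * C1 + B / 2) * ‖P s‖ * (b * e⁻¹) = 2 * ((|c| + B * D) * C1 + B / 2) * b * ‖P s‖ / e by
    field_simp, le_div_iff₀ he0, mul_comm]
  exact h8

/-- bound on the left -/
theorem Quo.left {α β c B ε : ℝ} {w : ℝ → ℝ} {P g : ℂ → ℂ} (h : Quo α β w c B ε P g) :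
    ∃ C : ℝ, 0 ≤ C ∧ ∀ s : ℂ, s.re ≤ -1 →
      ‖g s‖ ≤ C * ‖P s‖ * Real.exp (-(1 / 2 * Real.log α) * (-s.re) + Real.pi / 4 * |s.im|) := by
  have hp := Real.pi_pos
  have hH := h.hardy
  have hα := hH.hα
  have hB := hH.hB
  obtain ⟨C1, hC1, hG1⟩ := Gamma_fast (Real.log α + Real.log Real.pi)
  set D : ℝ := ∫ y : ℝ, Real.exp (-(1 / 2 * |y|)) with hD
  have hD0 : 0 ≤ D := integral_nonneg fun y => (Real.exp_pos _).le
  set C2 : ℝ := C1 * Real.exp (-(1 / 2 * Real.log α)) with hC2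
  have hC20 : 0 < C2 := by positivity
  set A : ℝ := (|c| + B * D) * C2 + B * Real.pi ^ (1 / 2 : ℝ) with hA
  have hA0 : 0 ≤ A := by positivity
  refine ⟨2 * A, by positivity, fun s hs => ?_⟩
  have hs1 : 1 ≤ ‖s‖ := by
    have := Complex.abs_re_le_norm s
    rw [abs_of_nonpos (by linarith)] at this
    linarith
  have h1 := ff_le w c s (vv_left hH (by linarith))
  rw [← hD, rpow_mul_exp hp hα] at h1
  have hre : (1 - s).re = 1 - s.re := by simp
  have him : (1 - s).im = -s.im := by simp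
  set p : ℝ := Real.pi ^ (-((1 - s.re) / 2)) with hpdef
  set a : ℝ := Real.exp (-(1 / 2 * Real.log α) * -s.re) with hadef
  set G : ℝ := Real.Gamma ((1 - s.re) / 2) with hGdef
  have hp0 : 0 < p := by positivity
  have ha0 : 0 < a := Real.exp_pos _
  have hG0 : 0 < G := Real.Gamma_pos_of_pos (by linarith)
  have hG2 : Real.Gamma (-s.re / 2) ≤ 2 * G := by
    have := Gamma_half_ratio (x := -s.re / 2) (by linarith)
    rw [hGdef]
    rw [show (1 - s.re) / 2 = -s.re / 2 + 1 / 2 by ring]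
    exact this
  have hG3 : 0 < Real.Gamma (-s.re / 2) := Real.Gamma_pos_of_pos (by linarith)
  have hpp : Real.pi ^ (-(-s.re / 2)) = Real.pi ^ (1 / 2 : ℝ) * p := by
    rw [hpdef, ← Real.rpow_add hp]
    congr 1
    ring
  have h2 : 1 ≤ C2 * (p * a * G) := by
    have h3 := hG1 ((1 - s.re) / 2) (by linarith)
    have h4 : Real.exp ((Real.log α + Real.log Real.pi) * ((1 - s.re) / 2)) * Real.exp (-(1 / 2 * Real.log α)) * (p * a) = 1 := by
      rw [hpdef, hadef, Real.rpow_def_of_pos hp, ← Real.exp_add, ← Real.exp_add, ← Real.exp_add]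
      rw [show (Real.log α + Real.log Real.pi) * ((1 - s.re) / 2) + -(1 / 2 * Real.log α) +
        (Real.log Real.pi * -((1 - s.re) / 2) + -(1 / 2 * Real.log α) * -s.re) = 0 by ring, Real.exp_zero]
    have hpb : 0 < Real.exp (-(1 / 2 * Real.log α)) * (p * a) := by positivity
    calc (1:ℝ) = Real.exp ((Real.log α + Real.log Real.pi) * ((1 - s.re) / 2)) *
          Real.exp (-(1 / 2 * Real.log α)) * (p * a) := h4.symm
      _ = Real.exp ((Real.log α + Real.log Real.pi) * ((1 - s.re) / 2)) *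
          (Real.exp (-(1 / 2 * Real.log α)) * (p * a)) := mul_assoc _ _ _
      _ ≤ (C1 * G) * (Real.exp (-(1 / 2 * Real.log α)) * (p * a)) := mul_le_mul_of_nonneg_right h3 hpb.le
      _ = _ := by rw [hC2]; ring
  have hff : ‖ff w c s‖ ≤ ‖s‖ * (A * (p * a * G)) := by
    refine h1.trans ?_
    have hc0 := abs_nonneg c
    have e1 : |c| ≤ ‖s‖ * (|c| * (C2 * (p * a * G))) := by
      have : |c| * 1 ≤ |c| * (C2 * (p * a * G)) := mul_le_mul_of_nonneg_left h2 hc0
      calc |c| = 1 * (|c| * 1) := by ring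
        _ ≤ _ := mul_le_mul hs1 this (by positivity) (by positivity)
    have e3 : Real.pi ^ (-(-s.re / 2)) * a * Real.Gamma (-s.re / 2) ≤ Real.pi ^ (1 / 2 : ℝ) * (p * a * G) * 2 := by
      rw [hpp]
      have : 0 ≤ Real.pi ^ (1 / 2 : ℝ) * p * a := by positivity
      calc Real.pi ^ (1 / 2 : ℝ) * p * a * Real.Gamma (-s.re / 2) ≤ Real.pi ^ (1 / 2 : ℝ) * p * a * (2 * G) :=
            mul_le_mul_of_nonneg_left hG2 this
        _ = _ := by ring
    have e2 : ‖s‖ * (B * (D + 1 / 2 * (Real.pi ^ (-(-s.re / 2)) * a * Real.Gamma (-s.re / 2)))) ≤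
        ‖s‖ * (B * D * (C2 * (p * a * G)) + B * Real.pi ^ (1 / 2 : ℝ) * (p * a * G)) := by
      refine mul_le_mul_of_nonneg_left ?_ (by positivity)
      have h5 : B * D * 1 ≤ B * D * (C2 * (p * a * G)) := mul_le_mul_of_nonneg_left h2 (by positivity)
      have h6 := mul_le_mul_of_nonneg_left e3 hB
      linarith
    calc _ ≤ ‖s‖ * (|c| * (C2 * (p * a * G))) +
          ‖s‖ * (B * D * (C2 * (p * a * G)) + B * Real.pi ^ (1 / 2 : ℝ) * (p * a * G)) := add_le_add e1 e2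
      _ = _ := by rw [hA]; ring
  have hlow := Xi_low (s := 1 - s) (by rw [hre]; linarith)
  rw [Xi_symm, hre, him, abs_neg, ← hpdef, ← hGdef, show (1 - s - 1 : ℂ) = -s by ring, norm_neg] at hlow
  set e : ℝ := Real.exp (-(Real.pi / 4 * |s.im|)) with he
  have he0 : 0 < e := Real.exp_pos _
  have hlow2 : 1 / 2 * ‖s‖ * (p * G) * e ≤ ‖Xi s‖ := by
    refine le_trans ?_ hlow
    have h4 : 1 ≤ ‖1 - s‖ := by
      have := Complex.re_le_norm (1 - s)
      rw [hre] at this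
      linarith
    have h5 : ‖s‖ * 1 ≤ ‖s‖ * ‖1 - s‖ := mul_le_mul_of_nonneg_left h4 (by positivity)
    have h6 : 0 ≤ (p * G) * e := by positivity
    nlinarith
  have heq : ‖ff w c s‖ * ‖P s‖ = ‖Xi s‖ * ‖g s‖ := by rw [← norm_mul, ← norm_mul, h.eq]
  have h7 : 1 / 2 * ‖s‖ * (p * G) * e * ‖g s‖ ≤ ‖s‖ * (A * (p * a * G)) * ‖P s‖ := by
    calc _ ≤ ‖Xi s‖ * ‖g s‖ := mul_le_mul_of_nonneg_right hlow2 (norm_nonneg _)
      _ = ‖ff w c s‖ * ‖P s‖ := heq.symm
      _ ≤ _ := mul_le_mul_of_nonneg_right hff (norm_nonneg _)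
  have h8 : e * ‖g s‖ ≤ 2 * A * a * ‖P s‖ := by
    have hk : 0 < 1 / 2 * ‖s‖ * (p * G) := by positivity
    refine le_of_mul_le_mul_left ?_ hk
    calc _ = 1 / 2 * ‖s‖ * (p * G) * e * ‖g s‖ := by ring
      _ ≤ _ := h7
      _ = _ := by ring
  have h9 : Real.exp (-(1 / 2 * Real.log α) * -s.re + Real.pi / 4 * |s.im|) = a * e⁻¹ := by
    rw [hadef, he, Real.exp_add, ← Real.exp_neg, neg_neg]
  rw [h9, show 2 * A * ‖P s‖ * (a * e⁻¹) = 2 * A * a * ‖P s‖ / e by field_simp, le_div_iff₀ he0, mul_comm]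
  exact h8

/-- the transform in a wide strip -/
theorem vv_wide {α β c B : ℝ} {w : ℝ → ℝ} (h : Hardy α β w c B) :
    ∃ C : ℝ, 0 ≤ C ∧ ∀ s : ℂ, |s.re| ≤ 7 → ‖TT (vv w c) s‖ ≤ C := by
  obtain ⟨C, hC, hb⟩ := vv_exp h.tame 8 (by norm_num)
  refine ⟨∫ y : ℝ, C * Real.exp (-(1 * |y|)), integral_nonneg fun y => by positivity, fun s hs => ?_⟩
  refine norm_TT_le ((int_exp_abs 1 one_pos).const_mul C) fun y => ?_
  calc Real.exp (-s.re * y) * ‖vv w c y‖ ≤ Real.exp (7 * |y|) * (C * Real.exp (-(8 * |y|))) := by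
        refine mul_le_mul (Real.exp_le_exp.2 ?_) (hb y) (norm_nonneg _) (Real.exp_pos _).le
        calc -s.re * y ≤ |-s.re * y| := le_abs_self _
          _ = |s.re| * |y| := by rw [abs_mul, abs_neg]
          _ ≤ _ := mul_le_mul_of_nonneg_right hs (abs_nonneg _)
    _ = C * (Real.exp (7 * |y|) * Real.exp (-(8 * |y|))) := by ring
    _ = _ := by rw [← Real.exp_add]; congr 2; ring

/-- polynomials are small against exponentials -/
theorem poly_exp (m : ℕ) {ε : ℝ} (hε : 0 < ε) : ∃ C : ℝ, 0 < C ∧ ∀ x : ℝ, 0 ≤ x → (1 + x) ^ m ≤ C * Real.exp (ε * x) := by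
  refine ⟨(m.factorial : ℝ) / ε ^ m * Real.exp ε, by positivity, fun x hx => ?_⟩
  have h1 := Real.pow_div_factorial_le_exp (ε * (1 + x)) (by positivity) m
  rw [div_le_iff₀ (by positivity), mul_pow] at h1
  have h2 : Real.exp (ε * (1 + x)) = Real.exp ε * Real.exp (ε * x) := by rw [← Real.exp_add]; congr 1; ring
  rw [h2] at h1
  calc (1 + x) ^ m = (ε ^ m * (1 + x) ^ m) / ε ^ m := by field_simp
    _ ≤ (Real.exp ε * Real.exp (ε * x) * m.factorial) / ε ^ m := by gcongr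
    _ = _ := by field_simp

/-- growth in the middle -/
theorem Quo.mid {α β c B ε : ℝ} {w : ℝ → ℝ} {P g : ℂ → ℂ} (h : Quo α β w c B ε P g) :
    ∃ C A : ℝ, 0 ≤ C ∧ 0 ≤ A ∧ ∀ s : ℂ, -1 ≤ s.re → s.re ≤ 2 → ‖g s‖ ≤ C * Real.exp (A * |s.im|) := by
  have hp := Real.pi_pos
  have hH := h.hardy
  obtain ⟨Cv, hCv, hv⟩ := vv_wide hH
  obtain ⟨CX, hCX, hX⟩ := Xi_up
  obtain ⟨CP, m, hCP, hP⟩ := h.Pb
  have hε := h.hε
  obtain ⟨E1, hE1, hE1b⟩ := poly_exp 2 one_pos
  obtain ⟨E2, hE2, hE2b⟩ := poly_exp (m + 1) one_pos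
  have hgd := h.gd
  -- numerator bound on the discs
  set MN : ℝ → ℝ := fun T => (|c| + Cv + 1) * (CP + 1) * Real.exp (7 * ε) * (8 + |T|) ^ (m + 1) with hMN
  set M : ℝ → ℝ := fun T => CX * (8 + |T|) ^ 2 with hM
  have hMN0 : ∀ T, 0 < MN T := fun T => by have := abs_nonneg T; positivity
  have hM0 : ∀ T, 0 < M T := fun T => by have := abs_nonneg T; positivity
  have hc0 : ∀ T : ℝ, Real.pi⁻¹ * Real.exp (-(Real.pi / 4 * |T|)) ≤ ‖Xi (2 + T * I)‖ := by
    intro T
    have h1 := Xi_low (s := 2 + T * I) (by simp)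
    have hr : (2 + (T:ℂ) * I).re = 2 := by simp
    have hi : (2 + (T:ℂ) * I).im = T := by simp
    rw [hr, hi] at h1
    refine le_trans ?_ h1
    have h2 : (2:ℝ) ≤ ‖(2:ℂ) + T * I‖ := by
      have := Complex.re_le_norm (2 + (T:ℂ) * I)
      rwa [hr] at this
    have h3 : (1:ℝ) ≤ ‖(2:ℂ) + T * I - 1‖ := norm_sub_one_ge (by rw [hr])
    have h4 : Real.pi ^ (-((2:ℝ) / 2)) * Real.Gamma (2 / 2) = Real.pi⁻¹ := by
      rw [show (2:ℝ) / 2 = 1 by norm_num, Real.Gamma_one, mul_one, Real.rpow_neg_one]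
    rw [h4]
    have h5 : (1:ℝ) ≤ 1 / 2 * (‖(2:ℂ) + T * I‖ * ‖(2:ℂ) + T * I - 1‖) := by nlinarith
    have h6 : 0 < Real.pi⁻¹ := by positivity
    refine mul_le_mul_of_nonneg_right ?_ (Real.exp_pos _).le
    nlinarith
  have key : ∀ s : ℂ, -1 ≤ s.re → s.re ≤ 2 → Xi s ≠ 0 →
      ‖g s‖ ≤ MN s.im * (Real.pi * Real.exp (Real.pi / 4 * |s.im|)) *
        (M s.im * (Real.pi * Real.exp (Real.pi / 4 * |s.im|))) ^ 6 := by
    intro s hs1 hs2 hXs
    set T := s.im with hT
    set c0 : ℂ := 2 + T * I with hc0def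
    have hr : c0.re = 2 := by simp [hc0def]
    have hi : c0.im = T := by simp [hc0def]
    have hcn : ‖c0‖ ≤ 2 + |T| := by
      have := Complex.norm_le_abs_re_add_abs_im c0
      rw [hr, hi] at this
      simpa using this
    have hcp : 0 < Real.pi⁻¹ * Real.exp (-(Real.pi / 4 * |T|)) := by positivity
    have hXc := hc0 T
    rw [← hc0def] at hXc
    have hXc0 : 0 < ‖Xi c0‖ := hcp.trans_le hXc
    have hsph : ∀ v ∈ sphere c0 5, |v.re| ≤ 7 ∧ ‖v‖ ≤ 7 + |T| := by
      intro v hv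
      rw [mem_sphere, dist_eq_norm] at hv
      constructor
      · have h1 := Complex.abs_re_le_norm (v - c0)
        rw [hv, Complex.sub_re, hr] at h1
        have h2 := abs_le.1 h1
        rw [abs_le]
        constructor <;> linarith
      · have h1 : ‖v‖ ≤ ‖v - c0‖ + ‖c0‖ := by simpa using norm_add_le (v - c0) c0
        linarith
    have hfin : {ρ : ℂ | Xi ρ = 0 ∧ ρ ∈ closedBall c0 4}.Finite := by
      refine (zeros_finite (closedBall c0 4) (isCompact_closedBall _ _)).subset ?_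
      rintro ρ ⟨h1, h2⟩
      exact ⟨(Xi_zero_FF (Xi_zero_re h1).1).1 h1, h2⟩
    have hncast : ∀ ρ, ((analyticOrderNatAt Xi ρ : ℕ) : ℕ∞) = analyticOrderAt Xi ρ := fun ρ =>
      Nat.cast_analyticOrderNatAt (Xi_ne_top ρ)
    have hKd : Differentiable ℂ (fun v => Xi v * (g v / MN T)) := by
      have := Xi_diff
      fun_prop
    have hq := quot_bound univ isOpen_univ Xi (fun v => Xi v * (g v / MN T)) Xi_diff.differentiableOn
      hKd.differentiableOn c0 3 4 5 (M T) (by norm_num) (by norm_num) (by norm_num) (subset_univ _) ?_ ?_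
      (norm_pos_iff.1 hXc0) hfin.toFinset (fun ρ => analyticOrderNatAt Xi ρ) ?_ ?_ ?_ ?_ s ?_
    · -- conclusion
      have hlog : Real.exp (2 * Real.log (M T / ‖Xi c0‖) * 3 / (4 - 3)) = (M T / ‖Xi c0‖) ^ 6 := by
        have hpos : 0 < M T / ‖Xi c0‖ := div_pos (hM0 T) hXc0
        rw [show 2 * Real.log (M T / ‖Xi c0‖) * 3 / (4 - 3) = ((6:ℕ):ℝ) * Real.log (M T / ‖Xi c0‖) by push_cast; ring,
          Real.exp_nat_mul, Real.exp_log hpos]
      rw [hlog] at hq
      simp only [norm_mul, norm_div, Complex.norm_real, Real.norm_of_nonneg (hMN0 T).le] at hq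
      have hXs0 : 0 < ‖Xi s‖ := norm_pos_iff.2 hXs
      have hMN1 := hMN0 T
      have h2 : ‖g s‖ * ‖Xi c0‖ ≤ MN T * (M T / ‖Xi c0‖) ^ 6 := by
        have h3 : ‖Xi s‖ * (‖g s‖ * ‖Xi c0‖) ≤ ‖Xi s‖ * (MN T * (M T / ‖Xi c0‖) ^ 6) := by
          calc ‖Xi s‖ * (‖g s‖ * ‖Xi c0‖) = MN T * (‖Xi s‖ * (‖g s‖ / MN T) * ‖Xi c0‖) := by field_simp
            _ ≤ MN T * (‖Xi s‖ * (M T / ‖Xi c0‖) ^ 6) := mul_le_mul_of_nonneg_left hq hMN1.le
            _ = _ := by ring
        exact le_of_mul_le_mul_left h3 hXs0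
      have hinv : 1 / ‖Xi c0‖ ≤ Real.pi * Real.exp (Real.pi / 4 * |T|) := by
        rw [div_le_iff₀ hXc0]
        have h4 : (Real.pi * Real.exp (Real.pi / 4 * |T|)) * (Real.pi⁻¹ * Real.exp (-(Real.pi / 4 * |T|))) = 1 := by
          rw [show (Real.pi * Real.exp (Real.pi / 4 * |T|)) * (Real.pi⁻¹ * Real.exp (-(Real.pi / 4 * |T|))) =
            (Real.pi * Real.pi⁻¹) * (Real.exp (Real.pi / 4 * |T|) * Real.exp (-(Real.pi / 4 * |T|))) by ring,
            ← Real.exp_add, add_neg_cancel, Real.exp_zero, mul_inv_cancel₀ hp.ne', one_mul]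
        rw [← h4]
        exact mul_le_mul_of_nonneg_left hXc (by positivity)
      have h5 : ‖g s‖ ≤ MN T * (M T / ‖Xi c0‖) ^ 6 * (1 / ‖Xi c0‖) := by
        rw [mul_one_div, le_div_iff₀ hXc0]
        exact h2
      have h6 : M T / ‖Xi c0‖ ≤ M T * (Real.pi * Real.exp (Real.pi / 4 * |T|)) := by
        rw [← mul_one_div]
        exact mul_le_mul_of_nonneg_left hinv (hM0 T).le
      have h7 : 0 ≤ M T / ‖Xi c0‖ := (div_pos (hM0 T) hXc0).le
      calc ‖g s‖ ≤ MN T * (M T / ‖Xi c0‖) ^ 6 * (1 / ‖Xi c0‖) := h5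
        _ ≤ MN T * (M T * (Real.pi * Real.exp (Real.pi / 4 * |T|))) ^ 6 * (Real.pi * Real.exp (Real.pi / 4 * |T|)) := by
            refine mul_le_mul (mul_le_mul_of_nonneg_left (pow_le_pow_left₀ h7 h6 6) hMN1.le) hinv (by positivity)
              (by have := hM0 T; positivity)
        _ = _ := by ring
    · intro v hvs
      obtain ⟨h1, h2⟩ := hsph v hvs
      refine (hX v h1).trans ?_
      exact mul_le_mul_of_nonneg_left (pow_le_pow_left₀ (by positivity) (by linarith) 2) hCX.le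
    · intro v hvs
      obtain ⟨h1, h2⟩ := hsph v hvs
      have e1 : Xi v * (g v / MN T) = ff w c v * P v / MN T := by rw [h.eq]; ring
      simp only [e1]
      rw [norm_div, norm_mul, Complex.norm_real, Real.norm_of_nonneg (hMN0 T).le, div_le_one (hMN0 T)]
      have e2 := ff_le w c v (hv v h1)
      have e3 := hP v
      have hT0 := abs_nonneg T
      have hc1 := abs_nonneg c
      have e4 : ‖ff w c v‖ ≤ (|c| + Cv + 1) * (8 + |T|) := by
        refine e2.trans ?_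
        have : ‖v‖ * Cv ≤ (7 + |T|) * Cv := mul_le_mul_of_nonneg_right h2 hCv
        nlinarith [mul_nonneg hc1 hT0, mul_nonneg hCv hT0]
      have e5 : ‖P v‖ ≤ (CP + 1) * Real.exp (7 * ε) * (8 + |T|) ^ m := by
        refine e3.trans ?_
        have h3 : (1 + ‖v‖) ^ m ≤ (8 + |T|) ^ m := pow_le_pow_left₀ (by positivity) (by linarith) m
        have h4 : Real.exp (ε * max v.re 0) ≤ Real.exp (7 * ε) := by
          refine Real.exp_le_exp.2 ?_
          have : max v.re 0 ≤ 7 := max_le ((le_abs_self _).trans h1) (by norm_num)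
          nlinarith
        calc CP * (1 + ‖v‖) ^ m * Real.exp (ε * max v.re 0) ≤ (CP + 1) * (8 + |T|) ^ m * Real.exp (7 * ε) := by
              refine mul_le_mul (mul_le_mul (by linarith) h3 (by positivity) (by positivity)) h4 (Real.exp_pos _).le
                (by positivity)
          _ = _ := by ring
      calc ‖ff w c v‖ * ‖P v‖ ≤ ((|c| + Cv + 1) * (8 + |T|)) * ((CP + 1) * Real.exp (7 * ε) * (8 + |T|) ^ m) :=
            mul_le_mul e4 e5 (norm_nonneg _) (by positivity)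
        _ = _ := by simp only [hMN]; ring
    · intro ρ hρ
      rw [Set.Finite.mem_toFinset] at hρ
      exact hρ.2
    · intro ρ _
      exact hncast ρ
    · intro ρ _
      rw [hncast]
      have hgA : AnalyticAt ℂ (fun v => g v / MN T) ρ := by
        have : Differentiable ℂ (fun v => g v / MN T) := by fun_prop
        exact this.analyticAt ρ
      have := analyticOrderAt_mul (Xi_diff.analyticAt ρ) hgA
      have e : (fun v => Xi v * (g v / MN T)) = Xi * fun v => g v / MN T := rfl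
      rw [e, this]
      exact le_add_of_nonneg_right zero_le
    · intro v hv hvS h0
      exact hvS ((Set.Finite.mem_toFinset hfin).2 ⟨h0, hv⟩)
    · rw [mem_closedBall, dist_eq_norm]
      have e : s - c0 = ((s.re - 2 : ℝ) : ℂ) := by
        rw [hc0def, hT]
        apply Complex.ext <;> simp
      rw [e, Complex.norm_real, Real.norm_eq_abs, abs_of_nonpos (by linarith)]
      linarith
  -- the majorant
  set Φ : ℝ → ℝ := fun T => MN T * (Real.pi * Real.exp (Real.pi / 4 * |T|)) *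
        (M T * (Real.pi * Real.exp (Real.pi / 4 * |T|))) ^ 6 with hΦ
  have hΦb : ∃ C A : ℝ, 0 ≤ C ∧ 0 ≤ A ∧ ∀ T, Φ T ≤ C * Real.exp (A * |T|) := by
    have b1 : ∀ T, MN T ≤ ((|c| + Cv + 1) * (CP + 1) * Real.exp (7 * ε) * (E2 * Real.exp 7)) * Real.exp |T| := by
      intro T
      have h1 := hE2b (7 + |T|) (by positivity)
      have h2 : (1 + (7 + |T|)) = 8 + |T| := by ring
      rw [h2, one_mul, Real.exp_add] at h1
      calc MN T ≤ (|c| + Cv + 1) * (CP + 1) * Real.exp (7 * ε) * (E2 * (Real.exp 7 * Real.exp |T|)) := by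
            simp only [hMN]
            exact mul_le_mul_of_nonneg_left h1 (by positivity)
        _ = _ := by ring
    have b2 : ∀ T, M T ≤ (CX * (E1 * Real.exp 7)) * Real.exp |T| := by
      intro T
      have h1 := hE1b (7 + |T|) (by positivity)
      have h2 : (1 + (7 + |T|)) = 8 + |T| := by ring
      rw [h2, one_mul, Real.exp_add] at h1
      calc M T ≤ CX * (E1 * (Real.exp 7 * Real.exp |T|)) := mul_le_mul_of_nonneg_left h1 hCX.le
        _ = _ := by ring
    set K1 : ℝ := (|c| + Cv + 1) * (CP + 1) * Real.exp (7 * ε) * (E2 * Real.exp 7) with hK1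
    set K2 : ℝ := CX * (E1 * Real.exp 7) with hK2
    have hK10 : 0 ≤ K1 := by positivity
    have hK20 : 0 ≤ K2 := by positivity
    refine ⟨K1 * Real.pi * (K2 * Real.pi) ^ 6, 7 + 7 * (Real.pi / 4), by positivity, by positivity, fun T => ?_⟩
    have hMT := hM0 T
    have hMNT := hMN0 T
    calc Φ T ≤ (K1 * Real.exp |T|) * (Real.pi * Real.exp (Real.pi / 4 * |T|)) *
          ((K2 * Real.exp |T|) * (Real.pi * Real.exp (Real.pi / 4 * |T|))) ^ 6 := by
          simp only [hΦ]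
          refine mul_le_mul (mul_le_mul_of_nonneg_right (b1 T) (by positivity))
            (pow_le_pow_left₀ (by positivity) (mul_le_mul_of_nonneg_right (b2 T) (by positivity)) 6) (by positivity)
            (by positivity)
      _ = K1 * Real.pi * (K2 * Real.pi) ^ 6 * (Real.exp |T| ^ 7 * Real.exp (Real.pi / 4 * |T|) ^ 7) := by ring
      _ = _ := by
          rw [← Real.exp_nat_mul, ← Real.exp_nat_mul, ← Real.exp_add]
          congr 2
          push_cast
          ring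
  obtain ⟨C, A, hC, hA, hCA⟩ := hΦb
  refine ⟨C, A, hC, hA, fun s hs1 hs2 => ?_⟩
  by_cases hXs : Xi s ≠ 0
  · exact (key s hs1 hs2 hXs).trans (hCA s.im)
  · push Not at hXs
    obtain ⟨h0, h1⟩ := Xi_zero_re hXs
    have hne : ∀ᶠ z in 𝓝[≠] s, Xi z ≠ 0 := by
      rcases (Xi_diff.analyticAt s).eventually_eq_zero_or_eventually_ne_zero with h2 | h2
      · exact absurd (analyticOrderAt_eq_top.2 h2) (Xi_ne_top s)
      · exact h2
    have hnear : ∀ᶠ z in 𝓝[≠] s, 0 < z.re ∧ z.re < 1 := by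
      refine nhdsWithin_le_nhds ?_
      exact ((isOpen_lt continuous_const Complex.continuous_re).inter
        (isOpen_lt Complex.continuous_re continuous_const)).mem_nhds ⟨h0, h1⟩
    have hc1 : Tendsto (fun z => ‖g z‖) (𝓝[≠] s) (𝓝 ‖g s‖) :=
      (hgd.continuous.norm.tendsto s).mono_left nhdsWithin_le_nhds
    have hc2 : Tendsto (fun z : ℂ => C * Real.exp (A * |z.im|)) (𝓝[≠] s) (𝓝 (C * Real.exp (A * |s.im|))) := by
      have : Continuous (fun z : ℂ => C * Real.exp (A * |z.im|)) := by fun_prop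
      exact (this.tendsto s).mono_left nhdsWithin_le_nhds
    refine le_of_tendsto_of_tendsto hc1 hc2 ?_
    filter_upwards [hne, hnear] with z hz hz2
    exact (key z (by linarith [hz2.1]) (by linarith [hz2.2]) hz).trans (hCA z.im)

end

end H19.EW
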