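import Pool.Agent.H19.EW.R5
import Pool.Agent.H19.EW.Fin

/-!
# Hardy's uncertainty principle for the hidden zeros
-/

open Complex MeasureTheory Filter Topology Set Metric

set_option autoImplicit false
set_option linter.unusedSectionVars false
set_option linter.unusedVariables false

namespace H19.EW

open H313.TK H353

noncomputable section

/-- **The quotient vanishes.** -/
theorem Quo.zero {α β c B ε : ℝ} {w : ℝ → ℝ} {P g : ℂ → ℂ} (h : Quo α β w c B ε P g)
    (hε : ε ≤ (Real.log α + Real.log β) / 16) : ∀ z, g z = 0 := by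
  have hp := Real.pi_pos
  have hε0 := h.hε
  obtain ⟨C1, hC1, h1⟩ := h.right
  obtain ⟨C2, hC2, h2⟩ := h.left
  obtain ⟨C3, A3, hC3, hA3, h3⟩ := h.mid
  obtain ⟨CP, m, hCP, hP⟩ := h.Pb
  obtain ⟨E, hE, hEb⟩ := poly_exp m hε0
  set La : ℝ := 1 / 2 * Real.log α with hLa
  set Lb : ℝ := 1 / 2 * Real.log β with hLb
  set lam : ℝ := (Lb - La) / 2 with hlam
  set Λ : ℝ := (La + Lb) / 2 with hΛ
  have hΛε : 4 * ε ≤ Λ := by rw [hΛ, hLa, hLb]; linarith
  have hΛ0 : 0 < Λ := by linarith
  set κ : ℝ := Λ / 2 with hκ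
  have hκ0 : 0 < κ := by positivity
  -- bounds with the exponentials
  have hR : ∀ s : ℂ, 2 ≤ s.re → ‖g s * cexp (lam * s)‖ ≤
      C1 * (CP * E) * Real.exp (ε * ‖s‖ + (ε - Λ) * s.re + Real.pi / 4 * |s.im|) := by
    intro s hs
    have e1 := h1 s hs
    have e2 := hP s
    rw [max_eq_left (by linarith : (0:ℝ) ≤ s.re)] at e2
    have e3 := hEb ‖s‖ (norm_nonneg _)
    have e4 : ‖cexp (lam * s)‖ = Real.exp (lam * s.re) := by rw [Complex.norm_exp]; simp
    rw [norm_mul, e4]
    calc ‖g s‖ * Real.exp (lam * s.re)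
        ≤ (C1 * (CP * (E * Real.exp (ε * ‖s‖)) * Real.exp (ε * s.re)) * Real.exp (-Lb * s.re + Real.pi / 4 * |s.im|)) *
          Real.exp (lam * s.re) := by
          refine mul_le_mul_of_nonneg_right (e1.trans ?_) (Real.exp_pos _).le
          refine mul_le_mul_of_nonneg_right (mul_le_mul_of_nonneg_left (e2.trans ?_) hC1) (Real.exp_pos _).le
          refine mul_le_mul_of_nonneg_right (mul_le_mul_of_nonneg_left e3 hCP) (Real.exp_pos _).le
      _ = C1 * (CP * E) * (Real.exp (ε * ‖s‖) * Real.exp (ε * s.re) * Real.exp (-Lb * s.re + Real.pi / 4 * |s.im|) *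
          Real.exp (lam * s.re)) := by ring
      _ = _ := by
          rw [← Real.exp_add, ← Real.exp_add, ← Real.exp_add]
          congr 2
          rw [hlam, hΛ]
          ring
  have hL : ∀ s : ℂ, s.re ≤ -1 → ‖g s * cexp (lam * s)‖ ≤
      C2 * (CP * E) * Real.exp (ε * ‖s‖ + (-Λ) * (-s.re) + Real.pi / 4 * |s.im|) := by
    intro s hs
    have e1 := h2 s hs
    have e2 := hP s
    rw [max_eq_right (by linarith : s.re ≤ 0), mul_zero, Real.exp_zero, mul_one] at e2
    have e3 := hEb ‖s‖ (norm_nonneg _)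
    have e4 : ‖cexp (lam * s)‖ = Real.exp (lam * s.re) := by rw [Complex.norm_exp]; simp
    rw [norm_mul, e4]
    calc ‖g s‖ * Real.exp (lam * s.re)
        ≤ (C2 * (CP * (E * Real.exp (ε * ‖s‖))) * Real.exp (-La * -s.re + Real.pi / 4 * |s.im|)) *
          Real.exp (lam * s.re) := by
          refine mul_le_mul_of_nonneg_right (e1.trans ?_) (Real.exp_pos _).le
          refine mul_le_mul_of_nonneg_right (mul_le_mul_of_nonneg_left (e2.trans ?_) hC2) (Real.exp_pos _).le
          exact mul_le_mul_of_nonneg_left e3 hCP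
      _ = C2 * (CP * E) * (Real.exp (ε * ‖s‖) * Real.exp (-La * -s.re + Real.pi / 4 * |s.im|) *
          Real.exp (lam * s.re)) := by ring
      _ = _ := by
          rw [← Real.exp_add, ← Real.exp_add]
          congr 2
          rw [hlam, hΛ]
          ring
  have hM : ∀ s : ℂ, -1 ≤ s.re → s.re ≤ 2 → ‖g s * cexp (lam * s)‖ ≤ C3 * Real.exp (2 * |lam|) * Real.exp (A3 * |s.im|) := by
    intro s hs1 hs2
    have e1 := h3 s hs1 hs2
    have e4 : ‖cexp (lam * s)‖ ≤ Real.exp (2 * |lam|) := by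
      rw [Complex.norm_exp]
      refine Real.exp_le_exp.2 ?_
      rw [Complex.re_ofReal_mul]
      calc lam * s.re ≤ |lam * s.re| := le_abs_self _
        _ = |lam| * |s.re| := abs_mul _ _
        _ ≤ |lam| * 2 := mul_le_mul_of_nonneg_left (abs_le.2 ⟨by linarith, hs2⟩) (abs_nonneg _)
        _ = _ := mul_comm _ _
    rw [norm_mul]
    calc _ ≤ (C3 * Real.exp (A3 * |s.im|)) * Real.exp (2 * |lam|) := mul_le_mul e1 e4 (norm_nonneg _) (by positivity)
      _ = _ := by ring
  set C : ℝ := C1 * (CP * E) + C2 * (CP * E) + C3 * Real.exp (2 * |lam|) * Real.exp (2 * κ) with hC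
  have q1 : 0 ≤ C1 * (CP * E) := by positivity
  have q2 : 0 ≤ C2 * (CP * E) := by positivity
  have q3 : 0 ≤ C3 * Real.exp (2 * |lam|) := by positivity
  have q4 : C3 * Real.exp (2 * |lam|) ≤ C3 * Real.exp (2 * |lam|) * Real.exp (2 * κ) :=
    le_mul_of_one_le_right q3 (Real.one_le_exp (by positivity))
  have q5 : 0 ≤ C3 * Real.exp (2 * |lam|) * Real.exp (2 * κ) := by positivity
  have hC0 : 0 ≤ C := by positivity
  have hgd := h.gd
  have hFd : Differentiable ℂ (fun s => g s * cexp (lam * s)) := by fun_prop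
  have key := pl_zero hFd (A := ε + ε + Λ + Real.pi / 4 + A3) (C := C) (κ := κ) (by positivity) hC0 hκ0 ?_ ?_
  · intro z
    have := key z
    rcases mul_eq_zero.1 this with h5 | h5
    · exact h5
    · exact absurd h5 (Complex.exp_ne_zero _)
  · intro z _
    have hz := norm_nonneg z
    have hre := Complex.abs_re_le_norm z
    have him := Complex.abs_im_le_norm z
    rcases le_total 2 z.re with h5 | h5
    · refine (hR z h5).trans (mul_le_mul (by linarith) (Real.exp_le_exp.2 ?_) (Real.exp_pos _).le hC0)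
      rw [abs_of_nonneg (by linarith)] at hre
      have e1 : (ε - Λ) * z.re ≤ ε * ‖z‖ := by nlinarith
      have e2 : Real.pi / 4 * |z.im| ≤ Real.pi / 4 * ‖z‖ := mul_le_mul_of_nonneg_left him (by positivity)
      nlinarith [mul_nonneg hΛ0.le hz, mul_nonneg hA3 hz]
    · rcases le_total z.re (-1) with h6 | h6
      · refine (hL z h6).trans (mul_le_mul (by linarith) (Real.exp_le_exp.2 ?_) (Real.exp_pos _).le hC0)
        have e2 : Real.pi / 4 * |z.im| ≤ Real.pi / 4 * ‖z‖ := mul_le_mul_of_nonneg_left him (by positivity)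
        have e3 : -Λ * -z.re ≤ 0 := by nlinarith
        nlinarith [mul_nonneg hΛ0.le hz, mul_nonneg hA3 hz, mul_nonneg hε0.le hz]
      · refine (hM z h6 h5).trans (mul_le_mul (by linarith) (Real.exp_le_exp.2 ?_) (Real.exp_pos _).le hC0)
        have e2 : A3 * |z.im| ≤ A3 * ‖z‖ := mul_le_mul_of_nonneg_left him hA3
        nlinarith [mul_nonneg hΛ0.le hz, mul_nonneg hε0.le hz, mul_nonneg hp.le hz]
  · intro x
    rcases le_total 2 x with h5 | h5
    · have e1 := hR x (by simpa using h5)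
      refine e1.trans (mul_le_mul (by linarith) (Real.exp_le_exp.2 ?_) (Real.exp_pos _).le hC0)
      rw [Complex.norm_real, Real.norm_eq_abs, Complex.ofReal_re, Complex.ofReal_im, abs_zero, mul_zero, add_zero,
        abs_of_nonneg (by linarith)]
      have : 2 * ε - Λ ≤ -κ := by rw [hκ]; linarith
      nlinarith
    · rcases le_total x (-1) with h6 | h6
      · have e1 := hL x (by simpa using h6)
        refine e1.trans (mul_le_mul (by linarith) (Real.exp_le_exp.2 ?_) (Real.exp_pos _).le hC0)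
        rw [Complex.norm_real, Real.norm_eq_abs, Complex.ofReal_re, Complex.ofReal_im, abs_zero, mul_zero, add_zero,
          abs_of_nonpos (by linarith)]
        have : ε - Λ ≤ -κ := by rw [hκ]; linarith
        nlinarith
      · have e1 := hM x (by simpa using h6) (by simpa using h5)
        rw [Complex.ofReal_im, abs_zero, mul_zero, Real.exp_zero, mul_one] at e1
        have e2 : 1 ≤ Real.exp (2 * κ) * Real.exp (-(κ * |x|)) := by
          rw [← Real.exp_add]
          refine Real.one_le_exp ?_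
          have : |x| ≤ 2 := abs_le.2 ⟨by linarith, h5⟩
          nlinarith
        calc _ ≤ C3 * Real.exp (2 * |lam|) := e1
          _ ≤ C3 * Real.exp (2 * |lam|) * (Real.exp (2 * κ) * Real.exp (-(κ * |x|))) := le_mul_of_one_le_right q3 e2
          _ = (C3 * Real.exp (2 * |lam|) * Real.exp (2 * κ)) * Real.exp (-(κ * |x|)) := by ring
          _ ≤ _ := mul_le_mul_of_nonneg_right (by linarith) (Real.exp_pos _).le

theorem FF_zeta_order {ρ : ℂ} (h : ρ ≠ 1) : analyticOrderAt FF ρ = analyticOrderAt riemannZeta ρ := by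
  have he : FF =ᶠ[𝓝 ρ] (fun s => s - 1) * riemannZeta := by
    filter_upwards [isOpen_ne.mem_nhds h] with z hz
    exact ZU.J_g2b.FF_ne hz
  have hz : AnalyticAt ℂ riemannZeta ρ := by
    rw [Complex.analyticAt_iff_eventually_differentiableAt]
    filter_upwards [isOpen_ne.mem_nhds h] with z hz using differentiableAt_riemannZeta hz
  have hl : AnalyticAt ℂ (fun s : ℂ => s - 1) ρ := by fun_prop
  rw [analyticOrderAt_congr he, analyticOrderAt_mul hl hz, hl.analyticOrderAt_eq_zero.2 (sub_ne_zero.2 h), zero_add]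

/-- **A zero survives.** -/
theorem survive_hardy {α β c B : ℝ} {w : ℝ → ℝ} (h : Hardy α β w c B)
    (hne : ¬ ∀ᵐ u ∂(volume.restrict (Ioi (0:ℝ))), w u = 0) (hab : 1 < α * β) {δ : ℝ} (hδ : 0 < δ) :
    ∃ ρ : ℂ, riemannZeta ρ = 0 ∧ 1 / 2 - δ ≤ ρ.re ∧ ρ.re < 1 ∧ kw w ρ < mz ρ := by
  by_contra hcon
  push Not at hcon
  have hα := h.hα
  have hβ := h.hβ
  have hT := h.tame
  set δ' : ℝ := min δ (1 / 4) with hδ'
  have hδ0 : 0 < δ' := lt_min hδ (by norm_num)
  have hδ1 : δ' ≤ 1 / 4 := min_le_right _ _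
  have hδ2 : δ' ≤ δ := min_le_left _ _
  set σ : ℝ := 1 / 2 + δ' with hσ
  have hlog : 0 < Real.log α + Real.log β := by
    rw [← Real.log_mul hα.ne' hβ.ne']
    exact Real.log_pos hab
  set ε : ℝ := (Real.log α + Real.log β) / 16 with hε
  have hε0 : 0 < ε := by positivity
  obtain ⟨P, hPd, hP1, hPb, hPo⟩ := kill σ (by linarith) (by linarith) hε0
  have hffd := ff_entire hT
  have hord : ∀ ρ ∈ (univ : Set ℂ), Xi ρ = 0 → analyticOrderAt Xi ρ ≤ analyticOrderAt (fun s => ff w c s * P s) ρ := by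
    intro ρ _ hρ
    obtain ⟨h0, h1⟩ := Xi_zero_re hρ
    have hmul : analyticOrderAt (fun s => ff w c s * P s) ρ = analyticOrderAt (ff w c) ρ + analyticOrderAt P ρ :=
      analyticOrderAt_mul (hffd.analyticAt ρ) (hPd.analyticAt ρ)
    rw [hmul]
    have hne1 : ρ ≠ 1 := by rintro rfl; simp at h1
    have hFρ : FF ρ = 0 := (Xi_zero_FF h0).1 hρ
    rcases le_or_gt (1 / 2 - δ') ρ.re with h2 | h2
    · have hz : riemannZeta ρ = 0 := by
        rw [show FF ρ = _ from ZU.J_g2b.FF_ne hne1] at hFρ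
        exact (mul_eq_zero.1 hFρ).resolve_left (sub_ne_zero.2 hne1)
      have h3 := hcon ρ hz (by linarith) h1
      refine le_trans ?_ (le_add_of_nonneg_right zero_le)
      rw [Xi_order h0, FF_zeta_order hne1, zeta_order hne1, order_ff hT h0 h1,
        ← Nat.cast_analyticOrderNatAt (order_fin hT hne h0 h1)]
      exact_mod_cast h3
    · refine le_trans ?_ (le_add_of_nonneg_left zero_le)
      have hre : (1 - ρ).re = 1 - ρ.re := by simp
      have h0' : 0 < (1 - ρ).re := by rw [hre]; linarith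
      have hρ' : FF (1 - ρ) = 0 := (Xi_zero_FF h0').1 (by rw [Xi_symm]; exact hρ)
      have h4 := hPo (1 - ρ) hρ' (by rw [hre, hσ]; linarith)
      rw [← Xi_order h0', Xi_order_symm] at h4
      refine h4.trans (le_of_eq ?_)
      have hg : AnalyticAt ℂ (fun z : ℂ => 1 - z) (1 - ρ) := by fun_prop
      have hd : deriv (fun z : ℂ => 1 - z) (1 - ρ) ≠ 0 := by
        have : HasDerivAt (fun z : ℂ => 1 - z) (-1) (1 - ρ) := by simpa using (hasDerivAt_id (1 - ρ)).const_sub 1
        rw [this.deriv]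
        norm_num
      have h5 := analyticOrderAt_comp_of_deriv_ne_zero (f := P) hg hd
      rw [sub_sub_cancel] at h5
      exact h5
  have hNd : Differentiable ℂ (fun s => ff w c s * P s) := by fun_prop
  obtain ⟨g, hga, hg⟩ := exists_quot univ Xi (fun s => ff w c s * P s) Xi_diff hNd Xi_ne_top hord
  have hQ : Quo α β w c B ε P g :=
    ⟨h, hε0, fun z => (hga z (mem_univ z)).differentiableAt, fun s => hg s (mem_univ s), hPb⟩
  have hg0 := hQ.zero le_rfl
  have hprod : ∀ s, ff w c s * P s = 0 := by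
    intro s
    rw [hQ.eq, hg0, mul_zero]
  have hPn : ∀ᶠ z in 𝓝 (1:ℂ), P z ≠ 0 := hPd.continuous.continuousAt.eventually_ne hP1
  have hev : ff w c =ᶠ[𝓝 1] 0 := by
    filter_upwards [hPn] with z hz
    exact (mul_eq_zero.1 (hprod z)).resolve_right hz
  have han : AnalyticOnNhd ℂ (ff w c) univ := fun z _ => hffd.analyticAt z
  have hz := han.eqOn_zero_of_preconnected_of_eventuallyEq_zero isPreconnected_univ (mem_univ 1) hev
  obtain ⟨s, hs⟩ := ff_ne hT hne
  exact hs (hz (mem_univ s))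

/-- **Oscillation above the threshold.** -/
theorem main_hardy {α β c B : ℝ} {w : ℝ → ℝ} (h : Hardy α β w c B)
    (hne : ¬ ∀ᵐ u ∂(volume.restrict (Ioi (0:ℝ))), w u = 0) (hab : 1 < α * β) {δ : ℝ} (hδ : 0 < δ) :
    ∃ c : ℝ, 0 < c ∧ ∀ᶠ x : ℝ in atTop, ∀ s : ℝ, s = 1 ∨ s = -1 →
      ∃ y ∈ Icc x (x * Real.log x), c * y ^ (1 / 2 - δ) ≤ s * S w y := by
  have hm : 0 < min δ (1 / 6) := lt_min hδ (by norm_num)
  have hm2 : min δ (1 / 6) ≤ 1 / 6 := min_le_right _ _
  have hm3 : min δ (1 / 6) ≤ δ := min_le_left _ _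
  obtain ⟨ρ, hz, h0, h1, h2⟩ := survive_hardy h hne hab hm
  exact signs_mono (by linarith) (signs_of h.tame hne hz (by linarith) h1 h2)

end

end H19.EW
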