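import Pool.Agent.H19.EW.R6

/-!
# Weights without oscillation below the threshold
-/

open Complex MeasureTheory Filter Topology Set Metric

set_option autoImplicit false
set_option linter.unusedSectionVars false
set_option linter.unusedVariables false

namespace H19.EW

open H313.TK H353

noncomputable section

theorem Th_nonneg (b : ℝ) : 0 ≤ Th b := tsum_nonneg fun n => (Real.exp_pos _).le

theorem Th_bounds {b : ℝ} (hb : 0 < b) : Real.exp (-(Real.pi * b)) ≤ Th b ∧
    Th b ≤ Real.exp (-(Real.pi * b)) * (1 - Real.exp (-(Real.pi * b)))⁻¹ := by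
  have hp := Real.pi_pos
  have hr : Real.exp (-(Real.pi * b)) < 1 := Real.exp_lt_one_iff.2 (by
    have : 0 < Real.pi * b := by positivity
    linarith)
  constructor
  · have := (sumT b hb).le_tsum 0 (fun n _ => (Real.exp_pos _).le)
    refine le_trans (le_of_eq ?_) this
    congr 1
    push_cast
    ring
  · rw [← tsum_geometric_of_lt_one (Real.exp_pos _).le hr, ← tsum_mul_left]
    have hg : Summable (fun n : ℕ => Real.exp (-(Real.pi * b)) * Real.exp (-(Real.pi * b)) ^ n) :=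
      (summable_geometric_of_lt_one (Real.exp_pos _).le hr).mul_left _
    refine (sumT b hb).tsum_le_tsum (fun n => ?_) hg
    rw [← Real.exp_nat_mul, ← Real.exp_add]
    refine Real.exp_le_exp.2 ?_
    have hn : (0:ℝ) ≤ n := Nat.cast_nonneg n
    have h1 : (n : ℝ) + 1 ≤ ((n : ℝ) + 1) ^ 2 := by nlinarith
    have h2 : 0 < Real.pi * b := by positivity
    nlinarith [mul_le_mul_of_nonneg_left h1 h2.le]

theorem Th_le {b0 : ℝ} (hb0 : 0 < b0) : ∃ C : ℝ, 0 < C ∧ ∀ b : ℝ, b0 ≤ b → Th b ≤ C * Real.exp (-(Real.pi * b)) := by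
  have hp := Real.pi_pos
  have hr : Real.exp (-(Real.pi * b0)) < 1 := Real.exp_lt_one_iff.2 (by
    have : 0 < Real.pi * b0 := by positivity
    linarith)
  have h0 : 0 < 1 - Real.exp (-(Real.pi * b0)) := by linarith
  refine ⟨(1 - Real.exp (-(Real.pi * b0)))⁻¹, by positivity, fun b hb => ?_⟩
  refine (Th_bounds (hb0.trans_le hb)).2.trans ?_
  rw [mul_comm]
  refine mul_le_mul_of_nonneg_right ?_ (Real.exp_pos _).le
  refine inv_anti₀ h0 ?_
  have : Real.exp (-(Real.pi * b)) ≤ Real.exp (-(Real.pi * b0)) :=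
    Real.exp_le_exp.2 (neg_le_neg (mul_le_mul_of_nonneg_left hb hp.le))
  linarith

theorem Th_lim : Tendsto (fun b : ℝ => Real.exp (Real.pi * b) * Th b) atTop (𝓝 1) := by
  have hp := Real.pi_pos
  have h0 : Tendsto (fun b : ℝ => Real.exp (-(Real.pi * b))) atTop (𝓝 0) :=
    Real.tendsto_exp_neg_atTop_nhds_zero.comp (tendsto_id.const_mul_atTop hp)
  have h1 : Tendsto (fun b : ℝ => (1 - Real.exp (-(Real.pi * b)))⁻¹) atTop (𝓝 1) := by
    have : Tendsto (fun b : ℝ => (1 - Real.exp (-(Real.pi * b)))⁻¹) atTop (𝓝 ((1 - 0)⁻¹)) :=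
      (h0.const_sub 1).inv₀ (by norm_num)
    simpa using this
  refine tendsto_of_tendsto_of_tendsto_of_le_of_le' tendsto_const_nhds h1 ?_ ?_
  · filter_upwards [eventually_gt_atTop (0:ℝ)] with b hb
    have h2 := mul_le_mul_of_nonneg_left (Th_bounds hb).1 (Real.exp_pos (Real.pi * b)).le
    rwa [← Real.exp_add, add_neg_cancel, Real.exp_zero] at h2
  · filter_upwards [eventually_gt_atTop (0:ℝ)] with b hb
    have h2 := mul_le_mul_of_nonneg_left (Th_bounds hb).2 (Real.exp_pos (Real.pi * b)).le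
    rwa [← mul_assoc, ← Real.exp_add, add_neg_cancel, Real.exp_zero, one_mul] at h2

/-- combination of Gaussians -/
def phi (l c : Fin 3 → ℝ) (x : ℝ) : ℝ := ∑ i, c i * Real.exp (-(Real.pi * l i * x ^ 2))

/-- the weight -/
def wg (l c : Fin 3 → ℝ) (u : ℝ) : ℝ := if 0 < u then ∑' m : ℕ, phi l c (((m : ℝ) + 1) * u) else 0

theorem phi_cont (l c : Fin 3 → ℝ) : Continuous (phi l c) := by unfold phi; fun_prop

theorem gauss_term {l u : ℝ} (hl : 0 < l) (hu : 0 < u) :
    HasSum (fun m : ℕ => Real.exp (-(Real.pi * l * (((m : ℝ) + 1) * u) ^ 2))) (Th (l * u ^ 2)) := by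
  have := (sumT (l * u ^ 2) (by positivity)).hasSum
  unfold Th
  have e : (fun m : ℕ => Real.exp (-(Real.pi * l * (((m : ℝ) + 1) * u) ^ 2))) =
      fun m : ℕ => Real.exp (-Real.pi * (l * u ^ 2) * ((m : ℝ) + 1) ^ 2) := by
    funext m
    congr 1
    ring
  rw [e]
  exact this

theorem phi_hasSum {l c : Fin 3 → ℝ} (hl : ∀ i, 0 < l i) {u : ℝ} (hu : 0 < u) :
    HasSum (fun m : ℕ => phi l c (((m : ℝ) + 1) * u)) (∑ i, c i * Th (l i * u ^ 2)) := by
  unfold phi
  exact hasSum_sum fun i _ => (gauss_term (hl i) hu).mul_left (c i)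

theorem wg_eq {l c : Fin 3 → ℝ} (hl : ∀ i, 0 < l i) {u : ℝ} (hu : 0 < u) : wg l c u = ∑ i, c i * Th (l i * u ^ 2) := by
  unfold wg
  rw [if_pos hu]
  exact (phi_hasSum hl hu).tsum_eq

theorem wg_meas {l c : Fin 3 → ℝ} (hl : ∀ i, 0 < l i) : Measurable (wg l c) := by
  refine measurable_of_tendsto_metrizable (f := fun N : ℕ => fun u : ℝ =>
    if 0 < u then ∑ m ∈ Finset.range N, phi l c (((m : ℝ) + 1) * u) else 0) ?_ ?_
  · intro N
    have hc := phi_cont l c
    exact Measurable.ite measurableSet_Ioi (continuous_finsetSum _ fun m _ => by fun_prop).measurable measurable_const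
  · rw [tendsto_pi_nhds]
    intro u
    by_cases hu : 0 < u
    · simp only [if_pos hu]
      rw [wg_eq hl hu]
      exact (phi_hasSum hl hu).tendsto_sum_nat
    · simp only [if_neg hu]
      unfold wg
      rw [if_neg hu]
      exact tendsto_const_nhds

theorem phi_abs (l c : Fin 3 → ℝ) (x : ℝ) : |phi l c x| ≤ ∑ i, |c i| * Real.exp (-(Real.pi * l i * x ^ 2)) := by
  unfold phi
  refine (Finset.abs_sum_le_sum_abs _ _).trans (Finset.sum_le_sum fun i _ => ?_)
  rw [abs_mul, abs_of_pos (Real.exp_pos _)]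

theorem phi_wt {l c : Fin 3 → ℝ} (hl : ∀ i, 0 < l i) : Wt (phi l c) := by
  have hp := Real.pi_pos
  refine ⟨(phi_cont l c).measurable, (∑ i, |c i|) + ∑ i, |c i| * (2 / (Real.pi * l i) ^ 2), ?_, fun u hu => ?_⟩
  · refine add_nonneg (Finset.sum_nonneg fun i _ => abs_nonneg _) (Finset.sum_nonneg fun i _ => ?_)
    have := hl i
    positivity
  · have s1 : 0 ≤ ∑ i, |c i| := Finset.sum_nonneg fun i _ => abs_nonneg _
    have s2 : 0 ≤ ∑ i, |c i| * (2 / (Real.pi * l i) ^ 2) := Finset.sum_nonneg fun i _ => by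
      have := hl i
      positivity
    constructor
    · refine (phi_abs l c u).trans ?_
      have : ∑ i, |c i| * Real.exp (-(Real.pi * l i * u ^ 2)) ≤ ∑ i, |c i| := by
        refine Finset.sum_le_sum fun i _ => mul_le_of_le_one_right (abs_nonneg _) (Real.exp_le_one_iff.2 ?_)
        have := hl i
        have : 0 ≤ Real.pi * l i * u ^ 2 := by positivity
        linarith
      linarith
    · rw [le_div_iff₀ (by positivity)]
      have h1 : |phi l c u| * u ^ 4 ≤ ∑ i, |c i| * (2 / (Real.pi * l i) ^ 2) := by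
        calc |phi l c u| * u ^ 4 ≤ (∑ i, |c i| * Real.exp (-(Real.pi * l i * u ^ 2))) * u ^ 4 :=
              mul_le_mul_of_nonneg_right (phi_abs l c u) (by positivity)
          _ = ∑ i, |c i| * (Real.exp (-(Real.pi * l i * u ^ 2)) * u ^ 4) := by
              rw [Finset.sum_mul]
              exact Finset.sum_congr rfl fun i _ => by ring
          _ ≤ _ := by
              refine Finset.sum_le_sum fun i _ => mul_le_mul_of_nonneg_left ?_ (abs_nonneg _)
              have hli := hl i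
              set t := Real.pi * l i * u ^ 2 with ht
              have ht0 : 0 < t := by positivity
              have h3 : t ^ 2 / 2 ≤ Real.exp t := by
                have := Real.quadratic_le_exp_of_nonneg ht0.le
                linarith
              have h4 : Real.exp (-t) * (t ^ 2 / 2) ≤ 1 := by
                calc Real.exp (-t) * (t ^ 2 / 2) ≤ Real.exp (-t) * Real.exp t := mul_le_mul_of_nonneg_left h3 (Real.exp_pos _).le
                  _ = 1 := by rw [← Real.exp_add, neg_add_cancel, Real.exp_zero]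
              rw [le_div_iff₀ (by positivity)]
              have h5 : Real.exp (-t) * u ^ 4 * (Real.pi * l i) ^ 2 = 2 * (Real.exp (-t) * (t ^ 2 / 2)) := by
                rw [ht]; ring
              rw [h5]
              linarith
      linarith

theorem wg_S {l c : Fin 3 → ℝ} (hl : ∀ i, 0 < l i) {x : ℝ} (hx : 0 < x) : S (wg l c) x = phi l c (1 / x) := by
  rw [← S_sum (phi_wt hl) hx]
  unfold S
  refine tsum_congr fun n => ?_
  rcases Nat.eq_zero_or_pos n with h | h
  · rw [h]; simp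
  · have hn : (0:ℝ) < n := by exact_mod_cast h
    congr 1
    unfold wg
    rw [if_pos (by positivity)]

theorem phi_small {l c : Fin 3 → ℝ} (hl : ∀ i, 0 < l i) (hc : ∑ i, c i = 0) (x : ℝ) :
    |phi l c x| ≤ (∑ i, |c i| * (Real.pi * l i)) * x ^ 2 := by
  have hp := Real.pi_pos
  have e : phi l c x = ∑ i, c i * (Real.exp (-(Real.pi * l i * x ^ 2)) - 1) := by
    unfold phi
    rw [← sub_zero (∑ i, c i * Real.exp (-(Real.pi * l i * x ^ 2))), ← hc, ← Finset.sum_sub_distrib]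
    exact Finset.sum_congr rfl fun i _ => by ring
  rw [e, Finset.sum_mul]
  refine (Finset.abs_sum_le_sum_abs _ _).trans (Finset.sum_le_sum fun i _ => ?_)
  have hli := hl i
  rw [abs_mul, mul_assoc |c i|]
  refine mul_le_mul_of_nonneg_left ?_ (abs_nonneg (c i))
  have h0 : 0 ≤ Real.pi * l i * x ^ 2 := by positivity
  have h1 := Real.add_one_le_exp (-(Real.pi * l i * x ^ 2))
  have h2 : Real.exp (-(Real.pi * l i * x ^ 2)) ≤ 1 := Real.exp_le_one_iff.2 (by linarith)
  rw [abs_le]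
  exact ⟨by linarith, by linarith⟩

/-- decay at infinity -/
theorem wg_far {l c : Fin 3 → ℝ} {β : ℝ} (hβ : 0 < β) (hl : ∀ i, β < l i) :
    ∃ B : ℝ, 0 ≤ B ∧ ∀ u : ℝ, 1 ≤ u → |wg l c u| ≤ B * Real.exp (-(Real.pi * β * u ^ 2)) := by
  have hp := Real.pi_pos
  have hl0 : ∀ i, 0 < l i := fun i => hβ.trans (hl i)
  obtain ⟨C, hC, hTh⟩ := Th_le hβ
  refine ⟨(∑ i, |c i|) * C, mul_nonneg (Finset.sum_nonneg fun i _ => abs_nonneg _) hC.le, fun u hu => ?_⟩
  have hu0 : 0 < u := by linarith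
  rw [wg_eq hl0 hu0, mul_assoc, Finset.sum_mul]
  refine (Finset.abs_sum_le_sum_abs _ _).trans (Finset.sum_le_sum fun i _ => ?_)
  rw [abs_mul]
  refine mul_le_mul_of_nonneg_left ?_ (abs_nonneg _)
  rw [abs_of_nonneg (Th_nonneg _)]
  have h1 : β * u ^ 2 ≤ l i * u ^ 2 := mul_le_mul_of_nonneg_right (hl i).le (by positivity)
  have h2 : β ≤ l i * u ^ 2 := by
    refine le_trans ?_ h1
    have : (1:ℝ) ≤ u ^ 2 := by nlinarith
    nlinarith
  refine (hTh _ h2).trans (mul_le_mul_of_nonneg_left (Real.exp_le_exp.2 (neg_le_neg ?_)) hC.le)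
  rw [mul_assoc]
  exact mul_le_mul_of_nonneg_left h1 hp.le

/-- decay at zero -/
theorem wg_near {l c : Fin 3 → ℝ} {α : ℝ} (hα : 0 < α) (hl0 : ∀ i, 0 < l i) (hl : ∀ i, α < 1 / l i)
    (hc : ∑ i, c i = 0) (hc2 : ∑ i, c i / Real.sqrt (l i) = 0) :
    ∃ B : ℝ, 0 ≤ B ∧ ∀ u : ℝ, 0 < u → u ≤ 1 → |wg l c u| ≤ B * Real.exp (-(Real.pi * α / u ^ 2)) := by
  have hp := Real.pi_pos
  obtain ⟨C, hC, hTh⟩ := Th_le hα
  -- a uniform gap
  obtain ⟨η, hη, hgap⟩ : ∃ η : ℝ, 0 < η ∧ ∀ i, α + η ≤ 1 / l i := by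
    refine ⟨min (1 / l 0 - α) (min (1 / l 1 - α) (1 / l 2 - α)), ?_, ?_⟩
    · exact lt_min (sub_pos.2 (hl 0)) (lt_min (sub_pos.2 (hl 1)) (sub_pos.2 (hl 2)))
    · intro i
      have m1 := min_le_left (1 / l 0 - α) (min (1 / l 1 - α) (1 / l 2 - α))
      have m2 := (min_le_right (1 / l 0 - α) (min (1 / l 1 - α) (1 / l 2 - α))).trans (min_le_left _ _)
      have m3 := (min_le_right (1 / l 0 - α) (min (1 / l 1 - α) (1 / l 2 - α))).trans (min_le_right _ _)
      fin_cases i
      · simp only [Fin.zero_eta]; linarith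
      · simp only [Fin.mk_one]; linarith
      · simp only [Fin.reduceFinMk]; linarith
  refine ⟨(∑ i, |c i| / Real.sqrt (l i)) * (C * (1 / (Real.pi * η))), ?_, fun u hu hu1 => ?_⟩
  · refine mul_nonneg (Finset.sum_nonneg fun i _ => by have := hl0 i; positivity) (by positivity)
  have hform : wg l c u = 1 / u * ∑ i, c i / Real.sqrt (l i) * Th (1 / (l i * u ^ 2)) := by
    rw [wg_eq hl0 hu]
    have hT : ∀ i, Th (l i * u ^ 2) = -(1 / 2) + 1 / (2 * u) * (1 / Real.sqrt (l i)) +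
        1 / u * (1 / Real.sqrt (l i) * Th (1 / (l i * u ^ 2))) := by
      intro i
      have h1 := Th_func (l i * u ^ 2) (by have := hl0 i; positivity)
      have h2 : Real.sqrt (l i * u ^ 2) = Real.sqrt (l i) * u := by
        rw [Real.sqrt_mul (hl0 i).le, Real.sqrt_sq hu.le]
      rw [h2] at h1
      have h3 : 0 < Real.sqrt (l i) := Real.sqrt_pos.2 (hl0 i)
      have h4 : 1 / (Real.sqrt (l i) * u) = 1 / Real.sqrt (l i) * (1 / u) := by rw [one_div_mul_one_div]
      rw [h4] at h1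
      have h5 : 1 / (2 * u) = 1 / 2 * (1 / u) := by rw [one_div_mul_one_div]
      rw [h5]
      linear_combination (1 / 2) * h1
    have e1 : ∑ i, c i * Th (l i * u ^ 2) = -(1 / 2) * (∑ i, c i) + 1 / (2 * u) * (∑ i, c i / Real.sqrt (l i)) +
        1 / u * ∑ i, c i / Real.sqrt (l i) * Th (1 / (l i * u ^ 2)) := by
      rw [Finset.mul_sum, Finset.mul_sum, Finset.mul_sum, ← Finset.sum_add_distrib, ← Finset.sum_add_distrib]
      refine Finset.sum_congr rfl fun i _ => ?_
      rw [hT i]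
      ring
    rw [e1, hc, hc2]
    ring
  rw [hform, abs_mul, abs_of_pos (by positivity : 0 < 1 / u), Finset.sum_mul, Finset.sum_mul]
  have hterm : ∀ i, 1 / u * |c i / Real.sqrt (l i) * Th (1 / (l i * u ^ 2))| ≤
      |c i| / Real.sqrt (l i) * (C * (1 / (Real.pi * η))) * Real.exp (-(Real.pi * α / u ^ 2)) := by
    intro i
    have hli := hl0 i
    have hs : 0 < Real.sqrt (l i) := Real.sqrt_pos.2 hli
    have h2 : (α + η) / u ^ 2 ≤ 1 / (l i * u ^ 2) := by
      rw [← div_div]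
      exact div_le_div_of_nonneg_right (hgap i) (by positivity)
    have h3 : α ≤ 1 / (l i * u ^ 2) := by
      refine le_trans ?_ h2
      rw [le_div_iff₀ (by positivity)]
      have : u ^ 2 ≤ 1 := by nlinarith
      nlinarith
    have h4 := hTh _ h3
    have h5 : Real.exp (-(Real.pi * (1 / (l i * u ^ 2)))) ≤ Real.exp (-(Real.pi * α / u ^ 2)) * Real.exp (-(Real.pi * η / u ^ 2)) := by
      rw [← Real.exp_add]
      refine Real.exp_le_exp.2 ?_
      have := mul_le_mul_of_nonneg_left h2 hp.le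
      have e : Real.pi * ((α + η) / u ^ 2) = Real.pi * α / u ^ 2 + Real.pi * η / u ^ 2 := by ring
      linarith
    have h6 : 1 / u * Real.exp (-(Real.pi * η / u ^ 2)) ≤ 1 / (Real.pi * η) := by
      have h7 : Real.pi * η / u ^ 2 ≤ Real.exp (Real.pi * η / u ^ 2) := by
        have := Real.add_one_le_exp (Real.pi * η / u ^ 2)
        linarith
      have h8 : 0 < Real.pi * η / u ^ 2 := by positivity
      rw [Real.exp_neg]
      calc 1 / u * (Real.exp (Real.pi * η / u ^ 2))⁻¹ ≤ 1 / u * (Real.pi * η / u ^ 2)⁻¹ :=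
            mul_le_mul_of_nonneg_left (inv_anti₀ h8 h7) (by positivity)
        _ = u * (1 / (Real.pi * η)) := by field_simp
        _ ≤ 1 * (1 / (Real.pi * η)) := mul_le_mul_of_nonneg_right hu1 (by positivity)
        _ = _ := one_mul _
    rw [abs_mul, abs_div, abs_of_pos hs, abs_of_nonneg (Th_nonneg _)]
    calc 1 / u * (|c i| / Real.sqrt (l i) * Th (1 / (l i * u ^ 2)))
        ≤ 1 / u * (|c i| / Real.sqrt (l i) * (C * (Real.exp (-(Real.pi * α / u ^ 2)) * Real.exp (-(Real.pi * η / u ^ 2))))) := by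
          refine mul_le_mul_of_nonneg_left (mul_le_mul_of_nonneg_left (h4.trans ?_) (by positivity)) (by positivity)
          exact mul_le_mul_of_nonneg_left h5 hC.le
      _ = |c i| / Real.sqrt (l i) * (C * (1 / u * Real.exp (-(Real.pi * η / u ^ 2)))) * Real.exp (-(Real.pi * α / u ^ 2)) := by
          ring
      _ ≤ _ := by
          refine mul_le_mul_of_nonneg_right (mul_le_mul_of_nonneg_left (mul_le_mul_of_nonneg_left h6 hC.le) (by positivity))
            (Real.exp_pos _).le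
  calc 1 / u * |∑ i, c i / Real.sqrt (l i) * Th (1 / (l i * u ^ 2))|
      ≤ 1 / u * ∑ i, |c i / Real.sqrt (l i) * Th (1 / (l i * u ^ 2))| :=
        mul_le_mul_of_nonneg_left (Finset.abs_sum_le_sum_abs _ _) (by positivity)
    _ = ∑ i, 1 / u * |c i / Real.sqrt (l i) * Th (1 / (l i * u ^ 2))| := Finset.mul_sum _ _ _
    _ ≤ _ := Finset.sum_le_sum fun i _ => hterm i

/-- the weight is not zero far out -/
theorem wg_ne {l c : Fin 3 → ℝ} (hl0 : ∀ i, 0 < l i) (h1 : l 0 < l 1) (h2 : l 0 < l 2) (hc : c 0 ≠ 0) :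
    ∀ᶠ u in atTop, wg l c u ≠ 0 := by
  have hp := Real.pi_pos
  have hsq : Tendsto (fun u : ℝ => u ^ 2) atTop atTop := tendsto_pow_atTop two_ne_zero
  have hA : ∀ i, Tendsto (fun u : ℝ => Real.exp (Real.pi * (l i * u ^ 2)) * Th (l i * u ^ 2)) atTop (𝓝 1) := fun i =>
    Th_lim.comp (hsq.const_mul_atTop (hl0 i))
  have hB : ∀ i, l 0 < l i → Tendsto (fun u : ℝ => Real.exp (Real.pi * (l 0 * u ^ 2)) * Th (l i * u ^ 2)) atTop (𝓝 0) := by
    intro i hi
    have h3 : Tendsto (fun u : ℝ => Real.exp (-(Real.pi * (l i - l 0) * u ^ 2))) atTop (𝓝 0) := by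
      refine Real.tendsto_exp_neg_atTop_nhds_zero.comp ?_
      exact hsq.const_mul_atTop (mul_pos hp (sub_pos.2 hi))
    have h4 := h3.mul (hA i)
    rw [zero_mul] at h4
    refine h4.congr fun u => ?_
    rw [← mul_assoc, ← Real.exp_add]
    congr 2
    ring
  have hlim : Tendsto (fun u : ℝ => Real.exp (Real.pi * (l 0 * u ^ 2)) * wg l c u) atTop (𝓝 (c 0)) := by
    have h5 := (((hA 0).const_mul (c 0)).add ((hB 1 h1).const_mul (c 1))).add ((hB 2 h2).const_mul (c 2))
    rw [mul_one, mul_zero, mul_zero, add_zero, add_zero] at h5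
    refine h5.congr' ?_
    filter_upwards [eventually_gt_atTop (0:ℝ)] with u hu
    rw [wg_eq hl0 hu, Fin.sum_univ_three]
    ring
  filter_upwards [hlim.eventually_ne hc] with u hu h6
  rw [h6, mul_zero] at hu
  exact hu rfl

theorem wg_nonzero {l c : Fin 3 → ℝ} (hl0 : ∀ i, 0 < l i) (h1 : l 0 < l 1) (h2 : l 0 < l 2) (hc : c 0 ≠ 0) :
    ¬ ∀ᵐ u ∂(volume.restrict (Ioi (0:ℝ))), wg l c u = 0 := by
  intro h
  obtain ⟨K, hK⟩ := eventually_atTop.1 (wg_ne hl0 h1 h2 hc)
  rw [ae_restrict_iff' measurableSet_Ioi, ae_iff] at h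
  have hsub : Ioi (max K 0) ⊆ {u : ℝ | ¬ (u ∈ Ioi (0:ℝ) → wg l c u = 0)} := by
    intro u hu
    have hu' : max K 0 < u := hu
    simp only [mem_setOf_eq, Classical.not_imp]
    exact ⟨lt_of_le_of_lt (le_max_right _ _) hu', hK u ((le_max_left _ _).trans hu'.le)⟩
  have := measure_mono_null hsub h
  rw [Real.volume_Ioi] at this
  exact ENNReal.top_ne_zero this

/-- **Below the threshold.** -/
theorem hardy_sharp {α β : ℝ} (hα : 0 < α) (hβ : 0 < β) (hab : α * β < 1) :
    ∃ (w : ℝ → ℝ) (B : ℝ), Hardy α β w 0 B ∧ (¬ ∀ᵐ u ∂(volume.restrict (Ioi (0:ℝ))), w u = 0) ∧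
      ∃ C : ℝ, ∀ x : ℝ, 0 < x → |S w x| ≤ C / x ^ 2 := by
  have hgap : 0 < 1 / α - β := by
    rw [sub_pos, lt_div_iff₀ hα]
    linarith
  set d : ℝ := 1 / α - β with hd
  set l : Fin 3 → ℝ := ![β + d / 4, β + d / 2, β + 3 * d / 4] with hl
  have l0 : l 0 = β + d / 4 := rfl
  have l1 : l 1 = β + d / 2 := rfl
  have l2 : l 2 = β + 3 * d / 4 := rfl
  have hlβ : ∀ i, β < l i := by
    intro i
    fin_cases i
    · show β < l 0; rw [l0]; linarith
    · show β < l 1; rw [l1]; linarith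
    · show β < l 2; rw [l2]; linarith
  have hlpos : ∀ i, 0 < l i := fun i => hβ.trans (hlβ i)
  have hlα : ∀ i, l i < 1 / α := by
    intro i
    fin_cases i
    · show l 0 < 1 / α; rw [l0]; linarith
    · show l 1 < 1 / α; rw [l1]; linarith
    · show l 2 < 1 / α; rw [l2]; linarith
  have hlα' : ∀ i, α < 1 / l i := fun i => by
    rw [lt_div_iff₀ (hlpos i)]
    have := hlα i
    rw [lt_div_iff₀ hα] at this
    linarith
  set μ : Fin 3 → ℝ := fun i => 1 / Real.sqrt (l i) with hμ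
  set c : Fin 3 → ℝ := ![μ 1 - μ 2, μ 2 - μ 0, μ 0 - μ 1] with hc
  have c0 : c 0 = μ 1 - μ 2 := rfl
  have c1 : c 1 = μ 2 - μ 0 := rfl
  have c2 : c 2 = μ 0 - μ 1 := rfl
  have s1 : ∑ i, c i = 0 := by rw [Fin.sum_univ_three, c0, c1, c2]; ring
  have s2 : ∑ i, c i / Real.sqrt (l i) = 0 := by
    have e : ∀ i, c i / Real.sqrt (l i) = c i * μ i := fun i => by simp only [hμ]; ring
    rw [Fin.sum_univ_three, e, e, e, c0, c1, c2]
    ring
  have hc0 : c 0 ≠ 0 := by
    rw [c0, sub_ne_zero]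
    intro h
    simp only [hμ] at h
    have p1 : 0 < Real.sqrt (l 1) := Real.sqrt_pos.2 (hlpos 1)
    have p2 : 0 < Real.sqrt (l 2) := Real.sqrt_pos.2 (hlpos 2)
    have h3 : Real.sqrt (l 1) < Real.sqrt (l 2) := Real.sqrt_lt_sqrt (hlpos 1).le (by rw [l1, l2]; linarith)
    have h4 := one_div_lt_one_div_of_lt p1 h3
    linarith
  obtain ⟨B1, hB1, h1⟩ := wg_near hα hlpos hlα' s1 s2
  obtain ⟨B2, hB2, h2⟩ := wg_far (c := c) hβ hlβ
  refine ⟨wg l c, max B1 B2, ⟨hα, hβ, le_max_of_le_left hB1, wg_meas hlpos, ?_, ?_⟩,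
    wg_nonzero hlpos (by rw [l0, l1]; linarith) (by rw [l0, l2]; linarith) hc0, ∑ i, |c i| * (Real.pi * l i), fun x hx => ?_⟩
  · intro u hu hu1
    rw [sub_zero]
    exact (h1 u hu hu1).trans (mul_le_mul_of_nonneg_right (le_max_left _ _) (Real.exp_pos _).le)
  · intro u hu
    exact (h2 u hu).trans (mul_le_mul_of_nonneg_right (le_max_right _ _) (Real.exp_pos _).le)
  · rw [wg_S hlpos hx]
    refine (phi_small hlpos s1 (1 / x)).trans (le_of_eq ?_)
    rw [one_div, inv_pow, ← div_eq_mul_inv]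

end

end H19.EW
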