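import Mathlib

/-!
# A positive kernel from the theta function
-/

open Complex MeasureTheory Filter Topology Set

set_option linter.unusedSectionVars false
set_option autoImplicit false

namespace H313.TK

noncomputable section

/-- the one-sided theta function -/
def Th (b : ℝ) : ℝ := ∑' n : ℕ, Real.exp (-Real.pi * b * ((n : ℝ) + 1) ^ 2)

theorem sumE (b : ℝ) (hb : 0 < b) : Summable (fun n : ℕ => Real.exp (-b * ((n : ℝ) + 1) ^ 2)) := by
  have h1 : Summable (fun n : ℕ => Real.exp (-b) ^ n) :=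
    summable_geometric_of_lt_one (Real.exp_pos _).le (by rw [Real.exp_lt_one_iff]; linarith)
  refine Summable.of_nonneg_of_le (fun n => (Real.exp_pos _).le) (fun n => ?_) h1
  rw [← Real.exp_nat_mul]
  refine Real.exp_le_exp.2 ?_
  have hn : (0:ℝ) ≤ n := Nat.cast_nonneg n
  have h2 : (n : ℝ) ≤ ((n : ℝ) + 1) ^ 2 := by nlinarith
  nlinarith [mul_nonneg hb.le (sub_nonneg.2 h2)]

theorem sumT (b : ℝ) (hb : 0 < b) : Summable (fun n : ℕ => Real.exp (-Real.pi * b * ((n : ℝ) + 1) ^ 2)) := by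
  have := sumE (Real.pi * b) (by positivity)
  refine this.congr fun n => ?_
  congr 1
  ring

theorem Z_eq (b : ℝ) (hb : 0 < b) :
    ∑' n : ℤ, Real.exp (-Real.pi * b * (n : ℝ) ^ 2) = 1 + 2 * Th b := by
  have hs : Summable (fun n : ℤ => Real.exp (-Real.pi * b * (n : ℝ) ^ 2)) := by
    rw [summable_int_iff_summable_nat_and_neg]
    have h0 : Summable (fun n : ℕ => Real.exp (-Real.pi * b * (n : ℝ) ^ 2)) := by
      rw [← summable_nat_add_iff 1]
      refine (sumT b hb).congr fun n => ?_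
      push_cast
      rfl
    refine ⟨by simpa using h0, by simpa using h0⟩
  have he : Function.Even (fun n : ℤ => Real.exp (-Real.pi * b * (n : ℝ) ^ 2)) := by
    intro n
    simp
  rw [tsum_int_eq_zero_add_two_mul_tsum_pnat he hs]
  have h1 := tsum_pnat_eq_tsum_succ (f := fun n : ℕ => Real.exp (-Real.pi * b * (n : ℝ) ^ 2))
  have h2 : ∑' n : ℕ+, Real.exp (-Real.pi * b * (((n : ℕ) : ℤ) : ℝ) ^ 2) = Th b := by
    have h3 : ∑' n : ℕ+, Real.exp (-Real.pi * b * (((n : ℕ) : ℤ) : ℝ) ^ 2) =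
        ∑' n : ℕ+, (fun n : ℕ => Real.exp (-Real.pi * b * (n : ℝ) ^ 2)) n := by
      refine tsum_congr fun n => ?_
      simp
    rw [h3, h1]
    unfold Th
    refine tsum_congr fun n => ?_
    push_cast
    rfl
  rw [h2]
  simp

theorem Th_func (b : ℝ) (hb : 0 < b) : 1 + 2 * Th b = 1 / Real.sqrt b * (1 + 2 * Th (1 / b)) := by
  rw [← Z_eq b hb, ← Z_eq (1 / b) (by positivity), Real.tsum_exp_neg_mul_int_sq hb, Real.sqrt_eq_rpow]
  congr 1
  refine tsum_congr fun n => ?_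
  congr 2
  ring

/-- the combination of Gaussians -/
def P (x : ℝ) : ℝ := Real.exp (-(Real.pi / 4) * x ^ 2) - 3 * Real.exp (-Real.pi * x ^ 2) +
  2 * Real.exp (-(4 * Real.pi) * x ^ 2)

/-- the kernel -/
def kk (y : ℝ) : ℝ := ∑' n : ℕ, P (((n : ℝ) + 1) / y)

theorem P_zero : P 0 = 0 := by
  unfold P
  norm_num

theorem kk_eq (y : ℝ) (hy : 0 < y) :
    kk y = Th (1 / (4 * y ^ 2)) - 3 * Th (1 / y ^ 2) + 2 * Th (4 / y ^ 2) := by
  have s1 := sumT (1 / (4 * y ^ 2)) (by positivity)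
  have s2 := sumT (1 / y ^ 2) (by positivity)
  have s3 := sumT (4 / y ^ 2) (by positivity)
  unfold kk Th
  rw [← tsum_mul_left, ← tsum_mul_left, ← s1.tsum_sub (s2.mul_left 3),
    ← (s1.sub (s2.mul_left 3)).tsum_add (s3.mul_left 2)]
  refine tsum_congr fun n => ?_
  unfold P
  congr 1
  · congr 1
    · congr 1
      field_simp
    · congr 2
      field_simp
  · congr 2
    field_simp

theorem kk_func (y : ℝ) (hy : 0 < y) : kk y = y * kk (1 / y) := by
  have hy' : 0 < 1 / y := by positivity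
  rw [kk_eq y hy, kk_eq (1 / y) hy']
  have f1 := Th_func (1 / (4 * y ^ 2)) (by positivity)
  have f2 := Th_func (1 / y ^ 2) (by positivity)
  have f3 := Th_func (4 / y ^ 2) (by positivity)
  have r1 : Real.sqrt (1 / (4 * y ^ 2)) = 1 / (2 * y) := by
    rw [show 1 / (4 * y ^ 2) = (1 / (2 * y)) ^ 2 by field_simp; norm_num]
    exact Real.sqrt_sq (by positivity)
  have r2 : Real.sqrt (1 / y ^ 2) = 1 / y := by
    rw [show 1 / y ^ 2 = (1 / y) ^ 2 by field_simp]
    exact Real.sqrt_sq (by positivity)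
  have r3 : Real.sqrt (4 / y ^ 2) = 2 / y := by
    rw [show 4 / y ^ 2 = (2 / y) ^ 2 by field_simp; norm_num]
    exact Real.sqrt_sq (by positivity)
  rw [r1] at f1
  rw [r2] at f2
  rw [r3] at f3
  have e1 : 1 / (1 / (4 * y ^ 2)) = 4 / (1 / y) ^ 2 := by field_simp
  have e2 : 1 / (1 / y ^ 2) = 1 / (1 / y) ^ 2 := by field_simp
  have e3 : 1 / (4 / y ^ 2) = 1 / (4 * (1 / y) ^ 2) := by field_simp
  rw [e1] at f1
  rw [e2] at f2
  rw [e3] at f3
  have g1 : 1 / (1 / (2 * y)) = 2 * y := by field_simp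
  have g2 : 1 / (1 / y) = y := by field_simp
  have g3 : 1 / (2 / y) = y / 2 := by field_simp
  rw [g1] at f1
  rw [g2] at f2
  rw [g3] at f3
  linear_combination (1 / 2) * f1 - (3 / 2) * f2 + f3

/-! ### bounds -/

theorem P_abs (x : ℝ) : |P x| ≤ 3 * Real.exp (-(Real.pi / 4) * x ^ 2) := by
  have hp := Real.pi_pos
  have hx := sq_nonneg x
  have h1 : Real.exp (-Real.pi * x ^ 2) ≤ Real.exp (-(Real.pi / 4) * x ^ 2) :=
    Real.exp_le_exp.2 (by nlinarith [mul_nonneg hp.le hx])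
  have h2 : Real.exp (-(4 * Real.pi) * x ^ 2) ≤ Real.exp (-(Real.pi / 4) * x ^ 2) :=
    Real.exp_le_exp.2 (by nlinarith [mul_nonneg hp.le hx])
  have h3 := Real.exp_pos (-Real.pi * x ^ 2)
  have h4 := Real.exp_pos (-(4 * Real.pi) * x ^ 2)
  have h5 := Real.exp_pos (-(Real.pi / 4) * x ^ 2)
  unfold P
  rw [abs_le]
  constructor <;> linarith

theorem P_small (x : ℝ) : |P x| ≤ 48 * x ^ 2 := by
  have hp := Real.pi_pos
  have hp4 := Real.pi_lt_four
  have hx := sq_nonneg x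
  have e : ∀ a : ℝ, 0 ≤ a → |Real.exp (-a * x ^ 2) - 1| ≤ a * x ^ 2 := by
    intro a ha
    have h1 := Real.add_one_le_exp (-a * x ^ 2)
    have h2 : Real.exp (-a * x ^ 2) ≤ 1 := Real.exp_le_one_iff.2 (by nlinarith)
    rw [abs_le]
    constructor <;> nlinarith
  have a1 := abs_le.1 (e (Real.pi / 4) (by positivity))
  have a2 := abs_le.1 (e Real.pi (by positivity))
  have a3 := abs_le.1 (e (4 * Real.pi) (by positivity))
  have hb : (Real.pi / 4) * x ^ 2 + 3 * (Real.pi * x ^ 2) + 2 * (4 * Real.pi * x ^ 2) ≤ 48 * x ^ 2 := by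
    nlinarith [mul_nonneg (sub_nonneg.2 hp4.le) hx]
  unfold P
  rw [abs_le]
  constructor <;> linarith [a1.1, a1.2, a2.1, a2.2, a3.1, a3.2]

theorem P_pos (x : ℝ) (hx : 1 ≤ x) : 1 / 2 * Real.exp (-(Real.pi / 4) * x ^ 2) ≤ P x := by
  have hp := Real.pi_gt_three
  have hx2 : 1 ≤ x ^ 2 := by nlinarith
  have h1 : Real.exp (-Real.pi * x ^ 2) = Real.exp (-(3 * Real.pi / 4) * x ^ 2) * Real.exp (-(Real.pi / 4) * x ^ 2) := by
    rw [← Real.exp_add]; congr 1; ring
  have h2 : Real.exp (-(3 * Real.pi / 4) * x ^ 2) ≤ Real.exp (-2) := by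
    refine Real.exp_le_exp.2 ?_
    nlinarith
  have h3 : Real.exp (-2) ≤ 1 / 6 := by
    rw [Real.exp_neg, inv_eq_one_div]
    refine one_div_le_one_div_of_le (by norm_num) ?_
    have := Real.add_one_le_exp (1:ℝ)
    have h4 := Real.exp_one_gt_d9
    have h5 : Real.exp 2 = Real.exp 1 * Real.exp 1 := by rw [← Real.exp_add]; norm_num
    rw [h5]
    nlinarith
  have h5 := Real.exp_pos (-(Real.pi / 4) * x ^ 2)
  have h6 := Real.exp_pos (-(4 * Real.pi) * x ^ 2)
  unfold P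
  rw [h1]
  nlinarith

/-- the constant -/
def C0 : ℝ := 3 * ∑' n : ℕ, Real.exp (-(Real.pi / 4)) ^ n

theorem geo_sum : Summable (fun n : ℕ => Real.exp (-(Real.pi / 4)) ^ n) :=
  summable_geometric_of_lt_one (Real.exp_pos _).le (by
    have := Real.pi_pos
    rw [Real.exp_lt_one_iff]
    linarith)

theorem P_term (y : ℝ) (hy : 0 < y) (hy1 : y ≤ 1) (n : ℕ) :
    |P (((n : ℝ) + 1) / y)| ≤ 3 * (Real.exp (-(Real.pi / 4) / y ^ 2) * Real.exp (-(Real.pi / 4)) ^ n) := by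
  refine (P_abs _).trans ?_
  refine mul_le_mul_of_nonneg_left ?_ (by norm_num)
  rw [← Real.exp_nat_mul, ← Real.exp_add]
  refine Real.exp_le_exp.2 ?_
  have hn : (0:ℝ) ≤ n := Nat.cast_nonneg n
  have hy2 : y ^ 2 ≤ 1 := by nlinarith
  have hp := Real.pi_pos
  rw [div_pow]
  have h1 : 1 ≤ 1 / y ^ 2 := by
    rw [le_div_iff₀ (by positivity)]
    linarith
  have h2 : ((n : ℝ) + 1) ^ 2 / y ^ 2 = ((n : ℝ) + 1) ^ 2 * (1 / y ^ 2) := by ring
  have h3 : -(Real.pi / 4) / y ^ 2 = -(Real.pi / 4) * (1 / y ^ 2) := by ring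
  rw [h2, h3]
  set w := 1 / y ^ 2 with hw
  have h4 : (w + (n : ℝ)) ≤ ((n : ℝ) + 1) ^ 2 * w := by nlinarith [mul_nonneg hn (sub_nonneg.2 h1)]
  nlinarith

theorem kk_upper (y : ℝ) (hy : 0 < y) (hy1 : y ≤ 1) : kk y ≤ C0 * Real.exp (-(Real.pi / 4) / y ^ 2) := by
  have hs := (geo_sum.mul_left (Real.exp (-(Real.pi / 4) / y ^ 2))).mul_left 3
  have hs2 : Summable (fun n : ℕ => P (((n : ℝ) + 1) / y)) :=
    Summable.of_norm_bounded hs fun n => by rw [Real.norm_eq_abs]; exact P_term y hy hy1 n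
  have h1 := hs2.tsum_le_tsum (fun n => (le_abs_self _).trans (P_term y hy hy1 n)) hs
  unfold kk C0
  refine h1.trans (le_of_eq ?_)
  rw [tsum_mul_left, tsum_mul_left]
  ring

theorem kk_lower (y : ℝ) (hy : 0 < y) (hy1 : y ≤ 1) : 1 / 2 * Real.exp (-(Real.pi / 4) / y ^ 2) ≤ kk y := by
  have hs := (geo_sum.mul_left (Real.exp (-(Real.pi / 4) / y ^ 2))).mul_left 3
  have hs2 : Summable (fun n : ℕ => P (((n : ℝ) + 1) / y)) :=
    Summable.of_norm_bounded hs fun n => by rw [Real.norm_eq_abs]; exact P_term y hy hy1 n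
  have h0 : ∀ n : ℕ, 0 ≤ P (((n : ℝ) + 1) / y) := by
    intro n
    have hn : (0:ℝ) ≤ n := Nat.cast_nonneg n
    refine le_trans (by positivity) (P_pos _ ?_)
    rw [le_div_iff₀ hy]
    linarith
  have h1 := hs2.le_tsum 0 (fun n _ => h0 n)
  unfold kk
  refine le_trans ?_ h1
  have h2 := P_pos (((0 : ℕ) : ℝ) + 1 / y) (by
    rw [Nat.cast_zero, zero_add, le_div_iff₀ hy]
    linarith)
  simp only [Nat.cast_zero, zero_add] at h2 ⊢
  refine le_trans (le_of_eq ?_) h2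
  rw [div_pow, one_pow]
  congr 2
  ring

/-- the weight -/
def W (v : ℝ) : ℝ := Real.exp (max v 0 - Real.pi / 4 * Real.exp (2 * |v|))

theorem W_pos (v : ℝ) : 0 < W v := Real.exp_pos _

theorem W_cont : Continuous W := by unfold W; fun_prop

/-- the kernel, exponential scale -/
def kp (v : ℝ) : ℝ := kk (Real.exp v)

theorem W_neg (v : ℝ) (hv : v ≤ 0) : W v = Real.exp (-(Real.pi / 4) / (Real.exp v) ^ 2) := by
  unfold W
  have h1 : Real.exp (2 * -v) = 1 / (Real.exp v) ^ 2 := by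
    rw [← Real.exp_nat_mul, one_div, ← Real.exp_neg]
    congr 1
    push_cast
    ring
  rw [max_eq_right hv, abs_of_nonpos hv, h1]
  congr 1
  ring

theorem W_sym (v : ℝ) (hv : 0 ≤ v) : W v = Real.exp v * W (-v) := by
  unfold W
  rw [max_eq_left hv, max_eq_right (by linarith), abs_neg, ← Real.exp_add]
  congr 1
  ring

theorem kp_bounds (v : ℝ) : 1 / 2 * W v ≤ kp v ∧ kp v ≤ C0 * W v := by
  have key : ∀ v : ℝ, v ≤ 0 → 1 / 2 * W v ≤ kp v ∧ kp v ≤ C0 * W v := by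
    intro v hv
    have h1 : Real.exp v ≤ 1 := Real.exp_le_one_iff.2 hv
    rw [W_neg v hv]
    exact ⟨kk_lower _ (Real.exp_pos v) h1, kk_upper _ (Real.exp_pos v) h1⟩
  rcases le_total v 0 with hv | hv
  · exact key v hv
  · have h1 := key (-v) (by linarith)
    have h2 : kp v = Real.exp v * kp (-v) := by
      unfold kp
      rw [kk_func _ (Real.exp_pos v), Real.exp_neg, inv_eq_one_div]
    rw [h2, W_sym v hv]
    have := Real.exp_pos v
    constructor
    · calc 1 / 2 * (Real.exp v * W (-v)) = Real.exp v * (1 / 2 * W (-v)) := by ring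
        _ ≤ _ := mul_le_mul_of_nonneg_left h1.1 this.le
    · calc Real.exp v * kp (-v) ≤ Real.exp v * (C0 * W (-v)) := mul_le_mul_of_nonneg_left h1.2 this.le
        _ = _ := by ring

end

end H313.TK
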