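import Pool.Agent.H19.EW.TKA

/-!
# Kernels dominated by the weight, and the operator inverting `d/dt - ρ`
-/

open Complex MeasureTheory Filter Topology Set

set_option linter.unusedSectionVars false
set_option autoImplicit false

namespace H313.TK

noncomputable section

theorem W_dom (v z : ℝ) (h : (z ≤ v ∧ v ≤ 0) ∨ (0 ≤ v ∧ v ≤ z)) :
    W z * Real.exp (2 * |v - z|) ≤ 4 * W v * Real.exp (-|v - z|) := by
  set s : ℝ := |v - z| with hs
  have hs0 : 0 ≤ s := abs_nonneg _
  have hz : |z| = |v| + s := by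
    rcases h with ⟨h1, h2⟩ | ⟨h1, h2⟩
    · rw [hs, abs_of_nonpos h2, abs_of_nonneg (by linarith : 0 ≤ v - z), abs_of_nonpos (by linarith : z ≤ 0)]
      ring
    · rw [hs, abs_of_nonneg h1, abs_of_nonpos (by linarith : v - z ≤ 0), abs_of_nonneg (by linarith : 0 ≤ z)]
      ring
  have hm : max z 0 ≤ max v 0 + s := by
    refine max_le ?_ (by have := le_max_right v 0; linarith)
    have h1 := le_max_left v 0
    have h2 : z - v ≤ s := by rw [hs, abs_sub_comm]; exact le_abs_self _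
    linarith
  have hlog : 25 / 24 ≤ Real.log 4 := by
    have h4 : Real.log 4 = 2 * Real.log 2 := by
      rw [show (4:ℝ) = 2 ^ 2 by norm_num, Real.log_pow]
      push_cast
      ring
    rw [h4]
    have := Real.log_two_gt_d9
    linarith
  have he : Real.exp (2 * |v|) + (2 * s + 2 * s ^ 2) ≤ Real.exp (2 * |z|) := by
    rw [hz, mul_add, Real.exp_add]
    have h1 := Real.quadratic_le_exp_of_nonneg (show 0 ≤ 2 * s by linarith)
    have h2 : 1 ≤ Real.exp (2 * |v|) := Real.one_le_exp (by positivity)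
    nlinarith [mul_nonneg (sub_nonneg.2 h2) (by positivity : 0 ≤ 2 * s + 2 * s ^ 2)]
  have hp := Real.pi_gt_three
  have h4 : ∀ a b : ℝ, 4 * Real.exp a * Real.exp b = Real.exp (Real.log 4 + a + b) := by
    intro a b
    rw [Real.exp_add, Real.exp_add, Real.exp_log (by norm_num)]
  unfold W
  rw [← Real.exp_add, h4]
  refine Real.exp_le_exp.2 ?_
  have h5 : Real.pi / 4 * (Real.exp (2 * |v|) + (2 * s + 2 * s ^ 2)) ≤ Real.pi / 4 * Real.exp (2 * |z|) :=
    mul_le_mul_of_nonneg_left he (by positivity)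
  have h6 : 3 / 4 * (2 * s + 2 * s ^ 2) ≤ Real.pi / 4 * (2 * s + 2 * s ^ 2) :=
    mul_le_mul_of_nonneg_right (by linarith) (by positivity)
  nlinarith [sq_nonneg (s - 5 / 6)]

theorem W_zero_le : W 0 ≤ 1 := by
  unfold W
  rw [Real.exp_le_one_iff]
  have := Real.pi_pos
  simp
  positivity

theorem W_decay (z : ℝ) : W z * Real.exp (2 * |z|) ≤ 4 * Real.exp (-|z|) := by
  have h1 : W z * Real.exp (2 * |0 - z|) ≤ 4 * W 0 * Real.exp (-|0 - z|) := by
    rcases le_total z 0 with h | h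
    · exact W_dom 0 z (Or.inl ⟨h, le_rfl⟩)
    · exact W_dom 0 z (Or.inr ⟨le_rfl, h⟩)
  rw [zero_sub, abs_neg] at h1
  refine h1.trans ?_
  have := W_zero_le
  have h2 := Real.exp_pos (-|z|)
  nlinarith

theorem int_exp_abs (c : ℝ) (hc : 0 < c) : Integrable (fun x : ℝ => Real.exp (-(c * |x|))) := by
  rw [← integrableOn_univ, ← Iic_union_Ioi (a := (0:ℝ)), integrableOn_union]
  constructor
  · refine (integrableOn_exp_mul_Iic hc 0).congr_fun (fun x hx => ?_) measurableSet_Iic
    simp only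
    rw [abs_of_nonpos hx]
    congr 1
    ring
  · refine (integrableOn_exp_mul_Ioi (neg_lt_zero.2 hc) 0).congr_fun (fun x hx => ?_) measurableSet_Ioi
    simp only
    rw [abs_of_pos hx]
    congr 1
    ring

/-- kernels dominated by the weight -/
structure DK (g : ℝ → ℂ) : Prop where
  cont : Continuous g
  bd : ∃ C : ℝ, 0 ≤ C ∧ ∀ v, ‖g v‖ ≤ C * W v

/-- the operator inverting `d/dt - ρ` -/
def Ist (ρ : ℂ) (g : ℝ → ℂ) (v : ℝ) : ℂ := cexp (ρ * v) * ∫ z in Iic v, cexp (-ρ * z) * g z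

theorem norm_tw (ρ : ℂ) (z : ℝ) : ‖cexp (-ρ * z)‖ = Real.exp (-ρ.re * z) := by
  rw [Complex.norm_exp]
  congr 1
  simp

theorem norm_tw' (ρ : ℂ) (z : ℝ) : ‖cexp (ρ * z)‖ = Real.exp (ρ.re * z) := by
  rw [Complex.norm_exp]
  congr 1
  simp

theorem tw_int {g : ℝ → ℂ} (hg : DK g) (ρ : ℂ) (hβ : |ρ.re| ≤ 2) :
    Integrable (fun z : ℝ => cexp (-ρ * z) * g z) := by
  obtain ⟨C, hC, hb⟩ := hg.bd
  have hc := hg.cont
  refine (((int_exp_abs 1 one_pos).const_mul (4 * C))).mono' ?_ (ae_of_all _ fun z => ?_)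
  · exact (by fun_prop : Continuous fun z : ℝ => cexp (-ρ * z) * g z).aestronglyMeasurable
  · rw [norm_mul, norm_tw, one_mul]
    have h1 : Real.exp (-ρ.re * z) ≤ Real.exp (2 * |z|) := by
      refine Real.exp_le_exp.2 ?_
      calc -ρ.re * z ≤ |-ρ.re * z| := le_abs_self _
        _ = |ρ.re| * |z| := by rw [abs_mul, abs_neg]
        _ ≤ 2 * |z| := mul_le_mul_of_nonneg_right hβ (abs_nonneg _)
    calc Real.exp (-ρ.re * z) * ‖g z‖ ≤ Real.exp (2 * |z|) * (C * W z) :=
          mul_le_mul h1 (hb z) (norm_nonneg _) (Real.exp_pos _).le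
      _ = C * (W z * Real.exp (2 * |z|)) := by ring
      _ ≤ C * (4 * Real.exp (-|z|)) := mul_le_mul_of_nonneg_left (W_decay z) hC
      _ = _ := by ring

/-- primitives are continuous -/
theorem prim_cont {f : ℝ → ℂ} (hf : Continuous f) (hi : ∀ v, IntegrableOn f (Iic v)) :
    ∀ v, HasDerivAt (fun v : ℝ => ∫ z in Iic v, f z) (f v) v := by
  intro v
  have h1 : (fun v : ℝ => ∫ z in Iic v, f z) = fun v : ℝ => (∫ z in Iic (0:ℝ), f z) + ∫ z in (0:ℝ)..v, f z := by
    funext v
    rw [← intervalIntegral.integral_Iic_sub_Iic (hi 0) (hi v)]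
    ring
  rw [h1]
  exact (intervalIntegral.integral_hasDerivAt_right (hf.intervalIntegrable _ _)
    hf.aestronglyMeasurable.stronglyMeasurableAtFilter hf.continuousAt).const_add _

theorem Ist_cont {ρ : ℂ} {g : ℝ → ℂ} (hc : Continuous g)
    (hi : ∀ v, IntegrableOn (fun z : ℝ => cexp (-ρ * z) * g z) (Iic v)) : Continuous (Ist ρ g) := by
  have h1 := prim_cont (by fun_prop : Continuous fun z : ℝ => cexp (-ρ * z) * g z) hi
  have h2 : Continuous (fun v : ℝ => ∫ z in Iic v, cexp (-ρ * z) * g z) :=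
    continuous_iff_continuousAt.2 fun v => (h1 v).continuousAt
  have h3 : Continuous (fun v : ℝ => cexp (ρ * v)) := by fun_prop
  exact h3.mul h2

/-- the operator preserves domination when the moment vanishes -/
theorem Ist_DK {g : ℝ → ℂ} (hg : DK g) (ρ : ℂ) (hβ : |ρ.re| ≤ 2)
    (h0 : ∫ z : ℝ, cexp (-ρ * z) * g z = 0) : DK (Ist ρ g) := by
  have hi := tw_int hg ρ hβ
  obtain ⟨C, hC, hb⟩ := hg.bd
  refine ⟨Ist_cont hg.cont fun v => hi.integrableOn, ?_⟩
  set D : ℝ := ∫ x : ℝ, Real.exp (-(1 * |x|)) with hD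
  have hD0 : 0 ≤ D := integral_nonneg fun x => (Real.exp_pos _).le
  have hDv : ∀ v : ℝ, ∫ z : ℝ, Real.exp (-(1 * |v - z|)) = D := by
    intro v
    exact integral_sub_left_eq_self (fun x => Real.exp (-(1 * |x|))) volume v
  have hDi : ∀ v : ℝ, Integrable (fun z : ℝ => Real.exp (-(1 * |v - z|))) :=
    fun v => (int_exp_abs 1 one_pos).comp_sub_left v
  -- pointwise bound
  have hpt : ∀ v z : ℝ, ((z ≤ v ∧ v ≤ 0) ∨ (0 ≤ v ∧ v ≤ z)) →
      ‖cexp (ρ * v) * (cexp (-ρ * z) * g z)‖ ≤ 4 * C * W v * Real.exp (-(1 * |v - z|)) := by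
    intro v z h
    rw [norm_mul, norm_mul, norm_tw, norm_tw', one_mul, ← mul_assoc, ← Real.exp_add]
    have h1 : Real.exp (ρ.re * v + -ρ.re * z) ≤ Real.exp (2 * |v - z|) := by
      refine Real.exp_le_exp.2 ?_
      calc ρ.re * v + -ρ.re * z = ρ.re * (v - z) := by ring
        _ ≤ |ρ.re * (v - z)| := le_abs_self _
        _ = |ρ.re| * |v - z| := abs_mul _ _
        _ ≤ 2 * |v - z| := mul_le_mul_of_nonneg_right hβ (abs_nonneg _)
    calc Real.exp (ρ.re * v + -ρ.re * z) * ‖g z‖ ≤ Real.exp (2 * |v - z|) * (C * W z) :=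
          mul_le_mul h1 (hb z) (norm_nonneg _) (Real.exp_pos _).le
      _ = C * (W z * Real.exp (2 * |v - z|)) := by ring
      _ ≤ C * (4 * W v * Real.exp (-|v - z|)) := mul_le_mul_of_nonneg_left (W_dom v z h) hC
      _ = _ := by ring
  refine ⟨4 * C * D, by positivity, fun v => ?_⟩
  have hfin : ∀ S : Set ℝ, MeasurableSet S → (∀ z ∈ S, (z ≤ v ∧ v ≤ 0) ∨ (0 ≤ v ∧ v ≤ z)) →
      ‖cexp (ρ * v) * ∫ z in S, cexp (-ρ * z) * g z‖ ≤ 4 * C * D * W v := by
    intro S hS hcond
    rw [← integral_const_mul]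
    refine (norm_integral_le_of_norm_le (g := fun z => 4 * C * W v * Real.exp (-(1 * |v - z|)))
      ((hDi v).const_mul _).integrableOn ?_).trans ?_
    · exact (ae_restrict_iff' hS).2 (ae_of_all _ fun z hz => hpt v z (hcond z hz))
    · refine (setIntegral_le_integral ((hDi v).const_mul _) (ae_of_all _ fun z => ?_)).trans ?_
      · have := W_pos v
        show 0 ≤ 4 * C * W v * Real.exp (-(1 * |v - z|))
        positivity
      · rw [integral_const_mul, hDv]
        exact le_of_eq (by ring)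
  rcases le_total v 0 with hv | hv
  · exact hfin (Iic v) measurableSet_Iic fun z hz => Or.inl ⟨hz, hv⟩
  · have h1 := intervalIntegral.integral_Iic_add_Ioi (b := v) hi.integrableOn hi.integrableOn
    rw [h0] at h1
    have h2 : Ist ρ g v = -(cexp (ρ * v) * ∫ z in Ioi v, cexp (-ρ * z) * g z) := by
      unfold Ist
      rw [eq_neg_of_add_eq_zero_left h1]
      ring
    rw [h2, norm_neg]
    exact hfin (Ioi v) measurableSet_Ioi fun z hz => Or.inr ⟨hv, le_of_lt hz⟩

/-- the moment of the new kernel -/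
theorem Ist_moment {g : ℝ → ℂ} (hg : DK g) (ρ : ℂ) (hβ : |ρ.re| ≤ 1)
    (h0 : ∫ z : ℝ, cexp (-ρ * z) * g z = 0) (h1 : ∫ z : ℝ, (z : ℂ) * (cexp (-ρ * z) * g z) = 0) :
    ∫ z : ℝ, cexp (-ρ * z) * Ist ρ g z = 0 := by
  have hi := tw_int hg ρ (by linarith)
  have hcont : Continuous fun z : ℝ => cexp (-ρ * z) * g z := by
    have := hg.cont
    fun_prop
  set A : ℝ → ℂ := fun v : ℝ => ∫ z in Iic v, cexp (-ρ * z) * g z with hA
  have hA' : ∀ v : ℝ, HasDerivAt A (cexp (-ρ * v) * g v) v := prim_cont hcont fun v => hi.integrableOn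
  have hD := Ist_DK hg ρ (by linarith) h0
  have hAI : ∀ v : ℝ, cexp (-ρ * v) * Ist ρ g v = A v := by
    intro v
    unfold Ist
    rw [← mul_assoc, ← Complex.exp_add, show -ρ * (v : ℂ) + ρ * v = 0 by ring, Complex.exp_zero, one_mul]
  have hAint : Integrable A := by
    have := tw_int hD ρ (by linarith)
    refine this.congr (ae_of_all _ fun v => ?_)
    exact hAI v
  -- weighted integrability
  have hw : ∀ f : ℝ → ℂ, DK f → Integrable (fun z : ℝ => (z : ℂ) * (cexp (-ρ * z) * f z)) := by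
    intro f hf
    obtain ⟨C, hC, hb⟩ := hf.bd
    have hc := hf.cont
    refine (((int_exp_abs 1 one_pos).const_mul (4 * C))).mono' ?_ (ae_of_all _ fun z => ?_)
    · exact (by fun_prop : Continuous fun z : ℝ => (z : ℂ) * (cexp (-ρ * z) * f z)).aestronglyMeasurable
    · rw [norm_mul, norm_mul, norm_tw, one_mul, Complex.norm_real, Real.norm_eq_abs]
      have h1 : Real.exp (-ρ.re * z) ≤ Real.exp (|z|) := by
        refine Real.exp_le_exp.2 ?_
        calc -ρ.re * z ≤ |-ρ.re * z| := le_abs_self _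
          _ = |ρ.re| * |z| := by rw [abs_mul, abs_neg]
          _ ≤ 1 * |z| := mul_le_mul_of_nonneg_right hβ (abs_nonneg _)
          _ = |z| := one_mul _
      have h2 : |z| ≤ Real.exp |z| := by
        have := Real.add_one_le_exp |z|
        linarith
      calc |z| * (Real.exp (-ρ.re * z) * ‖f z‖) ≤ Real.exp |z| * (Real.exp |z| * (C * W z)) := by
            refine mul_le_mul h2 ?_ (by positivity) (Real.exp_pos _).le
            exact mul_le_mul h1 (hb z) (norm_nonneg _) (Real.exp_pos _).le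
        _ = C * (W z * Real.exp (2 * |z|)) := by
            rw [two_mul, Real.exp_add]; ring
        _ ≤ C * (4 * Real.exp (-|z|)) := mul_le_mul_of_nonneg_left (W_decay z) hC
        _ = _ := by ring
  have hzA : Integrable (fun z : ℝ => (z : ℂ) * A z) := by
    refine (hw _ hD).congr (ae_of_all _ fun v => ?_)
    show (v : ℂ) * (cexp (-ρ * v) * Ist ρ g v) = v * A v
    rw [hAI]
  have key := integral_mul_deriv_eq_deriv_mul_of_integrable (u := A) (u' := fun v : ℝ => cexp (-ρ * v) * g v)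
    (v := fun v : ℝ => (v : ℂ)) (v' := fun _ => 1) (fun v _ => hA' v)
    (fun v _ => (hasDerivAt_id v).ofReal_comp)
    (by
      refine hAint.congr (ae_of_all _ fun v => ?_)
      simp)
    (by
      refine (hw g hg).congr (ae_of_all _ fun v => ?_)
      simp only [Pi.mul_apply]
      ring)
    (by
      refine hzA.congr (ae_of_all _ fun v => ?_)
      simp only [Pi.mul_apply]
      ring)
  simp only [mul_one] at key
  rw [integral_congr_ae (ae_of_all _ hAI), key]
  have e : ∫ x : ℝ, cexp (-ρ * x) * g x * x = ∫ z : ℝ, (z : ℂ) * (cexp (-ρ * z) * g z) := by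
    refine integral_congr_ae (ae_of_all _ fun v => ?_)
    simp only
    ring
  rw [e, h1, neg_zero]

end

end H313.TK
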