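import Pool.Agent.H19.EW.TKD

/-!
# The transform of the building block does not vanish in the critical strip
-/

open Complex MeasureTheory Filter Topology Set Metric

set_option linter.unusedSectionVars false
set_option linter.unusedVariables false
set_option autoImplicit false

namespace H313.TK

noncomputable section

theorem e_deriv : ∀ x ∈ (univ : Set ℝ), HasDerivWithinAt (Real.exp ∘ Neg.neg) (-Real.exp (-x)) univ x :=
  fun x _ ↦ mul_neg_one (Real.exp (-x)) ▸
    ((Real.hasDerivAt_exp (-x)).comp x (hasDerivAt_neg x)).hasDerivWithinAt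

theorem e_image : Real.exp ∘ Neg.neg '' (univ : Set ℝ) = Ioi 0 := by
  rw [Set.image_comp, Set.image_univ_of_surjective neg_surjective, Set.image_univ, Real.range_exp]

theorem e_inj : (univ : Set ℝ).InjOn (Real.exp ∘ Neg.neg) :=
  Real.exp_injective.injOn.comp neg_injective.injOn (univ.mapsTo_univ _)

theorem e_cexp (x : ℝ) (s f : ℂ) :
    Real.exp (-x) • cexp (-↑x) ^ (s - 1) • f = cexp (-s * ↑x) • f := by
  rw [Complex.real_smul, smul_eq_mul, smul_eq_mul, ← mul_assoc, Complex.cpow_def_of_ne_zero (Complex.exp_ne_zero _),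
    Complex.log_exp (by simp [Real.pi_pos]) (by simpa using Real.pi_nonneg), Complex.ofReal_exp, ← Complex.exp_add]
  congr 2
  push_cast
  ring

theorem mellin_exp (f : ℝ → ℂ) (s : ℂ) : mellin f s = ∫ u : ℝ, cexp (-s * u) * f (Real.exp (-u)) := by
  rw [mellin, ← e_image, integral_image_eq_integral_abs_deriv_smul MeasurableSet.univ e_deriv e_inj]
  simp only [Function.comp_apply, abs_neg, Measure.restrict_univ]
  refine integral_congr_ae (ae_of_all _ fun x => ?_)
  simp only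
  rw [abs_of_pos (Real.exp_pos _)]
  have := e_cexp x s (f (Real.exp (-x)))
  simp only [smul_eq_mul] at this ⊢
  rw [← this]
  push_cast
  rfl

/-- a single Gaussian -/
theorem mellin_gauss (b : ℝ) (hb : 0 < b) (s : ℂ) (hs : 0 < s.re) :
    MellinConvergent (fun x : ℝ => (Real.exp (-b * x ^ 2) : ℂ)) s ∧
    mellin (fun x : ℝ => (Real.exp (-b * x ^ 2) : ℂ)) s = (1 / 2) * ((b : ℂ) ^ (-(s / 2)) * Complex.Gamma (s / 2)) := by
  have hs2 : 0 < (s / 2).re := by simpa using hs
  set H : ℝ → ℂ := fun y => (Real.exp (-y) : ℂ) with hH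
  have h1 : mellin H (s / 2) = Complex.Gamma (s / 2) := by
    rw [Complex.Gamma_eq_integral hs2, Complex.GammaIntegral_eq_mellin]
  have c1 : MellinConvergent H (s / 2) := by
    have := Complex.GammaIntegral_convergent hs2
    refine this.congr_fun (fun x hx => ?_) measurableSet_Ioi
    simp only [hH, smul_eq_mul]
    push_cast
    ring
  have e : (fun x : ℝ => (Real.exp (-b * x ^ 2) : ℂ)) = fun x : ℝ => (fun y : ℝ => H (b * y)) (x ^ (2:ℝ)) := by
    funext x
    simp only [hH]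
    congr 2
    rw [show (2:ℝ) = ((2 : ℕ) : ℝ) by norm_num, Real.rpow_natCast]
    ring
  have h2 : s / ((2:ℝ) : ℂ) = s / 2 := by norm_num
  constructor
  · rw [e]
    refine (MellinConvergent.comp_rpow (f := fun y : ℝ => H (b * y)) (s := s) (a := 2) (by norm_num)).2 ?_
    rw [h2]
    exact (MellinConvergent.comp_mul_left hb).2 c1
  · rw [e, mellin_comp_rpow (fun y : ℝ => H (b * y)) s 2, h2, mellin_comp_mul_left _ _ hb, h1]
    rw [abs_of_pos (by norm_num : (0:ℝ) < 2), Complex.real_smul, smul_eq_mul]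
    push_cast
    ring

theorem qh_formula (s : ℂ) (hs : 0 < s.re) : qh s = (1 / 2) * Complex.Gamma (s / 2) *
    (((Real.pi / 4 : ℝ) : ℂ) ^ (-(s / 2)) - 3 * ((Real.pi : ℝ) : ℂ) ^ (-(s / 2)) +
      2 * ((4 * Real.pi : ℝ) : ℂ) ^ (-(s / 2))) := by
  have hp := Real.pi_pos
  obtain ⟨c1, m1⟩ := mellin_gauss (Real.pi / 4) (by positivity) s hs
  obtain ⟨c2, m2⟩ := mellin_gauss Real.pi hp s hs
  obtain ⟨c3, m3⟩ := mellin_gauss (4 * Real.pi) (by positivity) s hs
  have e : qh s = mellin (fun x : ℝ => (P x : ℂ)) s := by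
    rw [mellin_exp]
    rfl
  have e2 : (fun x : ℝ => (P x : ℂ)) = fun x : ℝ => (((Real.exp (-(Real.pi / 4) * x ^ 2) : ℝ) : ℂ) -
      (3:ℂ) • ((Real.exp (-Real.pi * x ^ 2) : ℝ) : ℂ)) + (2:ℂ) • ((Real.exp (-(4 * Real.pi) * x ^ 2) : ℝ) : ℂ) := by
    funext x
    unfold P
    simp only [smul_eq_mul]
    push_cast
    ring
  have k2 := hasMellin_const_smul c2 (3:ℂ)
  have k3 := hasMellin_const_smul c3 (2:ℂ)
  have k12 := hasMellin_sub c1 k2.1
  have k := hasMellin_add k12.1 k3.1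
  rw [e, e2, k.2, k12.2, k2.2, k3.2, m1, m2, m3]
  simp only [smul_eq_mul]
  ring

theorem qh_ne (s : ℂ) (h0 : 0 < s.re) (h1 : s.re < 1) : qh s ≠ 0 := by
  have hp := Real.pi_pos
  rw [qh_formula s h0]
  have hG : Complex.Gamma (s / 2) ≠ 0 := Complex.Gamma_ne_zero_of_re_pos (by simpa using h0)
  set w : ℂ := -(s / 2) with hw
  have hwre : w.re = -(s.re / 2) := by rw [hw]; simp
  set X : ℂ := ((1 / 4 : ℝ) : ℂ) ^ w with hX
  set Y : ℂ := ((4 : ℝ) : ℂ) ^ w with hY
  set Z : ℂ := ((Real.pi : ℝ) : ℂ) ^ w with hZ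
  have hZ0 : Z ≠ 0 := by
    rw [hZ]
    rw [Ne, Complex.cpow_eq_zero_iff]
    push Not
    intro h
    rw [Complex.ofReal_eq_zero] at h
    exact absurd h hp.ne'
  have eX : ((Real.pi / 4 : ℝ) : ℂ) ^ w = X * Z := by
    rw [hX, hZ, ← Complex.mul_cpow_ofReal_nonneg (by norm_num) hp.le, ← Complex.ofReal_mul]
    congr 2
    ring
  have eY : ((4 * Real.pi : ℝ) : ℂ) ^ w = Y * Z := by
    rw [hY, hZ, ← Complex.mul_cpow_ofReal_nonneg (by norm_num) hp.le, ← Complex.ofReal_mul]
  have eXY : X * Y = 1 := by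
    rw [hX, hY, ← Complex.mul_cpow_ofReal_nonneg (by norm_num) (by norm_num), ← Complex.ofReal_mul]
    norm_num
  rw [eX, eY]
  have nX : ‖X‖ = (4:ℝ) ^ (s.re / 2) := by
    rw [hX, Complex.norm_cpow_eq_rpow_re_of_pos (by norm_num), hwre, one_div, Real.inv_rpow (by norm_num),
      Real.rpow_neg (by norm_num), inv_inv]
  have nX1 : 1 < ‖X‖ := by
    rw [nX]
    exact Real.one_lt_rpow (by norm_num) (by linarith)
  have nX2 : ‖X‖ < 2 := by
    rw [nX]
    calc (4:ℝ) ^ (s.re / 2) < (4:ℝ) ^ (1 / 2 : ℝ) := Real.rpow_lt_rpow_of_exponent_lt (by norm_num) (by linarith)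
      _ = 2 := by
        rw [← Real.sqrt_eq_rpow, show (4:ℝ) = 2 ^ 2 by norm_num]
        exact Real.sqrt_sq (by norm_num)
  intro h
  have h3 : X - 3 + 2 * Y = 0 := by
    rcases mul_eq_zero.1 h with h4 | h4
    · rcases mul_eq_zero.1 h4 with h5 | h5
      · norm_num at h5
      · exact absurd h5 hG
    · have h5 : (X - 3 + 2 * Y) * Z = 0 := by linear_combination h4
      exact (mul_eq_zero.1 h5).resolve_right hZ0
  have h4 : (X - 1) * (X - 2) = 0 := by linear_combination X * h3 - 2 * eXY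
  rcases mul_eq_zero.1 h4 with h5 | h5
  · rw [sub_eq_zero.1 h5] at nX1
    simp at nX1
  · rw [sub_eq_zero.1 h5] at nX2
    simp at nX2

end

end H313.TK
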