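import Pool.Agent.H19.EW.TKE

/-!
# Weighted Mertens sums: basic bounds and Möbius inversion
-/

open Complex MeasureTheory Filter Topology Set

set_option autoImplicit false
set_option linter.unusedSectionVars false
set_option linter.unusedVariables false

namespace H19.EW

noncomputable section

/-- weights bounded by `B min(1, u^{-4})` on the positive half line -/
structure Wt (w : ℝ → ℝ) : Prop where
  meas : Measurable w
  bd : ∃ B : ℝ, 0 ≤ B ∧ ∀ u : ℝ, 0 < u → |w u| ≤ B ∧ |w u| ≤ B / u ^ 4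

/-- the weighted Mertens sum -/
def S (w : ℝ → ℝ) (x : ℝ) : ℝ := ∑' n : ℕ, ((ArithmeticFunction.moebius n : ℤ) : ℝ) * w (n / x)

theorem mu_abs (n : ℕ) : |((ArithmeticFunction.moebius n : ℤ) : ℝ)| ≤ 1 := by
  rw [← Int.cast_abs]
  exact_mod_cast ArithmeticFunction.abs_moebius_le_one

/-- the majorant of a term -/
theorem term_le {w : ℝ → ℝ} {B : ℝ} (hB : 0 ≤ B) (hb : ∀ u : ℝ, 0 < u → |w u| ≤ B ∧ |w u| ≤ B / u ^ 4)
    {x : ℝ} (hx : 0 < x) (n : ℕ) :
    |((ArithmeticFunction.moebius n : ℤ) : ℝ) * w (n / x)| ≤ B * x ^ 4 * (1 / (n : ℝ) ^ 4) := by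
  rcases Nat.eq_zero_or_pos n with h | h
  · subst h; simp
  · have hn : (0:ℝ) < n := by exact_mod_cast h
    rw [abs_mul]
    have h1 := (hb (n / x) (by positivity)).2
    have h2 := mu_abs n
    calc |((ArithmeticFunction.moebius n : ℤ) : ℝ)| * |w (n / x)| ≤ 1 * (B / (n / x) ^ 4) :=
          mul_le_mul h2 h1 (abs_nonneg _) zero_le_one
      _ = _ := by field_simp

theorem sum4 : Summable (fun n : ℕ => 1 / (n : ℝ) ^ 4) := Real.summable_one_div_nat_pow.2 (by norm_num)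

theorem sum4_le : ∑' n : ℕ, 1 / (n : ℝ) ^ 4 ≤ 2 := by
  have h2 : Summable (fun n : ℕ => 1 / (n : ℝ) ^ 2) := Real.summable_one_div_nat_pow.2 (by norm_num)
  have h1 : ∑' n : ℕ, 1 / (n : ℝ) ^ 4 ≤ ∑' n : ℕ, 1 / (n : ℝ) ^ 2 := by
    refine sum4.tsum_le_tsum (fun n => ?_) h2
    rcases Nat.eq_zero_or_pos n with h | h
    · subst h; simp
    · have hn : (1:ℝ) ≤ n := by exact_mod_cast h
      refine one_div_le_one_div_of_le (by positivity) ?_
      exact pow_le_pow_right₀ hn (by norm_num)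
  refine h1.trans ?_
  have h3 := hasSum_zeta_two.tsum_eq
  rw [h3]
  have := Real.pi_lt_d2
  have := Real.pi_pos
  nlinarith

theorem term_sum {w : ℝ → ℝ} (hw : Wt w) {x : ℝ} (hx : 0 < x) :
    Summable (fun n : ℕ => ((ArithmeticFunction.moebius n : ℤ) : ℝ) * w (n / x)) := by
  obtain ⟨B, hB, hb⟩ := hw.bd
  exact Summable.of_norm_bounded (sum4.mul_left (B * x ^ 4)) fun n => by
    rw [Real.norm_eq_abs]; exact term_le hB hb hx n

theorem S_small {w : ℝ → ℝ} {B : ℝ} (hB : 0 ≤ B) (hb : ∀ u : ℝ, 0 < u → |w u| ≤ B ∧ |w u| ≤ B / u ^ 4)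
    {x : ℝ} (hx : 0 < x) : |S w x| ≤ 2 * B * x ^ 4 := by
  unfold S
  have h1 := tsum_of_norm_bounded (sum4.mul_left (B * x ^ 4)).hasSum (f := fun n : ℕ =>
    ((ArithmeticFunction.moebius n : ℤ) : ℝ) * w (n / x)) (fun n => by
      rw [Real.norm_eq_abs]; exact term_le hB hb hx n)
  rw [Real.norm_eq_abs, tsum_mul_left] at h1
  refine h1.trans ?_
  have h2 := sum4_le
  have h3 : 0 ≤ B * x ^ 4 := by positivity
  nlinarith

theorem S_large {w : ℝ → ℝ} {B : ℝ} (hB : 0 ≤ B) (hb : ∀ u : ℝ, 0 < u → |w u| ≤ B ∧ |w u| ≤ B / u ^ 4)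
    {x : ℝ} (hx : 1 ≤ x) : |S w x| ≤ 4 * B * x := by
  have hx0 : 0 < x := by linarith
  set N := ⌊x⌋₊ with hN
  have hN1 : 1 ≤ N := Nat.le_floor (by simpa using hx)
  have hN1r : (1:ℝ) ≤ N := by exact_mod_cast hN1
  have hNx : (N : ℝ) ≤ x := Nat.floor_le hx0.le
  have hxN : x < N + 1 := Nat.lt_floor_add_one x
  set f : ℕ → ℝ := fun n => |((ArithmeticFunction.moebius n : ℤ) : ℝ) * w (n / x)| with hf
  have hf0 : ∀ n, 0 ≤ f n := fun n => abs_nonneg _
  have hfs : Summable f := Summable.of_nonneg_of_le hf0 (fun n => term_le hB hb hx0 n) (sum4.mul_left (B * x ^ 4))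
  have h1 : |S w x| ≤ ∑' n, f n := by
    unfold S
    have := norm_tsum_le_tsum_norm (f := fun n : ℕ => ((ArithmeticFunction.moebius n : ℤ) : ℝ) * w (n / x))
      (by simpa only [Real.norm_eq_abs] using hfs)
    simpa only [Real.norm_eq_abs] using this
  refine h1.trans ?_
  refine hfs.tsum_le_of_sum_range_le fun K => ?_
  have hsub : Finset.range K ⊆ Finset.range (N + 1) ∪ Finset.Ioc N (max N K) := by
    intro k hk
    rw [Finset.mem_range] at hk
    rw [Finset.mem_union, Finset.mem_range, Finset.mem_Ioc]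
    rcases lt_or_ge k (N + 1) with h | h
    · exact Or.inl h
    · exact Or.inr ⟨by omega, le_max_of_le_right (by omega)⟩
  refine (Finset.sum_le_sum_of_subset_of_nonneg hsub fun n _ _ => hf0 n).trans ?_
  rw [Finset.sum_union (by
    rw [Finset.disjoint_left]
    intro k hk hk2
    rw [Finset.mem_range] at hk
    rw [Finset.mem_Ioc] at hk2
    omega)]
  have e1 : ∑ n ∈ Finset.range (N + 1), f n ≤ B * N := by
    rw [Finset.sum_range_succ']
    have h0 : f 0 = 0 := by simp [hf]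
    rw [h0, add_zero]
    have h2 : ∀ n ∈ Finset.range N, f (n + 1) ≤ B := by
      intro n _
      simp only [hf]
      rw [abs_mul]
      have h3 := (hb (((n + 1 : ℕ) : ℝ) / x) (by positivity)).1
      have h4 := mu_abs (n + 1)
      calc _ ≤ 1 * B := mul_le_mul h4 h3 (abs_nonneg _) zero_le_one
        _ = B := one_mul B
    refine (Finset.sum_le_sum h2).trans ?_
    simp
    linarith
  have e2 : ∑ n ∈ Finset.Ioc N (max N K), f n ≤ B * x ^ 2 * ((N : ℝ)⁻¹) := by
    have h2 : ∀ n ∈ Finset.Ioc N (max N K), f n ≤ B * x ^ 2 * (((n : ℝ) ^ 2)⁻¹) := by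
      intro n hn
      rw [Finset.mem_Ioc] at hn
      have hn1 : (N : ℝ) + 1 ≤ n := by exact_mod_cast hn.1
      have hn0 : (0:ℝ) < n := by linarith
      refine (term_le hB hb hx0 n).trans ?_
      have h3 : x ^ 4 * (1 / (n : ℝ) ^ 4) ≤ x ^ 2 * (((n : ℝ) ^ 2)⁻¹) := by
        have h4 : x ^ 4 * (1 / (n : ℝ) ^ 4) = (x ^ 2 * (((n : ℝ) ^ 2)⁻¹)) * (x / n) ^ 2 := by
          field_simp
        rw [h4]
        refine mul_le_of_le_one_right (by positivity) ?_
        refine pow_le_one₀ (by positivity) ?_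
        rw [div_le_one hn0]
        linarith
      calc B * x ^ 4 * (1 / (n : ℝ) ^ 4) = B * (x ^ 4 * (1 / (n : ℝ) ^ 4)) := by ring
        _ ≤ B * (x ^ 2 * (((n : ℝ) ^ 2)⁻¹)) := mul_le_mul_of_nonneg_left h3 hB
        _ = _ := by ring
    refine (Finset.sum_le_sum h2).trans ?_
    rw [← Finset.mul_sum]
    refine mul_le_mul_of_nonneg_left ?_ (by positivity)
    refine (sum_Ioc_inv_sq_le_sub (by omega) (le_max_left _ _)).trans ?_
    have : (0:ℝ) ≤ ((max N K : ℕ) : ℝ)⁻¹ := by positivity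
    linarith
  have e3 : x ^ 2 * ((N : ℝ)⁻¹) ≤ 2 * x := by
    rw [← div_eq_mul_inv, div_le_iff₀ (by linarith)]
    nlinarith
  have e4 : B * x ^ 2 * ((N : ℝ)⁻¹) ≤ B * (2 * x) := by
    rw [mul_assoc]
    exact mul_le_mul_of_nonneg_left e3 hB
  have e5 : B * (N : ℝ) ≤ B * x := mul_le_mul_of_nonneg_left hNx hB
  have e6 : 0 ≤ B * x := by positivity
  linarith

/-- Möbius inversion -/
theorem S_hasSum {w : ℝ → ℝ} (hw : Wt w) {x : ℝ} (hx : 0 < x) :
    HasSum (fun m : ℕ => S w (x / ((m : ℝ) + 1))) (w (1 / x)) := by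
  obtain ⟨B, hB, hb⟩ := hw.bd
  -- the double family
  set F : ℕ+ × ℕ+ → ℝ := fun p => ((ArithmeticFunction.moebius (p.2 : ℕ) : ℤ) : ℝ) * w (((p.1 : ℕ) * (p.2 : ℕ) : ℝ) / x)
    with hF
  have hs4 : Summable (fun n : ℕ+ => 1 / ((n : ℕ) : ℝ) ^ 4) := by
    have := sum4.comp_injective PNat.coe_injective
    exact this
  have hFb : ∀ p, ‖F p‖ ≤ B * x ^ 4 * ((1 / ((p.1 : ℕ) : ℝ) ^ 4) * (1 / ((p.2 : ℕ) : ℝ) ^ 4)) := by
    intro p
    have h1 : (0:ℝ) < ((p.1 : ℕ) : ℝ) := by exact_mod_cast p.1.pos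
    have h2 : (0:ℝ) < ((p.2 : ℕ) : ℝ) := by exact_mod_cast p.2.pos
    simp only [hF]
    rw [Real.norm_eq_abs, abs_mul]
    have h3 := (hb ((((p.1 : ℕ) * (p.2 : ℕ) : ℝ)) / x) (by positivity)).2
    calc _ ≤ 1 * (B / ((((p.1 : ℕ) * (p.2 : ℕ) : ℝ)) / x) ^ 4) := mul_le_mul (mu_abs _) h3 (abs_nonneg _) zero_le_one
      _ = _ := by field_simp
  have hmaj : Summable (fun p : ℕ+ × ℕ+ => (1 / ((p.1 : ℕ) : ℝ) ^ 4) * (1 / ((p.2 : ℕ) : ℝ) ^ 4)) :=
    hs4.mul_of_nonneg hs4 (fun n => by positivity) (fun n => by positivity)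
  have hFs : Summable F := Summable.of_norm_bounded (hmaj.mul_left (B * x ^ 4)) hFb
  -- summation over the second variable
  have hfib : ∀ m : ℕ+, HasSum (fun n : ℕ+ => F (m, n)) (S w (x / ((m : ℕ) : ℝ))) := by
    intro m
    have hm : (0:ℝ) < ((m : ℕ) : ℝ) := by exact_mod_cast m.pos
    have h1 := (term_sum hw (x := x / ((m : ℕ) : ℝ)) (by positivity)).hasSum
    have h2 : HasSum (fun n : ℕ+ => ((ArithmeticFunction.moebius (n : ℕ) : ℤ) : ℝ) * w (((n : ℕ) : ℝ) / (x / ((m : ℕ) : ℝ))))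
        (S w (x / ((m : ℕ) : ℝ))) := by
      have h3 : Function.support (fun n : ℕ => ((ArithmeticFunction.moebius n : ℤ) : ℝ) * w (n / (x / ((m : ℕ) : ℝ)))) ⊆
          Set.range (fun n : ℕ+ => (n : ℕ)) := by
        intro n hn
        rcases Nat.eq_zero_or_pos n with h | h
        · subst h; simp at hn
        · exact ⟨⟨n, h⟩, rfl⟩
      exact (Function.Injective.hasSum_iff PNat.coe_injective (fun n hn => by
        by_contra h
        exact hn (h3 h))).2 h1
    have h4 : (fun n : ℕ+ => F (m, n)) = fun n : ℕ+ => ((ArithmeticFunction.moebius (n : ℕ) : ℤ) : ℝ) *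
        w (((n : ℕ) : ℝ) / (x / ((m : ℕ) : ℝ))) := by
      funext n
      simp only [hF]
      congr 2
      field_simp
    rw [h4]
    exact h2
  have h1 : HasSum (fun m : ℕ+ => S w (x / ((m : ℕ) : ℝ))) (∑' p, F p) := hFs.hasSum.prod_fiberwise hfib
  -- summation over divisors
  have h2 : ∑' p, F p = w (1 / x) := by
    have e1 : ∑' p, F p = ∑' c, F (sigmaAntidiagonalEquivProd c) := (sigmaAntidiagonalEquivProd.tsum_eq F).symm
    have hs' : Summable (fun c => F (sigmaAntidiagonalEquivProd c)) := sigmaAntidiagonalEquivProd.summable_iff.2 hFs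
    have e2 : ∀ k : ℕ+, ∑' c : Nat.divisorsAntidiagonal (k : ℕ), F (sigmaAntidiagonalEquivProd ⟨k, c⟩) =
        if k = 1 then w (1 / x) else 0 := by
      intro k
      have e3 : ∀ c : Nat.divisorsAntidiagonal (k : ℕ), F (sigmaAntidiagonalEquivProd ⟨k, c⟩) =
          ((ArithmeticFunction.moebius (c : ℕ × ℕ).2 : ℤ) : ℝ) * w (((k : ℕ) : ℝ) / x) := by
        intro c
        have h3 := (Nat.mem_divisorsAntidiagonal.1 c.2).1
        have h4 : ((((c : ℕ × ℕ).1 * (c : ℕ × ℕ).2 : ℕ)) : ℝ) = ((k : ℕ) : ℝ) := by rw [h3]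
        show ((ArithmeticFunction.moebius (c : ℕ × ℕ).2 : ℤ) : ℝ) *
          w (((((c : ℕ × ℕ).1 : ℕ) : ℝ) * (((c : ℕ × ℕ).2 : ℕ) : ℝ)) / x) = _
        rw [← h4]
        push_cast
        rfl
      simp_rw [e3]
      rw [tsum_mul_right, tsum_fintype]
      have e4 : ∑ c : Nat.divisorsAntidiagonal (k : ℕ), ((ArithmeticFunction.moebius (c : ℕ × ℕ).2 : ℤ) : ℝ) =
          ∑ p ∈ Nat.divisorsAntidiagonal (k : ℕ), ((ArithmeticFunction.moebius p.2 : ℤ) : ℝ) :=
        Finset.sum_coe_sort (Nat.divisorsAntidiagonal (k : ℕ)) (fun p => ((ArithmeticFunction.moebius p.2 : ℤ) : ℝ))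
      have e5 : ∑ p ∈ Nat.divisorsAntidiagonal (k : ℕ), ((ArithmeticFunction.moebius p.2 : ℤ) : ℝ) =
          if k = 1 then 1 else 0 := by
        have h5 := congrArg (fun f : ArithmeticFunction ℤ => f (k : ℕ)) ArithmeticFunction.coe_zeta_mul_moebius
        simp only [ArithmeticFunction.mul_apply] at h5
        have h6 : ∑ p ∈ Nat.divisorsAntidiagonal (k : ℕ), (ArithmeticFunction.moebius p.2 : ℤ) =
            (1 : ArithmeticFunction ℤ) (k : ℕ) := by
          rw [← h5]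
          refine Finset.sum_congr rfl fun p hp => ?_
          have h7 : p.1 ≠ 0 := by
            rintro h
            have := (Nat.mem_divisorsAntidiagonal.1 hp)
            rw [h, zero_mul] at this
            exact this.2 this.1.symm
          rw [ArithmeticFunction.natCoe_apply, ArithmeticFunction.zeta_apply, if_neg h7]
          simp
        have h8 := congrArg (fun z : ℤ => (z : ℝ)) h6
        simp only [Int.cast_sum] at h8
        rw [h8, ArithmeticFunction.one_apply]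
        by_cases hk : k = 1
        · subst hk; simp
        · rw [if_neg hk, if_neg (by
            intro h
            exact hk (PNat.coe_injective h))]
          simp
      rw [e4, e5]
      by_cases hk : k = 1
      · subst hk; simp
      · rw [if_neg hk, if_neg hk, zero_mul]
    rw [e1, hs'.tsum_sigma]
    simp_rw [e2]
    exact tsum_ite_eq 1 _
  rw [h2] at h1
  have h3 := (Equiv.pnatEquivNat.symm.hasSum_iff).2 h1
  have h4 : (fun m : ℕ => S w (x / ((m : ℝ) + 1))) = (fun m : ℕ+ => S w (x / ((m : ℕ) : ℝ))) ∘ Equiv.pnatEquivNat.symm := by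
    funext n
    simp [Function.comp]
  rw [h4]
  exact h3

end

end H19.EW
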