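import Pool.Agent.H19.EW.W1

/-!
# The kernel identity for general weights
-/

open Complex MeasureTheory Filter Topology Set

set_option autoImplicit false
set_option linter.unusedSectionVars false
set_option linter.unusedVariables false

namespace H19.EW

open H313.TK

noncomputable section

/-- continuous functions that are `O(e^{2z})` on the whole line -/
structure QG (g : ℝ → ℂ) : Prop where
  cont : Continuous g
  bd : ∃ C : ℝ, 0 ≤ C ∧ ∀ z, ‖g z‖ ≤ C * Real.exp (2 * z)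

theorem QG.qq {g : ℝ → ℂ} (hg : QG g) : QQ g := by
  obtain ⟨C, hC, hb⟩ := hg.bd
  exact ⟨hg.cont, fun T => ⟨C, hC, fun z _ => hb z⟩⟩

/-- the building block, complex valued -/
def qc (v : ℝ) : ℂ := (qq v : ℂ)

/-- the kernel, complex valued -/
def kc (v : ℝ) : ℂ := (kp v : ℂ)

theorem kc_DK : DK kc := kp_DK

theorem kc_eq : kc = Sg qc := funext kp_hasSum

theorem qc_QG : QG qc := by
  refine ⟨Complex.continuous_ofReal.comp qq_cont, 48, by norm_num, fun z => ?_⟩
  refine (qq_bd z).trans (mul_le_mul_of_nonneg_left (Real.exp_le_exp.2 ?_) (by norm_num))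
  have := neg_abs_le z
  linarith

theorem Ist_QG {g : ℝ → ℂ} (hg : QG g) (ρ : ℂ) (hρ : ρ.re < 2) : QG (Ist ρ g) := by
  obtain ⟨C, hC, hb⟩ := hg.bd
  refine ⟨Ist_cont hg.cont (hg.qq.int ρ hρ), ?_⟩
  have h2 : 0 < 2 - ρ.re := by linarith
  refine ⟨C / (2 - ρ.re), by positivity, fun v => ?_⟩
  unfold Ist
  rw [norm_mul, norm_tw']
  have h1 : ‖∫ z in Iic v, cexp (-ρ * z) * g z‖ ≤ ∫ z in Iic v, C * Real.exp ((2 - ρ.re) * z) := by
    refine norm_integral_le_of_norm_le ((integrableOn_exp_mul_Iic h2 v).const_mul C) ?_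
    refine (ae_restrict_iff' measurableSet_Iic).2 (ae_of_all _ fun z hz => ?_)
    rw [norm_mul, norm_tw]
    calc Real.exp (-ρ.re * z) * ‖g z‖ ≤ Real.exp (-ρ.re * z) * (C * Real.exp (2 * z)) :=
          mul_le_mul_of_nonneg_left (hb z) (Real.exp_pos _).le
      _ = C * (Real.exp (-ρ.re * z) * Real.exp (2 * z)) := by ring
      _ = _ := by rw [← Real.exp_add]; congr 2; ring
  rw [integral_const_mul, integral_exp_mul_Iic h2] at h1
  calc Real.exp (ρ.re * v) * ‖∫ z in Iic v, cexp (-ρ * z) * g z‖ ≤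
        Real.exp (ρ.re * v) * (C * (Real.exp ((2 - ρ.re) * v) / (2 - ρ.re))) :=
        mul_le_mul_of_nonneg_left h1 (Real.exp_pos _).le
    _ = C / (2 - ρ.re) * (Real.exp (ρ.re * v) * Real.exp ((2 - ρ.re) * v)) := by ring
    _ = _ := by rw [← Real.exp_add]; congr 2; ring

/-- the weighted sum on the exponential scale -/
def AA (w : ℝ → ℝ) (u : ℝ) : ℝ := S w (Real.exp u)

theorem AA_meas {w : ℝ → ℝ} (hw : Wt w) : Measurable (AA w) := by
  have hm := hw.meas
  refine measurable_of_tendsto_metrizable (f := fun N : ℕ => fun u : ℝ =>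
    ∑ n ∈ Finset.range N, ((ArithmeticFunction.moebius n : ℤ) : ℝ) * w (n / Real.exp u)) ?_ ?_
  · intro N
    refine Finset.measurable_sum _ fun n _ => ?_
    fun_prop
  · rw [tendsto_pi_nhds]
    intro u
    exact (term_sum hw (Real.exp_pos u)).hasSum.tendsto_sum_nat

theorem AA_bd {w : ℝ → ℝ} {B : ℝ} (hB : 0 ≤ B) (hb : ∀ u : ℝ, 0 < u → |w u| ≤ B ∧ |w u| ≤ B / u ^ 4) (u : ℝ) :
    |AA w u| ≤ 4 * B * Real.exp u ∧ |AA w u| ≤ 4 * B * Real.exp (4 * u) := by
  unfold AA
  have hx := Real.exp_pos u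
  have e4 : Real.exp (4 * u) = Real.exp u ^ 4 := by
    rw [← Real.exp_nat_mul]; norm_num
  have h1 := S_small hB hb hx
  rw [e4]
  rcases le_total 1 (Real.exp u) with h | h
  · have h2 := S_large hB hb h
    refine ⟨h2, h1.trans ?_⟩
    have : 0 ≤ B * Real.exp u ^ 4 := by positivity
    nlinarith
  · refine ⟨h1.trans ?_, h1.trans ?_⟩
    · have h3 : Real.exp u ^ 4 ≤ Real.exp u := by
        calc Real.exp u ^ 4 ≤ Real.exp u ^ 1 := pow_le_pow_of_le_one hx.le h (by norm_num)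
          _ = _ := pow_one _
      have h4 : 0 ≤ B * Real.exp u := by positivity
      nlinarith [mul_le_mul_of_nonneg_left h3 hB]
    · have : 0 ≤ B * Real.exp u ^ 4 := by positivity
      nlinarith

/-- convolution with the weight -/
def CV (w : ℝ → ℝ) (g : ℝ → ℂ) (t : ℝ) : ℂ := ∫ z : ℝ, (w (Real.exp (z - t)) : ℂ) * g z

/-- **The Möbius identity for general weights.** -/
theorem moebG {w : ℝ → ℝ} (hw : Wt w) {g : ℝ → ℂ} (hg : QG g) (t : ℝ) :
    ∫ v : ℝ, (AA w (t - v) : ℂ) * Sg g v = CV w g t := by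
  obtain ⟨B, hB, hwb⟩ := hw.bd
  obtain ⟨C, hC, hb⟩ := hg.bd
  have hc := hg.cont
  have hm := AA_meas hw
  have hwm := hw.meas
  set K : ℝ := 4 * B * C * (Real.exp t + Real.exp (4 * t)) with hK
  have hK0 : 0 ≤ K := by positivity
  set F : ℕ → ℝ → ℂ := fun n v => (AA w (t - v) : ℂ) * g (v - Real.log ((n : ℝ) + 1)) with hF
  have hFb : ∀ n : ℕ, ∀ v : ℝ, ‖F n v‖ ≤ K * (1 / ((n : ℝ) + 1) ^ 2) * Real.exp (-(1 * |v|)) := by
    intro n v
    simp only [hF]
    rw [norm_mul, Complex.norm_real, Real.norm_eq_abs]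
    have h1 := hb (v - Real.log ((n : ℝ) + 1))
    rw [exp_shift2] at h1
    obtain ⟨h2, h3⟩ := AA_bd hB hwb (t - v)
    have h4 : |AA w (t - v)| * Real.exp (2 * v) ≤ 4 * B * (Real.exp t + Real.exp (4 * t)) * Real.exp (-(1 * |v|)) := by
      rcases le_total 0 v with hv | hv
      · have h5 : |AA w (t - v)| * Real.exp (2 * v) ≤ 4 * B * Real.exp (4 * (t - v)) * Real.exp (2 * v) :=
          mul_le_mul_of_nonneg_right h3 (Real.exp_pos _).le
        have h6 : Real.exp (4 * (t - v)) * Real.exp (2 * v) ≤ Real.exp (4 * t) * Real.exp (-(1 * |v|)) := by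
          rw [← Real.exp_add, ← Real.exp_add, abs_of_nonneg hv]
          exact Real.exp_le_exp.2 (by linarith)
        have h7 : Real.exp (4 * t) * Real.exp (-(1 * |v|)) ≤ (Real.exp t + Real.exp (4 * t)) * Real.exp (-(1 * |v|)) :=
          mul_le_mul_of_nonneg_right (by linarith [Real.exp_pos t]) (Real.exp_pos _).le
        calc _ ≤ 4 * B * (Real.exp (4 * (t - v)) * Real.exp (2 * v)) := by rw [← mul_assoc]; exact h5
          _ ≤ 4 * B * ((Real.exp t + Real.exp (4 * t)) * Real.exp (-(1 * |v|))) :=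
              mul_le_mul_of_nonneg_left (h6.trans h7) (by positivity)
          _ = _ := by ring
      · have h5 : |AA w (t - v)| * Real.exp (2 * v) ≤ 4 * B * Real.exp (t - v) * Real.exp (2 * v) :=
          mul_le_mul_of_nonneg_right h2 (Real.exp_pos _).le
        have h6 : Real.exp (t - v) * Real.exp (2 * v) ≤ Real.exp t * Real.exp (-(1 * |v|)) := by
          rw [← Real.exp_add, ← Real.exp_add, abs_of_nonpos hv]
          exact Real.exp_le_exp.2 (by linarith)
        have h7 : Real.exp t * Real.exp (-(1 * |v|)) ≤ (Real.exp t + Real.exp (4 * t)) * Real.exp (-(1 * |v|)) :=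
          mul_le_mul_of_nonneg_right (by linarith [Real.exp_pos (4 * t)]) (Real.exp_pos _).le
        calc _ ≤ 4 * B * (Real.exp (t - v) * Real.exp (2 * v)) := by rw [← mul_assoc]; exact h5
          _ ≤ 4 * B * ((Real.exp t + Real.exp (4 * t)) * Real.exp (-(1 * |v|))) :=
              mul_le_mul_of_nonneg_left (h6.trans h7) (by positivity)
          _ = _ := by ring
    calc |AA w (t - v)| * ‖g (v - Real.log ((n : ℝ) + 1))‖ ≤
          |AA w (t - v)| * (C * (Real.exp (2 * v) * (1 / ((n : ℝ) + 1) ^ 2))) :=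
          mul_le_mul_of_nonneg_left h1 (abs_nonneg _)
      _ = C * (1 / ((n : ℝ) + 1) ^ 2) * (|AA w (t - v)| * Real.exp (2 * v)) := by ring
      _ ≤ C * (1 / ((n : ℝ) + 1) ^ 2) * (4 * B * (Real.exp t + Real.exp (4 * t)) * Real.exp (-(1 * |v|))) :=
          mul_le_mul_of_nonneg_left h4 (by positivity)
      _ = _ := by rw [hK]; ring
  have hFm : ∀ n, AEStronglyMeasurable (F n) volume := fun n => by
    simp only [hF]
    exact (by fun_prop : Measurable fun v => (AA w (t - v) : ℂ) * g (v - Real.log ((n : ℝ) + 1))).aestronglyMeasurable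
  have hdom : ∀ n : ℕ, Integrable (fun v : ℝ => K * (1 / ((n : ℝ) + 1) ^ 2) * Real.exp (-(1 * |v|))) := by
    intro n
    exact (int_exp_abs 1 one_pos).const_mul _
  have hFi : ∀ n, Integrable (F n) := fun n => (hdom n).mono' (hFm n) (ae_of_all _ (hFb n))
  have hFs : Summable (fun n => ∫ z, ‖F n z‖) := by
    refine Summable.of_nonneg_of_le (fun n => integral_nonneg fun z => norm_nonneg _) (fun n => ?_)
      (sum_sq.mul_left (K * ∫ v : ℝ, Real.exp (-(1 * |v|))))
    have h1 := integral_mono (hFi n).norm (hdom n) (hFb n)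
    rw [integral_const_mul] at h1
    refine h1.trans (le_of_eq ?_)
    ring
  have key := hasSum_integral_of_summable_integral_norm hFi hFs
  have e1 : ∫ v, ∑' n, F n v = ∫ v : ℝ, (AA w (t - v) : ℂ) * Sg g v := by
    refine integral_congr_ae (ae_of_all _ fun z => ?_)
    simp only [hF, Sg]
    exact tsum_mul_left
  rw [e1] at key
  -- the translates
  set F' : ℕ → ℝ → ℂ := fun n z => (AA w (t - z - Real.log ((n : ℝ) + 1)) : ℂ) * g z with hF'
  have hsh : ∀ n, F' n = fun z => F n (z + Real.log ((n : ℝ) + 1)) := by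
    intro n
    funext z
    simp only [hF, hF']
    congr 2
    · congr 1
      ring
    · ring
  have hFi' : ∀ n, Integrable (F' n) := fun n => by
    rw [hsh]
    exact (hFi n).comp_add_right _
  have hI' : ∀ n, ∫ z, F' n z = ∫ z, F n z := by
    intro n
    rw [hsh]
    exact integral_add_right_eq_self (F n) _
  have hIn' : ∀ n, ∫ z, ‖F' n z‖ = ∫ z, ‖F n z‖ := by
    intro n
    rw [hsh]
    exact integral_add_right_eq_self (fun z => ‖F n z‖) _
  have key' := hasSum_integral_of_summable_integral_norm hFi' (by simpa only [hIn'] using hFs)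
  simp only [hI'] at key'
  rw [key.unique key']
  unfold CV
  refine integral_congr_ae (ae_of_all _ fun z => ?_)
  simp only [hF']
  have h5 := S_hasSum hw (Real.exp_pos (t - z))
  have h6 : ∀ n : ℕ, AA w (t - z - Real.log ((n : ℝ) + 1)) = S w (Real.exp (t - z) / ((n : ℝ) + 1)) := by
    intro n
    unfold AA
    rw [Real.exp_sub, Real.exp_log (by positivity)]
  simp_rw [h6]
  rw [tsum_mul_right, ← Complex.ofReal_tsum, h5.tsum_eq]
  congr 3
  rw [one_div, ← Real.exp_neg]
  congr 1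
  ring

/-- the majorant `B e^{-2|y|}` -/
theorem w_exp {w : ℝ → ℝ} {B : ℝ} (hB : 0 ≤ B) (hwb : ∀ u : ℝ, 0 < u → |w u| ≤ B ∧ |w u| ≤ B / u ^ 4) (y : ℝ) :
    |w (Real.exp (-y))| ≤ B ∧ |w (Real.exp (-y))| ≤ B * Real.exp (4 * y) := by
  obtain ⟨h1, h2⟩ := hwb (Real.exp (-y)) (Real.exp_pos _)
  refine ⟨h1, h2.trans (le_of_eq ?_)⟩
  rw [div_eq_mul_inv, ← Real.exp_nat_mul, ← Real.exp_neg]
  congr 2
  push_cast
  ring

theorem CV_eq (w : ℝ → ℝ) (g : ℝ → ℂ) (t : ℝ) : CV w g t = ∫ y : ℝ, (w (Real.exp (-y)) : ℂ) * g (t - y) := by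
  unfold CV
  have h := integral_sub_left_eq_self (fun y : ℝ => (w (Real.exp (-y)) : ℂ) * g (t - y)) volume t
  rw [← h]
  refine integral_congr_ae (ae_of_all _ fun z => ?_)
  simp only
  congr 3
  · congr 1; ring
  · ring

theorem cv_bd {w : ℝ → ℝ} {B : ℝ} (hB : 0 ≤ B) (hwb : ∀ u : ℝ, 0 < u → |w u| ≤ B ∧ |w u| ≤ B / u ^ 4) {g : ℝ → ℂ}
    {C : ℝ} (hC : 0 ≤ C) (hb : ∀ z, ‖g z‖ ≤ C * Real.exp (2 * z)) (t y : ℝ) :
    ‖(w (Real.exp (-y)) : ℂ) * g (t - y)‖ ≤ B * C * Real.exp (2 * t) * Real.exp (-(2 * |y|)) := by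
  rw [norm_mul, Complex.norm_real, Real.norm_eq_abs]
  have h1 := hb (t - y)
  obtain ⟨h2, h3⟩ := w_exp hB hwb y
  have h4 : |w (Real.exp (-y))| ≤ B * (Real.exp (2 * y) * Real.exp (-(2 * |y|))) := by
    rcases le_total 0 y with hy | hy
    · rw [abs_of_nonneg hy, ← Real.exp_add, show 2 * y + -(2 * y) = 0 by ring, Real.exp_zero, mul_one]
      exact h2
    · rw [abs_of_nonpos hy, ← Real.exp_add, show 2 * y + -(2 * -y) = 4 * y by ring]
      exact h3
  calc |w (Real.exp (-y))| * ‖g (t - y)‖ ≤ (B * (Real.exp (2 * y) * Real.exp (-(2 * |y|)))) * (C * Real.exp (2 * (t - y))) :=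
        mul_le_mul h4 h1 (norm_nonneg _) (by positivity)
    _ = B * C * (Real.exp (2 * y) * Real.exp (2 * (t - y))) * Real.exp (-(2 * |y|)) := by ring
    _ = _ := by rw [← Real.exp_add]; congr 3; ring

theorem CV_QG {w : ℝ → ℝ} (hw : Wt w) {g : ℝ → ℂ} (hg : QG g) : QG (CV w g) := by
  obtain ⟨B, hB, hwb⟩ := hw.bd
  obtain ⟨C, hC, hb⟩ := hg.bd
  have hc := hg.cont
  have hwm := hw.meas
  have hfun : CV w g = fun t => ∫ y : ℝ, (w (Real.exp (-y)) : ℂ) * g (t - y) := funext fun t => CV_eq w g t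
  refine ⟨?_, B * C * ∫ y : ℝ, Real.exp (-(2 * |y|)), ?_, fun t => ?_⟩
  · rw [hfun, continuous_iff_continuousAt]
    intro t
    refine continuousAt_of_dominated (bound := fun y : ℝ => B * C * Real.exp (2 * (t + 1)) * Real.exp (-(2 * |y|))) ?_ ?_ ?_ ?_
    · refine Eventually.of_forall fun x => ?_
      exact (by fun_prop : Measurable fun y => (w (Real.exp (-y)) : ℂ) * g (x - y)).aestronglyMeasurable
    · have h1 : ∀ᶠ x in 𝓝 t, x < t + 1 := Iio_mem_nhds (by linarith)
      filter_upwards [h1] with x hx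
      refine ae_of_all _ fun y => (cv_bd hB hwb hC hb x y).trans ?_
      refine mul_le_mul_of_nonneg_right ?_ (Real.exp_pos _).le
      refine mul_le_mul_of_nonneg_left (Real.exp_le_exp.2 (by linarith)) (by positivity)
    · exact (int_exp_abs 2 (by norm_num)).const_mul _
    · refine ae_of_all _ fun y => ?_
      exact (by fun_prop : Continuous fun x => (w (Real.exp (-y)) : ℂ) * g (x - y)).continuousAt
  · have : 0 ≤ ∫ y : ℝ, Real.exp (-(2 * |y|)) := integral_nonneg fun y => (Real.exp_pos _).le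
    positivity
  · rw [CV_eq]
    refine (norm_integral_le_of_norm_le ((int_exp_abs 2 (by norm_num)).const_mul _)
      (ae_of_all _ (cv_bd hB hwb hC hb t))).trans (le_of_eq ?_)
    rw [integral_const_mul]
    ring

theorem CV_bdd {w : ℝ → ℝ} (hw : Wt w) {g : ℝ → ℂ} (hi : Integrable g) : ∃ C : ℝ, 0 ≤ C ∧ ∀ t, ‖CV w g t‖ ≤ C := by
  obtain ⟨B, hB, hwb⟩ := hw.bd
  refine ⟨B * ∫ z, ‖g z‖, by positivity, fun t => ?_⟩
  unfold CV
  refine (norm_integral_le_of_norm_le (hi.norm.const_mul B) (ae_of_all _ fun z => ?_)).trans (le_of_eq ?_)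
  · rw [norm_mul, Complex.norm_real, Real.norm_eq_abs]
    exact mul_le_mul_of_nonneg_right (hwb _ (Real.exp_pos _)).1 (norm_nonneg _)
  · rw [integral_const_mul]

theorem Ist_eq (ρ : ℂ) (g : ℝ → ℂ) (v : ℝ) : Ist ρ g v = ∫ x in Ioi (0:ℝ), cexp (ρ * x) * g (v - x) := by
  unfold Ist
  rw [← integral_const_mul, ← integral_indicator measurableSet_Iic, ← integral_indicator measurableSet_Ioi]
  have h := integral_sub_left_eq_self (fun y : ℝ => (Ioi (0:ℝ)).indicator (fun x : ℝ => cexp (ρ * x) * g (v - x)) y) volume v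
  rw [← h]
  have h0 : ∀ᵐ z : ℝ ∂volume, z ≠ v := by
    rw [ae_iff]
    simp
  refine integral_congr_ae (h0.mono fun z hz => ?_)
  simp only
  by_cases hzv : z < v
  · rw [indicator_of_mem (show z ∈ Iic v from hzv.le), indicator_of_mem (show v - z ∈ Ioi (0:ℝ) by
      show 0 < v - z
      linarith)]
    rw [← mul_assoc, ← Complex.exp_add]
    congr 2
    · push_cast; ring
    · ring
  · rw [indicator_of_notMem (show z ∉ Iic v from fun h2 => hzv (lt_of_le_of_ne h2 hz)),
      indicator_of_notMem (show v - z ∉ Ioi (0:ℝ) by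
        intro h2
        have h3 : 0 < v - z := h2
        exact hzv (by linarith))]

/-- the operator commutes with the convolution -/
theorem CV_Ist {w : ℝ → ℝ} (hw : Wt w) {g : ℝ → ℂ} (hg : QG g) (ρ : ℂ) (hρ : ρ.re < 2) (t : ℝ) :
    CV w (Ist ρ g) t = Ist ρ (CV w g) t := by
  obtain ⟨B, hB, hwb⟩ := hw.bd
  obtain ⟨C, hC, hb⟩ := hg.bd
  have hc := hg.cont
  have hwm := hw.meas
  rw [CV_eq, Ist_eq]
  have e1 : ∫ y : ℝ, (w (Real.exp (-y)) : ℂ) * Ist ρ g (t - y) =
      ∫ y : ℝ, ∫ x in Ioi (0:ℝ), (w (Real.exp (-y)) : ℂ) * (cexp (ρ * x) * g (t - y - x)) := by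
    refine integral_congr_ae (ae_of_all _ fun y => ?_)
    simp only
    rw [Ist_eq, integral_const_mul]
  have e2 : ∫ x in Ioi (0:ℝ), cexp (ρ * x) * CV w g (t - x) =
      ∫ x in Ioi (0:ℝ), ∫ y : ℝ, (w (Real.exp (-y)) : ℂ) * (cexp (ρ * x) * g (t - y - x)) := by
    refine integral_congr_ae (ae_of_all _ fun x => ?_)
    simp only
    rw [CV_eq, ← integral_const_mul]
    refine integral_congr_ae (ae_of_all _ fun y => ?_)
    simp only
    have : t - x - y = t - y - x := by ring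
    rw [this]
    ring
  rw [e1, e2]
  refine integral_integral_swap (f := fun y x : ℝ => (w (Real.exp (-y)) : ℂ) * (cexp (ρ * x) * g (t - y - x))) ?_
  have hb2 : Integrable (fun x : ℝ => Real.exp (-(2 - ρ.re) * x)) (volume.restrict (Ioi (0:ℝ))) := by
    exact integrableOn_exp_mul_Ioi (by linarith) 0
  have hprod : Integrable (fun p : ℝ × ℝ => (B * C * Real.exp (2 * t) * Real.exp (-(2 * |p.1|))) *
      Real.exp (-(2 - ρ.re) * p.2)) (volume.prod (volume.restrict (Ioi (0:ℝ)))) :=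
    ((int_exp_abs 2 (by norm_num)).const_mul (B * C * Real.exp (2 * t))).mul_prod hb2
  refine hprod.mono' ?_ (ae_of_all _ fun p => ?_)
  · exact (by fun_prop : Measurable fun p : ℝ × ℝ => (w (Real.exp (-p.1)) : ℂ) *
      (cexp (ρ * p.2) * g (t - p.1 - p.2))).aestronglyMeasurable
  · simp only [Function.uncurry]
    have h1 := cv_bd hB hwb hC hb (t - p.2) p.1
    have h2 : t - p.2 - p.1 = t - p.1 - p.2 := by ring
    rw [h2] at h1
    have h3 : ‖(w (Real.exp (-p.1)) : ℂ) * (cexp (ρ * p.2) * g (t - p.1 - p.2))‖ =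
        Real.exp (ρ.re * p.2) * ‖(w (Real.exp (-p.1)) : ℂ) * g (t - p.1 - p.2)‖ := by
      rw [norm_mul, norm_mul, norm_mul, norm_tw']
      ring
    rw [h3]
    calc Real.exp (ρ.re * p.2) * ‖(w (Real.exp (-p.1)) : ℂ) * g (t - p.1 - p.2)‖
        ≤ Real.exp (ρ.re * p.2) * (B * C * Real.exp (2 * (t - p.2)) * Real.exp (-(2 * |p.1|))) :=
          mul_le_mul_of_nonneg_left h1 (Real.exp_pos _).le
      _ = (B * C * Real.exp (-(2 * |p.1|))) * (Real.exp (ρ.re * p.2) * Real.exp (2 * (t - p.2))) := by ring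
      _ = (B * C * Real.exp (-(2 * |p.1|))) * (Real.exp (2 * t) * Real.exp (-(2 - ρ.re) * p.2)) := by
          rw [← Real.exp_add, ← Real.exp_add]; congr 2; ring
      _ = _ := by ring

end

end H19.EW
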