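import Pool.Agent.H19.EW.W2

/-!
# Transforms and orders of vanishing
-/

open Complex MeasureTheory Filter Topology Set

set_option autoImplicit false
set_option linter.unusedSectionVars false
set_option linter.unusedVariables false

namespace H19.EW

open H313.TK

noncomputable section

/-- two-sided transform -/
def TT (g : ℝ → ℂ) (s : ℂ) : ℂ := ∫ v : ℝ, cexp (-s * v) * g v

theorem Ist_deriv {ρ : ℂ} {g : ℝ → ℂ} (hc : Continuous g)
    (hi : ∀ v, IntegrableOn (fun z : ℝ => cexp (-ρ * z) * g z) (Iic v)) (v : ℝ) :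
    HasDerivAt (Ist ρ g) (ρ * Ist ρ g v + g v) v := by
  have h1 := prim_cont (by fun_prop : Continuous fun z : ℝ => cexp (-ρ * z) * g z) hi v
  have h2 : HasDerivAt (fun v : ℝ => cexp (ρ * v)) (cexp (ρ * v) * ρ) v := by
    have h3 : HasDerivAt (fun z : ℝ => ρ * (z : ℂ)) (ρ * 1) v := ((hasDerivAt_id v).ofReal_comp).const_mul ρ
    simpa using h3.cexp
  refine (h2.mul h1).congr_deriv ?_
  unfold Ist
  have h3 : cexp (ρ * v) * (cexp (-ρ * v) * g v) = g v := by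
    rw [← mul_assoc, ← Complex.exp_add, show ρ * (v : ℂ) + -ρ * v = 0 by ring, Complex.exp_zero, one_mul]
  rw [h3]
  ring

theorem TT_Ist {ρ s : ℂ} {g : ℝ → ℂ} (hc : Continuous g)
    (hi : ∀ v, IntegrableOn (fun z : ℝ => cexp (-ρ * z) * g z) (Iic v))
    (h1 : Integrable (fun z : ℝ => cexp (-s * z) * g z))
    (h2 : Integrable (fun z : ℝ => cexp (-s * z) * Ist ρ g z)) :
    TT g s = (s - ρ) * TT (Ist ρ g) s := by
  have hd : ∀ v : ℝ, HasDerivAt (fun v : ℝ => cexp (-s * v) * Ist ρ g v)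
      ((ρ - s) * (cexp (-s * v) * Ist ρ g v) + cexp (-s * v) * g v) v := by
    intro v
    have h3 : HasDerivAt (fun v : ℝ => cexp (-s * v)) (cexp (-s * v) * (-s)) v := by
      have h4 : HasDerivAt (fun z : ℝ => -s * (z : ℂ)) (-s * 1) v := ((hasDerivAt_id v).ofReal_comp).const_mul (-s)
      simpa using h4.cexp
    refine (h3.mul (Ist_deriv hc hi v)).congr_deriv ?_
    ring
  have key := integral_eq_zero_of_hasDerivAt_of_integrable hd ((h2.const_mul _).add h1) h2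
  rw [integral_add (h2.const_mul _) h1, integral_const_mul] at key
  unfold TT
  linear_combination key

theorem order_sub (ρ : ℂ) : analyticOrderAt (fun s : ℂ => s - ρ) ρ = 1 := by
  have h : AnalyticAt ℂ (fun s : ℂ => s - ρ) ρ := by fun_prop
  have : analyticOrderAt (fun s : ℂ => s - ρ) ρ = ((1 : ℕ) : ℕ∞) := by
    rw [h.analyticOrderAt_eq_natCast]
    refine ⟨fun _ => 1, analyticAt_const, one_ne_zero, ?_⟩
    filter_upwards with z
    simp
  exact this

theorem order_step {F G : ℂ → ℂ} {ρ : ℂ} (hF : AnalyticAt ℂ G ρ) (h : F =ᶠ[𝓝 ρ] fun s => (s - ρ) * G s) :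
    analyticOrderAt F ρ = analyticOrderAt G ρ + 1 := by
  rw [analyticOrderAt_congr h]
  have h2 : AnalyticAt ℂ (fun s : ℂ => s - ρ) ρ := by fun_prop
  have h3 := analyticOrderAt_mul h2 hF
  have h4 : ((fun s : ℂ => s - ρ) * G) = fun s => (s - ρ) * G s := rfl
  rw [← h4, h3, order_sub]
  exact add_comm _ _

/-! ### dominated kernels -/

theorem DK_exp3 {g : ℝ → ℂ} (hg : DK g) : ∃ C : ℝ, 0 ≤ C ∧ ∀ v, ‖g v‖ ≤ C * Real.exp (-(3 * |v|)) := by
  obtain ⟨C, hC, hb⟩ := hg.bd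
  refine ⟨C * 4, by positivity, fun v => (hb v).trans ?_⟩
  rw [mul_assoc]
  refine mul_le_mul_of_nonneg_left ?_ hC
  have h1 := W_decay v
  have h2 : Real.exp (-(3 * |v|)) = Real.exp (-|v|) * Real.exp (-(2 * |v|)) := by
    rw [← Real.exp_add]; congr 1; ring
  rw [h2, ← mul_assoc]
  have h3 : W v = W v * Real.exp (2 * |v|) * Real.exp (-(2 * |v|)) := by
    rw [mul_assoc, ← Real.exp_add, add_neg_cancel, Real.exp_zero, mul_one]
  rw [h3]
  exact mul_le_mul_of_nonneg_right h1 (Real.exp_pos _).le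

theorem DK_an {g : ℝ → ℂ} (hg : DK g) {s : ℂ} (hs : |s.re| < 3) : AnalyticAt ℂ (TT g) s := by
  obtain ⟨C, hC, hb⟩ := DK_exp3 hg
  have hU : IsOpen {s : ℂ | |s.re| < 3} := isOpen_lt (by fun_prop) continuous_const
  have hd : DifferentiableOn ℂ (TT g) {s : ℂ | |s.re| < 3} := fun z hz =>
    (tr_diff hg.cont C 3 hC hb z hz).differentiableAt.differentiableWithinAt
  exact hd.analyticOnNhd hU s hs

theorem DK_TT {g : ℝ → ℂ} (hg : DK g) {ρ : ℂ} (hρ : |ρ.re| ≤ 2) (h0 : TT g ρ = 0) {s : ℂ} (hs : |s.re| ≤ 2) :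
    TT g s = (s - ρ) * TT (Ist ρ g) s :=
  TT_Ist hg.cont (fun v => (tw_int hg ρ hρ).integrableOn) (tw_int hg s hs) (tw_int (Ist_DK hg ρ hρ h0) s hs)

theorem near_re {ρ : ℂ} {a : ℝ} (h : |ρ.re| < a) : ∀ᶠ s : ℂ in 𝓝 ρ, |s.re| < a :=
  (isOpen_lt (by fun_prop : Continuous fun s : ℂ => |s.re|) continuous_const).mem_nhds h

theorem DK_order {g : ℝ → ℂ} (hg : DK g) {ρ : ℂ} (hρ : |ρ.re| < 2) (h0 : TT g ρ = 0) :
    analyticOrderAt (TT g) ρ = analyticOrderAt (TT (Ist ρ g)) ρ + 1 := by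
  refine order_step (DK_an (Ist_DK hg ρ hρ.le h0) (by linarith)) ?_
  filter_upwards [near_re hρ] with s hs
  exact DK_TT hg hρ.le h0 hs.le

theorem DK_iter {g : ℝ → ℂ} (hg : DK g) {ρ : ℂ} (hρ : |ρ.re| < 2) :
    ∀ j : ℕ, (j : ℕ∞) ≤ analyticOrderAt (TT g) ρ → DK ((Ist ρ)^[j] g) ∧
      analyticOrderAt (TT g) ρ = analyticOrderAt (TT ((Ist ρ)^[j] g)) ρ + j := by
  intro j
  induction j with
  | zero => intro _; exact ⟨hg, by simp⟩
  | succ j ih =>
    intro hj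
    obtain ⟨h1, h2⟩ := ih (le_trans (by exact_mod_cast Nat.le_succ j) hj)
    have h3 : analyticOrderAt (TT ((Ist ρ)^[j] g)) ρ ≠ 0 := by
      intro h
      rw [h2, h, zero_add] at hj
      have : (j + 1 : ℕ) ≤ j := by exact_mod_cast hj
      omega
    have h4 : TT ((Ist ρ)^[j] g) ρ = 0 := by
      by_contra h5
      exact h3 ((DK_an h1 (by linarith)).analyticOrderAt_eq_zero.2 h5)
    rw [Function.iterate_succ_apply']
    refine ⟨Ist_DK h1 ρ hρ.le h4, ?_⟩
    rw [h2, DK_order h1 hρ h4]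
    push_cast
    rw [add_assoc, add_comm (1 : ℕ∞)]

/-! ### bounded functions -/

/-- continuous functions `O(min(1, e^{2t}))` -/
structure BB (G : ℝ → ℂ) : Prop where
  cont : Continuous G
  bd : ∃ C : ℝ, 0 ≤ C ∧ ∀ t, ‖G t‖ ≤ C ∧ ‖G t‖ ≤ C * Real.exp (2 * t)

theorem BB.qg {G : ℝ → ℂ} (h : BB G) : QG G := by
  obtain ⟨C, hC, hb⟩ := h.bd
  exact ⟨h.cont, C, hC, fun z => (hb z).2⟩

theorem BB.int {G : ℝ → ℂ} (h : BB G) {s : ℂ} (h0 : 0 < s.re) (h2 : s.re < 2) :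
    Integrable (fun z : ℝ => cexp (-s * z) * G z) := by
  obtain ⟨C, hC, hb⟩ := h.bd
  have hc := h.cont
  have hm : 0 < min s.re (2 - s.re) := lt_min h0 (by linarith)
  refine ((int_exp_abs _ hm).const_mul C).mono' ?_ (ae_of_all _ fun z => ?_)
  · exact (by fun_prop : Continuous fun z : ℝ => cexp (-s * z) * G z).aestronglyMeasurable
  · rw [norm_mul, norm_tw]
    rcases le_total 0 z with hz | hz
    · calc Real.exp (-s.re * z) * ‖G z‖ ≤ Real.exp (-s.re * z) * C :=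
            mul_le_mul_of_nonneg_left (hb z).1 (Real.exp_pos _).le
        _ = C * Real.exp (-s.re * z) := mul_comm _ _
        _ ≤ _ := by
            refine mul_le_mul_of_nonneg_left (Real.exp_le_exp.2 ?_) hC
            rw [abs_of_nonneg hz]
            have := min_le_left s.re (2 - s.re)
            nlinarith
    · calc Real.exp (-s.re * z) * ‖G z‖ ≤ Real.exp (-s.re * z) * (C * Real.exp (2 * z)) :=
            mul_le_mul_of_nonneg_left (hb z).2 (Real.exp_pos _).le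
        _ = C * (Real.exp (-s.re * z) * Real.exp (2 * z)) := by ring
        _ = C * Real.exp ((2 - s.re) * z) := by rw [← Real.exp_add]; congr 2; ring
        _ ≤ _ := by
            refine mul_le_mul_of_nonneg_left (Real.exp_le_exp.2 ?_) hC
            rw [abs_of_nonpos hz]
            have := min_le_right s.re (2 - s.re)
            nlinarith

theorem BB.an {G : ℝ → ℂ} (h : BB G) {s : ℂ} (h0 : 0 < s.re) (h2 : s.re < 2) : AnalyticAt ℂ (TT G) s := by
  obtain ⟨C, hC, hb⟩ := h.bd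
  have hc := h.cont
  have hU : IsOpen {s : ℂ | 0 < s.re ∧ s.re < 2} := (isOpen_lt continuous_const Complex.continuous_re).inter
    (isOpen_lt Complex.continuous_re continuous_const)
  set Gt : ℝ → ℂ := fun v => cexp (-(1 : ℂ) * v) * G v with hGt
  have hGb : ∀ v, ‖Gt v‖ ≤ C * Real.exp (-(1 * |v|)) := by
    intro v
    simp only [hGt]
    rw [norm_mul, norm_tw]
    rcases le_total 0 v with hv | hv
    · rw [abs_of_nonneg hv]
      calc _ ≤ Real.exp (-(1:ℂ).re * v) * C := mul_le_mul_of_nonneg_left (hb v).1 (Real.exp_pos _).le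
        _ = _ := by simp [mul_comm]
    · rw [abs_of_nonpos hv]
      calc _ ≤ Real.exp (-(1:ℂ).re * v) * (C * Real.exp (2 * v)) := mul_le_mul_of_nonneg_left (hb v).2 (Real.exp_pos _).le
        _ = C * (Real.exp (-(1:ℂ).re * v) * Real.exp (2 * v)) := by ring
        _ = _ := by rw [← Real.exp_add]; congr 2; simp; ring
  have hd : DifferentiableOn ℂ (TT G) {s : ℂ | 0 < s.re ∧ s.re < 2} := by
    intro z hz
    have h3 : |(z - 1).re| < 1 := by
      rw [Complex.sub_re, Complex.one_re, abs_lt]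
      constructor <;> linarith [hz.1, hz.2]
    have h4 := (tr_diff (by fun_prop : Continuous Gt) C 1 hC hGb (z - 1) h3).differentiableAt
    have h5 : TT G = fun s => TT Gt (s - 1) := by
      funext s
      unfold TT
      refine integral_congr_ae (ae_of_all _ fun v => ?_)
      simp only [hGt]
      rw [← mul_assoc, ← Complex.exp_add]
      congr 2
      ring
    rw [h5]
    exact (DifferentiableAt.comp z (f := fun s : ℂ => s - 1) (g := TT Gt) h4 (by fun_prop)).differentiableWithinAt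
  exact hd.analyticOnNhd hU s ⟨h0, h2⟩

theorem BB.tail {G : ℝ → ℂ} (h : BB G) {ρ : ℂ} (h0 : 0 < ρ.re) (h2 : ρ.re < 2) :
    ∃ C : ℝ, 0 ≤ C ∧ ∀ t, ‖Ist ρ G t - cexp (ρ * t) * TT G ρ‖ ≤ C := by
  obtain ⟨C, hC, hb⟩ := h.bd
  refine ⟨C / ρ.re, by positivity, fun t => ?_⟩
  have hi := h.int h0 h2
  have h1 := intervalIntegral.integral_Iic_add_Ioi (b := t) hi.integrableOn hi.integrableOn
  have h3 : Ist ρ G t - cexp (ρ * t) * TT G ρ = -(cexp (ρ * t) * ∫ z in Ioi t, cexp (-ρ * z) * G z) := by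
    unfold Ist TT
    rw [← h1]
    ring
  rw [h3, norm_neg, norm_mul, norm_tw']
  have h4 : ‖∫ z in Ioi t, cexp (-ρ * z) * G z‖ ≤ ∫ z in Ioi t, C * Real.exp (-ρ.re * z) := by
    refine norm_integral_le_of_norm_le ((integrableOn_exp_mul_Ioi (by linarith) t).const_mul C)
      (ae_of_all _ fun z => ?_)
    rw [norm_mul, norm_tw, mul_comm]
    exact mul_le_mul_of_nonneg_right (hb z).1 (Real.exp_pos _).le
  rw [integral_const_mul, integral_exp_mul_Ioi (by linarith) t] at h4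
  calc Real.exp (ρ.re * t) * ‖∫ z in Ioi t, cexp (-ρ * z) * G z‖ ≤
        Real.exp (ρ.re * t) * (C * (-Real.exp (-ρ.re * t) / -ρ.re)) :=
        mul_le_mul_of_nonneg_left h4 (Real.exp_pos _).le
    _ = C / ρ.re * (Real.exp (ρ.re * t) * Real.exp (-ρ.re * t)) := by
        rw [neg_div_neg_eq]
        ring
    _ = _ := by rw [← Real.exp_add, show ρ.re * t + -ρ.re * t = 0 by ring, Real.exp_zero, mul_one]

theorem Ist_BB {G : ℝ → ℂ} (h : BB G) {ρ : ℂ} (h0 : 0 < ρ.re) (h2 : ρ.re < 2) (hz : TT G ρ = 0) : BB (Ist ρ G) := by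
  obtain ⟨C1, hC1, hb1⟩ := (Ist_QG h.qg ρ h2).bd
  obtain ⟨C2, hC2, hb2⟩ := h.tail h0 h2
  refine ⟨(Ist_QG h.qg ρ h2).cont, max C1 C2, le_max_of_le_left hC1, fun t => ⟨?_, ?_⟩⟩
  · have := hb2 t
    rw [hz, mul_zero, sub_zero] at this
    exact this.trans (le_max_right _ _)
  · exact (hb1 t).trans (mul_le_mul_of_nonneg_right (le_max_left _ _) (Real.exp_pos _).le)

theorem BB_TT {g : ℝ → ℂ} (hg : BB g) {ρ : ℂ} (h0 : 0 < ρ.re) (h2 : ρ.re < 2) (hz : TT g ρ = 0) {s : ℂ}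
    (hs0 : 0 < s.re) (hs2 : s.re < 2) : TT g s = (s - ρ) * TT (Ist ρ g) s :=
  TT_Ist hg.cont (fun v => (hg.int h0 h2).integrableOn) (hg.int hs0 hs2) ((Ist_BB hg h0 h2 hz).int hs0 hs2)

theorem near_strip {ρ : ℂ} (h0 : 0 < ρ.re) (h2 : ρ.re < 2) : ∀ᶠ s : ℂ in 𝓝 ρ, 0 < s.re ∧ s.re < 2 :=
  ((isOpen_lt continuous_const Complex.continuous_re).inter
    (isOpen_lt Complex.continuous_re continuous_const)).mem_nhds ⟨h0, h2⟩

theorem BB_order {g : ℝ → ℂ} (hg : BB g) {ρ : ℂ} (h0 : 0 < ρ.re) (h2 : ρ.re < 2) (hz : TT g ρ = 0) :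
    analyticOrderAt (TT g) ρ = analyticOrderAt (TT (Ist ρ g)) ρ + 1 := by
  refine order_step ((Ist_BB hg h0 h2 hz).an h0 h2) ?_
  filter_upwards [near_strip h0 h2] with s hs
  exact BB_TT hg h0 h2 hz hs.1 hs.2

theorem BB_iter {g : ℝ → ℂ} (hg : BB g) {ρ : ℂ} (h0 : 0 < ρ.re) (h2 : ρ.re < 2) :
    ∀ j : ℕ, (j : ℕ∞) ≤ analyticOrderAt (TT g) ρ → BB ((Ist ρ)^[j] g) ∧
      analyticOrderAt (TT g) ρ = analyticOrderAt (TT ((Ist ρ)^[j] g)) ρ + j := by
  intro j
  induction j with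
  | zero => intro _; exact ⟨hg, by simp⟩
  | succ j ih =>
    intro hj
    obtain ⟨h1, h3⟩ := ih (le_trans (by exact_mod_cast Nat.le_succ j) hj)
    have h4 : analyticOrderAt (TT ((Ist ρ)^[j] g)) ρ ≠ 0 := by
      intro h
      rw [h3, h, zero_add] at hj
      have : (j + 1 : ℕ) ≤ j := by exact_mod_cast hj
      omega
    have h5 : TT ((Ist ρ)^[j] g) ρ = 0 := by
      by_contra h6
      exact h4 ((h1.an h0 h2).analyticOrderAt_eq_zero.2 h6)
    rw [Function.iterate_succ_apply']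
    refine ⟨Ist_BB h1 h0 h2 h5, ?_⟩
    rw [h3, BB_order h1 h0 h2 h5]
    push_cast
    rw [add_assoc, add_comm (1 : ℕ∞)]

/-- second order asymptotics -/
theorem BB.tail2 {G : ℝ → ℂ} (h : BB G) {ρ : ℂ} (h0 : 0 < ρ.re) (h2 : ρ.re < 2) :
    ∃ C : ℝ, 0 ≤ C ∧ ∀ t : ℝ, 0 ≤ t → ‖Ist ρ (Ist ρ G) t - (t : ℂ) * cexp (ρ * t) * TT G ρ‖ ≤ C * Real.exp (ρ.re * t) := by
  obtain ⟨C, hC, hb⟩ := h.tail h0 h2
  have hQ := Ist_QG h.qg ρ h2
  have hi : ∀ v : ℝ, IntegrableOn (fun z : ℝ => cexp (-ρ * z) * Ist ρ G z) (Iic v) := hQ.qq.int ρ h2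
  refine ⟨‖∫ z in Iic (0:ℝ), cexp (-ρ * z) * Ist ρ G z‖ + C / ρ.re, by positivity, fun t ht => ?_⟩
  have e1 : Ist ρ (Ist ρ G) t = cexp (ρ * t) * ∫ y in Iic t, cexp (-ρ * y) * Ist ρ G y := rfl
  have e2 := intervalIntegral.integral_Iic_sub_Iic (hi 0) (hi t)
  have hcont := hQ.cont
  have hi1 : IntervalIntegrable (fun y : ℝ => cexp (-ρ * y) * Ist ρ G y) volume 0 t :=
    (by fun_prop : Continuous fun y : ℝ => cexp (-ρ * y) * Ist ρ G y).intervalIntegrable _ _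
  have e3 : ‖∫ y in (0:ℝ)..t, (cexp (-ρ * y) * Ist ρ G y - TT G ρ)‖ ≤ ∫ y in (0:ℝ)..t, C * Real.exp (-ρ.re * y) := by
    refine intervalIntegral.norm_integral_le_of_norm_le ht (ae_of_all _ fun y hy => ?_)
      ((by fun_prop : Continuous fun y : ℝ => C * Real.exp (-ρ.re * y)).intervalIntegrable _ _)
    have h3 : cexp (-ρ * y) * Ist ρ G y - TT G ρ = cexp (-ρ * y) * (Ist ρ G y - cexp (ρ * y) * TT G ρ) := by
      rw [mul_sub, ← mul_assoc (cexp (-ρ * y)) (cexp (ρ * y)), ← Complex.exp_add, show -ρ * (y : ℂ) + ρ * y = 0 by ring,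
        Complex.exp_zero, one_mul]
    rw [h3, norm_mul, norm_tw, mul_comm]
    exact mul_le_mul_of_nonneg_right (hb y) (Real.exp_pos _).le
  have e4 : ∫ y in (0:ℝ)..t, C * Real.exp (-ρ.re * y) ≤ C / ρ.re := by
    rw [intervalIntegral.integral_const_mul, intervalIntegral.integral_of_le ht]
    have h3 : ∫ y in Ioc (0:ℝ) t, Real.exp (-ρ.re * y) ≤ ∫ y in Ioi (0:ℝ), Real.exp (-ρ.re * y) :=
      setIntegral_mono_set (integrableOn_exp_mul_Ioi (by linarith) 0)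
        (ae_of_all _ fun y => (Real.exp_pos _).le) (Ioc_subset_Ioi_self.eventuallyLE)
    rw [integral_exp_mul_Ioi (by linarith) 0] at h3
    calc _ ≤ C * (-Real.exp (-ρ.re * 0) / -ρ.re) := mul_le_mul_of_nonneg_left h3 hC
      _ = _ := by rw [mul_zero, Real.exp_zero, neg_div_neg_eq]; ring
  have e5 : ∫ y in (0:ℝ)..t, (cexp (-ρ * y) * Ist ρ G y - TT G ρ) =
      (∫ y in (0:ℝ)..t, cexp (-ρ * y) * Ist ρ G y) - t * TT G ρ := by
    rw [intervalIntegral.integral_sub hi1 (by simp), intervalIntegral.integral_const]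
    simp
  have e6 : Ist ρ (Ist ρ G) t - (t : ℂ) * cexp (ρ * t) * TT G ρ =
      cexp (ρ * t) * ((∫ z in Iic (0:ℝ), cexp (-ρ * z) * Ist ρ G z) +
        ∫ y in (0:ℝ)..t, (cexp (-ρ * y) * Ist ρ G y - TT G ρ)) := by
    rw [e1, e5, ← e2]
    ring
  rw [e6, norm_mul, norm_tw', mul_comm]
  refine mul_le_mul_of_nonneg_right ?_ (Real.exp_pos _).le
  exact (norm_add_le _ _).trans (add_le_add le_rfl (e3.trans e4))

end

end H19.EW
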