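import Pool.Agent.H19.EW.W3

/-!
# Core inequality for general weights
-/

open Complex MeasureTheory Filter Topology Set

set_option autoImplicit false
set_option linter.unusedSectionVars false
set_option linter.unusedVariables false

namespace H19.EW

open H313.TK

noncomputable section

theorem kp_cont : Continuous kp := by
  have h := kc_DK.cont
  have : kp = fun v => (kc v).re := by
    funext v
    simp [kc]
  rw [this]
  exact Complex.continuous_re.comp h

theorem kpW (t v : ℝ) : Real.exp (t - v) * W v ≤ 4 * Real.exp t * Real.exp (-(1 * |v|)) := by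
  have h1 := W_decay v
  have h2 : Real.exp (t - v) ≤ Real.exp t * Real.exp (2 * |v|) := by
    rw [← Real.exp_add]
    refine Real.exp_le_exp.2 ?_
    have := neg_abs_le v
    have := abs_nonneg v
    linarith
  have := W_pos v
  calc Real.exp (t - v) * W v ≤ (Real.exp t * Real.exp (2 * |v|)) * W v :=
        mul_le_mul_of_nonneg_right h2 this.le
    _ = Real.exp t * (W v * Real.exp (2 * |v|)) := by ring
    _ ≤ Real.exp t * (4 * Real.exp (-|v|)) := mul_le_mul_of_nonneg_left h1 (Real.exp_pos _).le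
    _ = _ := by rw [one_mul]; ring

/-- integrability of the averages -/
theorem avg_int (f : ℝ → ℝ) (hf : Measurable f) (hb : ∀ u, |f u| ≤ Real.exp u) (t : ℝ) :
    Integrable (fun v => f (t - v) * kp v) := by
  refine ((int_exp_abs 1 one_pos).const_mul (C0 * (4 * Real.exp t))).mono' ?_ (ae_of_all _ fun v => ?_)
  · have := kp_cont
    exact (by fun_prop : Measurable fun v => f (t - v) * kp v).aestronglyMeasurable
  · rw [norm_mul, Real.norm_eq_abs, Real.norm_eq_abs, abs_of_nonneg (kp_nonneg v)]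
    calc |f (t - v)| * kp v ≤ Real.exp (t - v) * (C0 * W v) :=
          mul_le_mul (hb _) (kp_bounds v).2 (kp_nonneg v) (Real.exp_pos _).le
      _ = C0 * (Real.exp (t - v) * W v) := by ring
      _ ≤ C0 * (4 * Real.exp t * Real.exp (-(1 * |v|))) := mul_le_mul_of_nonneg_left (kpW t v) C0_nonneg
      _ = _ := by ring

theorem part_le (s : ℝ) (hs : s = 1 ∨ s = -1) (x : ℝ) : |max (s * x) 0| ≤ |x| := by
  rw [abs_of_nonneg (le_max_right _ _)]
  refine max_le ?_ (abs_nonneg _)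
  rcases hs with h | h
  · rw [h, one_mul]; exact le_abs_self _
  · rw [h, neg_one_mul]; exact neg_le_abs _

theorem part_id (s : ℝ) (hs : s = 1 ∨ s = -1) (x : ℝ) : |x| = 2 * max (s * x) 0 - s * x := by
  rcases hs with h | h
  · rw [h, one_mul]
    rcases le_total x 0 with h | h
    · rw [max_eq_right h, abs_of_nonpos h]; ring
    · rw [max_eq_left h, abs_of_nonneg h]; ring
  · rw [h, neg_one_mul]
    rcases le_total x 0 with h | h
    · rw [max_eq_left (by linarith), abs_of_nonpos h]; ring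
    · rw [max_eq_right (by linarith), abs_of_nonneg h]; ring


open scoped Convolution

/-- the Mellin transform of the weight -/
def wh (w : ℝ → ℝ) (s : ℂ) : ℂ := mellin (fun u : ℝ => (w u : ℂ)) s

theorem wh_int {w : ℝ → ℝ} (hw : Wt w) {s : ℂ} (h0 : 0 < s.re) (h4 : s.re < 4) :
    Integrable (fun y : ℝ => cexp (-s * y) * (w (Real.exp (-y)) : ℂ)) := by
  obtain ⟨B, hB, hwb⟩ := hw.bd
  have hwm := hw.meas
  have hm : 0 < min s.re (4 - s.re) := lt_min h0 (by linarith)
  refine ((int_exp_abs _ hm).const_mul B).mono' ?_ (ae_of_all _ fun z => ?_)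
  · exact (by fun_prop : Measurable fun y : ℝ => cexp (-s * y) * (w (Real.exp (-y)) : ℂ)).aestronglyMeasurable
  · obtain ⟨h1, h2⟩ := w_exp hB hwb z
    rw [norm_mul, norm_tw, Complex.norm_real, Real.norm_eq_abs]
    rcases le_total 0 z with hz | hz
    · calc Real.exp (-s.re * z) * |w (Real.exp (-z))| ≤ Real.exp (-s.re * z) * B :=
            mul_le_mul_of_nonneg_left h1 (Real.exp_pos _).le
        _ = B * Real.exp (-s.re * z) := mul_comm _ _
        _ ≤ _ := by
            refine mul_le_mul_of_nonneg_left (Real.exp_le_exp.2 ?_) hB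
            rw [abs_of_nonneg hz]
            have := min_le_left s.re (4 - s.re)
            nlinarith
    · calc Real.exp (-s.re * z) * |w (Real.exp (-z))| ≤ Real.exp (-s.re * z) * (B * Real.exp (4 * z)) :=
            mul_le_mul_of_nonneg_left h2 (Real.exp_pos _).le
        _ = B * (Real.exp (-s.re * z) * Real.exp (4 * z)) := by ring
        _ = B * Real.exp ((4 - s.re) * z) := by rw [← Real.exp_add]; congr 2; ring
        _ ≤ _ := by
            refine mul_le_mul_of_nonneg_left (Real.exp_le_exp.2 ?_) hB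
            rw [abs_of_nonpos hz]
            have := min_le_right s.re (4 - s.re)
            nlinarith

theorem qc_int : Integrable qc := by
  refine ((int_exp_abs 2 (by norm_num)).const_mul 48).mono' ?_ (ae_of_all _ fun y => qq_bd y)
  exact qc_QG.cont.aestronglyMeasurable

theorem qc_BB0 {w : ℝ → ℝ} (hw : Wt w) : BB (CV w qc) := by
  obtain ⟨C1, hC1, h1⟩ := (CV_QG hw qc_QG).bd
  obtain ⟨C2, hC2, h2⟩ := CV_bdd hw qc_int
  refine ⟨(CV_QG hw qc_QG).cont, max C1 C2, le_max_of_le_left hC1, fun t => ⟨(h2 t).trans (le_max_right _ _), ?_⟩⟩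
  exact (h1 t).trans (mul_le_mul_of_nonneg_right (le_max_left _ _) (Real.exp_pos _).le)

theorem TT_CV {w : ℝ → ℝ} (hw : Wt w) {s : ℂ} (h0 : 0 < s.re) (h2 : s.re < 2) :
    TT (CV w qc) s = wh w s * qh s := by
  set f1 : ℝ → ℂ := fun y => cexp (-s * y) * (w (Real.exp (-y)) : ℂ) with hf1
  set f2 : ℝ → ℂ := fun v => cexp (-s * v) * qc v with hf2
  have i1 : Integrable f1 := wh_int hw h0 (by linarith)
  have i2 : Integrable f2 := by
    have := qc_QG.cont
    refine ((int_exp_abs (2 - s.re) (by linarith)).const_mul 48).mono' ?_ (ae_of_all _ fun v => ?_)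
    · exact (by fun_prop : Continuous fun v : ℝ => cexp (-s * v) * qc v).aestronglyMeasurable
    · simp only [hf2]
      rw [norm_mul, norm_tw]
      have h3 : Real.exp (-s.re * v) ≤ Real.exp (s.re * |v|) := by
        refine Real.exp_le_exp.2 ?_
        have := neg_abs_le v
        nlinarith
      calc Real.exp (-s.re * v) * ‖qc v‖ ≤ Real.exp (s.re * |v|) * (48 * Real.exp (-(2 * |v|))) :=
            mul_le_mul h3 (qq_bd v) (norm_nonneg _) (Real.exp_pos _).le
        _ = 48 * (Real.exp (s.re * |v|) * Real.exp (-(2 * |v|))) := by ring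
        _ = _ := by rw [← Real.exp_add]; congr 2; ring
  have key := integral_convolution (L := ContinuousLinearMap.mul ℝ ℂ) i1 i2
  have e1 : ∀ t : ℝ, (f1 ⋆[ContinuousLinearMap.mul ℝ ℂ, volume] f2) t = cexp (-s * t) * CV w qc t := by
    intro t
    rw [convolution_def, CV_eq, ← integral_const_mul]
    refine integral_congr_ae (ae_of_all _ fun y => ?_)
    simp only [hf1, hf2, ContinuousLinearMap.mul_apply']
    have h3 : cexp (-s * (t : ℂ)) = cexp (-s * (y : ℂ)) * cexp (-s * ((t - y : ℝ) : ℂ)) := by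
      rw [← Complex.exp_add]
      congr 1
      push_cast
      ring
    rw [h3]
    ring
  rw [integral_congr_ae (ae_of_all _ e1)] at key
  unfold TT
  rw [key]
  simp only [ContinuousLinearMap.mul_apply']
  congr 1
  unfold wh
  rw [mellin_exp]

theorem qh_an {s : ℂ} (h0 : 0 < s.re) (h2 : s.re < 2) : AnalyticAt ℂ qh s := by
  have hU : IsOpen {s : ℂ | 0 < s.re ∧ s.re < 2} := (isOpen_lt continuous_const Complex.continuous_re).inter
    (isOpen_lt Complex.continuous_re continuous_const)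
  have hd : DifferentiableOn ℂ qh {s : ℂ | 0 < s.re ∧ s.re < 2} := fun z hz =>
    (qh_deriv z (by rw [abs_of_pos hz.1]; exact hz.2)).differentiableAt.differentiableWithinAt
  exact hd.analyticOnNhd hU s ⟨h0, h2⟩

theorem wh_an {w : ℝ → ℝ} (hw : Wt w) {s : ℂ} (h0 : 0 < s.re) (h1 : s.re < 1) : AnalyticAt ℂ (wh w) s := by
  have h2 := (qc_BB0 hw).an h0 (by linarith : s.re < 2)
  have h3 := h2.div (qh_an h0 (by linarith)) (qh_ne s h0 h1)
  refine h3.congr ?_
  have hV : {s : ℂ | 0 < s.re ∧ s.re < 1} ∈ 𝓝 s :=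
    IsOpen.mem_nhds ((isOpen_lt continuous_const Complex.continuous_re).inter
      (isOpen_lt Complex.continuous_re continuous_const)) ⟨h0, h1⟩
  filter_upwards [hV] with z hz
  rw [Pi.div_apply, TT_CV hw hz.1 (by linarith [hz.2]), mul_div_assoc, div_self (qh_ne z hz.1 hz.2), mul_one]

theorem order_G0 {w : ℝ → ℝ} (hw : Wt w) {ρ : ℂ} (h0 : 0 < ρ.re) (h1 : ρ.re < 1) :
    analyticOrderAt (TT (CV w qc)) ρ = analyticOrderAt (wh w) ρ := by
  have he : TT (CV w qc) =ᶠ[𝓝 ρ] wh w * qh := by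
    filter_upwards [near_strip h0 (by linarith : ρ.re < 2)] with z hz
    exact TT_CV hw hz.1 hz.2
  rw [analyticOrderAt_congr he, analyticOrderAt_mul (wh_an hw h0 h1) (qh_an h0 (by linarith)),
    (qh_an h0 (by linarith)).analyticOrderAt_eq_zero.2 (qh_ne ρ h0 h1), add_zero]

theorem zeta_an {ρ : ℂ} (h : ρ ≠ 1) : AnalyticAt ℂ riemannZeta ρ := by
  have hU : IsOpen ({1}ᶜ : Set ℂ) := isOpen_compl_singleton
  have hd : DifferentiableOn ℂ riemannZeta {1}ᶜ := fun z hz => (differentiableAt_riemannZeta hz).differentiableWithinAt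
  exact hd.analyticOnNhd hU ρ h

theorem order_kc {ρ : ℂ} (h0 : 0 < ρ.re) (h1 : ρ.re < 1) :
    analyticOrderAt (TT kc) ρ = analyticOrderAt riemannZeta ρ := by
  have hne : ρ ≠ 1 := by rintro rfl; simp at h1
  have he : TT kc =ᶠ[𝓝 ρ] riemannZeta * qh := by
    have hV : {s : ℂ | 0 < s.re ∧ s.re < 1} ∈ 𝓝 ρ :=
      IsOpen.mem_nhds ((isOpen_lt continuous_const Complex.continuous_re).inter
        (isOpen_lt Complex.continuous_re continuous_const)) ⟨h0, h1⟩
    filter_upwards [hV] with z hz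
    exact Kh_eq z hz.1 (by linarith [hz.2]) (by rintro rfl; have := hz.2; simp at this)
  rw [analyticOrderAt_congr he, analyticOrderAt_mul (zeta_an hne) (qh_an h0 (by linarith)),
    (qh_an h0 (by linarith)).analyticOrderAt_eq_zero.2 (qh_ne ρ h0 h1), add_zero]

theorem iter_QG {g : ℝ → ℂ} (hg : QG g) {ρ : ℂ} (h2 : ρ.re < 2) (j : ℕ) : QG ((Ist ρ)^[j] g) := by
  induction j with
  | zero => exact hg
  | succ j ih => rw [Function.iterate_succ_apply']; exact Ist_QG ih ρ h2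

theorem iter_Sg {ρ : ℂ} (h2 : ρ.re < 2) (j : ℕ) : Sg ((Ist ρ)^[j] qc) = (Ist ρ)^[j] kc := by
  induction j with
  | zero => exact kc_eq.symm
  | succ j ih =>
    rw [Function.iterate_succ_apply', Function.iterate_succ_apply', ← ih]
    funext v
    exact (Sg_Ist (iter_QG qc_QG h2 j).qq ρ h2 v).symm

theorem iter_CV {w : ℝ → ℝ} (hw : Wt w) {ρ : ℂ} (h2 : ρ.re < 2) (j : ℕ) :
    CV w ((Ist ρ)^[j] qc) = (Ist ρ)^[j] (CV w qc) := by
  induction j with
  | zero => rfl
  | succ j ih =>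
    rw [Function.iterate_succ_apply', Function.iterate_succ_apply', ← ih]
    funext t
    exact CV_Ist hw (iter_QG qc_QG h2 j) ρ h2 t

/-- the average of the weighted sum itself is bounded -/
theorem avg_AA {w : ℝ → ℝ} (hw : Wt w) : ∃ E : ℝ, 0 ≤ E ∧ ∀ t : ℝ, |∫ v : ℝ, AA w (t - v) * kp v| ≤ E := by
  obtain ⟨C, hC, hb⟩ := CV_bdd hw qc_int
  refine ⟨C, hC, fun t => ?_⟩
  have h1 := moebG hw qc_QG t
  rw [← kc_eq] at h1
  have h2 : ∫ v : ℝ, (AA w (t - v) : ℂ) * kc v = ((∫ v : ℝ, AA w (t - v) * kp v : ℝ) : ℂ) := by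
    rw [← integral_complex_ofReal]
    refine integral_congr_ae (ae_of_all _ fun v => ?_)
    simp [kc]
  rw [h2] at h1
  have h3 : |∫ v : ℝ, AA w (t - v) * kp v| = ‖CV w qc t‖ := by
    rw [← h1, Complex.norm_real, Real.norm_eq_abs]
  rw [h3]
  exact hb t

/-- from a twisted average to both parts -/
theorem parts_of {w : ℝ → ℝ} (hw : Wt w) (hn : ∀ u, |AA w u| ≤ Real.exp u) (g : ℝ → ℂ) (hg : QG g) (hD : DK (Sg g)) :
    ∃ c : ℝ, 0 < c ∧ ∃ C : ℝ, ∀ t : ℝ, ∀ s : ℝ, s = 1 ∨ s = -1 →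
    c * ‖CV w g t‖ - C ≤ ∫ v : ℝ, max (s * AA w (t - v)) 0 * kp v := by
  obtain ⟨B, hB, hb⟩ := hD.bd
  obtain ⟨E, hE0, hE⟩ := avg_AA hw
  refine ⟨1 / (4 * (B + 1)), by positivity, E / 2, fun t s hs => ?_⟩
  have hm := AA_meas hw
  have i1 := avg_int (AA w) hm hn t
  have i2 : Integrable (fun v => |AA w (t - v)| * kp v) :=
    avg_int (fun u => |AA w u|) (by fun_prop) (fun u => by rw [abs_abs]; exact hn u) t
  have i3 : Integrable (fun v => max (s * AA w (t - v)) 0 * kp v) :=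
    avg_int (fun u => max (s * AA w u) 0) (by fun_prop) (fun u => (part_le s hs _).trans (hn u)) t
  have e1 : ∫ v, |AA w (t - v)| * kp v = 2 * (∫ v, max (s * AA w (t - v)) 0 * kp v) - s * ∫ v, AA w (t - v) * kp v := by
    rw [← integral_const_mul, ← integral_const_mul, ← integral_sub (i3.const_mul 2) (i1.const_mul s)]
    refine integral_congr_ae (ae_of_all _ fun v => ?_)
    simp only
    rw [part_id s hs (AA w (t - v))]
    ring
  have e2 := hE t
  have e3 : |s * ∫ v, AA w (t - v) * kp v| ≤ E := by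
    rw [abs_mul]
    have : |s| = 1 := by rcases hs with h | h <;> rw [h] <;> simp
    rw [this, one_mul]
    exact e2
  have e4 : ‖CV w g t‖ ≤ (2 * (B + 1)) * ∫ v, |AA w (t - v)| * kp v := by
    rw [← moebG hw hg t, ← integral_const_mul]
    refine norm_integral_le_of_norm_le (i2.const_mul _) (ae_of_all _ fun v => ?_)
    rw [norm_mul, Complex.norm_real, Real.norm_eq_abs]
    have h5 : ‖Sg g v‖ ≤ 2 * (B + 1) * kp v := by
      refine (hb v).trans ?_
      have h6 := (kp_bounds v).1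
      have h7 := W_pos v
      nlinarith
    calc |AA w (t - v)| * ‖Sg g v‖ ≤ |AA w (t - v)| * (2 * (B + 1) * kp v) :=
          mul_le_mul_of_nonneg_left h5 (abs_nonneg _)
      _ = _ := by ring
  have e5 := (abs_le.1 e3).1
  have hB1 : 0 < B + 1 := by linarith
  rw [e1] at e4
  have e6 : 1 / (4 * (B + 1)) * ‖CV w g t‖ ≤
      1 / (4 * (B + 1)) * (2 * (B + 1) * (2 * (∫ v, max (s * AA w (t - v)) 0 * kp v) - s * ∫ v, AA w (t - v) * kp v)) :=
    mul_le_mul_of_nonneg_left e4 (by positivity)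
  have e7 : 1 / (4 * (B + 1)) * (2 * (B + 1) * (2 * (∫ v, max (s * AA w (t - v)) 0 * kp v) - s * ∫ v, AA w (t - v) * kp v))
      = (∫ v, max (s * AA w (t - v)) 0 * kp v) - (s * ∫ v, AA w (t - v) * kp v) / 2 := by
    field_simp
    ring
  rw [e7] at e6
  linarith

/-- **Core inequality.** -/
theorem core1 {w : ℝ → ℝ} (hw : Wt w) (hn : ∀ u, |AA w u| ≤ Real.exp u) {ρ : ℂ} (h0 : 0 < ρ.re) (h1 : ρ.re < 1)
    {k : ℕ} (hk : analyticOrderAt (wh w) ρ = k) (hm : ((k + 1 : ℕ) : ℕ∞) ≤ analyticOrderAt riemannZeta ρ) :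
    ∃ c : ℝ, 0 < c ∧ ∀ᶠ t : ℝ in atTop, ∀ s : ℝ, s = 1 ∨ s = -1 →
      c * Real.exp (ρ.re * t) ≤ ∫ v : ℝ, max (s * AA w (t - v)) 0 * kp v := by
  have h2 : ρ.re < 2 := by linarith
  have hre : |ρ.re| < 2 := by rw [abs_of_pos h0]; exact h2
  have hD : DK (Sg ((Ist ρ)^[k + 1] qc)) := by
    rw [iter_Sg h2]
    exact (DK_iter kc_DK hre (k + 1) (by rw [order_kc h0 h1]; exact hm)).1
  obtain ⟨c, hc, C, hcore⟩ := parts_of hw hn _ (iter_QG qc_QG h2 (k + 1)) hD
  obtain ⟨hB, hord⟩ := BB_iter (qc_BB0 hw) h0 h2 k (by rw [order_G0 hw h0 h1, hk])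
  set Gk := (Ist ρ)^[k] (CV w qc) with hGk
  have hne : TT Gk ρ ≠ 0 := by
    rw [order_G0 hw h0 h1, hk] at hord
    have h3 : analyticOrderAt (TT Gk) ρ = 0 := by
      have h4 : analyticOrderAt (TT Gk) ρ + (k : ℕ∞) = 0 + k := by rw [← hord, zero_add]
      simpa using h4
    exact (hB.an h0 h2).analyticOrderAt_eq_zero.1 h3
  obtain ⟨C1, hC1, hasy⟩ := hB.tail h0 h2
  set A : ℝ := ‖TT Gk ρ‖ with hA
  have hA0 : 0 < A := norm_pos_iff.2 hne
  refine ⟨c * A / 2, by positivity, ?_⟩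
  have hlim : Tendsto (fun t : ℝ => Real.exp (ρ.re * t)) atTop atTop :=
    Real.tendsto_exp_atTop.comp (Tendsto.const_mul_atTop h0 tendsto_id)
  filter_upwards [hlim.eventually_ge_atTop ((c * C1 + |C|) / (c * A / 2))] with t ht1 s hs
  rw [div_le_iff₀ (by positivity)] at ht1
  have k1 := hcore t s hs
  rw [iter_CV hw h2, Function.iterate_succ_apply'] at k1
  have k2 := hasy t
  have k3 : A * Real.exp (ρ.re * t) - C1 ≤ ‖Ist ρ Gk t‖ := by
    have k4 : ‖cexp (ρ * t) * TT Gk ρ‖ = A * Real.exp (ρ.re * t) := by rw [norm_mul, norm_tw', mul_comm]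
    have k5 : ‖cexp (ρ * t) * TT Gk ρ‖ ≤ ‖Ist ρ Gk t‖ + ‖Ist ρ Gk t - cexp (ρ * t) * TT Gk ρ‖ := by
      rw [← norm_neg (Ist ρ Gk t - cexp (ρ * t) * TT Gk ρ)]
      refine le_trans (le_of_eq ?_) (norm_add_le _ _)
      congr 1
      ring
    rw [k4] at k5
    linarith
  have k6 := mul_le_mul_of_nonneg_left k3 hc.le
  have k8 := le_abs_self C
  nlinarith

/-- **Core inequality, one more order.** -/
theorem core2 {w : ℝ → ℝ} (hw : Wt w) (hn : ∀ u, |AA w u| ≤ Real.exp u) {ρ : ℂ} (h0 : 0 < ρ.re) (h1 : ρ.re < 1)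
    {k : ℕ} (hk : analyticOrderAt (wh w) ρ = k) (hm : ((k + 2 : ℕ) : ℕ∞) ≤ analyticOrderAt riemannZeta ρ) :
    ∃ c : ℝ, 0 < c ∧ ∀ᶠ t : ℝ in atTop, ∀ s : ℝ, s = 1 ∨ s = -1 →
      c * (t * Real.exp (ρ.re * t)) ≤ ∫ v : ℝ, max (s * AA w (t - v)) 0 * kp v := by
  have h2 : ρ.re < 2 := by linarith
  have hre : |ρ.re| < 2 := by rw [abs_of_pos h0]; exact h2
  have hD : DK (Sg ((Ist ρ)^[k + 2] qc)) := by
    rw [iter_Sg h2]
    exact (DK_iter kc_DK hre (k + 2) (by rw [order_kc h0 h1]; exact hm)).1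
  obtain ⟨c, hc, C, hcore⟩ := parts_of hw hn _ (iter_QG qc_QG h2 (k + 2)) hD
  obtain ⟨hB, hord⟩ := BB_iter (qc_BB0 hw) h0 h2 k (by rw [order_G0 hw h0 h1, hk])
  set Gk := (Ist ρ)^[k] (CV w qc) with hGk
  have hne : TT Gk ρ ≠ 0 := by
    rw [order_G0 hw h0 h1, hk] at hord
    have h3 : analyticOrderAt (TT Gk) ρ = 0 := by
      have h4 : analyticOrderAt (TT Gk) ρ + (k : ℕ∞) = 0 + k := by rw [← hord, zero_add]
      simpa using h4
    exact (hB.an h0 h2).analyticOrderAt_eq_zero.1 h3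
  obtain ⟨C1, hC1, hasy⟩ := hB.tail2 h0 h2
  set A : ℝ := ‖TT Gk ρ‖ with hA
  have hA0 : 0 < A := norm_pos_iff.2 hne
  refine ⟨c * A / 2, by positivity, ?_⟩
  filter_upwards [eventually_ge_atTop ((c * C1 + |C|) / (c * A / 2)), eventually_ge_atTop (1:ℝ)]
    with t ht1 ht2 s hs
  have ht0 : 0 < t := by linarith
  rw [div_le_iff₀ (by positivity)] at ht1
  have k1 := hcore t s hs
  rw [iter_CV hw h2, show k + 2 = (k + 1) + 1 from rfl, Function.iterate_succ_apply', Function.iterate_succ_apply'] at k1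
  have k2 := hasy t ht0.le
  have hE : 1 ≤ Real.exp (ρ.re * t) := Real.one_le_exp (by positivity)
  have k3 : A * (t * Real.exp (ρ.re * t)) - C1 * Real.exp (ρ.re * t) ≤ ‖Ist ρ (Ist ρ Gk) t‖ := by
    have k4 : ‖(t : ℂ) * cexp (ρ * t) * TT Gk ρ‖ = A * (t * Real.exp (ρ.re * t)) := by
      rw [norm_mul, norm_mul, norm_tw', Complex.norm_real, Real.norm_eq_abs, abs_of_pos ht0]
      ring
    have k5 : ‖(t : ℂ) * cexp (ρ * t) * TT Gk ρ‖ ≤ ‖Ist ρ (Ist ρ Gk) t‖ +
        ‖Ist ρ (Ist ρ Gk) t - (t : ℂ) * cexp (ρ * t) * TT Gk ρ‖ := by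
      rw [← norm_neg (Ist ρ (Ist ρ Gk) t - (t : ℂ) * cexp (ρ * t) * TT Gk ρ)]
      refine le_trans (le_of_eq ?_) (norm_add_le _ _)
      congr 1
      ring
    rw [k4] at k5
    linarith
  have k6 := mul_le_mul_of_nonneg_left k3 hc.le
  have k8 := le_abs_self C
  have k9 : (c * C1 + |C|) * Real.exp (ρ.re * t) ≤ t * (c * A / 2) * Real.exp (ρ.re * t) :=
    mul_le_mul_of_nonneg_right ht1 (by linarith)
  have k10 : |C| ≤ |C| * Real.exp (ρ.re * t) := le_mul_of_one_le_right (abs_nonneg _) hE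
  nlinarith

end

end H19.EW
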