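import Pool.Agent.H19.EW.W4

/-!
# Every window `[x, x log x]`
-/

open Complex MeasureTheory Filter Topology Set Metric

set_option autoImplicit false
set_option linter.unusedSectionVars false
set_option linter.unusedVariables false

namespace H19.EW

open H313.TK

noncomputable section

/-- the mass of the comparison function -/
def D1 : ℝ := ∫ x : ℝ, Real.exp (-(1 * |x|))

theorem D1_nonneg : 0 ≤ D1 := integral_nonneg fun x => (Real.exp_pos _).le

theorem tail_pt (a v : ℝ) (ha : 0 ≤ a) (hv : a ≤ |v|) :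
    Real.exp (-v) * W v ≤ 4 * (Real.exp a * W (-a)) * (Real.exp (-(1 * |v - a|)) + Real.exp (-(1 * |v - -a|))) := by
  have hW := W_pos (-a)
  rw [one_mul, one_mul]
  rcases le_total 0 v with h | h
  · rw [abs_of_nonneg h] at hv
    have h1 := W_dom a v (Or.inr ⟨ha, hv⟩)
    rw [W_sym a ha] at h1
    set r := |a - v| with hr
    have hr0 : 0 ≤ r := abs_nonneg _
    have hr1 : |v - a| = r := by rw [hr, abs_sub_comm]
    rw [hr1]
    have e1 : W v ≤ 4 * (Real.exp a * W (-a)) * Real.exp (-r) := by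
      have h3 : W v * 1 ≤ W v * Real.exp (2 * r) := mul_le_mul_of_nonneg_left (Real.one_le_exp (by linarith)) (W_pos v).le
      linarith
    have e2 : Real.exp (-v) ≤ 1 := Real.exp_le_one_iff.2 (by linarith)
    have e3 := W_pos v
    have e4 := Real.exp_pos (-|v - -a|)
    have e5 : 0 < 4 * (Real.exp a * W (-a)) := by positivity
    calc Real.exp (-v) * W v ≤ 1 * W v := mul_le_mul_of_nonneg_right e2 e3.le
      _ ≤ 4 * (Real.exp a * W (-a)) * Real.exp (-r) := by rw [one_mul]; exact e1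
      _ ≤ _ := mul_le_mul_of_nonneg_left (by linarith) e5.le
  · rw [abs_of_nonpos h] at hv
    have h1 := W_dom (-a) v (Or.inl ⟨by linarith, by linarith⟩)
    set r := |-a - v| with hr
    have hr0 : 0 ≤ r := abs_nonneg _
    have hr1 : |v - -a| = r := by rw [hr, abs_sub_comm]
    have hr2 : -v = a + r := by rw [hr, abs_of_nonneg (by linarith)]; ring
    rw [hr1, hr2, Real.exp_add]
    have e1 : Real.exp r * W v ≤ 4 * W (-a) * Real.exp (-r) := by
      have h3 : Real.exp r ≤ Real.exp (2 * r) := Real.exp_le_exp.2 (by linarith)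
      have h4 := mul_le_mul_of_nonneg_right h3 (W_pos v).le
      linarith
    have e4 := Real.exp_pos (-|v - a|)
    have e5 : 0 < 4 * (Real.exp a * W (-a)) := by positivity
    calc Real.exp a * Real.exp r * W v = Real.exp a * (Real.exp r * W v) := by ring
      _ ≤ Real.exp a * (4 * W (-a) * Real.exp (-r)) := mul_le_mul_of_nonneg_left e1 (Real.exp_pos _).le
      _ = 4 * (Real.exp a * W (-a)) * Real.exp (-r) := by ring
      _ ≤ _ := mul_le_mul_of_nonneg_left (by linarith) e5.le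

/-- the tail of an average -/
theorem tail (f : ℝ → ℝ) (hf : Measurable f) (hf0 : ∀ u, 0 ≤ f u) (hb : ∀ u, f u ≤ Real.exp u) (t a : ℝ) (ha : 0 ≤ a) :
    ∫ v : ℝ, f (t - v) * kp v ≤ (∫ v in Icc (-a) a, f (t - v) * kp v) +
      8 * C0 * D1 * (Real.exp (t + a) * W (-a)) := by
  have hi := avg_int f hf (fun u => by rw [abs_of_nonneg (hf0 u)]; exact hb u) t
  rw [← integral_add_compl (measurableSet_Icc (a := -a) (b := a)) hi]
  refine add_le_add le_rfl ?_
  have hC0 := C0_nonneg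
  have hW := W_pos (-a)
  set K : ℝ := C0 * (Real.exp t * (4 * (Real.exp a * W (-a)))) with hK
  have hK0 : 0 ≤ K := by positivity
  have hj : Integrable (fun v : ℝ => K * (Real.exp (-(1 * |v - a|)) + Real.exp (-(1 * |v - -a|)))) :=
    (((int_exp_abs 1 one_pos).comp_sub_right a).add ((int_exp_abs 1 one_pos).comp_sub_right (-a))).const_mul K
  have e1 : ∫ v in (Icc (-a) a)ᶜ, f (t - v) * kp v ≤
      ∫ v in (Icc (-a) a)ᶜ, K * (Real.exp (-(1 * |v - a|)) + Real.exp (-(1 * |v - -a|))) := by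
    refine setIntegral_mono_on hi.integrableOn hj.integrableOn measurableSet_Icc.compl fun v hv => ?_
    have hv2 : a ≤ |v| := by
      by_contra h
      push Not at h
      rw [abs_lt] at h
      exact hv ⟨h.1.le, h.2.le⟩
    have h1 := tail_pt a v ha hv2
    calc f (t - v) * kp v ≤ Real.exp (t - v) * (C0 * W v) :=
          mul_le_mul (hb _) (kp_bounds v).2 (kp_nonneg v) (Real.exp_pos _).le
      _ = C0 * (Real.exp t * (Real.exp (-v) * W v)) := by
          rw [sub_eq_add_neg, Real.exp_add]; ring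
      _ ≤ C0 * (Real.exp t * (4 * (Real.exp a * W (-a)) * (Real.exp (-(1 * |v - a|)) + Real.exp (-(1 * |v - -a|))))) :=
          mul_le_mul_of_nonneg_left (mul_le_mul_of_nonneg_left h1 (Real.exp_pos _).le) hC0
      _ = _ := by rw [hK]; ring
  have e2 : ∫ v in (Icc (-a) a)ᶜ, K * (Real.exp (-(1 * |v - a|)) + Real.exp (-(1 * |v - -a|))) ≤
      ∫ v : ℝ, K * (Real.exp (-(1 * |v - a|)) + Real.exp (-(1 * |v - -a|))) :=
    setIntegral_le_integral hj (ae_of_all _ fun v => by
      show 0 ≤ K * (Real.exp (-(1 * |v - a|)) + Real.exp (-(1 * |v - -a|)))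
      positivity)
  have e3 : ∫ v : ℝ, K * (Real.exp (-(1 * |v - a|)) + Real.exp (-(1 * |v - -a|))) = K * (2 * D1) := by
    rw [integral_const_mul, integral_add ((int_exp_abs 1 one_pos).comp_sub_right a)
      ((int_exp_abs 1 one_pos).comp_sub_right (-a)),
      integral_sub_right_eq_self (fun x => Real.exp (-(1 * |x|))) a,
      integral_sub_right_eq_self (fun x => Real.exp (-(1 * |x|))) (-a)]
    unfold D1
    ring
  refine (e1.trans e2).trans (le_of_eq ?_)
  rw [e3, hK, Real.exp_add]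
  ring

/-- the center of the window -/
def ct (l : ℝ) : ℝ := l + Real.log l / 2

theorem ct_tendsto : Tendsto ct atTop atTop := by
  refine tendsto_atTop_mono' atTop ?_ tendsto_id
  filter_upwards [eventually_ge_atTop (1:ℝ)] with l hl
  unfold ct
  have := Real.log_nonneg hl
  show l ≤ _
  linarith

/-- restriction to the window -/
theorem win {A : ℝ → ℝ} (hm : Measurable A) (hn : ∀ u, |A u| ≤ Real.exp u) (β : ℝ) (hβ : 1 / 3 ≤ β) (Lf : ℝ → ℝ) (hL : ∀ᶠ t in atTop, 1 ≤ Lf t)
    (hcore : ∃ c : ℝ, 0 < c ∧ ∀ᶠ t : ℝ in atTop, ∀ s : ℝ, s = 1 ∨ s = -1 →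
      c * (Lf t * Real.exp (β * t)) ≤ ∫ v : ℝ, max (s * A (t - v)) 0 * kp v) :
    ∃ c : ℝ, 0 < c ∧ ∀ᶠ l : ℝ in atTop, ∀ s : ℝ, s = 1 ∨ s = -1 →
      c * (Lf (ct l) * Real.exp (β * ct l)) ≤
        ∫ v in Icc (-(Real.log l / 2)) (Real.log l / 2), max (s * A (ct l - v)) 0 * kp v := by
  obtain ⟨c, hc, hev⟩ := hcore
  refine ⟨c / 2, by positivity, ?_⟩
  have hC0 := C0_nonneg
  have hD1 := D1_nonneg
  set B : ℝ := 8 * C0 * D1 with hB
  have hB0 : 0 ≤ B := by positivity
  -- the elementary asymptotic inequality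
  have hlim : ∀ᶠ l : ℝ in atTop, B * (l * Real.exp (-(l / 12))) ≤ c / 2 := by
    have h1 : Tendsto (fun l : ℝ => l * Real.exp (-(l / 12))) atTop (𝓝 0) := by
      have h2 : Tendsto (fun l : ℝ => l / 12) atTop atTop := tendsto_id.atTop_div_const (by norm_num)
      have h3 := (Real.tendsto_pow_mul_exp_neg_atTop_nhds_zero 1).comp h2
      have h4 : Tendsto (fun l : ℝ => 12 * ((l / 12) ^ 1 * Real.exp (-(l / 12)))) atTop (𝓝 (12 * 0)) := h3.const_mul 12
      rw [mul_zero] at h4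
      refine h4.congr fun l => ?_
      ring
    have h5 : Tendsto (fun l : ℝ => B * (l * Real.exp (-(l / 12)))) atTop (𝓝 (B * 0)) := h1.const_mul B
    rw [mul_zero] at h5
    exact h5.eventually (ge_mem_nhds (by positivity))
  filter_upwards [ct_tendsto.eventually hev, ct_tendsto.eventually hL, hlim, eventually_ge_atTop (1:ℝ)]
    with l h1 h2 h3 h4 s hs
  set a : ℝ := Real.log l / 2 with ha
  have hl0 : 0 < l := by linarith
  have ha0 : 0 ≤ a := by rw [ha]; have := Real.log_nonneg h4; positivity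
  have k1 := h1 s hs
  have k2 := tail (fun u => max (s * A u) 0) (by fun_prop) (fun u => le_max_right _ _)
    (fun u => (le_abs_self _).trans ((part_le s hs _).trans (hn u))) (ct l) a ha0
  have k3 : Real.exp (ct l + a) * W (-a) ≤ l * Real.exp (l / 4) := by
    have e1 : Real.exp (ct l + a) = l * Real.exp l := by
      have : ct l + a = Real.log l + l := by unfold ct; rw [ha]; ring
      rw [this, Real.exp_add, Real.exp_log hl0]
    have e2 : W (-a) ≤ Real.exp (-(3 / 4 * l)) := by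
      unfold W
      refine Real.exp_le_exp.2 ?_
      rw [max_eq_right (by linarith), abs_neg, abs_of_nonneg ha0]
      have e3 : 2 * a = Real.log l := by rw [ha]; ring
      rw [e3, Real.exp_log hl0]
      have := Real.pi_gt_three
      nlinarith
    rw [e1]
    calc l * Real.exp l * W (-a) ≤ l * Real.exp l * Real.exp (-(3 / 4 * l)) :=
          mul_le_mul_of_nonneg_left e2 (by positivity)
      _ = l * (Real.exp l * Real.exp (-(3 / 4 * l))) := by ring
      _ = _ := by rw [← Real.exp_add]; congr 2; ring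
  have k4 : B * (Real.exp (ct l + a) * W (-a)) ≤ c / 2 * Real.exp (β * ct l) := by
    have e1 : B * (Real.exp (ct l + a) * W (-a)) ≤ B * (l * Real.exp (l / 4)) := mul_le_mul_of_nonneg_left k3 hB0
    have e2 : B * (l * Real.exp (l / 4)) = (B * (l * Real.exp (-(l / 12)))) * Real.exp (l / 3) := by
      have : Real.exp (l / 4) = Real.exp (-(l / 12)) * Real.exp (l / 3) := by
        rw [← Real.exp_add]; congr 1; ring
      rw [this]
      ring
    have e3 : Real.exp (l / 3) ≤ Real.exp (β * ct l) := by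
      refine Real.exp_le_exp.2 ?_
      have : l ≤ ct l := by unfold ct; linarith
      nlinarith
    calc B * (Real.exp (ct l + a) * W (-a)) ≤ (B * (l * Real.exp (-(l / 12)))) * Real.exp (l / 3) := by rw [← e2]; exact e1
      _ ≤ c / 2 * Real.exp (l / 3) := mul_le_mul_of_nonneg_right h3 (Real.exp_pos _).le
      _ ≤ _ := mul_le_mul_of_nonneg_left e3 (by positivity)
  have k5 : Real.exp (β * ct l) ≤ Lf (ct l) * Real.exp (β * ct l) := le_mul_of_one_le_left (Real.exp_pos _).le h2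
  have k6 := mul_le_mul_of_nonneg_left k5 (by positivity : 0 ≤ c / 2)
  linarith

/-- a bound for the mass of the twisted kernel -/
theorem mass_le (β : ℝ) (h0 : 0 ≤ β) (h2 : β ≤ 2) :
    Integrable (fun v => Real.exp (-(β * v)) * kp v) ∧ ∫ v, Real.exp (-(β * v)) * kp v ≤ 4 * C0 * D1 := by
  have hC0 := C0_nonneg
  have hpt : ∀ v : ℝ, Real.exp (-(β * v)) * kp v ≤ 4 * C0 * Real.exp (-(1 * |v|)) := by
    intro v
    have h3 : Real.exp (-(β * v)) ≤ Real.exp (2 * |v|) := by
      refine Real.exp_le_exp.2 ?_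
      have h4 := neg_abs_le v
      have h5 := abs_nonneg v
      nlinarith
    calc Real.exp (-(β * v)) * kp v ≤ Real.exp (2 * |v|) * (C0 * W v) :=
          mul_le_mul h3 (kp_bounds v).2 (kp_nonneg v) (Real.exp_pos _).le
      _ = C0 * (W v * Real.exp (2 * |v|)) := by ring
      _ ≤ C0 * (4 * Real.exp (-|v|)) := mul_le_mul_of_nonneg_left (W_decay v) hC0
      _ = _ := by rw [one_mul]; ring
  have hi : Integrable (fun v => Real.exp (-(β * v)) * kp v) := by
    refine ((int_exp_abs 1 one_pos).const_mul (4 * C0)).mono' ?_ (ae_of_all _ fun v => ?_)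
    · have := kp_cont
      exact (by fun_prop : Continuous fun v => Real.exp (-(β * v)) * kp v).aestronglyMeasurable
    · rw [norm_mul, Real.norm_eq_abs, Real.norm_eq_abs, abs_of_pos (Real.exp_pos _), abs_of_nonneg (kp_nonneg v)]
      exact hpt v
  refine ⟨hi, ?_⟩
  have := integral_mono hi ((int_exp_abs 1 one_pos).const_mul (4 * C0)) hpt
  rw [integral_const_mul] at this
  exact this

/-- sup version -/
theorem win_sup {A : ℝ → ℝ} (hm : Measurable A) (hn : ∀ u, |A u| ≤ Real.exp u) (β : ℝ) (hβ : 1 / 3 ≤ β) (hβ1 : β ≤ 1) (Lf : ℝ → ℝ) (hL : ∀ᶠ t in atTop, 1 ≤ Lf t)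
    (hcore : ∃ c : ℝ, 0 < c ∧ ∀ᶠ t : ℝ in atTop, ∀ s : ℝ, s = 1 ∨ s = -1 →
      c * (Lf t * Real.exp (β * t)) ≤ ∫ v : ℝ, max (s * A (t - v)) 0 * kp v) :
    ∃ c : ℝ, 0 < c ∧ ∀ᶠ l : ℝ in atTop, ∀ s : ℝ, s = 1 ∨ s = -1 →
      ∃ u ∈ Icc l (l + Real.log l), c * (Lf (ct l) * Real.exp (β * u)) ≤ s * A u := by
  obtain ⟨c, hc, hev⟩ := win hm hn β hβ Lf hL hcore
  have hC0 := C0_nonneg
  have hD1 := D1_nonneg
  obtain ⟨hmi, hmass⟩ := mass_le β (by linarith) (by linarith)
  refine ⟨c / (4 * C0 * D1 + 1), by positivity, ?_⟩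
  filter_upwards [hev, ct_tendsto.eventually hL, eventually_ge_atTop (1:ℝ)] with l h1 h2 h3 s hs
  by_contra hcon
  push Not at hcon
  set a : ℝ := Real.log l / 2 with ha
  set δ : ℝ := c / (4 * C0 * D1 + 1) * Lf (ct l) with hδ
  have hδ0 : 0 < δ := by positivity
  have ha0 : 0 ≤ a := by rw [ha]; have := Real.log_nonneg h3; positivity
  have k1 := h1 s hs
  have hi := avg_int (fun u => max (s * A u) 0) (by fun_prop) (fun u => (part_le s hs _).trans (hn u)) (ct l)
  have k2 : ∫ v in Icc (-a) a, max (s * A (ct l - v)) 0 * kp v ≤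
      ∫ v in Icc (-a) a, δ * Real.exp (β * ct l) * (Real.exp (-(β * v)) * kp v) := by
    refine setIntegral_mono_on hi.integrableOn ((hmi.const_mul _).integrableOn) measurableSet_Icc fun v hv => ?_
    have hu : ct l - v ∈ Icc l (l + Real.log l) := by
      unfold ct
      constructor <;> linarith [hv.1, hv.2]
    have h5 : max (s * A (ct l - v)) 0 ≤ δ * Real.exp (β * (ct l - v)) := by
      refine max_le ?_ (by positivity)
      refine (hcon _ hu).le.trans (le_of_eq ?_)
      rw [hδ]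
      ring
    calc max (s * A (ct l - v)) 0 * kp v ≤ δ * Real.exp (β * (ct l - v)) * kp v :=
          mul_le_mul_of_nonneg_right h5 (kp_nonneg v)
      _ = δ * (Real.exp (β * ct l) * Real.exp (-(β * v))) * kp v := by
          rw [← Real.exp_add]; congr 3; ring
      _ = _ := by ring
  have k3 : ∫ v in Icc (-a) a, δ * Real.exp (β * ct l) * (Real.exp (-(β * v)) * kp v) ≤
      δ * Real.exp (β * ct l) * (4 * C0 * D1) := by
    rw [integral_const_mul]
    refine mul_le_mul_of_nonneg_left ?_ (by positivity)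
    refine (setIntegral_le_integral hmi (ae_of_all _ fun v => ?_)).trans hmass
    exact mul_nonneg (Real.exp_pos _).le (kp_nonneg v)
  have k4 := (k1.trans k2).trans k3
  have k5 : δ * Real.exp (β * ct l) * (4 * C0 * D1) = c * (Lf (ct l) * Real.exp (β * ct l)) * ((4 * C0 * D1) / (4 * C0 * D1 + 1)) := by
    rw [hδ]
    field_simp
  rw [k5] at k4
  have k6 : (4 * C0 * D1) / (4 * C0 * D1 + 1) < 1 := by
    rw [div_lt_one (by positivity)]
    linarith
  have k7 : 0 < c * (Lf (ct l) * Real.exp (β * ct l)) := by positivity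
  nlinarith

/-- the sup version in the original variable -/
theorem sup_log {w : ℝ → ℝ} {β : ℝ} {Lf : ℝ → ℝ} (h : ∃ c : ℝ, 0 < c ∧ ∀ᶠ l : ℝ in atTop, ∀ s : ℝ, s = 1 ∨ s = -1 →
      ∃ u ∈ Icc l (l + Real.log l), c * (Lf (ct l) * Real.exp (β * u)) ≤ s * AA w u) :
    ∃ c : ℝ, 0 < c ∧ ∀ᶠ x : ℝ in atTop, ∀ s : ℝ, s = 1 ∨ s = -1 →
      ∃ y ∈ Icc x (x * Real.log x), c * (Lf (ct (Real.log x)) * y ^ β) ≤ s * S w y := by
  obtain ⟨c, hc, hev⟩ := h
  refine ⟨c, hc, ?_⟩
  filter_upwards [Real.tendsto_log_atTop.eventually hev, eventually_ge_atTop (Real.exp 1)] with x hx hx1 s hs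
  have hx0 : 0 < x := (Real.exp_pos 1).trans_le hx1
  have hl1 : 1 ≤ Real.log x := by rwa [Real.le_log_iff_exp_le hx0]
  obtain ⟨u, hu, hu2⟩ := hx s hs
  refine ⟨Real.exp u, ⟨?_, ?_⟩, ?_⟩
  · rw [← Real.log_le_iff_le_exp hx0]; exact hu.1
  · have h2 : Real.log (x * Real.log x) = Real.log x + Real.log (Real.log x) :=
      Real.log_mul hx0.ne' (by linarith)
    rw [← Real.le_log_iff_exp_le (by positivity), h2]
    exact hu.2
  · rw [← Real.exp_mul, mul_comm u β]
    exact hu2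

theorem S_smul (a : ℝ) (w : ℝ → ℝ) (x : ℝ) : S (fun u => a * w u) x = a * S w x := by
  unfold S
  rw [← tsum_mul_left]
  refine tsum_congr fun n => ?_
  ring

/-- normalisation of the weight -/
theorem Wt.norm {w : ℝ → ℝ} (hw : Wt w) : ∃ a : ℝ, 0 < a ∧ Wt (fun u => a * w u) ∧
    ∀ u, |AA (fun u => a * w u) u| ≤ Real.exp u := by
  obtain ⟨B, hB, hb⟩ := hw.bd
  have hw' : ∀ a : ℝ, 0 < a → Wt (fun u => a * w u) := by
    intro a ha
    refine ⟨hw.meas.const_mul a, a * B, by positivity, fun u hu => ⟨?_, ?_⟩⟩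
    · rw [abs_mul, abs_of_pos ha]
      exact mul_le_mul_of_nonneg_left (hb u hu).1 ha.le
    · rw [abs_mul, abs_of_pos ha, mul_div_assoc]
      exact mul_le_mul_of_nonneg_left (hb u hu).2 ha.le
  refine ⟨1 / (4 * B + 1), by positivity, hw' _ (by positivity), fun u => ?_⟩
  have h1 := (AA_bd hB hb u).1
  unfold AA at h1 ⊢
  rw [S_smul, abs_mul, abs_of_pos (by positivity)]
  have h2 := Real.exp_pos u
  calc 1 / (4 * B + 1) * |S w (Real.exp u)| ≤ 1 / (4 * B + 1) * (4 * B * Real.exp u) :=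
        mul_le_mul_of_nonneg_left h1 (by positivity)
    _ = Real.exp u * (4 * B / (4 * B + 1)) := by ring
    _ ≤ Real.exp u * 1 := by
        refine mul_le_mul_of_nonneg_left ?_ h2.le
        rw [div_le_one (by positivity)]
        linarith
    _ = _ := mul_one _

theorem wh_smul (a : ℝ) (w : ℝ → ℝ) (s : ℂ) : wh (fun u => a * w u) s = (a : ℂ) * wh w s := by
  unfold wh mellin
  rw [← integral_const_mul]
  refine integral_congr_ae (ae_of_all _ fun u => ?_)
  simp only [smul_eq_mul]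
  push_cast
  ring

theorem wh_smul_order {a : ℝ} (ha : 0 < a) {w : ℝ → ℝ} (hw : Wt w) {ρ : ℂ} (h0 : 0 < ρ.re) (h1 : ρ.re < 1) :
    analyticOrderAt (wh (fun u => a * w u)) ρ = analyticOrderAt (wh w) ρ := by
  have he : wh (fun u => a * w u) = (fun _ => (a : ℂ)) * wh w := by
    funext s
    exact wh_smul a w s
  rw [he, analyticOrderAt_mul analyticAt_const (wh_an hw h0 h1), analyticAt_const.analyticOrderAt_eq_zero.2 (by
    rw [Ne, Complex.ofReal_eq_zero]; exact ha.ne'), zero_add]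

/-- **Both signs in every window.** -/
theorem signs {w : ℝ → ℝ} (hw : Wt w) {ρ : ℂ} (h0 : 1 / 3 ≤ ρ.re) (h1 : ρ.re < 1)
    {k : ℕ} (hk : analyticOrderAt (wh w) ρ = k) (hm : ((k + 1 : ℕ) : ℕ∞) ≤ analyticOrderAt riemannZeta ρ) :
    ∃ c : ℝ, 0 < c ∧ ∀ᶠ x : ℝ in atTop, ∀ s : ℝ, s = 1 ∨ s = -1 →
      ∃ y ∈ Icc x (x * Real.log x), c * y ^ ρ.re ≤ s * S w y := by
  have hp : 0 < ρ.re := by linarith
  obtain ⟨a, ha, hwa, hna⟩ := hw.norm
  obtain ⟨c1, hc1, hcore⟩ := core1 hwa hna hp h1 (by rw [wh_smul_order ha hw hp h1]; exact hk) hm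
  have hw2 := win_sup (AA_meas hwa) hna ρ.re h0 h1.le (fun _ => 1) (Eventually.of_forall fun _ => le_rfl)
    ⟨c1, hc1, by simpa using hcore⟩
  obtain ⟨c, hc, h⟩ := sup_log (β := ρ.re) (Lf := fun _ => 1) hw2
  refine ⟨c / a, by positivity, ?_⟩
  filter_upwards [h] with x hx s hs
  obtain ⟨y, hy, hy2⟩ := hx s hs
  refine ⟨y, hy, ?_⟩
  rw [S_smul, one_mul] at hy2
  rw [div_mul_eq_mul_div, div_le_iff₀ ha]
  calc c * y ^ ρ.re ≤ s * (a * S w y) := hy2
    _ = _ := by ring

theorem signs2 {w : ℝ → ℝ} (hw : Wt w) {ρ : ℂ} (h0 : 1 / 3 ≤ ρ.re) (h1 : ρ.re < 1)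
    {k : ℕ} (hk : analyticOrderAt (wh w) ρ = k) (hm : ((k + 2 : ℕ) : ℕ∞) ≤ analyticOrderAt riemannZeta ρ) :
    ∃ c : ℝ, 0 < c ∧ ∀ᶠ x : ℝ in atTop, ∀ s : ℝ, s = 1 ∨ s = -1 →
      ∃ y ∈ Icc x (x * Real.log x), c * (y ^ ρ.re * Real.log y) ≤ s * S w y := by
  have hp : 0 < ρ.re := by linarith
  obtain ⟨a, ha, hwa, hna⟩ := hw.norm
  have hcore := core2 hwa hna hp h1 (by rw [wh_smul_order ha hw hp h1]; exact hk) hm
  have hw2 := win_sup (AA_meas hwa) hna ρ.re h0 h1.le (fun t => t) (eventually_ge_atTop 1) hcore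
  obtain ⟨c, hc, h⟩ := sup_log (β := ρ.re) (Lf := fun t => t) hw2
  refine ⟨c / 2 / a, by positivity, ?_⟩
  filter_upwards [h, eventually_ge_atTop (Real.exp 1)] with x hx hx1 s hs
  have hx0 : 0 < x := (Real.exp_pos 1).trans_le hx1
  have hl1 : 1 ≤ Real.log x := by rwa [Real.le_log_iff_exp_le hx0]
  obtain ⟨y, hy, hy2⟩ := hx s hs
  refine ⟨y, hy, ?_⟩
  have hy0 : 0 < y := hx0.trans_le hy.1
  have h5 : Real.log y ≤ 2 * ct (Real.log x) := by
    have h6 : Real.log y ≤ Real.log x + Real.log (Real.log x) := by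
      rw [← Real.log_mul hx0.ne' (by linarith)]
      exact Real.log_le_log hy0 hy.2
    have h7 : Real.log (Real.log x) ≤ Real.log x := (Real.log_le_sub_one_of_pos (by linarith)).trans (by linarith)
    have h8 : 0 ≤ Real.log (Real.log x) := Real.log_nonneg hl1
    unfold ct
    linarith
  have h6 : 0 < y ^ ρ.re := Real.rpow_pos_of_pos hy0 _
  rw [S_smul] at hy2
  rw [div_mul_eq_mul_div, div_le_iff₀ ha]
  calc c / 2 * (y ^ ρ.re * Real.log y) ≤ c / 2 * (y ^ ρ.re * (2 * ct (Real.log x))) :=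
        mul_le_mul_of_nonneg_left (mul_le_mul_of_nonneg_left h5 h6.le) (by positivity)
    _ = c * (ct (Real.log x) * y ^ ρ.re) := by ring
    _ ≤ s * (a * S w y) := hy2
    _ = _ := by ring

end

end H19.EW
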