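import Mathlib

open Complex Filter Topology Set MeasureTheory

namespace ZU

/-- `∑_{n ≤ N} n^{-s}` -/
noncomputable def DN (N : ℕ) (s : ℂ) : ℂ := ∑ n ∈ Finset.Icc 1 N, (n : ℂ) ^ (-s)

/-- closed rectangle -/
def rect (a b B : ℝ) : Set ℂ := {z : ℂ | a ≤ z.re ∧ z.re ≤ b ∧ |z.im| ≤ B}

/-- the primes `≤ M` -/
def pr (M : ℕ) : Finset ℕ := (Finset.Icc 1 M).filter Nat.Prime

/-- `∏_{p ≤ M} (1 - a_p p^{-s})` -/
noncomputable def EM (M : ℕ) (a : ℕ → ℂ) (s : ℂ) : ℂ := ∏ p ∈ pr M, (1 - a p * (p : ℂ) ^ (-s))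

/-- Dirichlet polynomial with coefficients `x` -/
noncomputable def Dir (S : Finset ℕ) (x : ℕ → ℂ) (t : ℝ) : ℂ :=
  ∑ n ∈ S, x n * (n : ℂ) ^ (-(t * I))

/-- `∑_{n > M} n^{-2σ}` -/
noncomputable def tail (σ : ℝ) (M : ℕ) : ℝ := ∑' n : ℕ, if M < n then (n : ℝ) ^ (-(2 * σ)) else 0

end ZU
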